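import Pool.Agent.Helper54.IP.Defs

/-!
TH-P module L3.  Reversal symmetry `(X, a, b) ↦ (X J, 1/a, b reversed)`, `J` = reversal of `Fin n`.
`X' j k = X j (rev k)`, `Y' k j = Y (rev k) j`.
-/

namespace Pool.Agent.Helper54.IP

open Matrix

variable {F : Type*} [Field F]

private lemma rev_in {n : ℕ} (X Y : Matrix (Fin n) (Fin n) F) (c : Fin n → F) (i j : Fin n) :
    (Y.submatrix Fin.rev id * diagonal c * X.submatrix id Fin.rev) i j
      = (Y * diagonal c * X) (Fin.rev i) (Fin.rev j) := by
  rw [Matrix.mul_apply, Matrix.mul_apply]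
  simp only [Matrix.mul_diagonal, Matrix.submatrix_apply, id_eq]

private lemma rev_out {n : ℕ} (X Y : Matrix (Fin n) (Fin n) F) (c : Fin n → F) (i j : Fin n) :
    (X.submatrix id Fin.rev * diagonal (fun t => c (Fin.rev t)) * Y.submatrix Fin.rev id) i j
      = (X * diagonal c * Y) i j := by
  rw [Matrix.mul_apply, Matrix.mul_apply]
  simp only [Matrix.mul_diagonal, Matrix.submatrix_apply, id_eq]
  exact Equiv.sum_comp Fin.revPerm (fun k => X i k * c k * Y k j)

theorem exists_rev {n : ℕ} (M : Mat F n) : ∃ M' : Mat F n,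
    (∀ i, M'.a i = (M.a i)⁻¹) ∧ (∀ i, M'.b i = M.b (Fin.rev i)) ∧
    (∀ j k, M'.X j k = M.X j (Fin.rev k)) := by
  refine ⟨{
    X := M.X.submatrix id Fin.rev
    Y := M.Y.submatrix Fin.rev id
    a := fun i => (M.a i)⁻¹
    b := fun i => M.b (Fin.rev i)
    YX := ?_
    XY := ?_
    a_ne := fun i => inv_ne_zero (M.a_ne i)
    b_ne := fun i => M.b_ne _
    a_inj := fun i j h => M.a_inj (inv_injective h)
    b_inj := fun i j h => Fin.rev_injective (M.b_inj h)
    c1 := ?_
    c2 := ?_
    c3 := ?_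
    c4 := ?_
    d1 := ?_
    d2 := ?_
    d3 := ?_
    d4 := ?_ }, fun i => rfl, fun i => rfl, fun j k => rfl⟩
  · ext i j
    have h := congrFun (congrFun M.YX (Fin.rev i)) (Fin.rev j)
    simp only [Matrix.mul_apply, Matrix.submatrix_apply, id_eq] at h ⊢
    rw [h]
    by_cases hij : i = j
    · subst hij; simp
    · rw [Matrix.one_apply_ne hij, Matrix.one_apply_ne (fun h => hij (Fin.rev_injective h))]
  · ext i j
    have h := congrFun (congrFun M.XY i) j
    simp only [Matrix.mul_apply, Matrix.submatrix_apply, id_eq] at h ⊢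
    rw [← h]
    exact Equiv.sum_comp Fin.revPerm (fun k => M.X i k * M.Y k j)
  · intro i j h
    rw [rev_in]
    exact M.c2 _ _ (by simp only [Fin.val_rev]; omega)
  · intro i j h
    rw [rev_in]
    simp only [inv_inv]
    exact M.c1 _ _ (by simp only [Fin.val_rev]; omega)
  · intro i j h
    rw [rev_out]
    exact M.c3 _ _ h
  · intro i j h
    rw [rev_out M.X M.Y (fun t => (M.b t)⁻¹)]
    exact M.c4 _ _ h
  · intro i j h
    rw [rev_in]
    exact M.d2 _ _ (by simp only [Fin.val_rev]; omega)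
  · intro i j h
    rw [rev_in]
    simp only [inv_inv]
    exact M.d1 _ _ (by simp only [Fin.val_rev]; omega)
  · intro i j h
    rw [rev_out]
    exact M.d3 _ _ h
  · intro i j h
    rw [rev_out M.X M.Y (fun t => (M.b t)⁻¹)]
    exact M.d4 _ _ h

end Pool.Agent.Helper54.IP
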