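import Pool.Agent.Helper54.IP.Normal

/-!
TH-P module L5.  Every member of the main family is an irreducible inverting pair.

Scale `a = b = 1`.  `η_k(y) = ∏_(m<k) (y - q^m)`, `X j k = ∑_l η_l(q^j) η_l(q^k)/Φ_l` is symmetric, `v_j = ∑_k η_k(q^j)/Φ_k x_k`.
(c1) is clear from the split form.  (c2) follows from the identity (checked after division by `η_(k-1)(y)`, `y = q^j`, `l0 = s q^(n-1)`, `d = n-1`)
`(y + l0) A v_j - l0 (1 - y) A v_(j-1) = (y - q^d) v_(j+1) + (l0 y + q^d) v_j`; in coordinates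
`(y+l0)[q^k (y - q^(k-1)) + φ_k] + l0 [(y - q^k)(y - q^(k-1)) + φ_k q^(1-k) (y - q^(k-1))] = (y - q^d) q^k (y - q^(-1)) + (l0 y + q^d)(y - q^(k-1))`.
(c3), (c4): `X` is symmetric and `a = b`.
Irreducible: an invariant subspace is spanned by a subset of the `v_j`; the coefficient of `v_(j+1)` in `A v_j` is nonzero and
the coefficient of `v_(j-1)` in `A⁻¹ v_j` is nonzero.
-/

namespace Pool.Agent.Helper54.IP

open Matrix

variable {F : Type*} [Field F]

private lemma cv_up {n : ℕ} (T : Fin n → Fin n → F) (h0 : ∀ i l, l < i → T i l = 0)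
    (hd : ∀ l, T l l ≠ 0) (c : Fin n → F) (k : ℕ)
    (hc : ∀ i : Fin n, k ≤ (i : ℕ) → ∑ l, c l * T i l = 0) :
    ∀ l : Fin n, k ≤ (l : ℕ) → c l = 0 := by
  have key : ∀ r : ℕ, ∀ l : Fin n, n - 1 - (l : ℕ) = r → k ≤ (l : ℕ) → c l = 0 := by
    intro r
    induction r using Nat.strong_induction_on with
    | _ r ih =>
      intro l hl hk
      have h1 := hc l hk
      rw [Finset.sum_eq_single l] at h1
      · exact (mul_eq_zero.mp h1).resolve_right (hd l)
      · intro b _ hb
        rcases lt_or_gt_of_ne hb with h | h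
        · rw [h0 l b h, mul_zero]
        · have hbl : (l : ℕ) < (b : ℕ) := h
          rw [ih (n - 1 - (b : ℕ)) (by omega) b rfl (by omega), zero_mul]
      · intro h; exact absurd (Finset.mem_univ l) h
  intro l hk
  exact key _ l rfl hk

/-- coordinates of the eigenvectors of `Ks` -/
private noncomputable def cc (n : ℕ) (a q s : F) (k : ℕ) (y : F) : F :=
  ∏ m ∈ Finset.range k, (y - q ^ m) / phi n a 1 q s (m + 1)

private lemma cc_zero (n : ℕ) (a q s : F) (y : F) : cc n a q s 0 y = 1 := by simp [cc]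

private lemma cc_succ (n : ℕ) (a q s : F) (k : ℕ) (y : F) :
    cc n a q s (k + 1) y = cc n a q s k y * ((y - q ^ k) / phi n a 1 q s (k + 1)) := by
  unfold cc
  rw [Finset.prod_range_succ]

theorem phi_ne {n : ℕ} {a b q s : F} (ha : a ≠ 0) (hb : b ≠ 0) (hq : q ≠ 0)
    (hq1 : ∀ i, 1 ≤ i → i < n → q ^ i ≠ 1) (hs1 : ∀ i, 1 ≤ i → i < n → 1 + s * q ^ i ≠ 0)
    {k : ℕ} (h1 : 1 ≤ k) (h2 : k < n) : phi n a b q s k ≠ 0 := by
  unfold phi
  refine div_ne_zero (mul_ne_zero (mul_ne_zero (mul_ne_zero (mul_ne_zero ha hb)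
    (pow_ne_zero _ hq)) ?_) ?_) (hs1 _ (by omega) (by omega))
  · exact sub_ne_zero.mpr (Ne.symm (hq1 k h1 h2))
  · exact sub_ne_zero.mpr (hq1 (n - k) (by omega) (by omega))

private lemma phi_b (n : ℕ) (a b q s : F) (k : ℕ) : phi n a b q s k = b * phi n a 1 q s k := by
  unfold phi
  ring

private lemma cc_mul {n : ℕ} {a q s : F} {k : ℕ} (h : phi n a 1 q s (k + 1) ≠ 0) (y : F) :
    cc n a q s (k + 1) y * phi n a 1 q s (k + 1) = cc n a q s k y * (y - q ^ k) := by
  rw [cc_succ, mul_assoc, div_mul_cancel₀ _ h]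

private lemma cc_shift {n : ℕ} {a q s : F} (hf : ∀ k, 1 ≤ k → k < n → phi n a 1 q s k ≠ 0)
    (y : F) : ∀ k, k + 1 < n →
    cc n a q s (k + 1) (q * y) * phi n a 1 q s (k + 1) = q ^ k * (q * y - 1) * cc n a q s k y := by
  intro k
  induction k with
  | zero =>
    intro h
    rw [cc_mul (hf 1 le_rfl h), cc_zero, cc_zero]
    ring
  | succ k ih =>
    intro h
    have h1 := ih (by omega)
    have hk1 := hf (k + 1) (by omega) (by omega)
    rw [cc_mul (hf (k + 1 + 1) (by omega) h)]
    apply mul_right_cancel₀ hk1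
    have h2 := cc_mul hk1 y
    have e : q ^ (k + 1) = q * q ^ k := pow_succ' q k
    rw [e]
    generalize phi n a 1 q s (k + 1) = f at *
    generalize cc n a q s (k + 1) (q * y) = c1 at *
    generalize cc n a q s (k + 1) y = c2 at *
    generalize cc n a q s k y = c3 at *
    generalize q ^ k = p at *
    linear_combination (q * y - q * p) * h1 - q * p * (q * y - 1) * h2

/-- the key identity, coordinate `k + 1` -/
private lemma cc_key {d : ℕ} {a q s : F} (hq : q ≠ 0)
    (hf : ∀ k, 1 ≤ k → k < d + 1 → phi (d + 1) a 1 q s k ≠ 0)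
    (hs1 : ∀ i, 1 ≤ i → i < d + 1 → 1 + s * q ^ i ≠ 0) (y y' : F) (hy : y = q * y')
    (k : ℕ) (hk : k + 1 < d + 1) :
    (y + s * q ^ d) * (a * q ^ (k + 1) * cc (d + 1) a q s (k + 1) y + cc (d + 1) a q s k y)
      - s * q ^ d * (1 - y)
        * (a * q ^ (k + 1) * cc (d + 1) a q s (k + 1) y' + cc (d + 1) a q s k y')
    = a * ((y - q ^ d) * cc (d + 1) a q s (k + 1) (q * y)
        + (s * q ^ d * y + q ^ d) * cc (d + 1) a q s (k + 1) y) := by
  have hk1 := hf (k + 1) (by omega) hk
  have h1 := cc_mul hk1 y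
  have h2 := cc_mul hk1 y'
  have h3 := cc_shift hf y k hk
  have h4 := cc_shift hf y' k hk
  rw [← hy] at h4
  have hr := hs1 (d - k) (by omega) (by omega)
  have hphi : phi (d + 1) a 1 q s (k + 1) * (1 + s * q ^ (d - k))
      = a * q ^ k * (1 - q ^ (k + 1)) * (q ^ (d - k) - 1) := by
    unfold phi
    rw [show d + 1 - (k + 1) = d - k by omega, Nat.add_sub_cancel, div_mul_cancel₀ _ hr, mul_one]
  have e1 : q ^ (k + 1) = q * q ^ k := pow_succ' q k
  have e2 : q ^ d = q ^ k * q ^ (d - k) := by rw [← pow_add]; congr 1; omega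
  have hp : q ^ k ≠ 0 := pow_ne_zero _ hq
  apply mul_right_cancel₀ hk1
  rw [e1] at hphi ⊢
  rw [e2]
  generalize phi (d + 1) a 1 q s (k + 1) = f at *
  generalize cc (d + 1) a q s (k + 1) (q * y) = C1 at *
  generalize cc (d + 1) a q s (k + 1) y = C2 at *
  generalize cc (d + 1) a q s (k + 1) y' = C3 at *
  generalize cc (d + 1) a q s k y = D1 at *
  generalize cc (d + 1) a q s k y' = D2 at *
  generalize q ^ (d - k) = r at *
  generalize q ^ k = p at *
  linear_combination ((y + s * (p * r)) * a * q * p - a * (s * (p * r) * y + p * r)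
      + s * r * f + s * r * a * q * p * (y' - p)) * h1
    - (s * r * f + s * r * a * q * p * (y' - p)) * h4
    - s * (p * r) * (1 - y) * a * q * p * h2 - a * (y - p * r) * h3
    - s * r * a * p * D1 * (y - p) * hy + D1 * y * hphi

private lemma cc_above {n : ℕ} {a q s : F} {k j : ℕ} (h : j < k) : cc n a q s k (q ^ j) = 0 := by
  unfold cc
  refine Finset.prod_eq_zero (Finset.mem_range.mpr h) ?_
  rw [sub_self, zero_div]

private lemma cc_diag {n : ℕ} {a q s : F} (hq : q ≠ 0)
    (hq1 : ∀ i, 1 ≤ i → i < n → q ^ i ≠ 1)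
    (hf : ∀ k, 1 ≤ k → k < n → phi n a 1 q s k ≠ 0) {j : ℕ} (hj : j < n) :
    cc n a q s j (q ^ j) ≠ 0 := by
  unfold cc
  refine Finset.prod_ne_zero_iff.mpr fun m hm => ?_
  have hm' := Finset.mem_range.mp hm
  refine div_ne_zero ?_ (hf (m + 1) (by omega) (by omega))
  have e : q ^ j = q ^ m * q ^ (j - m) := by rw [← pow_add]; congr 1; omega
  rw [e, show q ^ m * q ^ (j - m) - q ^ m = q ^ m * (q ^ (j - m) - 1) by ring]
  exact mul_ne_zero (pow_ne_zero _ hq) (sub_ne_zero.mpr (hq1 _ (by omega) (by omega)))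

theorem main_cA {V : Type*} [AddCommGroup V] [Module F V] {d : ℕ} {K : V ≃ₗ[F] V} {a q : F}
    {x : Module.Basis (Fin (d + 1)) F V}
    (hA : ∀ i : Fin (d + 1), K.symm (x i) = (a * q ^ (i : ℕ)) • x i
      + if h : (i : ℕ) + 1 < d + 1 then x ⟨i + 1, h⟩ else 0) :
    ∀ (z : V) (k : ℕ) (hk : k + 1 < d + 1), x.repr (K.symm z) ⟨k + 1, hk⟩
      = a * q ^ (k + 1) * x.repr z ⟨k + 1, hk⟩ + x.repr z ⟨k, by omega⟩ := by
  intro z k hk
  have h1 : (x.coord ⟨k + 1, hk⟩) ∘ₗ (K.symm : V →ₗ[F] V)
      = (a * q ^ (k + 1)) • x.coord ⟨k + 1, hk⟩ + x.coord ⟨k, by omega⟩ := by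
    refine x.ext fun i => ?_
    simp only [LinearMap.comp_apply, LinearEquiv.coe_coe, LinearMap.add_apply,
      LinearMap.smul_apply, Module.Basis.coord_apply, hA i, map_add, map_smul,
      Module.Basis.repr_self, smul_eq_mul]
    by_cases h1 : (i : ℕ) + 1 < d + 1
    · rw [dif_pos h1, Module.Basis.repr_self]
      simp only [Finsupp.single_apply, Fin.ext_iff]
      by_cases h2 : (i : ℕ) = k + 1
      · rw [if_pos h2, if_neg (by omega), if_neg (by omega), h2]
      · rw [if_neg h2]
        by_cases h3 : (i : ℕ) = k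
        · rw [if_pos (by omega), if_pos h3]; ring
        · rw [if_neg (by omega), if_neg h3]; ring
    · rw [dif_neg h1]
      simp only [Finsupp.single_apply, Fin.ext_iff, map_zero, Finsupp.coe_zero, Pi.zero_apply]
      by_cases h2 : (i : ℕ) = k + 1
      · rw [if_pos h2, if_neg (by omega), h2]
      · rw [if_neg h2, if_neg (by omega)]; ring
  exact LinearMap.congr_fun h1 z

theorem main_cA0 {V : Type*} [AddCommGroup V] [Module F V] {d : ℕ} {K : V ≃ₗ[F] V} {a q : F}
    {x : Module.Basis (Fin (d + 1)) F V}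
    (hA : ∀ i : Fin (d + 1), K.symm (x i) = (a * q ^ (i : ℕ)) • x i
      + if h : (i : ℕ) + 1 < d + 1 then x ⟨i + 1, h⟩ else 0) :
    ∀ (z : V), x.repr (K.symm z) ⟨0, by omega⟩ = a * x.repr z ⟨0, by omega⟩ := by
  intro z
  have h1 : (x.coord ⟨0, by omega⟩) ∘ₗ (K.symm : V →ₗ[F] V) = a • x.coord ⟨0, by omega⟩ := by
    refine x.ext fun i => ?_
    simp only [LinearMap.comp_apply, LinearEquiv.coe_coe,
      LinearMap.smul_apply, Module.Basis.coord_apply, hA i, map_add, map_smul,
      Module.Basis.repr_self, smul_eq_mul]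
    by_cases h1 : (i : ℕ) + 1 < d + 1
    · rw [dif_pos h1, Module.Basis.repr_self]
      simp only [Finsupp.single_apply, Fin.ext_iff]
      by_cases h2 : (i : ℕ) = 0
      · rw [if_pos h2, if_neg (by omega), h2]; ring
      · rw [if_neg h2, if_neg (by omega)]; ring
    · rw [dif_neg h1]
      simp only [Finsupp.single_apply, Fin.ext_iff, map_zero, Finsupp.coe_zero, Pi.zero_apply]
      by_cases h2 : (i : ℕ) = 0
      · rw [if_pos h2, h2]; ring
      · rw [if_neg h2]; ring
  exact LinearMap.congr_fun h1 z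

theorem main_cB {V : Type*} [AddCommGroup V] [Module F V] {d : ℕ} {Ks : V ≃ₗ[F] V} {b q : F}
    {φ : ℕ → F} {x : Module.Basis (Fin (d + 1)) F V}
    (hB : ∀ i : Fin (d + 1), Ks (x i) = (b * q ^ (i : ℕ)) • x i
      + if h : 0 < (i : ℕ) then φ i • x ⟨i - 1, by omega⟩ else 0) :
    ∀ (z : V) (k : ℕ) (hk : k + 1 < d + 1), x.repr (Ks z) ⟨k, by omega⟩
      = b * q ^ k * x.repr z ⟨k, by omega⟩ + φ (k + 1) * x.repr z ⟨k + 1, hk⟩ := by
  intro z k hk
  have h1 : (x.coord ⟨k, by omega⟩) ∘ₗ (Ks : V →ₗ[F] V)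
      = (b * q ^ k) • x.coord ⟨k, by omega⟩ + φ (k + 1) • x.coord ⟨k + 1, hk⟩ := by
    refine x.ext fun i => ?_
    simp only [LinearMap.comp_apply, LinearEquiv.coe_coe, LinearMap.add_apply,
      LinearMap.smul_apply, Module.Basis.coord_apply, hB i, map_add, map_smul,
      Module.Basis.repr_self, smul_eq_mul]
    by_cases h1 : 0 < (i : ℕ)
    · rw [dif_pos h1, map_smul, Finsupp.smul_apply, Module.Basis.repr_self]
      simp only [Finsupp.single_apply, Fin.ext_iff, smul_eq_mul]
      by_cases h2 : (i : ℕ) = k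
      · rw [if_pos h2, if_neg (by omega), if_neg (by omega), h2]; ring
      · rw [if_neg h2]
        by_cases h3 : (i : ℕ) = k + 1
        · rw [if_pos (by omega), if_pos h3, h3]; ring
        · rw [if_neg (by omega), if_neg h3]; ring
    · rw [dif_neg h1]
      simp only [Finsupp.single_apply, Fin.ext_iff, map_zero, Finsupp.coe_zero, Pi.zero_apply]
      by_cases h2 : (i : ℕ) = k
      · rw [if_pos h2, if_neg (by omega), h2]; ring
      · rw [if_neg h2, if_neg (by omega)]; ring
  exact LinearMap.congr_fun h1 z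

private lemma main_cBd {V : Type*} [AddCommGroup V] [Module F V] {d : ℕ} {Ks : V ≃ₗ[F] V} {b q : F}
    {φ : ℕ → F} {x : Module.Basis (Fin (d + 1)) F V}
    (hB : ∀ i : Fin (d + 1), Ks (x i) = (b * q ^ (i : ℕ)) • x i
      + if h : 0 < (i : ℕ) then φ i • x ⟨i - 1, by omega⟩ else 0) :
    ∀ (z : V), x.repr (Ks z) ⟨d, by omega⟩ = b * q ^ d * x.repr z ⟨d, by omega⟩ := by
  intro z
  have h1 : (x.coord ⟨d, by omega⟩) ∘ₗ (Ks : V →ₗ[F] V)
      = (b * q ^ d) • x.coord ⟨d, by omega⟩ := by
    refine x.ext fun i => ?_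
    simp only [LinearMap.comp_apply, LinearEquiv.coe_coe,
      LinearMap.smul_apply, Module.Basis.coord_apply, hB i, map_add, map_smul,
      Module.Basis.repr_self, smul_eq_mul]
    by_cases h1 : 0 < (i : ℕ)
    · rw [dif_pos h1, map_smul, Finsupp.smul_apply, Module.Basis.repr_self]
      simp only [Finsupp.single_apply, Fin.ext_iff, smul_eq_mul]
      have hi := i.2
      by_cases h2 : (i : ℕ) = d
      · rw [if_pos h2, if_neg (by omega), h2]; ring
      · rw [if_neg h2, if_neg (by omega)]; ring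
    · rw [dif_neg h1]
      simp only [Finsupp.single_apply, Fin.ext_iff, map_zero, Finsupp.coe_zero, Pi.zero_apply]
      by_cases h2 : (i : ℕ) = d
      · rw [if_pos h2, h2]; ring
      · rw [if_neg h2]; ring
  exact LinearMap.congr_fun h1 z

theorem main_basis {V : Type*} [AddCommGroup V] [Module F V] {n : ℕ} (hn : 2 ≤ n)
    (K Ks : V ≃ₗ[F] V) (a b q s : F) (ha : a ≠ 0) (hq : q ≠ 0)
    (hq1 : ∀ i, 1 ≤ i → i < n → q ^ i ≠ 1) (hs : s ≠ 0) (hs1 : ∀ i, 1 ≤ i → i < n → 1 + s * q ^ i ≠ 0)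
    (h : IsMain n K Ks a b q s) :
    ∃ v : Module.Basis (Fin n) F V, (∀ j, Ks (v j) = (b * q ^ (j : ℕ)) • v j) ∧
      (∀ i j : Fin n, (j : ℕ) + 1 < i → v.repr (K.symm (v j)) i = 0) ∧
      (∀ i j : Fin n, (i : ℕ) = j + 1 → v.repr (K.symm (v j)) i ≠ 0) ∧
      (∀ i j : Fin n, (i : ℕ) + 1 < j → v.repr (K (v j)) i = 0) ∧
      (∀ i j : Fin n, (j : ℕ) = i + 1 → v.repr (K (v j)) i ≠ 0) := by
  classical
  obtain ⟨d, rfl⟩ : ∃ d, n = d + 1 := ⟨n - 1, by omega⟩
  obtain ⟨x, hA, hB⟩ := h
  have hf : ∀ k, 1 ≤ k → k < d + 1 → phi (d + 1) a 1 q s k ≠ 0 := fun k h1 h2 =>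
    phi_ne ha one_ne_zero hq hq1 hs1 h1 h2
  have cA := main_cA hA
  have cA0 := main_cA0 hA
  have cB := main_cB hB
  have cBd := main_cBd hB
  set vs : ℕ → V := fun j => ∑ k : Fin (d + 1), cc (d + 1) a q s k (q ^ j) • x k with hvs
  have xc : ∀ (j : ℕ) (k : Fin (d + 1)), x.repr (vs j) k = cc (d + 1) a q s k (q ^ j) := by
    intro j k
    rw [hvs]
    simp [Finsupp.single_apply]
  -- the basis
  have li : LinearIndependent F (fun i : Fin (d + 1) => vs i) := by
    rw [Fintype.linearIndependent_iff]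
    intro g hg
    have h1 := cv_up (fun i l : Fin (d + 1) => cc (d + 1) a q s i (q ^ (l : ℕ)))
      (fun i l h => cc_above h) (fun l => cc_diag hq hq1 hf l.2) g 0 (fun i _ => by
        have h2 : x.repr (∑ l, g l • vs l) i = 0 := by rw [hg]; simp
        rw [map_sum, Finsupp.finsetSum_apply] at h2
        rw [← h2]
        refine Finset.sum_congr rfl fun l _ => ?_
        rw [map_smul, Finsupp.smul_apply, smul_eq_mul, xc])
    exact fun i => h1 i (Nat.zero_le _)
  have hcard : Fintype.card (Fin (d + 1)) = Module.finrank F V := by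
    rw [Module.finrank_eq_card_basis x]
  have hne : Nonempty (Fin (d + 1)) := ⟨⟨0, by omega⟩⟩
  set v := basisOfLinearIndependentOfCardEqFinrank li hcard with hv
  have vv : ∀ i : Fin (d + 1), v i = vs i := fun i => by
    rw [hv, coe_basisOfLinearIndependentOfCardEqFinrank]
  have vsv : ∀ (j : ℕ) (hj : j < d + 1), vs j = v ⟨j, hj⟩ := fun j hj => (vv ⟨j, hj⟩).symm
  -- x coordinates in terms of v coordinates
  have xv : ∀ (z : V) (i : Fin (d + 1)), x.repr z i
      = ∑ l, v.repr z l * cc (d + 1) a q s i (q ^ (l : ℕ)) := by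
    intro z i
    conv_lhs => rw [← v.sum_repr z, map_sum, Finsupp.finsetSum_apply]
    refine Finset.sum_congr rfl fun l _ => ?_
    rw [map_smul, Finsupp.smul_apply, smul_eq_mul, vv, xc]
  have tri : ∀ (z : V) (k : ℕ), (∀ i : Fin (d + 1), k ≤ (i : ℕ) → x.repr z i = 0) →
      ∀ i : Fin (d + 1), k ≤ (i : ℕ) → v.repr z i = 0 := by
    intro z k h
    refine cv_up (fun i l : Fin (d + 1) => cc (d + 1) a q s i (q ^ (l : ℕ)))
      (fun i l h => cc_above h) (fun l => cc_diag hq hq1 hf l.2) (fun l => v.repr z l) k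
      (fun i hi => ?_)
    rw [← xv z i]
    exact h i hi
  -- eigenvectors
  have hBv : ∀ j : Fin (d + 1), Ks (v j) = (b * q ^ (j : ℕ)) • v j := by
    intro j
    apply x.repr.injective
    ext k
    rw [map_smul, Finsupp.smul_apply, smul_eq_mul, vv]
    by_cases hk : (k : ℕ) + 1 < d + 1
    · have h1 := cB (vs j) k hk
      have h2 := xc j k
      have h3 := xc j ⟨k + 1, hk⟩
      have h4 := cc_mul (hf (k + 1) (by omega) hk) (q ^ (j : ℕ))
      rw [phi_b] at h1
      have e : (⟨(k : ℕ), by omega⟩ : Fin (d + 1)) = k := rfl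
      simp only [e] at h1
      rw [h1, h3, h2]
      linear_combination b * h4
    · have hkd : (k : ℕ) = d := by have := k.2; omega
      have e : k = ⟨d, by omega⟩ := Fin.ext hkd
      rw [e, cBd, xc]
      rcases Nat.lt_or_ge (j : ℕ) d with h | h
      · rw [cc_above h]; ring
      · have hj : (j : ℕ) = d := by have := j.2; omega
        rw [hj]
  have hA1 : ∀ (j : ℕ) (i : Fin (d + 1)), j + 1 < (i : ℕ) → x.repr (K.symm (vs j)) i = 0 := by
    intro j i hij
    obtain ⟨i', hi'⟩ : ∃ i', (i : ℕ) = i' + 1 := ⟨(i : ℕ) - 1, by omega⟩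
    have hi2 := i.2
    have e : i = ⟨i' + 1, by omega⟩ := Fin.ext hi'
    rw [e, cA (vs j) i' (by omega), xc, xc, cc_above (by simp only; omega),
      cc_above (by simp only; omega)]
    ring
  have c1 : ∀ i j : Fin (d + 1), (j : ℕ) + 1 < i → v.repr (K.symm (v j)) i = 0 := by
    intro i j hij
    rw [vv]
    exact tri (K.symm (vs j)) ((j : ℕ) + 2) (fun i hi => hA1 j i (by omega)) i (by omega)
  have d1 : ∀ i j : Fin (d + 1), (i : ℕ) = j + 1 → v.repr (K.symm (v j)) i ≠ 0 := by
    intro i j hij h0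
    have hj1 : (j : ℕ) + 1 < d + 1 := by have := i.2; omega
    have e : i = ⟨(j : ℕ) + 1, hj1⟩ := Fin.ext hij
    have h1 := cA (v j) j hj1
    have h2 := xv (K.symm (v j)) i
    rw [Finset.sum_eq_single i] at h2
    · rw [h0, zero_mul, e, h1, vv, xc, xc, cc_above (by simp only; omega)] at h2
      have h3 := cc_diag (a := a) (s := s) hq hq1 hf j.2
      apply h3
      simpa using h2
    · intro l _ hl
      rcases lt_or_gt_of_ne hl with h | h
      · rw [cc_above (show (l : ℕ) < (i : ℕ) from h), mul_zero]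
      · have : (i : ℕ) < (l : ℕ) := h
        rw [c1 l j (by omega), zero_mul]
    · intro h; exact absurd (Finset.mem_univ i) h
  -- the key identity
  have key : ∀ j, 1 ≤ j → j < d + 1 →
      (q ^ j + s * q ^ d) • vs j - (s * q ^ d * (1 - q ^ j)) • vs (j - 1)
        = (a * (q ^ j - q ^ d)) • K (vs (j + 1)) + (a * (s * q ^ d * q ^ j + q ^ d)) • K (vs j) := by
    intro j hj1 hj2
    apply K.symm.injective
    rw [map_sub, map_add, map_smul, map_smul, map_smul, map_smul, LinearEquiv.symm_apply_apply,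
      LinearEquiv.symm_apply_apply]
    apply x.repr.injective
    ext k
    rw [map_sub, map_add, map_smul, map_smul, map_smul, map_smul, Finsupp.sub_apply,
      Finsupp.add_apply, Finsupp.smul_apply, Finsupp.smul_apply, Finsupp.smul_apply,
      Finsupp.smul_apply, smul_eq_mul, smul_eq_mul, smul_eq_mul, smul_eq_mul, xc, xc]
    have hyy : q ^ j = q * q ^ (j - 1) := by rw [← pow_succ']; congr 1; omega
    by_cases hk : (k : ℕ) = 0
    · have e : k = ⟨0, by omega⟩ := Fin.ext hk
      rw [e, cA0, cA0, xc, xc]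
      simp only [cc_zero]
      ring
    · obtain ⟨k', hk'⟩ : ∃ k', (k : ℕ) = k' + 1 := ⟨(k : ℕ) - 1, by omega⟩
      have hk2 := k.2
      have e : k = ⟨k' + 1, by omega⟩ := Fin.ext hk'
      rw [e, cA (vs j) k' (by omega), cA (vs (j - 1)) k' (by omega), xc, xc, xc, xc]
      have h1 := cc_key hq hf hs1 (q ^ j) (q ^ (j - 1)) hyy k' (by omega)
      simp only
      rw [show q ^ (j + 1) = q * q ^ j from pow_succ' q j]
      linear_combination h1
  have cne : ∀ j, 1 ≤ j → j < d + 1 → a * (s * q ^ d * q ^ j + q ^ d) ≠ 0 := by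
    intro j h1 h2
    rw [show a * (s * q ^ d * q ^ j + q ^ d) = a * q ^ d * (1 + s * q ^ j) by ring]
    exact mul_ne_zero (mul_ne_zero ha (pow_ne_zero _ hq)) (hs1 j h1 h2)
  have c2' : ∀ r j, d - j = r → 1 ≤ j → j < d + 1 → ∀ i : Fin (d + 1), (i : ℕ) + 1 < j →
      v.repr (K (vs j)) i = 0 := by
    intro r
    induction r using Nat.strong_induction_on with
    | _ r ih =>
      intro j hr hj1 hj2 i hi
      have h1 := congrArg (fun z => v.repr z i) (key j hj1 hj2)
      simp only [map_sub, map_add, map_smul, Finsupp.sub_apply, Finsupp.add_apply,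
        Finsupp.smul_apply, smul_eq_mul] at h1
      rw [vsv j hj2, vsv (j - 1) (by omega), Module.Basis.repr_self, Module.Basis.repr_self,
        Finsupp.single_apply, Finsupp.single_apply, if_neg (by rw [Fin.ext_iff]; simp only; omega),
        if_neg (by rw [Fin.ext_iff]; simp only; omega)] at h1
      have h2 : (a * (q ^ j - q ^ d)) * v.repr (K (vs (j + 1))) i = 0 := by
        rcases Nat.lt_or_ge j d with h | h
        · rw [ih (d - (j + 1)) (by omega) (j + 1) rfl (by omega) (by omega) i (by omega), mul_zero]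
        · have : j = d := by omega
          rw [this, sub_self, mul_zero, zero_mul]
      rw [h2, mul_zero, mul_zero, sub_zero, zero_add, ← vsv j hj2] at h1
      exact (mul_eq_zero.mp h1.symm).resolve_left (cne j hj1 hj2)
  refine ⟨v, hBv, c1, d1, ?_, ?_⟩
  · intro i j hij
    rw [vv]
    exact c2' _ j rfl (by omega) j.2 i hij
  · intro i j hij h0
    have hj1 : 1 ≤ (j : ℕ) := by omega
    have h1 := congrArg (fun z => v.repr z i) (key j hj1 j.2)
    simp only [map_sub, map_add, map_smul, Finsupp.sub_apply, Finsupp.add_apply,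
      Finsupp.smul_apply, smul_eq_mul] at h1
    rw [← vv j, h0, vsv ((j : ℕ) - 1) (by omega), Module.Basis.repr_self, Module.Basis.repr_self,
      Finsupp.single_apply, Finsupp.single_apply, if_neg (by rw [Fin.ext_iff]; omega),
      if_pos (by rw [Fin.ext_iff]; simp only; omega)] at h1
    have h2 : (a * (q ^ (j : ℕ) - q ^ d)) * v.repr (K (vs ((j : ℕ) + 1))) i = 0 := by
      rcases Nat.lt_or_ge (j : ℕ) d with h | h
      · rw [c2' _ ((j : ℕ) + 1) rfl (by omega) (by omega) i (by omega), mul_zero]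
      · have : (j : ℕ) = d := by have := j.2; omega
        rw [this, sub_self, mul_zero, zero_mul]
    rw [h2, mul_zero, mul_zero, mul_one, zero_sub, zero_add, neg_eq_zero] at h1
    have h3 : (1 : F) - q ^ (j : ℕ) ≠ 0 := sub_ne_zero.mpr (Ne.symm (hq1 _ hj1 j.2))
    exact mul_ne_zero (mul_ne_zero hs (pow_ne_zero _ hq)) h3 h1

theorem main_swap {V : Type*} [AddCommGroup V] [Module F V] {n : ℕ} (hn : 2 ≤ n)
    (K Ks : V ≃ₗ[F] V) (a b q s : F) (ha : a ≠ 0) (hb : b ≠ 0) (hq : q ≠ 0)
    (hq1 : ∀ i, 1 ≤ i → i < n → q ^ i ≠ 1) (hs1 : ∀ i, 1 ≤ i → i < n → 1 + s * q ^ i ≠ 0)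
    (h : IsMain n K Ks a b q s) :
    IsMain n Ks.symm K.symm (b * q ^ (n - 1)) (a * q ^ (n - 1)) q⁻¹ (s * q ^ n) := by
  classical
  obtain ⟨x, hA, hB⟩ := h
  set γ : ℕ → F := fun i => ∏ m ∈ Finset.range i, phi n a b q s (n - 1 - m) with hγ
  have γne : ∀ i, i < n → γ i ≠ 0 := by
    intro i hi
    refine Finset.prod_ne_zero_iff.mpr fun m hm => ?_
    have := Finset.mem_range.mp hm
    exact phi_ne ha hb hq hq1 hs1 (by omega) (by omega)
  have γS : ∀ i, γ (i + 1) = γ i * phi n a b q s (n - 1 - i) := fun i => by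
    rw [hγ]; simp only [Finset.prod_range_succ]
  have hu : ∀ i : Fin n, IsUnit (γ (i : ℕ)) := fun i => (γne i i.2).isUnit
  set y : Module.Basis (Fin n) F V := (x.reindex Fin.revPerm).isUnitSMul hu with hy
  have yv : ∀ i : Fin n, y i = γ (i : ℕ) • x ⟨n - 1 - (i : ℕ), by omega⟩ := by
    intro i
    rw [hy, Module.Basis.isUnitSMul_apply, Module.Basis.reindex_apply]
    congr 2
    rw [Fin.ext_iff]
    show ((Fin.rev i : Fin n) : ℕ) = n - 1 - (i : ℕ)
    rw [Fin.val_rev]
    omega
  refine ⟨y, fun i => ?_, fun i => ?_⟩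
  · have hi := i.2
    have e1 : b * q ^ (n - 1) * q⁻¹ ^ (i : ℕ) = b * q ^ (n - 1 - (i : ℕ)) := by
      have e0 : q ^ (n - 1) = q ^ (n - 1 - (i : ℕ)) * q ^ (i : ℕ) := by
        rw [← pow_add]; congr 1; omega
      have : q ^ (i : ℕ) ≠ 0 := pow_ne_zero _ hq
      rw [e0, inv_pow]
      field_simp
    rw [LinearEquiv.symm_symm, yv, map_smul, hB, smul_add, e1, smul_comm]
    simp only
    congr 1
    by_cases h1 : (i : ℕ) + 1 < n
    · rw [dif_pos h1, dif_pos (by omega), yv, smul_smul]
      simp only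
      rw [γS]
      congr 2
    · rw [dif_neg h1, dif_neg (by omega), smul_zero]
  · have hi := i.2
    have e1 : a * q ^ (n - 1) * q⁻¹ ^ (i : ℕ) = a * q ^ (n - 1 - (i : ℕ)) := by
      have e0 : q ^ (n - 1) = q ^ (n - 1 - (i : ℕ)) * q ^ (i : ℕ) := by
        rw [← pow_add]; congr 1; omega
      have : q ^ (i : ℕ) ≠ 0 := pow_ne_zero _ hq
      rw [e0, inv_pow]
      field_simp
    rw [yv, map_smul, hA, smul_add, e1, smul_comm]
    simp only
    congr 1
    by_cases h1 : 0 < (i : ℕ)
    · rw [dif_pos h1, dif_pos (by omega), yv, smul_smul]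
      simp only
      obtain ⟨k, hk⟩ : ∃ k, (i : ℕ) = k + 1 := ⟨(i : ℕ) - 1, by omega⟩
      have e3 : (⟨n - 1 - (i : ℕ) + 1, by omega⟩ : Fin n) = ⟨n - 1 - ((i : ℕ) - 1), by omega⟩ := by
        rw [Fin.ext_iff]
        simp only
        omega
      have e4 : γ (i : ℕ) = phi n (b * q ^ (n - 1)) (a * q ^ (n - 1)) q⁻¹ (s * q ^ n) (i : ℕ)
          * γ ((i : ℕ) - 1) := by
        rw [hk, γS, Nat.add_sub_cancel, mul_comm]
        congr 1
        unfold phi
        have h3 : n - (n - 1 - k) = k + 1 := by omega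
        have h4 : s * q ^ n * q⁻¹ ^ (n - (k + 1)) = s * q ^ (k + 1) := by
          rw [inv_pow, mul_assoc, ← div_eq_mul_inv]
          congr 1
          rw [div_eq_iff (pow_ne_zero _ hq), ← pow_add]
          congr 1
          omega
        rw [h3, h4]
        congr 1
        have e5 : q ^ (n - 1) = q ^ (n - 1 - k - 1) * q ^ (k + 1) := by
          rw [← pow_add]; congr 1; omega
        have e6 : q ^ (n - 1 - k) = q ^ (n - 1 - k - 1) * q := by
          rw [← pow_succ]; congr 1; omega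
        have e7 : n - (k + 1) = n - 1 - k - 1 + 1 := by omega
        rw [e5, e6, e7, Nat.add_sub_cancel]
        have hqk : q ^ k ≠ 0 := pow_ne_zero _ hq
        have hqm : q ^ (n - 1 - k - 1) ≠ 0 := pow_ne_zero _ hq
        simp only [inv_pow, pow_succ]
        field_simp
      rw [e3, e4]
    · rw [dif_neg h1, dif_neg (by omega), smul_zero]

private lemma main_irred {V : Type*} [AddCommGroup V] [Module F V] {n : ℕ} (hn : 2 ≤ n)
    (K Ks : V ≃ₗ[F] V) (v : Module.Basis (Fin n) F V) (β : Fin n → F) (hβ : Function.Injective β)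
    (hv : ∀ j, Ks (v j) = β j • v j)
    (d1 : ∀ i j : Fin n, (i : ℕ) = j + 1 → v.repr (K.symm (v j)) i ≠ 0)
    (d2 : ∀ i j : Fin n, (j : ℕ) = i + 1 → v.repr (K (v j)) i ≠ 0) : Irred K Ks := by
  classical
  refine ⟨⟨v ⟨0, by omega⟩, 0, v.ne_zero _⟩, fun U hK hKs => ?_⟩
  have hfin : FiniteDimensional F V := Module.Basis.finiteDimensional_of_finite v
  -- invariance under `K.symm`
  have hKi : ∀ u ∈ U, K.symm u ∈ U := by
    have h1 : Submodule.map (K : V →ₗ[F] V) U ≤ U := by
      rintro _ ⟨u, hu, rfl⟩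
      exact hK u hu
    have h2 : Submodule.map (K : V →ₗ[F] V) U = U :=
      Submodule.eq_of_le_of_finrank_eq h1 (LinearEquiv.finrank_map_eq K U)
    intro u hu
    rw [← h2] at hu
    obtain ⟨u', hu', rfl⟩ := hu
    simpa using hu'
  -- coordinates
  have hco : ∀ (z : V) (i : Fin n), v.repr (Ks z) i = β i * v.repr z i := by
    intro z i
    have h1 : (v.coord i) ∘ₗ (Ks : V →ₗ[F] V) = β i • v.coord i := by
      refine v.ext fun j => ?_
      simp only [LinearMap.comp_apply, LinearEquiv.coe_coe, LinearMap.smul_apply,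
        Module.Basis.coord_apply, hv j, map_smul, Module.Basis.repr_self,
        smul_eq_mul, Finsupp.single_apply]
      by_cases h : j = i
      · rw [if_pos h, h]
      · rw [if_neg h]; ring
    exact LinearMap.congr_fun h1 z
  have hmem : ∀ (j : Fin n) (N : ℕ) (u : V), u ∈ U → (v.repr u).support.card = N →
      v.repr u j ≠ 0 → v j ∈ U := by
    intro j N
    induction N using Nat.strong_induction_on with
    | _ N ih =>
      intro u hu hN huj
      by_cases h : ∃ i, i ≠ j ∧ v.repr u i ≠ 0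
      · obtain ⟨i, hij, hui⟩ := h
        have hu' : Ks u - β i • u ∈ U := U.sub_mem (hKs u hu) (U.smul_mem _ hu)
        have hc : ∀ k, v.repr (Ks u - β i • u) k = (β k - β i) * v.repr u k := by
          intro k
          rw [map_sub, map_smul, Finsupp.sub_apply, Finsupp.smul_apply, smul_eq_mul, hco]
          ring
        refine ih _ ?_ _ hu' rfl ?_
        · rw [← hN]
          refine Finset.card_lt_card ?_
          rw [Finset.ssubset_iff_of_subset]
          · refine ⟨i, Finsupp.mem_support_iff.mpr hui, ?_⟩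
            rw [Finsupp.mem_support_iff, hc, sub_self, zero_mul]
            simp
          · intro k hk
            rw [Finsupp.mem_support_iff, hc] at hk
            exact Finsupp.mem_support_iff.mpr (right_ne_zero_of_mul hk)
        · rw [hc]
          refine mul_ne_zero (sub_ne_zero.mpr fun h => hij ?_) huj
          exact (hβ h).symm
      · push Not at h
        have h1 : u = v.repr u j • v j := by
          conv_lhs => rw [← v.sum_repr u]
          rw [Finset.sum_eq_single j]
          · intro i _ hij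
            rw [h i hij, zero_smul]
          · intro h; exact absurd (Finset.mem_univ j) h
        have h2 : (v.repr u j)⁻¹ • u = v j :=
          (congrArg (fun z => (v.repr u j)⁻¹ • z) h1).trans
            (by rw [smul_smul, inv_mul_cancel₀ huj, one_smul])
        rw [← h2]
        exact U.smul_mem _ hu
  by_cases hU : U = ⊥
  · exact Or.inl hU
  · right
    obtain ⟨u, hu, hu0⟩ := Submodule.exists_mem_ne_zero_of_ne_bot hU
    obtain ⟨j, hj⟩ : ∃ j, v.repr u j ≠ 0 := by
      by_contra hcon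
      push Not at hcon
      apply hu0
      have : v.repr u = 0 := by ext i; exact hcon i
      exact (LinearEquiv.map_eq_zero_iff _).mp this
    have hjU := hmem j _ u hu rfl hj
    -- downward
    have hdown : ∀ r (k : Fin n), (k : ℕ) + r = j → v k ∈ U := by
      intro r
      induction r with
      | zero =>
        intro k hk
        have : k = j := Fin.ext (by omega)
        rw [this]; exact hjU
      | succ r ih =>
        intro k hk
        have hj2 := j.2
        have h1 := ih ⟨(k : ℕ) + 1, by omega⟩ (by simp only; omega)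
        exact hmem k _ _ (hK _ h1) rfl (d2 k ⟨(k : ℕ) + 1, by omega⟩ rfl)
    have hup : ∀ r (k : Fin n), (k : ℕ) = j + r → v k ∈ U := by
      intro r
      induction r with
      | zero =>
        intro k hk
        have : k = j := Fin.ext (by omega)
        rw [this]; exact hjU
      | succ r ih =>
        intro k hk
        have hk2 := k.2
        have h1 := ih ⟨(k : ℕ) - 1, by omega⟩ (by simp only; omega)
        exact hmem k _ _ (hKi _ h1) rfl (d1 k ⟨(k : ℕ) - 1, by omega⟩ (by simp only; omega))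
    have hall : ∀ k, v k ∈ U := by
      intro k
      rcases Nat.le_total (k : ℕ) (j : ℕ) with h | h
      · exact hdown ((j : ℕ) - k) k (by omega)
      · exact hup ((k : ℕ) - j) k (by omega)
    rw [eq_top_iff, ← v.span_eq, Submodule.span_le]
    rintro _ ⟨k, rfl⟩
    exact hall k

private lemma toM {V : Type*} [AddCommGroup V] [Module F V] {n : ℕ}
    (v : Module.Basis (Fin n) F V) (T : V ≃ₗ[F] V) (i j : Fin n) :
    LinearMap.toMatrix v v (T : V →ₗ[F] V) i j = v.repr (T (v j)) i := by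
  rw [LinearMap.toMatrix_apply]
  rfl

theorem main_isInvertingPair {V : Type*} [AddCommGroup V] [Module F V] {n : ℕ} (hn : 2 ≤ n)
    (K Ks : V ≃ₗ[F] V) (a b q s : F) (ha : a ≠ 0) (hb : b ≠ 0) (hq : q ≠ 0)
    (hq1 : ∀ i, 1 ≤ i → i < n → q ^ i ≠ 1) (hs : s ≠ 0) (hs1 : ∀ i, 1 ≤ i → i < n → 1 + s * q ^ i ≠ 0)
    (h : IsMain n K Ks a b q s) : IsInvertingPair n K Ks ∧ Irred K Ks := by
  obtain ⟨v, hv, c1, d1, c2, d2⟩ := main_basis hn K Ks a b q s ha hq hq1 hs hs1 h
  obtain ⟨w, hw, e1, -, e2, -⟩ := main_basis hn Ks.symm K.symm (b * q ^ (n - 1)) (a * q ^ (n - 1))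
    q⁻¹ (s * q ^ n) (mul_ne_zero hb (pow_ne_zero _ hq)) (inv_ne_zero hq)
    (fun i h1 h2 h3 => hq1 i h1 h2 (by rw [inv_pow] at h3; exact inv_eq_one.mp h3))
    (mul_ne_zero hs (pow_ne_zero _ hq))
    (fun i h1 h2 => by
      have h4 : s * q ^ n * q⁻¹ ^ i = s * q ^ (n - i) := by
        have e0 : q ^ n = q ^ (n - i) * q ^ i := by rw [← pow_add]; congr 1; omega
        have : q ^ i ≠ 0 := pow_ne_zero _ hq
        rw [e0, inv_pow]
        field_simp
      rw [h4]
      exact hs1 (n - i) (by omega) (by omega))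
    (main_swap hn K Ks a b q s ha hb hq hq1 hs1 h)
  have b_inj : Function.Injective (fun j : Fin n => b * q ^ (j : ℕ)) := by
    intro i j hij
    have h1 : q ^ (i : ℕ) = q ^ (j : ℕ) := mul_left_cancel₀ hb hij
    by_contra hne
    rcases lt_or_gt_of_ne hne with h | h
    · have h' : (i : ℕ) < (j : ℕ) := h
      have e : q ^ (j : ℕ) = q ^ (i : ℕ) * q ^ ((j : ℕ) - i) := by rw [← pow_add]; congr 1; omega
      rw [e] at h1
      have h2 := mul_left_cancel₀ (pow_ne_zero (i : ℕ) hq) ((mul_one _).trans h1)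
      exact hq1 _ (by omega) (by have := j.2; omega) h2.symm
    · have h' : (j : ℕ) < (i : ℕ) := h
      have e : q ^ (i : ℕ) = q ^ (j : ℕ) * q ^ ((i : ℕ) - j) := by rw [← pow_add]; congr 1; omega
      rw [e] at h1
      have h2 := mul_left_cancel₀ (pow_ne_zero (j : ℕ) hq) (h1.trans (mul_one _).symm)
      exact hq1 _ (by omega) (by have := i.2; omega) h2
  refine ⟨⟨⟨v, ?_, ?_, ?_⟩, ⟨w.reindex Fin.revPerm, ?_, ?_, ?_⟩⟩,
    main_irred hn K Ks v _ b_inj hv d1 d2⟩
  · intro i j hij
    rw [toM]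
    exact c2 i j hij
  · intro i j hij
    rw [toM]
    exact c1 i j hij
  · intro i j hij
    rw [toM, hv j, map_smul, Module.Basis.repr_self, Finsupp.smul_apply, Finsupp.single_apply,
      if_neg (Ne.symm hij), smul_zero]
  · intro i j hij
    rw [toM, Module.Basis.repr_reindex_apply, Module.Basis.reindex_apply]
    have := e1 (Fin.revPerm.symm i) (Fin.revPerm.symm j) (by
      simp only [Fin.revPerm_symm, Fin.revPerm_apply, Fin.val_rev]; omega)
    rw [LinearEquiv.symm_symm] at this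
    exact this
  · intro i j hij
    rw [toM, Module.Basis.repr_reindex_apply, Module.Basis.reindex_apply]
    exact e2 (Fin.revPerm.symm i) (Fin.revPerm.symm j) (by
      simp only [Fin.revPerm_symm, Fin.revPerm_apply, Fin.val_rev]; omega)
  · intro i j hij
    rw [toM, Module.Basis.repr_reindex_apply, Module.Basis.reindex_apply]
    have h1 := hw (Fin.revPerm.symm j)
    have hc : a * q ^ (n - 1) * q⁻¹ ^ ((Fin.revPerm.symm j : Fin n) : ℕ) ≠ 0 :=
      mul_ne_zero (mul_ne_zero ha (pow_ne_zero _ hq)) (pow_ne_zero _ (inv_ne_zero hq))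
    have h2 : K (w (Fin.revPerm.symm j))
        = (a * q ^ (n - 1) * q⁻¹ ^ ((Fin.revPerm.symm j : Fin n) : ℕ))⁻¹ • w (Fin.revPerm.symm j) := by
      apply K.symm.injective
      rw [LinearEquiv.symm_apply_apply, map_smul, h1, smul_smul, inv_mul_cancel₀ hc, one_smul]
    rw [h2, map_smul, Module.Basis.repr_self, Finsupp.smul_apply, Finsupp.single_apply,
      if_neg (fun h => hij (Fin.revPerm.symm.injective h).symm), smul_zero]

end Pool.Agent.Helper54.IP
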