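import Pool.Agent.Helper54.IP.Defs

/-!
TH-P module L4.  A matrix form with geometric `a` and `b` is in the main family.

`x_k = ∏_(m<k) (A - a_m) v_0`, so `A x_k = a_k x_k + x_(k+1)`, `x_n = 0`.  `<x_0..x_k> = <v_0..v_k>`, `<x_k..x_d> = <w_k..w_d>`
(so `x` is a basis), hence `(B - b_k) x_k ∈ <x_0..x_(k-1)> ∩ <w_(k-1)..w_d> = <x_(k-1)>`: `B x_k = b_k x_k + φ_k x_(k-1)`.
With `η_k(y) = ∏_(m<k) (y - b_m)`: `v_j = c_j ∑_k η_k(b_j)/Φ_k x_k`, `Φ_k = φ_1 ... φ_k` (all `φ_k ≠ 0`, otherwise `<x_k..x_d>` is invariant,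
contradiction with d1 .. ).  `v_d ∈ A <v_(d-1), v_d>` (c2) gives, comparing the coefficients of `x_k` (scaled `A → A/a_0`, `B → B/b_0`):
`φ_k H_k = (b_d - b_(k-1)) (1 - a_k H_(k+1))`, `H_(k+1) = c1 + c2 r_k`, `r_k = η_k(b_(d-1))/η_k(b_d) = (q^(d-k)-1)/(q^d-1)`, `1 = a_0 H_1`;
so `H_(k+1) = u + v q^(-k)`, `u + v = 1`, `φ_k (u + v q^(1-k)) = (q^d - q^(k-1)) u (1 - q^k)`, `u ≠ 0`, `s = (v/u) q^(1-n)`.
`s ≠ 0`: `v = 0` means `v_d ∝ A v_d`-component .., contradiction with d2 at (d-1,d).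
-/

namespace Pool.Agent.Helper54.IP

open Matrix

variable {F : Type*} [Field F]

private lemma nf_conj {V : Type*} [AddCommGroup V] [Module F V] {n : ℕ} {v w : Fin n → V}
    {X Y : Matrix (Fin n) (Fin n) F} (T : V →ₗ[F] V) (c : Fin n → F)
    (hT : ∀ j, T (w j) = c j • w j) (hX : ∀ k, v k = ∑ j, X j k • w j)
    (hY : ∀ j, w j = ∑ k, Y k j • v k) (k : Fin n) :
    T (v k) = ∑ i, (Y * diagonal c * X) i k • v i := by
  have h1 : T (v k) = ∑ j, ∑ i, (Y i j * c j * X j k) • v i := by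
    conv_lhs => rw [hX k, map_sum]
    refine Finset.sum_congr rfl fun j _ => ?_
    rw [map_smul, hT]
    conv_lhs => rw [hY j, Finset.smul_sum, Finset.smul_sum]
    refine Finset.sum_congr rfl fun i _ => ?_
    rw [smul_smul, smul_smul]
    congr 1
    ring
  rw [h1, Finset.sum_comm]
  refine Finset.sum_congr rfl fun i _ => ?_
  rw [Matrix.mul_apply, Finset.sum_smul]
  refine Finset.sum_congr rfl fun j _ => ?_
  rw [Matrix.mul_diagonal]

private lemma nf_repr {V : Type*} [AddCommGroup V] [Module F V] {n : ℕ}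
    (v : Module.Basis (Fin n) F V) (T : V →ₗ[F] V) (N : Matrix (Fin n) (Fin n) F)
    (h : ∀ k, T (v k) = ∑ i, N i k • v i) (y : V) (i : Fin n) :
    v.repr (T y) i = ∑ k, N i k * v.repr y k := by
  have h2 : LinearMap.toMatrix v v T = N := by
    ext i k
    rw [LinearMap.toMatrix_apply, h k]
    simp [Finsupp.single_apply]
  have h3 := LinearMap.toMatrix_mulVec_repr v v T y
  rw [h2] at h3
  have h4 := congrFun h3 i
  rw [← h4]
  rfl

/-- triangular systems -/
private lemma nf_up {n : ℕ} (T : Fin n → Fin n → F) (h0 : ∀ i l, l < i → T i l = 0)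
    (hd : ∀ l, T l l ≠ 0) (c : Fin n → F) (k : ℕ)
    (hc : ∀ i : Fin n, k ≤ (i : ℕ) → ∑ l, c l * T i l = 0) :
    ∀ l : Fin n, k ≤ (l : ℕ) → c l = 0 := by
  have key : ∀ r : ℕ, ∀ l : Fin n, n - 1 - (l : ℕ) = r → k ≤ (l : ℕ) → c l = 0 := by
    intro r
    induction r using Nat.strong_induction_on with
    | _ r ih =>
      intro l hl hk
      have h1 := hc l hk
      rw [Finset.sum_eq_single l] at h1
      · exact (mul_eq_zero.mp h1).resolve_right (hd l)
      · intro b _ hb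
        rcases lt_or_gt_of_ne hb with h | h
        · rw [h0 l b h, mul_zero]
        · have hbl : (l : ℕ) < (b : ℕ) := h
          rw [ih (n - 1 - (b : ℕ)) (by omega) b rfl (by omega), zero_mul]
      · intro h; exact absurd (Finset.mem_univ l) h
  intro l hk
  exact key _ l rfl hk

private lemma nf_down {n : ℕ} (T : Fin n → Fin n → F) (h0 : ∀ i l, i < l → T i l = 0)
    (hd : ∀ l, T l l ≠ 0) (c : Fin n → F) (k : ℕ)
    (hc : ∀ i : Fin n, (i : ℕ) < k → ∑ l, c l * T i l = 0) :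
    ∀ l : Fin n, (l : ℕ) < k → c l = 0 := by
  have key : ∀ r : ℕ, ∀ l : Fin n, (l : ℕ) = r → (l : ℕ) < k → c l = 0 := by
    intro r
    induction r using Nat.strong_induction_on with
    | _ r ih =>
      intro l hl hk
      have h1 := hc l hk
      rw [Finset.sum_eq_single l] at h1
      · exact (mul_eq_zero.mp h1).resolve_right (hd l)
      · intro b _ hb
        rcases lt_or_gt_of_ne hb with h | h
        · have hbl : (b : ℕ) < (l : ℕ) := h
          rw [ih (b : ℕ) (by omega) b rfl (by omega), zero_mul]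
        · rw [h0 l b h, mul_zero]
      · intro h; exact absurd (Finset.mem_univ l) h
  intro l hk
  exact key _ l rfl hk

private lemma nf_diag {V : Type*} [AddCommGroup V] [Module F V] {n : ℕ}
    (w : Module.Basis (Fin n) F V) (T : V →ₗ[F] V) (c : Fin n → F)
    (h : ∀ k, T (w k) = c k • w k) (y : V) (i : Fin n) :
    w.repr (T y) i = c i * w.repr y i := by
  have h1 := nf_repr w T (diagonal c) (fun k => by
    rw [h k, Finset.sum_eq_single k]
    · rw [diagonal_apply_eq]
    · intro b _ hb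
      rw [diagonal_apply_ne _ hb, zero_smul]
    · intro h; exact absurd (Finset.mem_univ k) h) y i
  rw [h1, Finset.sum_eq_single i]
  · rw [diagonal_apply_eq]
  · intro b _ hb
    rw [diagonal_apply_ne _ (Ne.symm hb), zero_mul]
  · intro h; exact absurd (Finset.mem_univ i) h

private lemma nf_inv {V : Type*} [AddCommGroup V] [Module F V] {n : ℕ} (M : Mat F n)
    (v w : Module.Basis (Fin n) F V) (hX : ∀ k, v k = ∑ j, M.X j k • w j) (j : Fin n) :
    w j = ∑ k, M.Y k j • v k := by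
  have h1 : ∑ k, M.Y k j • v k = ∑ i, (M.X * M.Y) i j • w i := by
    have h2 : ∀ k, M.Y k j • v k = ∑ i, (M.X i k * M.Y k j) • w i := by
      intro k
      rw [hX k, Finset.smul_sum]
      refine Finset.sum_congr rfl fun i _ => ?_
      rw [smul_smul]
      congr 1
      ring
    rw [Finset.sum_congr rfl fun k _ => h2 k, Finset.sum_comm]
    refine Finset.sum_congr rfl fun i _ => ?_
    rw [Matrix.mul_apply, Finset.sum_smul]
  rw [h1, M.XY, Finset.sum_eq_single j]
  · rw [Matrix.one_apply_eq, one_smul]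
  · intro b _ hb
    rw [Matrix.one_apply_ne hb, zero_smul]
  · intro h; exact absurd (Finset.mem_univ j) h

private lemma nf_split {V : Type*} [AddCommGroup V] [Module F V] {n : ℕ} (hn : 2 ≤ n) (K Ks : V ≃ₗ[F] V)
    (M : Mat F n) (v w : Module.Basis (Fin n) F V)
    (hw : ∀ j, K.symm (w j) = M.a j • w j) (hv : ∀ k, Ks (v k) = M.b k • v k)
    (hX : ∀ k, v k = ∑ j, M.X j k • w j) (α β : ℕ → F)
    (ha : ∀ i : Fin n, M.a i = α i) (hb : ∀ i : Fin n, M.b i = β i) :
    ∃ (x : Module.Basis (Fin n) F V) (φ : ℕ → F),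
      (∀ i : Fin n, K.symm (x i) = α i • x i + if h : (i : ℕ) + 1 < n then x ⟨i + 1, h⟩ else 0) ∧
      (∀ i : Fin n, Ks (x i) = β i • x i
        + if h : 0 < (i : ℕ) then φ i • x ⟨i - 1, by omega⟩ else 0) ∧
      (∀ k, 1 ≤ k → k < n → φ k ≠ 0) := by
  classical
  have h0n : 0 < n := by omega
  -- w in terms of v
  have hY : ∀ j, w j = ∑ k, M.Y k j • v k := nf_inv M v w hX
  have hAv : ∀ k, (K.symm : V →ₗ[F] V) (v k) = ∑ i, (M.Y * diagonal M.a * M.X) i k • v i :=
    nf_conj (K.symm : V →ₗ[F] V) M.a hw hX hY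
  have hBw : ∀ k, (Ks : V →ₗ[F] V) (w k) = ∑ i, (M.X * diagonal M.b * M.Y) i k • w i :=
    nf_conj (Ks : V →ₗ[F] V) M.b hv hY hX
  set xs : ℕ → V := fun k => Nat.rec (v ⟨0, h0n⟩) (fun k y => K.symm y - α k • y) k with hxs
  have xs0 : xs 0 = v ⟨0, h0n⟩ := rfl
  have xsS : ∀ k, xs (k + 1) = K.symm (xs k) - α k • xs k := fun k => rfl
  -- w coordinates
  have wc : ∀ k (j : Fin n), w.repr (xs k) j
      = M.X j ⟨0, h0n⟩ * ∏ m ∈ Finset.range k, (M.a j - α m) := by
    intro k
    induction k with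
    | zero =>
      intro j
      rw [xs0, hX ⟨0, h0n⟩]
      simp [Finsupp.single_apply]
    | succ k ih =>
      intro j
      rw [xsS, map_sub, map_smul]
      have h1 : w.repr (K.symm (xs k)) j = M.a j * w.repr (xs k) j :=
        nf_diag w (K.symm : V →ₗ[F] V) M.a hw (xs k) j
      rw [Finsupp.sub_apply, Finsupp.smul_apply, h1, ih, Finset.prod_range_succ, smul_eq_mul]
      ring
  have wz : ∀ k (j : Fin n), (j : ℕ) < k → w.repr (xs k) j = 0 := by
    intro k j hj
    rw [wc, Finset.prod_eq_zero (Finset.mem_range.mpr hj), mul_zero]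
    rw [ha j, sub_self]
  have xsn : xs n = 0 := by
    have : w.repr (xs n) = 0 := by
      ext j
      rw [wz n j j.2]; rfl
    exact (LinearEquiv.map_eq_zero_iff _).mp this
  -- v coordinates
  have vc : ∀ k, k < n → (∀ i : Fin n, k < (i : ℕ) → v.repr (xs k) i = 0) ∧
      (∀ i : Fin n, (i : ℕ) = k → v.repr (xs k) i ≠ 0) := by
    intro k
    induction k with
    | zero =>
      intro _
      refine ⟨fun i hi => ?_, fun i hi => ?_⟩
      · rw [xs0, Module.Basis.repr_self, Finsupp.single_apply, if_neg]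
        intro h
        rw [← h] at hi
        exact absurd hi (lt_irrefl _)
      · rw [xs0, Module.Basis.repr_self, Finsupp.single_apply, if_pos (Fin.ext hi.symm)]
        exact one_ne_zero
    | succ k ih =>
      intro hk
      obtain ⟨ih1, ih2⟩ := ih (by omega)
      have h1 : ∀ i : Fin n, v.repr (xs (k + 1)) i
          = ∑ l, (M.Y * diagonal M.a * M.X) i l * v.repr (xs k) l - α k * v.repr (xs k) i := by
        intro i
        rw [xsS, map_sub, map_smul, Finsupp.sub_apply, Finsupp.smul_apply, smul_eq_mul]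
        congr 1
        exact nf_repr v (K.symm : V →ₗ[F] V) _ hAv (xs k) i
      refine ⟨fun i hi => ?_, fun i hi => ?_⟩
      · rw [h1, ih1 i (by omega), mul_zero, sub_zero]
        refine Finset.sum_eq_zero fun l _ => ?_
        rcases Nat.lt_or_ge k (l : ℕ) with h | h
        · rw [ih1 l h, mul_zero]
        · rw [M.c1 i l (by omega), zero_mul]
      · rw [h1, ih1 i (by omega), mul_zero, sub_zero, Finset.sum_eq_single (⟨k, by omega⟩ : Fin n)]
        · exact mul_ne_zero (M.d1 i ⟨k, by omega⟩ hi) (ih2 _ rfl)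
        · intro l _ hl
          rcases Nat.lt_or_ge k (l : ℕ) with h | h
          · rw [ih1 l h, mul_zero]
          · have hlk : (l : ℕ) ≠ k := fun h => hl (Fin.ext h)
            rw [M.c1 i l (by omega), zero_mul]
        · intro h; exact absurd (Finset.mem_univ _) h
  -- the basis
  have li : LinearIndependent F (fun i : Fin n => xs i) := by
    rw [Fintype.linearIndependent_iff]
    intro g hg
    have h1 := nf_up (fun i l : Fin n => v.repr (xs l) i)
      (fun i l h => (vc l l.2).1 i h) (fun l => (vc l l.2).2 l rfl) g 0 (fun i _ => by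
        have h2 : v.repr (∑ l, g l • xs l) i = 0 := by rw [hg]; simp
        rw [map_sum, Finsupp.finsetSum_apply] at h2
        rw [← h2]
        refine Finset.sum_congr rfl fun l _ => ?_
        rw [map_smul, Finsupp.smul_apply, smul_eq_mul])
    exact fun i => h1 i (Nat.zero_le _)
  have hcard : Fintype.card (Fin n) = Module.finrank F V := by
    rw [Module.finrank_eq_card_basis v]
  have : Nonempty (Fin n) := ⟨⟨0, h0n⟩⟩
  set x := basisOfLinearIndependentOfCardEqFinrank li hcard with hx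
  have xv : ∀ i : Fin n, x i = xs i := fun i => by
    rw [hx, coe_basisOfLinearIndependentOfCardEqFinrank]
  -- diagonal w coordinates
  have X0 : ∀ j : Fin n, M.X j ⟨0, h0n⟩ ≠ 0 := by
    intro j hj
    have h1 : ∀ y : V, w.repr y j = 0 := by
      intro y
      have h2 : y = ∑ i, x.repr y i • x i := (x.sum_repr y).symm
      rw [h2, map_sum, Finsupp.finsetSum_apply]
      refine Finset.sum_eq_zero fun i _ => ?_
      rw [map_smul, Finsupp.smul_apply, xv, wc, hj, zero_mul, smul_zero]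
    have h3 := h1 (w j)
    rw [Module.Basis.repr_self, Finsupp.single_eq_same] at h3
    exact one_ne_zero h3
  have wd : ∀ j : Fin n, w.repr (xs j) j ≠ 0 := by
    intro j
    rw [wc]
    refine mul_ne_zero (X0 j) (Finset.prod_ne_zero_iff.mpr fun m hm => ?_)
    have hm' : m < (j : ℕ) := Finset.mem_range.mp hm
    rw [sub_ne_zero]
    intro h
    have h2 : M.a j = M.a ⟨m, by omega⟩ := by rw [h, ha ⟨m, by omega⟩]
    have h3 := M.a_inj h2
    rw [h3] at hm'
    exact lt_irrefl _ hm'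
  -- B on x
  have Bx : ∀ k : Fin n, ∃ c : F, Ks (x k) = β k • x k
      + if h : 0 < (k : ℕ) then c • x ⟨k - 1, by omega⟩ else 0 := by
    intro k
    set y : V := Ks (x k) - β k • x k with hy
    have y1 : ∀ i : Fin n, (k : ℕ) ≤ (i : ℕ) → v.repr y i = 0 := by
      intro i hi
      have h1 : v.repr y i = M.b i * v.repr (x k) i - β k * v.repr (x k) i := by
        rw [hy, map_sub, map_smul, Finsupp.sub_apply, Finsupp.smul_apply, smul_eq_mul]
        congr 1
        exact nf_diag v (Ks : V →ₗ[F] V) M.b hv (x k) i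
      rw [h1]
      rcases Nat.eq_or_lt_of_le hi with h | h
      · rw [hb i, ← h, sub_self]
      · rw [xv, (vc k k.2).1 i h, mul_zero, mul_zero, sub_zero]
    have y2 : ∀ i : Fin n, (i : ℕ) + 1 < (k : ℕ) → w.repr y i = 0 := by
      intro i hi
      have h1 : w.repr y i = ∑ l, (M.X * diagonal M.b * M.Y) i l * w.repr (x k) l
          - β k * w.repr (x k) i := by
        rw [hy, map_sub, map_smul, Finsupp.sub_apply, Finsupp.smul_apply, smul_eq_mul]
        congr 1
        exact nf_repr w (Ks : V →ₗ[F] V) _ hBw (x k) i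
      rw [h1, xv, wz k i (by omega), mul_zero, sub_zero]
      refine Finset.sum_eq_zero fun l _ => ?_
      rcases Nat.lt_or_ge (l : ℕ) (k : ℕ) with h | h
      · rw [wz k l h, mul_zero]
      · rw [M.c3 i l (by omega), zero_mul]
    have hyx : y = ∑ i, x.repr y i • x i := (x.sum_repr y).symm
    have z1 : ∀ l : Fin n, (k : ℕ) ≤ (l : ℕ) → x.repr y l = 0 := by
      refine nf_up (fun i l : Fin n => v.repr (xs l) i)
        (fun i l h => (vc l l.2).1 i h) (fun l => (vc l l.2).2 l rfl) (fun l => x.repr y l) k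
        (fun i hi => ?_)
      rw [← y1 i hi]
      conv_rhs => rw [hyx, map_sum, Finsupp.finsetSum_apply]
      refine Finset.sum_congr rfl fun l _ => ?_
      rw [map_smul, Finsupp.smul_apply, smul_eq_mul, xv]
    have z2 : ∀ l : Fin n, (l : ℕ) < (k : ℕ) - 1 → x.repr y l = 0 := by
      refine nf_down (fun i l : Fin n => w.repr (xs l) i)
        (fun i l h => wz l i h) (fun l => wd l) (fun l => x.repr y l) ((k : ℕ) - 1)
        (fun i hi => ?_)
      rw [← y2 i (by omega)]
      conv_rhs => rw [hyx, map_sum, Finsupp.finsetSum_apply]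
      refine Finset.sum_congr rfl fun l _ => ?_
      rw [map_smul, Finsupp.smul_apply, smul_eq_mul, xv]
    by_cases hk : 0 < (k : ℕ)
    · refine ⟨x.repr y ⟨k - 1, by omega⟩, ?_⟩
      rw [dif_pos hk]
      have h1 : y = x.repr y ⟨k - 1, by omega⟩ • x ⟨k - 1, by omega⟩ := by
        conv_lhs => rw [hyx]
        rw [Finset.sum_eq_single (⟨k - 1, by omega⟩ : Fin n)]
        · intro l _ hl
          have hl' : (l : ℕ) ≠ (k : ℕ) - 1 := fun h => hl (Fin.ext h)
          rcases Nat.lt_or_ge (l : ℕ) ((k : ℕ) - 1) with h | h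
          · rw [z2 l h, zero_smul]
          · rw [z1 l (by omega), zero_smul]
        · intro h; exact absurd (Finset.mem_univ _) h
      rw [← h1, hy]
      abel
    · refine ⟨0, ?_⟩
      rw [dif_neg hk, add_zero]
      have h1 : y = 0 := by
        rw [hyx]
        refine Finset.sum_eq_zero fun l _ => ?_
        rw [z1 l (by omega), zero_smul]
      rw [hy, sub_eq_zero] at h1
      exact h1
  choose c hc using Bx
  refine ⟨x, fun k => if h : k < n then c ⟨k, h⟩ else 0, ?_, ?_, ?_⟩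
  · intro i
    have h1 := xsS i
    have h2 : K.symm (x i) = α i • x i + xs (i + 1) := by
      rw [xv, h1]; abel
    rw [h2]
    congr 1
    by_cases h : (i : ℕ) + 1 < n
    · rw [dif_pos h, xv]
    · rw [dif_neg h]
      have h3 : (i : ℕ) + 1 = n := by omega
      rw [h3, xsn]
  · intro i
    rw [hc i]
    simp only [i.2, dif_pos, Fin.eta]
  · intro k h1 h2
    simp only [h2, dif_pos]
    intro h3
    have h4 := hc ⟨k, h2⟩
    have hk0 : 0 < ((⟨k, h2⟩ : Fin n) : ℕ) := h1
    rw [dif_pos hk0, h3, zero_smul, add_zero] at h4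
    have h5 : w.repr (Ks (x ⟨k, h2⟩)) ⟨k - 1, by omega⟩ = 0 := by
      rw [h4, map_smul, Finsupp.smul_apply, xv, wz k ⟨k - 1, by omega⟩ (by simp; omega), smul_zero]
    have h6 : w.repr (Ks (x ⟨k, h2⟩)) ⟨k - 1, by omega⟩
        = ∑ l, (M.X * diagonal M.b * M.Y) ⟨k - 1, by omega⟩ l * w.repr (x ⟨k, h2⟩) l :=
      nf_repr w (Ks : V →ₗ[F] V) _ hBw (x ⟨k, h2⟩) _
    rw [h6, Finset.sum_eq_single (⟨k, h2⟩ : Fin n)] at h5
    · rcases mul_eq_zero.mp h5 with h | h
      · exact M.d3 ⟨k - 1, by omega⟩ ⟨k, h2⟩ (by simp; omega) h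
      · rw [xv] at h
        exact wd ⟨k, h2⟩ h
    · intro l _ hl
      have hl' : (l : ℕ) ≠ k := fun h => hl (Fin.ext h)
      rcases Nat.lt_or_ge (l : ℕ) k with h | h
      · rw [xv, wz k l h, mul_zero]
      · rw [M.c3 ⟨k - 1, by omega⟩ l (by simp; omega), zero_mul]
    · intro h; exact absurd (Finset.mem_univ _) h

private lemma nf_pow_ne {q : F} {n : ℕ} {a : F} {c : Fin n → F} (hc : Function.Injective c)
    (h : ∀ i : Fin n, c i = a * q ^ (i : ℕ)) {i : ℕ} (h1 : 1 ≤ i) (h2 : i < n) : q ^ i ≠ 1 := by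
  intro h3
  have h4 : c ⟨i, h2⟩ = c ⟨0, by omega⟩ := by
    rw [h, h]
    simp only [h3, pow_zero]
  have h5 := congrArg Fin.val (hc h4)
  simp at h5
  omega

/-- `φ_k` of the main family. -/
noncomputable def phi (n : ℕ) (a b q s : F) (k : ℕ) : F :=
  a * b * q ^ (k - 1) * (1 - q ^ k) * (q ^ (n - k) - 1) / (1 + s * q ^ (n - k))

/-- The split form of the main family in a basis `x` (`x_(n) = 0`, `x_(-1) = 0`). -/
def IsMain {V : Type*} [AddCommGroup V] [Module F V] (n : ℕ) (K Ks : V ≃ₗ[F] V) (a b q s : F) : Prop :=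
  ∃ x : Module.Basis (Fin n) F V,
    (∀ i : Fin n, K.symm (x i) = (a * q ^ (i : ℕ)) • x i
      + if h : (i : ℕ) + 1 < n then x ⟨i + 1, h⟩ else 0) ∧
    (∀ i : Fin n, Ks (x i) = (b * q ^ (i : ℕ)) • x i
      + if h : 0 < (i : ℕ) then phi n a b q s i • x ⟨i - 1, by omega⟩ else 0)

theorem normal_form {V : Type*} [AddCommGroup V] [Module F V] {n : ℕ} (hn : 2 ≤ n) (K Ks : V ≃ₗ[F] V)
    (M : Mat F n) (v w : Module.Basis (Fin n) F V)
    (hw : ∀ j, K.symm (w j) = M.a j • w j) (hv : ∀ k, Ks (v k) = M.b k • v k)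
    (hX : ∀ k, v k = ∑ j, M.X j k • w j) (a b q : F)
    (ha : ∀ i : Fin n, M.a i = a * q ^ (i : ℕ)) (hb : ∀ i : Fin n, M.b i = b * q ^ (i : ℕ)) :
    ∃ s : F, s ≠ 0 ∧ (∀ i, 1 ≤ i → i < n → 1 + s * q ^ i ≠ 0) ∧ IsMain n K Ks a b q s := by
  classical
  obtain ⟨x, φ, hA, hB, hφ⟩ := nf_split hn K Ks M v w hw hv hX (fun i => a * q ^ i)
    (fun i => b * q ^ i) ha hb
  obtain ⟨d, rfl⟩ : ∃ d, n = d + 1 := ⟨n - 1, by omega⟩
  have hd : 1 ≤ d := by omega
  have qi : ∀ i, 1 ≤ i → i < d + 1 → q ^ i ≠ 1 := fun i h1 h2 => nf_pow_ne M.a_inj ha h1 h2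
  have b0 : b ≠ 0 := by
    intro h; apply M.b_ne ⟨0, by omega⟩; rw [hb, h, zero_mul]
  have a0 : a ≠ 0 := by
    intro h; apply M.a_ne ⟨0, by omega⟩; rw [ha, h, zero_mul]
  have q0 : q ≠ 0 := by
    intro h
    apply M.a_ne ⟨1, by omega⟩; rw [ha, h]; simp
  -- coordinates of the operators in the basis x
  have cA : ∀ (z : V) (k : ℕ) (hk : k + 1 < d + 1), x.repr (K.symm z) ⟨k + 1, hk⟩
      = a * q ^ (k + 1) * x.repr z ⟨k + 1, hk⟩ + x.repr z ⟨k, by omega⟩ := by
    intro z k hk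
    have h1 : (x.coord ⟨k + 1, hk⟩) ∘ₗ (K.symm : V →ₗ[F] V)
        = (a * q ^ (k + 1)) • x.coord ⟨k + 1, hk⟩ + x.coord ⟨k, by omega⟩ := by
      refine x.ext fun i => ?_
      simp only [LinearMap.comp_apply, LinearEquiv.coe_coe, LinearMap.add_apply,
        LinearMap.smul_apply, Module.Basis.coord_apply, hA i, map_add, map_smul,
        Module.Basis.repr_self, smul_eq_mul]
      by_cases h1 : (i : ℕ) + 1 < d + 1
      · rw [dif_pos h1, Module.Basis.repr_self]
        simp only [Finsupp.single_apply, Fin.ext_iff]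
        by_cases h2 : (i : ℕ) = k + 1
        · rw [if_pos h2, if_neg (by omega), if_neg (by omega), h2]
        · rw [if_neg h2]
          by_cases h3 : (i : ℕ) = k
          · rw [if_pos (by omega), if_pos h3]; ring
          · rw [if_neg (by omega), if_neg h3]; ring
      · rw [dif_neg h1]
        simp only [Finsupp.single_apply, Fin.ext_iff, map_zero, Finsupp.coe_zero, Pi.zero_apply]
        by_cases h2 : (i : ℕ) = k + 1
        · rw [if_pos h2, if_neg (by omega), h2]
        · rw [if_neg h2, if_neg (by omega)]; ring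
    exact LinearMap.congr_fun h1 z
  have cA0 : ∀ (z : V), x.repr (K.symm z) ⟨0, by omega⟩ = a * x.repr z ⟨0, by omega⟩ := by
    intro z
    have h1 : (x.coord ⟨0, by omega⟩) ∘ₗ (K.symm : V →ₗ[F] V) = a • x.coord ⟨0, by omega⟩ := by
      refine x.ext fun i => ?_
      simp only [LinearMap.comp_apply, LinearEquiv.coe_coe,
        LinearMap.smul_apply, Module.Basis.coord_apply, hA i, map_add, map_smul,
        Module.Basis.repr_self, smul_eq_mul]
      by_cases h1 : (i : ℕ) + 1 < d + 1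
      · rw [dif_pos h1, Module.Basis.repr_self]
        simp only [Finsupp.single_apply, Fin.ext_iff]
        by_cases h2 : (i : ℕ) = 0
        · rw [if_pos h2, if_neg (by omega), h2]; ring
        · rw [if_neg h2, if_neg (by omega)]; ring
      · rw [dif_neg h1]
        simp only [Finsupp.single_apply, Fin.ext_iff, map_zero, Finsupp.coe_zero, Pi.zero_apply]
        rw [if_neg (by omega)]; ring
    exact LinearMap.congr_fun h1 z
  have cB : ∀ (z : V) (k : ℕ) (hk : k + 1 < d + 1), x.repr (Ks z) ⟨k, by omega⟩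
      = b * q ^ k * x.repr z ⟨k, by omega⟩ + φ (k + 1) * x.repr z ⟨k + 1, hk⟩ := by
    intro z k hk
    have h1 : (x.coord ⟨k, by omega⟩) ∘ₗ (Ks : V →ₗ[F] V)
        = (b * q ^ k) • x.coord ⟨k, by omega⟩ + φ (k + 1) • x.coord ⟨k + 1, hk⟩ := by
      refine x.ext fun i => ?_
      simp only [LinearMap.comp_apply, LinearEquiv.coe_coe, LinearMap.add_apply,
        LinearMap.smul_apply, Module.Basis.coord_apply, hB i, map_add, map_smul,
        Module.Basis.repr_self, smul_eq_mul]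
      by_cases h1 : 0 < (i : ℕ)
      · rw [dif_pos h1, map_smul, Finsupp.smul_apply, Module.Basis.repr_self]
        simp only [Finsupp.single_apply, Fin.ext_iff, smul_eq_mul]
        by_cases h2 : (i : ℕ) = k
        · rw [if_pos h2, if_neg (by omega), if_neg (by omega), h2]; ring
        · rw [if_neg h2]
          by_cases h3 : (i : ℕ) = k + 1
          · rw [if_pos (by omega), if_pos h3, h3]; ring
          · rw [if_neg (by omega), if_neg h3]; ring
      · rw [dif_neg h1]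
        simp only [Finsupp.single_apply, Fin.ext_iff, map_zero, Finsupp.coe_zero, Pi.zero_apply]
        by_cases h2 : (i : ℕ) = k
        · rw [if_pos h2, if_neg (by omega), h2]; ring
        · rw [if_neg h2, if_neg (by omega)]; ring
    exact LinearMap.congr_fun h1 z
  -- eigenvector coordinates
  have rec1 : ∀ (j : Fin (d + 1)) (k : ℕ) (hk : k + 1 < d + 1),
      φ (k + 1) * x.repr (v j) ⟨k + 1, hk⟩
        = (b * q ^ (j : ℕ) - b * q ^ k) * x.repr (v j) ⟨k, by omega⟩ := by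
    intro j k hk
    have h1 := cB (v j) k hk
    rw [hv j, map_smul, Finsupp.smul_apply, smul_eq_mul, hb j] at h1
    linear_combination -h1
  have y0 : ∀ j : Fin (d + 1), x.repr (v j) ⟨0, by omega⟩ ≠ 0 := by
    intro j h0
    have h1 : ∀ k (hk : k < d + 1), x.repr (v j) ⟨k, hk⟩ = 0 := by
      intro k
      induction k with
      | zero => intro _; exact h0
      | succ k ih =>
        intro hk
        have h2 := rec1 j k hk
        rw [ih (by omega), mul_zero] at h2
        exact (mul_eq_zero.mp h2).resolve_left (hφ (k + 1) (by omega) hk)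
    have h3 : x.repr (v j) = 0 := by
      ext i
      exact h1 i i.2
    exact v.ne_zero j ((LinearEquiv.map_eq_zero_iff _).mp h3)
  have hfd : (d : ℕ) < d + 1 := by omega
  have hfd1 : d - 1 < d + 1 := by omega
  have qd : ∀ k, k < d → b * q ^ d - b * q ^ k = b * q ^ k * (q ^ (d - k) - 1) := by
    intro k hk
    have : q ^ d = q ^ k * q ^ (d - k) := by rw [← pow_add]; congr 1; omega
    rw [this]; ring
  have yk : ∀ k (hk : k < d + 1), x.repr (v ⟨d, hfd⟩) ⟨k, hk⟩ ≠ 0 := by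
    intro k
    induction k with
    | zero => intro _; exact y0 _
    | succ k ih =>
      intro hk h
      have h2 := rec1 ⟨d, hfd⟩ k hk
      rw [h, mul_zero] at h2
      simp only at h2
      rw [qd k (by omega)] at h2
      rcases mul_eq_zero.mp h2.symm with h3 | h3
      · rcases mul_eq_zero.mp h3 with h4 | h4
        · exact mul_ne_zero b0 (pow_ne_zero _ q0) h4
        · exact qi (d - k) (by omega) (by omega) (sub_eq_zero.mp h4)
      · exact ih (by omega) h3
  have ratio : ∀ k (hk : k < d + 1),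
      (q ^ d - 1) * x.repr (v ⟨d - 1, hfd1⟩) ⟨k, hk⟩ * x.repr (v ⟨d, hfd⟩) ⟨0, by omega⟩
        = x.repr (v ⟨d - 1, hfd1⟩) ⟨0, by omega⟩ * (q ^ (d - k) - 1)
          * x.repr (v ⟨d, hfd⟩) ⟨k, hk⟩ := by
    intro k
    induction k with
    | zero => intro _; simp only [Nat.sub_zero]; ring
    | succ k ih =>
      intro hk
      have ih' := ih (by omega)
      have h1 := rec1 ⟨d - 1, hfd1⟩ k hk
      have h2 := rec1 ⟨d, hfd⟩ k hk
      have hφk := hφ (k + 1) (by omega) hk
      have e1 : q ^ (d - 1) = q ^ k * q ^ (d - (k + 1)) := by rw [← pow_add]; congr 1; omega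
      have e2 : q ^ (d - k) = q * q ^ (d - (k + 1)) := by rw [← pow_succ']; congr 1; omega
      have e3 : q ^ d = q * q ^ (d - 1) := by rw [← pow_succ']; congr 1; omega
      simp only at h1 h2
      apply mul_left_cancel₀ hφk
      rw [e3, e1] at h2 ⊢
      rw [e1] at h1
      rw [e3, e1, e2] at ih'
      generalize q ^ (d - (k + 1)) = r at *
      generalize q ^ k = p at *
      linear_combination ((q * (p * r) - 1) * x.repr (v ⟨d, hfd⟩) ⟨0, by omega⟩) * h1
        - (x.repr (v ⟨d - 1, hfd1⟩) ⟨0, by omega⟩ * (r - 1)) * h2 + b * (p * r - p) * ih'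
  have hY : ∀ j, w j = ∑ k, M.Y k j • v k := nf_inv M v w hX
  have hKw : ∀ j, (K : V →ₗ[F] V) (w j) = (fun t => (M.a t)⁻¹) j • w j := by
    intro j
    have h1 : w j = K (M.a j • w j) := by rw [← hw j]; simp
    rw [map_smul] at h1
    show K (w j) = (M.a j)⁻¹ • w j
    conv_rhs => rw [h1]
    rw [smul_smul, inv_mul_cancel₀ (M.a_ne j), one_smul]
  have hKv := nf_conj (K : V →ₗ[F] V) (fun t => (M.a t)⁻¹) hKw hX hY ⟨d, hfd⟩
  obtain ⟨c1, c2, hc2, hz⟩ : ∃ c1 c2 : F, c2 ≠ 0 ∧
      K (v ⟨d, hfd⟩) = c1 • v ⟨d, hfd⟩ + c2 • v ⟨d - 1, hfd1⟩ := by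
    refine ⟨(M.Y * diagonal (fun t => (M.a t)⁻¹) * M.X) ⟨d, hfd⟩ ⟨d, hfd⟩, _,
      M.d2 ⟨d - 1, hfd1⟩ ⟨d, hfd⟩ (by simp; omega), ?_⟩
    have h1 : K (v ⟨d, hfd⟩) = ∑ i, (M.Y * diagonal (fun t => (M.a t)⁻¹) * M.X) i ⟨d, hfd⟩ • v i :=
      hKv
    rw [h1]
    have hne : (⟨d, hfd⟩ : Fin (d + 1)) ≠ ⟨d - 1, hfd1⟩ := by
      intro h; have := congrArg Fin.val h; simp at this; omega
    rw [← Finset.sum_subset (Finset.subset_univ {⟨d, hfd⟩, ⟨d - 1, hfd1⟩}),
      Finset.sum_pair hne]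
    intro i _ hi
    have h2 : (i : ℕ) ≠ d := fun h => hi (by simp [Fin.ext_iff, h])
    have h3 : (i : ℕ) ≠ d - 1 := fun h => hi (by simp [Fin.ext_iff, h])
    rw [M.c2 i ⟨d, hfd⟩ (by have := i.2; simp only; omega), zero_smul]
  obtain ⟨σ, hσ, hσk⟩ : ∃ σ : F, σ ≠ 0 ∧ ∀ k (hk : k < d + 1),
      x.repr (v ⟨d - 1, hfd1⟩) ⟨k, hk⟩ = σ * (q ^ (d - k) - 1) * x.repr (v ⟨d, hfd⟩) ⟨k, hk⟩ := by
    have hqd : q ^ d - 1 ≠ 0 := sub_ne_zero.mpr (qi d hd (by omega))
    refine ⟨x.repr (v ⟨d - 1, hfd1⟩) ⟨0, by omega⟩ /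
      (x.repr (v ⟨d, hfd⟩) ⟨0, by omega⟩ * (q ^ d - 1)),
      div_ne_zero (y0 _) (mul_ne_zero (y0 _) hqd), fun k hk => ?_⟩
    have h1 := ratio k hk
    have h2 := y0 ⟨d, hfd⟩
    rw [div_mul_eq_mul_div, div_mul_eq_mul_div, eq_div_iff (mul_ne_zero h2 hqd)]
    linear_combination h1
  -- coordinates of `z = K v_d`
  have zk : ∀ k (hk : k < d + 1), q ^ k * x.repr (K (v ⟨d, hfd⟩)) ⟨k, hk⟩
      = ((c1 - c2 * σ) * q ^ k + c2 * σ * q ^ d) * x.repr (v ⟨d, hfd⟩) ⟨k, hk⟩ := by
    intro k hk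
    have e : q ^ d = q ^ k * q ^ (d - k) := by rw [← pow_add]; congr 1; omega
    rw [hz, map_add, map_smul, map_smul, Finsupp.add_apply, Finsupp.smul_apply, Finsupp.smul_apply,
      smul_eq_mul, smul_eq_mul, hσk k hk, e]
    ring
  have hu1 : a * ((c1 - c2 * σ) + c2 * σ * q ^ d) = 1 := by
    have h1 := cA0 (K (v ⟨d, hfd⟩))
    have h2 := zk 0 (by omega)
    have h3 := y0 ⟨d, hfd⟩
    rw [LinearEquiv.symm_apply_apply] at h1
    rw [pow_zero, one_mul, mul_one] at h2
    rw [h2] at h1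
    apply mul_right_cancel₀ h3
    rw [one_mul]
    linear_combination -h1
  have star : ∀ k, k + 1 < d + 1 → b * (q ^ d - q ^ k) * q ^ k * (a * (c1 - c2 * σ))
      * (1 - q ^ (k + 1)) = φ (k + 1) * ((c1 - c2 * σ) * q ^ k + c2 * σ * q ^ d) := by
    intro k hk
    have h1 := cA (K (v ⟨d, hfd⟩)) k hk
    rw [LinearEquiv.symm_apply_apply] at h1
    have h2 := zk k (by omega)
    have h3 := zk (k + 1) hk
    have h4 := rec1 ⟨d, hfd⟩ k hk
    simp only at h4
    apply mul_right_cancel₀ (yk k (by omega))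
    generalize (x.repr (v ⟨d, hfd⟩)) ⟨k + 1, hk⟩ = Y1 at *
    generalize (x.repr (v ⟨d, hfd⟩)) ⟨k, _⟩ = Y0 at *
    generalize (x.repr (K (v ⟨d, hfd⟩))) ⟨k + 1, hk⟩ = Z1 at *
    generalize (x.repr (K (v ⟨d, hfd⟩))) ⟨k, _⟩ = Z0 at *
    generalize c2 * σ * q ^ d = V at *
    generalize c1 - c2 * σ = U at *
    rw [show b * (q ^ d - q ^ k) = b * q ^ d - b * q ^ k by ring]
    generalize b * q ^ d - b * q ^ k = D at *
    generalize q ^ (k + 1) = P1 at *
    generalize q ^ k = P at *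
    -- h1 : Y1 = a * P1 * Z1 + Z0 ; h2 : P * Z0 = (U * P + V) * Y0 ; h3 : P1 * Z1 = (U * P1 + V) * Y1
    -- h4 : φ * Y1 = D * Y0 ; hu1 : a * (U + V) = 1
    linear_combination (-(P * a * U * (1 - P1))) * h4 + φ (k + 1) * h2 + φ (k + 1) * P * h1
      + φ (k + 1) * P * a * h3 + φ (k + 1) * P * Y1 * hu1
  have hu0 : c1 - c2 * σ ≠ 0 := by
    intro h0
    have h1 := star 0 (by omega)
    rw [h0, mul_zero, mul_zero, zero_mul, zero_mul, zero_add] at h1
    have h2 := (mul_eq_zero.mp h1.symm).resolve_left (hφ 1 le_rfl (by omega))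
    rw [h0, h2, mul_zero] at hu1
    exact zero_ne_one hu1
  have q1 : ∀ k, k < d → (c1 - c2 * σ) * q ^ k * (1 + c2 * σ / (c1 - c2 * σ) * q ^ (d - k))
      = (c1 - c2 * σ) * q ^ k + c2 * σ * q ^ d := by
    intro k hk
    have e : q ^ d = q ^ k * q ^ (d - k) := by rw [← pow_add]; congr 1; omega
    rw [e]
    field_simp
  have main : ∀ k, k < d → φ (k + 1) * (1 + c2 * σ / (c1 - c2 * σ) * q ^ (d - k))
      = a * b * q ^ k * (1 - q ^ (k + 1)) * (q ^ (d - k) - 1) := by
    intro k hk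
    have h1 := star k (by omega)
    rw [← q1 k hk] at h1
    have e : q ^ d = q ^ k * q ^ (d - k) := by rw [← pow_add]; congr 1; omega
    rw [e] at h1
    apply mul_left_cancel₀ (mul_ne_zero hu0 (pow_ne_zero k q0))
    linear_combination -h1
  have hs : ∀ i, 1 ≤ i → i < d + 1 → 1 + c2 * σ / (c1 - c2 * σ) * q ^ i ≠ 0 := by
    intro i h1 h2 h3
    have h4 := main (d - i) (by omega)
    rw [show d - (d - i) = i by omega, h3, mul_zero] at h4
    have h5 : (1 : F) - q ^ (d - i + 1) ≠ 0 :=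
      sub_ne_zero.mpr (Ne.symm (qi _ (by omega) (by omega)))
    have h6 : q ^ i - 1 ≠ 0 := sub_ne_zero.mpr (qi i h1 h2)
    exact mul_ne_zero (mul_ne_zero (mul_ne_zero (mul_ne_zero a0 b0) (pow_ne_zero _ q0)) h5) h6
      h4.symm
  refine ⟨c2 * σ / (c1 - c2 * σ), div_ne_zero (mul_ne_zero hc2 hσ) hu0, hs, x, hA, fun i => ?_⟩
  rw [hB i]
  congr 1
  by_cases h : 0 < (i : ℕ)
  · rw [dif_pos h, dif_pos h]
    congr 1
    obtain ⟨k, hk⟩ : ∃ k, (i : ℕ) = k + 1 := ⟨(i : ℕ) - 1, by omega⟩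
    have hi := i.2
    rw [hk]
    unfold phi
    rw [show d + 1 - (k + 1) = d - k by omega, Nat.add_sub_cancel,
      eq_div_iff (hs (d - k) (by omega) (by omega))]
    exact main k (by omega)
  · rw [dif_neg h, dif_neg h]

end Pool.Agent.Helper54.IP
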