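import Pool.Agent.Helper54.IP.Defs

/-!
TH-P: the swap symmetry of the Szegő form (transposition) and the restriction to smaller corners.
-/

namespace Pool.Agent.Helper54.IP

variable {F : Type*} [Field F]

/-- transposition: exchanges `(t, lam', mu')` and `(s, lam, mu)`. -/
def GForm.swap {m : ℕ} (g : GForm F m) : GForm F m where
  t := g.s
  s := g.t
  G := fun j k => g.G k j
  H := fun j k => g.H k j
  lam := g.lam'
  mu := g.mu'
  lam' := g.lam
  mu' := g.mu
  t0 := g.s0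
  s0 := g.t0
  t_ne := g.s_ne
  s_ne := g.t_ne
  t_inj := g.s_inj
  s_inj := g.t_inj
  G0 := g.G0'
  G0' := g.G0
  H0 := g.H0'
  H0' := g.H0
  U1 := fun j k hj hk => g.V1 k j hk hj
  U2 := fun j k hj hk => g.V2 k j hk hj
  V1 := fun j k hj hk => g.U1 k j hk hj
  V2 := fun j k hj hk => g.U2 k j hk hj
  lam_ne := g.lam'_ne
  mu_ne := g.mu'_ne
  lm_ne := g.lm'_ne
  lam'_ne := g.lam_ne
  mu'_ne := g.mu_ne
  lm'_ne := g.lm_ne

@[simp] theorem GForm.swap_t {m : ℕ} (g : GForm F m) : g.swap.t = g.s := rfl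
@[simp] theorem GForm.swap_s {m : ℕ} (g : GForm F m) : g.swap.s = g.t := rfl
@[simp] theorem GForm.swap_G {m : ℕ} (g : GForm F m) (j k : ℕ) : g.swap.G j k = g.G k j := rfl
@[simp] theorem GForm.swap_H {m : ℕ} (g : GForm F m) (j k : ℕ) : g.swap.H j k = g.H k j := rfl
@[simp] theorem GForm.swap_lam {m : ℕ} (g : GForm F m) : g.swap.lam = g.lam' := rfl
@[simp] theorem GForm.swap_mu {m : ℕ} (g : GForm F m) : g.swap.mu = g.mu' := rfl
@[simp] theorem GForm.swap_lam' {m : ℕ} (g : GForm F m) : g.swap.lam' = g.lam := rfl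
@[simp] theorem GForm.swap_mu' {m : ℕ} (g : GForm F m) : g.swap.mu' = g.mu := rfl
@[simp] theorem GForm.swap_swap {m : ℕ} (g : GForm F m) : g.swap.swap = g := rfl

/-- restriction to the corner `{0,..,m'} × {0,..,m'}`, `m' ≤ m`. -/
def GForm.restr {m m' : ℕ} (h : m' ≤ m) (g : GForm F m) : GForm F m' where
  t := g.t
  s := g.s
  G := g.G
  H := g.H
  lam := g.lam
  mu := g.mu
  lam' := g.lam'
  mu' := g.mu'
  t0 := g.t0
  s0 := g.s0
  t_ne := fun i hi => g.t_ne i (hi.trans h)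
  s_ne := fun i hi => g.s_ne i (hi.trans h)
  t_inj := fun i j hij hj => g.t_inj i j hij (hj.trans h)
  s_inj := fun i j hij hj => g.s_inj i j hij (hj.trans h)
  G0 := fun j hj => g.G0 j (hj.trans h)
  G0' := fun k hk => g.G0' k (hk.trans h)
  H0 := fun j hj => g.H0 j (hj.trans h)
  H0' := fun k hk => g.H0' k (hk.trans h)
  U1 := fun j k hj hk => g.U1 j k (hj.trans h) (hk.trans_le h)
  U2 := fun j k hj hk => g.U2 j k (hj.trans h) (hk.trans_le h)
  V1 := fun j k hj hk => g.V1 j k (hj.trans_le h) (hk.trans h)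
  V2 := fun j k hj hk => g.V2 j k (hj.trans_le h) (hk.trans h)
  lam_ne := fun k hk => g.lam_ne k (hk.trans_le h)
  mu_ne := fun k hk => g.mu_ne k (hk.trans_le h)
  lm_ne := fun k hk => g.lm_ne k (hk.trans_le h)
  lam'_ne := fun k hk => g.lam'_ne k (hk.trans_le h)
  mu'_ne := fun k hk => g.mu'_ne k (hk.trans_le h)
  lm'_ne := fun k hk => g.lm'_ne k (hk.trans_le h)

section restr

variable {m m' : ℕ} (h : m' ≤ m) (g : GForm F m)

@[simp] theorem GForm.restr_t : (g.restr h).t = g.t := rfl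
@[simp] theorem GForm.restr_s : (g.restr h).s = g.s := rfl
@[simp] theorem GForm.restr_G : (g.restr h).G = g.G := rfl
@[simp] theorem GForm.restr_H : (g.restr h).H = g.H := rfl
@[simp] theorem GForm.restr_lam : (g.restr h).lam = g.lam := rfl
@[simp] theorem GForm.restr_mu : (g.restr h).mu = g.mu := rfl
@[simp] theorem GForm.restr_lam' : (g.restr h).lam' = g.lam' := rfl
@[simp] theorem GForm.restr_mu' : (g.restr h).mu' = g.mu' := rfl

theorem GForm.restr_swap : (g.restr h).swap = g.swap.restr h := rfl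

end restr

/-! ### basic consequences, rows 0 and 1 -/

section basic

variable {m : ℕ} (g : GForm F m)

/-- `kap_j^(k) = t_j G(j,k) - t_j^k H(j,k)` -/
def GForm.kap (j k : ℕ) : F := g.t j * g.G j k - g.t j ^ k * g.H j k

/-- `D_j^(k) = G(j,k) - t_j^k H(j,k)` -/
def GForm.D (j k : ℕ) : F := g.G j k - g.t j ^ k * g.H j k

theorem GForm.D_succ {j k : ℕ} (hj : j ≤ m) (hk : k < m) :
    g.D j (k + 1) = (g.mu k - g.lam k) * g.kap j k := by
  have h1 := g.U1 j k hj hk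
  have h2 := g.U2 j k hj hk
  rw [GForm.D, GForm.kap]
  linear_combination h1 - h2

theorem GForm.D_zero {j : ℕ} (hj : j ≤ m) : g.D j 0 = 0 := by
  rw [GForm.D, g.G0 j hj, g.H0 j hj]
  ring

theorem GForm.kap_zero {j : ℕ} (hj : j ≤ m) : g.kap j 0 = g.t j - 1 := by
  rw [GForm.kap, g.G0 j hj, g.H0 j hj]
  ring

/-- `G(j,k+1) = t_j G(j,k) - lam_k kap_j^(k)` -/
theorem GForm.G_succ {j k : ℕ} (hj : j ≤ m) (hk : k < m) :
    g.G j (k + 1) = g.t j * g.G j k - g.lam k * g.kap j k := by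
  have h1 := g.U1 j k hj hk
  rw [GForm.kap]
  linear_combination h1

/-- `t_j^(k+1) H(j,k+1) = t_j G(j,k) - mu_k kap_j^(k)` -/
theorem GForm.H_succ {j k : ℕ} (hj : j ≤ m) (hk : k < m) :
    g.t j ^ (k + 1) * g.H j (k + 1) = g.t j * g.G j k - g.mu k * g.kap j k := by
  have h2 := g.U2 j k hj hk
  rw [GForm.kap]
  linear_combination h2

/-- row 1: `G(1,k) = 1 - x + x s_k`, `x = 1 - lam'_0` -/
theorem GForm.row1G {k : ℕ} (hm : 1 ≤ m) (hk : k ≤ m) :
    g.G 1 k = g.lam' 0 + (1 - g.lam' 0) * g.s k := by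
  have h1 := g.V1 0 k (by omega) hk
  rw [g.G0' k hk, g.H0' k hk] at h1
  rw [zero_add] at h1
  rw [h1]
  ring

/-- row 1: `s_k H(1,k) = (1 - x') s_k + x'`, `x' = mu'_0` -/
theorem GForm.row1H {k : ℕ} (hm : 1 ≤ m) (hk : k ≤ m) :
    g.s k * g.H 1 k = (1 - g.mu' 0) * g.s k + g.mu' 0 := by
  have h1 := g.V2 0 k (by omega) hk
  rw [g.G0' k hk, g.H0' k hk] at h1
  rw [zero_add, pow_one] at h1
  rw [h1]
  ring

/-- row 2: `G(2,k) = s_k (al G(1,k) + be H(1,k))`, `be = lam'_1`, `al = 1 - be` -/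
theorem GForm.row2G {k : ℕ} (hm : 2 ≤ m) (hk : k ≤ m) :
    g.G 2 k = g.s k * ((1 - g.lam' 1) * g.G 1 k + g.lam' 1 * g.H 1 k) := by
  have h1 := g.V1 1 k (by omega) hk
  norm_num at h1
  rw [h1]
  ring

/-- row 2: `s_k H(2,k) = ga G(1,k) + de H(1,k)`, `de = mu'_1`, `ga = 1 - de` -/
theorem GForm.row2H {k : ℕ} (hm : 2 ≤ m) (hk : k ≤ m) :
    g.s k * g.H 2 k = (1 - g.mu' 1) * g.G 1 k + g.mu' 1 * g.H 1 k := by
  have h1 := g.V2 1 k (by omega) hk
  norm_num at h1
  have hs := g.s_ne k hk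
  have h2 : g.s k * (g.s k * g.H 2 k) =
      g.s k * ((1 - g.mu' 1) * g.G 1 k + g.mu' 1 * g.H 1 k) := by
    linear_combination h1
  exact mul_left_cancel₀ hs h2

/-- a row is never identically degenerate: `(G(j,k), H(j,k)) ≠ (0,0)` -/
theorem GForm.ne_zero {j k : ℕ} (hj : j ≤ m) (hk : k ≤ m) : ¬ (g.G j k = 0 ∧ g.H j k = 0) := by
  induction k with
  | zero =>
    rintro ⟨h, -⟩
    rw [g.G0 j hj] at h
    exact one_ne_zero h
  | succ k ih =>
    rintro ⟨h1, h2⟩
    have hk' : k < m := by omega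
    have e1 := g.U1 j k hj hk'
    have e2 := g.U2 j k hj hk'
    rw [h1] at e1
    rw [h2, mul_zero] at e2
    have hd : g.mu k - g.lam k ≠ 0 := fun h => g.lm_ne k hk' (sub_eq_zero.1 h).symm
    have e3 : (g.mu k - g.lam k) * (g.t j * g.G j k) = 0 := by
      linear_combination (-g.mu k) * e1 + g.lam k * e2
    have e4 : (g.mu k - g.lam k) * (g.t j ^ k * g.H j k) = 0 := by
      linear_combination (1 - g.mu k) * e1 - (1 - g.lam k) * e2
    have ht := g.t_ne j hj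
    refine ih (by omega) ⟨?_, ?_⟩
    · exact (mul_eq_zero.1 ((mul_eq_zero.1 e3).resolve_left hd)).resolve_left ht
    · exact (mul_eq_zero.1 ((mul_eq_zero.1 e4).resolve_left hd)).resolve_left (pow_ne_zero _ ht)

end basic

end Pool.Agent.Helper54.IP
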