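import Pool.Agent.Helper54.IP.CTools

/-!
TH-P phase 2: the parameter arrays of dimension 3.
-/

namespace Pool.Agent.Helper54.IP

variable {F : Type*} [Field F] {m : ℕ}

theorem GForm.prod_s_ne (g : GForm F m) {k : ℕ} (hk : k < m) :
    ∏ l ∈ Finset.range (k + 1), (g.s (k + 1) - g.s l) ≠ 0 := by
  refine Finset.prod_ne_zero_iff.2 fun l hl => ?_
  have hl' : l < k + 1 := Finset.mem_range.1 hl
  exact sub_ne_zero.2 (g.s_inj l (k + 1) hl' (by omega)).symm

theorem GForm.IsPhi.ne {g : GForm F m} {f : ℕ → F} (h : g.IsPhi f) {k : ℕ} (hk : k < m) :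
    f (k + 1) ≠ 0 := by
  intro h0
  have h1 := h k hk
  rw [h0, zero_mul] at h1
  exact g.prod_s_ne hk h1.symm

/-- the parameter arrays of dimension 3 -/
theorem c3_elim (g : GForm F 2) (h : g.Closed) {f : ℕ → F} (hf : g.IsPhi f) :
    g.t 2 = g.s 2 ∧
    (f 1 - (g.t 2 - 1)) * (f 2 + g.t 2 * (g.t 2 - 1)) = -(g.t 1 * g.s 1 * (g.t 2 - 1) ^ 2) ∧
    f 1 ≠ 0 ∧ f 2 ≠ 0 ∧ f 1 + (g.t 1 - 1) * (g.t 2 - 1) ≠ 0 ∧
    f 1 + (g.s 1 - 1) * (g.t 2 - 1) ≠ 0 := by
  have hw : g.t 2 = g.s 2 := by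
    have := h.corner (κ := 1) (by omega)
    rwa [pow_one, pow_one] at this
  obtain ⟨X, Y, hx⟩ := g.exists_XY (by omega)
  have f1 := hf.one (by omega) hx
  have f2 := hf.two (by omega) hx
  have c := h.cX (ι := 0) (by omega) hx
  have a1 := g.t_sub_one (k := 1) (by omega) (by omega)
  have b1 := g.t_sub_one (k := 2) (by omega) (by omega)
  have b0 := g.t_ne 2 (by omega)
  have hub : g.s 1 - g.t 2 ≠ 0 := by
    rw [hw]
    exact sub_ne_zero.2 (g.s_inj 1 2 (by omega) (by omega))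
  have X0 := hx.X_ne (by omega)
  have Y0 := hx.Y_ne (by omega)
  have G12 := hx.G1 (by omega) (k := 2) le_rfl
  have G21 := hx.Gk1 (by omega) (k := 2) le_rfl
  have n12 := h.G_ne (j := 1) (by omega)
  have n21 := h.swap.G_ne (j := 1) (by omega)
  rw [GForm.swap_G] at n21
  rw [← hw] at f2 c G12
  simp only [pow_zero, zero_add, pow_one, one_mul] at c
  have c2 : (g.t 2 - 1) * (g.t 2 * X + Y) = g.t 2 := by
    apply mul_left_cancel₀ a1
    linear_combination c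
  have f2' : f 2 * Y = -(g.t 2 * (g.t 2 - 1) * (g.t 1 * g.s 1 * X + Y)) := by
    apply mul_left_cancel₀ hub
    linear_combination g.t 2 * f2 - f 2 * g.s 1 * c2
  refine ⟨hw, ?_, hf.ne (k := 0) (by omega), hf.ne (k := 1) (by omega), ?_, ?_⟩
  · apply mul_left_cancel₀ (mul_ne_zero X0 (mul_ne_zero Y0 b0))
    have e1 : X * (f 1 - (g.t 2 - 1)) * g.t 2 = (g.t 2 - 1) * Y := by
      linear_combination g.t 2 * f1 - c2
    have e2 : Y * (f 2 + g.t 2 * (g.t 2 - 1)) = -(g.t 2 * (g.t 2 - 1) * g.t 1 * g.s 1 * X) := by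
      linear_combination f2'
    linear_combination (Y * (f 2 + g.t 2 * (g.t 2 - 1))) * e1 + (g.t 2 - 1) * Y * e2
  · intro e
    apply mul_ne_zero (hf.ne (k := 0) (by omega)) n12
    rw [zero_add, G12]
    linear_combination e + (g.t 1 - 1) * (g.t 2 - 1) * f1
  · intro e
    apply mul_ne_zero (hf.ne (k := 0) (by omega)) n21
    rw [zero_add, G21]
    linear_combination e + (g.s 1 - 1) * (g.t 2 - 1) * f1

end Pool.Agent.Helper54.IP
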