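import Pool.Agent.Helper54.IP.GSwap

/-!
TH-P phase 2: closed corners (the pairs of dimension `m + 1`), the reversal symmetry, the closure
equations in row 1 and column 1.
-/

namespace Pool.Agent.Helper54.IP

variable {F : Type*} [Field F] {m : ℕ}

private theorem pow_aux (x : F) {κ n : ℕ} (h : κ + 1 = n) : x ^ n = x ^ κ * x := by
  rw [← h, pow_succ]

private theorem pow_aux2 (x : F) {k κ n : ℕ} (h : k + κ + 1 = n) :
    x ^ n = x ^ k * x ^ κ * x := by
  rw [← h, pow_add, pow_add, pow_one]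

/-- the corner is closed at `m` in both directions: it is a whole pair of dimension `m + 1`. -/
structure GForm.Closed (g : GForm F m) : Prop where
  row : ∀ j, j ≤ m → g.t j * g.G j m = g.t j ^ m * g.H j m
  col : ∀ k, k ≤ m → g.s k * g.G m k = g.s k ^ m * g.H m k

theorem GForm.Closed.swap {g : GForm F m} (h : g.Closed) : g.swap.Closed := ⟨h.col, h.row⟩

theorem GForm.Closed.G_ne {g : GForm F m} (h : g.Closed) {j : ℕ} (hj : j ≤ m) : g.G j m ≠ 0 := by
  intro h0
  have h1 := h.row j hj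
  rw [h0, mul_zero] at h1
  have h2 : g.H j m = 0 := by
    rcases mul_eq_zero.1 h1.symm with h2 | h2
    · exact absurd h2 (pow_ne_zero _ (g.t_ne j hj))
    · exact h2
  exact g.ne_zero hj le_rfl ⟨h0, h2⟩

theorem GForm.Closed.H_ne {g : GForm F m} (h : g.Closed) {j : ℕ} (hj : j ≤ m) : g.H j m ≠ 0 := by
  intro h0
  have h1 := h.row j hj
  rw [h0, mul_zero] at h1
  rcases mul_eq_zero.1 h1 with h2 | h2
  · exact g.t_ne j hj h2
  · exact h.G_ne hj h2

/-- `G_jm = t_j ^ κ H_jm`, `κ + 1 = m` -/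
theorem GForm.Closed.row' {g : GForm F m} (h : g.Closed) {κ : ℕ} (hκ : κ + 1 = m) {j : ℕ}
    (hj : j ≤ m) : g.G j m = g.t j ^ κ * g.H j m := by
  have h1 := h.row j hj
  rw [pow_aux (g.t j) hκ] at h1
  apply mul_left_cancel₀ (g.t_ne j hj)
  rw [h1]
  ring

theorem GForm.Closed.col' {g : GForm F m} (h : g.Closed) {κ : ℕ} (hκ : κ + 1 = m) {k : ℕ}
    (hk : k ≤ m) : g.G m k = g.s k ^ κ * g.H m k := h.swap.row' hκ hk

/-- corner closure: `t_m ^ (m-1) = s_m ^ (m-1)` -/
theorem GForm.Closed.corner {g : GForm F m} (h : g.Closed) {κ : ℕ} (hκ : κ + 1 = m) :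
    g.t m ^ κ = g.s m ^ κ := by
  have h1 := h.row' hκ (j := m) le_rfl
  have h2 := h.col' hκ (k := m) le_rfl
  rw [h1] at h2
  exact mul_right_cancel₀ (h.H_ne le_rfl) h2

/-- closure in row 1, `x = 1 - lam'_0`, `x' = mu'_0` -/
theorem GForm.Closed.c1 {g : GForm F m} (h : g.Closed) {κ : ℕ} (hκ : κ + 1 = m) :
    (g.s m - 1) * (g.s m * (1 - g.lam' 0) + g.t 1 ^ κ * g.mu' 0) = g.s m * (g.t 1 ^ κ - 1) := by
  have h1 := h.row' hκ (j := 1) (by omega)
  have h2 := g.row1G (k := m) (by omega) le_rfl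
  have h3 := g.row1H (k := m) (by omega) le_rfl
  rw [h2] at h1
  linear_combination g.s m * h1 + g.t 1 ^ κ * h3

/-- closure in column 1 -/
theorem GForm.Closed.c1' {g : GForm F m} (h : g.Closed) {κ : ℕ} (hκ : κ + 1 = m) :
    (g.t m - 1) * (g.t m * (1 - g.lam 0) + g.s 1 ^ κ * g.mu 0) = g.t m * (g.s 1 ^ κ - 1) :=
  h.swap.c1 hκ

private theorem rev_aux {g : GForm F m} (h : g.Closed) {j k κ : ℕ} (hj : j ≤ m)
    (hk : k + κ + 1 = m) : (g.t j)⁻¹ ^ k * (g.H j m)⁻¹ = g.t j ^ κ * (g.G j m)⁻¹ := by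
  have h1 := h.row j hj
  have n1 := g.t_ne j hj
  have n2 := h.G_ne hj
  have n3 := h.H_ne hj
  have h2 : g.t j ^ m = g.t j ^ k * g.t j ^ κ * g.t j := pow_aux2 _ hk
  rw [h2] at h1
  have h3 : g.G j m = g.t j ^ k * g.t j ^ κ * g.H j m := by
    apply mul_left_cancel₀ n1
    rw [h1]
    ring
  rw [h3, inv_pow]
  have n4 := pow_ne_zero k n1
  have n5 := pow_ne_zero κ n1
  field_simp

/-- the reversal symmetry `(K, K*) ↦ (K⁻¹, K*)` on closed corners. -/
def GForm.rev (g : GForm F m) (h : g.Closed) : GForm F m where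
  t := fun j => (g.t j)⁻¹
  s := fun k => g.s (m - k) / g.s m
  G := fun j k => g.G j (m - k) / g.G j m
  H := fun j k => g.H j (m - k) / g.H j m
  lam := fun k => -g.lam (m - 1 - k) / (g.mu (m - 1 - k) - g.lam (m - 1 - k))
  mu := fun k => (1 - g.lam (m - 1 - k)) / (g.mu (m - 1 - k) - g.lam (m - 1 - k))
  lam' := fun j => g.lam' j * g.s m ^ j * g.H j m / g.G (j + 1) m
  mu' := fun j => g.mu' j * g.s m ^ j * g.H j m / (g.s m ^ (j + 1) * g.H (j + 1) m)
  t0 := by simp only [g.t0, inv_one]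
  s0 := by
    simp only [Nat.sub_zero]
    exact div_self (g.s_ne m le_rfl)
  t_ne := fun i hi => inv_ne_zero (g.t_ne i hi)
  s_ne := fun i _ => div_ne_zero (g.s_ne _ (by omega)) (g.s_ne m le_rfl)
  t_inj := fun i j hij hj e => g.t_inj i j hij hj (inv_injective e)
  s_inj := fun i j hij hj e => by
    have h1 := g.s_inj (m - j) (m - i) (by omega) (by omega)
    have h2 := g.s_ne m le_rfl
    rw [div_left_inj' h2] at e
    exact h1 e.symm
  G0 := fun j hj => by
    simp only [Nat.sub_zero]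
    exact div_self (h.G_ne hj)
  G0' := fun k _ => by
    rw [g.G0' _ (by omega), g.G0' m le_rfl, div_one]
  H0 := fun j hj => by
    simp only [Nat.sub_zero]
    exact div_self (h.H_ne hj)
  H0' := fun k _ => by
    rw [g.H0' _ (by omega), g.H0' m le_rfl, div_one]
  U1 := fun j k hj hk => by
    obtain ⟨κ, hκ⟩ : ∃ κ, k + κ + 1 = m := ⟨m - 1 - k, by omega⟩
    have e1 : m - (k + 1) = κ := by omega
    have e2 : m - k = κ + 1 := by omega
    have e3 : m - 1 - k = κ := by omega
    simp only [e1, e2, e3]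
    have u1 := g.U1 j κ hj (by omega)
    have u2 := g.U2 j κ hj (by omega)
    have n1 := g.t_ne j hj
    have n2 := h.G_ne hj
    have n3 := h.H_ne hj
    have n4 : g.mu κ - g.lam κ ≠ 0 := fun e => g.lm_ne κ (by omega) (sub_eq_zero.1 e).symm
    have ra := rev_aux h hj hκ
    have e4 : (g.t j)⁻¹ ^ k * (g.H j (κ + 1) / g.H j m) =
        g.t j ^ κ * g.H j (κ + 1) / g.G j m := by
      rw [div_eq_mul_inv, mul_left_comm, ra]
      ring
    rw [e4]
    rw [pow_succ] at u2
    have e5 : g.t j ^ κ * g.H j (κ + 1) =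
        ((1 - g.mu κ) * (g.t j * g.G j κ) + g.mu κ * (g.t j ^ κ * g.H j κ)) / g.t j := by
      rw [← u2]
      field_simp
    rw [e5, u1]
    field_simp
    ring
  U2 := fun j k hj hk => by
    obtain ⟨κ, hκ⟩ : ∃ κ, k + κ + 1 = m := ⟨m - 1 - k, by omega⟩
    have e1 : m - (k + 1) = κ := by omega
    have e2 : m - k = κ + 1 := by omega
    have e3 : m - 1 - k = κ := by omega
    simp only [e1, e2, e3]
    have u1 := g.U1 j κ hj (by omega)
    have u2 := g.U2 j κ hj (by omega)
    have n1 := g.t_ne j hj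
    have n2 := h.G_ne hj
    have n3 := h.H_ne hj
    have n4 : g.mu κ - g.lam κ ≠ 0 := fun e => g.lm_ne κ (by omega) (sub_eq_zero.1 e).symm
    have ra := rev_aux h hj hκ
    have e4 : (g.t j)⁻¹ ^ k * (g.H j (κ + 1) / g.H j m) =
        g.t j ^ κ * g.H j (κ + 1) / g.G j m := by
      rw [div_eq_mul_inv, mul_left_comm, ra]
      ring
    have e6 : (g.t j)⁻¹ ^ (k + 1) * (g.H j κ / g.H j m) =
        (g.t j)⁻¹ * (g.t j ^ κ * g.H j κ) / g.G j m := by
      rw [div_eq_mul_inv, pow_succ, mul_left_comm, mul_right_comm, ra]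
      ring
    rw [e4, e6]
    rw [pow_succ] at u2
    have e5 : g.t j ^ κ * g.H j (κ + 1) =
        ((1 - g.mu κ) * (g.t j * g.G j κ) + g.mu κ * (g.t j ^ κ * g.H j κ)) / g.t j := by
      rw [← u2]
      field_simp
    rw [e5, u1]
    field_simp
    ring
  V1 := fun j k hj hk => by
    have v1 := g.V1 j (m - k) hj (by omega)
    have v2 := g.V1 j m hj le_rfl
    have n1 := h.G_ne (j := j) (by omega)
    have n2 := h.G_ne (j := j + 1) (by omega)
    have n3 := h.H_ne (j := j) (by omega)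
    have n4 := g.s_ne m le_rfl
    have n5 := pow_ne_zero j n4
    have e1 : 1 - g.lam' j * g.s m ^ j * g.H j m / g.G (j + 1) m =
        (1 - g.lam' j) * (g.s m * g.G j m) / g.G (j + 1) m := by
      field_simp
      linear_combination v2
    rw [e1, v1, div_pow]
    field_simp
  V2 := fun j k hj hk => by
    have v1 := g.V2 j (m - k) hj (by omega)
    have v2 := g.V2 j m hj le_rfl
    have n1 := h.G_ne (j := j) (by omega)
    have n2 := h.H_ne (j := j + 1) (by omega)
    have n3 := h.H_ne (j := j) (by omega)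
    have n4 := g.s_ne m le_rfl
    have n5 := pow_ne_zero j n4
    have n6 := pow_ne_zero (j + 1) n4
    have e1 : 1 - g.mu' j * g.s m ^ j * g.H j m / (g.s m ^ (j + 1) * g.H (j + 1) m) =
        (1 - g.mu' j) * (g.s m * g.G j m) / (g.s m ^ (j + 1) * g.H (j + 1) m) := by
      rw [eq_div_iff (mul_ne_zero n6 n2), sub_mul, div_mul_cancel₀ _ (mul_ne_zero n6 n2)]
      linear_combination v2
    have e2 : (g.s (m - k) / g.s m) ^ (j + 1) * (g.H (j + 1) (m - k) / g.H (j + 1) m) =
        (g.s (m - k) ^ (j + 1) * g.H (j + 1) (m - k)) / (g.s m ^ (j + 1) * g.H (j + 1) m) := by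
      rw [div_pow, div_mul_div_comm]
    rw [e1, e2, v1, div_pow]
    field_simp
  lam_ne := fun k hk => by
    have n4 : g.mu (m - 1 - k) - g.lam (m - 1 - k) ≠ 0 :=
      fun e => g.lm_ne _ (by omega) (sub_eq_zero.1 e).symm
    intro e
    rw [div_eq_one_iff_eq n4] at e
    exact g.mu_ne (m - 1 - k) (by omega) (by linear_combination -e)
  mu_ne := fun k hk => by
    have n4 : g.mu (m - 1 - k) - g.lam (m - 1 - k) ≠ 0 :=
      fun e => g.lm_ne _ (by omega) (sub_eq_zero.1 e).symm
    exact div_ne_zero (sub_ne_zero.2 (g.lam_ne _ (by omega)).symm) n4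
  lm_ne := fun k hk => by
    have n4 : g.mu (m - 1 - k) - g.lam (m - 1 - k) ≠ 0 :=
      fun e => g.lm_ne _ (by omega) (sub_eq_zero.1 e).symm
    intro e
    rw [div_left_inj' n4] at e
    exact one_ne_zero (by linear_combination -e : (1 : F) = 0)
  lam'_ne := fun j hj => by
    have v2 := g.V1 j m hj le_rfl
    have n1 := h.G_ne (j := j) (by omega)
    have n2 := h.G_ne (j := j + 1) (by omega)
    have n4 := g.s_ne m le_rfl
    intro e
    rw [div_eq_one_iff_eq n2] at e
    have : (1 - g.lam' j) * (g.s m * g.G j m) = 0 := by linear_combination -v2 - e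
    exact mul_ne_zero (sub_ne_zero.2 (g.lam'_ne j hj).symm) (mul_ne_zero n4 n1) this
  mu'_ne := fun j hj => by
    have n2 := h.H_ne (j := j + 1) (by omega)
    have n3 := h.H_ne (j := j) (by omega)
    have n4 := g.s_ne m le_rfl
    exact div_ne_zero (mul_ne_zero (mul_ne_zero (g.mu'_ne j hj) (pow_ne_zero _ n4)) n3)
      (mul_ne_zero (pow_ne_zero _ n4) n2)
  lm'_ne := fun j hj => by
    have v1 := g.V1 j m hj le_rfl
    have v2 := g.V2 j m hj le_rfl
    have n0 := h.G_ne (j := j) (by omega)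
    have n1 := h.G_ne (j := j + 1) (by omega)
    have n2 := h.H_ne (j := j + 1) (by omega)
    have n3 := h.H_ne (j := j) (by omega)
    have n4 := g.s_ne m le_rfl
    have n5 := pow_ne_zero j n4
    have n6 := pow_ne_zero (j + 1) n4
    intro e
    rw [div_eq_div_iff n1 (mul_ne_zero n6 n2)] at e
    have e1 : g.s m ^ j * g.H j m * (g.s m * g.G j m) * (g.lam' j - g.mu' j) = 0 := by
      linear_combination e - g.lam' j * g.s m ^ j * g.H j m * v2 +
        g.mu' j * g.s m ^ j * g.H j m * v1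
    rcases mul_eq_zero.1 e1 with e2 | e2
    · exact mul_ne_zero (mul_ne_zero n5 n3) (mul_ne_zero n4 n0) e2
    · exact g.lm'_ne j hj (sub_eq_zero.1 e2)

section rev

variable (g : GForm F m) (h : g.Closed)

@[simp] theorem GForm.rev_t (j : ℕ) : (g.rev h).t j = (g.t j)⁻¹ := rfl
@[simp] theorem GForm.rev_s (k : ℕ) : (g.rev h).s k = g.s (m - k) / g.s m := rfl
@[simp] theorem GForm.rev_G (j k : ℕ) : (g.rev h).G j k = g.G j (m - k) / g.G j m := rfl
@[simp] theorem GForm.rev_H (j k : ℕ) : (g.rev h).H j k = g.H j (m - k) / g.H j m := rfl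

theorem GForm.Closed.rev : (g.rev h).Closed := by
  constructor
  · intro j hj
    simp only [GForm.rev_t, GForm.rev_G, GForm.rev_H, Nat.sub_self]
    rw [g.G0 j hj, g.H0 j hj]
    have h1 := h.row j hj
    have n1 := g.t_ne j hj
    have n2 := h.G_ne hj
    have n3 := h.H_ne hj
    have n4 := pow_ne_zero m n1
    rw [inv_pow]
    field_simp
    linear_combination -h1
  · intro k hk
    simp only [GForm.rev_s, GForm.rev_G, GForm.rev_H]
    have h1 := h.col (m - k) (by omega)
    have h2 := h.col m le_rfl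
    have n1 := g.s_ne m le_rfl
    have n2 := h.G_ne (j := m) le_rfl
    have n3 := h.H_ne (j := m) le_rfl
    have n4 := pow_ne_zero m n1
    rw [div_pow, div_mul_div_comm, div_mul_div_comm, h1, h2]

end rev

end Pool.Agent.Helper54.IP
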