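import Pool.Agent.Helper54.IP.CForm
import Pool.Agent.Helper82.IP.NSetup

/-!
TH-P phase 2: closed corners in the symmetric letters
`1 - lam'_0 = (t_1 - 1) X`, `t_1 mu'_0 = (t_1 - 1) Y`; the letters of the reversal; the four closure
equations at level 1.
-/

namespace Pool.Agent.Helper54.IP

open Pool.Agent.Helper82.IP

variable {F : Type*} [Field F] {m : ℕ}

/-- `X`, `Y` are the letters of `g`. -/
structure GForm.XY (g : GForm F m) (X Y : F) : Prop where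
  x : (1 - g.lam' 0) = (g.t 1 - 1) * X
  y : g.t 1 * g.mu' 0 = (g.t 1 - 1) * Y
  x' : (1 - g.lam 0) = (g.s 1 - 1) * X
  y' : g.s 1 * g.mu 0 = (g.s 1 - 1) * Y

theorem GForm.exists_XY (g : GForm F m) (hm : 1 ≤ m) : ∃ X Y, g.XY X Y := by
  obtain ⟨X, Y, h1, h2, h3, h4⟩ := xy_exists g hm
  exact ⟨X, Y, h1, h2, h3, h4⟩

theorem GForm.XY.swap {g : GForm F m} {X Y : F} (h : g.XY X Y) : g.swap.XY X Y :=
  ⟨h.x', h.y', h.x, h.y⟩

theorem GForm.XY.G1 {g : GForm F m} {X Y : F} (h : g.XY X Y) (hm : 1 ≤ m) {k : ℕ} (hk : k ≤ m) :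
    g.G 1 k = 1 + (g.t 1 - 1) * X * (g.s k - 1) := G1k hm h.x hk

theorem GForm.XY.H1 {g : GForm F m} {X Y : F} (h : g.XY X Y) (hm : 1 ≤ m) {k : ℕ} (hk : k ≤ m) :
    g.t 1 * (g.s k * g.H 1 k) = g.t 1 * g.s k - (g.t 1 - 1) * Y * (g.s k - 1) := H1k hm h.y hk

theorem GForm.XY.Gk1 {g : GForm F m} {X Y : F} (h : g.XY X Y) (hm : 1 ≤ m) {k : ℕ} (hk : k ≤ m) :
    g.G k 1 = 1 + (g.s 1 - 1) * X * (g.t k - 1) := h.swap.G1 hm hk

theorem GForm.XY.Hk1 {g : GForm F m} {X Y : F} (h : g.XY X Y) (hm : 1 ≤ m) {k : ℕ} (hk : k ≤ m) :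
    g.s 1 * (g.t k * g.H k 1) = g.s 1 * g.t k - (g.s 1 - 1) * Y * (g.t k - 1) := h.swap.H1 hm hk

theorem GForm.XY.X_ne {g : GForm F m} {X Y : F} (h : g.XY X Y) (hm : 1 ≤ m) : X ≠ 0 := by
  rintro rfl
  have h1 := h.x
  rw [mul_zero] at h1
  exact g.lam'_ne 0 (by omega) (sub_eq_zero.1 h1).symm

theorem GForm.XY.Y_ne {g : GForm F m} {X Y : F} (h : g.XY X Y) (hm : 1 ≤ m) : Y ≠ 0 := by
  rintro rfl
  have h1 := h.y
  rw [mul_zero] at h1
  exact (mul_ne_zero (g.t_ne 1 hm) (g.mu'_ne 0 (by omega))) h1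

theorem GForm.t_sub_one (g : GForm F m) {k : ℕ} (h0 : 0 < k) (hk : k ≤ m) : g.t k - 1 ≠ 0 :=
  Pool.Agent.Helper82.IP.t_sub_one g h0 hk

theorem GForm.s_sub_one (g : GForm F m) {k : ℕ} (h0 : 0 < k) (hk : k ≤ m) : g.s k - 1 ≠ 0 :=
  Pool.Agent.Helper82.IP.s_sub_one g h0 hk

/-- closure in row 1, `ι + 2 = m` -/
theorem GForm.Closed.cX {g : GForm F m} (h : g.Closed) {ι : ℕ} (hι : ι + 2 = m) {X Y : F}
    (hx : g.XY X Y) :
    (g.t 1 - 1) * ((g.s m - 1) * (g.s m * X + g.t 1 ^ ι * Y)) =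
      g.s m * (g.t 1 ^ (ι + 1) - 1) := by
  have h1 := h.c1 (κ := ι + 1) (by omega)
  have h2 := hx.x
  have h3 := hx.y
  rw [pow_succ] at h1 ⊢
  linear_combination h1 - (g.s m - 1) * g.s m * h2 - (g.s m - 1) * g.t 1 ^ ι * h3

/-- closure in column 1 -/
theorem GForm.Closed.cX' {g : GForm F m} (h : g.Closed) {ι : ℕ} (hι : ι + 2 = m) {X Y : F}
    (hx : g.XY X Y) :
    (g.s 1 - 1) * ((g.t m - 1) * (g.t m * X + g.s 1 ^ ι * Y)) =
      g.t m * (g.s 1 ^ (ι + 1) - 1) := h.swap.cX hι hx.swap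

/-- the letters of the reversal -/
theorem GForm.Closed.rev_XY {g : GForm F m} (h : g.Closed) {ι : ℕ} (hι : ι + 2 = m) {X Y : F}
    (hx : g.XY X Y) {X' Y' : F} (hx' : (g.rev h).XY X' Y') :
    X' * g.G 1 m = -(g.t 1 * g.s m * X) ∧ Y' * (g.s m * g.G 1 m) = -(g.t 1 ^ ι * Y) := by
  have hm : 1 ≤ m := by omega
  have a0 := g.t_ne 1 hm
  have a1 := g.t_sub_one (k := 1) (by omega) hm
  have w0 := g.s_ne m le_rfl
  have v0 := g.s_ne (m - 1) (by omega)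
  have hvw : g.s (m - 1) - g.s m ≠ 0 := sub_ne_zero.2 (g.s_inj (m - 1) m (by omega) le_rfl)
  have n1 := h.G_ne hm
  have n2 := h.H_ne hm
  have e1 := hx'.G1 hm (k := 1) hm
  have e2 := hx'.H1 hm (k := 1) hm
  simp only [GForm.rev_t, GForm.rev_s, GForm.rev_G, GForm.rev_H] at e1 e2
  have g1 := hx.G1 hm (k := m - 1) (by omega)
  have g2 := hx.G1 hm (k := m) le_rfl
  have k1 := hx.H1 hm (k := m - 1) (by omega)
  have k2 := hx.H1 hm (k := m) le_rfl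
  have cr := h.row' (κ := ι + 1) (by omega) (j := 1) hm
  set a := g.t 1
  set w := g.s m
  set v := g.s (m - 1)
  set G1 := g.G 1 m
  set H1 := g.H 1 m
  set G0 := g.G 1 (m - 1)
  set H0 := g.H 1 (m - 1)
  constructor
  · field_simp at e1
    -- e1 : G0 * a * w = ...
    have e3 : (v - w) * (a - 1) * (X' * G1 + a * w * X) = 0 := by
      linear_combination e1 - a * w * g1 + a * w * g2
    rcases mul_eq_zero.1 e3 with e4 | e4
    · exact absurd e4 (mul_ne_zero hvw a1)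
    · linear_combination e4
  · field_simp at e2
    have e5 : a * v * w * (H0 - H1) = (a - 1) * Y * (w - v) := by
      linear_combination w * k1 - v * k2
    have e6 : (v - w) * (a - 1) * (Y' * (w * H1) * a + Y) = 0 := by
      linear_combination e5 - a * w * e2
    rcases mul_eq_zero.1 e6 with e7 | e7
    · exact absurd e7 (mul_ne_zero hvw a1)
    · rw [cr, pow_succ]
      linear_combination a ^ ι * e7

/-- closure in column 1 of the reversal, in the letters of `g` -/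
theorem GForm.Closed.E1 {g : GForm F m} (h : g.Closed) {ι : ℕ} (hι : ι + 2 = m) {X Y : F}
    (hx : g.XY X Y) {z : F} (hz : g.s (m - 1) = z * g.s m) :
    (g.t m - 1) * (z - 1) * (g.t 1 * g.s m ^ 2 * X + g.t m * z ^ ι * g.t 1 ^ ι * Y) =
      g.t m * g.s m * (z ^ (ι + 1) - 1) * g.G 1 m := by
  have hm : 1 ≤ m := by omega
  obtain ⟨X', Y', hx'⟩ := (g.rev h).exists_XY hm
  obtain ⟨r1, r2⟩ := h.rev_XY hι hx hx'
  have e := h.rev.cX' hι hx'
  have w0 := g.s_ne m le_rfl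
  have c0 := g.t_ne m le_rfl
  simp only [GForm.rev_t, GForm.rev_s] at e
  rw [hz, mul_div_cancel_right₀ _ w0] at e
  field_simp at e
  linear_combination (g.s m * g.G 1 m) * e
    - (z - 1) * (1 - g.t m) * g.s m * r1 - (z - 1) * (1 - g.t m) * (g.t m * z ^ ι) * r2

/-- closure in row 1 of the reversal of the swap -/
theorem GForm.Closed.E2 {g : GForm F m} (h : g.Closed) {ι : ℕ} (hι : ι + 2 = m) {X Y : F}
    (hx : g.XY X Y) {z : F} (hz : g.t (m - 1) = z * g.t m) :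
    (g.s m - 1) * (z - 1) * (g.s 1 * g.t m ^ 2 * X + g.s m * z ^ ι * g.s 1 ^ ι * Y) =
      g.s m * g.t m * (z ^ (ι + 1) - 1) * g.G m 1 := h.swap.E1 hι hx.swap hz

/-- `f k` (`1 ≤ k ≤ m`) are the split numbers of the corner:
`K⁻¹ x_i = a t_i x_i + x_(i+1)`, `K* x_i = b s_i x_i + a b f_i x_(i-1)`. -/
def GForm.IsPhi (g : GForm F m) (f : ℕ → F) : Prop :=
  ∀ k, k < m → f (k + 1) * ((∏ l ∈ Finset.range k, (g.s k - g.s l)) * (1 - g.lam k)) =
    ∏ l ∈ Finset.range (k + 1), (g.s (k + 1) - g.s l)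

/-- `(t, s, f)` is the parameter array of an irreducible inverting pair of dimension `m + 1`. -/
def IsPA (m : ℕ) (t s f : ℕ → F) : Prop :=
  ∃ g : GForm F m, g.Closed ∧ (∀ i, i ≤ m → g.t i = t i) ∧ (∀ i, i ≤ m → g.s i = s i) ∧ g.IsPhi f

theorem GForm.IsPhi.one {g : GForm F m} {f : ℕ → F} (h : g.IsPhi f) (hm : 1 ≤ m) {X Y : F}
    (hx : g.XY X Y) : f 1 * X = 1 := by
  have h1 := h 0 (by omega)
  simp only [Finset.range_zero, Finset.prod_empty, one_mul, zero_add, Finset.range_one,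
    Finset.prod_singleton] at h1
  rw [hx.x', g.s0] at h1
  have h2 := g.s_sub_one (k := 1) (by omega) hm
  apply mul_left_cancel₀ h2
  linear_combination h1

/-- `(1 - lam_1)` from row 1 -/
theorem GForm.XY.lam1 {g : GForm F m} (hm : 2 ≤ m) {X Y : F} (hx : g.XY X Y) :
    (1 - g.lam 1) * ((g.s 1 - 1) * (g.t 1 * g.s 1 * X + Y)) =
      g.s 1 * (g.s 2 - 1) * X + (g.s 1 - 1) * Y - g.s 1 := by
  have ht := g.t_sub_one (k := 1) (by omega) (by omega)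
  have h1 := hx.G1 (by omega) (k := 1) (by omega)
  have h2 := hx.H1 (by omega) (k := 1) (by omega)
  have h3 := hx.G1 (by omega) (k := 2) (by omega)
  have h4 := g.G_succ (j := 1) (k := 1) (by omega) (by omega)
  rw [GForm.kap, pow_one, h3] at h4
  have h5 : g.t 1 * g.s 1 * (g.G 1 1 - g.H 1 1) =
      (g.t 1 - 1) * ((g.s 1 - 1) * (g.t 1 * g.s 1 * X + Y)) := by
    linear_combination g.t 1 * g.s 1 * h1 - h2
  apply mul_left_cancel₀ ht
  linear_combination (-(1 - g.lam 1)) * h5 - g.s 1 * h4 - h2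

theorem GForm.XY.lam2 {g : GForm F m} (hm : 3 ≤ m) {X Y : F} (hx : g.XY X Y) :
    (1 - g.lam 2) * (g.t 1 * ((g.s 2 - 1) * (g.s 2 * X + Y) - g.s 2)) =
      g.s 2 * X * (g.s 3 - 1) + g.t 1 * (g.s 2 - 1) * Y - (g.t 1 + 1) * g.s 2 :=
  lam2_eq hm hx.x hx.y

/-- `f_2` from row 1 -/
theorem GForm.IsPhi.two {g : GForm F m} {f : ℕ → F} (h : g.IsPhi f) (hm : 2 ≤ m) {X Y : F}
    (hx : g.XY X Y) :
    f 2 * (g.s 1 * (g.s 2 - 1) * X + (g.s 1 - 1) * Y - g.s 1) =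
      (g.s 2 - 1) * (g.s 2 - g.s 1) * (g.t 1 * g.s 1 * X + Y) := by
  have h1 := h 1 (by omega)
  simp only [Finset.prod_range_succ, Finset.range_zero, Finset.prod_empty, one_mul,
    g.s0] at h1
  have h2 := hx.lam1 hm
  linear_combination (g.t 1 * g.s 1 * X + Y) * h1 - f 2 * h2

/-- `f_3` from row 1 -/
theorem GForm.IsPhi.three {g : GForm F m} {f : ℕ → F} (h : g.IsPhi f) (hm : 3 ≤ m) {X Y : F}
    (hx : g.XY X Y) :
    f 3 * ((g.s 2 - 1) * (g.s 2 - g.s 1) *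
      (g.s 2 * X * (g.s 3 - 1) + g.t 1 * (g.s 2 - 1) * Y - (g.t 1 + 1) * g.s 2)) =
      (g.s 3 - 1) * (g.s 3 - g.s 1) * (g.s 3 - g.s 2) *
        (g.t 1 * ((g.s 2 - 1) * (g.s 2 * X + Y) - g.s 2)) := by
  have h1 := h 2 (by omega)
  simp only [Finset.prod_range_succ, Finset.range_zero, Finset.prod_empty, one_mul,
    g.s0] at h1
  have h2 := hx.lam2 hm
  linear_combination (g.t 1 * ((g.s 2 - 1) * (g.s 2 * X + Y) - g.s 2)) * h1
    - f 3 * (g.s 2 - 1) * (g.s 2 - g.s 1) * h2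

end Pool.Agent.Helper54.IP
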