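import Mathlib

/-!
MP_d2f54f_al, inverting pairs (thread TH-P).  Definitions.
-/

namespace Pool.Agent.Helper54.IP

open Matrix

variable {F : Type*} [Field F]

/-- `(K, Ks)` is an inverting pair on `V` (of dimension `n`), exactly as in the problem file. -/
def IsInvertingPair {V : Type*} [AddCommGroup V] [Module F V] (n : ℕ) (K Ks : V ≃ₗ[F] V) : Prop :=
  (∃ e : Module.Basis (Fin n) F V,
    (∀ i j : Fin n, (i : ℕ) + 1 < j → LinearMap.toMatrix e e (K : V →ₗ[F] V) i j = 0) ∧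
    (∀ i j : Fin n, (j : ℕ) + 1 < i → LinearMap.toMatrix e e (K.symm : V →ₗ[F] V) i j = 0) ∧
    (∀ i j : Fin n, i ≠ j → LinearMap.toMatrix e e (Ks : V →ₗ[F] V) i j = 0)) ∧
  (∃ e : Module.Basis (Fin n) F V,
    (∀ i j : Fin n, (i : ℕ) + 1 < j → LinearMap.toMatrix e e (Ks : V →ₗ[F] V) i j = 0) ∧
    (∀ i j : Fin n, (j : ℕ) + 1 < i → LinearMap.toMatrix e e (Ks.symm : V →ₗ[F] V) i j = 0) ∧
    (∀ i j : Fin n, i ≠ j → LinearMap.toMatrix e e (K : V →ₗ[F] V) i j = 0))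

/-- the pair has no invariant subspace except `0` and `V`. -/
def Irred {V : Type*} [AddCommGroup V] [Module F V] (K Ks : V ≃ₗ[F] V) : Prop :=
  Nontrivial V ∧ ∀ U : Submodule F V, (∀ u ∈ U, K u ∈ U) → (∀ u ∈ U, Ks u ∈ U) → U = ⊥ ∨ U = ⊤

/-- Matrix form of an irreducible inverting pair: `X j k = <w*_j, v_k>`, `Y = X⁻¹`,
`a` = eigenvalues of `A = K⁻¹` (on the `w_j`), `b` = eigenvalues of `B = K*` (on the `v_k`). -/
structure Mat (F : Type*) [Field F] (n : ℕ) where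
  X : Matrix (Fin n) (Fin n) F
  Y : Matrix (Fin n) (Fin n) F
  a : Fin n → F
  b : Fin n → F
  YX : Y * X = 1
  XY : X * Y = 1
  a_ne : ∀ i, a i ≠ 0
  b_ne : ∀ i, b i ≠ 0
  a_inj : Function.Injective a
  b_inj : Function.Injective b
  c1 : ∀ i j : Fin n, (j : ℕ) + 1 < i → (Y * diagonal a * X) i j = 0
  c2 : ∀ i j : Fin n, (i : ℕ) + 1 < j → (Y * diagonal (fun t => (a t)⁻¹) * X) i j = 0
  c3 : ∀ i j : Fin n, (i : ℕ) + 1 < j → (X * diagonal b * Y) i j = 0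
  c4 : ∀ i j : Fin n, (j : ℕ) + 1 < i → (X * diagonal (fun t => (b t)⁻¹) * Y) i j = 0
  d1 : ∀ i j : Fin n, (i : ℕ) = j + 1 → (Y * diagonal a * X) i j ≠ 0
  d2 : ∀ i j : Fin n, (j : ℕ) = i + 1 → (Y * diagonal (fun t => (a t)⁻¹) * X) i j ≠ 0
  d3 : ∀ i j : Fin n, (j : ℕ) = i + 1 → (X * diagonal b * Y) i j ≠ 0
  d4 : ∀ i j : Fin n, (i : ℕ) = j + 1 → (X * diagonal (fun t => (b t)⁻¹) * Y) i j ≠ 0

/-- transposition symmetry (swap of `A`, `B`). -/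
def Mat.swap {n : ℕ} (M : Mat F n) : Mat F n where
  X := M.Xᵀ
  Y := M.Yᵀ
  a := M.b
  b := M.a
  YX := by rw [← transpose_mul, M.XY, transpose_one]
  XY := by rw [← transpose_mul, M.YX, transpose_one]
  a_ne := M.b_ne
  b_ne := M.a_ne
  a_inj := M.b_inj
  b_inj := M.a_inj
  c1 := fun i j h => by
    have := M.c3 j i h
    have e : M.Yᵀ * diagonal M.b * M.Xᵀ = (M.X * diagonal M.b * M.Y)ᵀ := by
      simp [transpose_mul, Matrix.mul_assoc]
    rw [e]; exact this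
  c2 := fun i j h => by
    have := M.c4 j i h
    have e : M.Yᵀ * diagonal (fun t => (M.b t)⁻¹) * M.Xᵀ
        = (M.X * diagonal (fun t => (M.b t)⁻¹) * M.Y)ᵀ := by
      simp [transpose_mul, Matrix.mul_assoc]
    rw [e]; exact this
  c3 := fun i j h => by
    have := M.c1 j i h
    have e : M.Xᵀ * diagonal M.a * M.Yᵀ = (M.Y * diagonal M.a * M.X)ᵀ := by
      simp [transpose_mul, Matrix.mul_assoc]
    rw [e]; exact this
  c4 := fun i j h => by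
    have := M.c2 j i h
    have e : M.Xᵀ * diagonal (fun t => (M.a t)⁻¹) * M.Yᵀ
        = (M.Y * diagonal (fun t => (M.a t)⁻¹) * M.X)ᵀ := by
      simp [transpose_mul, Matrix.mul_assoc]
    rw [e]; exact this
  d1 := fun i j h => by
    have := M.d3 j i h
    have e : M.Yᵀ * diagonal M.b * M.Xᵀ = (M.X * diagonal M.b * M.Y)ᵀ := by
      simp [transpose_mul, Matrix.mul_assoc]
    rw [e]; exact this
  d2 := fun i j h => by
    have := M.d4 j i h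
    have e : M.Yᵀ * diagonal (fun t => (M.b t)⁻¹) * M.Xᵀ
        = (M.X * diagonal (fun t => (M.b t)⁻¹) * M.Y)ᵀ := by
      simp [transpose_mul, Matrix.mul_assoc]
    rw [e]; exact this
  d3 := fun i j h => by
    have := M.d1 j i h
    have e : M.Xᵀ * diagonal M.a * M.Yᵀ = (M.Y * diagonal M.a * M.X)ᵀ := by
      simp [transpose_mul, Matrix.mul_assoc]
    rw [e]; exact this
  d4 := fun i j h => by
    have := M.d2 j i h
    have e : M.Xᵀ * diagonal (fun t => (M.a t)⁻¹) * M.Yᵀ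
        = (M.Y * diagonal (fun t => (M.a t)⁻¹) * M.X)ᵀ := by
      simp [transpose_mul, Matrix.mul_assoc]
    rw [e]; exact this

/-- The Szegő form of the corner `{0,..,m} × {0,..,m}`.  `G = P`, `H = Q` of helper82, `t = a`, `s = b`. -/
structure GForm (F : Type*) [Field F] (m : ℕ) where
  t : ℕ → F
  s : ℕ → F
  G : ℕ → ℕ → F
  H : ℕ → ℕ → F
  lam : ℕ → F
  mu : ℕ → F
  lam' : ℕ → F
  mu' : ℕ → F
  t0 : t 0 = 1
  s0 : s 0 = 1
  t_ne : ∀ i, i ≤ m → t i ≠ 0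
  s_ne : ∀ i, i ≤ m → s i ≠ 0
  t_inj : ∀ i j, i < j → j ≤ m → t i ≠ t j
  s_inj : ∀ i j, i < j → j ≤ m → s i ≠ s j
  G0 : ∀ j, j ≤ m → G j 0 = 1
  G0' : ∀ k, k ≤ m → G 0 k = 1
  H0 : ∀ j, j ≤ m → H j 0 = 1
  H0' : ∀ k, k ≤ m → H 0 k = 1
  U1 : ∀ j k, j ≤ m → k < m →
    G j (k + 1) = (1 - lam k) * (t j * G j k) + lam k * (t j ^ k * H j k)
  U2 : ∀ j k, j ≤ m → k < m →
    t j ^ (k + 1) * H j (k + 1) = (1 - mu k) * (t j * G j k) + mu k * (t j ^ k * H j k)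
  V1 : ∀ j k, j < m → k ≤ m →
    G (j + 1) k = (1 - lam' j) * (s k * G j k) + lam' j * (s k ^ j * H j k)
  V2 : ∀ j k, j < m → k ≤ m →
    s k ^ (j + 1) * H (j + 1) k = (1 - mu' j) * (s k * G j k) + mu' j * (s k ^ j * H j k)
  lam_ne : ∀ k, k < m → lam k ≠ 1
  mu_ne : ∀ k, k < m → mu k ≠ 0
  lm_ne : ∀ k, k < m → lam k ≠ mu k
  lam'_ne : ∀ k, k < m → lam' k ≠ 1
  mu'_ne : ∀ k, k < m → mu' k ≠ 0
  lm'_ne : ∀ k, k < m → lam' k ≠ mu' k

end Pool.Agent.Helper54.IP
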