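import Pool.Agent.Helper54.IP.GSwap
import Pool.Agent.Helper43.IPL.Flat

/-!
TH-P: the main chain.  `t_j = q^j` (`j ≤ 3`), `s_1 = q`, `s_2 = q^2` imply `s_i = q^i` for `i + 1 < m`.
Notation: `x = 1 - lam'_0`, `y = mu'_0`, `w = q x + y`, `w3 = (q + 1) w - q`, `z = q^k = s_k`, `σ = s_(k+1)`.
-/

namespace Pool.Agent.Helper54.IP

variable {F : Type*} [Field F]

/-! ### scalar lemmas -/

/-- cell `(2,k+1)`, first equation -/
private lemma sJ {q z x y σ A2 B2 C2 : F}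
    (hA : A2 = (q*x+y-(1-x))*z*(1-x+x*z) + (1-x)*((1-y)*z+y))
    (hB : B2 = q*(1-y)*z*(1-x+x*z) + (q*x+y-q*(1-y))*((1-y)*z+y))
    (hC : C2 = (q*x+y-(1-x))*σ*(1-x+x*σ) + (1-x)*((1-y)*σ+y))
    (h : (q*(1-x+x*z)-((1-y)*z+y))*(C2-q^2*A2) = (q^2*A2-B2)*((1-x+x*σ)-q*(1-x+x*z))) :
    x*(σ-q*z)*(q*(1-x+x*z)-((1-y)*z+y)) *
      ((x+y-1+q*x)*σ - q*z*(1-y) - (1+q)*(x+y-1)) = 0 := by
  subst hA hB hC
  linear_combination h

/-- cell `(2,k+1)`, second equation -/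
private lemma sJ' {q z x y σ A2 B2 D2 : F}
    (hA : A2 = (q*x+y-(1-x))*z*(1-x+x*z) + (1-x)*((1-y)*z+y))
    (hB : B2 = q*(1-y)*z*(1-x+x*z) + (q*x+y-q*(1-y))*((1-y)*z+y))
    (hD : D2 = q*(1-y)*σ*(1-x+x*σ) + (q*x+y-q*(1-y))*((1-y)*σ+y))
    (h : (q*(1-x+x*z)-((1-y)*z+y))*((q*z)^2*D2-q^2*A2*σ^2) =
      (q^2*A2-B2)*(q*z*((1-y)*σ+y)*σ-q*(1-x+x*z)*σ^2)) :
    q*y*(σ-q*z)*(q*(1-x+x*z)-((1-y)*z+y)) *
      ((1-x+(q+1)*z*(x+y-1))*σ - z*(q*(x+y-1)+y)) = 0 := by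
  subst hA hB hD
  linear_combination h

/-- elimination of `σ` -/
private lemma sE {q z x y σ : F} (hJ : (x+y-1+q*x)*σ - q*z*(1-y) - (1+q)*(x+y-1) = 0)
    (hJ' : (1-x+(q+1)*z*(x+y-1))*σ - z*(q*(x+y-1)+y) = 0) :
    (x+y-1)*(1+q)*(z-1)*((1-x)-q*z*(1-y)) = 0 := by
  linear_combination (1-x+(q+1)*z*(x+y-1)) * hJ - (x+y-1+q*x) * hJ'

/-- cell `(3,k+1)`, first equation, with `x = 1 - q z b`, `y = 1 - b` -/
private lemma sK {q z x y b w w3 σ A2 B2 C2 D2 A3 B3 C3 : F} (hx : x = 1 - q*z*b) (hy : y = 1 - b)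
    (hw : w = q*x+y) (hw3 : w3 = (q+1)*w-q)
    (hA : A2 = (w-(1-x))*z*(1-x+x*z) + (1-x)*((1-y)*z+y))
    (hB : B2 = q*(1-y)*z*(1-x+x*z) + (w-q*(1-y))*((1-y)*z+y))
    (hC : C2 = (w-(1-x))*σ*(1-x+x*σ) + (1-x)*((1-y)*σ+y))
    (hD : D2 = q*(1-y)*σ*(1-x+x*σ) + (w-q*(1-y))*((1-y)*σ+y))
    (hA3 : A3 = (w3-(1-x))*z*A2 + (1-x)*B2)
    (hB3 : B3 = q^2*(1-y)*z*A2 + (w3-q^2*(1-y))*B2)
    (hC3 : C3 = (w3-(1-x))*σ*C2 + (1-x)*D2)
    (h : (q*(1-x+x*z)-((1-y)*z+y))*(C3-q^3*A3) = (q^3*A3-B3)*((1-x+x*σ)-q*(1-x+x*z))) :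
    (1-q*z*b)*(σ-q*z)*(q*(1-x+x*z)-((1-y)*z+y)) *
      ((-q^6*z^3*b^2 -q^5*z^3*b^2 -q^5*z^2*b^2 +2*q^5*z^2*b -3*q^4*z^2*b^2 +3*q^4*z^2*b -q^4*z*b^2 +2*q^4*z*b -q^4*z -2*q^3*z^2*b^2 +2*q^3*z^2*b -2*q^3*z*b^2 +4*q^3*z*b -2*q^3*z -q^3*b^2 +2*q^3*b -q^3 -q^2*z^2*b^2 +q^2*z^2*b -2*q^2*z*b^2 +4*q^2*z*b -2*q^2*z -2*q^2*b^2 +4*q^2*b -2*q^2 -q*z*b^2 +2*q*z*b -q*z -2*q*b^2 +4*q*b -2*q -b^2 +2*b -1) + (q^6*z^3*b^2 +2*q^5*z^3*b^2 -q^5*z^2*b^2 -2*q^5*z^2*b +2*q^4*z^3*b^2 -4*q^4*z^2*b +q^4*z*b +q^4*z +q^3*z^3*b^2 +q^3*z^2*b^2 -4*q^3*z^2*b -q^3*z*b^2 +2*q^3*z +q^2*z^2*b^2 -2*q^2*z^2*b -q^2*z*b +2*q^2*z -q*z*b +q*z)*σ + (q^5*z^2*b^2 +2*q^4*z^2*b^2 -2*q^4*z*b +2*q^3*z^2*b^2 +2*q^3*z*b^2 -4*q^3*z*b +q^3 +q^2*z^2*b^2 +3*q^2*z*b^2 -4*q^2*z*b -2*q^2*b +2*q^2 +2*q*z*b^2 -2*q*z*b +q*b^2 -3*q*b +2*q +b^2 -2*b +1)*σ^2) = 0 := by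
  subst hC3 hB3 hA3 hD hC hB hA hw3 hw hx hy
  linear_combination h

/-- elimination of `σ` -/
private lemma sK' {q z b σ : F}
    (hK : (-q^6*z^3*b^2 -q^5*z^3*b^2 -q^5*z^2*b^2 +2*q^5*z^2*b -3*q^4*z^2*b^2 +3*q^4*z^2*b -q^4*z*b^2 +2*q^4*z*b -q^4*z -2*q^3*z^2*b^2 +2*q^3*z^2*b -2*q^3*z*b^2 +4*q^3*z*b -2*q^3*z -q^3*b^2 +2*q^3*b -q^3 -q^2*z^2*b^2 +q^2*z^2*b -2*q^2*z*b^2 +4*q^2*z*b -2*q^2*z -2*q^2*b^2 +4*q^2*b -2*q^2 -q*z*b^2 +2*q*z*b -q*z -2*q*b^2 +4*q*b -2*q -b^2 +2*b -1) + (q^6*z^3*b^2 +2*q^5*z^3*b^2 -q^5*z^2*b^2 -2*q^5*z^2*b +2*q^4*z^3*b^2 -4*q^4*z^2*b +q^4*z*b +q^4*z +q^3*z^3*b^2 +q^3*z^2*b^2 -4*q^3*z^2*b -q^3*z*b^2 +2*q^3*z +q^2*z^2*b^2 -2*q^2*z^2*b -q^2*z*b +2*q^2*z -q*z*b +q*z)*σ + (q^5*z^2*b^2 +2*q^4*z^2*b^2 -2*q^4*z*b +2*q^3*z^2*b^2 +2*q^3*z*b^2 -4*q^3*z*b +q^3 +q^2*z^2*b^2 +3*q^2*z*b^2 -4*q^2*z*b -2*q^2*b +2*q^2 +2*q*z*b^2 -2*q*z*b +q*b^2 -3*q*b +2*q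 +b^2 -2*b +1)*σ^2 = 0)
    (hσ : (1-b-q*z*b+q*(1-q*z*b))*σ = q*z*b + (1+q)*(1-b-q*z*b)) :
    q*b*(q+1)*(1-b-q*z*b)*(1-b-q*z*b+q*(1-q*z*b))*(1-z)*(b*(1-q^3*z^2)-(1-q^2*z)) = 0 := by
  linear_combination (1-b-q*z*b+q*(1-q*z*b))^2 * hK -
    ((q^5*z^2*b^2 +2*q^4*z^2*b^2 -2*q^4*z*b +2*q^3*z^2*b^2 +2*q^3*z*b^2 -4*q^3*z*b +q^3 +q^2*z^2*b^2 +3*q^2*z*b^2 -4*q^2*z*b -2*q^2*b +2*q^2 +2*q*z*b^2 -2*q*z*b +q*b^2 -3*q*b +2*q +b^2 -2*b +1)*((1-b-q*z*b+q*(1-q*z*b))*σ + (q*z*b + (1+q)*(1-b-q*z*b))) + (q^6*z^3*b^2 +2*q^5*z^3*b^2 -q^5*z^2*b^2 -2*q^5*z^2*b +2*q^4*z^3*b^2 -4*q^4*z^2*b +q^4*z*b +q^4*z +q^3*z^3*b^2 +q^3*z^2*b^2 -4*q^3*z^2*b -q^3*z*b^2 +2*q^3*z +q^2*z^2*b^2 -2*q^2*z^2*b -q^2*z*b +2*q^2*z -q*z*b +q*z)*(1-b-q*z*b+q*(1-q*z*b))) * hσ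

/-- a degenerate column of row 1 followed by another column -/
private lemma sClose {t X a b x y G H s G' H' s' : F} (ht : t ≠ 1) (hG : G = a + x*s)
    (hH : s*H = b*s+y) (hG' : G' = a + x*s') (hH' : s'*H' = b*s'+y) (hs : s ≠ 0) (hs' : s' ≠ 0)
    (hG0 : G ≠ 0) (h0 : t*G = X*H) (h1 : G' = t*G) (h2 : X*H' = G) : a = b*X := by
  have e1 : (G-a)*(H-b) = x*y := by
    apply mul_left_cancel₀ hs
    rw [hG]; linear_combination (x*s)*hH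
  have e2 : (G'-a)*(H'-b) = x*y := by
    apply mul_left_cancel₀ hs'
    rw [hG']; linear_combination (x*s')*hH'
  have e3 : G*((t-1)*(b*X-a)) = 0 := by
    rw [h1] at e2
    linear_combination X*e1 - X*e2 + (G-a)*h0 + (t*G-a)*h2
  have e4 := (mul_eq_zero.1 ((mul_eq_zero.1 e3).resolve_left hG0)).resolve_left (sub_ne_zero.2 ht)
  linear_combination -e4

/-- the closed column in the main chain -/
private lemma sB {q z b σ x y w a G1 : F} (hx : x = 1-z*b) (hy : y = 1-b) (ha : a = z*b)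
    (hw : w = q*x+y) (hG : G1 = a+x*z) (hs : a + x*σ = q*G1)
    (h : σ*((w-a)*q*z+a) = q^2*z*((w-a)*z+a*q)) : z^2*(q-1)^2*b^2 = 0 := by
  subst hG hw ha hy hx
  linear_combination ((q*(1-z*b)+(1-b)-z*b)*q*z+z*b) * hs - (1-z*b)*h

private lemma s3cols {q Q d x y w v g p C D : F} (hd : d = 1-q*Q^2) (hx : d*x = 1-Q)
    (hy : d*y = q*Q*(1-Q)) (hw : w = q*x+y) (hg : g = 1-x+x*v) (hp : p = (1-y)*v+y)
    (hC : C = (w-(1-x))*v*g+(1-x)*p) (hD : D = q*(1-y)*v*g+(w-q*(1-y))*p) :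
    d*g = Q*(1-q*Q)+(1-Q)*v ∧ d*p = (1-q*Q)*v+q*Q*(1-Q) ∧
      d^2*C = (q-Q)*v*(Q*(1-q*Q)+(1-Q)*v) + Q*(1-q*Q)*((1-q*Q)*v+q*Q*(1-Q)) ∧
      d^2*D = q*(1-q*Q)*v*(Q*(1-q*Q)+(1-Q)*v) + q*Q*(q-Q)*((1-q*Q)*v+q*Q*(1-Q)) := by
  have e1 : d*g = Q*(1-q*Q)+(1-Q)*v := by
    rw [hg]; linear_combination (v-1)*hx + hd
  have e2 : d*p = (1-q*Q)*v+q*Q*(1-Q) := by
    rw [hp]; linear_combination (1-v)*hy + v*hd
  have e3 : d*w = q*(1-Q)+q*Q*(1-Q) := by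
    rw [hw]; linear_combination q*hx+hy
  have e4 : d*w-(d-d*x) = q-Q := by
    rw [e3, hx, hd]; ring
  have e5 : d-d*x = Q*(1-q*Q) := by
    rw [hx, hd]; ring
  have e6 : d-d*y = 1-q*Q := by
    rw [hy, hd]; ring
  have e7 : d*w-q*(d-d*y) = q*Q*(q-Q) := by
    rw [e3, e6]; ring
  refine ⟨e1, e2, ?_, ?_⟩
  · rw [← e1, ← e2, ← e4, ← e5, hC]; ring
  · rw [← e1, ← e2, ← e7, ← e6, hD]; ring

/-- after the jump: type 0 is impossible -/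
private lemma s3type0 {q Q d G P A2 B2 g p C D : F} (q0 : q ≠ 0) (Q0 : Q ≠ 0) (q1 : q ≠ 1)
    (q1' : q ≠ -1) (Q1 : Q ≠ 1) (qQ : q*Q ≠ 1)
    (hG : d*G = Q*(1-q*Q)+(1-Q)*(q*Q)) (hP : d*P = (1-q*Q)*(q*Q)+q*Q*(1-Q))
    (hA : d^2*A2 = (q-Q)*(q*Q)*(Q*(1-q*Q)+(1-Q)*(q*Q)) + Q*(1-q*Q)*((1-q*Q)*(q*Q)+q*Q*(1-Q)))
    (hB : d^2*B2 = q*(1-q*Q)*(q*Q)*(Q*(1-q*Q)+(1-Q)*(q*Q)) + q*Q*(q-Q)*((1-q*Q)*(q*Q)+q*Q*(1-Q)))
    (hg : d*g = Q*(1-q*Q)+(1-Q)*(q^2*Q)) (hp : d*p = (1-q*Q)*(q^2*Q)+q*Q*(1-Q))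
    (hC : d^2*C = (q-Q)*(q^2*Q)*(Q*(1-q*Q)+(1-Q)*(q^2*Q)) +
      Q*(1-q*Q)*((1-q*Q)*(q^2*Q)+q*Q*(1-Q)))
    (hD : d^2*D = q*(1-q*Q)*(q^2*Q)*(Q*(1-q*Q)+(1-Q)*(q^2*Q)) +
      q*Q*(q-Q)*((1-q*Q)*(q^2*Q)+q*Q*(1-Q)))
    (h1 : q*(q^2*G-P)*(C-q^2*A2) = (q^4*A2-B2)*(g-q*G))
    (h2 : q*(q^2*G-P)*((q*Q)^2*D-q^2*A2*(q^2*Q)^2) =
      (q^4*A2-B2)*(q*Q*p*(q^2*Q)-q*G*(q^2*Q)^2)) : False := by
  have e1 : q*(q^2*(d*G)-(d*P))*((d^2*C)-q^2*(d^2*A2)) =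
      (q^4*(d^2*A2)-(d^2*B2))*((d*g)-q*(d*G)) := by linear_combination d^3*h1
  have e2 : q*(q^2*(d*G)-(d*P))*((q*Q)^2*(d^2*D)-q^2*(d^2*A2)*(q^2*Q)^2) =
      (q^4*(d^2*A2)-(d^2*B2))*(q*Q*(d*p)*(q^2*Q)-q*(d*G)*(q^2*Q)^2) := by
    linear_combination d^3*h2
  rw [hG, hP, hA, hB, hg, hC] at e1
  rw [hG, hP, hA, hB, hp, hD] at e2
  have n1 := sub_ne_zero.2 q1
  have n2 : q + 1 ≠ 0 := fun h => q1' (eq_neg_of_add_eq_zero_left h)
  have n3 := sub_ne_zero.2 Q1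
  have n4 := sub_ne_zero.2 qQ
  have f1 : q^2*Q^3*(q-1)^3*(q+1)*(Q-1)*(q*Q-1)*(q^2*Q+q*Q-2*q+Q-1) = 0 := by
    linear_combination e1
  have f2 : q^6*Q^5*(q-1)^3*(q+1)*(Q-1)*(q*Q-1)*(q^2*Q-q^2+2*q*Q-q-1) = 0 := by
    linear_combination e2
  have g1 : q^2*Q+q*Q-2*q+Q-1 = 0 := (mul_eq_zero.1 f1).resolve_left (by
    exact mul_ne_zero (mul_ne_zero (mul_ne_zero (mul_ne_zero (mul_ne_zero (pow_ne_zero _ q0)
      (pow_ne_zero _ Q0)) (pow_ne_zero _ n1)) n2) n3) n4)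
  have g2 : q^2*Q-q^2+2*q*Q-q-1 = 0 := (mul_eq_zero.1 f2).resolve_left (by
    exact mul_ne_zero (mul_ne_zero (mul_ne_zero (mul_ne_zero (mul_ne_zero (pow_ne_zero _ q0)
      (pow_ne_zero _ Q0)) (pow_ne_zero _ n1)) n2) n3) n4)
  have g3 : (q-1)^2*(q+1)^2 = 0 := by
    linear_combination (q^2+2*q)*g1 - (q^2+q+1)*g2
  exact mul_ne_zero (pow_ne_zero _ n1) (pow_ne_zero _ n2) g3

/-- after the jump: `s = Q` is impossible -/
private lemma s3Q {q Q d G P A2 B2 g C lam : F} (q0 : q ≠ 0) (Q0 : Q ≠ 0)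
    (q1 : q ≠ 1) (q1' : q ≠ -1) (Q1 : Q ≠ 1) (hl : lam ≠ 1)
    (hG : d*G = Q*(1-q*Q)+(1-Q)*(q*Q)) (hP : d*P = (1-q*Q)*(q*Q)+q*Q*(1-Q))
    (hA : d^2*A2 = (q-Q)*(q*Q)*(Q*(1-q*Q)+(1-Q)*(q*Q)) + Q*(1-q*Q)*((1-q*Q)*(q*Q)+q*Q*(1-Q)))
    (hB : d^2*B2 = q*(1-q*Q)*(q*Q)*(Q*(1-q*Q)+(1-Q)*(q*Q)) + q*Q*(q-Q)*((1-q*Q)*(q*Q)+q*Q*(1-Q)))
    (hg : d*g = Q*(1-q*Q)+(1-Q)*Q)
    (hC : d^2*C = (q-Q)*Q*(Q*(1-q*Q)+(1-Q)*Q) +
      Q*(1-q*Q)*((1-q*Q)*Q+q*Q*(1-Q)))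
    (h1 : q*g = q^2*G - lam*(q^2*G-P))
    (h2 : q^2*C = q^4*A2 - lam*(q^4*A2-B2)) : False := by
  have e1 : (1-lam)*(q^2*(d*G)-(d*P)) = q*(d*g) - d*P := by linear_combination (-d)*h1
  have e2 : (1-lam)*(q^4*(d^2*A2)-(d^2*B2)) = q^2*(d^2*C) - d^2*B2 := by
    linear_combination (-d^2)*h2
  rw [hG, hP, hg] at e1
  rw [hA, hB, hC] at e2
  have nl : 1 - lam ≠ 0 := sub_ne_zero.2 hl.symm
  have n1 := sub_ne_zero.2 q1
  have n2 : q + 1 ≠ 0 := fun h => q1' (eq_neg_of_add_eq_zero_left h)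
  have n3 := sub_ne_zero.2 Q1
  have f1 : (1-lam)*(q*Q*(q-1)*(-2*q*Q+q-Q+2)) = 0 := by linear_combination e1
  have f2 : (1-lam)*(q^2*Q^2*(q-1)*(q+1)*(Q-1)*(q^3*Q-q^3+3*q^2*Q-q^2+q*Q-3*q+Q-1)) = 0 := by
    linear_combination e2
  have g1 : -2*q*Q+q-Q+2 = 0 := by
    have := (mul_eq_zero.1 f1).resolve_left nl
    exact (mul_eq_zero.1 this).resolve_left (mul_ne_zero (mul_ne_zero q0 Q0) n1)
  have g2 : q^3*Q-q^3+3*q^2*Q-q^2+q*Q-3*q+Q-1 = 0 := by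
    have := (mul_eq_zero.1 f2).resolve_left nl
    exact (mul_eq_zero.1 this).resolve_left (mul_ne_zero (mul_ne_zero (mul_ne_zero (mul_ne_zero
      (pow_ne_zero _ q0) (pow_ne_zero _ Q0)) n1) n2) n3)
  have g3 : (q-1)^3*(q+1) = 0 := by
    linear_combination (-(q^3+3*q^2+q+1))*g1 - (2*q+1)*g2
  exact mul_ne_zero (pow_ne_zero _ n1) n2 g3

/-! ### the geometric part -/

variable {m : ℕ}

/-- rows `1, 2, 3` in terms of `x, y` -/
private lemma e3base (g : GForm F m) (hm : 3 ≤ m) {q x y w w3 : F} (ht : ∀ j, j ≤ 3 → g.t j = q ^ j)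
    (h1 : g.s 1 = q) (hx : x = 1 - g.lam' 0) (hy : y = g.mu' 0) (hw : w = q*x+y)
    (hw3 : w3 = (q+1)*w-q) :
    x + y - 1 ≠ 0 ∧ w ≠ 0 ∧ w3 ≠ 0 ∧ w * g.lam' 1 = 1 - x ∧ w * (1 - g.mu' 1) = q*(1-y) ∧
      w3 * g.lam' 2 = 1 - x ∧ w3 * (1 - g.mu' 2) = q^2*(1-y) := by
  have t1 : g.t 1 = q := by rw [ht 1 (by omega), pow_one]
  have t2 := ht 2 (by omega)
  have t3 := ht 3 (by omega)
  have q0 : q ≠ 0 := by rw [← t1]; exact g.t_ne 1 (by omega)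
  have q1 : q ≠ 1 := by rw [← t1, ← g.t0]; exact (g.t_inj 0 1 (by omega) (by omega)).symm
  have q2 : q^2 ≠ 1 := by rw [← t2, ← g.t0]; exact (g.t_inj 0 2 (by omega) (by omega)).symm
  have q3 : q^3 ≠ 1 := by rw [← t3, ← g.t0]; exact (g.t_inj 0 3 (by omega) (by omega)).symm
  have n1 : q - 1 ≠ 0 := sub_ne_zero.2 q1
  have r1 := g.row1G (k := 1) (by omega) (by omega)
  have r1' := g.row1H (k := 1) (by omega) (by omega)
  have u1 := g.G_succ (j := 1) (k := 0) (by omega) (by omega)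
  have u1' := g.H_succ (j := 1) (k := 0) (by omega) (by omega)
  have u2 := g.G_succ (j := 2) (k := 0) (by omega) (by omega)
  have u2' := g.H_succ (j := 2) (k := 0) (by omega) (by omega)
  have u3 := g.G_succ (j := 3) (k := 0) (by omega) (by omega)
  have u3' := g.H_succ (j := 3) (k := 0) (by omega) (by omega)
  rw [g.kap_zero (by omega), g.G0 _ (by omega)] at u1 u1' u2 u2' u3 u3'
  simp only [zero_add, pow_one, mul_one, t1, t2, t3, h1] at r1 r1' u1 u1' u2 u2' u3 u3'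
  have l0 : g.lam 0 = g.lam' 0 := by
    apply mul_left_cancel₀ n1
    linear_combination u1 - r1
  have m0 : g.mu 0 = g.mu' 0 := by
    apply mul_left_cancel₀ n1
    linear_combination u1' - r1'
  have a1 := g.row2G (k := 1) (by omega) (by omega)
  have a2 := g.row2H (k := 1) (by omega) (by omega)
  have b1 := g.V1 2 1 (by omega) (by omega)
  have b2 := g.V2 2 1 (by omega) (by omega)
  rw [h1] at a1 a2 b1 b2
  norm_num at b1 b2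
  rw [l0] at u1 u2 u3
  rw [m0] at u1' u2' u3'
  have hl : g.lam' 0 = 1 - x := by rw [hx]; ring
  rw [hl] at u1 u2 u3
  rw [← hy] at u1' u2' u3'
  have c1 : w * g.lam' 1 = 1 - x := by
    apply mul_left_cancel₀ n1
    rw [hw]
    linear_combination a1 - u2 + (q - q * g.lam' 1) * u1 + (g.lam' 1) * u1'
  have c2 : w * (1 - g.mu' 1) = q*(1-y) := by
    apply mul_left_cancel₀ n1
    rw [hw]
    linear_combination (-q)*a2 + u2' - (1 - g.mu' 1)*q * u1 - (g.mu' 1) * u1'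
  have c3 : w3 * g.lam' 2 = 1 - x := by
    apply mul_left_cancel₀ n1
    rw [hw3, hw]
    linear_combination b1 - u3 + (1 - g.lam' 2) * q * u2 + (g.lam' 2) * u2'
  have c4 : w3 * (1 - g.mu' 2) = q^2*(1-y) := by
    apply mul_left_cancel₀ n1
    rw [hw3, hw]
    linear_combination (-1)*b2 + u3' - (1 - g.mu' 2)*q * u2 - (g.mu' 2) * u2'
  refine ⟨?_, ?_, ?_, c1, c2, c3, c4⟩
  · intro h
    apply g.lm_ne 0 (by omega)
    rw [l0, m0, ← hy, hl]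
    linear_combination -h
  · intro h
    rw [h, zero_mul] at c1 c2
    have y1 : y = 1 := by
      have := (mul_eq_zero.1 c2.symm).resolve_left q0
      linear_combination -this
    apply q2
    rw [hw, y1] at h
    linear_combination (q-1)*h - q*(q-1)*c1
  · intro h
    rw [h, zero_mul] at c3 c4
    have y1 : y = 1 := by
      have := (mul_eq_zero.1 c4.symm).resolve_left (pow_ne_zero 2 q0)
      linear_combination -this
    apply q3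
    rw [hw3, hw, y1] at h
    linear_combination (q-1)*h - q*(q+1)*(q-1)*c3

/-- row 2 of a column -/
private lemma e3col (g : GForm F m) (hm : 2 ≤ m) {k : ℕ} (hk : k ≤ m) {q x y w s : F}
    (hx : x = 1 - g.lam' 0) (hy : y = g.mu' 0) (hs : g.s k = s)
    (c1 : w * g.lam' 1 = 1 - x) (c2 : w * (1 - g.mu' 1) = q*(1-y)) :
    g.G 1 k = 1 - x + x*s ∧ s * g.H 1 k = (1-y)*s+y ∧
      w * g.G 2 k = (w-(1-x))*s*(1-x+x*s) + (1-x)*((1-y)*s+y) ∧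
      w * (s^2 * g.H 2 k) = q*(1-y)*s*(1-x+x*s) + (w-q*(1-y))*((1-y)*s+y) := by
  have r1 := g.row1G (k := k) (by omega) hk
  have r1' := g.row1H (k := k) (by omega) hk
  have a1 := g.row2G (k := k) (by omega) hk
  have a2 := g.row2H (k := k) (by omega) hk
  rw [hs] at r1 r1' a1 a2
  have e1 : g.G 1 k = 1 - x + x*s := by rw [r1, hx]; ring
  have e2 : s * g.H 1 k = (1-y)*s+y := by rw [r1', hy]
  refine ⟨e1, e2, ?_, ?_⟩
  · rw [← e1, ← e2]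
    linear_combination w*a1 + (s * g.H 1 k - s * g.G 1 k) * c1
  · rw [← e1, ← e2]
    linear_combination (w*s)*a2 + (s * g.G 1 k - s * g.H 1 k) * c2

/-- one step of the main chain -/
theorem e3_step (g : GForm F m) {q : F} {k : ℕ} (hk2 : 2 ≤ k) (hk : k + 2 < m)
    (ht : ∀ j, j ≤ 3 → g.t j = q ^ j) (hs : ∀ i, i ≤ k → g.s i = q ^ i) :
    g.s (k + 1) = q ^ (k + 1) := by
  by_contra hne
  have t1 : g.t 1 = q := by rw [ht 1 (by omega), pow_one]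
  have t2 := ht 2 (by omega)
  have t3 := ht 3 (by omega)
  have s1 : g.s 1 = q := by rw [hs 1 (by omega), pow_one]
  have q0 : q ≠ 0 := by rw [← t1]; exact g.t_ne 1 (by omega)
  have q1 : q ≠ 1 := by rw [← t1, ← g.t0]; exact (g.t_inj 0 1 (by omega) (by omega)).symm
  have q2 : q^2 ≠ 1 := by rw [← t2, ← g.t0]; exact (g.t_inj 0 2 (by omega) (by omega)).symm
  have qm1 : q ≠ -1 := by rintro rfl; exact q2 (by ring)
  have n1 : q - 1 ≠ 0 := sub_ne_zero.2 q1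
  have n2 : q + 1 ≠ 0 := fun h => qm1 (eq_neg_of_add_eq_zero_left h)
  obtain ⟨x, hx⟩ : ∃ x, x = 1 - g.lam' 0 := ⟨_, rfl⟩
  obtain ⟨y, hy⟩ : ∃ y, y = g.mu' 0 := ⟨_, rfl⟩
  obtain ⟨w, hw⟩ : ∃ w, w = q*x+y := ⟨_, rfl⟩
  obtain ⟨w3, hw3⟩ : ∃ w3, w3 = (q+1)*w-q := ⟨_, rfl⟩
  obtain ⟨d0, w0, w30, c1, c2, c3, c4⟩ := e3base g (by omega) ht s1 hx hy hw hw3
  have x0 : x ≠ 0 := by
    rw [hx]; exact sub_ne_zero.2 (g.lam'_ne 0 (by omega)).symm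
  have y0 : y ≠ 0 := by rw [hy]; exact g.mu'_ne 0 (by omega)
  obtain ⟨z, hz⟩ : ∃ z, z = q^k := ⟨_, rfl⟩
  have z0 : z ≠ 0 := by rw [hz]; exact pow_ne_zero _ q0
  have sk : g.s k = z := by rw [hs k le_rfl, hz]
  have z1 : z ≠ 1 := by
    rw [← sk, ← g.s0]; exact (g.s_inj 0 k (by omega) (by omega)).symm
  obtain ⟨σ, hσ⟩ : ∃ σ, σ = g.s (k + 1) := ⟨_, rfl⟩
  have σ0 : σ ≠ 0 := by rw [hσ]; exact g.s_ne _ (by omega)
  have σ1 : σ ≠ 1 := by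
    rw [hσ, ← g.s0]; exact (g.s_inj 0 (k+1) (by omega) (by omega)).symm
  have hne' : σ - q*z ≠ 0 := by
    intro h; apply hne; rw [← hσ, pow_succ, ← hz]; linear_combination h
  have tk1 : g.t 1 ^ k = z := by rw [t1, hz]
  have tk2 : g.t 2 ^ k = z^2 := by rw [t2, hz]; ring
  have tk3 : g.t 3 ^ k = z^3 := by rw [t3, hz]; ring
  have tl1 : g.t 1 ^ (k+1) = q*z := by rw [t1, hz]; ring
  have tl2 : g.t 2 ^ (k+1) = (q*z)^2 := by rw [t2, hz]; ring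
  -- columns
  obtain ⟨gk1, hk1, gk2, hkk2⟩ := e3col g (by omega) (k := k) (by omega) hx hy sk c1 c2
  obtain ⟨gl1, hl1, gl2, hl2⟩ := e3col g (by omega) (k := k + 1) (by omega) hx hy hσ.symm c1 c2
  have u1 := g.G_succ (j := 1) (k := k) (by omega) (by omega)
  have u1' := g.H_succ (j := 1) (k := k) (by omega) (by omega)
  have u2 := g.G_succ (j := 2) (k := k) (by omega) (by omega)
  have u2' := g.H_succ (j := 2) (k := k) (by omega) (by omega)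
  have u3 := g.G_succ (j := 3) (k := k) (by omega) (by omega)
  have K1 : g.kap 1 k = q*(1-x+x*z) - ((1-y)*z+y) := by
    rw [GForm.kap, tk1, t1, gk1, ← hk1]
  have K2 : w * g.kap 2 k = (q+1)*(q*(1-x+x*z) - ((1-y)*z+y))*(q*z*x+y) := by
    rw [GForm.kap, tk2, t2]
    rw [hw] at gk2 hkk2 ⊢
    linear_combination q^2*gk2 - hkk2
  rw [tl1, t1] at u1'
  rw [t1] at u1
  rw [tl2, t2] at u2'
  rw [t2] at u2
  rw [t3] at u3
  have kd2 : g.kap 2 k = q^2 * g.G 2 k - z^2 * g.H 2 k := by rw [GForm.kap, tk2, t2]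
  by_cases hk0 : g.kap 1 k = 0
  · -- degenerate column
    have e1 : q*(1-x+x*z) - ((1-y)*z+y) = 0 := by rw [← K1]; exact hk0
    have e2 : g.kap 2 k = 0 := by
      have : w * g.kap 2 k = 0 := by rw [K2, e1]; ring
      exact (mul_eq_zero.1 this).resolve_left w0
    rw [hk0, mul_zero, sub_zero] at u1 u1'
    rw [e2, mul_zero, sub_zero] at u2
    have G0 : g.G 1 k ≠ 0 := by
      intro h
      refine g.ne_zero (j := 1) (k := k) (by omega) (by omega) ⟨h, ?_⟩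
      have : z * g.H 1 k = 0 := by
        rw [hk1]; rw [gk1] at h; linear_combination q*h - e1
      exact (mul_eq_zero.1 this).resolve_left z0
    have v1 : z * g.H 1 (k+1) = g.G 1 k := mul_left_cancel₀ q0 (by linear_combination u1')
    have h0 : q * g.G 1 k = z * g.H 1 k := by rw [hk1, gk1]; linear_combination e1
    have ae := sClose q1 gk1 hk1 gl1 hl1 z0 σ0 G0 h0 u1 v1
    have p1 : 1-x+x*σ = q*g.G 1 k := by rw [← gl1, u1]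
    have p2 : z*((1-y)*σ+y) = σ*g.G 1 k := by rw [← hl1]; linear_combination σ*v1
    have p3 : (1-y)*z+y = q*g.G 1 k := by rw [gk1]; linear_combination -e1
    have p4 := gl2
    rw [u2] at p4
    have key : g.G 1 k*(σ*((w-(1-x))*q*z+(1-x)) - q^2*z*((w-(1-x))*z+(1-x)*q)) = 0 := by
      linear_combination q^2*z*gk2 - z*p4 - z*(w-(1-x))*σ*p1 - (1-x)*p2 + q^2*z*(1-x)*p3 -
        q^2*z*(w-(1-x))*z*gk1
    have key2 := sub_eq_zero.1 ((mul_eq_zero.1 key).resolve_left G0)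
    have hb := sB (q := q) (z := z) (b := 1-y) (σ := σ) (x := x) (y := y) (w := w) (a := 1-x)
      (G1 := g.G 1 k) (by linear_combination -ae) (by ring) (by linear_combination ae) hw
      gk1 p1 key2
    have hb2 : 1 - y = 0 := by
      by_contra h
      exact mul_ne_zero (mul_ne_zero (pow_ne_zero 2 z0) (pow_ne_zero 2 n1)) (pow_ne_zero 2 h) hb
    rw [hb2, zero_mul] at ae
    apply hne'
    rw [gk1] at p1
    linear_combination p1 + (σ - 1 - q*z + q)*ae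
  · have hκ : q*(1-x+x*z) - ((1-y)*z+y) ≠ 0 := by rw [← K1]; exact hk0
    have hcG : g.kap 1 k * (g.G 2 (k+1) - q^2 * g.G 2 k) =
        g.kap 2 k * (g.G 1 (k+1) - q * g.G 1 k) := by rw [u1, u2]; ring
    have hcH : g.kap 1 k * ((q*z)^2 * g.H 2 (k+1) - q^2 * g.G 2 k) =
        g.kap 2 k * (q*z*g.H 1 (k+1) - q * g.G 1 k) := by rw [u1', u2']; ring
    have J1 := sJ (q := q) (z := z) (x := x) (y := y) (σ := σ) (A2 := w * g.G 2 k)
      (B2 := w * (z^2 * g.H 2 k)) (C2 := w * g.G 2 (k+1)) (by rw [gk2, hw]) (by rw [hkk2, hw])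
      (by rw [gl2, hw]) (by
        rw [← K1, ← gk1, ← gl1]
        rw [kd2] at hcG
        linear_combination w*hcG)
    have J2 := sJ' (q := q) (z := z) (x := x) (y := y) (σ := σ) (A2 := w * g.G 2 k)
      (B2 := w * (z^2 * g.H 2 k)) (D2 := w * (σ^2 * g.H 2 (k+1))) (by rw [gk2, hw])
      (by rw [hkk2, hw]) (by rw [hl2, hw]) (by
        rw [← K1, ← gk1, ← hl1]
        rw [kd2] at hcH
        linear_combination (w*σ^2)*hcH)
    have J : (x+y-1+q*x)*σ - q*z*(1-y) - (1+q)*(x+y-1) = 0 :=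
      (mul_eq_zero.1 J1).resolve_left (mul_ne_zero (mul_ne_zero x0 hne') hκ)
    have J' : (1-x+(q+1)*z*(x+y-1))*σ - z*(q*(x+y-1)+y) = 0 :=
      (mul_eq_zero.1 J2).resolve_left (mul_ne_zero (mul_ne_zero (mul_ne_zero q0 y0) hne') hκ)
    have E := sE J J'
    have ae : (1-x) - q*z*(1-y) = 0 := (mul_eq_zero.1 E).resolve_left
      (mul_ne_zero (mul_ne_zero d0 (by rw [add_comm]; exact n2)) (sub_ne_zero.2 z1))
    obtain ⟨b, hb⟩ : ∃ b, b = 1 - y := ⟨_, rfl⟩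
    have xe : x = 1 - q*z*b := by rw [hb]; linear_combination -ae
    have ye : y = 1 - b := by rw [hb]; ring
    have b0 : b ≠ 0 := by
      intro h
      apply σ1
      rw [xe, ye, h] at J
      apply mul_left_cancel₀ (show (1+q) ≠ 0 by rw [add_comm]; exact n2)
      linear_combination J
    have hσ' : (1-b-q*z*b+q*(1-q*z*b))*σ = q*z*b + (1+q)*(1-b-q*z*b) := by
      rw [xe, ye] at J
      linear_combination J
    have Dn0 : 1-b-q*z*b+q*(1-q*z*b) ≠ 0 := by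
      intro h
      rw [h, zero_mul] at hσ'
      have : q*b*(z-1) = 0 := by linear_combination -hσ' - (1+q)*h + h + q * h - h
      exact mul_ne_zero (mul_ne_zero q0 b0) (sub_ne_zero.2 z1) this
    -- row 3
    have r3 := g.V1 2 k (by omega) (by omega)
    have r3' := g.V2 2 k (by omega) (by omega)
    have r3n := g.V1 2 (k+1) (by omega) (by omega)
    rw [sk] at r3 r3'
    rw [← hσ] at r3n
    norm_num at r3 r3' r3n
    have kd3 : g.kap 3 k = q^3 * g.G 3 k - z^3 * g.H 3 k := by rw [GForm.kap, tk3, t3]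
    have hc3 : g.kap 1 k * (g.G 3 (k+1) - q^3 * g.G 3 k) =
        g.kap 3 k * (g.G 1 (k+1) - q * g.G 1 k) := by rw [u1, u3]; ring
    have K0 := sK (q := q) (z := z) (x := x) (y := y) (b := b) (w := w) (w3 := w3) (σ := σ)
      (A2 := w * g.G 2 k) (B2 := w * (z^2 * g.H 2 k)) (C2 := w * g.G 2 (k+1))
      (D2 := w * (σ^2 * g.H 2 (k+1))) (A3 := w * w3 * g.G 3 k) (B3 := w * w3 * (z^3 * g.H 3 k))
      (C3 := w * w3 * g.G 3 (k+1)) xe ye hw hw3 gk2 hkk2 gl2 hl2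
      (by linear_combination (w*w3)*r3 + (w*(z^2*g.H 2 k - z*g.G 2 k))*c3)
      (by linear_combination (w*w3)*r3' + (w*(z*g.G 2 k - z^2*g.H 2 k))*c4)
      (by linear_combination (w*w3)*r3n + (w*(σ^2*g.H 2 (k+1) - σ*g.G 2 (k+1)))*c3)
      (by
        rw [← K1, ← gk1, ← gl1]
        rw [kd3] at hc3
        linear_combination (w*w3)*hc3)
    have xe0 : 1 - q*z*b ≠ 0 := by rw [← xe]; exact x0
    have K0' := (mul_eq_zero.1 K0).resolve_left (mul_ne_zero (mul_ne_zero xe0 hne') hκ)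
    have K00 := sK' K0' hσ'
    have d0' : 1-b-q*z*b ≠ 0 := by
      intro h; apply d0; rw [xe, ye]; linear_combination h
    have hbz : b*(1-q^3*z^2)-(1-q^2*z) = 0 := (mul_eq_zero.1 K00).resolve_left
      (mul_ne_zero (mul_ne_zero (mul_ne_zero (mul_ne_zero (mul_ne_zero q0 b0) n2) d0') Dn0)
        (sub_ne_zero.2 (Ne.symm z1)))
    obtain ⟨Q, hQ⟩ : ∃ Q, Q = q*z := ⟨_, rfl⟩
    obtain ⟨d, hd⟩ : ∃ d, d = 1 - q*Q^2 := ⟨_, rfl⟩
    have Q0 : Q ≠ 0 := by rw [hQ]; exact mul_ne_zero q0 z0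
    have hbd : b*d = 1-q*Q := by rw [hd, hQ]; linear_combination hbz
    have dn0 : d ≠ 0 := by
      intro h
      rw [h, mul_zero] at hbd
      rw [h] at hd
      have e1 : Q = 1 := by linear_combination hd - Q*hbd
      apply q1
      rw [e1] at hbd
      linear_combination hbd
    have hxd : d*x = 1-Q := by rw [xe]; linear_combination (-q*z)*hbd + hd + (1 - q * Q) * hQ
    have hyd : d*y = q*Q*(1-Q) := by rw [ye]; linear_combination hd - hbd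
    have hdw : d*w = q*(1-Q)*(1+Q) := by rw [hw]; linear_combination q*hxd + hyd
    have Q1 : Q ≠ 1 := by
      intro h
      rw [h] at hdw
      exact mul_ne_zero dn0 w0 (by linear_combination hdw)
    have hqQ0 : q - Q ≠ 0 := by
      intro h
      apply z1
      apply mul_left_cancel₀ q0
      rw [← hQ]; linear_combination -h
    have σe : σ = q*Q := by
      have e1 : d*((1-b-q*z*b+q*(1-q*z*b))*(σ-q*Q)) = 0 := by
        rw [hQ] at hd hbd ⊢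
        linear_combination d*hσ' + (q*z + (1+q)*(-1-q*z) + q*(q*z)*(1+q*z+q*(q*z)))*hbd + ((1+q) - q*(q*z)*(1+q))*hd
      have e2 := (mul_eq_zero.1 e1).resolve_left dn0
      have e3 := (mul_eq_zero.1 e2).resolve_left Dn0
      linear_combination e3
    have qQ1 : q*Q ≠ 1 := by rw [← σe]; exact σ1
    -- the columns k+1, k+2
    obtain ⟨v, hv⟩ : ∃ v, v = g.s (k + 2) := ⟨_, rfl⟩
    have v0 : v ≠ 0 := by rw [hv]; exact g.s_ne _ (by omega)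
    have Tk1 : g.t 1 ^ (k+1) = Q := by rw [tl1, hQ]
    have Tk2 : g.t 2 ^ (k+1) = Q^2 := by rw [tl2, hQ]
    have Tl1 : g.t 1 ^ (k+1+1) = q*Q := by rw [pow_succ, Tk1, t1]; ring
    have Tl2 : g.t 2 ^ (k+1+1) = (q*Q)^2 := by rw [pow_succ, Tk2, t2]; ring
    obtain ⟨gm1, hm1, gm2, hm2⟩ := e3col g (by omega) (k := k + 2) (by omega) hx hy hv.symm c1 c2
    rw [σe] at hl1 gl1 gl2 hl2
    obtain ⟨sG, sP, sA, sB⟩ := s3cols (v := q*Q) (g := 1-x+x*(q*Q)) (p := (1-y)*(q*Q)+y)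
      hd hxd hyd hw rfl rfl gl2 hl2
    rw [← gl1] at sG
    rw [← hl1] at sP
    obtain ⟨sg, sp, sC, sD⟩ := s3cols (v := v) (g := 1-x+x*v) (p := (1-y)*v+y)
      hd hxd hyd hw rfl rfl gm2 hm2
    rw [← gm1] at sg
    rw [← hm1] at sp
    have v1 := g.G_succ (j := 1) (k := k + 1) (by omega) (by omega)
    have v1' := g.H_succ (j := 1) (k := k + 1) (by omega) (by omega)
    have v2 := g.G_succ (j := 2) (k := k + 1) (by omega) (by omega)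
    have v2' := g.H_succ (j := 2) (k := k + 1) (by omega) (by omega)
    rw [Tl1, t1] at v1'
    rw [t1] at v1
    rw [Tl2, t2] at v2'
    rw [t2] at v2
    have kl1 : g.kap 1 (k+1) = q * g.G 1 (k+1) - Q * g.H 1 (k+1) := by rw [GForm.kap, Tk1, t1]
    have kl2 : g.kap 2 (k+1) = q^2 * g.G 2 (k+1) - Q^2 * g.H 2 (k+1) := by
      rw [GForm.kap, Tk2, t2]
    -- `v = Q` is impossible
    have hvQ : v ≠ Q := by
      intro h
      rw [h] at sg sC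
      refine s3Q (q := q) (Q := Q) (d := d) (G := g.G 1 (k+1)) (P := q*Q*g.H 1 (k+1))
        (A2 := w * g.G 2 (k+1)) (B2 := w*((q*Q)^2*g.H 2 (k+1))) (g := g.G 1 (k+2))
        (C := w * g.G 2 (k+2)) (lam := g.lam (k+1)) q0 Q0 q1 qm1 Q1 (g.lam_ne _ (by omega))
        sG sP sA sB (by rw [sg]) (by rw [sC]) ?_ ?_
      · rw [kl1] at v1
        linear_combination q*v1
      · rw [kl2] at v2
        linear_combination (q^2*w)*v2
    by_cases hl0 : g.kap 1 (k+1) = 0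
    · -- degenerate column `k+1`
      rw [hl0, mul_zero, sub_zero] at v1
      apply hvQ
      have f1 : q*Q*(q-1)*(-2*q*Q+q-Q+2) = 0 := by
        rw [kl1] at hl0
        linear_combination (q*d)*hl0 - q^2*sG + sP
      have f2 := (mul_eq_zero.1 f1).resolve_left (mul_ne_zero (mul_ne_zero q0 Q0) n1)
      have f3 : (1-Q)*(v-Q) = 0 := by
        linear_combination d*v1 - sg + q*sG + Q*(q-1)*f2
      exact sub_eq_zero.1 ((mul_eq_zero.1 f3).resolve_left (sub_ne_zero.2 (Ne.symm Q1)))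
    · rcases Pool.Agent.Helper43.IPL.local_flat g (by omega) (k+1) (by omega) with
        h | h | h | h | h
      · have e := g.D_succ (j := 1) (k := k) (by omega) (by omega)
        rw [GForm.D, h] at e
        have hd1 : g.mu k - g.lam k ≠ 0 := fun h => g.lm_ne k (by omega) (sub_eq_zero.1 h).symm
        exact mul_ne_zero hd1 hk0 e.symm
      · apply hl0
        rw [Tk1, t1] at h
        rw [kl1]; linear_combination -h
      · rw [Tk1] at h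
        have hG2 : g.G 1 (k+2) ≠ 0 := by
          intro h'
          refine g.ne_zero (j := 1) (k := k + 2) (by omega) (by omega) ⟨h', ?_⟩
          have : Q * g.H 1 (k+2) = 0 := by
            rw [show k + 1 + 1 = k + 2 from rfl, h'] at h
            linear_combination h
          exact (mul_eq_zero.1 this).resolve_left Q0
        have w1 := g.G_succ (j := 1) (k := k + 2) (by omega) (by omega)
        have w1' := g.H_succ (j := 1) (k := k + 2) (by omega) (by omega)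
        have km : g.kap 1 (k+2) = 0 := by
          rw [GForm.kap, show k + 2 = k + 1 + 1 from rfl, Tl1, t1]
          linear_combination (-q)*h
        rw [km, mul_zero, sub_zero, t1] at w1
        rw [km, mul_zero, sub_zero, show k + 2 + 1 = k + 1 + 1 + 1 from rfl, pow_succ, Tl1, t1] at w1'
        obtain ⟨gn1, hn1, -, -⟩ := e3col g (by omega) (k := k + 3) (by omega) hx hy rfl c1 c2
        have a1 := sClose (t := q) (X := q*Q) q1 gm1 hm1 gn1 hn1 v0 (g.s_ne _ (by omega)) hG2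
          (by linear_combination (-q)*h) w1
          (mul_left_cancel₀ q0 (by linear_combination w1'))
        have : Q*(1-y)*(q-1) = 0 := by
          rw [hQ] at a1 ⊢
          linear_combination ae - a1
        rw [← hb] at this
        exact mul_ne_zero (mul_ne_zero Q0 b0) n1 this
      · -- type 0
        have ve : v = q^2*Q := by
          rw [← hσ, t1, t2, show k + 1 + 1 = k + 2 from rfl, ← hv, σe] at h
          apply mul_left_cancel₀ q0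
          linear_combination -h
        rw [ve] at sg sp sC sD
        have hcG2 : g.kap 1 (k+1) * (g.G 2 (k+2) - q^2 * g.G 2 (k+1)) =
            g.kap 2 (k+1) * (g.G 1 (k+2) - q * g.G 1 (k+1)) := by
          rw [show k + 2 = k + 1 + 1 from rfl, v1, v2]; ring
        have hcH2 : g.kap 1 (k+1) * ((q*Q)^2 * g.H 2 (k+2) - q^2 * g.G 2 (k+1)) =
            g.kap 2 (k+1) * (q*Q*g.H 1 (k+2) - q * g.G 1 (k+1)) := by
          rw [show k + 2 = k + 1 + 1 from rfl, v1', v2']; ring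
        rw [kl1, kl2] at hcG2 hcH2
        refine s3type0 (q := q) (Q := Q) (d := d) (G := g.G 1 (k+1)) (P := q*Q*g.H 1 (k+1))
          (A2 := w * g.G 2 (k+1)) (B2 := w*((q*Q)^2*g.H 2 (k+1))) (g := g.G 1 (k+2))
          (p := q^2*Q*g.H 1 (k+2))
          (C := w * g.G 2 (k+2)) (D := w*((q^2*Q)^2*g.H 2 (k+2))) q0 Q0 q1 qm1 Q1 qQ1
          sG sP sA sB sg sp sC sD ?_ ?_
        · linear_combination (q^2*w)*hcG2
        · linear_combination (q^2*w*(q^2*Q)^2)*hcH2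
      · -- type 1
        apply hvQ
        rw [← hσ, Tk1, Tk2, show k + 1 + 1 = k + 2 from rfl, ← hv, σe] at h
        have e1 : d*w-(d-d*x) = q-Q := by rw [hdw, hxd, hd]; ring
        have e2 : d*w-q*(d-d*y) = q*Q*(q-Q) := by rw [hdw, hyd, hd]; ring
        have e3 : q*Q^2*(q-Q)*(v-Q) = 0 := by
          have e4 : (w-(1-x))*(q*Q*v*Q) = (w-q*(1-y))*Q^2 := by
            linear_combination w*h + (q*Q*v*Q)*c1 - Q^2*c2
          linear_combination d*e4 - (q*Q*v*Q)*e1 + Q^2*e2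
        exact sub_eq_zero.1 ((mul_eq_zero.1 e3).resolve_left
          (mul_ne_zero (mul_ne_zero q0 (pow_ne_zero 2 Q0)) hqQ0))

/-- the main chain -/
theorem e3 (g : GForm F m) (hm : 4 ≤ m) (q : F) (ht : ∀ j, j ≤ 3 → g.t j = q ^ j)
    (h1 : g.s 1 = q) (h2 : g.s 2 = q ^ 2) : ∀ i, i + 1 < m → g.s i = q ^ i := by
  intro i
  induction i using Nat.strong_induction_on with
  | _ i ih =>
    intro hi
    rcases Nat.lt_or_ge i 3 with h | h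
    · interval_cases i
      · rw [g.s0, pow_zero]
      · rw [h1, pow_one]
      · exact h2
    · obtain ⟨k, rfl⟩ : ∃ k, i = k + 1 := ⟨i - 1, by omega⟩
      exact e3_step g (by omega) (by omega) ht (fun j hj => ih j (by omega) (by omega))

end Pool.Agent.Helper54.IP
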