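import Pool.Agent.Helper54.IP.GSwap

/-!
TH-P: the QRT relation (helper31's `QX_k`), linear in `t^k`, `t^-k`, `s_k`, `1/s_k`.
-/

namespace Pool.Agent.Helper54.IP

variable {F : Type*} [Field F]

/-- the left side of the QRT relation, `X = t_1^k`, `t = t_1`, `T = t_2`, `s = s_k` -/
def qx (x x' al de t T X s : F) : F :=
  x * x' * (T - t) * (T - 1) * (al * (1 - de) * X + (1 - al) * de * t / X) +
  x * x' * (T - 1) * ((1 - al) * (1 - de) * t * (T - 1) - al * de * (t ^ 2 - T)) -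
  T * (t - 1) ^ 2 * (al * x * ((1 - de) * (1 - x) + de * (1 - x')) * s +
    de * x' * (al * (1 - x) + (1 - al) * (1 - x')) / s +
    (al * (1 - x) + (1 - al) * (1 - x')) * ((1 - de) * (1 - x) + de * (1 - x')))

/-- the polynomial identity behind `qx_of` (no relations) -/
private theorem qx_id (x x' al de t T X g1 h1 : F) :
    X * (t - 1) ^ 2 * T * (al * g1 + (1 - al) * h1) * ((1 - de) * g1 + de * h1) *
      ((1 - x') * X - t * (1 - x)) +
    (t - 1) * X * (T * (h1 - 1 + x') * ((1 - de) * g1 + de * h1) *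
        ((T - 1) * g1 - (T - t) * (1 - x)) * (t + al * (X - t)) -
      (g1 - 1 + x) * (al * g1 + (1 - al) * h1) * (X + de * (t - X)) *
        (t * (T - 1) * h1 - (T - t) * (1 - x'))) +
    (T - t) * (T - 1) * ((g1 - 1 + x) * (h1 - 1 + x')) * (t + al * (X - t)) * (X + de * (t - X)) *
      (g1 - X * h1) =
    (t * g1 - X * h1) *
    (((g1 - 1 + x) * (h1 - 1 + x')) * (T - t) * (T - 1) *
        (al * (1 - de) * X ^ 2 + (1 - al) * de * t) +
      ((g1 - 1 + x) * (h1 - 1 + x')) * (T - 1) *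
        ((1 - al) * (1 - de) * t * (T - 1) - al * de * (t ^ 2 - T)) * X -
      T * (t - 1) ^ 2 * (al * ((1 - de) * (1 - x) + de * (1 - x')) * (g1 - 1 + x) +
        de * (al * (1 - x) + (1 - al) * (1 - x')) * (h1 - 1 + x') +
        (al * (1 - x) + (1 - al) * (1 - x')) * ((1 - de) * (1 - x) + de * (1 - x'))) * X) := by
  ring

/-- elimination of `Y` from `E1`, `E2` -/
theorem qx_of {x x' al de t T X Y s g1 h1 g2 h2 : F} (hs : s ≠ 0) (hX : X ≠ 0) (hT : T ≠ 1)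
    (htT : T ≠ t) (hg1 : g1 = 1 - x + x * s) (hh1 : s * h1 = (1 - x') * s + x')
    (hg2 : g2 = s * (al * g1 + (1 - al) * h1)) (hh2 : s * h2 = (1 - de) * g1 + de * h1)
    (hE1 : t * (T - 1) * (t - 1) * (X * g2 * h1 - Y * g1 * h2) =
      (T - t) * ((t - 1) * (1 - x') * X * (g2 - Y * h2) +
        (T - 1) * x' * (t + al * (X - t)) * (g1 - X * h1)))
    (hE2 : T * (T - 1) * (t - 1) * (X * g2 * h1 - Y * g1 * h2) * X =
      (T - t) * ((t - 1) * T * (1 - x) * (g2 - Y * h2) * X +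
        (T - 1) * x * Y * (X + de * (t - X)) * (g1 - X * h1)))
    (hD : g1 - X * h1 ≠ 0) (hk : t * g1 - X * h1 ≠ 0) : qx x x' al de t T X s = 0 := by
  obtain ⟨u, hsu⟩ : ∃ u, s * u = 1 := ⟨s⁻¹, mul_inv_cancel₀ hs⟩
  have hu : u = s⁻¹ := by
    field_simp
    linear_combination hsu
  have hxs : x * s = g1 - 1 + x := by linear_combination -hg1
  have hxu : x' * u = h1 - 1 + x' := by
    linear_combination (-u) * hh1 + (h1 - 1 + x') * hsu
  obtain ⟨a, ha⟩ : ∃ a, a = al * g1 + (1 - al) * h1 := ⟨_, rfl⟩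
  obtain ⟨b, hb⟩ : ∃ b, b = (1 - de) * g1 + de * h1 := ⟨_, rfl⟩
  have hg2' : g2 = s * a := by rw [hg2, ha]
  have hh2' : h2 = u * b := by
    rw [← hb] at hh2
    linear_combination u * hh2 - h2 * hsu
  obtain ⟨W, hW⟩ : ∃ W, W = t * (T - 1) * g1 - (T - t) * (1 - x') * X := ⟨_, rfl⟩
  obtain ⟨W2, hW2⟩ : ∃ W2, W2 = (T - 1) * g1 - (T - t) * (1 - x) := ⟨_, rfl⟩
  obtain ⟨V1, hV1⟩ : ∃ V1, V1 = t * (T - 1) * h1 - (T - t) * (1 - x') := ⟨_, rfl⟩
  obtain ⟨V2, hV2⟩ : ∃ V2, V2 = (T - 1) * X * h1 - (T - t) * (1 - x) := ⟨_, rfl⟩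
  obtain ⟨L1, hL1⟩ : ∃ L1, L1 = t + al * (X - t) := ⟨_, rfl⟩
  obtain ⟨L2, hL2⟩ : ∃ L2, L2 = X + de * (t - X) := ⟨_, rfl⟩
  obtain ⟨D, hDD⟩ : ∃ D, D = g1 - X * h1 := ⟨_, rfl⟩
  have e1 : Y * (-(t - 1) * u * b * W) =
      -(t - 1) * X * s * a * V1 + (T - t) * (T - 1) * x' * L1 * D := by
    rw [hW, hV1, hL1, hDD]
    rw [hg2', hh2'] at hE1
    linear_combination hE1
  have e2 : Y * (-X * (t - 1) * T * u * b * W2 - (T - t) * (T - 1) * x * L2 * D) =
      -X * (t - 1) * T * s * a * V2 := by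
    rw [hW2, hV2, hL2, hDD]
    rw [hg2', hh2'] at hE2
    linear_combination hE2
  have e3 : (-(t - 1) * u * b * W) * (-X * (t - 1) * T * s * a * V2) -
      (-X * (t - 1) * T * u * b * W2 - (T - t) * (T - 1) * x * L2 * D) *
      (-(t - 1) * X * s * a * V1 + (T - t) * (T - 1) * x' * L1 * D) = 0 := by
    rw [← e1, ← e2]
    ring
  have e4 : W * V2 - X * W2 * V1 = (T - 1) * (T - t) * D * ((1 - x') * X - t * (1 - x)) := by
    rw [hW, hW2, hV1, hV2, hDD]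
    ring
  have e5 : (T - t) * (T - 1) * D * (X * (t - 1) ^ 2 * T * a * b * ((1 - x') * X - t * (1 - x)) +
      (t - 1) * X * (T * (h1 - 1 + x') * b * W2 * L1 - (g1 - 1 + x) * a * L2 * V1) +
      (T - t) * (T - 1) * ((g1 - 1 + x) * (h1 - 1 + x')) * L1 * L2 * D) = 0 := by
    rw [← hxs, ← hxu]
    linear_combination e3 - X * (t - 1) ^ 2 * T * a * b * s * u * e4 +
      (-((T - t) * (T - 1) * D * X * (t - 1) ^ 2 * T * a * b * ((1 - x') * X - t * (1 - x))) +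
        (T - t) ^ 2 * (T - 1) ^ 2 * D ^ 2 * x * x' * L1 * L2) * hsu
  have hT' : T - 1 ≠ 0 := sub_ne_zero.2 hT
  have htT' : T - t ≠ 0 := sub_ne_zero.2 htT
  have e6 := (mul_eq_zero.1 e5).resolve_left
    (mul_ne_zero (mul_ne_zero htT' hT') (by rw [hDD]; exact hD))
  rw [ha, hb, hW2, hL1, hL2, hV1, hDD, qx_id] at e6
  have e7 := (mul_eq_zero.1 e6).resolve_left hk
  have hxx : x * x' = (g1 - 1 + x) * (h1 - 1 + x') := by
    rw [← hxs, ← hxu]
    linear_combination (-(x * x')) * hsu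
  rw [← hxx] at e7
  have e8 : X * qx x x' al de t T X s = 0 := by
    rw [qx, div_eq_mul_inv _ s, ← hu]
    rw [← e7, ← hxs, ← hxu]
    field_simp
  exact (mul_eq_zero.1 e8).resolve_left hX

end Pool.Agent.Helper54.IP
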