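import Pool.Agent.Helper54.IP.C4

/-!
TH-P phase 2: the family M4, elimination side.
-/

namespace Pool.Agent.Helper54.IP

variable {F : Type*} [Field F]

/-- The family M4 of parameter arrays of dimension 4 (`t_3 = -s_3`, characteristic not 2). -/
structure M4 (t s f : ℕ → F) : Prop where
  two : (2 : F) ≠ 0
  t0 : t 0 = 1
  s0 : s 0 = 1
  s3 : s 3 = -t 3
  t2 : t 2 * (t 1 * (t 3 - 1) + 2 * t 3) = t 3 * (2 * t 1 - t 3 + 1)
  s2 : s 2 * (s 1 * (t 3 + 1) + 2 * t 3) = t 3 * (2 * s 1 + t 3 + 1)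
  n1 : t 1 ≠ 0
  n2 : s 1 ≠ 0
  n3 : t 3 ≠ 0
  n4 : t 2 ≠ 0
  n5 : s 2 ≠ 0
  d1 : t 1 ≠ 1
  d2 : s 1 ≠ 1
  d3 : t 3 ≠ 1
  d3' : t 3 ≠ -1
  d4 : t 1 + s 1 ≠ 0
  d5 : t 1 ≠ t 3
  d6 : s 1 + t 3 ≠ 0
  d7 : t 1 ^ 2 + t 3 ≠ 0
  d8 : s 1 ^ 2 ≠ t 3
  d9 : t 1 * t 3 - 3 * t 1 + 3 * t 3 - 1 ≠ 0
  d10 : s 1 * t 3 + 3 * s 1 + 3 * t 3 + 1 ≠ 0
  k0 : t 1 * t 3 - t 1 + s 1 * t 3 + s 1 + 2 * t 3 ≠ 0
  k1 : 2 * t 1 * s 1 + t 1 * t 3 - t 1 - s 1 * t 3 + s 1 + 2 * t 3 ≠ 0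
  k2 : -2 * t 1 * s 1 - t 1 * t 3 - t 1 + s 1 * t 3 + s 1 + 2 * t 3 ≠ 0
  k3 : -t 1 ^ 2 * s 1 * t 3 - t 1 ^ 2 * s 1 - 2 * t 1 ^ 2 * t 3 - t 1 * s 1 ^ 2 * t 3 +
    t 1 * s 1 ^ 2 + t 1 * t 3 ^ 2 - t 1 * t 3 - 2 * s 1 ^ 2 * t 3 - s 1 * t 3 ^ 2 - s 1 * t 3 ≠ 0
  f1 : f 1 * (2 * t 1 * s 1 + t 1 * t 3 + t 1 - s 1 * t 3 + s 1) =
    (t 1 + s 1) * (t 3 ^ 2 - 1)
  f2 : f 2 * (2 * (t 1 * (t 3 - 1) + 2 * t 3) * (s 1 * (t 3 + 1) + 2 * t 3)) =
    -((t 3 ^ 2 - 1) * (2 * t 1 ^ 2 * s 1 ^ 2 + t 1 ^ 2 * s 1 * t 3 + t 1 ^ 2 * s 1 -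
      t 1 * s 1 ^ 2 * t 3 + t 1 * s 1 ^ 2 + t 1 * t 3 ^ 2 - t 1 * t 3 + s 1 * t 3 ^ 2 +
      s 1 * t 3 + 2 * t 3 ^ 2))
  f3 : f 3 * (t 1 * t 3 - t 1 + s 1 * t 3 + s 1 + 2 * t 3) =
    -(t 3 * (4 * t 1 * s 1 - t 1 * t 3 ^ 2 + 4 * t 1 * t 3 + t 1 - s 1 * t 3 ^ 2 -
      4 * s 1 * t 3 + s 1 - 4 * t 3 ^ 2))
  f1' : f 1 ≠ 0
  f2' : f 2 ≠ 0
  f3' : f 3 ≠ 0

theorem m4_elim {g : GForm F 3} (h : g.Closed) {X Y : F} (hx : g.XY X Y) {f : ℕ → F}
    (hf : g.IsPhi f) (hw : g.s 3 = -g.t 3) (h2 : (2 : F) ≠ 0) : M4 g.t g.s f := by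
  have a0 := g.t_ne 1 (by omega)
  have c0 := g.t_ne 3 (by omega)
  have u0 := g.s_ne 1 (by omega)
  have v0 := g.s_ne 2 (by omega)
  have b0 := g.t_ne 2 (by omega)
  have a1 := g.t_sub_one (k := 1) (by omega) (by omega)
  have c1 := g.t_sub_one (k := 3) (by omega) (by omega)
  have u1 := g.s_sub_one (k := 1) (by omega) (by omega)
  have w1 := g.s_sub_one (k := 3) (by omega) (by omega)
  have hab := sub_ne_zero.2 (g.t_inj 1 2 (by omega) (by omega))
  have hbc := sub_ne_zero.2 (g.t_inj 2 3 (by omega) (by omega))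
  have hac := sub_ne_zero.2 (g.t_inj 1 3 (by omega) (by omega))
  have huv := sub_ne_zero.2 (g.s_inj 1 2 (by omega) (by omega))
  have hvw := sub_ne_zero.2 (g.s_inj 2 3 (by omega) (by omega))
  have huw := sub_ne_zero.2 (g.s_inj 1 3 (by omega) (by omega))
  have hv1 := g.s_sub_one (k := 2) (by omega) (by omega)
  obtain ⟨hD, RX, RY, Rv⟩ := c4_M h hx hw h2
  obtain ⟨-, -, -, Rb⟩ := c4_M h.swap hx.swap (by
    simp only [GForm.swap_s, GForm.swap_t, hw]; ring) h2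
  simp only [GForm.swap_s, GForm.swap_t, hw] at Rb
  have ff1 := hf.one (by omega) hx
  have ff2 := hf.two (by omega) hx
  have ff3 := hf.three (by omega) hx
  have g1 : f 1 ≠ 0 := hf.ne (k := 0) (by omega)
  have g2 : f 2 ≠ 0 := hf.ne (k := 1) (by omega)
  have g3 : f 3 ≠ 0 := hf.ne (k := 2) (by omega)
  have G13 := hx.G1 (by omega) (k := 3) le_rfl
  have n13 := h.G_ne (j := 1) (by omega)
  have G31 := hx.Gk1 (by omega) (k := 3) le_rfl
  have n31 := h.swap.G_ne (j := 1) (by omega)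
  rw [GForm.swap_G] at n31
  rw [G13] at n13
  rw [G31] at n31
  have X0 := hx.X_ne (by omega)
  have Y0 := hx.Y_ne (by omega)
  have zi := hx.zero_iff (by omega)
  have G12 := hx.G1 (by omega) (k := 2) (by omega)
  have H12 := hx.H1 (by omega) (k := 2) (by omega)
  have hD12 : g.G 1 1 ≠ g.H 1 1 → g.G 1 2 - g.t 1 ^ 2 * g.H 1 2 ≠ 0 := by
    intro hD
    have := g.D_succ (j := 1) (k := 1) (by omega) (by omega)
    rw [GForm.D] at this
    rw [this]
    refine mul_ne_zero (fun h0 => g.lm_ne 1 (by omega) (sub_eq_zero.1 h0).symm) ?_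
    rw [GForm.kap, pow_one, ← mul_sub]
    exact mul_ne_zero a0 (sub_ne_zero.2 hD)
  rw [hw] at n13 huw hvw w1 ff3
  have t0 := g.t0
  have s0 := g.s0
  clear hx hf G13 G31 h
  set a := g.t 1
  set b := g.t 2
  set c := g.t 3
  set u := g.s 1
  set v := g.s 2
  have cp : c + 1 ≠ 0 := fun e => w1 (by linear_combination -e)
  have Rb' : b * (a * (c - 1) + 2 * c) = c * (2 * a - c + 1) := by linear_combination -Rb
  have hDD : (a + u) * (c ^ 2 - 1) ≠ 0 := by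
    refine mul_ne_zero hD ?_
    have : c ^ 2 - 1 = (c - 1) * (c + 1) := by ring
    rw [this]
    exact mul_ne_zero c1 cp
  have nB : a * (c - 1) + 2 * c ≠ 0 := by
    intro e
    rw [e, mul_zero] at Rb'
    have e1 : 2 * a - c + 1 = 0 := (mul_eq_zero.1 Rb'.symm).resolve_left c0
    have e2 : 2 * (a + 1) ^ 2 = 0 := by linear_combination e + (a + 2) * e1
    have e3 : a + 1 = 0 := by simpa using (mul_eq_zero.1 e2).resolve_left h2
    exact cp (by linear_combination -e1 + 2 * e3)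
  have nV : u * (c + 1) + 2 * c ≠ 0 := by
    intro e
    rw [e, mul_zero] at Rv
    have e1 : 2 * u + c + 1 = 0 := (mul_eq_zero.1 Rv.symm).resolve_left c0
    have e2 : 2 * (u + 1) ^ 2 = 0 := by linear_combination -e + (u + 2) * e1
    have e3 : u + 1 = 0 := by simpa using (mul_eq_zero.1 e2).resolve_left h2
    exact c1 (by linear_combination e1 - 2 * e3)
  have nV1 : 2 * u + c + 1 ≠ 0 := by
    intro e
    rw [e, mul_zero] at Rv
    exact mul_ne_zero v0 nV Rv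
  have nB1 : 2 * a - c + 1 ≠ 0 := by
    intro e
    rw [e, mul_zero] at Rb'
    exact mul_ne_zero b0 nB Rb'
  have d7 : a ^ 2 + c ≠ 0 := by
    intro e
    apply mul_ne_zero hab nB
    linear_combination -Rb' + (c - 1) * e
  have d8 : u ^ 2 - c ≠ 0 := by
    intro e
    apply mul_ne_zero huv nV
    linear_combination -Rv + (c + 1) * e
  have d9 : a * c - 3 * a + 3 * c - 1 ≠ 0 := by
    intro e
    apply mul_ne_zero hbc nB
    linear_combination Rb' - c * e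
  have d10 : u * c + 3 * u + 3 * c + 1 ≠ 0 := by
    intro e
    apply mul_ne_zero hvw nV
    linear_combination Rv + c * e
  have nNX : 2 * a * u + a * c + a - u * c + u ≠ 0 := by
    intro e
    apply mul_ne_zero hDD X0
    linear_combination RX + e
  have nNY : a * c - a + u * c + u + 2 * c ≠ 0 := by
    intro e
    apply mul_ne_zero hDD Y0
    linear_combination RY + c * e
  have k2 : -2 * a * u - a * c - a + u * c + u + 2 * c ≠ 0 := by
    intro e
    apply mul_ne_zero hDD n13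
    linear_combination (-(a - 1) * (c + 1)) * RX + a * (c + 1) * e
  have k1 : 2 * a * u + a * c - a - u * c + u + 2 * c ≠ 0 := by
    intro e
    apply mul_ne_zero hDD n31
    linear_combination ((u - 1) * (c - 1)) * RX + u * (c - 1) * e
  have v1' : (v - 1) * (u * (c + 1) + 2 * c) = (c - 1) * (u + c) := by linear_combination Rv
  have vu' : (v - u) * (u * (c + 1) + 2 * c) = -((c + 1) * (u ^ 2 - c)) := by
    linear_combination Rv
  have vc' : (v + c) * (u * (c + 1) + 2 * c) = c * (u * c + 3 * u + 3 * c + 1) := by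
    linear_combination Rv
  have uc : u + c ≠ 0 := by
    intro e
    exact huw (by linear_combination e)
  have F2 : f 2 * (2 * (a * (c - 1) + 2 * c) * (u * (c + 1) + 2 * c)) =
      -((c ^ 2 - 1) * (2 * a ^ 2 * u ^ 2 + a ^ 2 * u * c + a ^ 2 * u -
      a * u ^ 2 * c + a * u ^ 2 + a * c ^ 2 - a * c + u * c ^ 2 + u * c + 2 * c ^ 2)) := by
    have E2 : f 2 * (u * (v - 1) * (2 * a * u + a + u + c * (a - u)) +
        (u - 1) * (c * (c * (a + u + 2) - a + u)) - u * ((a + u) * (c ^ 2 - 1))) =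
        (v - 1) * (v - u) * (a * u * (2 * a * u + a + u + c * (a - u)) +
          c * (c * (a + u + 2) - a + u)) := by
      linear_combination (a + u) * (c ^ 2 - 1) * ff2 - f 2 * u * (v - 1) * RX
        - f 2 * (u - 1) * RY + (v - 1) * (v - u) * (a * u * RX + RY)
    have k : (u + c) * (u ^ 2 - c) *
        (f 2 * (2 * (a * (c - 1) + 2 * c) * (u * (c + 1) + 2 * c)) +
      (c ^ 2 - 1) * (2 * a ^ 2 * u ^ 2 + a ^ 2 * u * c + a ^ 2 * u -
      a * u ^ 2 * c + a * u ^ 2 + a * c ^ 2 - a * c + u * c ^ 2 + u * c + 2 * c ^ 2)) = 0 := by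
      linear_combination (u * (c + 1) + 2 * c) ^ 2 * E2
        - f 2 * (u * (c + 1) + 2 * c) * u * (2 * a * u + a + u + c * (a - u)) * v1'
        + (a * u * (2 * a * u + a + u + c * (a - u)) +
          c * (c * (a + u + 2) - a + u)) * ((v - u) * (u * (c + 1) + 2 * c) * v1' +
            (c - 1) * (u + c) * vu')
    linear_combination (mul_eq_zero.1 k).resolve_left (mul_ne_zero uc d8)
  have nP2 : 2 * a ^ 2 * u ^ 2 + a ^ 2 * u * c + a ^ 2 * u -
      a * u ^ 2 * c + a * u ^ 2 + a * c ^ 2 - a * c + u * c ^ 2 + u * c + 2 * c ^ 2 ≠ 0 := by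
    intro e
    rw [e, mul_zero, neg_zero] at F2
    exact mul_ne_zero g2 (mul_ne_zero (mul_ne_zero h2 nB) nV) F2
  have hnz : g.G 1 1 ≠ g.H 1 1 := by
    intro e
    have e1 := zi.1 e
    apply nP2
    linear_combination (a + u) * (c ^ 2 - 1) * e1 - a * u * RX - RY
  have k3 : -a ^ 2 * u * c - a ^ 2 * u - 2 * a ^ 2 * c - a * u ^ 2 * c +
    a * u ^ 2 + a * c ^ 2 - a * c - 2 * u ^ 2 * c - u * c ^ 2 - u * c ≠ 0 := by
    intro e
    apply hD12 hnz
    have e1 : v * (g.G 1 2 - a ^ 2 * g.H 1 2) = (a - 1) * ((v - 1) * (v * X + a * Y) -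
        (a + 1) * v) := by
      linear_combination v * G12 - a * H12
    have e2 : (a + u) * (c ^ 2 - 1) * ((v - 1) * (v * X + a * Y) - (a + 1) * v) =
        (v - 1) * (v * (2 * a * u + a + u + c * (a - u)) + a * (c * (c * (a + u + 2) - a + u)))
          - (a + 1) * v * ((a + u) * (c ^ 2 - 1)) := by
      linear_combination (v - 1) * (v * RX + a * RY)
    have e3 : (u * (c + 1) + 2 * c) ^ 2 * ((v - 1) * (v * (2 * a * u + a + u + c * (a - u)) +
        a * (c * (c * (a + u + 2) - a + u))) - (a + 1) * v * ((a + u) * (c ^ 2 - 1))) = 0 := by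
      linear_combination ((v * (u * (c + 1) + 2 * c)) * (2 * a * u + a + u + c * (a - u)) +
        (u * (c + 1) + 2 * c) * (a * (c * (c * (a + u + 2) - a + u)))) * v1'
        + ((c - 1) * (u + c) * (2 * a * u + a + u + c * (a - u)) -
          (a + 1) * ((a + u) * (c ^ 2 - 1)) * (u * (c + 1) + 2 * c)) * Rv
        + c * (c - 1) * (u * c + 3 * u + 3 * c + 1) * e
    have e4 := (mul_eq_zero.1 e3).resolve_left (pow_ne_zero 2 nV)
    apply mul_left_cancel₀ v0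
    apply mul_left_cancel₀ hDD
    rw [mul_zero, mul_zero]
    linear_combination (a + u) * (c ^ 2 - 1) * e1 + (a - 1) * e2 + (a - 1) * e4
  have F3 : f 3 * (a * c - a + u * c + u + 2 * c) =
    -(c * (4 * a * u - a * c ^ 2 + 4 * a * c + a - u * c ^ 2 -
      4 * u * c + u - 4 * c ^ 2)) := by
    have T1 : (u * (c + 1) + 2 * c) * ((a + u) * (c ^ 2 - 1)) *
        (v * X * (-c - 1) + a * (v - 1) * Y - (a + 1) * v) =
        -(a * c * (a * c - a + u * c + u + 2 * c) * (u * c + 3 * u + 3 * c + 1)) := by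
      have r1 : (u * (c + 1) + 2 * c) * ((a + u) * (c ^ 2 - 1)) *
        (v * X * (-c - 1) + a * (v - 1) * Y - (a + 1) * v) =
        (u * (c + 1) + 2 * c) * (v * (2 * a * u + a + u + c * (a - u)) * (-c - 1) +
          a * (v - 1) * (c * (c * (a + u + 2) - a + u)) - (a + 1) * v * ((a + u) * (c ^ 2 - 1)))
          := by
        linear_combination (u * (c + 1) + 2 * c) * (v * (-c - 1) * RX + a * (v - 1) * RY)
      rw [r1]
      linear_combination ((2 * a * u + a + u + c * (a - u)) * (-c - 1) -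
        (a + 1) * ((a + u) * (c ^ 2 - 1))) * Rv + a * (c * (c * (a + u + 2) - a + u)) * v1'
    have T2 : (u * (c + 1) + 2 * c) ^ 2 * ((a + u) * (c ^ 2 - 1)) *
        ((v - 1) * (v * X + Y) - v) = c * (c - 1) * (u ^ 2 - c) *
          (4 * a * u - a * c ^ 2 + 4 * a * c + a - u * c ^ 2 -
      4 * u * c + u - 4 * c ^ 2) := by
      have r1 : (u * (c + 1) + 2 * c) ^ 2 * ((a + u) * (c ^ 2 - 1)) *
        ((v - 1) * (v * X + Y) - v) = (u * (c + 1) + 2 * c) ^ 2 *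
          ((v - 1) * (v * (2 * a * u + a + u + c * (a - u)) + c * (c * (a + u + 2) - a + u)) -
            v * ((a + u) * (c ^ 2 - 1))) := by
        linear_combination (u * (c + 1) + 2 * c) ^ 2 * (v - 1) * (v * RX + RY)
      rw [r1]
      linear_combination ((v * (u * (c + 1) + 2 * c)) * (2 * a * u + a + u + c * (a - u)) +
        (u * (c + 1) + 2 * c) * (c * (c * (a + u + 2) - a + u))) * v1'
        + ((c - 1) * (u + c) * (2 * a * u + a + u + c * (a - u)) -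
          ((a + u) * (c ^ 2 - 1)) * (u * (c + 1) + 2 * c)) * Rv
    have k : (c ^ 2 - 1) * (u + c) * (u ^ 2 - c) * (a * c * (u * c + 3 * u + 3 * c + 1)) *
        (f 3 * (a * c - a + u * c + u + 2 * c) + c * (4 * a * u - a * c ^ 2 + 4 * a * c + a -
          u * c ^ 2 - 4 * u * c + u - 4 * c ^ 2)) = 0 := by
      linear_combination (u * (c + 1) + 2 * c) ^ 3 * ((a + u) * (c ^ 2 - 1)) * ff3
        - f 3 * ((v - 1) * (u * (c + 1) + 2 * c)) * ((v - u) * (u * (c + 1) + 2 * c)) * T1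
        - (c + 1) * (u + c) * ((v + c) * (u * (c + 1) + 2 * c)) * a * T2
        + f 3 * (a * c * (a * c - a + u * c + u + 2 * c) * (u * c + 3 * u + 3 * c + 1)) *
          ((v - u) * (u * (c + 1) + 2 * c) * v1' + (c - 1) * (u + c) * vu')
        - (c + 1) * (u + c) * a * (c * (c - 1) * (u ^ 2 - c) *
          (4 * a * u - a * c ^ 2 + 4 * a * c + a - u * c ^ 2 - 4 * u * c + u - 4 * c ^ 2)) * vc'
    have n : (c ^ 2 - 1) * (u + c) * (u ^ 2 - c) * (a * c * (u * c + 3 * u + 3 * c + 1)) ≠ 0 := by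
      have : c ^ 2 - 1 = (c - 1) * (c + 1) := by ring
      rw [this]
      exact mul_ne_zero (mul_ne_zero (mul_ne_zero (mul_ne_zero c1 cp) uc) d8)
        (mul_ne_zero (mul_ne_zero a0 c0) d10)
    linear_combination (mul_eq_zero.1 k).resolve_left n
  refine ⟨h2, t0, s0, hw, Rb', Rv, a0, u0, c0, b0, v0, sub_ne_zero.1 a1, sub_ne_zero.1 u1,
    sub_ne_zero.1 c1, fun e => cp (by rw [show g.t 3 = c from rfl] at e; rw [e]; ring), hD,
    sub_ne_zero.1 hac, uc, d7, sub_ne_zero.1 d8, d9, d10, nNY, k1, k2, k3,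
    ?_, F2, F3, g1, g2, g3⟩
  linear_combination (a + u) * (c ^ 2 - 1) * ff1 - f 1 * RX

end Pool.Agent.Helper54.IP
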