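import Pool.Agent.Helper54.IP.Sq

/-!
TH-P phase 2: construction of the closed corners of the family M4 (generated).
-/

namespace Pool.Agent.Helper54.IP

variable {F : Type*} [Field F]

set_option maxRecDepth 100000

private theorem m4_mk_U1_10 (a u c NX : F)
    (hNX : NX = 2 * a * u + a * c + a - u * c + u)
    (n5 : (c - 1) ≠ 0)
    (n7 : (a + u) ≠ 0)
    (n6 : (c + 1) ≠ 0) :
    (((2 * a ^ 2 * u ^ 2 + a ^ 2 * u * c - a ^ 2 * u - a ^ 2 * c - a ^ 2 - a * u ^ 2 * c - a * u ^ 2 + a * c ^ 2 + a * c + u ^ 2 * c - u ^ 2 + u * c ^ 2 - u * c)) / ((c - 1) * (a + u) * (c + 1))) = (1 - (1 - (((u - 1) * NX) / ((c - 1) * (c + 1) * (a + u))))) * (((a)) * ((1))) + (1 - (((u - 1) * NX) / ((c - 1) * (c + 1) * (a + u)))) * (((a)) ^ 0 * ((1))) := by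
  field_simp
  all_goals try simp only [hNX]
  all_goals ring

private theorem m4_mk_U2_10 (a u c NY : F)
    (hNY : NY = a * c - a + u * c + u + 2 * c)
    (n5 : (c - 1) ≠ 0)
    (n7 : (a + u) ≠ 0)
    (n1 : u ≠ 0)
    (n6 : (c + 1) ≠ 0)
    (n0 : a ≠ 0) :
    ((a)) ^ 1 * (((a ^ 2 * u * c - a ^ 2 * u + a ^ 2 * c ^ 2 - a ^ 2 * c - a * u ^ 2 * c - a * u ^ 2 + a * c ^ 2 + a * c + u ^ 2 * c ^ 2 + u ^ 2 * c + u * c ^ 2 - u * c - 2 * c ^ 2)) / ((c - 1) * (a + u) * u * (c + 1) * a)) = (1 - ((c * (u - 1) * NY) / (u * (c - 1) * (c + 1) * (a + u)))) * (((a)) * ((1))) + ((c * (u - 1) * NY) / (u * (c - 1) * (c + 1) * (a + u))) * (((a)) ^ 0 * ((1))) := by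
  field_simp
  all_goals try simp only [hNY]
  all_goals ring

private theorem m4_mk_U1_11 (a u c Bd Vd P2 : F)
    (hBd : Bd = a * c - a + 2 * c)
    (hVd : Vd = u * c + u + 2 * c)
    (hP2 : P2 = 2 * a ^ 2 * u ^ 2 + a ^ 2 * u * c + a ^ 2 * u - a * u ^ 2 * c + a * u ^ 2 + a * c ^ 2 - a * c + u * c ^ 2 + u * c + 2 * c ^ 2)
    (n7 : (a + u) ≠ 0)
    (n11 : Vd ≠ 0)
    (n6 : (c + 1) ≠ 0)
    (n4 : (u - 1) ≠ 0)
    (n21 : P2 ≠ 0)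
    (n5 : (c - 1) ≠ 0)
    (n1 : u ≠ 0)
    (n0 : a ≠ 0) :
    (((2 * a ^ 2 * u ^ 2 + 3 * a ^ 2 * u * c + a ^ 2 * u + a ^ 2 * c ^ 2 + a ^ 2 * c - a * u ^ 2 * c - a * u ^ 2 + a * c ^ 2 + a * c + u ^ 2 * c ^ 2 + 3 * u ^ 2 * c + 3 * u * c ^ 2 + u * c)) / ((a + u) * Vd * (c + 1))) = (1 - (1 - (((u + c) * Bd * (u ^ 2 - c) * 2) / ((u - 1) * Vd * P2)))) * (((a)) * (((2 * a ^ 2 * u ^ 2 + a ^ 2 * u * c - a ^ 2 * u - a ^ 2 * c - a ^ 2 - a * u ^ 2 * c - a * u ^ 2 + a * c ^ 2 + a * c + u ^ 2 * c - u ^ 2 + u * c ^ 2 - u * c)) / ((c - 1) * (a + u) * (c + 1)))) + (1 - (((u + c) * Bd * (u ^ 2 - c) * 2) / ((u - 1) * Vd * P2))) * (((a)) ^ 1 * (((a ^ 2 * u * c - a ^ 2 * u + a ^ 2 * c ^ 2 - a ^ 2 * c - a * u ^ 2 * c - a * u ^ 2 + a * c ^ 2 + a * c + u ^ 2 * c ^ 2 + u ^ 2 * c + u * c ^ 2 - u * c - 2 * c ^ 2)) / ((c - 1) * (a + u) * u * (c + 1) * a))) := by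
  field_simp
  all_goals try simp only [hBd, hVd, hP2]
  all_goals ring

private theorem m4_mk_U2_11 (a u c B1 V1 P2 : F)
    (hB1 : B1 = 2 * a - c + 1)
    (hV1 : V1 = 2 * u + c + 1)
    (hP2 : P2 = 2 * a ^ 2 * u ^ 2 + a ^ 2 * u * c + a ^ 2 * u - a * u ^ 2 * c + a * u ^ 2 + a * c ^ 2 - a * c + u * c ^ 2 + u * c + 2 * c ^ 2)
    (n7 : (a + u) ≠ 0)
    (n13 : V1 ≠ 0)
    (n6 : (c + 1) ≠ 0)
    (n0 : a ≠ 0)
    (n4 : (u - 1) ≠ 0)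
    (n21 : P2 ≠ 0)
    (n5 : (c - 1) ≠ 0)
    (n1 : u ≠ 0) :
    ((a)) ^ 2 * (((a ^ 2 * u * c + 3 * a ^ 2 * u + 3 * a ^ 2 * c + a ^ 2 + a * u ^ 2 * c + a * u ^ 2 - a * c ^ 2 - a * c + u ^ 2 * c + u ^ 2 + u * c ^ 2 + 3 * u * c + 2 * c ^ 2)) / ((a + u) * V1 * (c + 1) * a)) = (1 - ((a * u * (u + c) * B1 * (u ^ 2 - c) * 2) / ((u - 1) * V1 * P2))) * (((a)) * (((2 * a ^ 2 * u ^ 2 + a ^ 2 * u * c - a ^ 2 * u - a ^ 2 * c - a ^ 2 - a * u ^ 2 * c - a * u ^ 2 + a * c ^ 2 + a * c + u ^ 2 * c - u ^ 2 + u * c ^ 2 - u * c)) / ((c - 1) * (a + u) * (c + 1)))) + ((a * u * (u + c) * B1 * (u ^ 2 - c) * 2) / ((u - 1) * V1 * P2)) * (((a)) ^ 1 * (((a ^ 2 * u * c - a ^ 2 * u + a ^ 2 * c ^ 2 - a ^ 2 * c - a * u ^ 2 * c - a * u ^ 2 + a * c ^ 2 + a * c + u ^ 2 * c ^ 2 + u ^ 2 * c + u * c ^ 2 - u * c - 2 * c ^ 2)) / ((c - 1) * (a + u) * u * (c + 1) * a))) := by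
  field_simp
  all_goals try simp only [hB1, hV1, hP2]
  all_goals ring

private theorem m4_mk_U1_12 (a u c Vd V1 V2 NY B3 K2 : F)
    (hVd : Vd = u * c + u + 2 * c)
    (hV1 : V1 = 2 * u + c + 1)
    (hV2 : V2 = u * c + 3 * u + 3 * c + 1)
    (hNY : NY = a * c - a + u * c + u + 2 * c)
    (hB3 : B3 = 4 * a * u - a * c ^ 2 + 4 * a * c + a - u * c ^ 2 - 4 * u * c + u - 4 * c ^ 2)
    (hK2 : K2 = -2 * a * u - a * c - a + u * c + u + 2 * c)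
    (n5 : (c - 1) ≠ 0)
    (n7 : (a + u) ≠ 0)
    (n15 : (u ^ 2 - c) ≠ 0)
    (n20 : B3 ≠ 0)
    (n11 : Vd ≠ 0)
    (n6 : (c + 1) ≠ 0)
    (n13 : V1 ≠ 0)
    (n0 : a ≠ 0) :
    ((a * K2) / ((c - 1) * (a + u))) = (1 - (1 - (((-1) * Vd * V2 * NY) / ((c - 1) * (u ^ 2 - c) * B3)))) * (((a)) * (((2 * a ^ 2 * u ^ 2 + 3 * a ^ 2 * u * c + a ^ 2 * u + a ^ 2 * c ^ 2 + a ^ 2 * c - a * u ^ 2 * c - a * u ^ 2 + a * c ^ 2 + a * c + u ^ 2 * c ^ 2 + 3 * u ^ 2 * c + 3 * u * c ^ 2 + u * c)) / ((a + u) * Vd * (c + 1)))) + (1 - (((-1) * Vd * V2 * NY) / ((c - 1) * (u ^ 2 - c) * B3))) * (((a)) ^ 2 * (((a ^ 2 * u * c + 3 * a ^ 2 * u + 3 * a ^ 2 * c + a ^ 2 + a * u ^ 2 * c + a * u ^ 2 - a * c ^ 2 - a * c + u ^ 2 * c + u ^ 2 + u * c ^ 2 + 3 * u * c + 2 * c ^ 2)) / ((a + u) * V1 * (c + 1) * a))) := by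
  field_simp
  all_goals try simp only [hVd, hV1, hV2, hNY, hB3, hK2]
  all_goals ring

private theorem m4_mk_U2_12 (a u c Vd V1 V2 NX B3 K2 : F)
    (hVd : Vd = u * c + u + 2 * c)
    (hV1 : V1 = 2 * u + c + 1)
    (hV2 : V2 = u * c + 3 * u + 3 * c + 1)
    (hNX : NX = 2 * a * u + a * c + a - u * c + u)
    (hB3 : B3 = 4 * a * u - a * c ^ 2 + 4 * a * c + a - u * c ^ 2 - 4 * u * c + u - 4 * c ^ 2)
    (hK2 : K2 = -2 * a * u - a * c - a + u * c + u + 2 * c)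
    (n5 : (c - 1) ≠ 0)
    (n7 : (a + u) ≠ 0)
    (n0 : a ≠ 0)
    (n15 : (u ^ 2 - c) ≠ 0)
    (n20 : B3 ≠ 0)
    (n11 : Vd ≠ 0)
    (n6 : (c + 1) ≠ 0)
    (n13 : V1 ≠ 0) :
    ((a)) ^ 3 * ((K2) / ((c - 1) * (a + u) * a)) = (1 - ((c * V1 * V2 * NX) / ((c - 1) * (u ^ 2 - c) * B3))) * (((a)) * (((2 * a ^ 2 * u ^ 2 + 3 * a ^ 2 * u * c + a ^ 2 * u + a ^ 2 * c ^ 2 + a ^ 2 * c - a * u ^ 2 * c - a * u ^ 2 + a * c ^ 2 + a * c + u ^ 2 * c ^ 2 + 3 * u ^ 2 * c + 3 * u * c ^ 2 + u * c)) / ((a + u) * Vd * (c + 1)))) + ((c * V1 * V2 * NX) / ((c - 1) * (u ^ 2 - c) * B3)) * (((a)) ^ 2 * (((a ^ 2 * u * c + 3 * a ^ 2 * u + 3 * a ^ 2 * c + a ^ 2 + a * u ^ 2 * c + a * u ^ 2 - a * c ^ 2 - a * c + u ^ 2 * c + u ^ 2 + u * c ^ 2 + 3 * u * c + 2 * c ^ 2)) / ((a + u) * V1 * (c + 1) * a))) := by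
  field_simp
  all_goals try simp only [hVd, hV1, hV2, hNX, hB3, hK2]
  all_goals ring

private theorem m4_mk_C1_1 (a u c K2 : F)
    (hK2 : K2 = -2 * a * u - a * c - a + u * c + u + 2 * c)
    (n5 : (c - 1) ≠ 0)
    (n7 : (a + u) ≠ 0)
    (n0 : a ≠ 0) :
    ((a)) * ((a * K2) / ((c - 1) * (a + u))) = ((a)) ^ 3 * ((K2) / ((c - 1) * (a + u) * a)) := by
  field_simp
  all_goals try simp only [hK2]
  all_goals ring

private theorem m4_mk_U1_20 (a u c Bd B1 NX : F)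
    (hBd : Bd = a * c - a + 2 * c)
    (hB1 : B1 = 2 * a - c + 1)
    (hNX : NX = 2 * a * u + a * c + a - u * c + u)
    (n5 : (c - 1) ≠ 0)
    (n7 : (a + u) ≠ 0)
    (n10 : Bd ≠ 0)
    (n6 : (c + 1) ≠ 0) :
    (((2 * a ^ 2 * u ^ 2 + a ^ 2 * u * c - a ^ 2 * u + a ^ 2 * c ^ 2 - 3 * a ^ 2 * c - 3 * a * u ^ 2 * c + a * u ^ 2 + 3 * a * c ^ 2 - a * c + u ^ 2 * c ^ 2 - u ^ 2 * c + u * c ^ 2 - u * c)) / ((c - 1) * (a + u) * Bd)) = (1 - (1 - (((u - 1) * NX) / ((c - 1) * (c + 1) * (a + u))))) * (((c * B1) / (Bd)) * ((1))) + (1 - (((u - 1) * NX) / ((c - 1) * (c + 1) * (a + u)))) * (((c * B1) / (Bd)) ^ 0 * ((1))) := by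
  field_simp
  all_goals try simp only [hBd, hB1, hNX]
  all_goals ring

private theorem m4_mk_U2_20 (a u c Bd B1 NY : F)
    (hBd : Bd = a * c - a + 2 * c)
    (hB1 : B1 = 2 * a - c + 1)
    (hNY : NY = a * c - a + u * c + u + 2 * c)
    (n5 : (c - 1) ≠ 0)
    (n7 : (a + u) ≠ 0)
    (n1 : u ≠ 0)
    (n12 : B1 ≠ 0)
    (n6 : (c + 1) ≠ 0)
    (n10 : Bd ≠ 0) :
    ((c * B1) / (Bd)) ^ 1 * (((a ^ 2 * u * c - a ^ 2 * u + a ^ 2 * c - a ^ 2 + a * u ^ 2 * c - 3 * a * u ^ 2 - a * c ^ 2 + 3 * a * c + 3 * u ^ 2 * c - u ^ 2 + u * c ^ 2 - u * c - 2 * c ^ 2)) / ((c - 1) * (a + u) * u * B1)) = (1 - ((c * (u - 1) * NY) / (u * (c - 1) * (c + 1) * (a + u)))) * (((c * B1) / (Bd)) * ((1))) + ((c * (u - 1) * NY) / (u * (c - 1) * (c + 1) * (a + u))) * (((c * B1) / (Bd)) ^ 0 * ((1))) := by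
  field_simp
  all_goals try simp only [hBd, hB1, hNY]
  all_goals ring

private theorem m4_mk_U1_21 (a u c Bd Vd B1 P2 K3 : F)
    (hBd : Bd = a * c - a + 2 * c)
    (hVd : Vd = u * c + u + 2 * c)
    (hB1 : B1 = 2 * a - c + 1)
    (hP2 : P2 = 2 * a ^ 2 * u ^ 2 + a ^ 2 * u * c + a ^ 2 * u - a * u ^ 2 * c + a * u ^ 2 + a * c ^ 2 - a * c + u * c ^ 2 + u * c + 2 * c ^ 2)
    (hK3 : K3 = -a ^ 2 * u * c - a ^ 2 * u - 2 * a ^ 2 * c - a * u ^ 2 * c + a * u ^ 2 + a * c ^ 2 - a * c - 2 * u ^ 2 * c - u * c ^ 2 - u * c)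
    (n7 : (a + u) ≠ 0)
    (n10 : Bd ≠ 0)
    (n21 : P2 ≠ 0)
    (n11 : Vd ≠ 0)
    (n4 : (u - 1) ≠ 0)
    (n5 : (c - 1) ≠ 0)
    (n1 : u ≠ 0)
    (n12 : B1 ≠ 0) :
    (((-2 * a ^ 2 * u ^ 2 - a ^ 2 * u * c - 3 * a ^ 2 * u - a ^ 2 * c - a ^ 2 + a * u ^ 2 * c - 3 * a * u ^ 2 - a * c ^ 2 + 3 * a * c + u ^ 2 * c - u ^ 2 - u * c ^ 2 - 3 * u * c - 4 * c ^ 2) * c * K3) / ((a + u) * Bd * P2 * Vd)) = (1 - (1 - (((u + c) * Bd * (u ^ 2 - c) * 2) / ((u - 1) * Vd * P2)))) * (((c * B1) / (Bd)) * (((2 * a ^ 2 * u ^ 2 + a ^ 2 * u * c - a ^ 2 * u + a ^ 2 * c ^ 2 - 3 * a ^ 2 * c - 3 * a * u ^ 2 * c + a * u ^ 2 + 3 * a * c ^ 2 - a * c + u ^ 2 * c ^ 2 - u ^ 2 * c + u * c ^ 2 - u * c)) / ((c - 1) * (a + u) * Bd))) + (1 - (((u + c) * Bd * (u ^ 2 - c) * 2) / ((u - 1) * Vd * P2))) * (((c * B1) / (Bd)) ^ 1 * (((a ^ 2 * u * c - a ^ 2 * u + a ^ 2 * c - a ^ 2 + a * u ^ 2 * c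 - 3 * a * u ^ 2 - a * c ^ 2 + 3 * a * c + 3 * u ^ 2 * c - u ^ 2 + u * c ^ 2 - u * c - 2 * c ^ 2)) / ((c - 1) * (a + u) * u * B1))) := by
  field_simp
  all_goals try simp only [hBd, hVd, hB1, hP2, hK3]
  all_goals ring

private theorem m4_mk_U2_21 (a u c Bd B1 V1 P2 K3 : F)
    (hBd : Bd = a * c - a + 2 * c)
    (hB1 : B1 = 2 * a - c + 1)
    (hV1 : V1 = 2 * u + c + 1)
    (hP2 : P2 = 2 * a ^ 2 * u ^ 2 + a ^ 2 * u * c + a ^ 2 * u - a * u ^ 2 * c + a * u ^ 2 + a * c ^ 2 - a * c + u * c ^ 2 + u * c + 2 * c ^ 2)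
    (hK3 : K3 = -a ^ 2 * u * c - a ^ 2 * u - 2 * a ^ 2 * c - a * u ^ 2 * c + a * u ^ 2 + a * c ^ 2 - a * c - 2 * u ^ 2 * c - u * c ^ 2 - u * c)
    (n7 : (a + u) ≠ 0)
    (n13 : V1 ≠ 0)
    (n21 : P2 ≠ 0)
    (n2 : c ≠ 0)
    (n12 : B1 ≠ 0)
    (n4 : (u - 1) ≠ 0)
    (n10 : Bd ≠ 0)
    (n5 : (c - 1) ≠ 0)
    (n1 : u ≠ 0) :
    ((c * B1) / (Bd)) ^ 2 * (((-4 * a ^ 2 * u ^ 2 - 3 * a ^ 2 * u * c - a ^ 2 * u - a ^ 2 * c ^ 2 + a ^ 2 * c + 3 * a * u ^ 2 * c - a * u ^ 2 - 3 * a * c ^ 2 + a * c - u ^ 2 * c ^ 2 - u ^ 2 * c - 3 * u * c ^ 2 - u * c - 2 * c ^ 2) * K3) / ((a + u) * V1 * P2 * c * B1)) = (1 - ((a * u * (u + c) * B1 * (u ^ 2 - c) * 2) / ((u - 1) * V1 * P2))) * (((c * B1) / (Bd)) * (((2 * a ^ 2 * u ^ 2 + a ^ 2 * u * c - a ^ 2 * u + a ^ 2 * c ^ 2 - 3 * a ^ 2 * c - 3 * a * u ^ 2 * c + a * u ^ 2 + 3 * a * c ^ 2 - a * c + u ^ 2 * c ^ 2 - u ^ 2 * c + u *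 c ^ 2 - u * c)) / ((c - 1) * (a + u) * Bd))) + ((a * u * (u + c) * B1 * (u ^ 2 - c) * 2) / ((u - 1) * V1 * P2)) * (((c * B1) / (Bd)) ^ 1 * (((a ^ 2 * u * c - a ^ 2 * u + a ^ 2 * c - a ^ 2 + a * u ^ 2 * c - 3 * a * u ^ 2 - a * c ^ 2 + 3 * a * c + 3 * u ^ 2 * c - u ^ 2 + u * c ^ 2 - u * c - 2 * c ^ 2)) / ((c - 1) * (a + u) * u * B1))) := by
  field_simp
  all_goals try simp only [hBd, hB1, hV1, hP2, hK3]
  all_goals ring

private theorem m4_mk_U1_22 (a u c Bd Vd B1 V1 V2 NY B3 P2 K2 K3 : F)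
    (hBd : Bd = a * c - a + 2 * c)
    (hVd : Vd = u * c + u + 2 * c)
    (hB1 : B1 = 2 * a - c + 1)
    (hV1 : V1 = 2 * u + c + 1)
    (hV2 : V2 = u * c + 3 * u + 3 * c + 1)
    (hNY : NY = a * c - a + u * c + u + 2 * c)
    (hB3 : B3 = 4 * a * u - a * c ^ 2 + 4 * a * c + a - u * c ^ 2 - 4 * u * c + u - 4 * c ^ 2)
    (hP2 : P2 = 2 * a ^ 2 * u ^ 2 + a ^ 2 * u * c + a ^ 2 * u - a * u ^ 2 * c + a * u ^ 2 + a * c ^ 2 - a * c + u * c ^ 2 + u * c + 2 * c ^ 2)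
    (hK2 : K2 = -2 * a * u - a * c - a + u * c + u + 2 * c)
    (hK3 : K3 = -a ^ 2 * u * c - a ^ 2 * u - 2 * a ^ 2 * c - a * u ^ 2 * c + a * u ^ 2 + a * c ^ 2 - a * c - 2 * u ^ 2 * c - u * c ^ 2 - u * c)
    (n5 : (c - 1) ≠ 0)
    (n7 : (a + u) ≠ 0)
    (n10 : Bd ≠ 0)
    (n21 : P2 ≠ 0)
    (n15 : (u ^ 2 - c) ≠ 0)
    (n20 : B3 ≠ 0)
    (n11 : Vd ≠ 0)
    (n13 : V1 ≠ 0)
    (n2 : c ≠ 0)
    (n12 : B1 ≠ 0) :
    ((c * B1 * K2 * K3) / ((c - 1) * (a + u) * Bd * P2)) = (1 - (1 - (((-1) * Vd * V2 * NY) / ((c - 1) * (u ^ 2 - c) * B3)))) * (((c * B1) / (Bd)) * (((-2 * a ^ 2 * u ^ 2 - a ^ 2 * u * c - 3 * a ^ 2 * u - a ^ 2 * c - a ^ 2 + a * u ^ 2 * c - 3 * a * u ^ 2 - a * c ^ 2 + 3 * a * c + u ^ 2 * c - u ^ 2 - u * c ^ 2 - 3 * u * c - 4 * c ^ 2) * c * K3) / ((a + u) * Bd * P2 * Vd))) + (1 - (((-1) * Vd * V2 * NY) / ((c - 1) * (u ^ 2 - c) * B3))) * (((c * B1)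 / (Bd)) ^ 2 * (((-4 * a ^ 2 * u ^ 2 - 3 * a ^ 2 * u * c - a ^ 2 * u - a ^ 2 * c ^ 2 + a ^ 2 * c + 3 * a * u ^ 2 * c - a * u ^ 2 - 3 * a * c ^ 2 + a * c - u ^ 2 * c ^ 2 - u ^ 2 * c - 3 * u * c ^ 2 - u * c - 2 * c ^ 2) * K3) / ((a + u) * V1 * P2 * c * B1))) := by
  field_simp
  all_goals try simp only [hBd, hVd, hB1, hV1, hV2, hNY, hB3, hP2, hK2, hK3]
  all_goals ring

private theorem m4_mk_U2_22 (a u c Bd Vd B1 V1 V2 NX B3 P2 K2 K3 : F)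
    (hBd : Bd = a * c - a + 2 * c)
    (hVd : Vd = u * c + u + 2 * c)
    (hB1 : B1 = 2 * a - c + 1)
    (hV1 : V1 = 2 * u + c + 1)
    (hV2 : V2 = u * c + 3 * u + 3 * c + 1)
    (hNX : NX = 2 * a * u + a * c + a - u * c + u)
    (hB3 : B3 = 4 * a * u - a * c ^ 2 + 4 * a * c + a - u * c ^ 2 - 4 * u * c + u - 4 * c ^ 2)
    (hP2 : P2 = 2 * a ^ 2 * u ^ 2 + a ^ 2 * u * c + a ^ 2 * u - a * u ^ 2 * c + a * u ^ 2 + a * c ^ 2 - a * c + u * c ^ 2 + u * c + 2 * c ^ 2)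
    (hK2 : K2 = -2 * a * u - a * c - a + u * c + u + 2 * c)
    (hK3 : K3 = -a ^ 2 * u * c - a ^ 2 * u - 2 * a ^ 2 * c - a * u ^ 2 * c + a * u ^ 2 + a * c ^ 2 - a * c - 2 * u ^ 2 * c - u * c ^ 2 - u * c)
    (n5 : (c - 1) ≠ 0)
    (n7 : (a + u) ≠ 0)
    (n21 : P2 ≠ 0)
    (n2 : c ≠ 0)
    (n12 : B1 ≠ 0)
    (n15 : (u ^ 2 - c) ≠ 0)
    (n20 : B3 ≠ 0)
    (n10 : Bd ≠ 0)
    (n11 : Vd ≠ 0)
    (n13 : V1 ≠ 0) :
    ((c * B1) / (Bd)) ^ 3 * ((Bd * K2 * K3) / ((c - 1) * (a + u) * P2 * c * B1)) = (1 - ((c * V1 * V2 * NX) / ((c - 1) * (u ^ 2 - c) * B3))) * (((c * B1) / (Bd)) * (((-2 * a ^ 2 * u ^ 2 - a ^ 2 * u * c - 3 * a ^ 2 * u - a ^ 2 * c - a ^ 2 + a * u ^ 2 * c - 3 * a * u ^ 2 - a * c ^ 2 + 3 * a * c + u ^ 2 * c - u ^ 2 - u * c ^ 2 - 3 * u * c - 4 * c ^ 2) * c * K3) / ((a + u) * Bd * P2 * Vd))) + ((c * V1 * V2 * NX) / ((c - 1) * (u ^ 2 - c) * B3)) * (((c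 * B1) / (Bd)) ^ 2 * (((-4 * a ^ 2 * u ^ 2 - 3 * a ^ 2 * u * c - a ^ 2 * u - a ^ 2 * c ^ 2 + a ^ 2 * c + 3 * a * u ^ 2 * c - a * u ^ 2 - 3 * a * c ^ 2 + a * c - u ^ 2 * c ^ 2 - u ^ 2 * c - 3 * u * c ^ 2 - u * c - 2 * c ^ 2) * K3) / ((a + u) * V1 * P2 * c * B1))) := by
  field_simp
  all_goals try simp only [hBd, hVd, hB1, hV1, hV2, hNX, hB3, hP2, hK2, hK3]
  all_goals ring

private theorem m4_mk_C1_2 (a u c Bd B1 P2 K2 K3 : F)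
    (hBd : Bd = a * c - a + 2 * c)
    (hB1 : B1 = 2 * a - c + 1)
    (hP2 : P2 = 2 * a ^ 2 * u ^ 2 + a ^ 2 * u * c + a ^ 2 * u - a * u ^ 2 * c + a * u ^ 2 + a * c ^ 2 - a * c + u * c ^ 2 + u * c + 2 * c ^ 2)
    (hK2 : K2 = -2 * a * u - a * c - a + u * c + u + 2 * c)
    (hK3 : K3 = -a ^ 2 * u * c - a ^ 2 * u - 2 * a ^ 2 * c - a * u ^ 2 * c + a * u ^ 2 + a * c ^ 2 - a * c - 2 * u ^ 2 * c - u * c ^ 2 - u * c)
    (n10 : Bd ≠ 0)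
    (n5 : (c - 1) ≠ 0)
    (n7 : (a + u) ≠ 0)
    (n21 : P2 ≠ 0)
    (n2 : c ≠ 0)
    (n12 : B1 ≠ 0) :
    ((c * B1) / (Bd)) * ((c * B1 * K2 * K3) / ((c - 1) * (a + u) * Bd * P2)) = ((c * B1) / (Bd)) ^ 3 * ((Bd * K2 * K3) / ((c - 1) * (a + u) * P2 * c * B1)) := by
  field_simp
  all_goals try simp only [hBd, hB1, hP2, hK2, hK3]
  all_goals ring

private theorem m4_mk_U1_30 (a u c NX K1 : F)
    (hNX : NX = 2 * a * u + a * c + a - u * c + u)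
    (hK1 : K1 = 2 * a * u + a * c - a - u * c + u + 2 * c)
    (n7 : (a + u) ≠ 0)
    (n6 : (c + 1) ≠ 0)
    (n5 : (c - 1) ≠ 0) :
    ((u * K1) / ((a + u) * (c + 1))) = (1 - (1 - (((u - 1) * NX) / ((c - 1) * (c + 1) * (a + u))))) * (((c)) * ((1))) + (1 - (((u - 1) * NX) / ((c - 1) * (c + 1) * (a + u)))) * (((c)) ^ 0 * ((1))) := by
  field_simp
  all_goals try simp only [hNX, hK1]
  all_goals ring

private theorem m4_mk_U2_30 (a u c NY K1 : F)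
    (hNY : NY = a * c - a + u * c + u + 2 * c)
    (hK1 : K1 = 2 * a * u + a * c - a - u * c + u + 2 * c)
    (n7 : (a + u) ≠ 0)
    (n1 : u ≠ 0)
    (n6 : (c + 1) ≠ 0)
    (n5 : (c - 1) ≠ 0) :
    ((c)) ^ 1 * ((K1) / ((a + u) * u * (c + 1))) = (1 - ((c * (u - 1) * NY) / (u * (c - 1) * (c + 1) * (a + u)))) * (((c)) * ((1))) + ((c * (u - 1) * NY) / (u * (c - 1) * (c + 1) * (a + u))) * (((c)) ^ 0 * ((1))) := by
  field_simp
  all_goals try simp only [hNY, hK1]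
  all_goals ring

private theorem m4_mk_U1_31 (a u c Bd Vd V1 P2 K1 K3 : F)
    (hBd : Bd = a * c - a + 2 * c)
    (hVd : Vd = u * c + u + 2 * c)
    (hV1 : V1 = 2 * u + c + 1)
    (hP2 : P2 = 2 * a ^ 2 * u ^ 2 + a ^ 2 * u * c + a ^ 2 * u - a * u ^ 2 * c + a * u ^ 2 + a * c ^ 2 - a * c + u * c ^ 2 + u * c + 2 * c ^ 2)
    (hK1 : K1 = 2 * a * u + a * c - a - u * c + u + 2 * c)
    (hK3 : K3 = -a ^ 2 * u * c - a ^ 2 * u - 2 * a ^ 2 * c - a * u ^ 2 * c + a * u ^ 2 + a * c ^ 2 - a * c - 2 * u ^ 2 * c - u * c ^ 2 - u * c)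
    (n7 : (a + u) ≠ 0)
    (n21 : P2 ≠ 0)
    (n11 : Vd ≠ 0)
    (n6 : (c + 1) ≠ 0)
    (n4 : (u - 1) ≠ 0)
    (n1 : u ≠ 0) :
    (((-1) * c * V1 * K1 * K3) / ((a + u) * P2 * Vd * (c + 1))) = (1 - (1 - (((u + c) * Bd * (u ^ 2 - c) * 2) / ((u - 1) * Vd * P2)))) * (((c)) * ((u * K1) / ((a + u) * (c + 1)))) + (1 - (((u + c) * Bd * (u ^ 2 - c) * 2) / ((u - 1) * Vd * P2))) * (((c)) ^ 1 * ((K1) / ((a + u) * u * (c + 1)))) := by
  field_simp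
  all_goals try simp only [hBd, hVd, hV1, hP2, hK1, hK3]
  all_goals ring

private theorem m4_mk_U2_31 (a u c Vd B1 V1 P2 K1 K3 : F)
    (hVd : Vd = u * c + u + 2 * c)
    (hB1 : B1 = 2 * a - c + 1)
    (hV1 : V1 = 2 * u + c + 1)
    (hP2 : P2 = 2 * a ^ 2 * u ^ 2 + a ^ 2 * u * c + a ^ 2 * u - a * u ^ 2 * c + a * u ^ 2 + a * c ^ 2 - a * c + u * c ^ 2 + u * c + 2 * c ^ 2)
    (hK1 : K1 = 2 * a * u + a * c - a - u * c + u + 2 * c)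
    (hK3 : K3 = -a ^ 2 * u * c - a ^ 2 * u - 2 * a ^ 2 * c - a * u ^ 2 * c + a * u ^ 2 + a * c ^ 2 - a * c - 2 * u ^ 2 * c - u * c ^ 2 - u * c)
    (n7 : (a + u) ≠ 0)
    (n13 : V1 ≠ 0)
    (n21 : P2 ≠ 0)
    (n6 : (c + 1) ≠ 0)
    (n2 : c ≠ 0)
    (n4 : (u - 1) ≠ 0)
    (n1 : u ≠ 0) :
    ((c)) ^ 2 * (((-1) * Vd * K1 * K3) / ((a + u) * V1 * P2 * (c + 1) * c)) = (1 - ((a * u * (u + c) * B1 * (u ^ 2 - c) * 2) / ((u - 1) * V1 * P2))) * (((c)) * ((u * K1) / ((a + u) * (c + 1)))) + ((a * u * (u + c) * B1 * (u ^ 2 - c) * 2) / ((u - 1) * V1 * P2)) * (((c)) ^ 1 * ((K1) / ((a + u) * u * (c + 1)))) := by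
  field_simp
  all_goals try simp only [hVd, hB1, hV1, hP2, hK1, hK3]
  all_goals ring

private theorem m4_mk_U1_32 (a u c Vd V1 V2 NY B3 P2 K1 K2 K3 : F)
    (hVd : Vd = u * c + u + 2 * c)
    (hV1 : V1 = 2 * u + c + 1)
    (hV2 : V2 = u * c + 3 * u + 3 * c + 1)
    (hNY : NY = a * c - a + u * c + u + 2 * c)
    (hB3 : B3 = 4 * a * u - a * c ^ 2 + 4 * a * c + a - u * c ^ 2 - 4 * u * c + u - 4 * c ^ 2)
    (hP2 : P2 = 2 * a ^ 2 * u ^ 2 + a ^ 2 * u * c + a ^ 2 * u - a * u ^ 2 * c + a * u ^ 2 + a * c ^ 2 - a * c + u * c ^ 2 + u * c + 2 * c ^ 2)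
    (hK1 : K1 = 2 * a * u + a * c - a - u * c + u + 2 * c)
    (hK2 : K2 = -2 * a * u - a * c - a + u * c + u + 2 * c)
    (hK3 : K3 = -a ^ 2 * u * c - a ^ 2 * u - 2 * a ^ 2 * c - a * u ^ 2 * c + a * u ^ 2 + a * c ^ 2 - a * c - 2 * u ^ 2 * c - u * c ^ 2 - u * c)
    (n7 : (a + u) ≠ 0)
    (n20 : B3 ≠ 0)
    (n21 : P2 ≠ 0)
    (n5 : (c - 1) ≠ 0)
    (n15 : (u ^ 2 - c) ≠ 0)
    (n11 : Vd ≠ 0)
    (n6 : (c + 1) ≠ 0)
    (n13 : V1 ≠ 0)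
    (n2 : c ≠ 0) :
    ((c * K1 * K2 * K3) / ((a + u) * B3 * P2)) = (1 - (1 - (((-1) * Vd * V2 * NY) / ((c - 1) * (u ^ 2 - c) * B3)))) * (((c)) * (((-1) * c * V1 * K1 * K3) / ((a + u) * P2 * Vd * (c + 1)))) + (1 - (((-1) * Vd * V2 * NY) / ((c - 1) * (u ^ 2 - c) * B3))) * (((c)) ^ 2 * (((-1) * Vd * K1 * K3) / ((a + u) * V1 * P2 * (c + 1) * c))) := by
  field_simp
  all_goals try simp only [hVd, hV1, hV2, hNY, hB3, hP2, hK1, hK2, hK3]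
  all_goals ring

private theorem m4_mk_U2_32 (a u c Vd V1 V2 NX B3 P2 K1 K2 K3 : F)
    (hVd : Vd = u * c + u + 2 * c)
    (hV1 : V1 = 2 * u + c + 1)
    (hV2 : V2 = u * c + 3 * u + 3 * c + 1)
    (hNX : NX = 2 * a * u + a * c + a - u * c + u)
    (hB3 : B3 = 4 * a * u - a * c ^ 2 + 4 * a * c + a - u * c ^ 2 - 4 * u * c + u - 4 * c ^ 2)
    (hP2 : P2 = 2 * a ^ 2 * u ^ 2 + a ^ 2 * u * c + a ^ 2 * u - a * u ^ 2 * c + a * u ^ 2 + a * c ^ 2 - a * c + u * c ^ 2 + u * c + 2 * c ^ 2)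
    (hK1 : K1 = 2 * a * u + a * c - a - u * c + u + 2 * c)
    (hK2 : K2 = -2 * a * u - a * c - a + u * c + u + 2 * c)
    (hK3 : K3 = -a ^ 2 * u * c - a ^ 2 * u - 2 * a ^ 2 * c - a * u ^ 2 * c + a * u ^ 2 + a * c ^ 2 - a * c - 2 * u ^ 2 * c - u * c ^ 2 - u * c)
    (n7 : (a + u) ≠ 0)
    (n20 : B3 ≠ 0)
    (n21 : P2 ≠ 0)
    (n2 : c ≠ 0)
    (n5 : (c - 1) ≠ 0)
    (n15 : (u ^ 2 - c) ≠ 0)
    (n11 : Vd ≠ 0)
    (n6 : (c + 1) ≠ 0)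
    (n13 : V1 ≠ 0) :
    ((c)) ^ 3 * ((K1 * K2 * K3) / ((a + u) * B3 * P2 * c)) = (1 - ((c * V1 * V2 * NX) / ((c - 1) * (u ^ 2 - c) * B3))) * (((c)) * (((-1) * c * V1 * K1 * K3) / ((a + u) * P2 * Vd * (c + 1)))) + ((c * V1 * V2 * NX) / ((c - 1) * (u ^ 2 - c) * B3)) * (((c)) ^ 2 * (((-1) * Vd * K1 * K3) / ((a + u) * V1 * P2 * (c + 1) * c))) := by
  field_simp
  all_goals try simp only [hVd, hV1, hV2, hNX, hB3, hP2, hK1, hK2, hK3]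
  all_goals ring

private theorem m4_mk_C1_3 (a u c B3 P2 K1 K2 K3 : F)
    (hB3 : B3 = 4 * a * u - a * c ^ 2 + 4 * a * c + a - u * c ^ 2 - 4 * u * c + u - 4 * c ^ 2)
    (hP2 : P2 = 2 * a ^ 2 * u ^ 2 + a ^ 2 * u * c + a ^ 2 * u - a * u ^ 2 * c + a * u ^ 2 + a * c ^ 2 - a * c + u * c ^ 2 + u * c + 2 * c ^ 2)
    (hK1 : K1 = 2 * a * u + a * c - a - u * c + u + 2 * c)
    (hK2 : K2 = -2 * a * u - a * c - a + u * c + u + 2 * c)
    (hK3 : K3 = -a ^ 2 * u * c - a ^ 2 * u - 2 * a ^ 2 * c - a * u ^ 2 * c + a * u ^ 2 + a * c ^ 2 - a * c - 2 * u ^ 2 * c - u * c ^ 2 - u * c)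
    (n7 : (a + u) ≠ 0)
    (n20 : B3 ≠ 0)
    (n21 : P2 ≠ 0)
    (n2 : c ≠ 0) :
    ((c)) * ((c * K1 * K2 * K3) / ((a + u) * B3 * P2)) = ((c)) ^ 3 * ((K1 * K2 * K3) / ((a + u) * B3 * P2 * c)) := by
  field_simp
  all_goals try simp only [hB3, hP2, hK1, hK2, hK3]
  all_goals ring

private theorem m4_mk_V1_01 (a u c NX : F)
    (hNX : NX = 2 * a * u + a * c + a - u * c + u)
    (n5 : (c - 1) ≠ 0)
    (n7 : (a + u) ≠ 0)
    (n6 : (c + 1) ≠ 0) :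
    (((2 * a ^ 2 * u ^ 2 + a ^ 2 * u * c - a ^ 2 * u - a ^ 2 * c - a ^ 2 - a * u ^ 2 * c - a * u ^ 2 + a * c ^ 2 + a * c + u ^ 2 * c - u ^ 2 + u * c ^ 2 - u * c)) / ((c - 1) * (a + u) * (c + 1))) = (1 - (1 - (((a - 1) * NX) / ((c - 1) * (c + 1) * (a + u))))) * (((u)) * ((1))) + (1 - (((a - 1) * NX) / ((c - 1) * (c + 1) * (a + u)))) * (((u)) ^ 0 * ((1))) := by
  field_simp
  all_goals try simp only [hNX]
  all_goals ring

private theorem m4_mk_V2_01 (a u c NY : F)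
    (hNY : NY = a * c - a + u * c + u + 2 * c)
    (n5 : (c - 1) ≠ 0)
    (n7 : (a + u) ≠ 0)
    (n1 : u ≠ 0)
    (n6 : (c + 1) ≠ 0)
    (n0 : a ≠ 0) :
    ((u)) ^ 1 * (((a ^ 2 * u * c - a ^ 2 * u + a ^ 2 * c ^ 2 - a ^ 2 * c - a * u ^ 2 * c - a * u ^ 2 + a * c ^ 2 + a * c + u ^ 2 * c ^ 2 + u ^ 2 * c + u * c ^ 2 - u * c - 2 * c ^ 2)) / ((c - 1) * (a + u) * u * (c + 1) * a)) = (1 - ((c * (a - 1) * NY) / (a * (c - 1) * (c + 1) * (a + u)))) * (((u)) * ((1))) + ((c * (a - 1) * NY) / (a * (c - 1) * (c + 1) * (a + u))) * (((u)) ^ 0 * ((1))) := by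
  field_simp
  all_goals try simp only [hNY]
  all_goals ring

private theorem m4_mk_V1_11 (a u c Bd Vd P2 : F)
    (hBd : Bd = a * c - a + 2 * c)
    (hVd : Vd = u * c + u + 2 * c)
    (hP2 : P2 = 2 * a ^ 2 * u ^ 2 + a ^ 2 * u * c + a ^ 2 * u - a * u ^ 2 * c + a * u ^ 2 + a * c ^ 2 - a * c + u * c ^ 2 + u * c + 2 * c ^ 2)
    (n5 : (c - 1) ≠ 0)
    (n7 : (a + u) ≠ 0)
    (n10 : Bd ≠ 0)
    (n3 : (a - 1) ≠ 0)
    (n21 : P2 ≠ 0)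
    (n6 : (c + 1) ≠ 0)
    (n1 : u ≠ 0)
    (n0 : a ≠ 0) :
    (((2 * a ^ 2 * u ^ 2 + a ^ 2 * u * c - a ^ 2 * u + a ^ 2 * c ^ 2 - 3 * a ^ 2 * c - 3 * a * u ^ 2 * c + a * u ^ 2 + 3 * a * c ^ 2 - a * c + u ^ 2 * c ^ 2 - u ^ 2 * c + u * c ^ 2 - u * c)) / ((c - 1) * (a + u) * Bd)) = (1 - (1 - (((a - c) * Vd * (a ^ 2 + c) * 2) / ((a - 1) * Bd * P2)))) * (((u)) * (((2 * a ^ 2 * u ^ 2 + a ^ 2 * u * c - a ^ 2 * u - a ^ 2 * c - a ^ 2 - a * u ^ 2 * c - a * u ^ 2 + a * c ^ 2 + a * c + u ^ 2 * c - u ^ 2 + u * c ^ 2 - u * c)) / ((c - 1) * (a + u) * (c + 1)))) + (1 - (((a - c) * Vd * (a ^ 2 + c) * 2) / ((a - 1) * Bd * P2))) * (((u)) ^ 1 * (((a ^ 2 * u * c - a ^ 2 * u + a ^ 2 * c ^ 2 - a ^ 2 * c - a * u ^ 2 * c - a * u ^ 2 + a * c ^ 2 + a * c + u ^ 2 * c ^ 2 + u ^ 2 * c + u * c ^ 2 - u * c - 2 * c ^ 2)) / ((c - 1) * (a + u) * u * (c + 1) * a))) := by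
  field_simp
  all_goals try simp only [hBd, hVd, hP2]
  all_goals ring

private theorem m4_mk_V2_11 (a u c B1 V1 P2 : F)
    (hB1 : B1 = 2 * a - c + 1)
    (hV1 : V1 = 2 * u + c + 1)
    (hP2 : P2 = 2 * a ^ 2 * u ^ 2 + a ^ 2 * u * c + a ^ 2 * u - a * u ^ 2 * c + a * u ^ 2 + a * c ^ 2 - a * c + u * c ^ 2 + u * c + 2 * c ^ 2)
    (n5 : (c - 1) ≠ 0)
    (n7 : (a + u) ≠ 0)
    (n1 : u ≠ 0)
    (n12 : B1 ≠ 0)
    (n3 : (a - 1) ≠ 0)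
    (n21 : P2 ≠ 0)
    (n6 : (c + 1) ≠ 0)
    (n0 : a ≠ 0) :
    ((u)) ^ 2 * (((a ^ 2 * u * c - a ^ 2 * u + a ^ 2 * c - a ^ 2 + a * u ^ 2 * c - 3 * a * u ^ 2 - a * c ^ 2 + 3 * a * c + 3 * u ^ 2 * c - u ^ 2 + u * c ^ 2 - u * c - 2 * c ^ 2)) / ((c - 1) * (a + u) * u * B1)) = (1 - ((a * u * (a - c) * V1 * (a ^ 2 + c) * 2) / ((a - 1) * B1 * P2))) * (((u)) * (((2 * a ^ 2 * u ^ 2 + a ^ 2 * u * c - a ^ 2 * u - a ^ 2 * c - a ^ 2 - a * u ^ 2 * c - a * u ^ 2 + a * c ^ 2 + a * c + u ^ 2 * c - u ^ 2 + u * c ^ 2 - u * c)) / ((c - 1) * (a + u) * (c + 1)))) + ((a * u * (a - c) * V1 * (a ^ 2 + c) * 2) / ((a - 1) * B1 * P2)) * (((u)) ^ 1 * (((a ^ 2 * u * c - a ^ 2 * u + a ^ 2 * c ^ 2 - a ^ 2 * c - a * u ^ 2 * c - a * u ^ 2 + a * c ^ 2 + a * c + u ^ 2 * c ^ 2 + u ^ 2 * c + u * c ^ 2 - u * c - 2 * c ^ 2)) / ((c - 1) * (a + u) * u * (c + 1) * a))) := by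
  field_simp
  all_goals try simp only [hB1, hV1, hP2]
  all_goals ring

private theorem m4_mk_V1_21 (a u c Bd B1 B2 NY B3 K1 : F)
    (hBd : Bd = a * c - a + 2 * c)
    (hB1 : B1 = 2 * a - c + 1)
    (hB2 : B2 = a * c - 3 * a + 3 * c - 1)
    (hNY : NY = a * c - a + u * c + u + 2 * c)
    (hB3 : B3 = 4 * a * u - a * c ^ 2 + 4 * a * c + a - u * c ^ 2 - 4 * u * c + u - 4 * c ^ 2)
    (hK1 : K1 = 2 * a * u + a * c - a - u * c + u + 2 * c)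
    (n7 : (a + u) ≠ 0)
    (n6 : (c + 1) ≠ 0)
    (n14 : (a ^ 2 + c) ≠ 0)
    (n20 : B3 ≠ 0)
    (n5 : (c - 1) ≠ 0)
    (n10 : Bd ≠ 0)
    (n1 : u ≠ 0)
    (n12 : B1 ≠ 0) :
    ((u * K1) / ((a + u) * (c + 1))) = (1 - (1 - (((-1) * Bd * B2 * NY) / ((c + 1) * (a ^ 2 + c) * B3)))) * (((u)) * (((2 * a ^ 2 * u ^ 2 + a ^ 2 * u * c - a ^ 2 * u + a ^ 2 * c ^ 2 - 3 * a ^ 2 * c - 3 * a * u ^ 2 * c + a * u ^ 2 + 3 * a * c ^ 2 - a * c + u ^ 2 * c ^ 2 - u ^ 2 * c + u * c ^ 2 - u * c)) / ((c - 1) * (a + u) * Bd))) + (1 - (((-1) * Bd * B2 * NY) / ((c + 1) * (a ^ 2 + c) * B3))) * (((u)) ^ 2 * (((a ^ 2 * u * c - a ^ 2 * u + a ^ 2 * c - a ^ 2 + a * u ^ 2 * c - 3 * a * u ^ 2 - a * c ^ 2 + 3 * a * c + 3 * u ^ 2 * c - u ^ 2 + u * c ^ 2 - u * c - 2 * c ^ 2)) / ((c - 1) * (a + u) * u * B1))) := by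
  field_simp
  all_goals try simp only [hBd, hB1, hB2, hNY, hB3, hK1]
  all_goals ring

private theorem m4_mk_V2_21 (a u c Bd B1 B2 NX B3 K1 : F)
    (hBd : Bd = a * c - a + 2 * c)
    (hB1 : B1 = 2 * a - c + 1)
    (hB2 : B2 = a * c - 3 * a + 3 * c - 1)
    (hNX : NX = 2 * a * u + a * c + a - u * c + u)
    (hB3 : B3 = 4 * a * u - a * c ^ 2 + 4 * a * c + a - u * c ^ 2 - 4 * u * c + u - 4 * c ^ 2)
    (hK1 : K1 = 2 * a * u + a * c - a - u * c + u + 2 * c)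
    (n7 : (a + u) ≠ 0)
    (n1 : u ≠ 0)
    (n6 : (c + 1) ≠ 0)
    (n14 : (a ^ 2 + c) ≠ 0)
    (n20 : B3 ≠ 0)
    (n5 : (c - 1) ≠ 0)
    (n10 : Bd ≠ 0)
    (n12 : B1 ≠ 0) :
    ((u)) ^ 3 * ((K1) / ((a + u) * u * (c + 1))) = (1 - (((-1) * c * B1 * B2 * NX) / ((c + 1) * (a ^ 2 + c) * B3))) * (((u)) * (((2 * a ^ 2 * u ^ 2 + a ^ 2 * u * c - a ^ 2 * u + a ^ 2 * c ^ 2 - 3 * a ^ 2 * c - 3 * a * u ^ 2 * c + a * u ^ 2 + 3 * a * c ^ 2 - a * c + u ^ 2 * c ^ 2 - u ^ 2 * c + u * c ^ 2 - u * c)) / ((c - 1) * (a + u) * Bd))) + (((-1) * c * B1 * B2 * NX) / ((c + 1) * (a ^ 2 + c) * B3)) * (((u)) ^ 2 * (((a ^ 2 * u * c - a ^ 2 * u + a ^ 2 * c - a ^ 2 + a * u ^ 2 * c - 3 * a * u ^ 2 - a * c ^ 2 + 3 * a * c + 3 * u ^ 2 * c - u ^ 2 + u * c ^ 2 - u * c - 2 * c ^ 2)) / ((c - 1) * (a + u) * u * B1))) := by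
  field_simp
  all_goals try simp only [hBd, hB1, hB2, hNX, hB3, hK1]
  all_goals ring

private theorem m4_mk_C2_1 (a u c K1 : F)
    (hK1 : K1 = 2 * a * u + a * c - a - u * c + u + 2 * c)
    (n7 : (a + u) ≠ 0)
    (n6 : (c + 1) ≠ 0)
    (n1 : u ≠ 0) :
    ((u)) * ((u * K1) / ((a + u) * (c + 1))) = ((u)) ^ 3 * ((K1) / ((a + u) * u * (c + 1))) := by
  field_simp
  all_goals try simp only [hK1]
  all_goals ring

private theorem m4_mk_V1_02 (a u c Vd V1 NX : F)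
    (hVd : Vd = u * c + u + 2 * c)
    (hV1 : V1 = 2 * u + c + 1)
    (hNX : NX = 2 * a * u + a * c + a - u * c + u)
    (n7 : (a + u) ≠ 0)
    (n11 : Vd ≠ 0)
    (n6 : (c + 1) ≠ 0)
    (n5 : (c - 1) ≠ 0) :
    (((2 * a ^ 2 * u ^ 2 + 3 * a ^ 2 * u * c + a ^ 2 * u + a ^ 2 * c ^ 2 + a ^ 2 * c - a * u ^ 2 * c - a * u ^ 2 + a * c ^ 2 + a * c + u ^ 2 * c ^ 2 + 3 * u ^ 2 * c + 3 * u * c ^ 2 + u * c)) / ((a + u) * Vd * (c + 1))) = (1 - (1 - (((a - 1) * NX) / ((c - 1) * (c + 1) * (a + u))))) * (((c * V1) / (Vd)) * ((1))) + (1 - (((a - 1) * NX) / ((c - 1) * (c + 1) * (a + u)))) * (((c * V1) / (Vd)) ^ 0 * ((1))) := by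
  field_simp
  all_goals try simp only [hVd, hV1, hNX]
  all_goals ring

private theorem m4_mk_V2_02 (a u c Vd V1 NY : F)
    (hVd : Vd = u * c + u + 2 * c)
    (hV1 : V1 = 2 * u + c + 1)
    (hNY : NY = a * c - a + u * c + u + 2 * c)
    (n7 : (a + u) ≠ 0)
    (n13 : V1 ≠ 0)
    (n6 : (c + 1) ≠ 0)
    (n0 : a ≠ 0)
    (n5 : (c - 1) ≠ 0)
    (n11 : Vd ≠ 0) :
    ((c * V1) / (Vd)) ^ 1 * (((a ^ 2 * u * c + 3 * a ^ 2 * u + 3 * a ^ 2 * c + a ^ 2 + a * u ^ 2 * c + a * u ^ 2 - a * c ^ 2 - a * c + u ^ 2 * c + u ^ 2 + u * c ^ 2 + 3 * u * c + 2 * c ^ 2)) / ((a + u) * V1 * (c + 1) * a)) = (1 - ((c * (a - 1) * NY) / (a * (c - 1) * (c + 1) * (a + u)))) * (((c * V1) / (Vd)) * ((1))) + ((c * (a - 1) * NY) / (a * (c - 1) * (c + 1) * (a + u))) * (((c * V1) / (Vd)) ^ 0 * ((1))) := by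
  field_simp
  all_goals try simp only [hVd, hV1, hNY]
  all_goals ring

private theorem m4_mk_V1_12 (a u c Bd Vd V1 P2 K3 : F)
    (hBd : Bd = a * c - a + 2 * c)
    (hVd : Vd = u * c + u + 2 * c)
    (hV1 : V1 = 2 * u + c + 1)
    (hP2 : P2 = 2 * a ^ 2 * u ^ 2 + a ^ 2 * u * c + a ^ 2 * u - a * u ^ 2 * c + a * u ^ 2 + a * c ^ 2 - a * c + u * c ^ 2 + u * c + 2 * c ^ 2)
    (hK3 : K3 = -a ^ 2 * u * c - a ^ 2 * u - 2 * a ^ 2 * c - a * u ^ 2 * c + a * u ^ 2 + a * c ^ 2 - a * c - 2 * u ^ 2 * c - u * c ^ 2 - u * c)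
    (n7 : (a + u) ≠ 0)
    (n10 : Bd ≠ 0)
    (n21 : P2 ≠ 0)
    (n11 : Vd ≠ 0)
    (n3 : (a - 1) ≠ 0)
    (n6 : (c + 1) ≠ 0)
    (n13 : V1 ≠ 0)
    (n0 : a ≠ 0) :
    (((-2 * a ^ 2 * u ^ 2 - a ^ 2 * u * c - 3 * a ^ 2 * u - a ^ 2 * c - a ^ 2 + a * u ^ 2 * c - 3 * a * u ^ 2 - a * c ^ 2 + 3 * a * c + u ^ 2 * c - u ^ 2 - u * c ^ 2 - 3 * u * c - 4 * c ^ 2) * c * K3) / ((a + u) * Bd * P2 * Vd)) = (1 - (1 - (((a - c) * Vd * (a ^ 2 + c) * 2) / ((a - 1) * Bd * P2)))) * (((c * V1) / (Vd)) * (((2 * a ^ 2 * u ^ 2 + 3 * a ^ 2 * u * c + a ^ 2 * u + a ^ 2 * c ^ 2 + a ^ 2 * c - a * u ^ 2 * c - a * u ^ 2 + a * c ^ 2 + a * c + u ^ 2 * c ^ 2 + 3 * u ^ 2 * c + 3 * u * c ^ 2 + u * c)) / ((a + u) * Vd * (c + 1)))) + (1 - (((a - c) * Vd * (a ^ 2 + c) * 2) / ((a - 1) * Bd * P2))) * (((c * V1) / (Vd)) ^ 1 * (((a ^ 2 * u * c + 3 * a ^ 2 * u + 3 * a ^ 2 * c + a ^ 2 + a * u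 ^ 2 * c + a * u ^ 2 - a * c ^ 2 - a * c + u ^ 2 * c + u ^ 2 + u * c ^ 2 + 3 * u * c + 2 * c ^ 2)) / ((a + u) * V1 * (c + 1) * a))) := by
  field_simp
  all_goals try simp only [hBd, hVd, hV1, hP2, hK3]
  all_goals ring

private theorem m4_mk_V2_12 (a u c Vd B1 V1 P2 K3 : F)
    (hVd : Vd = u * c + u + 2 * c)
    (hB1 : B1 = 2 * a - c + 1)
    (hV1 : V1 = 2 * u + c + 1)
    (hP2 : P2 = 2 * a ^ 2 * u ^ 2 + a ^ 2 * u * c + a ^ 2 * u - a * u ^ 2 * c + a * u ^ 2 + a * c ^ 2 - a * c + u * c ^ 2 + u * c + 2 * c ^ 2)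
    (hK3 : K3 = -a ^ 2 * u * c - a ^ 2 * u - 2 * a ^ 2 * c - a * u ^ 2 * c + a * u ^ 2 + a * c ^ 2 - a * c - 2 * u ^ 2 * c - u * c ^ 2 - u * c)
    (n7 : (a + u) ≠ 0)
    (n13 : V1 ≠ 0)
    (n21 : P2 ≠ 0)
    (n2 : c ≠ 0)
    (n12 : B1 ≠ 0)
    (n3 : (a - 1) ≠ 0)
    (n11 : Vd ≠ 0)
    (n6 : (c + 1) ≠ 0)
    (n0 : a ≠ 0) :
    ((c * V1) / (Vd)) ^ 2 * (((-4 * a ^ 2 * u ^ 2 - 3 * a ^ 2 * u * c - a ^ 2 * u - a ^ 2 * c ^ 2 + a ^ 2 * c + 3 * a * u ^ 2 * c - a * u ^ 2 - 3 * a * c ^ 2 + a * c - u ^ 2 * c ^ 2 - u ^ 2 * c - 3 * u * c ^ 2 - u * c - 2 * c ^ 2) * K3) / ((a + u) * V1 * P2 * c * B1)) = (1 - ((a * u * (a - c) * V1 * (a ^ 2 + c) * 2) / ((a - 1) * B1 * P2))) * (((c * V1) / (Vd)) * (((2 * a ^ 2 * u ^ 2 + 3 * a ^ 2 * u * c + a ^ 2 * u + a ^ 2 * c ^ 2 + a ^ 2 * c - a * u ^ 2 * c - a * u ^ 2 + a * c ^ 2 + a * c + u ^ 2 * c ^ 2 + 3 * u ^ 2 * c + 3 * u *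 c ^ 2 + u * c)) / ((a + u) * Vd * (c + 1)))) + ((a * u * (a - c) * V1 * (a ^ 2 + c) * 2) / ((a - 1) * B1 * P2)) * (((c * V1) / (Vd)) ^ 1 * (((a ^ 2 * u * c + 3 * a ^ 2 * u + 3 * a ^ 2 * c + a ^ 2 + a * u ^ 2 * c + a * u ^ 2 - a * c ^ 2 - a * c + u ^ 2 * c + u ^ 2 + u * c ^ 2 + 3 * u * c + 2 * c ^ 2)) / ((a + u) * V1 * (c + 1) * a))) := by
  field_simp
  all_goals try simp only [hVd, hB1, hV1, hP2, hK3]
  all_goals ring

private theorem m4_mk_V1_22 (a u c Bd Vd B1 V1 B2 NY B3 P2 K1 K3 : F)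
    (hBd : Bd = a * c - a + 2 * c)
    (hVd : Vd = u * c + u + 2 * c)
    (hB1 : B1 = 2 * a - c + 1)
    (hV1 : V1 = 2 * u + c + 1)
    (hB2 : B2 = a * c - 3 * a + 3 * c - 1)
    (hNY : NY = a * c - a + u * c + u + 2 * c)
    (hB3 : B3 = 4 * a * u - a * c ^ 2 + 4 * a * c + a - u * c ^ 2 - 4 * u * c + u - 4 * c ^ 2)
    (hP2 : P2 = 2 * a ^ 2 * u ^ 2 + a ^ 2 * u * c + a ^ 2 * u - a * u ^ 2 * c + a * u ^ 2 + a * c ^ 2 - a * c + u * c ^ 2 + u * c + 2 * c ^ 2)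
    (hK1 : K1 = 2 * a * u + a * c - a - u * c + u + 2 * c)
    (hK3 : K3 = -a ^ 2 * u * c - a ^ 2 * u - 2 * a ^ 2 * c - a * u ^ 2 * c + a * u ^ 2 + a * c ^ 2 - a * c - 2 * u ^ 2 * c - u * c ^ 2 - u * c)
    (n7 : (a + u) ≠ 0)
    (n21 : P2 ≠ 0)
    (n11 : Vd ≠ 0)
    (n6 : (c + 1) ≠ 0)
    (n14 : (a ^ 2 + c) ≠ 0)
    (n20 : B3 ≠ 0)
    (n10 : Bd ≠ 0)
    (n13 : V1 ≠ 0)
    (n2 : c ≠ 0)
    (n12 : B1 ≠ 0) :
    (((-1) * c * V1 * K1 * K3) / ((a + u) * P2 * Vd * (c + 1))) = (1 - (1 - (((-1) * Bd * B2 * NY) / ((c + 1) * (a ^ 2 + c) * B3)))) * (((c * V1) / (Vd)) * (((-2 * a ^ 2 * u ^ 2 - a ^ 2 * u * c - 3 * a ^ 2 * u - a ^ 2 * c - a ^ 2 + a * u ^ 2 * c - 3 * a * u ^ 2 - a * c ^ 2 + 3 * a * c + u ^ 2 * c - u ^ 2 - u * c ^ 2 - 3 * u * c - 4 * c ^ 2) * c * K3) / ((a + u) * Bd * P2 * Vd))) + (1 - (((-1) * Bd * B2 * NY) / ((c + 1) * (a ^ 2 + c) * B3))) * (((c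 * V1) / (Vd)) ^ 2 * (((-4 * a ^ 2 * u ^ 2 - 3 * a ^ 2 * u * c - a ^ 2 * u - a ^ 2 * c ^ 2 + a ^ 2 * c + 3 * a * u ^ 2 * c - a * u ^ 2 - 3 * a * c ^ 2 + a * c - u ^ 2 * c ^ 2 - u ^ 2 * c - 3 * u * c ^ 2 - u * c - 2 * c ^ 2) * K3) / ((a + u) * V1 * P2 * c * B1))) := by
  field_simp
  all_goals try simp only [hBd, hVd, hB1, hV1, hB2, hNY, hB3, hP2, hK1, hK3]
  all_goals ring

private theorem m4_mk_V2_22 (a u c Bd Vd B1 V1 B2 NX B3 P2 K1 K3 : F)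
    (hBd : Bd = a * c - a + 2 * c)
    (hVd : Vd = u * c + u + 2 * c)
    (hB1 : B1 = 2 * a - c + 1)
    (hV1 : V1 = 2 * u + c + 1)
    (hB2 : B2 = a * c - 3 * a + 3 * c - 1)
    (hNX : NX = 2 * a * u + a * c + a - u * c + u)
    (hB3 : B3 = 4 * a * u - a * c ^ 2 + 4 * a * c + a - u * c ^ 2 - 4 * u * c + u - 4 * c ^ 2)
    (hP2 : P2 = 2 * a ^ 2 * u ^ 2 + a ^ 2 * u * c + a ^ 2 * u - a * u ^ 2 * c + a * u ^ 2 + a * c ^ 2 - a * c + u * c ^ 2 + u * c + 2 * c ^ 2)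
    (hK1 : K1 = 2 * a * u + a * c - a - u * c + u + 2 * c)
    (hK3 : K3 = -a ^ 2 * u * c - a ^ 2 * u - 2 * a ^ 2 * c - a * u ^ 2 * c + a * u ^ 2 + a * c ^ 2 - a * c - 2 * u ^ 2 * c - u * c ^ 2 - u * c)
    (n7 : (a + u) ≠ 0)
    (n13 : V1 ≠ 0)
    (n21 : P2 ≠ 0)
    (n6 : (c + 1) ≠ 0)
    (n2 : c ≠ 0)
    (n14 : (a ^ 2 + c) ≠ 0)
    (n20 : B3 ≠ 0)
    (n11 : Vd ≠ 0)
    (n10 : Bd ≠ 0)
    (n12 : B1 ≠ 0) :
    ((c * V1) / (Vd)) ^ 3 * (((-1) * Vd * K1 * K3) / ((a + u) * V1 * P2 * (c + 1) * c)) = (1 - (((-1) * c * B1 * B2 * NX) / ((c + 1) * (a ^ 2 + c) * B3))) * (((c * V1) / (Vd)) * (((-2 * a ^ 2 * u ^ 2 - a ^ 2 * u * c - 3 * a ^ 2 * u - a ^ 2 * c - a ^ 2 + a * u ^ 2 * c - 3 * a * u ^ 2 - a * c ^ 2 + 3 * a * c + u ^ 2 * c - u ^ 2 - u * c ^ 2 - 3 * u * c - 4 * c ^ 2) * c * K3) / ((a + u) * Bd * P2 * Vd))) + (((-1) * c * B1 * B2 * NX) / ((c + 1) * (a ^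 2 + c) * B3)) * (((c * V1) / (Vd)) ^ 2 * (((-4 * a ^ 2 * u ^ 2 - 3 * a ^ 2 * u * c - a ^ 2 * u - a ^ 2 * c ^ 2 + a ^ 2 * c + 3 * a * u ^ 2 * c - a * u ^ 2 - 3 * a * c ^ 2 + a * c - u ^ 2 * c ^ 2 - u ^ 2 * c - 3 * u * c ^ 2 - u * c - 2 * c ^ 2) * K3) / ((a + u) * V1 * P2 * c * B1))) := by
  field_simp
  all_goals try simp only [hBd, hVd, hB1, hV1, hB2, hNX, hB3, hP2, hK1, hK3]
  all_goals ring

private theorem m4_mk_C2_2 (a u c Vd V1 P2 K1 K3 : F)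
    (hVd : Vd = u * c + u + 2 * c)
    (hV1 : V1 = 2 * u + c + 1)
    (hP2 : P2 = 2 * a ^ 2 * u ^ 2 + a ^ 2 * u * c + a ^ 2 * u - a * u ^ 2 * c + a * u ^ 2 + a * c ^ 2 - a * c + u * c ^ 2 + u * c + 2 * c ^ 2)
    (hK1 : K1 = 2 * a * u + a * c - a - u * c + u + 2 * c)
    (hK3 : K3 = -a ^ 2 * u * c - a ^ 2 * u - 2 * a ^ 2 * c - a * u ^ 2 * c + a * u ^ 2 + a * c ^ 2 - a * c - 2 * u ^ 2 * c - u * c ^ 2 - u * c)
    (n11 : Vd ≠ 0)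
    (n7 : (a + u) ≠ 0)
    (n21 : P2 ≠ 0)
    (n6 : (c + 1) ≠ 0)
    (n13 : V1 ≠ 0)
    (n2 : c ≠ 0) :
    ((c * V1) / (Vd)) * (((-1) * c * V1 * K1 * K3) / ((a + u) * P2 * Vd * (c + 1))) = ((c * V1) / (Vd)) ^ 3 * (((-1) * Vd * K1 * K3) / ((a + u) * V1 * P2 * (c + 1) * c)) := by
  field_simp
  all_goals try simp only [hVd, hV1, hP2, hK1, hK3]
  all_goals ring

private theorem m4_mk_V1_03 (a u c NX K2 : F)
    (hNX : NX = 2 * a * u + a * c + a - u * c + u)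
    (hK2 : K2 = -2 * a * u - a * c - a + u * c + u + 2 * c)
    (n5 : (c - 1) ≠ 0)
    (n7 : (a + u) ≠ 0)
    (n6 : (c + 1) ≠ 0) :
    ((a * K2) / ((c - 1) * (a + u))) = (1 - (1 - (((a - 1) * NX) / ((c - 1) * (c + 1) * (a + u))))) * ((((-1) * c)) * ((1))) + (1 - (((a - 1) * NX) / ((c - 1) * (c + 1) * (a + u)))) * ((((-1) * c)) ^ 0 * ((1))) := by
  field_simp
  all_goals try simp only [hNX, hK2]
  all_goals ring

private theorem m4_mk_V2_03 (a u c NY K2 : F)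
    (hNY : NY = a * c - a + u * c + u + 2 * c)
    (hK2 : K2 = -2 * a * u - a * c - a + u * c + u + 2 * c)
    (n5 : (c - 1) ≠ 0)
    (n7 : (a + u) ≠ 0)
    (n0 : a ≠ 0)
    (n6 : (c + 1) ≠ 0) :
    (((-1) * c)) ^ 1 * ((K2) / ((c - 1) * (a + u) * a)) = (1 - ((c * (a - 1) * NY) / (a * (c - 1) * (c + 1) * (a + u)))) * ((((-1) * c)) * ((1))) + ((c * (a - 1) * NY) / (a * (c - 1) * (c + 1) * (a + u))) * ((((-1) * c)) ^ 0 * ((1))) := by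
  field_simp
  all_goals try simp only [hNY, hK2]
  all_goals ring

private theorem m4_mk_V1_13 (a u c Bd Vd B1 P2 K2 K3 : F)
    (hBd : Bd = a * c - a + 2 * c)
    (hVd : Vd = u * c + u + 2 * c)
    (hB1 : B1 = 2 * a - c + 1)
    (hP2 : P2 = 2 * a ^ 2 * u ^ 2 + a ^ 2 * u * c + a ^ 2 * u - a * u ^ 2 * c + a * u ^ 2 + a * c ^ 2 - a * c + u * c ^ 2 + u * c + 2 * c ^ 2)
    (hK2 : K2 = -2 * a * u - a * c - a + u * c + u + 2 * c)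
    (hK3 : K3 = -a ^ 2 * u * c - a ^ 2 * u - 2 * a ^ 2 * c - a * u ^ 2 * c + a * u ^ 2 + a * c ^ 2 - a * c - 2 * u ^ 2 * c - u * c ^ 2 - u * c)
    (n5 : (c - 1) ≠ 0)
    (n7 : (a + u) ≠ 0)
    (n10 : Bd ≠ 0)
    (n21 : P2 ≠ 0)
    (n3 : (a - 1) ≠ 0)
    (n0 : a ≠ 0) :
    ((c * B1 * K2 * K3) / ((c - 1) * (a + u) * Bd * P2)) = (1 - (1 - (((a - c) * Vd * (a ^ 2 + c) * 2) / ((a - 1) * Bd * P2)))) * ((((-1) * c)) * ((a * K2) / ((c - 1) * (a + u)))) + (1 - (((a - c) * Vd * (a ^ 2 + c) * 2) / ((a - 1) * Bd * P2))) * ((((-1) * c)) ^ 1 * ((K2) / ((c - 1) * (a + u) * a))) := by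
  field_simp
  all_goals try simp only [hBd, hVd, hB1, hP2, hK2, hK3]
  all_goals ring

private theorem m4_mk_V2_13 (a u c Bd B1 V1 P2 K2 K3 : F)
    (hBd : Bd = a * c - a + 2 * c)
    (hB1 : B1 = 2 * a - c + 1)
    (hV1 : V1 = 2 * u + c + 1)
    (hP2 : P2 = 2 * a ^ 2 * u ^ 2 + a ^ 2 * u * c + a ^ 2 * u - a * u ^ 2 * c + a * u ^ 2 + a * c ^ 2 - a * c + u * c ^ 2 + u * c + 2 * c ^ 2)
    (hK2 : K2 = -2 * a * u - a * c - a + u * c + u + 2 * c)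
    (hK3 : K3 = -a ^ 2 * u * c - a ^ 2 * u - 2 * a ^ 2 * c - a * u ^ 2 * c + a * u ^ 2 + a * c ^ 2 - a * c - 2 * u ^ 2 * c - u * c ^ 2 - u * c)
    (n5 : (c - 1) ≠ 0)
    (n7 : (a + u) ≠ 0)
    (n21 : P2 ≠ 0)
    (n2 : c ≠ 0)
    (n12 : B1 ≠ 0)
    (n3 : (a - 1) ≠ 0)
    (n0 : a ≠ 0) :
    (((-1) * c)) ^ 2 * ((Bd * K2 * K3) / ((c - 1) * (a + u) * P2 * c * B1)) = (1 - ((a * u * (a - c) * V1 * (a ^ 2 + c) * 2) / ((a - 1) * B1 * P2))) * ((((-1) * c)) * ((a * K2) / ((c - 1) * (a + u)))) + ((a * u * (a - c) * V1 * (a ^ 2 + c) * 2) / ((a - 1) * B1 * P2)) * ((((-1) * c)) ^ 1 * ((K2) / ((c - 1) * (a + u) * a))) := by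
  field_simp
  all_goals try simp only [hBd, hB1, hV1, hP2, hK2, hK3]
  all_goals ring

private theorem m4_mk_V1_23 (a u c Bd B1 B2 NY B3 P2 K1 K2 K3 : F)
    (hBd : Bd = a * c - a + 2 * c)
    (hB1 : B1 = 2 * a - c + 1)
    (hB2 : B2 = a * c - 3 * a + 3 * c - 1)
    (hNY : NY = a * c - a + u * c + u + 2 * c)
    (hB3 : B3 = 4 * a * u - a * c ^ 2 + 4 * a * c + a - u * c ^ 2 - 4 * u * c + u - 4 * c ^ 2)
    (hP2 : P2 = 2 * a ^ 2 * u ^ 2 + a ^ 2 * u * c + a ^ 2 * u - a * u ^ 2 * c + a * u ^ 2 + a * c ^ 2 - a * c + u * c ^ 2 + u * c + 2 * c ^ 2)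
    (hK1 : K1 = 2 * a * u + a * c - a - u * c + u + 2 * c)
    (hK2 : K2 = -2 * a * u - a * c - a + u * c + u + 2 * c)
    (hK3 : K3 = -a ^ 2 * u * c - a ^ 2 * u - 2 * a ^ 2 * c - a * u ^ 2 * c + a * u ^ 2 + a * c ^ 2 - a * c - 2 * u ^ 2 * c - u * c ^ 2 - u * c)
    (n7 : (a + u) ≠ 0)
    (n20 : B3 ≠ 0)
    (n21 : P2 ≠ 0)
    (n6 : (c + 1) ≠ 0)
    (n14 : (a ^ 2 + c) ≠ 0)
    (n5 : (c - 1) ≠ 0)
    (n10 : Bd ≠ 0)
    (n2 : c ≠ 0)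
    (n12 : B1 ≠ 0) :
    ((c * K1 * K2 * K3) / ((a + u) * B3 * P2)) = (1 - (1 - (((-1) * Bd * B2 * NY) / ((c + 1) * (a ^ 2 + c) * B3)))) * ((((-1) * c)) * ((c * B1 * K2 * K3) / ((c - 1) * (a + u) * Bd * P2))) + (1 - (((-1) * Bd * B2 * NY) / ((c + 1) * (a ^ 2 + c) * B3))) * ((((-1) * c)) ^ 2 * ((Bd * K2 * K3) / ((c - 1) * (a + u) * P2 * c * B1))) := by
  field_simp
  all_goals try simp only [hBd, hB1, hB2, hNY, hB3, hP2, hK1, hK2, hK3]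
  all_goals ring

private theorem m4_mk_V2_23 (a u c Bd B1 B2 NX B3 P2 K1 K2 K3 : F)
    (hBd : Bd = a * c - a + 2 * c)
    (hB1 : B1 = 2 * a - c + 1)
    (hB2 : B2 = a * c - 3 * a + 3 * c - 1)
    (hNX : NX = 2 * a * u + a * c + a - u * c + u)
    (hB3 : B3 = 4 * a * u - a * c ^ 2 + 4 * a * c + a - u * c ^ 2 - 4 * u * c + u - 4 * c ^ 2)
    (hP2 : P2 = 2 * a ^ 2 * u ^ 2 + a ^ 2 * u * c + a ^ 2 * u - a * u ^ 2 * c + a * u ^ 2 + a * c ^ 2 - a * c + u * c ^ 2 + u * c + 2 * c ^ 2)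
    (hK1 : K1 = 2 * a * u + a * c - a - u * c + u + 2 * c)
    (hK2 : K2 = -2 * a * u - a * c - a + u * c + u + 2 * c)
    (hK3 : K3 = -a ^ 2 * u * c - a ^ 2 * u - 2 * a ^ 2 * c - a * u ^ 2 * c + a * u ^ 2 + a * c ^ 2 - a * c - 2 * u ^ 2 * c - u * c ^ 2 - u * c)
    (n7 : (a + u) ≠ 0)
    (n20 : B3 ≠ 0)
    (n21 : P2 ≠ 0)
    (n2 : c ≠ 0)
    (n6 : (c + 1) ≠ 0)
    (n14 : (a ^ 2 + c) ≠ 0)
    (n5 : (c - 1) ≠ 0)
    (n10 : Bd ≠ 0)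
    (n12 : B1 ≠ 0) :
    (((-1) * c)) ^ 3 * ((K1 * K2 * K3) / ((a + u) * B3 * P2 * c)) = (1 - (((-1) * c * B1 * B2 * NX) / ((c + 1) * (a ^ 2 + c) * B3))) * ((((-1) * c)) * ((c * B1 * K2 * K3) / ((c - 1) * (a + u) * Bd * P2))) + (((-1) * c * B1 * B2 * NX) / ((c + 1) * (a ^ 2 + c) * B3)) * ((((-1) * c)) ^ 2 * ((Bd * K2 * K3) / ((c - 1) * (a + u) * P2 * c * B1))) := by
  field_simp
  all_goals try simp only [hBd, hB1, hB2, hNX, hB3, hP2, hK1, hK2, hK3]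
  all_goals ring

private theorem m4_mk_C2_3 (a u c B3 P2 K1 K2 K3 : F)
    (hB3 : B3 = 4 * a * u - a * c ^ 2 + 4 * a * c + a - u * c ^ 2 - 4 * u * c + u - 4 * c ^ 2)
    (hP2 : P2 = 2 * a ^ 2 * u ^ 2 + a ^ 2 * u * c + a ^ 2 * u - a * u ^ 2 * c + a * u ^ 2 + a * c ^ 2 - a * c + u * c ^ 2 + u * c + 2 * c ^ 2)
    (hK1 : K1 = 2 * a * u + a * c - a - u * c + u + 2 * c)
    (hK2 : K2 = -2 * a * u - a * c - a + u * c + u + 2 * c)
    (hK3 : K3 = -a ^ 2 * u * c - a ^ 2 * u - 2 * a ^ 2 * c - a * u ^ 2 * c + a * u ^ 2 + a * c ^ 2 - a * c - 2 * u ^ 2 * c - u * c ^ 2 - u * c)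
    (n7 : (a + u) ≠ 0)
    (n20 : B3 ≠ 0)
    (n21 : P2 ≠ 0)
    (n2 : c ≠ 0) :
    (((-1) * c)) * ((c * K1 * K2 * K3) / ((a + u) * B3 * P2)) = (((-1) * c)) ^ 3 * ((K1 * K2 * K3) / ((a + u) * B3 * P2 * c)) := by
  field_simp
  all_goals try simp only [hB3, hP2, hK1, hK2, hK3]
  all_goals ring

private theorem m4_mk_dt01 (a u c : F)
    (n3 : (a - 1) ≠ 0) :
    ((a)) - ((1)) ≠ 0 := by
  have e : ((a)) - ((1)) = (((a - 1))) := by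
    all_goals ring
  rw [e]
  (first | exact one_ne_zero | assumption | (refine div_ne_zero ?_ ?_ <;> (repeat' apply mul_ne_zero) <;> first | assumption | exact one_ne_zero | exact neg_ne_zero.2 one_ne_zero | (apply pow_ne_zero; assumption)) | ((repeat' apply mul_ne_zero) <;> first | assumption | exact one_ne_zero | exact neg_ne_zero.2 one_ne_zero | (apply pow_ne_zero; assumption)))

private theorem m4_mk_dt02 (a u c Bd B1 : F)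
    (hBd : Bd = a * c - a + 2 * c)
    (hB1 : B1 = 2 * a - c + 1)
    (n10 : Bd ≠ 0)
    (n6 : (c + 1) ≠ 0)
    (n8 : (a - c) ≠ 0) :
    ((c * B1) / (Bd)) - ((1)) ≠ 0 := by
  have e : ((c * B1) / (Bd)) - ((1)) = (((c + 1) * (a - c)) / (Bd)) := by
    field_simp
    all_goals try simp only [hBd, hB1]
    all_goals ring
  rw [e]
  (first | exact one_ne_zero | assumption | (refine div_ne_zero ?_ ?_ <;> (repeat' apply mul_ne_zero) <;> first | assumption | exact one_ne_zero | exact neg_ne_zero.2 one_ne_zero | (apply pow_ne_zero; assumption)) | ((repeat' apply mul_ne_zero) <;> first | assumption | exact one_ne_zero | exact neg_ne_zero.2 one_ne_zero | (apply pow_ne_zero; assumption)))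

private theorem m4_mk_dt12 (a u c Bd B1 : F)
    (hBd : Bd = a * c - a + 2 * c)
    (hB1 : B1 = 2 * a - c + 1)
    (n10 : Bd ≠ 0)
    (n5 : (c - 1) ≠ 0)
    (n14 : (a ^ 2 + c) ≠ 0) :
    ((c * B1) / (Bd)) - ((a)) ≠ 0 := by
  have e : ((c * B1) / (Bd)) - ((a)) = (((-1) * (c - 1) * (a ^ 2 + c)) / (Bd)) := by
    field_simp
    all_goals try simp only [hBd, hB1]
    all_goals ring
  rw [e]
  (first | exact one_ne_zero | assumption | (refine div_ne_zero ?_ ?_ <;> (repeat' apply mul_ne_zero) <;> first | assumption | exact one_ne_zero | exact neg_ne_zero.2 one_ne_zero | (apply pow_ne_zero; assumption)) | ((repeat' apply mul_ne_zero) <;> first | assumption | exact one_ne_zero | exact neg_ne_zero.2 one_ne_zero | (apply pow_ne_zero; assumption)))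

private theorem m4_mk_dt03 (a u c : F)
    (n5 : (c - 1) ≠ 0) :
    ((c)) - ((1)) ≠ 0 := by
  have e : ((c)) - ((1)) = (((c - 1))) := by
    all_goals ring
  rw [e]
  (first | exact one_ne_zero | assumption | (refine div_ne_zero ?_ ?_ <;> (repeat' apply mul_ne_zero) <;> first | assumption | exact one_ne_zero | exact neg_ne_zero.2 one_ne_zero | (apply pow_ne_zero; assumption)) | ((repeat' apply mul_ne_zero) <;> first | assumption | exact one_ne_zero | exact neg_ne_zero.2 one_ne_zero | (apply pow_ne_zero; assumption)))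

private theorem m4_mk_dt13 (a u c : F)
    (n8 : (a - c) ≠ 0) :
    ((c)) - ((a)) ≠ 0 := by
  have e : ((c)) - ((a)) = (((-1) * (a - c))) := by
    all_goals ring
  rw [e]
  (first | exact one_ne_zero | assumption | (refine div_ne_zero ?_ ?_ <;> (repeat' apply mul_ne_zero) <;> first | assumption | exact one_ne_zero | exact neg_ne_zero.2 one_ne_zero | (apply pow_ne_zero; assumption)) | ((repeat' apply mul_ne_zero) <;> first | assumption | exact one_ne_zero | exact neg_ne_zero.2 one_ne_zero | (apply pow_ne_zero; assumption)))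

private theorem m4_mk_dt23 (a u c Bd B1 B2 : F)
    (hBd : Bd = a * c - a + 2 * c)
    (hB1 : B1 = 2 * a - c + 1)
    (hB2 : B2 = a * c - 3 * a + 3 * c - 1)
    (n10 : Bd ≠ 0)
    (n2 : c ≠ 0)
    (n16 : B2 ≠ 0) :
    ((c)) - ((c * B1) / (Bd)) ≠ 0 := by
  have e : ((c)) - ((c * B1) / (Bd)) = ((c * B2) / (Bd)) := by
    field_simp
    all_goals try simp only [hBd, hB1, hB2]
    all_goals ring
  rw [e]
  (first | exact one_ne_zero | assumption | (refine div_ne_zero ?_ ?_ <;> (repeat' apply mul_ne_zero) <;> first | assumption | exact one_ne_zero | exact neg_ne_zero.2 one_ne_zero | (apply pow_ne_zero; assumption)) | ((repeat' apply mul_ne_zero) <;> first | assumption | exact one_ne_zero | exact neg_ne_zero.2 one_ne_zero | (apply pow_ne_zero; assumption)))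

private theorem m4_mk_ds01 (a u c : F)
    (n4 : (u - 1) ≠ 0) :
    ((u)) - ((1)) ≠ 0 := by
  have e : ((u)) - ((1)) = (((u - 1))) := by
    all_goals ring
  rw [e]
  (first | exact one_ne_zero | assumption | (refine div_ne_zero ?_ ?_ <;> (repeat' apply mul_ne_zero) <;> first | assumption | exact one_ne_zero | exact neg_ne_zero.2 one_ne_zero | (apply pow_ne_zero; assumption)) | ((repeat' apply mul_ne_zero) <;> first | assumption | exact one_ne_zero | exact neg_ne_zero.2 one_ne_zero | (apply pow_ne_zero; assumption)))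

private theorem m4_mk_ds02 (a u c Vd V1 : F)
    (hVd : Vd = u * c + u + 2 * c)
    (hV1 : V1 = 2 * u + c + 1)
    (n11 : Vd ≠ 0)
    (n5 : (c - 1) ≠ 0)
    (n9 : (u + c) ≠ 0) :
    ((c * V1) / (Vd)) - ((1)) ≠ 0 := by
  have e : ((c * V1) / (Vd)) - ((1)) = (((c - 1) * (u + c)) / (Vd)) := by
    field_simp
    all_goals try simp only [hVd, hV1]
    all_goals ring
  rw [e]
  (first | exact one_ne_zero | assumption | (refine div_ne_zero ?_ ?_ <;> (repeat' apply mul_ne_zero) <;> first | assumption | exact one_ne_zero | exact neg_ne_zero.2 one_ne_zero | (apply pow_ne_zero; assumption)) | ((repeat' apply mul_ne_zero) <;> first | assumption | exact one_ne_zero | exact neg_ne_zero.2 one_ne_zero | (apply pow_ne_zero; assumption)))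

private theorem m4_mk_ds12 (a u c Vd V1 : F)
    (hVd : Vd = u * c + u + 2 * c)
    (hV1 : V1 = 2 * u + c + 1)
    (n11 : Vd ≠ 0)
    (n6 : (c + 1) ≠ 0)
    (n15 : (u ^ 2 - c) ≠ 0) :
    ((c * V1) / (Vd)) - ((u)) ≠ 0 := by
  have e : ((c * V1) / (Vd)) - ((u)) = (((-1) * (c + 1) * (u ^ 2 - c)) / (Vd)) := by
    field_simp
    all_goals try simp only [hVd, hV1]
    all_goals ring
  rw [e]
  (first | exact one_ne_zero | assumption | (refine div_ne_zero ?_ ?_ <;> (repeat' apply mul_ne_zero) <;> first | assumption | exact one_ne_zero | exact neg_ne_zero.2 one_ne_zero | (apply pow_ne_zero; assumption)) | ((repeat' apply mul_ne_zero) <;> first | assumption | exact one_ne_zero | exact neg_ne_zero.2 one_ne_zero | (apply pow_ne_zero; assumption)))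

private theorem m4_mk_ds03 (a u c : F)
    (n6 : (c + 1) ≠ 0) :
    (((-1) * c)) - ((1)) ≠ 0 := by
  have e : (((-1) * c)) - ((1)) = (((-1) * (c + 1))) := by
    all_goals ring
  rw [e]
  (first | exact one_ne_zero | assumption | (refine div_ne_zero ?_ ?_ <;> (repeat' apply mul_ne_zero) <;> first | assumption | exact one_ne_zero | exact neg_ne_zero.2 one_ne_zero | (apply pow_ne_zero; assumption)) | ((repeat' apply mul_ne_zero) <;> first | assumption | exact one_ne_zero | exact neg_ne_zero.2 one_ne_zero | (apply pow_ne_zero; assumption)))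

private theorem m4_mk_ds13 (a u c : F)
    (n9 : (u + c) ≠ 0) :
    (((-1) * c)) - ((u)) ≠ 0 := by
  have e : (((-1) * c)) - ((u)) = (((-1) * (u + c))) := by
    all_goals ring
  rw [e]
  (first | exact one_ne_zero | assumption | (refine div_ne_zero ?_ ?_ <;> (repeat' apply mul_ne_zero) <;> first | assumption | exact one_ne_zero | exact neg_ne_zero.2 one_ne_zero | (apply pow_ne_zero; assumption)) | ((repeat' apply mul_ne_zero) <;> first | assumption | exact one_ne_zero | exact neg_ne_zero.2 one_ne_zero | (apply pow_ne_zero; assumption)))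

private theorem m4_mk_ds23 (a u c Vd V1 V2 : F)
    (hVd : Vd = u * c + u + 2 * c)
    (hV1 : V1 = 2 * u + c + 1)
    (hV2 : V2 = u * c + 3 * u + 3 * c + 1)
    (n11 : Vd ≠ 0)
    (n2 : c ≠ 0)
    (n17 : V2 ≠ 0) :
    (((-1) * c)) - ((c * V1) / (Vd)) ≠ 0 := by
  have e : (((-1) * c)) - ((c * V1) / (Vd)) = (((-1) * c * V2) / (Vd)) := by
    field_simp
    all_goals try simp only [hVd, hV1, hV2]
    all_goals ring
  rw [e]
  (first | exact one_ne_zero | assumption | (refine div_ne_zero ?_ ?_ <;> (repeat' apply mul_ne_zero) <;> first | assumption | exact one_ne_zero | exact neg_ne_zero.2 one_ne_zero | (apply pow_ne_zero; assumption)) | ((repeat' apply mul_ne_zero) <;> first | assumption | exact one_ne_zero | exact neg_ne_zero.2 one_ne_zero | (apply pow_ne_zero; assumption)))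

private theorem m4_mk_aN0 (a u c NX NY K1 : F)
    (hNX : NX = 2 * a * u + a * c + a - u * c + u)
    (hNY : NY = a * c - a + u * c + u + 2 * c)
    (hK1 : K1 = 2 * a * u + a * c - a - u * c + u + 2 * c)
    (n5 : (c - 1) ≠ 0)
    (n6 : (c + 1) ≠ 0)
    (n7 : (a + u) ≠ 0)
    (n1 : u ≠ 0)
    (n15 : (u ^ 2 - c) ≠ 0)
    (n22 : K1 ≠ 0) :
    1 - (((u - 1) * NX) / ((c - 1) * (c + 1) * (a + u))) - ((c * (u - 1) * NY) / (u * (c - 1) * (c + 1) * (a + u))) ≠ 0 := by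
  have e : 1 - (((u - 1) * NX) / ((c - 1) * (c + 1) * (a + u))) - ((c * (u - 1) * NY) / (u * (c - 1) * (c + 1) * (a + u))) = (((-1) * (u ^ 2 - c) * K1) / ((c - 1) * (a + u) * u * (c + 1))) := by
    field_simp
    all_goals try simp only [hNX, hNY, hK1]
    all_goals ring
  rw [e]
  (first | exact one_ne_zero | assumption | (refine div_ne_zero ?_ ?_ <;> (repeat' apply mul_ne_zero) <;> first | assumption | exact one_ne_zero | exact neg_ne_zero.2 one_ne_zero | (apply pow_ne_zero; assumption)) | ((repeat' apply mul_ne_zero) <;> first | assumption | exact one_ne_zero | exact neg_ne_zero.2 one_ne_zero | (apply pow_ne_zero; assumption)))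

private theorem m4_mk_aN1 (a u c Bd Vd B1 V1 V2 P2 K3 : F)
    (hBd : Bd = a * c - a + 2 * c)
    (hVd : Vd = u * c + u + 2 * c)
    (hB1 : B1 = 2 * a - c + 1)
    (hV1 : V1 = 2 * u + c + 1)
    (hV2 : V2 = u * c + 3 * u + 3 * c + 1)
    (hP2 : P2 = 2 * a ^ 2 * u ^ 2 + a ^ 2 * u * c + a ^ 2 * u - a * u ^ 2 * c + a * u ^ 2 + a * c ^ 2 - a * c + u * c ^ 2 + u * c + 2 * c ^ 2)
    (hK3 : K3 = -a ^ 2 * u * c - a ^ 2 * u - 2 * a ^ 2 * c - a * u ^ 2 * c + a * u ^ 2 + a * c ^ 2 - a * c - 2 * u ^ 2 * c - u * c ^ 2 - u * c)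
    (n4 : (u - 1) ≠ 0)
    (n11 : Vd ≠ 0)
    (n21 : P2 ≠ 0)
    (n13 : V1 ≠ 0)
    (n1 : u ≠ 0)
    (n5 : (c - 1) ≠ 0)
    (n17 : V2 ≠ 0)
    (n24 : K3 ≠ 0) :
    1 - (((u + c) * Bd * (u ^ 2 - c) * 2) / ((u - 1) * Vd * P2)) - ((a * u * (u + c) * B1 * (u ^ 2 - c) * 2) / ((u - 1) * V1 * P2)) ≠ 0 := by
  have e : 1 - (((u + c) * Bd * (u ^ 2 - c) * 2) / ((u - 1) * Vd * P2)) - ((a * u * (u + c) * B1 * (u ^ 2 - c) * 2) / ((u - 1) * V1 * P2)) = (((-1) * u * (c - 1) * V2 * K3) / (P2 * (u - 1) * Vd * V1)) := by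
    field_simp
    all_goals try simp only [hBd, hVd, hB1, hV1, hV2, hP2, hK3]
    all_goals ring
  rw [e]
  (first | exact one_ne_zero | assumption | (refine div_ne_zero ?_ ?_ <;> (repeat' apply mul_ne_zero) <;> first | assumption | exact one_ne_zero | exact neg_ne_zero.2 one_ne_zero | (apply pow_ne_zero; assumption)) | ((repeat' apply mul_ne_zero) <;> first | assumption | exact one_ne_zero | exact neg_ne_zero.2 one_ne_zero | (apply pow_ne_zero; assumption)))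

private theorem m4_mk_aN2 (a u c Vd V1 V2 NX NY B3 K2 : F)
    (hVd : Vd = u * c + u + 2 * c)
    (hV1 : V1 = 2 * u + c + 1)
    (hV2 : V2 = u * c + 3 * u + 3 * c + 1)
    (hNX : NX = 2 * a * u + a * c + a - u * c + u)
    (hNY : NY = a * c - a + u * c + u + 2 * c)
    (hB3 : B3 = 4 * a * u - a * c ^ 2 + 4 * a * c + a - u * c ^ 2 - 4 * u * c + u - 4 * c ^ 2)
    (hK2 : K2 = -2 * a * u - a * c - a + u * c + u + 2 * c)
    (n5 : (c - 1) ≠ 0)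
    (n15 : (u ^ 2 - c) ≠ 0)
    (n20 : B3 ≠ 0)
    (n6 : (c + 1) ≠ 0)
    (n11 : Vd ≠ 0)
    (n13 : V1 ≠ 0)
    (n23 : K2 ≠ 0) :
    1 - (((-1) * Vd * V2 * NY) / ((c - 1) * (u ^ 2 - c) * B3)) - ((c * V1 * V2 * NX) / ((c - 1) * (u ^ 2 - c) * B3)) ≠ 0 := by
  have e : 1 - (((-1) * Vd * V2 * NY) / ((c - 1) * (u ^ 2 - c) * B3)) - ((c * V1 * V2 * NX) / ((c - 1) * (u ^ 2 - c) * B3)) = (((c + 1) * Vd * V1 * K2) / ((c - 1) * (u ^ 2 - c) * B3)) := by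
    field_simp
    all_goals try simp only [hVd, hV1, hV2, hNX, hNY, hB3, hK2]
    all_goals ring
  rw [e]
  (first | exact one_ne_zero | assumption | (refine div_ne_zero ?_ ?_ <;> (repeat' apply mul_ne_zero) <;> first | assumption | exact one_ne_zero | exact neg_ne_zero.2 one_ne_zero | (apply pow_ne_zero; assumption)) | ((repeat' apply mul_ne_zero) <;> first | assumption | exact one_ne_zero | exact neg_ne_zero.2 one_ne_zero | (apply pow_ne_zero; assumption)))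

private theorem m4_mk_bN0 (a u c NX NY K2 : F)
    (hNX : NX = 2 * a * u + a * c + a - u * c + u)
    (hNY : NY = a * c - a + u * c + u + 2 * c)
    (hK2 : K2 = -2 * a * u - a * c - a + u * c + u + 2 * c)
    (n5 : (c - 1) ≠ 0)
    (n6 : (c + 1) ≠ 0)
    (n7 : (a + u) ≠ 0)
    (n0 : a ≠ 0)
    (n14 : (a ^ 2 + c) ≠ 0)
    (n23 : K2 ≠ 0) :
    1 - (((a - 1) * NX) / ((c - 1) * (c + 1) * (a + u))) - ((c * (a - 1) * NY) / (a * (c - 1) * (c + 1) * (a + u))) ≠ 0 := by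
  have e : 1 - (((a - 1) * NX) / ((c - 1) * (c + 1) * (a + u))) - ((c * (a - 1) * NY) / (a * (c - 1) * (c + 1) * (a + u))) = (((a ^ 2 + c) * K2) / ((c - 1) * (a + u) * a * (c + 1))) := by
    field_simp
    all_goals try simp only [hNX, hNY, hK2]
    all_goals ring
  rw [e]
  (first | exact one_ne_zero | assumption | (refine div_ne_zero ?_ ?_ <;> (repeat' apply mul_ne_zero) <;> first | assumption | exact one_ne_zero | exact neg_ne_zero.2 one_ne_zero | (apply pow_ne_zero; assumption)) | ((repeat' apply mul_ne_zero) <;> first | assumption | exact one_ne_zero | exact neg_ne_zero.2 one_ne_zero | (apply pow_ne_zero; assumption)))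

private theorem m4_mk_bN1 (a u c Bd Vd B1 V1 B2 P2 K3 : F)
    (hBd : Bd = a * c - a + 2 * c)
    (hVd : Vd = u * c + u + 2 * c)
    (hB1 : B1 = 2 * a - c + 1)
    (hV1 : V1 = 2 * u + c + 1)
    (hB2 : B2 = a * c - 3 * a + 3 * c - 1)
    (hP2 : P2 = 2 * a ^ 2 * u ^ 2 + a ^ 2 * u * c + a ^ 2 * u - a * u ^ 2 * c + a * u ^ 2 + a * c ^ 2 - a * c + u * c ^ 2 + u * c + 2 * c ^ 2)
    (hK3 : K3 = -a ^ 2 * u * c - a ^ 2 * u - 2 * a ^ 2 * c - a * u ^ 2 * c + a * u ^ 2 + a * c ^ 2 - a * c - 2 * u ^ 2 * c - u * c ^ 2 - u * c)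
    (n3 : (a - 1) ≠ 0)
    (n10 : Bd ≠ 0)
    (n21 : P2 ≠ 0)
    (n12 : B1 ≠ 0)
    (n0 : a ≠ 0)
    (n6 : (c + 1) ≠ 0)
    (n16 : B2 ≠ 0)
    (n24 : K3 ≠ 0) :
    1 - (((a - c) * Vd * (a ^ 2 + c) * 2) / ((a - 1) * Bd * P2)) - ((a * u * (a - c) * V1 * (a ^ 2 + c) * 2) / ((a - 1) * B1 * P2)) ≠ 0 := by
  have e : 1 - (((a - c) * Vd * (a ^ 2 + c) * 2) / ((a - 1) * Bd * P2)) - ((a * u * (a - c) * V1 * (a ^ 2 + c) * 2) / ((a - 1) * B1 * P2)) = (((-1) * a * (c + 1) * B2 * K3) / (P2 * Bd * (a - 1) * B1)) := by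
    field_simp
    all_goals try simp only [hBd, hVd, hB1, hV1, hB2, hP2, hK3]
    all_goals ring
  rw [e]
  (first | exact one_ne_zero | assumption | (refine div_ne_zero ?_ ?_ <;> (repeat' apply mul_ne_zero) <;> first | assumption | exact one_ne_zero | exact neg_ne_zero.2 one_ne_zero | (apply pow_ne_zero; assumption)) | ((repeat' apply mul_ne_zero) <;> first | assumption | exact one_ne_zero | exact neg_ne_zero.2 one_ne_zero | (apply pow_ne_zero; assumption)))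

private theorem m4_mk_bN2 (a u c Bd B1 B2 NX NY B3 K1 : F)
    (hBd : Bd = a * c - a + 2 * c)
    (hB1 : B1 = 2 * a - c + 1)
    (hB2 : B2 = a * c - 3 * a + 3 * c - 1)
    (hNX : NX = 2 * a * u + a * c + a - u * c + u)
    (hNY : NY = a * c - a + u * c + u + 2 * c)
    (hB3 : B3 = 4 * a * u - a * c ^ 2 + 4 * a * c + a - u * c ^ 2 - 4 * u * c + u - 4 * c ^ 2)
    (hK1 : K1 = 2 * a * u + a * c - a - u * c + u + 2 * c)
    (n6 : (c + 1) ≠ 0)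
    (n14 : (a ^ 2 + c) ≠ 0)
    (n20 : B3 ≠ 0)
    (n5 : (c - 1) ≠ 0)
    (n10 : Bd ≠ 0)
    (n12 : B1 ≠ 0)
    (n22 : K1 ≠ 0) :
    1 - (((-1) * Bd * B2 * NY) / ((c + 1) * (a ^ 2 + c) * B3)) - (((-1) * c * B1 * B2 * NX) / ((c + 1) * (a ^ 2 + c) * B3)) ≠ 0 := by
  have e : 1 - (((-1) * Bd * B2 * NY) / ((c + 1) * (a ^ 2 + c) * B3)) - (((-1) * c * B1 * B2 * NX) / ((c + 1) * (a ^ 2 + c) * B3)) = (((c - 1) * Bd * B1 * K1) / ((a ^ 2 + c) * B3 * (c + 1))) := by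
    field_simp
    all_goals try simp only [hBd, hB1, hB2, hNX, hNY, hB3, hK1]
    all_goals ring
  rw [e]
  (first | exact one_ne_zero | assumption | (refine div_ne_zero ?_ ?_ <;> (repeat' apply mul_ne_zero) <;> first | assumption | exact one_ne_zero | exact neg_ne_zero.2 one_ne_zero | (apply pow_ne_zero; assumption)) | ((repeat' apply mul_ne_zero) <;> first | assumption | exact one_ne_zero | exact neg_ne_zero.2 one_ne_zero | (apply pow_ne_zero; assumption)))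

theorem m4_mk (a u c Bd Vd B1 V1 B2 V2 NX NY B3 P2 K1 K2 K3 : F)
    (hBd : Bd = a * c - a + 2 * c)
    (hVd : Vd = u * c + u + 2 * c)
    (hB1 : B1 = 2 * a - c + 1)
    (hV1 : V1 = 2 * u + c + 1)
    (hB2 : B2 = a * c - 3 * a + 3 * c - 1)
    (hV2 : V2 = u * c + 3 * u + 3 * c + 1)
    (hNX : NX = 2 * a * u + a * c + a - u * c + u)
    (hNY : NY = a * c - a + u * c + u + 2 * c)
    (hB3 : B3 = 4 * a * u - a * c ^ 2 + 4 * a * c + a - u * c ^ 2 - 4 * u * c + u - 4 * c ^ 2)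
    (hP2 : P2 = 2 * a ^ 2 * u ^ 2 + a ^ 2 * u * c + a ^ 2 * u - a * u ^ 2 * c + a * u ^ 2 + a * c ^ 2 - a * c + u * c ^ 2 + u * c + 2 * c ^ 2)
    (hK1 : K1 = 2 * a * u + a * c - a - u * c + u + 2 * c)
    (hK2 : K2 = -2 * a * u - a * c - a + u * c + u + 2 * c)
    (hK3 : K3 = -a ^ 2 * u * c - a ^ 2 * u - 2 * a ^ 2 * c - a * u ^ 2 * c + a * u ^ 2 + a * c ^ 2 - a * c - 2 * u ^ 2 * c - u * c ^ 2 - u * c)
    (n0 : a ≠ 0)
    (n1 : u ≠ 0)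
    (n2 : c ≠ 0)
    (n3 : (a - 1) ≠ 0)
    (n4 : (u - 1) ≠ 0)
    (n5 : (c - 1) ≠ 0)
    (n6 : (c + 1) ≠ 0)
    (n7 : (a + u) ≠ 0)
    (n8 : (a - c) ≠ 0)
    (n9 : (u + c) ≠ 0)
    (n10 : Bd ≠ 0)
    (n11 : Vd ≠ 0)
    (n12 : B1 ≠ 0)
    (n13 : V1 ≠ 0)
    (n14 : (a ^ 2 + c) ≠ 0)
    (n15 : (u ^ 2 - c) ≠ 0)
    (n16 : B2 ≠ 0)
    (n17 : V2 ≠ 0)
    (n18 : NX ≠ 0)
    (n19 : NY ≠ 0)
    (n20 : B3 ≠ 0)
    (n21 : P2 ≠ 0)
    (n22 : K1 ≠ 0)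
    (n23 : K2 ≠ 0)
    (n24 : K3 ≠ 0)
    (n25 : (2 : F) ≠ 0) :
    ∃ g : GForm F 3, g.Closed ∧
      g.t = sq4 (((1))) (((a))) (((c * B1) / (Bd))) (((c))) ∧
      g.s = sq4 (((1))) (((u))) (((c * V1) / (Vd))) ((((-1) * c))) ∧
      g.lam = fun k => 1 - sq4 ((((u - 1) * NX) / ((c - 1) * (c + 1) * (a + u)))) ((((u + c) * Bd * (u ^ 2 - c) * 2) / ((u - 1) * Vd * P2))) ((((-1) * Vd * V2 * NY) / ((c - 1) * (u ^ 2 - c) * B3))) ((((-1) * Vd * V2 * NY) / ((c - 1) * (u ^ 2 - c) * B3))) k := by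
  have aL0 : (((u - 1) * NX) / ((c - 1) * (c + 1) * (a + u))) ≠ 0 := by (first | exact one_ne_zero | assumption | (refine div_ne_zero ?_ ?_ <;> (repeat' apply mul_ne_zero) <;> first | assumption | exact one_ne_zero | exact neg_ne_zero.2 one_ne_zero | (apply pow_ne_zero; assumption)) | ((repeat' apply mul_ne_zero) <;> first | assumption | exact one_ne_zero | exact neg_ne_zero.2 one_ne_zero | (apply pow_ne_zero; assumption)))
  have aM0 : ((c * (u - 1) * NY) / (u * (c - 1) * (c + 1) * (a + u))) ≠ 0 := by (first | exact one_ne_zero | assumption | (refine div_ne_zero ?_ ?_ <;> (repeat' apply mul_ne_zero) <;> first | assumption | exact one_ne_zero | exact neg_ne_zero.2 one_ne_zero | (apply pow_ne_zero; assumption)) | ((repeat' apply mul_ne_zero) <;> first | assumption | exact one_ne_zero | exact neg_ne_zero.2 one_ne_zero | (apply pow_ne_zero; assumption)))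
  have aL1 : (((u + c) * Bd * (u ^ 2 - c) * 2) / ((u - 1) * Vd * P2)) ≠ 0 := by (first | exact one_ne_zero | assumption | (refine div_ne_zero ?_ ?_ <;> (repeat' apply mul_ne_zero) <;> first | assumption | exact one_ne_zero | exact neg_ne_zero.2 one_ne_zero | (apply pow_ne_zero; assumption)) | ((repeat' apply mul_ne_zero) <;> first | assumption | exact one_ne_zero | exact neg_ne_zero.2 one_ne_zero | (apply pow_ne_zero; assumption)))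
  have aM1 : ((a * u * (u + c) * B1 * (u ^ 2 - c) * 2) / ((u - 1) * V1 * P2)) ≠ 0 := by (first | exact one_ne_zero | assumption | (refine div_ne_zero ?_ ?_ <;> (repeat' apply mul_ne_zero) <;> first | assumption | exact one_ne_zero | exact neg_ne_zero.2 one_ne_zero | (apply pow_ne_zero; assumption)) | ((repeat' apply mul_ne_zero) <;> first | assumption | exact one_ne_zero | exact neg_ne_zero.2 one_ne_zero | (apply pow_ne_zero; assumption)))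
  have aL2 : (((-1) * Vd * V2 * NY) / ((c - 1) * (u ^ 2 - c) * B3)) ≠ 0 := by (first | exact one_ne_zero | assumption | (refine div_ne_zero ?_ ?_ <;> (repeat' apply mul_ne_zero) <;> first | assumption | exact one_ne_zero | exact neg_ne_zero.2 one_ne_zero | (apply pow_ne_zero; assumption)) | ((repeat' apply mul_ne_zero) <;> first | assumption | exact one_ne_zero | exact neg_ne_zero.2 one_ne_zero | (apply pow_ne_zero; assumption)))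
  have aM2 : ((c * V1 * V2 * NX) / ((c - 1) * (u ^ 2 - c) * B3)) ≠ 0 := by (first | exact one_ne_zero | assumption | (refine div_ne_zero ?_ ?_ <;> (repeat' apply mul_ne_zero) <;> first | assumption | exact one_ne_zero | exact neg_ne_zero.2 one_ne_zero | (apply pow_ne_zero; assumption)) | ((repeat' apply mul_ne_zero) <;> first | assumption | exact one_ne_zero | exact neg_ne_zero.2 one_ne_zero | (apply pow_ne_zero; assumption)))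
  have bL0 : (((a - 1) * NX) / ((c - 1) * (c + 1) * (a + u))) ≠ 0 := by (first | exact one_ne_zero | assumption | (refine div_ne_zero ?_ ?_ <;> (repeat' apply mul_ne_zero) <;> first | assumption | exact one_ne_zero | exact neg_ne_zero.2 one_ne_zero | (apply pow_ne_zero; assumption)) | ((repeat' apply mul_ne_zero) <;> first | assumption | exact one_ne_zero | exact neg_ne_zero.2 one_ne_zero | (apply pow_ne_zero; assumption)))
  have bM0 : ((c * (a - 1) * NY) / (a * (c - 1) * (c + 1) * (a + u))) ≠ 0 := by (first | exact one_ne_zero | assumption | (refine div_ne_zero ?_ ?_ <;> (repeat' apply mul_ne_zero) <;> first | assumption | exact one_ne_zero | exact neg_ne_zero.2 one_ne_zero | (apply pow_ne_zero; assumption)) | ((repeat' apply mul_ne_zero) <;> first | assumption | exact one_ne_zero | exact neg_ne_zero.2 one_ne_zero | (apply pow_ne_zero; assumption)))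
  have bL1 : (((a - c) * Vd * (a ^ 2 + c) * 2) / ((a - 1) * Bd * P2)) ≠ 0 := by (first | exact one_ne_zero | assumption | (refine div_ne_zero ?_ ?_ <;> (repeat' apply mul_ne_zero) <;> first | assumption | exact one_ne_zero | exact neg_ne_zero.2 one_ne_zero | (apply pow_ne_zero; assumption)) | ((repeat' apply mul_ne_zero) <;> first | assumption | exact one_ne_zero | exact neg_ne_zero.2 one_ne_zero | (apply pow_ne_zero; assumption)))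
  have bM1 : ((a * u * (a - c) * V1 * (a ^ 2 + c) * 2) / ((a - 1) * B1 * P2)) ≠ 0 := by (first | exact one_ne_zero | assumption | (refine div_ne_zero ?_ ?_ <;> (repeat' apply mul_ne_zero) <;> first | assumption | exact one_ne_zero | exact neg_ne_zero.2 one_ne_zero | (apply pow_ne_zero; assumption)) | ((repeat' apply mul_ne_zero) <;> first | assumption | exact one_ne_zero | exact neg_ne_zero.2 one_ne_zero | (apply pow_ne_zero; assumption)))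
  have bL2 : (((-1) * Bd * B2 * NY) / ((c + 1) * (a ^ 2 + c) * B3)) ≠ 0 := by (first | exact one_ne_zero | assumption | (refine div_ne_zero ?_ ?_ <;> (repeat' apply mul_ne_zero) <;> first | assumption | exact one_ne_zero | exact neg_ne_zero.2 one_ne_zero | (apply pow_ne_zero; assumption)) | ((repeat' apply mul_ne_zero) <;> first | assumption | exact one_ne_zero | exact neg_ne_zero.2 one_ne_zero | (apply pow_ne_zero; assumption)))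
  have bM2 : (((-1) * c * B1 * B2 * NX) / ((c + 1) * (a ^ 2 + c) * B3)) ≠ 0 := by (first | exact one_ne_zero | assumption | (refine div_ne_zero ?_ ?_ <;> (repeat' apply mul_ne_zero) <;> first | assumption | exact one_ne_zero | exact neg_ne_zero.2 one_ne_zero | (apply pow_ne_zero; assumption)) | ((repeat' apply mul_ne_zero) <;> first | assumption | exact one_ne_zero | exact neg_ne_zero.2 one_ne_zero | (apply pow_ne_zero; assumption)))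
  refine ⟨{
    t := sq4 (((1))) (((a))) (((c * B1) / (Bd))) (((c)))
    s := sq4 (((1))) (((u))) (((c * V1) / (Vd))) ((((-1) * c)))
    G := sq4 (sq4 (1) (1) (1) (1)) (sq4 (1) ((((2 * a ^ 2 * u ^ 2 + a ^ 2 * u * c - a ^ 2 * u - a ^ 2 * c - a ^ 2 - a * u ^ 2 * c - a * u ^ 2 + a * c ^ 2 + a * c + u ^ 2 * c - u ^ 2 + u * c ^ 2 - u * c)) / ((c - 1) * (a + u) * (c + 1)))) ((((2 * a ^ 2 * u ^ 2 + 3 * a ^ 2 * u * c + a ^ 2 * u + a ^ 2 * c ^ 2 + a ^ 2 * c - a * u ^ 2 * c - a * u ^ 2 + a * c ^ 2 + a * c + u ^ 2 * c ^ 2 + 3 * u ^ 2 * c + 3 * u * c ^ 2 + u * c)) / ((a + u) * Vd * (c + 1)))) (((a * K2) / ((c - 1) * (a + u))))) (sq4 (1) ((((2 * a ^ 2 * u ^ 2 + a ^ 2 * u * c - a ^ 2 * u + a ^ 2 * c ^ 2 - 3 * a ^ 2 * c - 3 * a * u ^ 2 * c + a * u ^ 2 + 3 * a * c ^ 2 - a * c + u ^ 2 * c ^ 2 - u ^ 2 * c + u * c ^ 2 - u * c)) / ((c - 1) * (a + u) * Bd))) ((((-2 * a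 ^ 2 * u ^ 2 - a ^ 2 * u * c - 3 * a ^ 2 * u - a ^ 2 * c - a ^ 2 + a * u ^ 2 * c - 3 * a * u ^ 2 - a * c ^ 2 + 3 * a * c + u ^ 2 * c - u ^ 2 - u * c ^ 2 - 3 * u * c - 4 * c ^ 2) * c * K3) / ((a + u) * Bd * P2 * Vd))) (((c * B1 * K2 * K3) / ((c - 1) * (a + u) * Bd * P2)))) (sq4 (1) (((u * K1) / ((a + u) * (c + 1)))) ((((-1) * c * V1 * K1 * K3) / ((a + u) * P2 * Vd * (c + 1)))) (((c * K1 * K2 * K3) / ((a + u) * B3 * P2))))
    H := sq4 (sq4 (1) (1) (1) (1)) (sq4 (1) ((((a ^ 2 * u * c - a ^ 2 * u + a ^ 2 * c ^ 2 - a ^ 2 * c - a * u ^ 2 * c - a * u ^ 2 + a * c ^ 2 + a * c + u ^ 2 * c ^ 2 + u ^ 2 * c + u * c ^ 2 - u * c - 2 * c ^ 2)) / ((c - 1) * (a + u) * u * (c + 1) * a))) ((((a ^ 2 * u * c + 3 * a ^ 2 * u + 3 * a ^ 2 * c + a ^ 2 + a * u ^ 2 * c + a * u ^ 2 - a * c ^ 2 - a * c + u ^ 2 * c + u ^ 2 + u * c ^ 2 + 3 * u * c + 2 * c ^ 2)) / ((a + u) * V1 *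 (c + 1) * a))) (((K2) / ((c - 1) * (a + u) * a)))) (sq4 (1) ((((a ^ 2 * u * c - a ^ 2 * u + a ^ 2 * c - a ^ 2 + a * u ^ 2 * c - 3 * a * u ^ 2 - a * c ^ 2 + 3 * a * c + 3 * u ^ 2 * c - u ^ 2 + u * c ^ 2 - u * c - 2 * c ^ 2)) / ((c - 1) * (a + u) * u * B1))) ((((-4 * a ^ 2 * u ^ 2 - 3 * a ^ 2 * u * c - a ^ 2 * u - a ^ 2 * c ^ 2 + a ^ 2 * c + 3 * a * u ^ 2 * c - a * u ^ 2 - 3 * a * c ^ 2 + a * c - u ^ 2 * c ^ 2 - u ^ 2 * c - 3 * u * c ^ 2 - u * c - 2 * c ^ 2) * K3) / ((a + u) * V1 * P2 * c * B1))) (((Bd * K2 * K3) / ((c - 1) * (a + u) * P2 * c * B1)))) (sq4 (1) (((K1) / ((a + u) * u * (c + 1)))) ((((-1) * Vd * K1 * K3) / ((a + u) * V1 * P2 * (c + 1) * c))) (((K1 * K2 * K3) / ((a + u) * B3 * P2 * c))))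
    lam := fun k => 1 - sq4 ((((u - 1) * NX) / ((c - 1) * (c + 1) * (a + u)))) ((((u + c) * Bd * (u ^ 2 - c) * 2) / ((u - 1) * Vd * P2))) ((((-1) * Vd * V2 * NY) / ((c - 1) * (u ^ 2 - c) * B3))) ((((-1) * Vd * V2 * NY) / ((c - 1) * (u ^ 2 - c) * B3))) k
    mu := sq4 (((c * (u - 1) * NY) / (u * (c - 1) * (c + 1) * (a + u)))) (((a * u * (u + c) * B1 * (u ^ 2 - c) * 2) / ((u - 1) * V1 * P2))) (((c * V1 * V2 * NX) / ((c - 1) * (u ^ 2 - c) * B3))) (((c * V1 * V2 * NX) / ((c - 1) * (u ^ 2 - c) * B3)))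
    lam' := fun k => 1 - sq4 ((((a - 1) * NX) / ((c - 1) * (c + 1) * (a + u)))) ((((a - c) * Vd * (a ^ 2 + c) * 2) / ((a - 1) * Bd * P2))) ((((-1) * Bd * B2 * NY) / ((c + 1) * (a ^ 2 + c) * B3))) ((((-1) * Bd * B2 * NY) / ((c + 1) * (a ^ 2 + c) * B3))) k
    mu' := sq4 (((c * (a - 1) * NY) / (a * (c - 1) * (c + 1) * (a + u)))) (((a * u * (a - c) * V1 * (a ^ 2 + c) * 2) / ((a - 1) * B1 * P2))) ((((-1) * c * B1 * B2 * NX) / ((c + 1) * (a ^ 2 + c) * B3))) ((((-1) * c * B1 * B2 * NX) / ((c + 1) * (a ^ 2 + c) * B3)))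
    t0 := ?_
    s0 := ?_
    t_ne := ?_
    s_ne := ?_
    t_inj := ?_
    s_inj := ?_
    G0 := ?_
    G0' := ?_
    H0 := ?_
    H0' := ?_
    U1 := ?_
    U2 := ?_
    V1 := ?_
    V2 := ?_
    lam_ne := ?_
    mu_ne := ?_
    lm_ne := ?_
    lam'_ne := ?_
    mu'_ne := ?_
    lm'_ne := ?_ }, ?_, rfl, rfl, rfl⟩
  · rfl
  · rfl
  · intro i hi
    interval_cases i
    · show ((1)) ≠ 0
      (first | exact one_ne_zero | assumption | (refine div_ne_zero ?_ ?_ <;> (repeat' apply mul_ne_zero) <;> first | assumption | exact one_ne_zero | exact neg_ne_zero.2 one_ne_zero | (apply pow_ne_zero; assumption)) | ((repeat' apply mul_ne_zero) <;> first | assumption | exact one_ne_zero | exact neg_ne_zero.2 one_ne_zero | (apply pow_ne_zero; assumption)))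
    · show ((a)) ≠ 0
      (first | exact one_ne_zero | assumption | (refine div_ne_zero ?_ ?_ <;> (repeat' apply mul_ne_zero) <;> first | assumption | exact one_ne_zero | exact neg_ne_zero.2 one_ne_zero | (apply pow_ne_zero; assumption)) | ((repeat' apply mul_ne_zero) <;> first | assumption | exact one_ne_zero | exact neg_ne_zero.2 one_ne_zero | (apply pow_ne_zero; assumption)))
    · show ((c * B1) / (Bd)) ≠ 0
      (first | exact one_ne_zero | assumption | (refine div_ne_zero ?_ ?_ <;> (repeat' apply mul_ne_zero) <;> first | assumption | exact one_ne_zero | exact neg_ne_zero.2 one_ne_zero | (apply pow_ne_zero; assumption)) | ((repeat' apply mul_ne_zero) <;> first | assumption | exact one_ne_zero | exact neg_ne_zero.2 one_ne_zero | (apply pow_ne_zero; assumption)))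
    · show ((c)) ≠ 0
      (first | exact one_ne_zero | assumption | (refine div_ne_zero ?_ ?_ <;> (repeat' apply mul_ne_zero) <;> first | assumption | exact one_ne_zero | exact neg_ne_zero.2 one_ne_zero | (apply pow_ne_zero; assumption)) | ((repeat' apply mul_ne_zero) <;> first | assumption | exact one_ne_zero | exact neg_ne_zero.2 one_ne_zero | (apply pow_ne_zero; assumption)))
  · intro i hi
    interval_cases i
    · show ((1)) ≠ 0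
      (first | exact one_ne_zero | assumption | (refine div_ne_zero ?_ ?_ <;> (repeat' apply mul_ne_zero) <;> first | assumption | exact one_ne_zero | exact neg_ne_zero.2 one_ne_zero | (apply pow_ne_zero; assumption)) | ((repeat' apply mul_ne_zero) <;> first | assumption | exact one_ne_zero | exact neg_ne_zero.2 one_ne_zero | (apply pow_ne_zero; assumption)))
    · show ((u)) ≠ 0
      (first | exact one_ne_zero | assumption | (refine div_ne_zero ?_ ?_ <;> (repeat' apply mul_ne_zero) <;> first | assumption | exact one_ne_zero | exact neg_ne_zero.2 one_ne_zero | (apply pow_ne_zero; assumption)) | ((repeat' apply mul_ne_zero) <;> first | assumption | exact one_ne_zero | exact neg_ne_zero.2 one_ne_zero | (apply pow_ne_zero; assumption)))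
    · show ((c * V1) / (Vd)) ≠ 0
      (first | exact one_ne_zero | assumption | (refine div_ne_zero ?_ ?_ <;> (repeat' apply mul_ne_zero) <;> first | assumption | exact one_ne_zero | exact neg_ne_zero.2 one_ne_zero | (apply pow_ne_zero; assumption)) | ((repeat' apply mul_ne_zero) <;> first | assumption | exact one_ne_zero | exact neg_ne_zero.2 one_ne_zero | (apply pow_ne_zero; assumption)))
    · show (((-1) * c)) ≠ 0
      (first | exact one_ne_zero | assumption | (refine div_ne_zero ?_ ?_ <;> (repeat' apply mul_ne_zero) <;> first | assumption | exact one_ne_zero | exact neg_ne_zero.2 one_ne_zero | (apply pow_ne_zero; assumption)) | ((repeat' apply mul_ne_zero) <;> first | assumption | exact one_ne_zero | exact neg_ne_zero.2 one_ne_zero | (apply pow_ne_zero; assumption)))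
  · intro i j hij hj
    interval_cases j <;> interval_cases i <;> intro e
    · exact (m4_mk_dt01 a u c n3) (sub_eq_zero.2 e.symm)
    · exact (m4_mk_dt02 a u c Bd B1 hBd hB1 n10 n6 n8) (sub_eq_zero.2 e.symm)
    · exact (m4_mk_dt12 a u c Bd B1 hBd hB1 n10 n5 n14) (sub_eq_zero.2 e.symm)
    · exact (m4_mk_dt03 a u c n5) (sub_eq_zero.2 e.symm)
    · exact (m4_mk_dt13 a u c n8) (sub_eq_zero.2 e.symm)
    · exact (m4_mk_dt23 a u c Bd B1 B2 hBd hB1 hB2 n10 n2 n16) (sub_eq_zero.2 e.symm)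
  · intro i j hij hj
    interval_cases j <;> interval_cases i <;> intro e
    · exact (m4_mk_ds01 a u c n4) (sub_eq_zero.2 e.symm)
    · exact (m4_mk_ds02 a u c Vd V1 hVd hV1 n11 n5 n9) (sub_eq_zero.2 e.symm)
    · exact (m4_mk_ds12 a u c Vd V1 hVd hV1 n11 n6 n15) (sub_eq_zero.2 e.symm)
    · exact (m4_mk_ds03 a u c n6) (sub_eq_zero.2 e.symm)
    · exact (m4_mk_ds13 a u c n9) (sub_eq_zero.2 e.symm)
    · exact (m4_mk_ds23 a u c Vd V1 V2 hVd hV1 hV2 n11 n2 n17) (sub_eq_zero.2 e.symm)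
  · intro j hj; interval_cases j <;> rfl
  · intro j hj; interval_cases j <;> rfl
  · intro j hj; interval_cases j <;> rfl
  · intro j hj; interval_cases j <;> rfl
  · intro j k hj hk
    interval_cases j <;> interval_cases k
    · simp only [sq4, sq5, sq6]; ring
    · simp only [sq4, sq5, sq6]; ring
    · simp only [sq4, sq5, sq6]; ring
    · exact m4_mk_U1_10 a u c NX hNX n5 n7 n6
    · exact m4_mk_U1_11 a u c Bd Vd P2 hBd hVd hP2 n7 n11 n6 n4 n21 n5 n1 n0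
    · exact m4_mk_U1_12 a u c Vd V1 V2 NY B3 K2 hVd hV1 hV2 hNY hB3 hK2 n5 n7 n15 n20 n11 n6 n13 n0
    · exact m4_mk_U1_20 a u c Bd B1 NX hBd hB1 hNX n5 n7 n10 n6
    · exact m4_mk_U1_21 a u c Bd Vd B1 P2 K3 hBd hVd hB1 hP2 hK3 n7 n10 n21 n11 n4 n5 n1 n12
    · exact m4_mk_U1_22 a u c Bd Vd B1 V1 V2 NY B3 P2 K2 K3 hBd hVd hB1 hV1 hV2 hNY hB3 hP2 hK2 hK3 n5 n7 n10 n21 n15 n20 n11 n13 n2 n12
    · exact m4_mk_U1_30 a u c NX K1 hNX hK1 n7 n6 n5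
    · exact m4_mk_U1_31 a u c Bd Vd V1 P2 K1 K3 hBd hVd hV1 hP2 hK1 hK3 n7 n21 n11 n6 n4 n1
    · exact m4_mk_U1_32 a u c Vd V1 V2 NY B3 P2 K1 K2 K3 hVd hV1 hV2 hNY hB3 hP2 hK1 hK2 hK3 n7 n20 n21 n5 n15 n11 n6 n13 n2
  · intro j k hj hk
    interval_cases j <;> interval_cases k
    · simp only [sq4, sq5, sq6]; ring
    · simp only [sq4, sq5, sq6]; ring
    · simp only [sq4, sq5, sq6]; ring
    · exact m4_mk_U2_10 a u c NY hNY n5 n7 n1 n6 n0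
    · exact m4_mk_U2_11 a u c B1 V1 P2 hB1 hV1 hP2 n7 n13 n6 n0 n4 n21 n5 n1
    · exact m4_mk_U2_12 a u c Vd V1 V2 NX B3 K2 hVd hV1 hV2 hNX hB3 hK2 n5 n7 n0 n15 n20 n11 n6 n13
    · exact m4_mk_U2_20 a u c Bd B1 NY hBd hB1 hNY n5 n7 n1 n12 n6 n10
    · exact m4_mk_U2_21 a u c Bd B1 V1 P2 K3 hBd hB1 hV1 hP2 hK3 n7 n13 n21 n2 n12 n4 n10 n5 n1
    · exact m4_mk_U2_22 a u c Bd Vd B1 V1 V2 NX B3 P2 K2 K3 hBd hVd hB1 hV1 hV2 hNX hB3 hP2 hK2 hK3 n5 n7 n21 n2 n12 n15 n20 n10 n11 n13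
    · exact m4_mk_U2_30 a u c NY K1 hNY hK1 n7 n1 n6 n5
    · exact m4_mk_U2_31 a u c Vd B1 V1 P2 K1 K3 hVd hB1 hV1 hP2 hK1 hK3 n7 n13 n21 n6 n2 n4 n1
    · exact m4_mk_U2_32 a u c Vd V1 V2 NX B3 P2 K1 K2 K3 hVd hV1 hV2 hNX hB3 hP2 hK1 hK2 hK3 n7 n20 n21 n2 n5 n15 n11 n6 n13
  · intro j k hj hk
    interval_cases j <;> interval_cases k
    · simp only [sq4, sq5, sq6]; ring
    · exact m4_mk_V1_01 a u c NX hNX n5 n7 n6
    · exact m4_mk_V1_02 a u c Vd V1 NX hVd hV1 hNX n7 n11 n6 n5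
    · exact m4_mk_V1_03 a u c NX K2 hNX hK2 n5 n7 n6
    · simp only [sq4, sq5, sq6]; ring
    · exact m4_mk_V1_11 a u c Bd Vd P2 hBd hVd hP2 n5 n7 n10 n3 n21 n6 n1 n0
    · exact m4_mk_V1_12 a u c Bd Vd V1 P2 K3 hBd hVd hV1 hP2 hK3 n7 n10 n21 n11 n3 n6 n13 n0
    · exact m4_mk_V1_13 a u c Bd Vd B1 P2 K2 K3 hBd hVd hB1 hP2 hK2 hK3 n5 n7 n10 n21 n3 n0
    · simp only [sq4, sq5, sq6]; ring
    · exact m4_mk_V1_21 a u c Bd B1 B2 NY B3 K1 hBd hB1 hB2 hNY hB3 hK1 n7 n6 n14 n20 n5 n10 n1 n12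
    · exact m4_mk_V1_22 a u c Bd Vd B1 V1 B2 NY B3 P2 K1 K3 hBd hVd hB1 hV1 hB2 hNY hB3 hP2 hK1 hK3 n7 n21 n11 n6 n14 n20 n10 n13 n2 n12
    · exact m4_mk_V1_23 a u c Bd B1 B2 NY B3 P2 K1 K2 K3 hBd hB1 hB2 hNY hB3 hP2 hK1 hK2 hK3 n7 n20 n21 n6 n14 n5 n10 n2 n12
  · intro j k hj hk
    interval_cases j <;> interval_cases k
    · simp only [sq4, sq5, sq6]; ring
    · exact m4_mk_V2_01 a u c NY hNY n5 n7 n1 n6 n0
    · exact m4_mk_V2_02 a u c Vd V1 NY hVd hV1 hNY n7 n13 n6 n0 n5 n11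
    · exact m4_mk_V2_03 a u c NY K2 hNY hK2 n5 n7 n0 n6
    · simp only [sq4, sq5, sq6]; ring
    · exact m4_mk_V2_11 a u c B1 V1 P2 hB1 hV1 hP2 n5 n7 n1 n12 n3 n21 n6 n0
    · exact m4_mk_V2_12 a u c Vd B1 V1 P2 K3 hVd hB1 hV1 hP2 hK3 n7 n13 n21 n2 n12 n3 n11 n6 n0
    · exact m4_mk_V2_13 a u c Bd B1 V1 P2 K2 K3 hBd hB1 hV1 hP2 hK2 hK3 n5 n7 n21 n2 n12 n3 n0
    · simp only [sq4, sq5, sq6]; ring
    · exact m4_mk_V2_21 a u c Bd B1 B2 NX B3 K1 hBd hB1 hB2 hNX hB3 hK1 n7 n1 n6 n14 n20 n5 n10 n12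
    · exact m4_mk_V2_22 a u c Bd Vd B1 V1 B2 NX B3 P2 K1 K3 hBd hVd hB1 hV1 hB2 hNX hB3 hP2 hK1 hK3 n7 n13 n21 n6 n2 n14 n20 n11 n10 n12
    · exact m4_mk_V2_23 a u c Bd B1 B2 NX B3 P2 K1 K2 K3 hBd hB1 hB2 hNX hB3 hP2 hK1 hK2 hK3 n7 n20 n21 n2 n6 n14 n5 n10 n12
  · intro k hk
    interval_cases k <;> intro e
    · exact aL0 (by simp only [sq4, sq5, sq6] at e; linear_combination -e)
    · exact aL1 (by simp only [sq4, sq5, sq6] at e; linear_combination -e)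
    · exact aL2 (by simp only [sq4, sq5, sq6] at e; linear_combination -e)
  · intro k hk
    interval_cases k
    · exact aM0
    · exact aM1
    · exact aM2
  · intro k hk
    interval_cases k <;> intro e
    · exact (m4_mk_aN0 a u c NX NY K1 hNX hNY hK1 n5 n6 n7 n1 n15 n22) (by simp only [sq4, sq5, sq6] at e; linear_combination e)
    · exact (m4_mk_aN1 a u c Bd Vd B1 V1 V2 P2 K3 hBd hVd hB1 hV1 hV2 hP2 hK3 n4 n11 n21 n13 n1 n5 n17 n24) (by simp only [sq4, sq5, sq6] at e; linear_combination e)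
    · exact (m4_mk_aN2 a u c Vd V1 V2 NX NY B3 K2 hVd hV1 hV2 hNX hNY hB3 hK2 n5 n15 n20 n6 n11 n13 n23) (by simp only [sq4, sq5, sq6] at e; linear_combination e)
  · intro k hk
    interval_cases k <;> intro e
    · exact bL0 (by simp only [sq4, sq5, sq6] at e; linear_combination -e)
    · exact bL1 (by simp only [sq4, sq5, sq6] at e; linear_combination -e)
    · exact bL2 (by simp only [sq4, sq5, sq6] at e; linear_combination -e)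
  · intro k hk
    interval_cases k
    · exact bM0
    · exact bM1
    · exact bM2
  · intro k hk
    interval_cases k <;> intro e
    · exact (m4_mk_bN0 a u c NX NY K2 hNX hNY hK2 n5 n6 n7 n0 n14 n23) (by simp only [sq4, sq5, sq6] at e; linear_combination e)
    · exact (m4_mk_bN1 a u c Bd Vd B1 V1 B2 P2 K3 hBd hVd hB1 hV1 hB2 hP2 hK3 n3 n10 n21 n12 n0 n6 n16 n24) (by simp only [sq4, sq5, sq6] at e; linear_combination e)
    · exact (m4_mk_bN2 a u c Bd B1 B2 NX NY B3 K1 hBd hB1 hB2 hNX hNY hB3 hK1 n6 n14 n20 n5 n10 n12 n22) (by simp only [sq4, sq5, sq6] at e; linear_combination e)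
  · constructor
    · intro j hj
      interval_cases j
      · simp only [sq4, sq5, sq6]; ring
      · exact m4_mk_C1_1 a u c K2 hK2 n5 n7 n0
      · exact m4_mk_C1_2 a u c Bd B1 P2 K2 K3 hBd hB1 hP2 hK2 hK3 n10 n5 n7 n21 n2 n12
      · exact m4_mk_C1_3 a u c B3 P2 K1 K2 K3 hB3 hP2 hK1 hK2 hK3 n7 n20 n21 n2
    · intro k hk
      interval_cases k
      · simp only [sq4, sq5, sq6]; ring
      · exact m4_mk_C2_1 a u c K1 hK1 n7 n6 n1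
      · exact m4_mk_C2_2 a u c Vd V1 P2 K1 K3 hVd hV1 hP2 hK1 hK3 n11 n7 n21 n6 n13 n2
      · exact m4_mk_C2_3 a u c B3 P2 K1 K2 K3 hB3 hP2 hK1 hK2 hK3 n7 n20 n21 n2

end Pool.Agent.Helper54.IP
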