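import Pool.Agent.Helper54.IP.D4Elim

/-!
TH-P phase 2: the family N4, elimination side.
-/

namespace Pool.Agent.Helper54.IP

variable {F : Type*} [Field F]

/-- The family N4 of parameter arrays of dimension 4. -/
structure N4 (t s f : ℕ → F) : Prop where
  t0 : t 0 = 1
  s0 : s 0 = 1
  s1 : s 1 = -t 2
  s2 : s 2 = -t 1
  s3 : s 3 = t 3
  t3 : t 3 = t 1 * t 2
  n1 : t 1 ≠ 0
  n2 : t 2 ≠ 0
  d1 : t 1 ≠ 1
  d2 : t 2 ≠ 1
  d1' : t 1 ≠ -1
  d2' : t 2 ≠ -1
  d12 : t 2 ≠ t 1
  d3 : t 3 ≠ 1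
  f1 : f 1 = t 3 - 1
  f2 : f 2 ≠ 0
  f2' : f 2 ≠ -((t 1 + 1) * (t 2 - 1) * (t 2 - t 1))
  f3 : f 3 = -(t 3 * (t 3 - 1))

theorem n4_elim {g : GForm F 3} (h : g.Closed) {X Y : F} (hx : g.XY X Y) {f : ℕ → F}
    (hf : g.IsPhi f) (hv : g.s 2 = -g.t 1) (hu : g.s 1 = -g.t 2) (hw : g.s 3 = g.t 3)
    (hc : g.t 3 = g.t 1 * g.t 2) (hX : (g.t 3 - 1) * X = 1) (hY : (g.t 3 - 1) * Y = g.t 3) :
    N4 g.t g.s f := by
  have a0 := g.t_ne 1 (by omega)
  have b0 := g.t_ne 2 (by omega)
  have a1 := g.t_sub_one (k := 1) (by omega) (by omega)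
  have b1 := g.t_sub_one (k := 2) (by omega) (by omega)
  have c1 := g.t_sub_one (k := 3) (by omega) (by omega)
  have hab := sub_ne_zero.2 (g.t_inj 1 2 (by omega) (by omega)).symm
  have u1 := g.s_sub_one (k := 1) (by omega) (by omega)
  have v1 := g.s_sub_one (k := 2) (by omega) (by omega)
  have a1' : g.t 1 + 1 ≠ 0 := fun e => v1 (by rw [hv]; linear_combination -e)
  have b1' : g.t 2 + 1 ≠ 0 := fun e => u1 (by rw [hu]; linear_combination -e)
  have ff1 := hf.one (by omega) hx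
  have ff3 := hf.three (by omega) hx
  have lp := hf 1 (by omega)
  simp only [Finset.prod_range_succ, Finset.range_zero, Finset.prod_empty, one_mul,
    g.s0] at lp
  have G11 := hx.G1 (by omega) (k := 1) (by omega)
  have H11 := hx.H1 (by omega) (k := 1) (by omega)
  have G13 := hx.G1 (by omega) (k := 3) (by omega)
  have G21 := hx.Gk1 (by omega) (k := 2) (by omega)
  have H21 := hx.Hk1 (by omega) (k := 2) (by omega)
  have p1 := g.U1 1 1 (by omega) (by omega)
  have p2 := g.U2 1 1 (by omega) (by omega)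
  have p3 := g.U1 1 2 (by omega) (by omega)
  have p4 := g.U2 1 2 (by omega) (by omega)
  have pc := h.row 1 (by omega)
  have q1 := g.U1 2 1 (by omega) (by omega)
  have q2 := g.U2 2 1 (by omega) (by omega)
  have q3 := g.U1 2 2 (by omega) (by omega)
  have q4 := g.U2 2 2 (by omega) (by omega)
  have qc := h.row 2 (by omega)
  have lm1 := g.lm_ne 1 (by omega)
  have f2ne := hf.ne (k := 1) (by omega)
  rw [hu, hv, hw] at ff3
  rw [hu, hv] at lp
  rw [hu] at G11 H11 G21 H21
  rw [hw] at G13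
  rw [hc] at c1 hX hY ff3 G13
  simp only [pow_one, Nat.reduceAdd] at p1 p2 q1 q2
  simp only [Nat.reduceAdd] at p3 p4 q3 q4 lp ff3 f2ne
  refine ⟨g.t0, g.s0, hu, hv, hw, hc, a0, b0, sub_ne_zero.1 a1, sub_ne_zero.1 b1,
    fun e => a1' (by rw [e]; ring), fun e => b1' (by rw [e]; ring), sub_ne_zero.1 hab,
    ?_, ?_, f2ne, ?_, ?_⟩
  · rw [hc]; exact sub_ne_zero.1 c1
  all_goals
    generalize g.t 1 = a at *
    generalize g.t 2 = b at *
  · rw [hc]
    linear_combination (a * b - 1) * ff1 - f 1 * hX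
  · intro e
    apply lm1
    have G11' : (a * b - 1) * g.G 1 1 = b - a := by
      linear_combination (a * b - 1) * G11 - (a - 1) * (b + 1) * hX
    have H11' : (a * b - 1) * g.H 1 1 = b - a := by
      apply mul_left_cancel₀ (mul_ne_zero a0 b0)
      linear_combination (-(a * b - 1)) * H11 - (a - 1) * (b + 1) * hY
    have hz : g.H 1 1 = g.G 1 1 := by
      apply mul_left_cancel₀ c1
      linear_combination H11' - G11'
    have G21' : (a * b - 1) * g.G 2 1 = b * (a - b) := by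
      linear_combination (a * b - 1) * G21 - (b - 1) * (b + 1) * hX
    have H21' : (a * b - 1) * (b * g.H 2 1) = a - b := by
      apply mul_left_cancel₀ b0
      linear_combination (-(a * b - 1)) * H21 - (b - 1) * (b + 1) * hY
    have G13' : g.G 1 3 = a := by linear_combination G13 + (a - 1) * hX
    have G12' : g.G 1 2 = a * g.G 1 1 := by linear_combination p1 + g.lam 1 * a * hz
    have H12' : a ^ 2 * g.H 1 2 = a * g.G 1 1 := by linear_combination p2 + g.mu 1 * a * hz
    have l2 : (1 - g.lam 2) * (b - a) = b + 1 := by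
      apply mul_left_cancel₀ (mul_ne_zero a0 a1)
      linear_combination (-(a * b - 1)) * p3 + (a * b - 1) * G13'
        - (a * b - 1) * (1 - g.lam 2) * a * G12' - (a * b - 1) * g.lam 2 * H12'
        - ((1 - g.lam 2) * a ^ 2 + g.lam 2 * a) * G11'
    have m2 : g.mu 2 * (b - a) = -(a * (b + 1)) := by
      apply mul_left_cancel₀ (mul_ne_zero a0 a1)
      linear_combination (a * b - 1) * p4 + (a * b - 1) * pc - (a * b - 1) * a * G13'
        + (a * b - 1) * (1 - g.mu 2) * a * G12' + (a * b - 1) * g.mu 2 * H12'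
        + ((1 - g.mu 2) * a ^ 2 + g.mu 2 * a) * G11'
    have z2 : g.G 2 2 = g.H 2 2 := by
      apply mul_left_cancel₀ (mul_ne_zero (mul_ne_zero b0 b0) hab)
      linear_combination (b - a) * (qc - b * q3 + q4)
        - b * (b * g.G 2 2 - b ^ 2 * g.H 2 2) * l2 - (b * g.G 2 2 - b ^ 2 * g.H 2 2) * m2
    have hb2 : (b - 1) * (b + 1) * (b - a) ≠ 0 := mul_ne_zero (mul_ne_zero b1 b1') hab
    have m1 : g.mu 1 = -(b ^ 2 * (1 - g.lam 1)) := by
      apply mul_left_cancel₀ hb2
      linear_combination (a * b - 1) * (b ^ 2 * q1 - q2 - b ^ 2 * z2)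
        + (b ^ 2 * (1 - g.lam 1) * b - (1 - g.mu 1) * b) * G21'
        + (b ^ 2 * g.lam 1 - g.mu 1) * H21'
    have l1 : (b - 1) * (b + 1) * (1 - g.lam 1) = -1 := by
      apply mul_left_cancel₀ (mul_ne_zero a1' hab)
      linear_combination lp - (-b - 1) * (1 - g.lam 1) * e
    linear_combination l1 - m1
  · rw [hc]
    have k : (a + 1) * (b + 1) * (b - a) * a ^ 2 * (f 3 + a * b * (a * b - 1)) = 0 := by
      linear_combination (a * b - 1) * ff3
        + (f 3 * (a + 1) * (b - a)) * (-(a * (a * b - 1)) * hX - a * (a + 1) * hY)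
        + ((a * b - 1) * (a * b + b) * (a * b + a) * a) * ((a + 1) * a * hX - (a + 1) * hY)
    have n : (a + 1) * (b + 1) * (b - a) * a ^ 2 ≠ 0 :=
      mul_ne_zero (mul_ne_zero (mul_ne_zero a1' b1') hab) (pow_ne_zero 2 a0)
    linear_combination (mul_eq_zero.1 k).resolve_left n

end Pool.Agent.Helper54.IP
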