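import Pool.Agent.Helper54.IP.D4Mk
import Pool.Agent.Helper54.IP.N4Mk
import Pool.Agent.Helper54.IP.M4Mk
import Pool.Agent.Helper54.IP.N4Elim
import Pool.Agent.Helper54.IP.M4Elim

/-!
TH-P phase 2: the irreducible pairs of dimension 4.
-/

namespace Pool.Agent.Helper54.IP

variable {F : Type*} [Field F]

theorem isPhi3 {g : GForm F 3} {s f : ℕ → F} (hs : ∀ i, i ≤ 3 → g.s i = s i) (s0 : s 0 = 1)
    (h0 : f 1 * (1 - g.lam 0) = s 1 - 1)
    (h1 : f 2 * ((s 1 - 1) * (1 - g.lam 1)) = (s 2 - 1) * (s 2 - s 1))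
    (h2 : f 3 * ((s 2 - 1) * (s 2 - s 1) * (1 - g.lam 2)) =
      (s 3 - 1) * (s 3 - s 1) * (s 3 - s 2)) : g.IsPhi f := by
  intro k hk
  have e0 := hs 0 (by omega)
  have e1 := hs 1 (by omega)
  have e2 := hs 2 (by omega)
  have e3 := hs 3 (by omega)
  rw [s0] at e0
  interval_cases k
  · simp only [Finset.range_zero, Finset.prod_empty, one_mul, zero_add, Finset.range_one,
      Finset.prod_singleton, e0, e1, h0]
  · simp only [Finset.prod_range_succ, Finset.range_zero, Finset.prod_empty, one_mul,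
      e0, e1, e2, h1, Nat.reduceAdd]
  · simp only [Finset.prod_range_succ, Finset.range_zero, Finset.prod_empty, one_mul,
      e0, e1, e2, e3, h2, Nat.reduceAdd]

theorem D4.congr {t s f : ℕ → F} {e : F} {t' s' : ℕ → F} (h : D4 t s f e)
    (ht : ∀ i, i ≤ 3 → t i = t' i) (hs : ∀ i, i ≤ 3 → s i = s' i) : D4 t' s' f e := by
  have a0 := ht 0 (by omega)
  have a1 := ht 1 (by omega)
  have a2 := ht 2 (by omega)
  have a3 := ht 3 (by omega)
  have b0 := hs 0 (by omega)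
  have b1 := hs 1 (by omega)
  have b2 := hs 2 (by omega)
  have b3 := hs 3 (by omega)
  obtain ⟨_, _, _, _, _, _, _, _, _, _, _, _, _, _, _, _, _, _, _, _, _⟩ := h
  constructor <;> (try simp only [← a0, ← a1, ← a2, ← a3, ← b0, ← b1, ← b2, ← b3]) <;>
    assumption

theorem N4.congr {t s f : ℕ → F} {t' s' : ℕ → F} (h : N4 t s f)
    (ht : ∀ i, i ≤ 3 → t i = t' i) (hs : ∀ i, i ≤ 3 → s i = s' i) : N4 t' s' f := by
  have a0 := ht 0 (by omega)
  have a1 := ht 1 (by omega)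
  have a2 := ht 2 (by omega)
  have a3 := ht 3 (by omega)
  have b0 := hs 0 (by omega)
  have b1 := hs 1 (by omega)
  have b2 := hs 2 (by omega)
  have b3 := hs 3 (by omega)
  obtain ⟨_, _, _, _, _, _, _, _, _, _, _, _, _, _, _, _, _, _⟩ := h
  constructor <;> (try simp only [← a0, ← a1, ← a2, ← a3, ← b0, ← b1, ← b2, ← b3]) <;>
    assumption

theorem M4.congr {t s f : ℕ → F} {t' s' : ℕ → F} (h : M4 t s f)
    (ht : ∀ i, i ≤ 3 → t i = t' i) (hs : ∀ i, i ≤ 3 → s i = s' i) : M4 t' s' f := by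
  have a0 := ht 0 (by omega)
  have a1 := ht 1 (by omega)
  have a2 := ht 2 (by omega)
  have a3 := ht 3 (by omega)
  have b0 := hs 0 (by omega)
  have b1 := hs 1 (by omega)
  have b2 := hs 2 (by omega)
  have b3 := hs 3 (by omega)
  obtain ⟨_, _, _, _, _, _, _, _, _, _, _, _, _, _, _, _, _, _, _, _, _, _, _, _, _, _, _, _, _,
    _, _, _⟩ := h
  constructor <;> (try simp only [← a0, ← a1, ← a2, ← a3, ← b0, ← b1, ← b2, ← b3]) <;>
    assumption

theorem D4.isPA {t s f : ℕ → F} {e : F} (h : D4 t s f e) : IsPA 3 t s f := by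
  have c1 : t 1 * t 2 - 1 ≠ 0 := by rw [← h.t3]; exact sub_ne_zero.2 h.d3
  have a1 := sub_ne_zero.2 h.d1
  have b1 := sub_ne_zero.2 h.d2
  have hba := sub_ne_zero.2 h.d12
  obtain ⟨g, hc, g1, g2, g3⟩ := d4_mk (t 1) (t 2) e _ _ _ rfl rfl rfl h.n1 h.n2
    a1 b1 hba h.e0 h.e1 c1 h.e2 h.e3 h.e4 h.e5
  have hs : ∀ i, i ≤ 3 → g.s i = s i := by
    intro i hi
    rw [g2]
    interval_cases i
    · exact h.s0.symm
    · exact h.s1.symm
    · exact h.s2.symm
    · exact (h.s3.trans h.t3).symm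
  refine ⟨g, hc, ?_, hs, isPhi3 hs h.s0 ?_ ?_ ?_⟩
  · intro i hi
    rw [g1]
    interval_cases i
    · exact h.t0.symm
    · rfl
    · rfl
    · exact h.t3.symm
  · have e1 : 1 - g.lam 0 = (t 1 - 1 + t 1 * e) / (t 1 * t 2 - 1) := by
      rw [g3]; simp only [sq4]; ring
    have e2 := h.f1
    rw [e1, h.s1]
    rw [h.t3] at e2
    rw [← mul_div_assoc, e2]
    field_simp
  · have e1 : 1 - g.lam 1 = ((t 2 - t 1) * e) / ((t 1 - 1) *
        ((t 1 - 1) * (t 1 + t 2) + (t 1 ^ 2 - t 2) * e)) := by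
      rw [g3]; simp only [sq4]; ring
    have e2 := h.f2
    have e3 := h.e4
    rw [e1, h.s1, h.s2, ← mul_div_assoc, ← mul_div_assoc, div_eq_iff (mul_ne_zero a1 e3)]
    linear_combination (t 1 - 1) * (t 2 - t 1) * e2
  · have e1 : 1 - g.lam 2 = ((-1) * (t 1 - 1 - e)) / (t 2 - t 1) := by
      rw [g3]; simp only [sq4]; ring
    have e2 := h.f3
    rw [e1, h.s1, h.s2, h.s3, ← mul_div_assoc, ← mul_div_assoc, div_eq_iff hba]
    rw [h.t3] at e2 ⊢
    linear_combination (-((t 2 - 1) * (t 2 - t 1))) * e2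

theorem N4.isPA {t s f : ℕ → F} (h : N4 t s f) : IsPA 3 t s f := by
  have c1 : t 1 * t 2 - 1 ≠ 0 := by rw [← h.t3]; exact sub_ne_zero.2 h.d3
  have a1 := sub_ne_zero.2 h.d1
  have b1 := sub_ne_zero.2 h.d2
  have hba := sub_ne_zero.2 h.d12
  have a1' : t 1 + 1 ≠ 0 := fun e => h.d1' (by linear_combination e)
  have b1' : t 2 + 1 ≠ 0 := fun e => h.d2' (by linear_combination e)
  obtain ⟨g, hc, g1, g2, g3⟩ := n4_mk (t 1) (t 2) (f 2) _ _ rfl rfl h.n1 h.n2
    a1 b1 a1' b1' hba h.f2 c1 (fun e => h.f2' (by linear_combination e))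
  have hs : ∀ i, i ≤ 3 → g.s i = s i := by
    intro i hi
    rw [g2]
    interval_cases i
    · exact h.s0.symm
    · rw [h.s1]; simp only [sq4]; ring
    · rw [h.s2]; simp only [sq4]; ring
    · exact (h.s3.trans h.t3).symm
  refine ⟨g, hc, ?_, hs, isPhi3 hs h.s0 ?_ ?_ ?_⟩
  · intro i hi
    rw [g1]
    interval_cases i
    · exact h.t0.symm
    · rfl
    · rfl
    · exact h.t3.symm
  · have e1 : 1 - g.lam 0 = ((-1) * (t 2 + 1)) / (t 1 * t 2 - 1) := by
      rw [g3]; simp only [sq4]; ring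
    have e2 := h.f1
    rw [e1, h.s1]
    rw [h.t3] at e2
    rw [← mul_div_assoc, e2]
    field_simp
    ring
  · have e1 : 1 - g.lam 1 = ((t 1 + 1) * (t 2 - t 1)) / ((t 2 + 1) * f 2) := by
      rw [g3]; simp only [sq4]; ring
    have e3 := h.f2
    rw [e1, h.s1, h.s2, ← mul_div_assoc, ← mul_div_assoc, div_eq_iff (mul_ne_zero b1' e3)]
    ring
  · have e1 : 1 - g.lam 2 = (t 2 + 1) / (t 2 - t 1) := by
      rw [g3]; simp only [sq4]; ring
    rw [e1, h.f3, h.s1, h.s2, h.s3, ← mul_div_assoc, ← mul_div_assoc, div_eq_iff hba, h.t3]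
    ring

theorem M4.isPA {t s f : ℕ → F} (h : M4 t s f) : IsPA 3 t s f := by
  have h2 := h.two
  have a0 := h.n1
  have u0 := h.n2
  have c0 := h.n3
  have b0 := h.n4
  have v0 := h.n5
  have a1 := sub_ne_zero.2 h.d1
  have u1 := sub_ne_zero.2 h.d2
  have c1 := sub_ne_zero.2 h.d3
  have cp : t 3 + 1 ≠ 0 := fun e => h.d3' (by linear_combination e)
  have hac := sub_ne_zero.2 h.d5
  have uc := h.d6
  have Rb := h.t2
  have Rv := h.s2
  have f1 := h.f1
  have f2 := h.f2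
  have f3 := h.f3
  have hD := h.d4
  have d7 := h.d7
  have d8 := sub_ne_zero.2 h.d8
  have d9 := h.d9
  have d10 := h.d10
  have k0 := h.k0
  have k1 := h.k1
  have k2 := h.k2
  have k3 := h.k3
  have f1' := h.f1'
  have f2' := h.f2'
  have f3' := h.f3'
  have hcc : t 3 ^ 2 - 1 ≠ 0 := by
    have : t 3 ^ 2 - 1 = (t 3 - 1) * (t 3 + 1) := by ring
    rw [this]
    exact mul_ne_zero c1 cp
  have t0 := h.t0
  have s0 := h.s0
  have s3 := h.s3
  clear h
  generalize ha : t 1 = a at *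
  generalize hb : t 2 = b at *
  generalize hc : t 3 = c at *
  generalize hu : s 1 = u at *
  generalize hv : s 2 = v at *
  obtain ⟨Bd, hBd⟩ : ∃ x, x = a * c - a + 2 * c := ⟨_, rfl⟩
  obtain ⟨Vd, hVd⟩ : ∃ x, x = u * c + u + 2 * c := ⟨_, rfl⟩
  obtain ⟨B1, hB1⟩ : ∃ x, x = 2 * a - c + 1 := ⟨_, rfl⟩
  obtain ⟨V1, hV1⟩ : ∃ x, x = 2 * u + c + 1 := ⟨_, rfl⟩
  obtain ⟨NX, hNX⟩ : ∃ x, x = 2 * a * u + a * c + a - u * c + u := ⟨_, rfl⟩
  obtain ⟨B3, hB3⟩ : ∃ x, x = 4 * a * u - a * c ^ 2 + 4 * a * c + a - u * c ^ 2 - 4 * u * c + u -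
    4 * c ^ 2 := ⟨_, rfl⟩
  obtain ⟨P2, hP2⟩ : ∃ x, x = 2 * a ^ 2 * u ^ 2 + a ^ 2 * u * c + a ^ 2 * u - a * u ^ 2 * c +
    a * u ^ 2 + a * c ^ 2 - a * c + u * c ^ 2 + u * c + 2 * c ^ 2 := ⟨_, rfl⟩
  have eBd : a * (c - 1) + 2 * c = Bd := by rw [hBd]; ring
  have eVd : u * (c + 1) + 2 * c = Vd := by rw [hVd]; ring
  rw [eBd] at Rb f2
  rw [eVd] at Rv f2
  rw [← hNX] at f1
  rw [← hP2] at f2
  rw [← hB3] at f3
  rw [← hB1] at Rb
  rw [← hV1] at Rv
  have nB : Bd ≠ 0 := by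
    intro e
    rw [e, mul_zero] at Rb
    have e1 : B1 = 0 := (mul_eq_zero.1 Rb.symm).resolve_left c0
    rw [hB1] at e1
    rw [hBd] at e
    have e2 : 2 * (a + 1) ^ 2 = 0 := by linear_combination e + (a + 2) * e1
    have e3 : a + 1 = 0 := by simpa using (mul_eq_zero.1 e2).resolve_left h2
    exact cp (by linear_combination -e1 + 2 * e3)
  have nV : Vd ≠ 0 := by
    intro e
    rw [e, mul_zero] at Rv
    have e1 : V1 = 0 := (mul_eq_zero.1 Rv.symm).resolve_left c0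
    rw [hV1] at e1
    rw [hVd] at e
    have e2 : 2 * (u + 1) ^ 2 = 0 := by linear_combination -e + (u + 2) * e1
    have e3 : u + 1 = 0 := by simpa using (mul_eq_zero.1 e2).resolve_left h2
    exact c1 (by linear_combination e1 - 2 * e3)
  have nV1 : V1 ≠ 0 := by
    intro e
    rw [e, mul_zero] at Rv
    exact mul_ne_zero v0 nV Rv
  have nB1 : B1 ≠ 0 := by
    intro e
    rw [e, mul_zero] at Rb
    exact mul_ne_zero b0 nB Rb
  have nNX : NX ≠ 0 := by
    intro e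
    rw [e, mul_zero] at f1
    exact mul_ne_zero hD hcc f1.symm
  have nB3 : B3 ≠ 0 := by
    intro e
    rw [e, mul_zero, neg_zero] at f3
    exact mul_ne_zero f3' k0 f3
  have nP2 : P2 ≠ 0 := by
    intro e
    rw [e, mul_zero, neg_zero] at f2
    exact mul_ne_zero f2' (mul_ne_zero (mul_ne_zero h2 nB) nV) f2
  have eb : b = c * B1 / Bd := by
    rw [eq_div_iff nB]
    linear_combination Rb
  have ev : v = c * V1 / Vd := by
    rw [eq_div_iff nV]
    linear_combination Rv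
  obtain ⟨g, hc', g1, g2, g3⟩ := m4_mk a u c Bd Vd B1 V1 _ _ NX _ B3 P2 _ _ _ hBd hVd hB1 hV1
    rfl rfl hNX rfl hB3 hP2 rfl rfl rfl a0 u0 c0 a1 u1 c1 cp hD hac uc nB nV nB1 nV1 d7 d8
    d9 d10 nNX k0 nB3 nP2 k1 k2 k3 h2
  have hs : ∀ i, i ≤ 3 → g.s i = s i := by
    intro i hi
    rw [g2]
    interval_cases i
    · exact s0.symm
    · exact hu.symm
    · rw [hv, ev]; rfl
    · rw [s3]; simp only [sq4]; ring
  have v1' : (v - 1) * Vd = (c - 1) * (u + c) := by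
    linear_combination Rv + c * hV1 - hVd
  have vu' : (v - u) * Vd = -((c + 1) * (u ^ 2 - c)) := by
    linear_combination Rv + c * hV1 - u * hVd
  have vc' : (v + c) * Vd = c * (u * c + 3 * u + 3 * c + 1) := by
    linear_combination Rv + c * hV1 + c * hVd
  refine ⟨g, hc', ?_, hs, isPhi3 hs s0 ?_ ?_ ?_⟩
  · intro i hi
    rw [g1]
    interval_cases i
    · exact t0.symm
    · exact ha.symm
    · rw [hb, eb]; rfl
    · exact hc.symm
  · have e1 : 1 - g.lam 0 = (u - 1) * NX / ((c - 1) * (c + 1) * (a + u)) := by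
      rw [g3]; simp only [sq4]; ring
    rw [e1, hu, ← mul_div_assoc, div_eq_iff (mul_ne_zero (mul_ne_zero c1 cp) hD)]
    linear_combination (u - 1) * f1
  · have e1 : 1 - g.lam 1 = (u + c) * Bd * (u ^ 2 - c) * 2 / ((u - 1) * Vd * P2) := by
      rw [g3]; simp only [sq4]; ring
    rw [e1, hu, hv, ← mul_div_assoc, ← mul_div_assoc,
      div_eq_iff (mul_ne_zero (mul_ne_zero u1 nV) nP2)]
    apply mul_left_cancel₀ nV
    linear_combination (u - 1) * (u + c) * (u ^ 2 - c) * f2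
      - (u - 1) * P2 * ((v - u) * Vd * v1' + (c - 1) * (u + c) * vu')
  · have e1 : 1 - g.lam 2 = (-1) * Vd * (u * c + 3 * u + 3 * c + 1) *
        (a * c - a + u * c + u + 2 * c) / ((c - 1) * (u ^ 2 - c) * B3) := by
      rw [g3]; simp only [sq4]; ring
    rw [e1, hu, hv, s3, ← mul_div_assoc, ← mul_div_assoc,
      div_eq_iff (mul_ne_zero (mul_ne_zero c1 d8) nB3)]
    apply mul_left_cancel₀ nV
    linear_combination (c - 1) * (u + c) * (c + 1) * (u ^ 2 - c) *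
        (u * c + 3 * u + 3 * c + 1) * f3
      - f 3 * (u * c + 3 * u + 3 * c + 1) * (a * c - a + u * c + u + 2 * c) *
        ((v - u) * Vd * v1' + (c - 1) * (u + c) * vu')
      + (c + 1) * (u + c) * (c - 1) * (u ^ 2 - c) * B3 * vc'

theorem isPA3_iff (t s f : ℕ → F) :
    IsPA 3 t s f ↔ (∃ e, D4 t s f e) ∨ N4 t s f ∨ M4 t s f := by
  constructor
  · rintro ⟨g, hc, ht, hs, hf⟩
    obtain ⟨X, Y, hx⟩ := g.exists_XY (by omega)
    have key : g.s 3 = g.t 3 →
        (∃ e, D4 t s f e) ∨ N4 t s f ∨ M4 t s f := by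
      intro hw
      rcases c4_eq hc hx hw with ⟨e1, e2, e3, e4⟩ | ⟨e1, e2, e3, e4, e5, e6⟩
      · left
        obtain ⟨e, he⟩ := d4_elim hc hx hf e1 e2 hw e3 e4
        exact ⟨e, he.congr ht hs⟩
      · right; left
        exact (n4_elim hc hx hf e1 e2 hw e3 e4 e5).congr ht hs
    have cor := hc.corner (κ := 2) rfl
    have h1 : (g.s 3 - g.t 3) * (g.s 3 + g.t 3) = 0 := by linear_combination -cor
    rcases mul_eq_zero.1 h1 with h1 | h1
    · exact key (sub_eq_zero.1 h1)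
    · by_cases h2 : (2 : F) = 0
      · apply key
        linear_combination h1 - g.t 3 * h2
      · right; right
        exact (m4_elim hc hx hf (by linear_combination h1) h2).congr ht hs
  · rintro (⟨e, h⟩ | h | h)
    · exact h.isPA
    · exact h.isPA
    · exact h.isPA

end Pool.Agent.Helper54.IP
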