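import Pool.Agent.Helper54.IP.D5Mk
import Pool.Agent.Helper82.IP.N5List

/-!
TH-P phase 2: the family D5, existence side.
-/

namespace Pool.Agent.Helper54.IP

open Pool.Agent.Helper82.IP

variable {F : Type*} [Field F]

set_option maxRecDepth 100000

theorem d5_r0 (a b c d : F) (hq : (1 - b) * (d - a ^ 2 * c) + (a - c) * (d - a * b) = 0) : a * (a * (b * (c * ((1 : F)) + (-1 : F)) - (c)) + (b * c + d)) + (d * (b * ((-1 : F)) + (c * ((-1 : F)) + (1 : F)))) = 0 := by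
  linear_combination hq

theorem d5_r1 (a b c d : F) (hr : (d - b) * (d ^ 2 - a * c ^ 2) + d * (c - a) * (d - b * c) = 0) : d * (c * (a * (b * ((1 : F)) - (c)) + (b * (-(c)) + d)) + (d * (a * ((-1 : F)) + (b * ((-1 : F)) + d)))) + a * b * c * c = 0 := by
  linear_combination hr

theorem d5_r2 (a b c d : F) (h0 : a * (a * (b * (c * ((1 : F)) + (-1 : F)) - (c)) + (b * c + d)) + (d * (b * ((-1 : F)) + (c * ((-1 : F)) + (1 : F)))) = 0) (h1 : d * (c * (a * (b * ((1 : F)) - (c)) + (b * (-(c)) + d)) + (d * (a * ((-1 : F)) + (b * ((-1 : F)) + d)))) + a * b * c * c = 0) : d * (c * (a * (c * (a * ((1 : F)) + (d * ((1 : F)) + (1 : F))) + (d * (b * ((-1 : F)) + (-1 : F)) + (a * ((-1 : F)) + (1 : F)))) + (b * (c * (d * ((1 : F)) + (1 : F)) + (-1 : F)) + (d * (d * ((-1 : F)) + (-2 : F)) - (c)))) + (d * (a * (a * ((1 : F)) + (b * ((1 : F)) + (2 : F))) + (d * (b * ((1 : F)) + (d * ((-1 : F)) +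 (-1 : F))) + (1 : F))) + (a * (a * (-(b)) + (1 : F)) + (b * ((-1 : F)) + (1 : F))))) + (a * (a * (c * (c * ((-1 : F)) + (-1 : F)) - (b)) + b * c)) = 0 := by
  linear_combination (c * ((1 : F)) + (d * ((1 : F)) + (1 : F))) * h0 + (a * ((-1 : F)) + (d * ((-1 : F)) + (-1 : F))) * h1

theorem d5_r3 (a b c d : F) (h0 : a * (a * (b * (c * ((1 : F)) + (-1 : F)) - (c)) + (b * c + d)) + (d * (b * ((-1 : F)) + (c * ((-1 : F)) + (1 : F)))) = 0) (h1 : d * (c * (a * (b * ((1 : F)) - (c)) + (b * (-(c)) + d)) + (d * (a * ((-1 : F)) + (b * ((-1 : F)) + d)))) + a * b * c * c = 0) (da : d - a ≠ 0) :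
    d * (a * (a * (b * (b * ((1 : F)) + (d * ((-1 : F)) + (-1 : F))) + (c * ((-1 : F)) + d)) + (b * (d * ((-1 : F)) + (-1 : F)) + (d * ((1 : F)) + (-1 : F)))) + (b * (b * (c * ((1 : F)) + (1 : F)) + (-2 : F) * d) + (d * (d * ((1 : F)) + (1 : F)) + (c * ((1 : F)) + (-1 : F))))) + (a * (b * (a * (b * ((1 : F)) + (1 : F)) + (c * (b * ((-1 : F)) + (-1 : F)))) + a * c)) = 0 := by
  apply mul_left_cancel₀ da
  linear_combination (d * (a * (b * ((1 : F)) + (c * ((-1 : F)) + (-1 : F))) + (b * (c * ((-1 : F)) + (-1 : F)) + (d * ((1 : F)) + (-1 : F)))) + (a * (b * (c * ((1 : F)) + (1 : F)) + (1 : F)))) * h0 + (a * (a * (b * ((-1 : F)) + (1 : F)) - (b)) + d) * h1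

theorem d5_r4 (a b c d : F) (h0 : a * (a * (b * (c * ((1 : F)) + (-1 : F)) - (c)) + (b * c + d)) + (d * (b * ((-1 : F)) + (c * ((-1 : F)) + (1 : F)))) = 0) (h1 : d * (c * (a * (b * ((1 : F)) - (c)) + (b * (-(c)) + d)) + (d * (a * ((-1 : F)) + (b * ((-1 : F)) + d)))) + a * b * c * c = 0) (da : d - a ≠ 0) :
    d * (c * (b * (c * (b * ((-1 : F)) + (d * ((-1 : F)) + (1 : F))) + (a * (b * ((1 : F)) + d) + (d * ((1 : F)) + (1 : F)))) + (c * (a * (d * ((-1 : F)) + (1 : F)) + (-1 : F)) + (d * (d * ((1 : F)) + (-1 : F))))) + (d * (d * (a * ((-1 : F)) + (d * ((1 : F)) + (-1 : F))) + (b * (b * ((-1 : F)) + (2 : F)) + (-1 : F))) - (a * b * b))) + (b * (c * (c * (b * ((-1 : F)) + (1 : F))))) = 0 := by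
  apply mul_left_cancel₀ da
  linear_combination (d * (b * ((-1 : F)) + c)) * h0 + (d * (a * ((-1 : F)) + (b * ((1 : F)) + (d * ((1 : F)) + (-1 : F)))) + (b * ((1 : F)) + (-1 : F))) * h1

theorem d5_r5 (a b c d : F) (h0 : a * (a * (b * (c * ((1 : F)) + (-1 : F)) - (c)) + (b * c + d)) + (d * (b * ((-1 : F)) + (c * ((-1 : F)) + (1 : F)))) = 0) (h1 : d * (c * (a * (b * ((1 : F)) - (c)) + (b * (-(c)) + d)) + (d * (a * ((-1 : F)) + (b * ((-1 : F)) + d)))) + a * b * c * c = 0) (da : d - a ≠ 0) :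
    d * (d * (c * (b * (c * (c * ((1 : F)) + (d * ((-1 : F)) + (-1 : F))) + (a * (d * ((1 : F)) + (-1 : F)) + (b * ((1 : F)) + (-4 : F)))) + (c * (a * (c * ((1 : F)) - (d)) + (d * ((-1 : F)) + (2 : F))) + (d * (a * ((1 : F)) + (1 : F)) + (2 : F)))) + (d * (a * (b * ((-1 : F)) + (d * ((-1 : F)) + (1 : F))) + (b * (d * ((-1 : F)) + (-2 : F)) + (d * d + (2 : F)))) + (b * (b * (a * ((1 : F)) + (1 : F)) + (-2 : F)) + (1 : F)))) + (c * (c * (b * (b * (c * ((1 : F)) + (2 : F)) + (c * ((-1 : F)) + (-3 : F))) + (a * (c * ((-1 : F)) + (-1 : F)) + (c * ((1 : F)) + (1 : F)))) - (b)) + a * b * b)) + (b * (c * (c * (b * (c * ((1 : F)) + (1 : F)) + (c * ((-1 : F)) + (-1 : F)))))) = 0 := by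
  apply mul_left_cancel₀ da
  linear_combination (d * (c * (b * ((1 : F)) + (c * ((-1 : F)) + (d * ((-1 : F)) + (-1 : F)))) + (b * (d * ((1 : F)) + (1 : F))))) * h0 + (d * (a * (b * ((-1 : F)) + (c * ((1 : F)) + (d * ((-1 : F)) + (1 : F)))) + (c * (b * ((-1 : F)) + (d * ((-1 : F)) + (1 : F))) + (b * ((-2 : F)) + (d * d + (2 : F))))) + (b * (c * ((-1 : F)) + (-1 : F)) + (c * ((1 : F)) + (1 : F)))) * h1

theorem d5_K (a b c d : F)
    (h0 : a * (a * (b * (c * ((1 : F)) + (-1 : F)) - (c)) + (b * c + d)) + (d * (b * ((-1 : F)) + (c * ((-1 : F)) + (1 : F)))) = 0)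
    (h1 : d * (c * (a * (b * ((1 : F)) - (c)) + (b * (-(c)) + d)) + (d * (a * ((-1 : F)) + (b * ((-1 : F)) + d)))) + a * b * c * c = 0)
    (h3 : d * (a * (a * (b * (b * ((1 : F)) + (d * ((-1 : F)) + (-1 : F))) + (c * ((-1 : F)) + d)) + (b * (d * ((-1 : F)) + (-1 : F)) + (d * ((1 : F)) + (-1 : F)))) + (b * (b * (c * ((1 : F)) + (1 : F)) + (-2 : F) * d) + (d * (d * ((1 : F)) + (1 : F)) + (c * ((1 : F)) + (-1 : F))))) + (a * (b * (a * (b * ((1 : F)) + (1 : F)) + (c * (b * ((-1 : F)) + (-1 : F)))) + a * c)) = 0)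
    (h4 : d * (c * (b * (c * (b * ((-1 : F)) + (d * ((-1 : F)) + (1 : F))) + (a * (b * ((1 : F)) + d) + (d * ((1 : F)) + (1 : F)))) + (c * (a * (d * ((-1 : F)) + (1 : F)) + (-1 : F)) + (d * (d * ((1 : F)) + (-1 : F))))) + (d * (d * (a * ((-1 : F)) + (d * ((1 : F)) + (-1 : F))) + (b * (b * ((-1 : F)) + (2 : F)) + (-1 : F))) - (a * b * b))) + (b * (c * (c * (b * ((-1 : F)) + (1 : F))))) = 0)
    : (b ^ 2 - d) * ((c - a) * (d - a) * (c + d)) - (b - 1) * (a * d - b * c) * (d * (a * (c * ((-1 : F)) + (2 : F)) + (c * ((-2 : F)) + (d * ((-1 : F)) + (1 : F)))) + a * c) = 0 := by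
  linear_combination (d * (d * ((1 : F)) + (-1 : F)) + (b * ((1 : F)) + (1 : F))) * h0 + (d * (b * ((-1 : F)) + (d * ((-1 : F)) + (1 : F))) + (-1 : F)) * h1 + ((1 : F)) * h3 + (d) * h4

theorem isPhi4 {g : GForm F 4} {s f : ℕ → F} (hs : ∀ i, i ≤ 4 → g.s i = s i) (s0 : s 0 = 1)
    (h0 : f 1 * (1 - g.lam 0) = s 1 - 1)
    (h1 : f 2 * ((s 1 - 1) * (1 - g.lam 1)) = (s 2 - 1) * (s 2 - s 1))
    (h2 : f 3 * ((s 2 - 1) * (s 2 - s 1) * (1 - g.lam 2)) =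
      (s 3 - 1) * (s 3 - s 1) * (s 3 - s 2))
    (h3 : f 4 * ((s 3 - 1) * (s 3 - s 1) * (s 3 - s 2) * (1 - g.lam 3)) =
      (s 4 - 1) * (s 4 - s 1) * (s 4 - s 2) * (s 4 - s 3)) : g.IsPhi f := by
  intro k hk
  have e0 := hs 0 (by omega)
  have e1 := hs 1 (by omega)
  have e2 := hs 2 (by omega)
  have e3 := hs 3 (by omega)
  have e4 := hs 4 (by omega)
  rw [s0] at e0
  interval_cases k
  · simp only [Finset.range_zero, Finset.prod_empty, one_mul, zero_add, Finset.range_one,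
      Finset.prod_singleton, e0, e1, h0]
  · simp only [Finset.prod_range_succ, Finset.range_zero, Finset.prod_empty, one_mul,
      e0, e1, e2, h1, Nat.reduceAdd]
  · simp only [Finset.prod_range_succ, Finset.range_zero, Finset.prod_empty, one_mul,
      e0, e1, e2, e3, h2, Nat.reduceAdd]
  · simp only [Finset.prod_range_succ, Finset.range_zero, Finset.prod_empty, one_mul,
      e0, e1, e2, e3, e4, h3, Nat.reduceAdd]

/-- the arrays of the family D5 are parameter arrays of irreducible inverting pairs. -/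
theorem d5_isPA {t s f : ℕ → F} (h : D5L t s f) : IsPA 4 t s f := by
  have a0 := h.n1
  have b0 := h.n2
  have c0 := h.n3
  have d0 := h.n4
  have a1 := sub_ne_zero.2 h.d01
  have b1 := sub_ne_zero.2 h.d02
  have c1 := sub_ne_zero.2 h.d03
  have d1 := sub_ne_zero.2 h.d04
  have ba := sub_ne_zero.2 h.d12.symm
  have ca := sub_ne_zero.2 h.d13.symm
  have da := sub_ne_zero.2 h.d14.symm
  have cb := sub_ne_zero.2 h.d23.symm
  have db := sub_ne_zero.2 h.d24.symm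
  have dc := sub_ne_zero.2 h.d34.symm
  have a1' := h.a1
  have cd := h.cd
  have ac := h.ac
  have x0 : t 1 * t 3 + t 3 + t 4 ≠ 0 := by
    intro e; exact h.x0 (by linear_combination e)
  have y0 : t 1 * t 3 + t 1 * t 4 + t 4 ≠ 0 := h.y0
  have bd := sub_ne_zero.2 h.bd
  have q0 := d5_r0 _ _ _ _ h.q
  have q1 := d5_r1 _ _ _ _ h.r
  have q2 := d5_r2 _ _ _ _ q0 q1
  have q3 := d5_r3 _ _ _ _ q0 q1 da
  have q4 := d5_r4 _ _ _ _ q0 q1 da
  have q5 := d5_r5 _ _ _ _ q0 q1 da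
  have hK := d5_K _ _ _ _ q0 q1 q3 q4
  have f1 := h.f1
  have f2 := h.f2
  have f3 := h.f3
  have f4 := h.f4
  have f2n := h.f2n
  have f3n := h.f3n
  obtain ⟨K, eK⟩ : ∃ x, x = t 4 * (t 1 * (t 3 * ((-1 : F)) + (2 : F)) + (t 3 * ((-2 : F)) +
    (t 4 * ((-1 : F)) + (1 : F)))) + t 1 * t 3 := ⟨_, rfl⟩
  obtain ⟨F2, eF2⟩ : ∃ x, x = t 1 * (t 4 * (t 2 * (t 3 * ((-1 : F)) + (1 : F)) +
    (t 1 * ((1 : F)) + (t 3 * ((-1 : F)) + (t 4 * ((-1 : F)) + (1 : F))))) + t 2 * t 3) -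
    (t 2 * t 3 * t 4) := ⟨_, rfl⟩
  obtain ⟨F3, eF3⟩ : ∃ x, x = t 3 * (t 4 * (t 1 * (t 2 * ((-1 : F)) + (1 : F)) +
    (t 2 * ((-1 : F)) + (t 3 * ((-1 : F)) + (t 4 * ((-1 : F)) + (1 : F))))) + t 1 * t 2) +
    t 1 * t 2 * t 4 := ⟨_, rfl⟩
  have f2' : t 4 * f 2 = -F2 := by rw [eF2, f2]; ring
  have f3' : t 4 * f 3 = F3 := by rw [eF3, f3]; ring
  have nF2 : F2 ≠ 0 := by
    intro e
    rw [e, neg_zero] at f2'
    exact mul_ne_zero d0 f2n f2'
  have nF3 : F3 ≠ 0 := by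
    intro e
    rw [e] at f3'
    exact mul_ne_zero d0 f3n f3'
  have hK' : (t 2 ^ 2 - t 4) * ((t 3 - t 1) * (t 4 - t 1) * (t 3 + t 4)) =
      (t 2 - 1) * (t 1 * t 4 - t 2 * t 3) * K := by
    rw [eK]; linear_combination hK
  have n0 : (t 2 ^ 2 - t 4) * ((t 3 - t 1) * (t 4 - t 1) * (t 3 + t 4)) ≠ 0 :=
    mul_ne_zero bd (mul_ne_zero (mul_ne_zero ca da) cd)
  rw [hK'] at n0
  have nK : K ≠ 0 := right_ne_zero_of_mul n0
  have nad : t 1 * t 4 - t 2 * t 3 ≠ 0 := right_ne_zero_of_mul (left_ne_zero_of_mul n0)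
  obtain ⟨g, hc, g1, g2, g3⟩ := d5_mk (t 1) (t 2) (t 3) (t 4) F2 F3 K eF2 eF3 eK
    a0 b0 c0 d0 a1 b1 c1 d1 ba ca da cb db dc a1' cd ac x0 y0 nad nF2 nF3 nK q0 q1 q2 q3 q4 q5
  have hs : ∀ i, i ≤ 4 → g.s i = s i := by
    intro i hi
    rw [g2]
    interval_cases i
    · exact h.s0.symm
    · exact h.s1.symm
    · exact h.s2.symm
    · exact h.s3.symm
    · exact h.s4.symm
  refine ⟨g, hc, ?_, hs, isPhi4 hs h.s0 ?_ ?_ ?_ ?_⟩
  · intro i hi
    rw [g1]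
    interval_cases i
    · exact h.t0.symm
    · rfl
    · rfl
    · rfl
    · rfl
  · have e1 : 1 - g.lam 0 = (t 1 - 1) * (t 1 * t 3 + t 3 + t 4) /
        ((t 4 - 1) * (t 3 + t 4)) := by
      rw [g3]; simp only [sq4]; ring
    rw [e1, h.s1, ← mul_div_assoc, div_eq_iff (mul_ne_zero d1 cd)]
    linear_combination (t 1 - 1) * f1
  · have e1 : 1 - g.lam 1 = ((-1) * t 4 * (t 2 - 1) * (t 2 - t 1)) / ((t 1 - 1) * F2) := by
      rw [g3]; simp only [sq4]; ring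
    rw [e1, h.s1, h.s2, ← mul_div_assoc, ← mul_div_assoc, div_eq_iff (mul_ne_zero a1 nF2)]
    linear_combination (-((t 1 - 1) * (t 2 - 1) * (t 2 - t 1))) * f2'
  · have e1 : 1 - g.lam 2 = (t 4 * (t 3 - 1) * (t 3 - t 1) * (t 3 - t 2)) /
        ((t 2 - 1) * (t 2 - t 1) * F3) := by
      rw [g3]; simp only [sq4]; ring
    rw [e1, h.s1, h.s2, h.s3, ← mul_div_assoc, ← mul_div_assoc,
      div_eq_iff (mul_ne_zero (mul_ne_zero b1 ba) nF3)]
    linear_combination ((t 2 - 1) * (t 2 - t 1) * (t 3 - 1) * (t 3 - t 1) * (t 3 - t 2)) * f3'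
  · have e1 : 1 - g.lam 3 = ((-1) * (t 4 - t 1) * (t 4 - t 2) * (t 4 - t 3) *
        (t 1 * t 3 + t 1 * t 4 + t 4)) / (t 4 ^ 2 * (t 3 - 1) * (t 3 - t 1) * (t 3 - t 2) *
          (t 1 + 1)) := by
      rw [g3]; simp only [sq4]; ring
    rw [e1, h.s1, h.s2, h.s3, h.s4, ← mul_div_assoc, ← mul_div_assoc,
      div_eq_iff (mul_ne_zero (mul_ne_zero (mul_ne_zero (mul_ne_zero (pow_ne_zero 2 d0) c1) ca)
        cb) a1')]
    linear_combination (-((t 3 - 1) * (t 3 - t 1) * (t 3 - t 2) * (t 4 - t 1) * (t 4 - t 2) *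
      (t 4 - t 3))) * f4

end Pool.Agent.Helper54.IP
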