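import Pool.Agent.Helper54.IP.C3

/-!
TH-P phase 2: construction of the closed corners of dimension 3.
-/

namespace Pool.Agent.Helper54.IP

variable {F : Type*} [Field F]

def sq3 (x y : F) : ℕ → F
  | 0 => 1
  | 1 => x
  | _ => y

def tb3 (p q r v : F) : ℕ → ℕ → F
  | 0, _ => 1
  | _ + 1, 0 => 1
  | 1, 1 => p
  | 1, _ => q
  | _, 1 => r
  | _, _ => v

def dd3 (x y : F) : ℕ → F
  | 0 => x
  | _ => y

private theorem c3_mk_aux (a b u D E N : F) (a0 : a ≠ 0) (b0 : b ≠ 0) (u0 : u ≠ 0) (a1 : a - 1 ≠ 0)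
    (b1 : b - 1 ≠ 0) (u1 : u - 1 ≠ 0) (hab : b - a ≠ 0) (hub : b - u ≠ 0) (D0 : D ≠ 0)
    (hE : E = D + b - 1) (hN : N = b * D + a * u * (b - 1))
    (E0 : E ≠ 0) (N0 : N ≠ 0)
    (n3 : D + a * (b - 1) ≠ 0) (n4 : D + u * (b - 1) ≠ 0) :
    ∃ g : GForm F 2, g.Closed ∧ g.t 0 = 1 ∧ g.t 1 = a ∧ g.t 2 = b ∧ g.s 0 = 1 ∧ g.s 1 = u ∧
      g.s 2 = b ∧ g.lam 0 = 1 - (u - 1) / E ∧ g.lam 1 = 1 + ((b - u) * D) / ((u - 1) * N) := by
  have l0 : ∀ v : F, v - 1 ≠ 0 → 1 - (v - 1) / E ≠ 1 := by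
    intro v hv e
    have h1 : (v - 1) / E = 0 := by linear_combination -e
    exact div_ne_zero hv E0 h1
  have l1 : ∀ v : F, v - 1 ≠ 0 → b - v ≠ 0 → 1 + ((b - v) * D) / ((v - 1) * N) ≠ 1 := by
    intro v hv hbv e
    have h1 : ((b - v) * D) / ((v - 1) * N) = 0 := by linear_combination e
    exact div_ne_zero (mul_ne_zero hbv D0) (mul_ne_zero hv N0) h1
  have m0 : ∀ v : F, v - 1 ≠ 0 → v ≠ 0 → (v - 1) * (b * D) / (v * ((b - 1) * E)) ≠ 0 := by
    intro v hv v0
    exact div_ne_zero (mul_ne_zero hv (mul_ne_zero b0 D0))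
      (mul_ne_zero v0 (mul_ne_zero b1 E0))
  have m1 : ∀ v : F, v - 1 ≠ 0 → b - v ≠ 0 →
      -(a * u * (b - 1) * (b - v)) / ((v - 1) * N) ≠ 0 := by
    intro v hv hbv
    exact div_ne_zero (neg_ne_zero.2 (mul_ne_zero (mul_ne_zero (mul_ne_zero a0 u0) b1) hbv))
      (mul_ne_zero hv N0)
  have lm0 : ∀ v : F, v ≠ 0 → b - v ≠ 0 → D + v * (b - 1) ≠ 0 →
      1 - (v - 1) / E ≠ (v - 1) * (b * D) / (v * ((b - 1) * E)) := by
    intro v v0 hbv hn e
    have h1 : 1 - (v - 1) / E - (v - 1) * (b * D) / (v * ((b - 1) * E)) =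
        (b - v) * (D + v * (b - 1)) / (v * ((b - 1) * E)) := by
      field_simp
      simp only [hE]
      ring
    rw [e, sub_self] at h1
    exact div_ne_zero (mul_ne_zero hbv hn) (mul_ne_zero v0 (mul_ne_zero b1 E0)) h1.symm
  have lm1 : ∀ v v' : F, v * v' = a * u → v ≠ 0 → v - 1 ≠ 0 → D + v' * (b - 1) ≠ 0 →
      1 + ((b - v) * D) / ((v - 1) * N) ≠ -(a * u * (b - 1) * (b - v)) / ((v - 1) * N) := by
    intro v v' hvv v0 hv hn e
    have h1 : 1 + ((b - v) * D) / ((v - 1) * N) - -(a * u * (b - 1) * (b - v)) / ((v - 1) * N) =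
        v * (b - 1) * (D + v' * (b - 1)) / ((v - 1) * N) := by
      field_simp
      simp only [hN]
      linear_combination (-(b - 1) ^ 2) * hvv
    rw [e, sub_self] at h1
    exact div_ne_zero (mul_ne_zero (mul_ne_zero v0 b1) hn) (mul_ne_zero hv N0) h1.symm
  refine ⟨{
    t := sq3 a b
    s := sq3 u b
    G := tb3 ((E + (a - 1) * (u - 1)) / E) ((D + a * (b - 1)) / E) ((D + u * (b - 1)) / E)
      ((b * (D + a * (b - 1)) * (D + u * (b - 1))) / (E * N))
    H := tb3 ((a * u * ((b - 1) * E) - (a - 1) * (u - 1) * (b * D)) / (a * u * ((b - 1) * E)))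
      ((D + a * (b - 1)) / (a * E)) ((D + u * (b - 1)) / (u * E))
      (((D + a * (b - 1)) * (D + u * (b - 1))) / (E * N))
    lam := dd3 (1 - (u - 1) / E) (1 + ((b - u) * D) / ((u - 1) * N))
    mu := dd3 ((u - 1) * (b * D) / (u * ((b - 1) * E))) (-(a * u * (b - 1) * (b - u)) / ((u - 1) * N))
    lam' := dd3 (1 - (a - 1) / E) (1 + ((b - a) * D) / ((a - 1) * N))
    mu' := dd3 ((a - 1) * (b * D) / (a * ((b - 1) * E))) (-(a * u * (b - 1) * (b - a)) / ((a - 1) * N))
    t0 := rfl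
    s0 := rfl
    t_ne := ?_
    s_ne := ?_
    t_inj := ?_
    s_inj := ?_
    G0 := ?_
    G0' := ?_
    H0 := ?_
    H0' := ?_
    U1 := ?_
    U2 := ?_
    V1 := ?_
    V2 := ?_
    lam_ne := ?_
    mu_ne := ?_
    lm_ne := ?_
    lam'_ne := ?_
    mu'_ne := ?_
    lm'_ne := ?_ }, ?_, rfl, rfl, rfl, rfl, rfl, rfl, rfl, rfl⟩
  · intro i hi
    interval_cases i
    · exact one_ne_zero
    · exact a0
    · exact b0
  · intro i hi
    interval_cases i
    · exact one_ne_zero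
    · exact u0
    · exact b0
  · intro i j hij hj
    interval_cases j <;> interval_cases i
    · exact fun e => a1 (sub_eq_zero.2 e.symm)
    · exact fun e => b1 (sub_eq_zero.2 e.symm)
    · exact fun e => hab (sub_eq_zero.2 e.symm)
  · intro i j hij hj
    interval_cases j <;> interval_cases i
    · exact fun e => u1 (sub_eq_zero.2 e.symm)
    · exact fun e => b1 (sub_eq_zero.2 e.symm)
    · exact fun e => hub (sub_eq_zero.2 e.symm)
  · intro j _; cases j <;> rfl
  · intro k _; rfl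
  · intro j _; cases j <;> rfl
  · intro k _; rfl
  · intro j k hj hk
    interval_cases j <;> interval_cases k <;> simp only [sq3, tb3, dd3] <;> field_simp <;>
      (try simp only [hE, hN]) <;> ring
  · intro j k hj hk
    interval_cases j <;> interval_cases k <;> simp only [sq3, tb3, dd3] <;> field_simp <;>
      (try simp only [hE, hN]) <;> ring
  · intro j k hj hk
    interval_cases j <;> interval_cases k <;> simp only [sq3, tb3, dd3] <;> field_simp <;>
      (try simp only [hE, hN]) <;> ring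
  · intro j k hj hk
    interval_cases j <;> interval_cases k <;> simp only [sq3, tb3, dd3] <;> field_simp <;>
      (try simp only [hE, hN]) <;> ring
  · intro k hk
    interval_cases k
    · exact l0 u u1
    · exact l1 u u1 hub
  · intro k hk
    interval_cases k
    · exact m0 u u1 u0
    · exact m1 u u1 hub
  · intro k hk
    interval_cases k
    · exact lm0 u u0 hub n4
    · exact lm1 u a (mul_comm _ _) u0 u1 n3
  · intro k hk
    interval_cases k
    · exact l0 a a1
    · exact l1 a a1 hab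
  · intro k hk
    interval_cases k
    · exact m0 a a1 a0
    · exact m1 a a1 hab
  · intro k hk
    interval_cases k
    · exact lm0 a a0 hab n3
    · exact lm1 a u rfl a0 a1 n4
  · constructor
    · intro j hj
      interval_cases j <;> simp only [sq3, tb3] <;> field_simp
    · intro k hk
      interval_cases k <;> simp only [sq3, tb3] <;> field_simp

/-- The parameter arrays of the irreducible inverting pairs of dimension 3. -/
structure L3 (t s f : ℕ → F) : Prop where
  t0 : t 0 = 1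
  s0 : s 0 = 1
  st : s 2 = t 2
  t1n : t 1 ≠ 0
  t2n : t 2 ≠ 0
  s1n : s 1 ≠ 0
  t1d : t 1 ≠ 1
  t2d : t 2 ≠ 1
  s1d : s 1 ≠ 1
  t12 : t 1 ≠ t 2
  s12 : s 1 ≠ t 2
  eq : (f 1 - (t 2 - 1)) * (f 2 + t 2 * (t 2 - 1)) = -(t 1 * s 1 * (t 2 - 1) ^ 2)
  f1 : f 1 ≠ 0
  f2 : f 2 ≠ 0
  ft : f 1 + (t 1 - 1) * (t 2 - 1) ≠ 0
  fs : f 1 + (s 1 - 1) * (t 2 - 1) ≠ 0

theorem isPA2_iff (t s f : ℕ → F) : IsPA 2 t s f ↔ L3 t s f := by
  constructor
  · rintro ⟨g, hc, ht, hs, hf⟩
    obtain ⟨e1, e2, e3, e4, e5, e6⟩ := c3_elim g hc hf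
    rw [ht 2 (by omega)] at e1 e2 e5 e6
    rw [hs 2 (by omega)] at e1
    rw [ht 1 (by omega)] at e2 e5
    rw [hs 1 (by omega)] at e2 e6
    have i01 := g.t_inj 0 1 (by omega) (by omega)
    have i02 := g.t_inj 0 2 (by omega) (by omega)
    have i12 := g.t_inj 1 2 (by omega) (by omega)
    have j01 := g.s_inj 0 1 (by omega) (by omega)
    have j12 := g.s_inj 1 2 (by omega) (by omega)
    have k1 := g.t_ne 1 (by omega)
    have k2 := g.t_ne 2 (by omega)
    have k3 := g.s_ne 1 (by omega)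
    have k0 := ht 0 (by omega)
    have k0' := hs 0 (by omega)
    rw [g.t0] at i01 i02 k0
    rw [g.s0] at j01 k0'
    rw [ht 1 (by omega)] at i01 i12 k1
    rw [ht 2 (by omega)] at i02 i12 k2
    rw [hs 1 (by omega)] at j01 j12 k3
    rw [hs 2 (by omega), ← e1] at j12
    exact ⟨k0.symm, k0'.symm, e1.symm, k1, k2, k3, i01.symm, i02.symm, j01.symm, i12, j12,
      e2, e3, e4, e5, e6⟩
  · intro h
    obtain ⟨t0, s0, st, t1n, t2n, s1n, t1d, t2d, s1d, t12, s12, eq, f1, f2, ft, fs⟩ := h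
    have b1 := sub_ne_zero.2 t2d
    obtain ⟨D, hD⟩ : ∃ D, D = f 1 - (t 2 - 1) := ⟨_, rfl⟩
    obtain ⟨N, hN⟩ : ∃ N, N = t 2 * D + t 1 * s 1 * (t 2 - 1) := ⟨_, rfl⟩
    have D0 : D ≠ 0 := by
      rintro rfl
      rw [← hD, zero_mul] at eq
      exact neg_ne_zero.2 (mul_ne_zero (mul_ne_zero t1n s1n) (pow_ne_zero 2 b1)) eq.symm
    have hf1 : f 1 = D + t 2 - 1 := by rw [hD]; ring
    have e2 : D * f 2 = -((t 2 - 1) * N) := by
      rw [← hD] at eq
      rw [hN]
      linear_combination eq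
    have N0 : N ≠ 0 := by
      rintro rfl
      rw [mul_zero, neg_zero] at e2
      exact mul_ne_zero D0 f2 e2
    obtain ⟨g, hc, g1, g2, g3, g4, g5, g6, g7, g8⟩ := c3_mk_aux (t 1) (t 2) (s 1) D (f 1) N
      t1n t2n s1n (sub_ne_zero.2 t1d) b1 (sub_ne_zero.2 s1d) (sub_ne_zero.2 t12.symm)
      (sub_ne_zero.2 s12.symm) D0 hf1 hN f1 N0
      (fun h => ft (by rw [hf1]; linear_combination h))
      (fun h => fs (by rw [hf1]; linear_combination h))
    refine ⟨g, hc, ?_, ?_, ?_⟩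
    · intro i hi
      interval_cases i
      · rw [g1, t0]
      · exact g2
      · exact g3
    · intro i hi
      interval_cases i
      · rw [g4, s0]
      · exact g5
      · rw [g6, st]
    · intro k hk
      interval_cases k
      · simp only [Finset.range_zero, Finset.prod_empty, one_mul, zero_add, Finset.range_one,
          Finset.prod_singleton, g4, g5, g7]
        field_simp
        ring
      · simp only [Finset.prod_range_succ, Finset.range_zero, Finset.prod_empty, one_mul,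
          g4, g5, g6, g8]
        have hv := sub_ne_zero.2 s1d
        have e3 : f 2 = -((t 2 - 1) * N) / D := by
          rw [eq_div_iff D0]
          linear_combination e2
        rw [e3]
        field_simp
        ring

end Pool.Agent.Helper54.IP
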