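import Pool.Agent.Helper54.IP.Defs

/-!
TH-P module L1.  From the matrix form to the Szegő form.

Proof on paper.  Write `Av = Y * diagonal a * X` (matrix of `A = diagonal a` in the basis `v_k` = columns of `X`).
`X j 0 ≠ 0` for all `j`: by c1, d1 the columns `0..k` of `X` span `v_0, A v_0, .., A^k v_0`, so `X j k = p_k(a_j) X j 0`
with a polynomial `p_k` of degree exactly `k`; if `X j 0 = 0` then row `j` of `X` vanishes, contradiction.
Rows of `Y`: by c2, d2 `Y k j = r_k(1/a_j) Y 0 j`, `deg r_k = k`, so `Y 0 j ≠ 0`.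
By the transposed statement (`Mat.swap`): `X 0 k ≠ 0`, `Y k 0 ≠ 0`.
Put `q_k (j) = a_j^k Y k j X j 0 / Y 0 j`.  Since `z^k r_k(1/z)` is a polynomial of degree `≤ k`, `q_k ∈ <v_0..v_k>`;
and for `l < k`, `Y_l · (A⁻¹ q_k) = ∑ j, Y 0 j X j 0 r_l(1/a_j) a_j^(k-1) r_k(1/a_j) = ∑ j Y k j (poly of degree ≤ k-1)(a_j) X j 0 = 0`
(`YX = 1`), so `A⁻¹ q_k ∈ F'_k = <v_k..v_d>`.  `A F'_k ⊇ F'_(k+1)` has codimension one (c2), `q_k ∉ F'_(k+1)`
(`q_k ≠ 0`, `q_k ∈ <v_0..v_k>`), so `A F'_k = <q_k> + F'_(k+1)` and `A F'_k ∩ <v_0..v_(k+1)> = <q_k, v_(k+1)>`.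
`A v_k` and `q_(k+1)` lie in it; the `v_(k+1)`-coefficient of `A v_k` is `≠ 0` (d1).  Hence
`v_(k+1) = c1 A v_k + c2 q_k`, `q_(k+1) = c3 A v_k + c4 q_k`; `c1 ≠ 0` (degree), `c4 ≠ 0` (constant term: `deg r_(k+1) = k+1`),
and `v_(k+1), q_(k+1)` independent (otherwise `v_(k+1) ∈ A F'_(k+1)`, so `A F'_(k+1) = F'_(k+1)`, contradiction with d2 ).
Evaluate at `j`, divide by `X j 0`, normalise at `j = 0`.
Boundary: `q_d`-relation `A⁻¹ v_d ∈ <v_(d-1), v_d>`...: `G j m = t_j^(m-1) H j m`: `A⁻¹ q_m ∈ F'_m = <v_m>`, so `q_m ∝ A v_m`,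
i.e. `t_j^m H j m = t_j G j m`.
-/

namespace Pool.Agent.Helper54.IP

open Matrix Polynomial

variable {F : Type*} [Field F]

/-- the polynomials attached to a Hessenberg recursion -/
private theorem poly_cols {m : ℕ} {c : Fin (m + 1) → F}
    {Z H : Matrix (Fin (m + 1)) (Fin (m + 1)) F}
    (hr : ∀ j k, c j * Z j k = ∑ i, Z j i * H i k)
    (h0 : ∀ i k : Fin (m + 1), (k : ℕ) + 1 < i → H i k = 0)
    (h1 : ∀ i k : Fin (m + 1), (i : ℕ) = k + 1 → H i k ≠ 0) :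
    ∀ k : ℕ, ∀ hk : k < m + 1, ∃ p : F[X], p.natDegree = k ∧ p ≠ 0 ∧
      ∀ j, Z j ⟨k, hk⟩ = p.eval (c j) * Z j 0 := by
  intro k
  induction k using Nat.strong_induction_on with
  | _ k ih =>
    intro hk
    rcases Nat.eq_zero_or_pos k with rfl | hpos
    · exact ⟨1, natDegree_one, one_ne_zero, fun j => by simp⟩
    · obtain ⟨k, rfl⟩ : ∃ k', k = k' + 1 := ⟨k - 1, by omega⟩
      have ih' : ∀ i : Fin (m + 1), (i : ℕ) < k + 1 → ∃ p : F[X], p.natDegree = i ∧ p ≠ 0 ∧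
          ∀ j, Z j i = p.eval (c j) * Z j 0 := fun i hi => ih i hi i.2
      choose! p hp using ih'
      have hk' : k < m + 1 := by omega
      set κ : Fin (m + 1) := ⟨k, hk'⟩ with hκ
      set κ1 : Fin (m + 1) := ⟨k + 1, hk⟩ with hκ1
      have hH : H κ1 κ ≠ 0 := h1 κ1 κ rfl
      set S : F[X] := ∑ i ∈ Finset.univ.filter (fun i : Fin (m + 1) => (i : ℕ) < k + 1),
        C (H i κ) * p i with hS
      obtain ⟨hpk1, hpk2, hpk3⟩ := hp κ (Nat.lt_succ_self k)
      have hdeg1 : (X * p κ).degree = ((k + 1 : ℕ) : WithBot ℕ) := by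
        rw [degree_mul, degree_X, degree_eq_natDegree hpk2, hpk1]
        push_cast
        ring
      have hdeg2 : S.degree < ((k + 1 : ℕ) : WithBot ℕ) := by
        rw [← mem_degreeLT]
        refine Submodule.sum_mem _ fun i hi => ?_
        have hi' : (i : ℕ) < k + 1 := (Finset.mem_filter.1 hi).2
        rw [← smul_eq_C_mul]
        refine Submodule.smul_mem _ _ (mem_degreeLT.2 ?_)
        rw [degree_eq_natDegree (hp i hi').2.1, (hp i hi').1]
        exact_mod_cast hi'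
      have hdeg3 : (X * p κ - S).degree = ((k + 1 : ℕ) : WithBot ℕ) := by
        rw [degree_sub_eq_left_of_degree_lt (by rw [hdeg1]; exact hdeg2), hdeg1]
      have hne : X * p κ - S ≠ 0 := by
        intro h
        rw [h, degree_zero] at hdeg3
        exact WithBot.bot_ne_coe hdeg3
      have hCne : C (H κ1 κ)⁻¹ ≠ 0 := by
        rw [Ne, C_eq_zero]
        exact inv_ne_zero hH
      refine ⟨C (H κ1 κ)⁻¹ * (X * p κ - S), ?_, mul_ne_zero hCne hne, fun j => ?_⟩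
      · rw [natDegree_C_mul (inv_ne_zero hH)]
        exact natDegree_eq_of_degree_eq_some hdeg3
      · have e1 : S.eval (c j) * Z j 0 =
            ∑ i ∈ Finset.univ.filter (fun i : Fin (m + 1) => (i : ℕ) < k + 1), Z j i * H i κ := by
          rw [hS, eval_finset_sum, Finset.sum_mul]
          refine Finset.sum_congr rfl fun i hi => ?_
          have hi' : (i : ℕ) < k + 1 := (Finset.mem_filter.1 hi).2
          rw [(hp i hi').2.2 j, eval_mul, eval_C]
          ring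
        have e2 : ∑ i ∈ Finset.univ.filter (fun i : Fin (m + 1) => ¬ (i : ℕ) < k + 1),
            Z j i * H i κ = Z j κ1 * H κ1 κ := by
          refine Finset.sum_eq_single κ1 ?_ ?_
          · intro i hi hne
            have hi' : ¬ (i : ℕ) < k + 1 := (Finset.mem_filter.1 hi).2
            have : k + 1 < (i : ℕ) := by
              rcases Nat.lt_or_ge (k + 1) (i : ℕ) with h | h
              · exact h
              · exact absurd (Fin.ext (by rw [hκ1]; simp; omega)) hne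
            rw [h0 i κ this, mul_zero]
          · intro h
            exact absurd (Finset.mem_filter.2 ⟨Finset.mem_univ _, by rw [hκ1]; simp⟩) h
        have e3 := hr j κ
        rw [← Finset.sum_filter_add_sum_filter_not Finset.univ
          (fun i : Fin (m + 1) => (i : ℕ) < k + 1), e2, ← e1, hpk3 j] at e3
        rw [eval_mul, eval_C, eval_sub, eval_mul, eval_X]
        field_simp
        linear_combination -e3

/-- the symmetric hypotheses -/
private structure Bi {m : ℕ} (c : Fin (m + 1) → F)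
    (Z Z' H H' : Matrix (Fin (m + 1)) (Fin (m + 1)) F) : Prop where
  c_ne : ∀ j, c j ≠ 0
  c_inj : Function.Injective c
  orth : ∀ l k, ∑ j, Z' j l * Z j k = if l = k then 1 else 0
  orth2 : ∀ i j, ∑ k, Z i k * Z' j k = if i = j then 1 else 0
  hr : ∀ j k, c j * Z j k = ∑ i, Z j i * H i k
  h0 : ∀ i k : Fin (m + 1), (k : ℕ) + 1 < i → H i k = 0
  h1 : ∀ i k : Fin (m + 1), (i : ℕ) = k + 1 → H i k ≠ 0
  hr' : ∀ j k, (c j)⁻¹ * Z' j k = ∑ i, Z' j i * H' i k
  h0' : ∀ i k : Fin (m + 1), (k : ℕ) + 1 < i → H' i k = 0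
  h1' : ∀ i k : Fin (m + 1), (i : ℕ) = k + 1 → H' i k ≠ 0

private theorem Bi.dual {m : ℕ} {c : Fin (m + 1) → F}
    {Z Z' H H' : Matrix (Fin (m + 1)) (Fin (m + 1)) F} (b : Bi c Z Z' H H') :
    Bi (fun j => (c j)⁻¹) Z' Z H' H where
  c_ne := fun j => inv_ne_zero (b.c_ne j)
  c_inj := fun i j h => b.c_inj (inv_injective h)
  orth := fun l k => by
    have := b.orth k l
    simp only [mul_comm (Z _ _)]
    rw [this]
    simp [eq_comm]
  orth2 := fun i j => by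
    have := b.orth2 j i
    simp only [mul_comm (Z' _ _)]
    rw [this]
    simp [eq_comm]
  hr := b.hr'
  h0 := b.h0'
  h1 := b.h1'
  hr' := fun j k => by rw [inv_inv]; exact b.hr j k
  h0' := b.h0
  h1' := b.h1

section

variable {m : ℕ} {c : Fin (m + 1) → F} {Z Z' H H' : Matrix (Fin (m + 1)) (Fin (m + 1)) F}

private theorem Bi.exists_p (b : Bi c Z Z' H H') : ∃ p : ℕ → F[X], ∀ k (hk : k < m + 1),
    (p k).natDegree = k ∧ p k ≠ 0 ∧ ∀ j, Z j ⟨k, hk⟩ = (p k).eval (c j) * Z j 0 := by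
  have h := poly_cols b.hr b.h0 b.h1
  choose! p hp using h
  exact ⟨p, hp⟩

private theorem Bi.ne0 (b : Bi c Z Z' H H') (j : Fin (m + 1)) : Z j 0 ≠ 0 := by
  intro h
  obtain ⟨p, hp⟩ := b.exists_p
  have h1 := b.orth2 j j
  rw [if_pos rfl] at h1
  have h2 : ∑ k, Z j k * Z' j k = 0 := by
    refine Finset.sum_eq_zero fun k _ => ?_
    have h3 := (hp k k.2).2.2 j
    rw [h, mul_zero] at h3
    have h4 : Z j k = 0 := h3
    rw [h4, zero_mul]
  rw [h2] at h1
  exact zero_ne_one h1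

/-- the moment functional -/
private def B (c : Fin (m + 1) → F) (Z Z' : Matrix (Fin (m + 1)) (Fin (m + 1)) F)
    (f : F[X]) (l : ℕ) : F :=
  ∑ j, Z' j 0 * Z j 0 * f.eval (c j) * (c j)⁻¹ ^ l

private theorem B_sub (f g : F[X]) (l : ℕ) : B c Z Z' (f - g) l = B c Z Z' f l - B c Z Z' g l := by
  simp only [B, eval_sub, mul_sub, sub_mul, Finset.sum_sub_distrib]

private theorem B_C_mul (a : F) (f : F[X]) (l : ℕ) :
    B c Z Z' (C a * f) l = a * B c Z Z' f l := by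
  simp only [B, eval_mul, eval_C, Finset.mul_sum]
  exact Finset.sum_congr rfl fun j _ => by ring

private theorem Bi.X_mul (b : Bi c Z Z' H H') (f : F[X]) (l : ℕ) :
    B c Z Z' (X * f) (l + 1) = B c Z Z' f l := by
  simp only [B, eval_mul, eval_X]
  refine Finset.sum_congr rfl fun j _ => ?_
  rw [pow_succ]
  have := b.c_ne j
  field_simp

/-- orthogonality -/
private theorem Bi.orthp (b : Bi c Z Z' H H') {p : ℕ → F[X]}
    (hp : ∀ k (hk : k < m + 1),
      (p k).natDegree = k ∧ p k ≠ 0 ∧ ∀ j, Z j ⟨k, hk⟩ = (p k).eval (c j) * Z j 0)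
    (k : ℕ) (hk : k < m + 1) :
    (∀ l < k, B c Z Z' (p k) l = 0) ∧ B c Z Z' (p k) k ≠ 0 := by
  obtain ⟨r, hr⟩ := b.dual.exists_p
  have key : ∀ l, (hl : l < m + 1) → ∑ i ∈ Finset.range (l + 1), (r l).coeff i * B c Z Z' (p k) i =
      if l = k then 1 else 0 := by
    intro l hl
    have h1 := b.orth ⟨l, hl⟩ ⟨k, hk⟩
    have h2 : ((⟨l, hl⟩ : Fin (m + 1)) = ⟨k, hk⟩) ↔ l = k := by simp
    simp only [h2] at h1
    rw [← h1]
    simp only [B, Finset.mul_sum]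
    rw [Finset.sum_comm]
    refine Finset.sum_congr rfl fun j _ => ?_
    rw [(hp k hk).2.2 j, (hr l hl).2.2 j, eval_eq_sum_range (p := r l), (hr l hl).1, Finset.sum_mul,
      Finset.sum_mul]
    exact Finset.sum_congr rfl fun i _ => by ring
  have hc : ∀ l, l < m + 1 → (r l).coeff l ≠ 0 := by
    intro l hl
    have := (hr l hl).1
    have h2 := leadingCoeff_ne_zero.2 (hr l hl).2.1
    rwa [leadingCoeff, this] at h2
  have h0 : ∀ l < k, B c Z Z' (p k) l = 0 := by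
    intro l
    induction l using Nat.strong_induction_on with
    | _ l ih =>
      intro hlk
      have hl : l < m + 1 := by omega
      have h1 := key l hl
      rw [if_neg (by omega), Finset.sum_range_succ, Finset.sum_eq_zero, zero_add] at h1
      · exact (mul_eq_zero.1 h1).resolve_left (hc l hl)
      · intro i hi
        rw [ih i (Finset.mem_range.1 hi) (by have := Finset.mem_range.1 hi; omega), mul_zero]
  refine ⟨h0, fun h => ?_⟩
  have h1 := key k hk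
  rw [if_pos rfl, Finset.sum_range_succ, Finset.sum_eq_zero, zero_add, h, mul_zero] at h1
  · exact zero_ne_one h1
  · intro i hi
    rw [h0 i (Finset.mem_range.1 hi), mul_zero]

/-- nondegeneracy -/
private theorem Bi.nondeg (b : Bi c Z Z' H H') (k : ℕ) (hk : k ≤ m + 1) (f : F[X])
    (hf : f.degree < (k : WithBot ℕ)) (h : ∀ l < k, B c Z Z' f l = 0) : f = 0 := by
  obtain ⟨p, hp⟩ := b.exists_p
  induction k generalizing f with
  | zero =>
    rw [Nat.cast_zero, Nat.WithBot.lt_zero_iff, degree_eq_bot] at hf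
    exact hf
  | succ k ih =>
    have hk' : k < m + 1 := by omega
    obtain ⟨ho1, ho2⟩ := b.orthp hp k hk'
    obtain ⟨hp1, hp2, -⟩ := hp k hk'
    have hlc : (p k).coeff k ≠ 0 := by
      have h2 := leadingCoeff_ne_zero.2 hp2
      rwa [leadingCoeff, hp1] at h2
    have hf' := degree_lt_iff_coeff_zero _ _ |>.1 hf
    have h1 : f - C (f.coeff k / (p k).coeff k) * p k = 0 := by
      apply ih (by omega)
      · rw [degree_lt_iff_coeff_zero]
        intro n hn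
        rw [coeff_sub, coeff_C_mul]
        rcases Nat.eq_or_lt_of_le hn with rfl | hn'
        · field_simp
          ring
        · rw [hf' n hn', coeff_eq_zero_of_natDegree_lt (p := p k) (n := n) (by omega)]
          ring
      · intro l hl
        rw [B_sub, B_C_mul, ho1 l hl, h l (by omega)]
        ring
    have h2 : f = C (f.coeff k / (p k).coeff k) * p k := sub_eq_zero.1 h1
    have h3 := h k (Nat.lt_succ_self k)
    rw [h2, B_C_mul] at h3
    rw [h2, (mul_eq_zero.1 h3).resolve_right ho2, C_0, zero_mul]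

/-- the reversed polynomials of the dual family -/
private theorem Bi.exists_q (b : Bi c Z Z' H H') (k : ℕ) (hk : k < m + 1) :
    ∃ q : F[X], q.degree < ((k + 1 : ℕ) : WithBot ℕ) ∧ q.coeff 0 ≠ 0 ∧
      (∀ j, c j ^ k * Z' j ⟨k, hk⟩ = q.eval (c j) * Z' j 0) ∧
      ∀ l, 1 ≤ l → l ≤ k → B c Z Z' q l = 0 := by
  obtain ⟨r, hr⟩ := b.dual.exists_p
  obtain ⟨hr1, hr2, hr3⟩ := hr k hk
  have hev : ∀ j, (∑ i ∈ Finset.range (k + 1), C ((r k).coeff i) * X ^ (k - i)).eval (c j) =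
      c j ^ k * (r k).eval (c j)⁻¹ := by
    intro j
    have hc := b.c_ne j
    rw [eval_finset_sum, eval_eq_sum_range (p := r k), hr1, Finset.mul_sum]
    refine Finset.sum_congr rfl fun i hi => ?_
    have hi' : i ≤ k := Nat.lt_succ_iff.1 (Finset.mem_range.1 hi)
    rw [eval_mul, eval_C, eval_pow, eval_X]
    have h1 : c j ^ k = c j ^ (k - i) * c j ^ i := by rw [← pow_add]; congr 1; omega
    rw [h1, inv_pow]
    field_simp
  refine ⟨∑ i ∈ Finset.range (k + 1), C ((r k).coeff i) * X ^ (k - i), ?_, ?_, ?_, ?_⟩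
  · rw [← mem_degreeLT]
    refine Submodule.sum_mem _ fun i hi => ?_
    rw [← smul_eq_C_mul]
    refine Submodule.smul_mem _ _ (mem_degreeLT.2 ?_)
    rw [degree_X_pow]
    exact_mod_cast Nat.lt_succ_of_le (Nat.sub_le k i)
  · rw [finset_sum_coeff, Finset.sum_eq_single k]
    · have h2 := leadingCoeff_ne_zero.2 hr2
      rw [leadingCoeff, hr1] at h2
      simpa using h2
    · intro i hi hne
      have hi' : i < k + 1 := Finset.mem_range.1 hi
      rw [coeff_C_mul, coeff_X_pow, if_neg (by omega), mul_zero]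
    · intro h
      exact absurd (Finset.mem_range.2 (Nat.lt_succ_self k)) h
  · intro j
    rw [hev, hr3 j]
    ring
  · intro l hl1 hl2
    have h1 := (b.dual.orthp hr k hk).1 (k - l) (by omega)
    rw [← h1]
    simp only [B, hev]
    refine Finset.sum_congr rfl fun j _ => ?_
    have hc := b.c_ne j
    have h2 : c j ^ k = c j ^ (k - l) * c j ^ l := by rw [← pow_add]; congr 1; omega
    rw [h2, inv_inv, inv_pow]
    field_simp

private theorem Bi.space (b : Bi c Z Z' H H') (k : ℕ) (hk : k < m + 1) {q : F[X]}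
    (hq1 : q.degree < ((k + 1 : ℕ) : WithBot ℕ)) (hq2 : q.coeff 0 ≠ 0)
    (hq3 : ∀ l, 1 ≤ l → l ≤ k → B c Z Z' q l = 0) {f : F[X]}
    (hf1 : f.degree < ((k + 1 : ℕ) : WithBot ℕ))
    (hf3 : ∀ l, 1 ≤ l → l ≤ k → B c Z Z' f l = 0) : ∃ a, f = C a * q := by
  refine ⟨f.coeff 0 / q.coeff 0, ?_⟩
  rw [← sub_eq_zero]
  set f' := f - C (f.coeff 0 / q.coeff 0) * q with hf'
  have h0 : f'.coeff 0 = 0 := by
    rw [hf', coeff_sub, coeff_C_mul]
    field_simp
    ring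
  obtain ⟨g, hg⟩ := X_dvd_iff.2 h0
  have hg0 : g = 0 := by
    apply b.nondeg k (by omega)
    · rw [degree_lt_iff_coeff_zero]
      intro n hn
      rw [← coeff_X_mul, ← hg, hf', coeff_sub, coeff_C_mul,
        (degree_lt_iff_coeff_zero _ _).1 hf1 (n + 1) (by omega),
        (degree_lt_iff_coeff_zero _ _).1 hq1 (n + 1) (by omega)]
      ring
    · intro l hl
      rw [← b.X_mul, ← hg, hf', B_sub, B_C_mul, hf3 (l + 1) (by omega) (by omega),
        hq3 (l + 1) (by omega) (by omega)]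
      ring
  rw [hg, hg0, mul_zero]

/-- first recursion -/
private theorem Bi.S1 (b : Bi c Z Z' H H') (k : ℕ) (hk : k + 1 < m + 1) :
    ∃ c1 c2 : F, c1 ≠ 0 ∧ ∀ j, Z j ⟨k + 1, hk⟩ * Z' j 0 =
      c1 * (c j * Z j ⟨k, by omega⟩ * Z' j 0) + c2 * (c j ^ k * Z' j ⟨k, by omega⟩ * Z j 0) := by
  obtain ⟨p, hp⟩ := b.exists_p
  have hk' : k < m + 1 := by omega
  obtain ⟨q, hq1, hq2, hq3, hq4⟩ := b.exists_q k hk'
  obtain ⟨hp1, hp2, hp3⟩ := hp k hk'
  obtain ⟨hP1, hP2, hP3⟩ := hp (k + 1) hk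
  have hlc : (p k).coeff k ≠ 0 := by
    have h2 := leadingCoeff_ne_zero.2 hp2
    rwa [leadingCoeff, hp1] at h2
  have hLC : (p (k + 1)).coeff (k + 1) ≠ 0 := by
    have h2 := leadingCoeff_ne_zero.2 hP2
    rwa [leadingCoeff, hP1] at h2
  obtain ⟨a, ha⟩ := b.space k hk' hq1 hq2 hq4
    (f := p (k + 1) - C ((p (k + 1)).coeff (k + 1) / (p k).coeff k) * (X * p k))
    (by
      rw [degree_lt_iff_coeff_zero]
      intro n hn
      obtain ⟨n, rfl⟩ : ∃ n', n = n' + 1 := ⟨n - 1, by omega⟩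
      rw [coeff_sub, coeff_C_mul, coeff_X_mul]
      rcases Nat.eq_or_lt_of_le (Nat.succ_le_succ_iff.1 hn) with rfl | hn'
      · field_simp
        ring
      · rw [coeff_eq_zero_of_natDegree_lt (p := p (k + 1)) (n := n + 1) (by omega),
          coeff_eq_zero_of_natDegree_lt (p := p k) (n := n) (by omega)]
        ring)
    (by
      intro l hl1 hl2
      obtain ⟨l, rfl⟩ : ∃ l', l = l' + 1 := ⟨l - 1, by omega⟩
      rw [B_sub, B_C_mul, b.X_mul, (b.orthp hp k hk').1 l (by omega),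
        (b.orthp hp (k + 1) hk).1 (l + 1) (by omega)]
      ring)
  refine ⟨(p (k + 1)).coeff (k + 1) / (p k).coeff k, a, div_ne_zero hLC hlc, fun j => ?_⟩
  have h1 := congrArg (eval (c j)) ha
  rw [eval_sub, eval_mul, eval_mul, eval_mul, eval_C, eval_C, eval_X] at h1
  rw [hP3 j, hp3 j]
  have h2 := hq3 j
  rw [sub_eq_iff_eq_add] at h1
  rw [h1]
  linear_combination (-a * Z j 0) * h2

/-- boundary -/
private theorem Bi.S2 (b : Bi c Z Z' H H') :
    ∃ a : F, ∀ j, c j * Z j ⟨m, Nat.lt_succ_self m⟩ * Z' j 0 =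
      a * (c j ^ m * Z' j ⟨m, Nat.lt_succ_self m⟩ * Z j 0) := by
  obtain ⟨p, hp⟩ := b.exists_p
  have hm : m < m + 1 := Nat.lt_succ_self m
  obtain ⟨q, hq1, hq2, hq3, hq4⟩ := b.exists_q m hm
  have hinj : Set.InjOn c (Finset.univ : Finset (Fin (m + 1))) := b.c_inj.injOn
  have hev : ∀ j, (Lagrange.interpolate Finset.univ c (fun j => c j * (p m).eval (c j))).eval (c j)
      = c j * (p m).eval (c j) := fun j =>
    Lagrange.eval_interpolate_at_node _ hinj (Finset.mem_univ j)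
  obtain ⟨a, ha⟩ := b.space m hm hq1 hq2 hq4
    (f := Lagrange.interpolate Finset.univ c (fun j => c j * (p m).eval (c j)))
    (by
      have := Lagrange.degree_interpolate_lt (fun j => c j * (p m).eval (c j)) hinj
      simpa using this)
    (by
      intro l hl1 hl2
      obtain ⟨l, rfl⟩ : ∃ l', l = l' + 1 := ⟨l - 1, by omega⟩
      have h := (b.orthp hp m hm).1 l (by omega)
      rw [← b.X_mul] at h
      rw [← h]
      simp only [B, hev, eval_mul, eval_X])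
  refine ⟨a, fun j => ?_⟩
  have h1 := congrArg (eval (c j)) ha
  rw [hev, eval_mul, eval_C] at h1
  rw [(hp m hm).2.2 j]
  have h2 := hq3 j
  linear_combination (Z j 0 * Z' j 0) * h1 - (a * Z j 0) * h2

/-- independence -/
private theorem Bi.S3 (b : Bi c Z Z' H H') (k : ℕ) (hk : k < m + 1) (hk1 : 1 ≤ k) (a : F)
    (h : ∀ j, c j ^ k * Z' j ⟨k, hk⟩ * Z j 0 = a * (Z j ⟨k, hk⟩ * Z' j 0)) : False := by
  obtain ⟨p, hp⟩ := b.exists_p
  obtain ⟨q, hq1, hq2, hq3, hq4⟩ := b.exists_q k hk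
  have h1 : B c Z Z' q k = a * B c Z Z' (p k) k := by
    simp only [B, Finset.mul_sum]
    refine Finset.sum_congr rfl fun j _ => ?_
    have h2 := h j
    rw [hq3 j, (hp k hk).2.2 j] at h2
    linear_combination ((c j)⁻¹ ^ k) * h2
  rw [hq4 k hk1 le_rfl] at h1
  have ha : a = 0 := (mul_eq_zero.1 h1.symm).resolve_right (b.orthp hp k hk).2
  have h3 := b.orth ⟨k, hk⟩ ⟨k, hk⟩
  rw [if_pos rfl] at h3
  have h4 : ∑ j, Z' j ⟨k, hk⟩ * Z j ⟨k, hk⟩ = 0 := by
    refine Finset.sum_eq_zero fun j _ => ?_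
    have h5 := h j
    rw [ha, zero_mul] at h5
    have h6 : Z' j ⟨k, hk⟩ = 0 := by
      rcases mul_eq_zero.1 h5 with h6 | h6
      · exact (mul_eq_zero.1 h6).resolve_left (pow_ne_zero _ (b.c_ne j))
      · exact absurd h6 (b.ne0 j)
    rw [h6, zero_mul]
  rw [h4] at h3
  exact zero_ne_one h3

/-- one side of the Szegő form -/
private theorem Bi.half (b : Bi c Z Z' H H') (hz : ∀ k, Z 0 k ≠ 0) (hz' : ∀ k, Z' 0 k ≠ 0)
    (k : ℕ) (hk : k + 1 < m + 1) (hk' : k < m + 1) : ∃ lam mu : F,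
    (∀ j, Z j ⟨k + 1, hk⟩ * Z 0 0 / (Z 0 ⟨k + 1, hk⟩ * Z j 0) =
      (1 - lam) * (c j / c 0 * (Z j ⟨k, hk'⟩ * Z 0 0 / (Z 0 ⟨k, hk'⟩ * Z j 0))) +
      lam * ((c j / c 0) ^ k * (Z' j ⟨k, hk'⟩ * Z' 0 0 / (Z' 0 ⟨k, hk'⟩ * Z' j 0)))) ∧
    (∀ j, (c j / c 0) ^ (k + 1) * (Z' j ⟨k + 1, hk⟩ * Z' 0 0 / (Z' 0 ⟨k + 1, hk⟩ * Z' j 0)) =
      (1 - mu) * (c j / c 0 * (Z j ⟨k, hk'⟩ * Z 0 0 / (Z 0 ⟨k, hk'⟩ * Z j 0))) +
      mu * ((c j / c 0) ^ k * (Z' j ⟨k, hk'⟩ * Z' 0 0 / (Z' 0 ⟨k, hk'⟩ * Z' j 0)))) ∧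
    lam ≠ 1 ∧ mu ≠ 0 ∧ lam ≠ mu := by
  obtain ⟨c1, c2, hc1, hA⟩ := b.S1 k hk
  obtain ⟨d1, d2, hd1, hB'⟩ := b.dual.S1 k hk
  have hB : ∀ j, c j ^ (k + 1) * Z' j ⟨k + 1, hk⟩ * Z j 0 =
      d2 * (c j * Z j ⟨k, hk'⟩ * Z' j 0) + d1 * (c j ^ k * Z' j ⟨k, hk'⟩ * Z j 0) := by
    intro j
    have hc := b.c_ne j
    have h1 : c j ^ (k + 1) * (Z' j ⟨k + 1, hk⟩ * Z j 0) = c j ^ (k + 1) *
        (d1 * ((c j)⁻¹ * Z' j ⟨k, hk'⟩ * Z j 0) + d2 * ((c j)⁻¹ ^ k * Z j ⟨k, hk'⟩ * Z' j 0)) :=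
      congrArg _ (hB' j)
    have h2 : c j ^ (k + 1) * (c j)⁻¹ = c j ^ k := by rw [pow_succ]; field_simp
    have h3 : c j ^ (k + 1) * (c j)⁻¹ ^ k = c j := by
      rw [pow_succ, inv_pow]; field_simp
    calc c j ^ (k + 1) * Z' j ⟨k + 1, hk⟩ * Z j 0 = c j ^ (k + 1) * (Z' j ⟨k + 1, hk⟩ * Z j 0) := by
          ring
      _ = d2 * ((c j ^ (k + 1) * (c j)⁻¹ ^ k) * Z j ⟨k, hk'⟩ * Z' j 0) +
          d1 * ((c j ^ (k + 1) * (c j)⁻¹) * Z' j ⟨k, hk'⟩ * Z j 0) := by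
          rw [h1]; ring
      _ = _ := by rw [h2, h3]
  clear hB'
  set κ : Fin (m + 1) := ⟨k, hk'⟩
  set κ1 : Fin (m + 1) := ⟨k + 1, hk⟩
  have hA' : ∀ j, Z j κ1 * Z' j 0 = c1 * (c j * Z j κ * Z' j 0) + c2 * (c j ^ k * Z' j κ * Z j 0) :=
    hA
  clear hA
  have hc := b.c_ne 0
  have hzk := hz κ
  have hzk1 := hz κ1
  have hz0 := hz 0
  have hzk' := hz' κ
  have hzk1' := hz' κ1
  have hz0' := hz' 0
  have hlam : 1 - c2 * c 0 ^ k * Z' 0 κ * Z 0 0 / (Z' 0 0 * Z 0 κ1) =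
      c1 * c 0 * Z 0 κ / Z 0 κ1 := by
    have h1 := hA' 0
    field_simp
    linear_combination h1
  have hmu : 1 - d1 * Z' 0 κ / (c 0 * Z' 0 κ1) =
      d2 * c 0 * Z 0 κ * Z' 0 0 / (c 0 ^ (k + 1) * Z' 0 κ1 * Z 0 0) := by
    have h1 := hB 0
    rw [pow_succ] at h1 ⊢
    field_simp
    linear_combination h1
  refine ⟨c2 * c 0 ^ k * Z' 0 κ * Z 0 0 / (Z' 0 0 * Z 0 κ1), d1 * Z' 0 κ / (c 0 * Z' 0 κ1),
    fun j => ?_, fun j => ?_, ?_, ?_, ?_⟩
  · rw [hlam]
    have hj := b.ne0 j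
    have hj' := b.dual.ne0 j
    have h1 := hA' j
    rw [div_pow]
    field_simp
    linear_combination h1
  · rw [hmu]
    have hj := b.ne0 j
    have hj' := b.dual.ne0 j
    have h1 := hB j
    rw [div_pow, div_pow]
    rw [pow_succ] at h1 ⊢
    rw [pow_succ (c 0)]
    field_simp
    linear_combination h1
  · intro h
    rw [h, sub_self] at hlam
    exact (div_ne_zero (mul_ne_zero (mul_ne_zero hc1 hc) hzk) hzk1) hlam.symm
  · exact div_ne_zero (mul_ne_zero hd1 hzk') (mul_ne_zero hc hzk1')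
  · intro h
    have h1 : (c1 * c 0 * Z 0 κ / Z 0 κ1) * (d1 * Z' 0 κ / (c 0 * Z' 0 κ1)) =
        (d2 * c 0 * Z 0 κ * Z' 0 0 / (c 0 ^ (k + 1) * Z' 0 κ1 * Z 0 0)) *
        (c2 * c 0 ^ k * Z' 0 κ * Z 0 0 / (Z' 0 0 * Z 0 κ1)) := by
      rw [← hlam, ← hmu, h]
    have h2 : c1 * d1 = c2 * d2 := by
      rw [pow_succ] at h1
      have h3 : (c 0 ^ k) ≠ 0 := pow_ne_zero _ hc
      field_simp at h1
      linear_combination h1
    refine b.S3 (k + 1) hk (by omega) (d2 / c1) fun j => ?_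
    have h3 := hB j
    have h4 := hA' j
    show c j ^ (k + 1) * Z' j κ1 * Z j 0 = d2 / c1 * (Z j κ1 * Z' j 0)
    rw [h3, h4]
    field_simp
    linear_combination (c j ^ k * Z' j κ * Z j 0) * h2

private theorem Bi.bd (b : Bi c Z Z' H H') (hz : ∀ k, Z 0 k ≠ 0) (hz' : ∀ k, Z' 0 k ≠ 0)
    (j : Fin (m + 1)) (hm : m < m + 1) :
    c j / c 0 * (Z j ⟨m, hm⟩ * Z 0 0 / (Z 0 ⟨m, hm⟩ * Z j 0)) =
      (c j / c 0) ^ m * (Z' j ⟨m, hm⟩ * Z' 0 0 / (Z' 0 ⟨m, hm⟩ * Z' j 0)) := by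
  obtain ⟨a, ha⟩ := b.S2
  have h0 := ha 0
  have hj := ha j
  have hc := b.c_ne 0
  have hcj := b.c_ne j
  have hzm := hz ⟨m, hm⟩
  have hzm' := hz' ⟨m, hm⟩
  have hz0 := hz 0
  have hz0' := hz' 0
  have hZj := b.ne0 j
  have hZj' := b.dual.ne0 j
  have hane : a ≠ 0 := by
    rintro rfl
    rw [zero_mul] at h0
    exact (mul_ne_zero (mul_ne_zero hc hzm) hz0') h0
  have h1 : (c j * Z j ⟨m, hm⟩ * Z' j 0) * (c 0 ^ m * Z' 0 ⟨m, hm⟩ * Z 0 0) =
      (c 0 * Z 0 ⟨m, hm⟩ * Z' 0 0) * (c j ^ m * Z' j ⟨m, hm⟩ * Z j 0) := by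
    rw [h0, hj]
    ring
  rw [div_pow]
  have h3 : (c 0 ^ m) ≠ 0 := pow_ne_zero _ hc
  field_simp
  linear_combination h1

end

private theorem Mat.bi {m : ℕ} (M : Mat F (m + 1)) : Bi M.a M.X M.Yᵀ
    (M.Y * diagonal M.a * M.X) (M.Y * diagonal (fun t => (M.a t)⁻¹) * M.X)ᵀ where
  c_ne := M.a_ne
  c_inj := M.a_inj
  orth := fun l k => by
    have h := congrFun (congrFun M.YX l) k
    rw [Matrix.mul_apply, Matrix.one_apply] at h
    exact h
  orth2 := fun i j => by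
    have h := congrFun (congrFun M.XY i) j
    rw [Matrix.mul_apply, Matrix.one_apply] at h
    exact h
  hr := fun j k => by
    have h : diagonal M.a * M.X = M.X * (M.Y * diagonal M.a * M.X) := by
      rw [Matrix.mul_assoc M.Y, ← Matrix.mul_assoc M.X, M.XY, Matrix.one_mul]
    have h1 := congrFun (congrFun h j) k
    rw [Matrix.diagonal_mul, Matrix.mul_apply] at h1
    exact h1
  h0 := M.c1
  h1 := M.d1
  hr' := fun j k => by
    have h : M.Y * diagonal (fun t => (M.a t)⁻¹) =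
        M.Y * diagonal (fun t => (M.a t)⁻¹) * M.X * M.Y := by
      rw [Matrix.mul_assoc _ M.X, M.XY, Matrix.mul_one]
    have h1 := congrFun (congrFun h k) j
    rw [Matrix.mul_diagonal, Matrix.mul_apply] at h1
    rw [Matrix.transpose_apply, mul_comm, h1]
    refine Finset.sum_congr rfl fun i _ => ?_
    rw [Matrix.transpose_apply, Matrix.transpose_apply, mul_comm]
  h0' := fun i k h => M.c2 k i h
  h1' := fun i k h => M.d2 k i h

theorem Mat.toGForm {m : ℕ} (M : Mat F (m + 1)) : ∃ g : GForm F m,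
    (∀ i (h : i < m + 1), g.t i = M.a ⟨i, h⟩ / M.a 0) ∧
    (∀ i (h : i < m + 1), g.s i = M.b ⟨i, h⟩ / M.b 0) ∧
    (∀ j k (hj : j < m + 1) (hk : k < m + 1),
      g.G j k = M.X ⟨j, hj⟩ ⟨k, hk⟩ * M.X 0 0 / (M.X 0 ⟨k, hk⟩ * M.X ⟨j, hj⟩ 0)) ∧
    (∀ j, j ≤ m → g.t j * g.G j m = g.t j ^ m * g.H j m) ∧
    (∀ k, k ≤ m → g.s k * g.G m k = g.s k ^ m * g.H m k) := by
  have hX : ∀ j, M.X j 0 ≠ 0 := M.bi.ne0
  have hY : ∀ j, M.Y 0 j ≠ 0 := M.bi.dual.ne0
  have hX' : ∀ j, M.X 0 j ≠ 0 := M.swap.bi.ne0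
  have hY' : ∀ j, M.Y j 0 ≠ 0 := M.swap.bi.dual.ne0
  have h1 := M.bi.half hX' hY'
  have h2 := M.swap.bi.half hX hY
  have hm : m < m + 1 := Nat.lt_succ_self m
  have b1 := fun j => M.bi.bd hX' hY' j hm
  have b2 := fun j => M.swap.bi.bd hX hY j hm
  choose! lam mu h1 using h1
  choose! lam' mu' h2 using h2
  let fi : ℕ → Fin (m + 1) := fun i => Fin.ofNat (m + 1) i
  have e : ∀ i (h : i < m + 1), fi i = ⟨i, h⟩ := fun i h => Fin.ext (Nat.mod_eq_of_lt h)
  have e0 : fi 0 = 0 := rfl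
  have hG : ∀ j k : Fin (m + 1), M.X j k * M.X 0 0 / (M.X j 0 * M.X 0 k) =
      M.X j k * M.X 0 0 / (M.X 0 k * M.X j 0) := fun j k => by rw [mul_comm (M.X j 0)]
  have hH : ∀ j k : Fin (m + 1), M.Y k j * M.Y 0 0 / (M.Y 0 j * M.Y k 0) =
      M.Y k j * M.Y 0 0 / (M.Y k 0 * M.Y 0 j) := fun j k => by rw [mul_comm (M.Y 0 j)]
  refine ⟨{
    t := fun i => M.a (fi i) / M.a 0
    s := fun i => M.b (fi i) / M.b 0
    G := fun j k => M.X (fi j) (fi k) * M.X 0 0 / (M.X 0 (fi k) * M.X (fi j) 0)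
    H := fun j k => M.Y (fi k) (fi j) * M.Y 0 0 / (M.Y (fi k) 0 * M.Y 0 (fi j))
    lam := lam
    mu := mu
    lam' := lam'
    mu' := mu'
    t0 := div_self (M.a_ne 0)
    s0 := div_self (M.b_ne 0)
    t_ne := fun i _ => div_ne_zero (M.a_ne _) (M.a_ne _)
    s_ne := fun i _ => div_ne_zero (M.b_ne _) (M.b_ne _)
    t_inj := ?_
    s_inj := ?_
    G0 := ?_
    G0' := ?_
    H0 := ?_
    H0' := ?_
    U1 := ?_
    U2 := ?_
    V1 := ?_
    V2 := ?_
    lam_ne := ?_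
    mu_ne := ?_
    lm_ne := ?_
    lam'_ne := ?_
    mu'_ne := ?_
    lm'_ne := ?_ }, ?_, ?_, ?_, ?_, ?_⟩
  · intro i j hij hj h
    rw [div_left_inj' (M.a_ne 0)] at h
    have h3 := M.a_inj h
    rw [e i (by omega), e j (by omega)] at h3
    have h4 := congrArg Fin.val h3
    simp only at h4
    omega
  · intro i j hij hj h
    rw [div_left_inj' (M.b_ne 0)] at h
    have h3 := M.b_inj h
    rw [e i (by omega), e j (by omega)] at h3
    have h4 := congrArg Fin.val h3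
    simp only at h4
    omega
  · intro j _
    rw [e0]
    have := hX (fi j)
    have := hX 0
    field_simp
  · intro k _
    rw [e0]
    have := hX' (fi k)
    have := hX 0
    field_simp
  · intro j _
    rw [e0]
    have := hY (fi j)
    have := hY 0
    field_simp
  · intro k _
    rw [e0]
    have := hY' (fi k)
    have := hY 0
    field_simp
  · intro j k hj hk
    have h3 := (h1 k (by omega) (by omega)).1 (fi j)
    rw [e (k + 1) (by omega), e k (by omega)]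
    exact h3
  · intro j k hj hk
    have h3 := (h1 k (by omega) (by omega)).2.1 (fi j)
    rw [e (k + 1) (by omega), e k (by omega)]
    exact h3
  · intro j k hj hk
    have h3 := (h2 j (by omega) (by omega)).1 (fi k)
    rw [e (j + 1) (by omega), e j (by omega)]
    rw [← hG, ← hG, ← hH]
    exact h3
  · intro j k hj hk
    have h3 := (h2 j (by omega) (by omega)).2.1 (fi k)
    rw [e (j + 1) (by omega), e j (by omega)]
    rw [← hG, ← hH, ← hH]
    exact h3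
  · exact fun k hk => (h1 k (by omega) (by omega)).2.2.1
  · exact fun k hk => (h1 k (by omega) (by omega)).2.2.2.1
  · exact fun k hk => (h1 k (by omega) (by omega)).2.2.2.2
  · exact fun k hk => (h2 k (by omega) (by omega)).2.2.1
  · exact fun k hk => (h2 k (by omega) (by omega)).2.2.2.1
  · exact fun k hk => (h2 k (by omega) (by omega)).2.2.2.2
  · intro i h
    show M.a (fi i) / M.a 0 = _
    rw [e i h]
  · intro i h
    show M.b (fi i) / M.b 0 = _
    rw [e i h]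
  · intro j k hj hk
    show M.X (fi j) (fi k) * M.X 0 0 / (M.X 0 (fi k) * M.X (fi j) 0) = _
    rw [e j hj, e k hk]
  · intro j hj
    have h3 := b1 (fi j)
    show M.a (fi j) / M.a 0 * (M.X (fi j) (fi m) * M.X 0 0 / (M.X 0 (fi m) * M.X (fi j) 0)) =
      (M.a (fi j) / M.a 0) ^ m * (M.Y (fi m) (fi j) * M.Y 0 0 / (M.Y (fi m) 0 * M.Y 0 (fi j)))
    rw [e m hm]
    exact h3
  · intro k hk
    have h3 := b2 (fi k)
    show M.b (fi k) / M.b 0 * (M.X (fi m) (fi k) * M.X 0 0 / (M.X 0 (fi k) * M.X (fi m) 0)) =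
      (M.b (fi k) / M.b 0) ^ m * (M.Y (fi k) (fi m) * M.Y 0 0 / (M.Y (fi k) 0 * M.Y 0 (fi m)))
    rw [e m hm, ← hG, ← hH]
    exact h3

end Pool.Agent.Helper54.IP
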