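import Pool.Agent.Helper54.IP.Defs

/-!
TH-P module L2.  From an irreducible inverting pair to the matrix form.

`v` = basis of condition 1 (eigenvectors of `Ks`), `w` = basis of condition 2 (eigenvectors of `K`),
`X j k = w.repr (v k) j`, `Y = X⁻¹` (`Y k j = v.repr (w j) k`), `M.a j` = eigenvalue of `K⁻¹` on `w j`, `M.b k` = eigenvalue of `Ks` on `v k`.
`Y * diagonal a * X` = matrix of `K⁻¹` in the basis `v`, etc.
d1: if `(K⁻¹)_(j+1,j) = 0` in the basis `v` then `<v_0..v_j>` is invariant under `K⁻¹` (hence under `K`, finite dimension) and `Ks`.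
d2, d3, d4 similarly with `<v_(j+1)..>`, `<w_(j+1)..>`, `<w_0..w_j>`.
Distinct eigenvalues: `K⁻¹` has the cyclic vector `v_0` (c1, d1) and is diagonalizable, so its eigenvalues are distinct
(if `a_i = a_j`, `i ≠ j`: every vector of the span of `A^k v_0` has proportional coordinates (i, j); so does every vector, contradiction).
-/

namespace Pool.Agent.Helper54.IP

open Matrix

variable {F : Type*} [Field F]

private lemma inv_symm {V : Type*} [AddCommGroup V] [Module F V] [FiniteDimensional F V]
    (T : V ≃ₗ[F] V) (U : Submodule F V) (h : ∀ u ∈ U, T u ∈ U) : ∀ u ∈ U, T.symm u ∈ U := by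
  have h1 : U.map (T : V →ₗ[F] V) ≤ U := by
    rintro _ ⟨u, hu, rfl⟩
    exact h u hu
  have h2 : U.map (T : V →ₗ[F] V) = U := by
    refine Submodule.eq_of_le_of_finrank_eq h1 ?_
    exact LinearEquiv.finrank_map_eq T U
  intro u hu
  rw [← h2] at hu
  obtain ⟨x, hx, rfl⟩ := hu
  simpa using hx

private lemma inv_span {V : Type*} [AddCommGroup V] [Module F V] {n : ℕ}
    (e : Module.Basis (Fin n) F V) (T : V →ₗ[F] V) (S : Set (Fin n))
    (h : ∀ i j, i ∉ S → j ∈ S → LinearMap.toMatrix e e T i j = 0) :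
    ∀ u ∈ Submodule.span F (e '' S), T u ∈ Submodule.span F (e '' S) := by
  intro u hu
  induction hu using Submodule.span_induction with
  | mem x hx =>
    obtain ⟨j, hj, rfl⟩ := hx
    rw [← e.sum_repr (T (e j))]
    refine Submodule.sum_mem _ (fun i _ => ?_)
    by_cases hi : i ∈ S
    · exact Submodule.smul_mem _ _ (Submodule.subset_span ⟨i, hi, rfl⟩)
    · have := h i j hi hj
      rw [LinearMap.toMatrix_apply] at this
      rw [this, zero_smul]
      exact Submodule.zero_mem _
  | zero => rw [map_zero]; exact Submodule.zero_mem _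
  | add x y _ _ hx hy => rw [map_add]; exact Submodule.add_mem _ hx hy
  | smul c x _ hx => rw [map_smul]; exact Submodule.smul_mem _ _ hx

private lemma contra {V : Type*} [AddCommGroup V] [Module F V] {n : ℕ} {K Ks : V ≃ₗ[F] V}
    (irr : Irred K Ks) (e : Module.Basis (Fin n) F V) (S : Set (Fin n)) (i0 j0 : Fin n)
    (hi0 : i0 ∈ S) (hj0 : j0 ∉ S)
    (h1 : ∀ u ∈ Submodule.span F (e '' S), K u ∈ Submodule.span F (e '' S))
    (h2 : ∀ u ∈ Submodule.span F (e '' S), Ks u ∈ Submodule.span F (e '' S)) : False := by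
  rcases irr.2 _ h1 h2 with h | h
  · have h3 : e i0 ∈ Submodule.span F (e '' S) := Submodule.subset_span ⟨i0, hi0, rfl⟩
    rw [h] at h3
    exact e.ne_zero i0 ((Submodule.mem_bot F).1 h3)
  · have h3 : e j0 ∈ Submodule.span F (e '' S) := by rw [h]; trivial
    rw [Module.Basis.mem_span_image] at h3
    have h4 : j0 ∈ (e.repr (e j0)).support := by
      rw [e.repr_self]
      simp
    exact hj0 (h3 h4)

private lemma pow_coord {V : Type*} [AddCommGroup V] [Module F V] {n : ℕ}
    (e : Module.Basis (Fin n) F V) (T : V →ₗ[F] V)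
    (h1 : ∀ i j : Fin n, (j : ℕ) + 1 < i → LinearMap.toMatrix e e T i j = 0)
    (h2 : ∀ i j : Fin n, (i : ℕ) = j + 1 → LinearMap.toMatrix e e T i j ≠ 0) (hn : 0 < n) (m : ℕ) :
    (∀ i : Fin n, m < (i : ℕ) → e.repr ((T ^ m) (e ⟨0, hn⟩)) i = 0) ∧
    (∀ i : Fin n, (i : ℕ) = m → e.repr ((T ^ m) (e ⟨0, hn⟩)) i ≠ 0) := by
  have hT : ∀ (x : V) (i : Fin n), e.repr (T x) i
      = ∑ j, LinearMap.toMatrix e e T i j * e.repr x j := by
    intro x i
    have h3 := LinearMap.toMatrix_mulVec_repr e e T x
    rw [← h3]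
    rfl
  induction m with
  | zero =>
    constructor
    · intro i hi
      rw [pow_zero, Module.End.one_apply, e.repr_self, Finsupp.single_eq_of_ne]
      intro h
      rw [h] at hi
      simp at hi
    · intro i hi
      have : i = ⟨0, hn⟩ := Fin.ext hi
      rw [pow_zero, Module.End.one_apply, e.repr_self, this]
      simp
  | succ m ih =>
    obtain ⟨ih1, ih2⟩ := ih
    constructor
    · intro i hi
      rw [pow_succ', Module.End.mul_apply, hT]
      refine Finset.sum_eq_zero (fun j _ => ?_)
      rcases lt_or_ge m (j : ℕ) with hj | hj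
      · rw [ih1 j hj, mul_zero]
      · rw [h1 i j (by omega), zero_mul]
    · intro i hi
      rw [pow_succ', Module.End.mul_apply, hT]
      have hm : m < n := by have := i.2; omega
      rw [Finset.sum_eq_single (⟨m, hm⟩ : Fin n)]
      · exact mul_ne_zero (h2 i _ hi) (ih2 _ rfl)
      · intro j _ hj
        have hj' : (j : ℕ) ≠ m := fun h => hj (Fin.ext h)
        rcases lt_or_ge m (j : ℕ) with hj2 | hj2
        · rw [ih1 j hj2, mul_zero]
        · rw [h1 i j (by omega), zero_mul]
      · intro h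
        exact absurd (Finset.mem_univ _) h

private lemma cyc {V : Type*} [AddCommGroup V] [Module F V] {n : ℕ}
    (e : Module.Basis (Fin n) F V) (T : V →ₗ[F] V)
    (h1 : ∀ i j : Fin n, (j : ℕ) + 1 < i → LinearMap.toMatrix e e T i j = 0)
    (h2 : ∀ i j : Fin n, (i : ℕ) = j + 1 → LinearMap.toMatrix e e T i j ≠ 0) (hn : 0 < n)
    (f : V →ₗ[F] F) (hf : ∀ k : ℕ, f ((T ^ k) (e ⟨0, hn⟩)) = 0) : f = 0 := by
  have key : ∀ k : ℕ, ∀ hk : k < n, f (e ⟨k, hk⟩) = 0 := by
    intro k
    induction k using Nat.strong_induction_on with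
    | _ k ih =>
      intro hk
      obtain ⟨h3, h4⟩ := pow_coord e T h1 h2 hn k
      have h5 := hf k
      rw [← e.sum_repr ((T ^ k) (e ⟨0, hn⟩)), map_sum,
        Finset.sum_eq_single (⟨k, hk⟩ : Fin n)] at h5
      · rw [map_smul, smul_eq_mul] at h5
        exact (mul_eq_zero.1 h5).resolve_left (h4 _ rfl)
      · intro j _ hj
        have hj' : (j : ℕ) ≠ k := fun h => hj (Fin.ext h)
        rw [map_smul, smul_eq_mul]
        rcases lt_or_ge k (j : ℕ) with hj2 | hj2
        · rw [h3 j hj2, zero_mul]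
        · have : f (e j) = 0 := ih j (by omega) j.2
          rw [this, mul_zero]
      · intro h
        exact absurd (Finset.mem_univ _) h
  refine e.ext (fun i => ?_)
  rw [LinearMap.zero_apply]
  exact key i i.2

private lemma inj_of_hess {V : Type*} [AddCommGroup V] [Module F V] {n : ℕ}
    (e f : Module.Basis (Fin n) F V) (T : V →ₗ[F] V) (c : Fin n → F)
    (h1 : ∀ i j : Fin n, (j : ℕ) + 1 < i → LinearMap.toMatrix e e T i j = 0)
    (h2 : ∀ i j : Fin n, (i : ℕ) = j + 1 → LinearMap.toMatrix e e T i j ≠ 0)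
    (hT : ∀ j, T (f j) = c j • f j) : Function.Injective c := by
  intro i j hij
  by_contra hne
  have hn : 0 < n := lt_of_le_of_lt (Nat.zero_le _) i.2
  have hc : ∀ (x : V) (l : Fin n) (k : ℕ), f.coord l ((T ^ k) x) = c l ^ k * f.coord l x := by
    intro x l k
    induction k with
    | zero => simp
    | succ k ih =>
      have h3 : ∀ y : V, f.coord l (T y) = c l * f.coord l y := by
        intro y
        conv_lhs => rw [← f.sum_repr y]
        rw [map_sum, map_sum, Finset.sum_eq_single l]
        · rw [map_smul, map_smul, hT, map_smul, f.coord_apply, f.coord_apply, f.repr_self]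
          simp
          ring
        · intro m _ hm
          rw [map_smul, map_smul, hT, map_smul, f.coord_apply, f.repr_self]
          simp [hm]
        · intro h
          exact absurd (Finset.mem_univ _) h
      rw [pow_succ', Module.End.mul_apply, h3, ih, pow_succ']
      ring
  set x0 := e ⟨0, hn⟩ with hx0
  have h3 : f.coord j x0 • f.coord i - f.coord i x0 • f.coord j = 0 := by
    refine cyc e T h1 h2 hn _ (fun k => ?_)
    rw [LinearMap.sub_apply, LinearMap.smul_apply, LinearMap.smul_apply, hc, hc, hij,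
      smul_eq_mul, smul_eq_mul]
    ring
  have h4 : f.coord j x0 = 0 := by
    have := LinearMap.congr_fun h3 (f i)
    simpa [f.coord_apply, hne] using this
  have h5 : f.coord i x0 = 0 := by
    have := LinearMap.congr_fun h3 (f j)
    simpa [f.coord_apply, Ne.symm hne] using this
  have h6 : f.coord i = 0 := by
    refine cyc e T h1 h2 hn _ (fun k => ?_)
    rw [hc, h5, mul_zero]
  have h7 := LinearMap.congr_fun h6 (f i)
  simp [f.coord_apply] at h7

theorem exists_mat {V : Type*} [AddCommGroup V] [Module F V] {n : ℕ} (K Ks : V ≃ₗ[F] V)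
    (h : IsInvertingPair n K Ks) (irr : Irred K Ks) :
    ∃ (M : Mat F n) (v w : Module.Basis (Fin n) F V),
      (∀ j, K.symm (w j) = M.a j • w j) ∧ (∀ k, Ks (v k) = M.b k • v k) ∧
      (∀ k, v k = ∑ j, M.X j k • w j) := by
  obtain ⟨⟨v, v1, v2, v3⟩, ⟨w, w1, w2, w3⟩⟩ := h
  haveI : FiniteDimensional F V := Module.Basis.finiteDimensional_of_finite v
  have diagAct : ∀ (e : Module.Basis (Fin n) F V) (T : V ≃ₗ[F] V),
      (∀ i j : Fin n, i ≠ j → LinearMap.toMatrix e e (T : V →ₗ[F] V) i j = 0) →
      ∀ j, T (e j) = LinearMap.toMatrix e e (T : V →ₗ[F] V) j j • e j := by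
    intro e T hT j
    conv_lhs => rw [← e.sum_repr (T (e j))]
    rw [Finset.sum_eq_single j]
    · rw [LinearMap.toMatrix_apply]
      rfl
    · intro i _ hi
      have := hT i j hi
      rw [LinearMap.toMatrix_apply] at this
      have h5 : e.repr (T (e j)) i = 0 := this
      rw [h5, zero_smul]
    · intro h5
      exact absurd (Finset.mem_univ _) h5
  set ka : Fin n → F := fun j => LinearMap.toMatrix w w (K : V →ₗ[F] V) j j with hka
  set b : Fin n → F := fun j => LinearMap.toMatrix v v (Ks : V →ₗ[F] V) j j with hb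
  have hKw : ∀ j, K (w j) = ka j • w j := diagAct w K w3
  have hKsv : ∀ j, Ks (v j) = b j • v j := diagAct v Ks v3
  have ka_ne : ∀ j, ka j ≠ 0 := by
    intro j h0
    have h5 := hKw j
    rw [h0, zero_smul] at h5
    exact w.ne_zero j (K.map_eq_zero_iff.1 h5)
  have b_ne : ∀ j, b j ≠ 0 := by
    intro j h0
    have h5 := hKsv j
    rw [h0, zero_smul] at h5
    exact v.ne_zero j (Ks.map_eq_zero_iff.1 h5)
  have hKw' : ∀ j, K.symm (w j) = (ka j)⁻¹ • w j := by
    intro j
    rw [LinearEquiv.symm_apply_eq, map_smul, hKw, smul_smul, inv_mul_cancel₀ (ka_ne j), one_smul]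
  have hKsv' : ∀ j, Ks.symm (v j) = (b j)⁻¹ • v j := by
    intro j
    rw [LinearEquiv.symm_apply_eq, map_smul, hKsv, smul_smul, inv_mul_cancel₀ (b_ne j), one_smul]
  have toM : ∀ (e : Module.Basis (Fin n) F V) (T : V →ₗ[F] V) (c : Fin n → F),
      (∀ j, T (e j) = c j • e j) → LinearMap.toMatrix e e T = diagonal c := by
    intro e T c hT
    ext i j
    rw [LinearMap.toMatrix_apply, hT, map_smul, e.repr_self, diagonal_apply]
    by_cases hij : i = j
    · subst hij; simp
    · simp [hij, Finsupp.single_eq_of_ne hij]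
  have conj : ∀ (e f : Module.Basis (Fin n) F V) (T : V →ₗ[F] V) (c : Fin n → F),
      (∀ j, T (f j) = c j • f j) →
      e.toMatrix f * diagonal c * f.toMatrix e = LinearMap.toMatrix e e T := by
    intro e f T c hT
    rw [← toM f T c hT, basis_toMatrix_mul_linearMap_toMatrix_mul_basis_toMatrix]
  have eA : v.toMatrix w * diagonal (fun j => (ka j)⁻¹) * w.toMatrix v
      = LinearMap.toMatrix v v (K.symm : V →ₗ[F] V) := conj v w _ _ hKw'
  have eA' : v.toMatrix w * diagonal (fun t => ((ka t)⁻¹)⁻¹) * w.toMatrix v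
      = LinearMap.toMatrix v v (K : V →ₗ[F] V) := by
    refine conj v w _ _ (fun j => ?_)
    rw [inv_inv]
    exact hKw j
  have eB : w.toMatrix v * diagonal b * v.toMatrix w
      = LinearMap.toMatrix w w (Ks : V →ₗ[F] V) := conj w v _ _ hKsv
  have eB' : w.toMatrix v * diagonal (fun t => (b t)⁻¹) * v.toMatrix w
      = LinearMap.toMatrix w w (Ks.symm : V →ₗ[F] V) := conj w v _ _ hKsv'
  -- the diagonal operators preserve all coordinate subspaces
  have hdv : ∀ S : Set (Fin n), ∀ u ∈ Submodule.span F (v '' S),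
      Ks u ∈ Submodule.span F (v '' S) := by
    intro S
    refine inv_span v (Ks : V →ₗ[F] V) S (fun i j hi hj => v3 i j ?_)
    rintro rfl
    exact hi hj
  have hdw : ∀ S : Set (Fin n), ∀ u ∈ Submodule.span F (w '' S),
      K u ∈ Submodule.span F (w '' S) := by
    intro S
    refine inv_span w (K : V →ₗ[F] V) S (fun i j hi hj => w3 i j ?_)
    rintro rfl
    exact hi hj
  have D1 : ∀ i j : Fin n, (i : ℕ) = j + 1 →
      LinearMap.toMatrix v v (K.symm : V →ₗ[F] V) i j ≠ 0 := by
    intro i j hij h0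
    refine contra irr v {k | (k : ℕ) ≤ j} j i ?_ ?_ ?_ (hdv _)
    · simp only [Set.mem_setOf_eq]; omega
    · simp only [Set.mem_setOf_eq]; omega
    · have h5 := inv_symm K.symm (Submodule.span F (v '' {k | (k : ℕ) ≤ j}))
        (inv_span v (K.symm : V →ₗ[F] V) _ (fun i' j' hi' hj' => ?_))
      · simpa using h5
      · simp only [Set.mem_setOf_eq] at hi' hj'
        by_cases h6 : (j' : ℕ) + 1 < i'
        · exact v2 i' j' h6
        · have e1 : i' = i := Fin.ext (by omega)
          have e2 : j' = j := Fin.ext (by omega)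
          rw [e1, e2, h0]
  have D2 : ∀ i j : Fin n, (j : ℕ) = i + 1 →
      LinearMap.toMatrix v v (K : V →ₗ[F] V) i j ≠ 0 := by
    intro i j hij h0
    refine contra irr v {k | (i : ℕ) < k} j i ?_ ?_ ?_ (hdv _)
    · simp only [Set.mem_setOf_eq]; omega
    · simp only [Set.mem_setOf_eq]; omega
    · refine inv_span v (K : V →ₗ[F] V) _ (fun i' j' hi' hj' => ?_)
      simp only [Set.mem_setOf_eq] at hi' hj'
      by_cases h6 : (i' : ℕ) + 1 < j'
      · exact v1 i' j' h6
      · have e1 : i' = i := Fin.ext (by omega)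
        have e2 : j' = j := Fin.ext (by omega)
        rw [e1, e2, h0]
  have D3 : ∀ i j : Fin n, (j : ℕ) = i + 1 →
      LinearMap.toMatrix w w (Ks : V →ₗ[F] V) i j ≠ 0 := by
    intro i j hij h0
    refine contra irr w {k | (i : ℕ) < k} j i ?_ ?_ (hdw _) ?_
    · simp only [Set.mem_setOf_eq]; omega
    · simp only [Set.mem_setOf_eq]; omega
    · refine inv_span w (Ks : V →ₗ[F] V) _ (fun i' j' hi' hj' => ?_)
      simp only [Set.mem_setOf_eq] at hi' hj'
      by_cases h6 : (i' : ℕ) + 1 < j'
      · exact w1 i' j' h6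
      · have e1 : i' = i := Fin.ext (by omega)
        have e2 : j' = j := Fin.ext (by omega)
        rw [e1, e2, h0]
  have D4 : ∀ i j : Fin n, (i : ℕ) = j + 1 →
      LinearMap.toMatrix w w (Ks.symm : V →ₗ[F] V) i j ≠ 0 := by
    intro i j hij h0
    refine contra irr w {k | (k : ℕ) ≤ j} j i ?_ ?_ (hdw _) ?_
    · simp only [Set.mem_setOf_eq]; omega
    · simp only [Set.mem_setOf_eq]; omega
    · have h5 := inv_symm Ks.symm (Submodule.span F (w '' {k | (k : ℕ) ≤ j}))
        (inv_span w (Ks.symm : V →ₗ[F] V) _ (fun i' j' hi' hj' => ?_))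
      · simpa using h5
      · simp only [Set.mem_setOf_eq] at hi' hj'
        by_cases h6 : (j' : ℕ) + 1 < i'
        · exact w2 i' j' h6
        · have e1 : i' = i := Fin.ext (by omega)
          have e2 : j' = j := Fin.ext (by omega)
          rw [e1, e2, h0]
  have a_inj : Function.Injective (fun j => (ka j)⁻¹) :=
    inj_of_hess v w (K.symm : V →ₗ[F] V) _ v2 D1 hKw'
  have b_inj' : Function.Injective (fun j => (b j)⁻¹) :=
    inj_of_hess w v (Ks.symm : V →ₗ[F] V) _ w2 D4 hKsv'
  refine ⟨{
    X := w.toMatrix v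
    Y := v.toMatrix w
    a := fun j => (ka j)⁻¹
    b := b
    YX := v.toMatrix_mul_toMatrix_flip w
    XY := w.toMatrix_mul_toMatrix_flip v
    a_ne := fun j => inv_ne_zero (ka_ne j)
    b_ne := b_ne
    a_inj := a_inj
    b_inj := fun i j hij => b_inj' (by simp only [hij])
    c1 := fun i j hij => by rw [eA]; exact v2 i j hij
    c2 := fun i j hij => by rw [eA']; exact v1 i j hij
    c3 := fun i j hij => by rw [eB]; exact w1 i j hij
    c4 := fun i j hij => by rw [eB']; exact w2 i j hij
    d1 := fun i j hij => by rw [eA]; exact D1 i j hij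
    d2 := fun i j hij => by rw [eA']; exact D2 i j hij
    d3 := fun i j hij => by rw [eB]; exact D3 i j hij
    d4 := fun i j hij => by rw [eB']; exact D4 i j hij }, v, w, hKw', hKsv, fun k => ?_⟩
  exact (w.sum_toMatrix_smul_self v k).symm

end Pool.Agent.Helper54.IP
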