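import Pool.Agent.Helper54.IP.C3
import Pool.Agent.Helper14.IP.Level2

/-!
TH-P phase 2: elimination for closed corners of dimension 4 (`m = 3`).
-/

namespace Pool.Agent.Helper54.IP

variable {F : Type*} [Field F] {m : ℕ}

/-- `G_11 = H_11` in the letters -/
theorem GForm.XY.zero_iff {g : GForm F m} {X Y : F} (hx : g.XY X Y) (hm : 1 ≤ m) :
    g.G 1 1 = g.H 1 1 ↔ g.t 1 * g.s 1 * X + Y = 0 := by
  have h1 := hx.G1 hm (k := 1) hm
  have h2 := hx.H1 hm (k := 1) hm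
  have a1 := g.t_sub_one (k := 1) (by omega) hm
  have u1 := g.s_sub_one (k := 1) (by omega) hm
  have a0 := g.t_ne 1 hm
  have u0 := g.s_ne 1 hm
  have key : g.t 1 * g.s 1 * (g.G 1 1 - g.H 1 1) =
      (g.t 1 - 1) * (g.s 1 - 1) * (g.t 1 * g.s 1 * X + Y) := by
    linear_combination g.t 1 * g.s 1 * h1 - h2
  constructor
  · intro h
    rw [h, sub_self, mul_zero] at key
    exact (mul_eq_zero.1 key.symm).resolve_left (mul_ne_zero a1 u1)
  · intro h
    rw [h, mul_zero] at key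
    exact sub_eq_zero.1 ((mul_eq_zero.1 key).resolve_left (mul_ne_zero a0 u0))

/-- type Z, half -/
theorem GForm.XY.z_half {g : GForm F m} {X Y : F} (hx : g.XY X Y) (hm : 2 ≤ m)
    (hz : g.G 1 1 = g.H 1 1) : g.s 2 = -g.t 1 ∧ X * (g.s 2 - 1 - g.t 1 * g.s 1 + g.t 1) = 1 := by
  have hY := (hx.zero_iff (by omega)).1 hz
  have a1 := g.t_sub_one (k := 1) (by omega) (by omega)
  have a0 := g.t_ne 1 (by omega)
  have v0 := g.s_ne 2 (by omega)
  have huv := sub_ne_zero.2 (g.s_inj 1 2 (by omega) (by omega))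
  have X0 := hx.X_ne (by omega)
  have h1 := hx.G1 (by omega) (k := 1) (by omega)
  have h2 := hx.G1 (by omega) (k := 2) (by omega)
  have h3 := hx.H1 (by omega) (k := 2) (by omega)
  have u1 := g.U1 1 1 (by omega) (by omega)
  have u2 := g.U2 1 1 (by omega) (by omega)
  rw [← hz] at u1 u2
  simp only [pow_one] at u1 u2
  have e1 : (g.s 2 - 1) * X = 1 + g.t 1 * (g.s 1 - 1) * X := by
    apply mul_left_cancel₀ a1
    linear_combination u1 - h2 + g.t 1 * h1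
  have e2 : g.s 2 * X * (g.s 1 - 1) = g.s 2 - Y * (g.s 2 - 1) := by
    apply mul_left_cancel₀ a1
    have e3 : g.t 1 * g.H 1 2 = g.G 1 1 := by
      apply mul_left_cancel₀ a0
      linear_combination u2
    linear_combination h3 - g.s 2 * e3 - g.s 2 * h1
  have e3 : (g.s 2 + g.t 1) * ((g.s 1 - g.s 2) * X) = 0 := by
    linear_combination e2 - g.s 2 * e1 - (g.s 2 - 1) * hY
  refine ⟨?_, by linear_combination e1⟩
  rcases mul_eq_zero.1 e3 with h | h
  · linear_combination h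
  · exact absurd h (mul_ne_zero huv X0)

/-- type Z -/
theorem GForm.XY.z_type {g : GForm F m} {X Y : F} (hx : g.XY X Y) (hm : 2 ≤ m)
    (hz : g.G 1 1 = g.H 1 1) :
    g.s 2 = -g.t 1 ∧ g.t 2 = -g.s 1 ∧ X * (1 + g.t 1 * g.s 1) = -1 ∧
      Y * (1 + g.t 1 * g.s 1) = g.t 1 * g.s 1 := by
  obtain ⟨h1, h2⟩ := hx.z_half hm hz
  obtain ⟨h3, -⟩ := hx.swap.z_half hm hz
  simp only [GForm.swap_s, GForm.swap_t] at h3
  have hY := (hx.zero_iff (by omega)).1 hz
  have h4 : X * (1 + g.t 1 * g.s 1) = -1 := by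
    rw [h1] at h2
    linear_combination -h2
  exact ⟨h1, h3, h4, by linear_combination (1 + g.t 1 * g.s 1) * hY - g.t 1 * g.s 1 * h4⟩

section C4

variable {g : GForm F 3} (h : g.Closed) {X Y : F} (hx : g.XY X Y)

include h hx

theorem c4_C1 : (g.s 3 - 1) * (g.s 3 * X + g.t 1 * Y) = g.s 3 * (g.t 1 + 1) := by
  have c := h.cX (ι := 1) (by omega) hx
  have a1 := g.t_sub_one (k := 1) (by omega) (by omega)
  rw [pow_one] at c
  apply mul_left_cancel₀ a1
  linear_combination c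

theorem c4_C1' : (g.t 3 - 1) * (g.t 3 * X + g.s 1 * Y) = g.t 3 * (g.s 1 + 1) :=
  c4_C1 h.swap hx.swap

theorem c4_E1 : g.t 1 * (g.t 3 - 1) * (g.s 3 ^ 3 * X + g.t 3 * g.s 2 * Y) =
    g.t 3 * g.s 3 * (g.s 2 + g.s 3) * g.G 1 3 := by
  have w0 := g.s_ne 3 (by omega)
  have hvw : g.s 2 / g.s 3 - 1 ≠ 0 := by
    intro e
    rw [sub_eq_zero, div_eq_one_iff_eq w0] at e
    exact g.s_inj 2 3 (by omega) (by omega) e
  have e := h.E1 (ι := 1) (by omega) hx (z := g.s 2 / g.s 3) (by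
    show g.s 2 = _
    field_simp)
  rw [pow_one, pow_one] at e
  have hz : g.s 2 = g.s 2 / g.s 3 * g.s 3 := by field_simp
  set z := g.s 2 / g.s 3
  apply mul_left_cancel₀ hvw
  rw [hz]
  linear_combination g.s 3 * e

theorem c4_E2 : g.s 1 * (g.s 3 - 1) * (g.t 3 ^ 3 * X + g.s 3 * g.t 2 * Y) =
    g.s 3 * g.t 3 * (g.t 2 + g.t 3) * g.G 3 1 := c4_E1 h.swap hx.swap

omit h in
/-- N-type: `w = c`, `(c-1) X = 1`, `(c-1) Y = c`, not type Z: then `v = b` and `ab ≠ c`. -/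
theorem c4_N (hX : (g.t 3 - 1) * X = 1) (hY : (g.t 3 - 1) * Y = g.t 3)
    (hD : g.G 1 1 ≠ g.H 1 1) : g.t 2 = g.s 2 ∧ g.t 1 * g.t 2 ≠ g.t 3 := by
  have a1 := g.t_sub_one (k := 1) (by omega) (by omega)
  have c1 := g.t_sub_one (k := 3) (by omega) (by omega)
  have u1 := g.s_sub_one (k := 1) (by omega) (by omega)
  have v1 := g.s_sub_one (k := 2) (by omega) (by omega)
  have hau : g.t 1 * g.s 1 * X + Y ≠ 0 := fun e => hD ((hx.zero_iff (by omega)).2 e)
  have l := hx.swap.lam1 (by omega)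
  simp only [GForm.swap_lam, GForm.swap_s, GForm.swap_t] at l
  have hab : g.t 1 * g.t 2 ≠ g.t 3 := by
    intro e
    have l2 : (1 - g.lam' 1) * ((g.t 1 - 1) * (g.s 1 * g.t 1 * X + Y)) = 0 := by
      rw [l]
      apply mul_left_cancel₀ c1
      linear_combination g.t 1 * (g.t 2 - 1) * hX + (g.t 1 - 1) * hY + e
    rcases mul_eq_zero.1 l2 with l3 | l3
    · exact g.lam'_ne 1 (by omega) (sub_eq_zero.1 l3).symm
    · rcases mul_eq_zero.1 l3 with l4 | l4
      · exact a1 l4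
      · exact hau (by linear_combination l4)
  refine ⟨?_, hab⟩
  rcases Pool.Agent.Helper14.IP.level2 g (by omega) hD with ⟨e, -⟩ | ⟨e, -⟩ | ⟨-, e, -⟩
  · exact e
  · exact e
  · exfalso
    have x1 := hx.x
    have y1 := hx.y
    have k : (g.t 1 - 1) * ((g.s 2 - 1) * (g.t 1 * g.t 2 - g.t 3)) = 0 := by
      have e2 : (g.s 2 * g.t 1 - g.t 2) * ((g.t 1 - 1) * (X - Y + 1)) =
          (g.s 2 - 1) * ((g.t 1 - 1) * (g.t 1 * g.t 2 * X - Y)) := by
        linear_combination e - (g.s 2 * g.t 1 - g.t 2) * (x1 - y1)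
          + (g.s 2 - 1) * (g.t 1 * g.t 2 * x1 - y1)
      linear_combination (-(g.t 3 - 1)) * e2
        + (g.s 2 * g.t 1 - g.t 2) * (g.t 1 - 1) * (hX - hY)
        - (g.s 2 - 1) * (g.t 1 - 1) * (g.t 1 * g.t 2 * hX - hY)
    rcases mul_eq_zero.1 k with k | k
    · exact a1 k
    · rcases mul_eq_zero.1 k with k | k
      · exact v1 k
      · exact hab (sub_eq_zero.1 k)

/-- N-type implies type Z -/
theorem c4_NZ (hw : g.s 3 = g.t 3) (hX : (g.t 3 - 1) * X = 1) (hY : (g.t 3 - 1) * Y = g.t 3) :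
    g.G 1 1 = g.H 1 1 := by
  by_contra hD
  have a0 := g.t_ne 1 (by omega)
  have u0 := g.s_ne 1 (by omega)
  have v0 := g.s_ne 2 (by omega)
  have c0 := g.t_ne 3 (by omega)
  have c1 := g.t_sub_one (k := 3) (by omega) (by omega)
  obtain ⟨hb, hab⟩ := c4_N hx hX hY hD
  have hau : g.t 1 * g.s 1 + g.t 3 ≠ 0 := by
    intro e
    apply hD
    rw [hx.zero_iff (by omega)]
    apply mul_left_cancel₀ c1
    linear_combination g.t 1 * g.s 1 * hX + hY + e
  have hs := h.swap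
  obtain ⟨X', Y', hx'⟩ := (g.swap.rev hs).exists_XY (by omega)
  obtain ⟨r1, r2⟩ := hs.rev_XY (ι := 1) (by omega) hx.swap hx'
  simp only [GForm.swap_t, GForm.swap_s, GForm.swap_G, pow_one] at r1 r2
  have G31 := hx.Gk1 (by omega) (k := 3) le_rfl
  have G31' : g.G 3 1 = g.s 1 := by
    rw [G31]
    linear_combination (g.s 1 - 1) * hX
  rw [G31'] at r1 r2
  have X1 : X' = -(g.t 3 * X) := by
    apply mul_left_cancel₀ u0
    linear_combination r1
  have Y1 : Y' * g.t 3 = -Y := by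
    apply mul_left_cancel₀ u0
    linear_combination r2
  have e1 : ((g.swap.rev hs).t 3 - 1) * X' = 1 := by
    simp only [GForm.rev_t, GForm.swap_t, hw]
    rw [X1]
    field_simp
    linear_combination hX
  have e2 : ((g.swap.rev hs).t 3 - 1) * Y' = (g.swap.rev hs).t 3 := by
    simp only [GForm.rev_t, GForm.swap_t, hw]
    have Y2 : Y' = -Y / g.t 3 := by rw [eq_div_iff c0, Y1]
    rw [Y2]
    field_simp
    linear_combination hY
  by_cases hD' : (g.swap.rev hs).G 1 1 = (g.swap.rev hs).H 1 1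
  · obtain ⟨z1, -⟩ := hx'.z_type (by omega) hD'
    simp only [GForm.rev_t, GForm.rev_s, GForm.swap_t, GForm.swap_s] at z1
    apply hau
    change g.t 1 / g.t 3 = -(g.s 1)⁻¹ at z1
    field_simp at z1
    linear_combination z1
  · obtain ⟨z1, -⟩ := c4_N hx' e1 e2 hD'
    simp only [GForm.rev_t, GForm.rev_s, GForm.swap_t, GForm.swap_s] at z1
    apply hab
    change (g.s 2)⁻¹ = g.t 1 / g.t 3 at z1
    field_simp at z1
    rw [hb]
    linear_combination -z1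

/-- N-type is the family N4 -/
theorem c4_N4 (hw : g.s 3 = g.t 3) (hX : (g.t 3 - 1) * X = 1) (hY : (g.t 3 - 1) * Y = g.t 3) :
    g.s 2 = -g.t 1 ∧ g.s 1 = -g.t 2 ∧ g.t 3 = g.t 1 * g.t 2 := by
  obtain ⟨z1, z2, z3, z4⟩ := hx.z_type (by omega) (c4_NZ h hx hw hX hY)
  refine ⟨z1, by linear_combination z2, ?_⟩
  have X0 := hx.X_ne (by omega)
  apply mul_left_cancel₀ X0
  rw [z2] 
  linear_combination z3 + hX

/-- the case `s_3 = t_3` -/
theorem c4_eq (hw : g.s 3 = g.t 3) :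
    (g.s 1 = g.t 1 ∧ g.s 2 = g.t 2 ∧ g.t 3 = g.t 1 * g.t 2 ∧ (g.t 3 - 1) * X ≠ 1) ∨
    (g.s 2 = -g.t 1 ∧ g.s 1 = -g.t 2 ∧ g.t 3 = g.t 1 * g.t 2 ∧ (g.t 3 - 1) * X = 1 ∧
      (g.t 3 - 1) * Y = g.t 3 ∧ g.G 1 1 = g.H 1 1) := by
  have a0 := g.t_ne 1 (by omega)
  have c0 := g.t_ne 3 (by omega)
  have c1 := g.t_sub_one (k := 3) (by omega) (by omega)
  have C1 := c4_C1 h hx
  have C1' := c4_C1' h hx
  have E1 := c4_E1 h hx
  have E2 := c4_E2 h hx
  have G13 := hx.G1 (by omega) (k := 3) le_rfl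
  have G31 := hx.Gk1 (by omega) (k := 3) le_rfl
  rw [G13] at E1
  rw [G31] at E2
  rw [hw] at C1 E1 E2
  have fin : (g.t 3 - 1) * X = 1 → (g.t 3 - 1) * Y = g.t 3 →
      (g.s 2 = -g.t 1 ∧ g.s 1 = -g.t 2 ∧ g.t 3 = g.t 1 * g.t 2 ∧ (g.t 3 - 1) * X = 1 ∧
      (g.t 3 - 1) * Y = g.t 3 ∧ g.G 1 1 = g.H 1 1) := by
    intro hX hY
    obtain ⟨e1, e2, e3⟩ := c4_N4 h hx hw hX hY
    exact ⟨e1, e2, e3, hX, hY, c4_NZ h hx hw hX hY⟩
  have e1 : (g.t 1 - g.s 1) * ((g.t 3 - 1) * Y - g.t 3) = 0 := by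
    linear_combination C1 - C1'
  rcases mul_eq_zero.1 e1 with e1 | e1
  · have hu : g.s 1 = g.t 1 := by linear_combination -e1
    rw [hu] at E2
    have e2 : (g.s 2 - g.t 2) * (g.t 1 * (g.t 3 - 1) * Y -
        g.t 3 * (1 + (g.t 1 - 1) * X * (g.t 3 - 1))) = 0 := by
      apply mul_left_cancel₀ c0
      linear_combination E1 - E2
    rcases mul_eq_zero.1 e2 with e2 | e2
    · have hv : g.s 2 = g.t 2 := by linear_combination e2
      by_cases hX : (g.t 3 - 1) * X = 1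
      · right
        refine fin hX ?_
        apply mul_left_cancel₀ a0
        linear_combination C1 - g.t 3 * hX
      · left
        refine ⟨hu, hv, ?_, hX⟩
        have e3 : (g.t 3 - g.t 1 * g.t 2) * ((g.t 3 - 1) * X - 1) = 0 := by
          apply mul_left_cancel₀ (mul_ne_zero c0 c0)
          rw [hv] at E1
          linear_combination E1 - g.t 3 * g.t 2 * C1
        rcases mul_eq_zero.1 e3 with e3 | e3
        · linear_combination e3
        · exact absurd (by linear_combination e3) hX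
    · right
      have hX : (g.t 3 - 1) * X = 1 := by
        apply mul_left_cancel₀ a0
        apply mul_left_cancel₀ c0
        linear_combination C1 - e2
      refine fin hX ?_
      apply mul_left_cancel₀ a0
      linear_combination C1 - g.t 3 * hX
  · right
    have hY : (g.t 3 - 1) * Y = g.t 3 := by linear_combination e1
    refine fin ?_ hY
    apply mul_left_cancel₀ c0
    linear_combination C1 - g.t 1 * hY

/-- the case `s_3 = -t_3` -/
theorem c4_M (hw : g.s 3 = -g.t 3) (h2 : (2 : F) ≠ 0) :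
    g.t 1 + g.s 1 ≠ 0 ∧
    (g.t 1 + g.s 1) * (g.t 3 ^ 2 - 1) * X =
      2 * g.t 1 * g.s 1 + g.t 1 + g.s 1 + g.t 3 * (g.t 1 - g.s 1) ∧
    (g.t 1 + g.s 1) * (g.t 3 ^ 2 - 1) * Y =
      g.t 3 * (g.t 3 * (g.t 1 + g.s 1 + 2) - g.t 1 + g.s 1) ∧
    g.s 2 * (g.s 1 * (g.t 3 + 1) + 2 * g.t 3) = g.t 3 * (2 * g.s 1 + g.t 3 + 1) := by
  have a0 := g.t_ne 1 (by omega)
  have c0 := g.t_ne 3 (by omega)
  have c1 := g.t_sub_one (k := 3) (by omega) (by omega)
  have hac := sub_ne_zero.2 (g.t_inj 1 3 (by omega) (by omega))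
  have C1 := c4_C1 h hx
  have C1' := c4_C1' h hx
  have E1 := c4_E1 h hx
  have G13 := hx.G1 (by omega) (k := 3) le_rfl
  rw [G13] at E1
  rw [hw] at C1 E1
  have hX : (g.t 1 + g.s 1) * (g.t 3 ^ 2 - 1) * X =
      2 * g.t 1 * g.s 1 + g.t 1 + g.s 1 + g.t 3 * (g.t 1 - g.s 1) := by
    apply mul_left_cancel₀ c0
    linear_combination g.t 1 * (g.t 3 + 1) * C1' + g.s 1 * (g.t 3 - 1) * C1
  have hY : (g.t 1 + g.s 1) * (g.t 3 ^ 2 - 1) * Y =
      g.t 3 * (g.t 3 * (g.t 1 + g.s 1 + 2) - g.t 1 + g.s 1) := by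
    linear_combination (g.t 3 + 1) * C1' - (g.t 3 - 1) * C1
  refine ⟨?_, hX, hY, ?_⟩
  · intro e
    have hu : g.s 1 = -g.t 1 := by linear_combination e
    rw [hu] at hY
    have e2 : 2 * g.t 3 * (g.t 1 - g.t 3) = 0 := by linear_combination hY
    exact mul_ne_zero (mul_ne_zero h2 c0) hac e2
  · have k : 2 * g.t 1 * g.t 3 ^ 2 * (g.t 1 - g.t 3) *
        (g.s 2 * (g.s 1 * (g.t 3 + 1) + 2 * g.t 3) - g.t 3 * (2 * g.s 1 + g.t 3 + 1)) = 0 := by
      linear_combination (-((g.t 1 + g.s 1) * (g.t 3 ^ 2 - 1))) * E1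
        + (g.t 1 * (g.t 3 - 1) * (-g.t 3 ^ 3) - g.t 3 ^ 2 * (g.s 2 - g.t 3) * (g.t 1 - 1) *
            (g.t 3 + 1)) * hX
        + g.t 1 * (g.t 3 - 1) * g.t 3 * g.s 2 * hY
    have n : 2 * g.t 1 * g.t 3 ^ 2 * (g.t 1 - g.t 3) ≠ 0 :=
      mul_ne_zero (mul_ne_zero (mul_ne_zero h2 a0) (pow_ne_zero 2 c0)) hac
    exact sub_eq_zero.1 ((mul_eq_zero.1 k).resolve_left n)

end C4

end Pool.Agent.Helper54.IP
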