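import Pool.Agent.Helper54.IP.C4

/-!
TH-P phase 2: the family D4, elimination side.
-/

namespace Pool.Agent.Helper54.IP

variable {F : Type*} [Field F]

/-- The family D4 of parameter arrays of dimension 4. -/
structure D4 (t s f : ℕ → F) (e : F) : Prop where
  t0 : t 0 = 1
  s0 : s 0 = 1
  s1 : s 1 = t 1
  s2 : s 2 = t 2
  s3 : s 3 = t 3
  t3 : t 3 = t 1 * t 2
  n1 : t 1 ≠ 0
  n2 : t 2 ≠ 0
  d1 : t 1 ≠ 1
  d2 : t 2 ≠ 1
  d12 : t 2 ≠ t 1
  d3 : t 3 ≠ 1
  e0 : e ≠ 0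
  e1 : 1 + e ≠ 0
  e2 : t 1 - 1 + t 1 * e ≠ 0
  e3 : t 1 - 1 - e ≠ 0
  e4 : (t 1 - 1) * (t 1 + t 2) + (t 1 ^ 2 - t 2) * e ≠ 0
  e5 : (t 1 - 1) * (t 1 + t 2) + t 1 * (t 2 - 1) * e ≠ 0
  f1 : f 1 * (t 1 - 1 + t 1 * e) = (t 1 - 1) * (t 3 - 1)
  f2 : f 2 * e = (t 2 - 1) * ((t 1 - 1) * (t 1 + t 2) + (t 1 ^ 2 - t 2) * e)
  f3 : f 3 * (t 1 - 1 - e) = -(t 3 * (t 1 - 1) * (t 3 - 1))

theorem d4_elim {g : GForm F 3} (h : g.Closed) {X Y : F} (hx : g.XY X Y) {f : ℕ → F}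
    (hf : g.IsPhi f) (hu : g.s 1 = g.t 1) (hv : g.s 2 = g.t 2) (hw : g.s 3 = g.t 3)
    (hc : g.t 3 = g.t 1 * g.t 2) (hX : (g.t 3 - 1) * X ≠ 1) : ∃ e, D4 g.t g.s f e := by
  have a0 := g.t_ne 1 (by omega)
  have b0 := g.t_ne 2 (by omega)
  have a1 := g.t_sub_one (k := 1) (by omega) (by omega)
  have b1 := g.t_sub_one (k := 2) (by omega) (by omega)
  have c1 := g.t_sub_one (k := 3) (by omega) (by omega)
  have hab := sub_ne_zero.2 (g.t_inj 1 2 (by omega) (by omega)).symm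
  have C1 := c4_C1 h hx
  rw [hw] at C1
  have X0 := hx.X_ne (by omega)
  have Y0 := hx.Y_ne (by omega)
  have ff1 := hf.one (by omega) hx
  have ff2 := hf.two (by omega) hx
  have ff3 := hf.three (by omega) hx
  rw [hu, hv] at ff2
  rw [hu, hv, hw] at ff3
  have G13 := hx.G1 (by omega) (k := 3) le_rfl
  have n13 := h.G_ne (j := 1) (by omega)
  rw [G13, hw] at n13
  set a := g.t 1 with ha
  set b := g.t 2 with hb
  set c := g.t 3 with hcc
  obtain ⟨e, he⟩ : ∃ e, e = (a - 1) * ((c - 1) * X - 1) / a := ⟨_, rfl⟩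
  have hXe : (a - 1) * ((c - 1) * X) = a - 1 + a * e := by
    rw [he]
    field_simp
    ring
  have hYe : (a - 1) * ((c - 1) * Y) = c * (a - 1 - e) := by
    apply mul_left_cancel₀ a0
    linear_combination (a - 1) * C1 - c * hXe
  have e0 : e ≠ 0 := by
    rintro rfl
    apply hX
    apply mul_left_cancel₀ a1
    linear_combination hXe
  have e2 : a - 1 + a * e ≠ 0 := by
    rw [← hXe]
    exact mul_ne_zero a1 (mul_ne_zero c1 X0)
  have e3 : a - 1 - e ≠ 0 := by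
    intro h0
    rw [h0, mul_zero] at hYe
    exact mul_ne_zero a1 (mul_ne_zero c1 Y0) hYe
  have f2 : f 2 * e = (b - 1) * ((a - 1) * (a + b) + (a ^ 2 - b) * e) := by
    have k : a * (b - a) * (f 2 * e - (b - 1) * ((a - 1) * (a + b) + (a ^ 2 - b) * e)) = 0 := by
      linear_combination (a - 1) * (c - 1) * ff2 - f 2 * a * (b - 1) * hXe
        - f 2 * (a - 1) * hYe + (b - 1) * (b - a) * (a ^ 2 * hXe + hYe)
        + (f 2 * (-(a - 1) * (a - 1 - e) + a * (a - 1)) + (b - 1) * (b - a) * (a - 1 - e)) * hc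
    exact sub_eq_zero.1 ((mul_eq_zero.1 k).resolve_left (mul_ne_zero a0 hab))
  have e4 : (a - 1) * (a + b) + (a ^ 2 - b) * e ≠ 0 := by
    intro h0
    rw [h0, mul_zero] at f2
    exact mul_ne_zero (hf.ne (k := 1) (by omega)) e0 f2
  have hD : g.G 1 1 ≠ g.H 1 1 := by
    intro h0
    have h1 := (hx.zero_iff (by omega)).1 h0
    rw [hu] at h1
    apply e4
    have h2 : a * ((a - 1) * (a + b) + (a ^ 2 - b) * e) = 0 := by
      linear_combination (a - 1) * (c - 1) * h1 - a ^ 2 * hXe - hYe - (a - 1 - e) * hc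
    exact (mul_eq_zero.1 h2).resolve_left a0
  have hD12 : g.D 1 2 ≠ 0 := by
    rw [g.D_succ (by omega) (by omega)]
    refine mul_ne_zero (fun h0 => g.lm_ne 1 (by omega) (sub_eq_zero.1 h0).symm) ?_
    rw [GForm.kap, pow_one, ← mul_sub]
    exact mul_ne_zero a0 (sub_ne_zero.2 hD)
  have G12 := hx.G1 (by omega) (k := 2) (by omega)
  have H12 := hx.H1 (by omega) (k := 2) (by omega)
  rw [GForm.D] at hD12
  rw [hv] at G12 H12
  have n1 : 1 + e ≠ 0 := by
    intro h0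
    apply n13
    linear_combination hXe + a * h0
  have n5 : (a - 1) * (a + b) + a * (b - 1) * e ≠ 0 := by
    intro h0
    apply hD12
    apply mul_left_cancel₀ (mul_ne_zero b0 c1)
    rw [mul_zero]
    have H12' : b * (a ^ 2 * g.H 1 2) = a * (a * b - (a - 1) * Y * (b - 1)) := by
      rw [← H12]; ring
    linear_combination b * (c - 1) * G12 - (c - 1) * H12' + b * (b - 1) * hXe
      + a * (b - 1) * hYe - b * (a - 1) * h0
      + (b * (1 - a ^ 2) + a * (b - 1) * (a - 1 - e)) * hc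
  have f3 : f 3 * (a - 1 - e) = -(c * (a - 1) * (c - 1)) := by
    have k : (b - 1) * (b - a) * (a * b * (a - 1)) *
        (f 3 * (a - 1 - e) + c * (a - 1) * (c - 1)) = 0 := by
      clear_value c
      subst hc
      linear_combination (-((a - 1) * (a * b - 1))) * ff3
        + f 3 * (b - 1) * (b - a) * (b * (a * b - 1) * hXe + a * (b - 1) * hYe)
        - (a * b - 1) * (a * b - a) * (a * b - b) * a * ((b - 1) * (b * hXe + hYe))
    have n : (b - 1) * (b - a) * (a * b * (a - 1)) ≠ 0 :=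
      mul_ne_zero (mul_ne_zero b1 hab) (mul_ne_zero (mul_ne_zero a0 b0) a1)
    linear_combination (mul_eq_zero.1 k).resolve_left n
  refine ⟨e, g.t0, g.s0, hu, hv, hw, hc, a0, b0, sub_ne_zero.1 a1, sub_ne_zero.1 b1,
    sub_ne_zero.1 hab, sub_ne_zero.1 c1, e0, n1, e2, e3, e4, n5, ?_, f2, f3⟩
  linear_combination (a - 1) * (c - 1) * ff1 - f 1 * hXe

end Pool.Agent.Helper54.IP
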