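import Pool.Agent.Helper54.IP.Sq

/-!
TH-P phase 2: construction of the closed corners of the family D4 (generated).
-/

namespace Pool.Agent.Helper54.IP

variable {F : Type*} [Field F]

theorem d4_mk (a b e C P Q : F)
    (hC : C = a * b - 1)
    (hP : P = (a - 1) * (a + b) + (a ^ 2 - b) * e)
    (hQ : Q = (a - 1) * (a + b) + a * (b - 1) * e)
    (n1 : a ≠ 0)
    (n2 : b ≠ 0)
    (n3 : (a - 1) ≠ 0)
    (n4 : (b - 1) ≠ 0)
    (n5 : (b - a) ≠ 0)
    (n6 : e ≠ 0)
    (n7 : (1 + e) ≠ 0)
    (n8 : C ≠ 0)
    (n9 : (a - 1 + a * e) ≠ 0)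
    (n10 : (a - 1 - e) ≠ 0)
    (n11 : P ≠ 0)
    (n12 : Q ≠ 0) :
    ∃ g : GForm F 3, g.Closed ∧
      g.t = sq4 ((1)) ((a)) ((b)) ((a * b)) ∧
      g.s = sq4 ((1)) ((a)) ((b)) ((a * b)) ∧
      g.lam = fun k => 1 - sq4 (((a - 1 + a * e)) / (C)) (((b - a) * e) / ((a - 1) * P)) (((-1) * (a - 1 - e)) / ((b - a))) (((-1) * (a - 1 - e)) / ((b - a))) k := by
  have dt01 : ((a)) - ((1)) ≠ 0 := by
    have e : ((a)) - ((1)) = ((a - 1)) := by
      first | ring1 | (simp only [hC, hP, hQ] <;> ring1) | (field_simp <;> (try simp only [hC, hP, hQ]) <;> ring1)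
    rw [e]
    (first | exact one_ne_zero | assumption | (refine div_ne_zero ?_ ?_ <;> (repeat' apply mul_ne_zero) <;> first | assumption | exact one_ne_zero | exact neg_ne_zero.2 one_ne_zero | (apply pow_ne_zero; assumption)) | ((repeat' apply mul_ne_zero) <;> first | assumption | exact one_ne_zero | exact neg_ne_zero.2 one_ne_zero | (apply pow_ne_zero; assumption)))
  have dt02 : ((b)) - ((1)) ≠ 0 := by
    have e : ((b)) - ((1)) = ((b - 1)) := by
      first | ring1 | (simp only [hC, hP, hQ] <;> ring1) | (field_simp <;> (try simp only [hC, hP, hQ]) <;> ring1)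
    rw [e]
    (first | exact one_ne_zero | assumption | (refine div_ne_zero ?_ ?_ <;> (repeat' apply mul_ne_zero) <;> first | assumption | exact one_ne_zero | exact neg_ne_zero.2 one_ne_zero | (apply pow_ne_zero; assumption)) | ((repeat' apply mul_ne_zero) <;> first | assumption | exact one_ne_zero | exact neg_ne_zero.2 one_ne_zero | (apply pow_ne_zero; assumption)))
  have dt12 : ((b)) - ((a)) ≠ 0 := by
    have e : ((b)) - ((a)) = ((b - a)) := by
      first | ring1 | (simp only [hC, hP, hQ] <;> ring1) | (field_simp <;> (try simp only [hC, hP, hQ]) <;> ring1)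
    rw [e]
    (first | exact one_ne_zero | assumption | (refine div_ne_zero ?_ ?_ <;> (repeat' apply mul_ne_zero) <;> first | assumption | exact one_ne_zero | exact neg_ne_zero.2 one_ne_zero | (apply pow_ne_zero; assumption)) | ((repeat' apply mul_ne_zero) <;> first | assumption | exact one_ne_zero | exact neg_ne_zero.2 one_ne_zero | (apply pow_ne_zero; assumption)))
  have dt03 : ((a * b)) - ((1)) ≠ 0 := by
    have e : ((a * b)) - ((1)) = (C) := by
      first | ring1 | (simp only [hC, hP, hQ] <;> ring1) | (field_simp <;> (try simp only [hC, hP, hQ]) <;> ring1)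
    rw [e]
    (first | exact one_ne_zero | assumption | (refine div_ne_zero ?_ ?_ <;> (repeat' apply mul_ne_zero) <;> first | assumption | exact one_ne_zero | exact neg_ne_zero.2 one_ne_zero | (apply pow_ne_zero; assumption)) | ((repeat' apply mul_ne_zero) <;> first | assumption | exact one_ne_zero | exact neg_ne_zero.2 one_ne_zero | (apply pow_ne_zero; assumption)))
  have dt13 : ((a * b)) - ((a)) ≠ 0 := by
    have e : ((a * b)) - ((a)) = (a * (b - 1)) := by
      first | ring1 | (simp only [hC, hP, hQ] <;> ring1) | (field_simp <;> (try simp only [hC, hP, hQ]) <;> ring1)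
    rw [e]
    (first | exact one_ne_zero | assumption | (refine div_ne_zero ?_ ?_ <;> (repeat' apply mul_ne_zero) <;> first | assumption | exact one_ne_zero | exact neg_ne_zero.2 one_ne_zero | (apply pow_ne_zero; assumption)) | ((repeat' apply mul_ne_zero) <;> first | assumption | exact one_ne_zero | exact neg_ne_zero.2 one_ne_zero | (apply pow_ne_zero; assumption)))
  have dt23 : ((a * b)) - ((b)) ≠ 0 := by
    have e : ((a * b)) - ((b)) = (b * (a - 1)) := by
      first | ring1 | (simp only [hC, hP, hQ] <;> ring1) | (field_simp <;> (try simp only [hC, hP, hQ]) <;> ring1)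
    rw [e]
    (first | exact one_ne_zero | assumption | (refine div_ne_zero ?_ ?_ <;> (repeat' apply mul_ne_zero) <;> first | assumption | exact one_ne_zero | exact neg_ne_zero.2 one_ne_zero | (apply pow_ne_zero; assumption)) | ((repeat' apply mul_ne_zero) <;> first | assumption | exact one_ne_zero | exact neg_ne_zero.2 one_ne_zero | (apply pow_ne_zero; assumption)))
  have ds01 : ((a)) - ((1)) ≠ 0 := by
    have e : ((a)) - ((1)) = ((a - 1)) := by
      first | ring1 | (simp only [hC, hP, hQ] <;> ring1) | (field_simp <;> (try simp only [hC, hP, hQ]) <;> ring1)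
    rw [e]
    (first | exact one_ne_zero | assumption | (refine div_ne_zero ?_ ?_ <;> (repeat' apply mul_ne_zero) <;> first | assumption | exact one_ne_zero | exact neg_ne_zero.2 one_ne_zero | (apply pow_ne_zero; assumption)) | ((repeat' apply mul_ne_zero) <;> first | assumption | exact one_ne_zero | exact neg_ne_zero.2 one_ne_zero | (apply pow_ne_zero; assumption)))
  have ds02 : ((b)) - ((1)) ≠ 0 := by
    have e : ((b)) - ((1)) = ((b - 1)) := by
      first | ring1 | (simp only [hC, hP, hQ] <;> ring1) | (field_simp <;> (try simp only [hC, hP, hQ]) <;> ring1)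
    rw [e]
    (first | exact one_ne_zero | assumption | (refine div_ne_zero ?_ ?_ <;> (repeat' apply mul_ne_zero) <;> first | assumption | exact one_ne_zero | exact neg_ne_zero.2 one_ne_zero | (apply pow_ne_zero; assumption)) | ((repeat' apply mul_ne_zero) <;> first | assumption | exact one_ne_zero | exact neg_ne_zero.2 one_ne_zero | (apply pow_ne_zero; assumption)))
  have ds12 : ((b)) - ((a)) ≠ 0 := by
    have e : ((b)) - ((a)) = ((b - a)) := by
      first | ring1 | (simp only [hC, hP, hQ] <;> ring1) | (field_simp <;> (try simp only [hC, hP, hQ]) <;> ring1)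
    rw [e]
    (first | exact one_ne_zero | assumption | (refine div_ne_zero ?_ ?_ <;> (repeat' apply mul_ne_zero) <;> first | assumption | exact one_ne_zero | exact neg_ne_zero.2 one_ne_zero | (apply pow_ne_zero; assumption)) | ((repeat' apply mul_ne_zero) <;> first | assumption | exact one_ne_zero | exact neg_ne_zero.2 one_ne_zero | (apply pow_ne_zero; assumption)))
  have ds03 : ((a * b)) - ((1)) ≠ 0 := by
    have e : ((a * b)) - ((1)) = (C) := by
      first | ring1 | (simp only [hC, hP, hQ] <;> ring1) | (field_simp <;> (try simp only [hC, hP, hQ]) <;> ring1)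
    rw [e]
    (first | exact one_ne_zero | assumption | (refine div_ne_zero ?_ ?_ <;> (repeat' apply mul_ne_zero) <;> first | assumption | exact one_ne_zero | exact neg_ne_zero.2 one_ne_zero | (apply pow_ne_zero; assumption)) | ((repeat' apply mul_ne_zero) <;> first | assumption | exact one_ne_zero | exact neg_ne_zero.2 one_ne_zero | (apply pow_ne_zero; assumption)))
  have ds13 : ((a * b)) - ((a)) ≠ 0 := by
    have e : ((a * b)) - ((a)) = (a * (b - 1)) := by
      first | ring1 | (simp only [hC, hP, hQ] <;> ring1) | (field_simp <;> (try simp only [hC, hP, hQ]) <;> ring1)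
    rw [e]
    (first | exact one_ne_zero | assumption | (refine div_ne_zero ?_ ?_ <;> (repeat' apply mul_ne_zero) <;> first | assumption | exact one_ne_zero | exact neg_ne_zero.2 one_ne_zero | (apply pow_ne_zero; assumption)) | ((repeat' apply mul_ne_zero) <;> first | assumption | exact one_ne_zero | exact neg_ne_zero.2 one_ne_zero | (apply pow_ne_zero; assumption)))
  have ds23 : ((a * b)) - ((b)) ≠ 0 := by
    have e : ((a * b)) - ((b)) = (b * (a - 1)) := by
      first | ring1 | (simp only [hC, hP, hQ] <;> ring1) | (field_simp <;> (try simp only [hC, hP, hQ]) <;> ring1)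
    rw [e]
    (first | exact one_ne_zero | assumption | (refine div_ne_zero ?_ ?_ <;> (repeat' apply mul_ne_zero) <;> first | assumption | exact one_ne_zero | exact neg_ne_zero.2 one_ne_zero | (apply pow_ne_zero; assumption)) | ((repeat' apply mul_ne_zero) <;> first | assumption | exact one_ne_zero | exact neg_ne_zero.2 one_ne_zero | (apply pow_ne_zero; assumption)))
  have aL0 : ((a - 1 + a * e)) / (C) ≠ 0 := by (first | exact one_ne_zero | assumption | (refine div_ne_zero ?_ ?_ <;> (repeat' apply mul_ne_zero) <;> first | assumption | exact one_ne_zero | exact neg_ne_zero.2 one_ne_zero | (apply pow_ne_zero; assumption)) | ((repeat' apply mul_ne_zero) <;> first | assumption | exact one_ne_zero | exact neg_ne_zero.2 one_ne_zero | (apply pow_ne_zero; assumption)))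
  have aM0 : (b * (a - 1 - e)) / (C) ≠ 0 := by (first | exact one_ne_zero | assumption | (refine div_ne_zero ?_ ?_ <;> (repeat' apply mul_ne_zero) <;> first | assumption | exact one_ne_zero | exact neg_ne_zero.2 one_ne_zero | (apply pow_ne_zero; assumption)) | ((repeat' apply mul_ne_zero) <;> first | assumption | exact one_ne_zero | exact neg_ne_zero.2 one_ne_zero | (apply pow_ne_zero; assumption)))
  have aN0 : 1 - ((a - 1 + a * e)) / (C) - (b * (a - 1 - e)) / (C) ≠ 0 := by
    have e : 1 - ((a - 1 + a * e)) / (C) - (b * (a - 1 - e)) / (C) = ((b - a) * (1 + e)) / (C) := by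
      field_simp
      try simp only [hC, hP, hQ]
      ring
    rw [e]
    (first | exact one_ne_zero | assumption | (refine div_ne_zero ?_ ?_ <;> (repeat' apply mul_ne_zero) <;> first | assumption | exact one_ne_zero | exact neg_ne_zero.2 one_ne_zero | (apply pow_ne_zero; assumption)) | ((repeat' apply mul_ne_zero) <;> first | assumption | exact one_ne_zero | exact neg_ne_zero.2 one_ne_zero | (apply pow_ne_zero; assumption)))
  have aL1 : ((b - a) * e) / ((a - 1) * P) ≠ 0 := by (first | exact one_ne_zero | assumption | (refine div_ne_zero ?_ ?_ <;> (repeat' apply mul_ne_zero) <;> first | assumption | exact one_ne_zero | exact neg_ne_zero.2 one_ne_zero | (apply pow_ne_zero; assumption)) | ((repeat' apply mul_ne_zero) <;> first | assumption | exact one_ne_zero | exact neg_ne_zero.2 one_ne_zero | (apply pow_ne_zero; assumption)))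
  have aM1 : ((-1) * a ^ 2 * (b - a) * e) / ((a - 1) * P) ≠ 0 := by (first | exact one_ne_zero | assumption | (refine div_ne_zero ?_ ?_ <;> (repeat' apply mul_ne_zero) <;> first | assumption | exact one_ne_zero | exact neg_ne_zero.2 one_ne_zero | (apply pow_ne_zero; assumption)) | ((repeat' apply mul_ne_zero) <;> first | assumption | exact one_ne_zero | exact neg_ne_zero.2 one_ne_zero | (apply pow_ne_zero; assumption)))
  have aN1 : 1 - ((b - a) * e) / ((a - 1) * P) - ((-1) * a ^ 2 * (b - a) * e) / ((a - 1) * P) ≠ 0 := by
    have e : 1 - ((b - a) * e) / ((a - 1) * P) - ((-1) * a ^ 2 * (b - a) * e) / ((a - 1) * P) = (Q) / (P) := by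
      field_simp
      try simp only [hC, hP, hQ]
      ring
    rw [e]
    (first | exact one_ne_zero | assumption | (refine div_ne_zero ?_ ?_ <;> (repeat' apply mul_ne_zero) <;> first | assumption | exact one_ne_zero | exact neg_ne_zero.2 one_ne_zero | (apply pow_ne_zero; assumption)) | ((repeat' apply mul_ne_zero) <;> first | assumption | exact one_ne_zero | exact neg_ne_zero.2 one_ne_zero | (apply pow_ne_zero; assumption)))
  have aL2 : ((-1) * (a - 1 - e)) / ((b - a)) ≠ 0 := by (first | exact one_ne_zero | assumption | (refine div_ne_zero ?_ ?_ <;> (repeat' apply mul_ne_zero) <;> first | assumption | exact one_ne_zero | exact neg_ne_zero.2 one_ne_zero | (apply pow_ne_zero; assumption)) | ((repeat' apply mul_ne_zero) <;> first | assumption | exact one_ne_zero | exact neg_ne_zero.2 one_ne_zero | (apply pow_ne_zero; assumption)))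
  have aM2 : ((-1) * b * (a - 1 + a * e)) / ((b - a)) ≠ 0 := by (first | exact one_ne_zero | assumption | (refine div_ne_zero ?_ ?_ <;> (repeat' apply mul_ne_zero) <;> first | assumption | exact one_ne_zero | exact neg_ne_zero.2 one_ne_zero | (apply pow_ne_zero; assumption)) | ((repeat' apply mul_ne_zero) <;> first | assumption | exact one_ne_zero | exact neg_ne_zero.2 one_ne_zero | (apply pow_ne_zero; assumption)))
  have aN2 : 1 - ((-1) * (a - 1 - e)) / ((b - a)) - ((-1) * b * (a - 1 + a * e)) / ((b - a)) ≠ 0 := by
    have e : 1 - ((-1) * (a - 1 - e)) / ((b - a)) - ((-1) * b * (a - 1 + a * e)) / ((b - a)) = ((1 + e) * C) / ((b - a)) := by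
      field_simp
      try simp only [hC, hP, hQ]
      ring
    rw [e]
    (first | exact one_ne_zero | assumption | (refine div_ne_zero ?_ ?_ <;> (repeat' apply mul_ne_zero) <;> first | assumption | exact one_ne_zero | exact neg_ne_zero.2 one_ne_zero | (apply pow_ne_zero; assumption)) | ((repeat' apply mul_ne_zero) <;> first | assumption | exact one_ne_zero | exact neg_ne_zero.2 one_ne_zero | (apply pow_ne_zero; assumption)))
  have bL0 : ((a - 1 + a * e)) / (C) ≠ 0 := by (first | exact one_ne_zero | assumption | (refine div_ne_zero ?_ ?_ <;> (repeat' apply mul_ne_zero) <;> first | assumption | exact one_ne_zero | exact neg_ne_zero.2 one_ne_zero | (apply pow_ne_zero; assumption)) | ((repeat' apply mul_ne_zero) <;> first | assumption | exact one_ne_zero | exact neg_ne_zero.2 one_ne_zero | (apply pow_ne_zero; assumption)))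
  have bM0 : (b * (a - 1 - e)) / (C) ≠ 0 := by (first | exact one_ne_zero | assumption | (refine div_ne_zero ?_ ?_ <;> (repeat' apply mul_ne_zero) <;> first | assumption | exact one_ne_zero | exact neg_ne_zero.2 one_ne_zero | (apply pow_ne_zero; assumption)) | ((repeat' apply mul_ne_zero) <;> first | assumption | exact one_ne_zero | exact neg_ne_zero.2 one_ne_zero | (apply pow_ne_zero; assumption)))
  have bN0 : 1 - ((a - 1 + a * e)) / (C) - (b * (a - 1 - e)) / (C) ≠ 0 := by
    have e : 1 - ((a - 1 + a * e)) / (C) - (b * (a - 1 - e)) / (C) = ((b - a) * (1 + e)) / (C) := by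
      field_simp
      try simp only [hC, hP, hQ]
      ring
    rw [e]
    (first | exact one_ne_zero | assumption | (refine div_ne_zero ?_ ?_ <;> (repeat' apply mul_ne_zero) <;> first | assumption | exact one_ne_zero | exact neg_ne_zero.2 one_ne_zero | (apply pow_ne_zero; assumption)) | ((repeat' apply mul_ne_zero) <;> first | assumption | exact one_ne_zero | exact neg_ne_zero.2 one_ne_zero | (apply pow_ne_zero; assumption)))
  have bL1 : ((b - a) * e) / ((a - 1) * P) ≠ 0 := by (first | exact one_ne_zero | assumption | (refine div_ne_zero ?_ ?_ <;> (repeat' apply mul_ne_zero) <;> first | assumption | exact one_ne_zero | exact neg_ne_zero.2 one_ne_zero | (apply pow_ne_zero; assumption)) | ((repeat' apply mul_ne_zero) <;> first | assumption | exact one_ne_zero | exact neg_ne_zero.2 one_ne_zero | (apply pow_ne_zero; assumption)))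
  have bM1 : ((-1) * a ^ 2 * (b - a) * e) / ((a - 1) * P) ≠ 0 := by (first | exact one_ne_zero | assumption | (refine div_ne_zero ?_ ?_ <;> (repeat' apply mul_ne_zero) <;> first | assumption | exact one_ne_zero | exact neg_ne_zero.2 one_ne_zero | (apply pow_ne_zero; assumption)) | ((repeat' apply mul_ne_zero) <;> first | assumption | exact one_ne_zero | exact neg_ne_zero.2 one_ne_zero | (apply pow_ne_zero; assumption)))
  have bN1 : 1 - ((b - a) * e) / ((a - 1) * P) - ((-1) * a ^ 2 * (b - a) * e) / ((a - 1) * P) ≠ 0 := by
    have e : 1 - ((b - a) * e) / ((a - 1) * P) - ((-1) * a ^ 2 * (b - a) * e) / ((a - 1) * P) = (Q) / (P) := by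
      field_simp
      try simp only [hC, hP, hQ]
      ring
    rw [e]
    (first | exact one_ne_zero | assumption | (refine div_ne_zero ?_ ?_ <;> (repeat' apply mul_ne_zero) <;> first | assumption | exact one_ne_zero | exact neg_ne_zero.2 one_ne_zero | (apply pow_ne_zero; assumption)) | ((repeat' apply mul_ne_zero) <;> first | assumption | exact one_ne_zero | exact neg_ne_zero.2 one_ne_zero | (apply pow_ne_zero; assumption)))
  have bL2 : ((-1) * (a - 1 - e)) / ((b - a)) ≠ 0 := by (first | exact one_ne_zero | assumption | (refine div_ne_zero ?_ ?_ <;> (repeat' apply mul_ne_zero) <;> first | assumption | exact one_ne_zero | exact neg_ne_zero.2 one_ne_zero | (apply pow_ne_zero; assumption)) | ((repeat' apply mul_ne_zero) <;> first | assumption | exact one_ne_zero | exact neg_ne_zero.2 one_ne_zero | (apply pow_ne_zero; assumption)))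
  have bM2 : ((-1) * b * (a - 1 + a * e)) / ((b - a)) ≠ 0 := by (first | exact one_ne_zero | assumption | (refine div_ne_zero ?_ ?_ <;> (repeat' apply mul_ne_zero) <;> first | assumption | exact one_ne_zero | exact neg_ne_zero.2 one_ne_zero | (apply pow_ne_zero; assumption)) | ((repeat' apply mul_ne_zero) <;> first | assumption | exact one_ne_zero | exact neg_ne_zero.2 one_ne_zero | (apply pow_ne_zero; assumption)))
  have bN2 : 1 - ((-1) * (a - 1 - e)) / ((b - a)) - ((-1) * b * (a - 1 + a * e)) / ((b - a)) ≠ 0 := by
    have e : 1 - ((-1) * (a - 1 - e)) / ((b - a)) - ((-1) * b * (a - 1 + a * e)) / ((b - a)) = ((1 + e) * C) / ((b - a)) := by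
      field_simp
      try simp only [hC, hP, hQ]
      ring
    rw [e]
    (first | exact one_ne_zero | assumption | (refine div_ne_zero ?_ ?_ <;> (repeat' apply mul_ne_zero) <;> first | assumption | exact one_ne_zero | exact neg_ne_zero.2 one_ne_zero | (apply pow_ne_zero; assumption)) | ((repeat' apply mul_ne_zero) <;> first | assumption | exact one_ne_zero | exact neg_ne_zero.2 one_ne_zero | (apply pow_ne_zero; assumption)))
  refine ⟨{
    t := sq4 ((1)) ((a)) ((b)) ((a * b))
    s := sq4 ((1)) ((a)) ((b)) ((a * b))
    G := sq4 (sq4 (1) (1) (1) (1)) (sq4 ((1)) (((a * e + a + b - e - 2) * a) / (C)) (((a * b * e + 2 * a * b - a * e - a - b)) / (C)) ((a * (1 + e)))) (sq4 ((1)) (((a * b * e + 2 * a * b - a * e - a - b)) / (C)) (((a * e + a + b - e - 2) * b * Q) / (C * P)) ((b * (1 + e) * Q) / (P))) (sq4 ((1)) ((a * (1 + e))) ((b * (1 + e) * Q) / (P)) ((a * b * (1 + e) ^ 2 * Q) / (P)))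
    H := sq4 (sq4 (1) (1) (1) (1)) (sq4 ((1)) (((a * b * e + 2 * a * b - a - b * e - b)) / (C * a)) (((a + b * e + b - e - 2)) / (C)) (((1 + e)) / (a))) (sq4 ((1)) (((a + b * e + b - e - 2)) / (C)) (((a * b * e + 2 * a * b - a - b * e - b) * Q) / (C * P * b)) (((1 + e) * Q) / (P * b))) (sq4 ((1)) (((1 + e)) / (a)) (((1 + e) * Q) / (P * b)) (((1 + e) ^ 2 * Q) / (P * a * b)))
    lam := fun k => 1 - sq4 (((a - 1 + a * e)) / (C)) (((b - a) * e) / ((a - 1) * P)) (((-1) * (a - 1 - e)) / ((b - a))) (((-1) * (a - 1 - e)) / ((b - a))) k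
    mu := sq4 ((b * (a - 1 - e)) / (C)) (((-1) * a ^ 2 * (b - a) * e) / ((a - 1) * P)) (((-1) * b * (a - 1 + a * e)) / ((b - a))) (((-1) * b * (a - 1 + a * e)) / ((b - a)))
    lam' := fun k => 1 - sq4 (((a - 1 + a * e)) / (C)) (((b - a) * e) / ((a - 1) * P)) (((-1) * (a - 1 - e)) / ((b - a))) (((-1) * (a - 1 - e)) / ((b - a))) k
    mu' := sq4 ((b * (a - 1 - e)) / (C)) (((-1) * a ^ 2 * (b - a) * e) / ((a - 1) * P)) (((-1) * b * (a - 1 + a * e)) / ((b - a))) (((-1) * b * (a - 1 + a * e)) / ((b - a)))
    t0 := ?_
    s0 := ?_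
    t_ne := ?_
    s_ne := ?_
    t_inj := ?_
    s_inj := ?_
    G0 := ?_
    G0' := ?_
    H0 := ?_
    H0' := ?_
    U1 := ?_
    U2 := ?_
    V1 := ?_
    V2 := ?_
    lam_ne := ?_
    mu_ne := ?_
    lm_ne := ?_
    lam'_ne := ?_
    mu'_ne := ?_
    lm'_ne := ?_ }, ?_, rfl, rfl, rfl⟩
  · simp only [sq4, sq5, sq6]
  · simp only [sq4, sq5, sq6]
  · intro i hi
    interval_cases i <;> simp only [sq4, sq5, sq6] <;> (first | exact one_ne_zero | assumption | (refine div_ne_zero ?_ ?_ <;> (repeat' apply mul_ne_zero) <;> first | assumption | exact one_ne_zero | exact neg_ne_zero.2 one_ne_zero | (apply pow_ne_zero; assumption)) | ((repeat' apply mul_ne_zero) <;> first | assumption | exact one_ne_zero | exact neg_ne_zero.2 one_ne_zero | (apply pow_ne_zero; assumption)))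
  · intro i hi
    interval_cases i <;> simp only [sq4, sq5, sq6] <;> (first | exact one_ne_zero | assumption | (refine div_ne_zero ?_ ?_ <;> (repeat' apply mul_ne_zero) <;> first | assumption | exact one_ne_zero | exact neg_ne_zero.2 one_ne_zero | (apply pow_ne_zero; assumption)) | ((repeat' apply mul_ne_zero) <;> first | assumption | exact one_ne_zero | exact neg_ne_zero.2 one_ne_zero | (apply pow_ne_zero; assumption)))
  · intro i j hij hj
    interval_cases j <;> interval_cases i <;> simp only [sq4, sq5, sq6] <;> intro e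
    · exact dt01 (sub_eq_zero.2 e.symm)
    · exact dt02 (sub_eq_zero.2 e.symm)
    · exact dt12 (sub_eq_zero.2 e.symm)
    · exact dt03 (sub_eq_zero.2 e.symm)
    · exact dt13 (sub_eq_zero.2 e.symm)
    · exact dt23 (sub_eq_zero.2 e.symm)
  · intro i j hij hj
    interval_cases j <;> interval_cases i <;> simp only [sq4, sq5, sq6] <;> intro e
    · exact ds01 (sub_eq_zero.2 e.symm)
    · exact ds02 (sub_eq_zero.2 e.symm)
    · exact ds12 (sub_eq_zero.2 e.symm)
    · exact ds03 (sub_eq_zero.2 e.symm)
    · exact ds13 (sub_eq_zero.2 e.symm)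
    · exact ds23 (sub_eq_zero.2 e.symm)
  · intro j hj; interval_cases j <;> simp only [sq4, sq5, sq6]
  · intro k hk; interval_cases k <;> simp only [sq4, sq5, sq6]
  · intro j hj; interval_cases j <;> simp only [sq4, sq5, sq6]
  · intro k hk; interval_cases k <;> simp only [sq4, sq5, sq6]
  · intro j k hj hk
    interval_cases j <;> interval_cases k <;> simp only [sq4, sq5, sq6] <;> field_simp <;> (try simp only [hC, hP, hQ]) <;> ring
  · intro j k hj hk
    interval_cases j <;> interval_cases k <;> simp only [sq4, sq5, sq6] <;> field_simp <;> (try simp only [hC, hP, hQ]) <;> ring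
  · intro j k hj hk
    interval_cases j <;> interval_cases k <;> simp only [sq4, sq5, sq6] <;> field_simp <;> (try simp only [hC, hP, hQ]) <;> ring
  · intro j k hj hk
    interval_cases j <;> interval_cases k <;> simp only [sq4, sq5, sq6] <;> field_simp <;> (try simp only [hC, hP, hQ]) <;> ring
  · intro k hk
    interval_cases k <;> simp only [sq4, sq5, sq6] <;> intro e
    · exact aL0 (by linear_combination -e)
    · exact aL1 (by linear_combination -e)
    · exact aL2 (by linear_combination -e)
  · intro k hk
    interval_cases k <;> simp only [sq4, sq5, sq6]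
    · exact aM0
    · exact aM1
    · exact aM2
  · intro k hk
    interval_cases k <;> simp only [sq4, sq5, sq6] <;> intro e
    · exact aN0 (by linear_combination e)
    · exact aN1 (by linear_combination e)
    · exact aN2 (by linear_combination e)
  · intro k hk
    interval_cases k <;> simp only [sq4, sq5, sq6] <;> intro e
    · exact bL0 (by linear_combination -e)
    · exact bL1 (by linear_combination -e)
    · exact bL2 (by linear_combination -e)
  · intro k hk
    interval_cases k <;> simp only [sq4, sq5, sq6]
    · exact bM0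
    · exact bM1
    · exact bM2
  · intro k hk
    interval_cases k <;> simp only [sq4, sq5, sq6] <;> intro e
    · exact bN0 (by linear_combination e)
    · exact bN1 (by linear_combination e)
    · exact bN2 (by linear_combination e)
  · constructor
    · intro j hj
      interval_cases j <;> simp only [sq4, sq5, sq6] <;> field_simp <;> (try simp only [hC, hP, hQ]) <;> ring
    · intro k hk
      interval_cases k <;> simp only [sq4, sq5, sq6] <;> field_simp <;> (try simp only [hC, hP, hQ]) <;> ring

end Pool.Agent.Helper54.IP
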