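import Pool.Agent.Helper54.IP.Sq

/-!
TH-P phase 2: construction of the closed corners of the family D5 (generated).
-/

namespace Pool.Agent.Helper54.IP

variable {F : Type*} [Field F]

set_option maxRecDepth 100000

theorem d5_mk_U1_12 (a b c d F3 : F)
    (hF3 : F3 = c * (d * (a * (b * ((-1 : F)) + (1 : F)) + (b * ((-1 : F)) + (c * ((-1 : F)) + (d * ((-1 : F)) + (1 : F))))) + a * b) + a * b * d)
    (n15 : (c + d) ≠ 0)
    (n7 : (d - 1) ≠ 0)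
    (n5 : (b - 1) ≠ 0)
    (n8 : (b - a) ≠ 0)
    (n21 : F3 ≠ 0)
    (n0 : a ≠ 0)
    (n1 : b ≠ 0)
    (r0 : a * (a * (b * (c * ((1 : F)) + (-1 : F)) - (c)) + (b * c + d)) + (d * (b * ((-1 : F)) + (c * ((-1 : F)) + (1 : F)))) = 0)
    (r1 : d * (c * (a * (b * ((1 : F)) - (c)) + (b * (-(c)) + d)) + (d * (a * ((-1 : F)) + (b * ((-1 : F)) + d)))) + a * b * c * c = 0)
    (r2 : d * (c * (a * (c * (a * ((1 : F)) + (d * ((1 : F)) + (1 : F))) + (d * (b * ((-1 : F)) + (-1 : F)) + (a * ((-1 : F)) + (1 : F)))) + (b * (c * (d * ((1 : F)) + (1 : F)) + (-1 : F)) + (d * (d * ((-1 : F)) + (-2 : F)) - (c)))) + (d * (a * (a * ((1 : F)) + (b * ((1 : F)) + (2 : F))) + (d * (b * ((1 : F)) + (d * ((-1 : F)) + (-1 : F))) + (1 : F))) + (a * (a * (-(b)) + (1 : F)) + (b * ((-1 : F)) + (1 : F))))) + (a * (a * (c * (c * ((-1 : F)) + (-1 : F)) - (b)) + b * c)) = 0)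
    (r3 : d * (a * (a * (b * (b * ((1 : F)) + (d * ((-1 : F)) + (-1 : F))) + (c * ((-1 : F)) + d)) + (b * (d * ((-1 : F)) + (-1 : F)) + (d * ((1 : F)) + (-1 : F)))) + (b * (b * (c * ((1 : F)) + (1 : F)) + (-2 : F) * d) + (d * (d * ((1 : F)) + (1 : F)) + (c * ((1 : F)) + (-1 : F))))) + (a * (b * (a * (b * ((1 : F)) + (1 : F)) + (c * (b * ((-1 : F)) + (-1 : F)))) + a * c)) = 0)
    (r4 : d * (c * (b * (c * (b * ((-1 : F)) + (d * ((-1 : F)) + (1 : F))) + (a * (b * ((1 : F)) + d) + (d * ((1 : F)) + (1 : F)))) + (c * (a * (d * ((-1 : F)) + (1 : F)) + (-1 : F)) + (d * (d * ((1 : F)) + (-1 : F))))) + (d * (d * (a * ((-1 : F)) + (d * ((1 : F)) + (-1 : F))) + (b * (b * ((-1 : F)) + (2 : F)) + (-1 : F))) - (a * b * b))) + (b * (c * (c * (b * ((-1 : F)) + (1 : F))))) = 0)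
    (r5 : d * (d * (c * (b * (c * (c * ((1 : F)) + (d * ((-1 : F)) + (-1 : F))) + (a * (d * ((1 : F)) + (-1 : F)) + (b * ((1 : F)) + (-4 : F)))) + (c * (a * (c * ((1 : F)) - (d)) + (d * ((-1 : F)) + (2 : F))) + (d * (a * ((1 : F)) + (1 : F)) + (2 : F)))) + (d * (a * (b * ((-1 : F)) + (d * ((-1 : F)) + (1 : F))) + (b * (d * ((-1 : F)) + (-2 : F)) + (d * d + (2 : F)))) + (b * (b * (a * ((1 : F)) + (1 : F)) + (-2 : F)) + (1 : F)))) + (c * (c * (b * (b * (c * ((1 : F)) + (2 : F)) + (c * ((-1 : F)) + (-3 : F))) + (a * (c * ((-1 : F)) + (-1 : F)) + (c * ((1 : F)) + (1 : F)))) - (b)) + a * b * b)) + (b * (c * (c * (b * (c * ((1 : F)) + (1 : F)) + (c * ((-1 : F)) + (-1 : F)))))) = 0) :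
    (((a * (c * (a * (c * ((1 : F)) + (-1 : F)) + d) - (d)) + (c * (-(c)) + d * d))) / ((c + d) * (d - 1))) = ((1 - (1 - ((d * (c - 1) * (c - a) * (c - b)) / ((b - 1) * (b - a) * F3)))) * (((a)) * (((d * (a * (b * ((1 : F)) + (-1 : F)) + (b * ((-1 : F)) + (c * ((1 : F)) + d))) + (c * (a * (a * (b * ((1 : F)) + (-1 : F))) - (b))))) / ((c + d) * (d - 1)))) + (1 - ((d * (c - 1) * (c - a) * (c - b)) / ((b - 1) * (b - a) * F3))) * (((a)) ^ 2 * (((d * (a * (a * (b * ((-1 : F)) + (c * ((1 : F)) + d)) + (c * (b * ((1 : F)) + (-1 : F)))) + (d * (b * ((1 : F)) + (-1 : F)))) - (a * a * b * c))) / ((d - 1) * (c + d) * a ^ 2 * b)))) := by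
  have key : (d * (c * (b * (a * (b * (c * (a * (b * (c * (a * ((1 : F)) + (b * ((-1 : F)) + (5 : F))) + (a * ((-2 : F)) + (b * ((1 : F)) + (d * ((1 : F)) + (-5 : F))))) + (a * (c * ((-1 : F)) + (d * ((-1 : F)) + (2 : F))) + (c * (d * ((1 : F)) + (-4 : F)) + (d * ((-1 : F)) + (2 : F))))) + (b * (c * (b * ((-2 : F)) + (c * ((-1 : F)) + (d * ((-1 : F)) + (6 : F)))) + (b * ((1 : F)) + (d * ((1 : F)) + (-2 : F)))) + (c * (c * ((1 : F)) + (d * ((2 : F)) + (-3 : F))) + (2 : F) * d * d))) + (d * (a * (b * (a * ((1 : F)) + (b * ((-1 : F)) + d)) + (d * (a * ((-1 : F)) + (-3 : F)) + (-1 : F))) + (d * (b * ((1 : F)) + (d * ((1 : F)) + (-5 : F))) - (b * b))) + a * b * b)) + (d * (a * (c * (a * ((2 : F)) + (c * ((-2 : F)) + (d * ((-2 : F)) + (3 : F)))) + (d * (a * ((2 : F)) + (d * ((-1 : F)) + (5 : F))) + (a * ((-1 : F)) + (-1 : F)))) + (c * (c * ((-3 : F)) + (d * ((-3 : F)) + (2 : F)))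 + (d * (d * ((-2 : F)) + (5 : F))))) + (c * (c * (a * ((1 : F)) + (c * ((-1 : F)) + (1 : F))))))) + (b * (c * (c * (b * (b * ((-1 : F)) + (c * ((-1 : F)) + (d * ((-1 : F)) + (2 : F)))) + (c * ((1 : F)) + (d * ((1 : F)) + (-1 : F)))) + (2 : F) * d * d) + (d * (d * (b * ((1 : F)) + (d * ((1 : F)) + (-3 : F)))))) + (d * (d * (c * (c * ((-1 : F)) + (-1 : F)) + (d * ((-1 : F)) + (2 : F))))))) + (d * (a * (d * (a * (a * ((-1 : F)) + (c * ((1 : F)) + (d * ((1 : F)) + (-1 : F)))) + (c * (c * ((1 : F)) + (-1 : F)) + d)) + (c * (c * (c * ((1 : F)) + (-1 : F)) - (a * a)))) + (c * (d * (c * ((1 : F)) + (-1 : F))))))) + (a * (b * (d * (a * (b * (a * (b * ((-1 : F)) + (d * ((1 : F)) + (1 : F))) + (b * (b * ((1 : F)) - (d)) + (2 : F) * d)) + (d * (a * ((-1 : F)) + (-2 : F)))) + (d * (b * (b * ((-1 : F)) + (2 : F)) + (-1 : F)))))))) + (a * (b * (b * (c * (c * (c * (a * (b * (a * ((-1 : F))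 + (b * ((1 : F)) + (-2 : F))) + (a * ((1 : F)) + (1 : F))) + (b * (b * ((1 : F)) + (-1 : F))))))))))) = 0 := by
    linear_combination (b * (b * (d * (c * (c * (a * ((1 : F)) + (b * ((-1 : F)) + (3 : F))) + (a * ((-1 : F)) + (d * ((1 : F)) + (-1 : F)))) + (d * (a * ((1 : F)) + (b * ((-1 : F)) + (d * ((1 : F)) + (-1 : F)))) + (a * ((-1 : F)) + (b * ((1 : F)) + (1 : F))))) + (c * (a * (c * ((-1 : F)) + (-1 : F)) + (b * (c * ((1 : F)) + (1 : F)) + (2 : F))) + (a * ((-1 : F)) + (b * ((1 : F)) + (3 : F))))) + (c * (d * (d * (a * ((-1 : F)) + (c * ((1 : F)) + (1 : F))) + (a * ((1 : F)) - (c))) + (a * ((-1 : F)) + (c * ((1 : F)) + (4 : F)))) + (d * (d * (d * (a * ((-1 : F)) + (-1 : F))) + (3 : F)) + (a * ((-2 : F)) + (6 : F))))) + (d * (d * (c * (a * ((1 : F)) + (c * ((-1 : F)) + (d * ((-2 : F)) + (2 : F)))) + (d * (a * ((1 : F)) + (d * ((-1 : F)) + (2 : F))))) + (c * (a * ((1 : F))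 + (-1 : F)) + (3 : F))) + (c * (a * ((-1 : F)) + (c * ((1 : F)) + (6 : F))) + (a * ((-2 : F)) + (9 : F))))) * r0 + (d * (b * (c * (b * (b * ((-1 : F)) + (c * ((-1 : F)) + (d * ((-1 : F)) + (3 : F)))) + (d * (c * ((-1 : F)) + (d * ((1 : F)) + (3 : F))) + (c * ((1 : F)) + (-4 : F)))) + (b * (b * (d * ((1 : F)) + (1 : F)) + (d * ((2 : F) * d) + (-3 : F))) + (d * (d * ((-3 : F)) + (-5 : F)) + (-1 : F)))) + (d * (c * (d * ((1 : F)) + (-4 : F)) + (d * ((-2 : F) * d) + (-3 : F))) + (c * (-(c)) + (-4 : F)))) + (b * (b * (b * ((-1 : F)) + (c * ((-1 : F)) + (-2 : F))) + (c * ((-1 : F)) + (-4 : F))) + (c * ((-1 : F)) + (-5 : F)))) * r1 + (d * (c * ((-1 : F)) + (d * ((-1 : F)) + (-1 : F))) + (a * ((1 : F)) + (c * ((-1 : F)) + (-5 : F)))) * r2 + (b * (a * ((-1 : F)) + (b * ((1 : F)) + (2 : F))) + (a * ((-1 : F)) + (d * ((1 : F)) + (4 : F)))) * r3 + (d * (b * (b * (d * ((-1 : F)) + (-1 :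 F)) + (4 : F)) + (d * (d * ((1 : F)) + (1 : F)) + (2 : F)))) * r4 + (d * (b * (b * ((-1 : F)) + (c * ((-1 : F)) + (2 : F))) + (d * ((1 : F)) + (-1 : F)))) * r5
  have e : (((a * (c * (a * (c * ((1 : F)) + (-1 : F)) + d) - (d)) + (c * (-(c)) + d * d))) / ((c + d) * (d - 1))) - ((1 - (1 - ((d * (c - 1) * (c - a) * (c - b)) / ((b - 1) * (b - a) * F3)))) * (((a)) * (((d * (a * (b * ((1 : F)) + (-1 : F)) + (b * ((-1 : F)) + (c * ((1 : F)) + d))) + (c * (a * (a * (b * ((1 : F)) + (-1 : F))) - (b))))) / ((c + d) * (d - 1)))) + (1 - ((d * (c - 1) * (c - a) * (c - b)) / ((b - 1) * (b - a) * F3))) * (((a)) ^ 2 * (((d * (a * (a * (b * ((-1 : F)) + (c * ((1 : F)) + d)) + (c * (b * ((1 : F)) + (-1 : F)))) + (d * (b * ((1 : F)) + (-1 : F)))) - (a * a * b * c))) / ((d - 1) * (c + d) * a ^ 2 * b)))) = ((a - 1) * (d * (c * (b * (a * (b * (c * (a * (b * (c * (a * ((1 : F)) + (b * ((-1 : F)) +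 (5 : F))) + (a * ((-2 : F)) + (b * ((1 : F)) + (d * ((1 : F)) + (-5 : F))))) + (a * (c * ((-1 : F)) + (d * ((-1 : F)) + (2 : F))) + (c * (d * ((1 : F)) + (-4 : F)) + (d * ((-1 : F)) + (2 : F))))) + (b * (c * (b * ((-2 : F)) + (c * ((-1 : F)) + (d * ((-1 : F)) + (6 : F)))) + (b * ((1 : F)) + (d * ((1 : F)) + (-2 : F)))) + (c * (c * ((1 : F)) + (d * ((2 : F)) + (-3 : F))) + (2 : F) * d * d))) + (d * (a * (b * (a * ((1 : F)) + (b * ((-1 : F)) + d)) + (d * (a * ((-1 : F)) + (-3 : F)) + (-1 : F))) + (d * (b * ((1 : F)) + (d * ((1 : F)) + (-5 : F))) - (b * b))) + a * b * b)) + (d * (a * (c * (a * ((2 : F)) + (c * ((-2 : F)) + (d * ((-2 : F)) + (3 : F)))) + (d * (a * ((2 : F)) + (d * ((-1 : F)) + (5 : F))) + (a * ((-1 : F)) + (-1 : F)))) + (c * (c * ((-3 : F)) + (d * ((-3 : F)) + (2 : F))) + (d * (d * ((-2 : F)) + (5 : F))))) + (c * (c * (a * ((1 : F)) + (c * ((-1 : F)) + (1 : F)))))))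 + (b * (c * (c * (b * (b * ((-1 : F)) + (c * ((-1 : F)) + (d * ((-1 : F)) + (2 : F)))) + (c * ((1 : F)) + (d * ((1 : F)) + (-1 : F)))) + (2 : F) * d * d) + (d * (d * (b * ((1 : F)) + (d * ((1 : F)) + (-3 : F)))))) + (d * (d * (c * (c * ((-1 : F)) + (-1 : F)) + (d * ((-1 : F)) + (2 : F))))))) + (d * (a * (d * (a * (a * ((-1 : F)) + (c * ((1 : F)) + (d * ((1 : F)) + (-1 : F)))) + (c * (c * ((1 : F)) + (-1 : F)) + d)) + (c * (c * (c * ((1 : F)) + (-1 : F)) - (a * a)))) + (c * (d * (c * ((1 : F)) + (-1 : F))))))) + (a * (b * (d * (a * (b * (a * (b * ((-1 : F)) + (d * ((1 : F)) + (1 : F))) + (b * (b * ((1 : F)) - (d)) + (2 : F) * d)) + (d * (a * ((-1 : F)) + (-2 : F)))) + (d * (b * (b * ((-1 : F)) + (2 : F)) + (-1 : F)))))))) + (a * (b * (b * (c * (c * (c * (a * (b * (a * ((-1 : F)) + (b * ((1 : F)) + (-2 : F))) + (a * ((1 : F)) + (1 : F))) + (b * (b * ((1 : F)) + (-1 : F))))))))))))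 / ((c + d) * (d - 1) * F3 * b * (b - 1) * (b - a)) := by
    field_simp
    all_goals try simp only [hF3]
    all_goals ring
  rw [← sub_eq_zero, e, key, mul_zero, zero_div]

theorem d5_mk_U2_12 (a b c d F3 : F)
    (hF3 : F3 = c * (d * (a * (b * ((-1 : F)) + (1 : F)) + (b * ((-1 : F)) + (c * ((-1 : F)) + (d * ((-1 : F)) + (1 : F))))) + a * b) + a * b * d)
    (n7 : (d - 1) ≠ 0)
    (n15 : (c + d) ≠ 0)
    (n0 : a ≠ 0)
    (n2 : c ≠ 0)
    (n5 : (b - 1) ≠ 0)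
    (n8 : (b - a) ≠ 0)
    (n21 : F3 ≠ 0)
    (n1 : b ≠ 0)
    (r0 : a * (a * (b * (c * ((1 : F)) + (-1 : F)) - (c)) + (b * c + d)) + (d * (b * ((-1 : F)) + (c * ((-1 : F)) + (1 : F)))) = 0)
    (r1 : d * (c * (a * (b * ((1 : F)) - (c)) + (b * (-(c)) + d)) + (d * (a * ((-1 : F)) + (b * ((-1 : F)) + d)))) + a * b * c * c = 0)
    (r2 : d * (c * (a * (c * (a * ((1 : F)) + (d * ((1 : F)) + (1 : F))) + (d * (b * ((-1 : F)) + (-1 : F)) + (a * ((-1 : F)) + (1 : F)))) + (b * (c * (d * ((1 : F)) + (1 : F)) + (-1 : F)) + (d * (d * ((-1 : F)) + (-2 : F)) - (c)))) + (d * (a * (a * ((1 : F)) + (b * ((1 : F)) + (2 : F))) + (d * (b * ((1 : F)) + (d * ((-1 : F)) + (-1 : F))) + (1 : F))) + (a * (a * (-(b)) + (1 : F)) + (b * ((-1 : F)) + (1 : F))))) + (a * (a * (c * (c * ((-1 : F)) + (-1 : F)) - (b)) + b * c)) = 0)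
    (r3 : d * (a * (a * (b * (b * ((1 : F)) + (d * ((-1 : F)) + (-1 : F))) + (c * ((-1 : F)) + d)) + (b * (d * ((-1 : F)) + (-1 : F)) + (d * ((1 : F)) + (-1 : F)))) + (b * (b * (c * ((1 : F)) + (1 : F)) + (-2 : F) * d) + (d * (d * ((1 : F)) + (1 : F)) + (c * ((1 : F)) + (-1 : F))))) + (a * (b * (a * (b * ((1 : F)) + (1 : F)) + (c * (b * ((-1 : F)) + (-1 : F)))) + a * c)) = 0)
    (r4 : d * (c * (b * (c * (b * ((-1 : F)) + (d * ((-1 : F)) + (1 : F))) + (a * (b * ((1 : F)) + d) + (d * ((1 : F)) + (1 : F)))) + (c * (a * (d * ((-1 : F)) + (1 : F)) + (-1 : F)) + (d * (d * ((1 : F)) + (-1 : F))))) + (d * (d * (a * ((-1 : F)) + (d * ((1 : F)) + (-1 : F))) + (b * (b * ((-1 : F)) + (2 : F)) + (-1 : F))) - (a * b * b))) + (b * (c * (c * (b * ((-1 : F)) + (1 : F))))) = 0)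
    (r5 : d * (d * (c * (b * (c * (c * ((1 : F)) + (d * ((-1 : F)) + (-1 : F))) + (a * (d * ((1 : F)) + (-1 : F)) + (b * ((1 : F)) + (-4 : F)))) + (c * (a * (c * ((1 : F)) - (d)) + (d * ((-1 : F)) + (2 : F))) + (d * (a * ((1 : F)) + (1 : F)) + (2 : F)))) + (d * (a * (b * ((-1 : F)) + (d * ((-1 : F)) + (1 : F))) + (b * (d * ((-1 : F)) + (-2 : F)) + (d * d + (2 : F)))) + (b * (b * (a * ((1 : F)) + (1 : F)) + (-2 : F)) + (1 : F)))) + (c * (c * (b * (b * (c * ((1 : F)) + (2 : F)) + (c * ((-1 : F)) + (-3 : F))) + (a * (c * ((-1 : F)) + (-1 : F)) + (c * ((1 : F)) + (1 : F)))) - (b)) + a * b * b)) + (b * (c * (c * (b * (c * ((1 : F)) + (1 : F)) + (c * ((-1 : F)) + (-1 : F)))))) = 0) :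
    ((a)) ^ 3 * (((d * (a * (c * (c * ((1 : F)) + (-1 : F)) + a * d) + (d * (c * ((1 : F)) + (-1 : F)))) - (a * a * c * c))) / ((d - 1) * (c + d) * a ^ 2 * c)) = ((1 - ((a * b ^ 2 * d * (c - 1) * (c - a) * (c - b)) / ((b - 1) * (b - a) * F3 * c))) * (((a)) * (((d * (a * (b * ((1 : F)) + (-1 : F)) + (b * ((-1 : F)) + (c * ((1 : F)) + d))) + (c * (a * (a * (b * ((1 : F)) + (-1 : F))) - (b))))) / ((c + d) * (d - 1)))) + ((a * b ^ 2 * d * (c - 1) * (c - a) * (c - b)) / ((b - 1) * (b - a) * F3 * c)) * (((a)) ^ 2 * (((d * (a * (a * (b * ((-1 : F)) + (c * ((1 : F)) + d)) + (c * (b * ((1 : F)) + (-1 : F)))) + (d * (b * ((1 : F)) + (-1 : F)))) - (a * a * b * c))) / ((d - 1) * (c + d) * a ^ 2 * b)))) := by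
  have key : (c * (d * (b * (a * (b * (c * (b * (a * (a * (b * ((1 : F)) + (c * ((-2 : F)) + (1 : F))) + (c * (c * ((1 : F)) + (-5 : F)) + (b * ((1 : F)) + (d * ((-2 : F)) + (3 : F))))) + (c * (b * ((1 : F)) + (c * ((2 : F)) + (d * ((1 : F)) + (-5 : F)))) + (b * ((-1 : F)) + (d * ((-3 : F)) + (2 : F))))) + (c * (a * (a * ((3 : F)) + (c * ((-2 : F)) + (5 : F))) + (c * ((-2 : F)) + (d * ((1 : F)) + (3 : F)))) + (a * (a * ((-2 : F)) + (-2 : F)) + (d * (d * ((-2 : F)) + (1 : F)))))) + (d * (a * (b * (b * ((1 : F)) + (d * ((-1 : F)) + (3 : F))) + (a * (d * ((1 : F)) + (-1 : F)) + (d * ((3 : F)) + (-2 : F)))) + (d * (b * ((-1 : F)) + (d * ((-1 : F)) + (4 : F))) + (b * ((2 : F)) + (-1 : F)))) + (a * (b * (a * (b * ((-1 : F)) + (1 : F)) - (b)))))) + (d * (a * (d * (a * ((-2 : F)) + (c * ((2 : F)) + (d * ((1 : F)) + (-6 : F)))) + (a * ((1 : F)) + (c * ((-1 : F)) + (1 : F)))) + (d * (c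 * ((5 : F)) + (d * ((2 : F)) + (-5 : F))) - (c))) + (c * (c * (a * (a * ((-1 : F)) + (c * ((1 : F)) + (-1 : F))) + (c * ((1 : F)) + (-1 : F))))))) + (c * (b * (c * (b * (b * ((1 : F)) + (c * ((1 : F)) + (d * ((1 : F)) + (-2 : F)))) + (c * (d * ((-1 : F)) + (-1 : F)) + (1 : F))) + (d * (b * (b * ((1 : F)) + (-2 : F)) + (d * ((-2 : F)) + (1 : F))))) + (d * (c * (c * ((1 : F)) + (-1 : F)) + (2 : F) * d))) + (d * (d * (b * (d * ((-1 : F)) + (1 : F)) + (d * ((1 : F)) + (-1 : F))))))) + (a * (d * (d * (a * (a * ((1 : F)) + (c * ((-1 : F)) + (d * ((-1 : F)) + (2 : F)))) + (c * (c * ((-1 : F)) + (-1 : F)) + (d * ((-1 : F)) + (1 : F)))) + (c * (c * (a * ((1 : F)) + (c * ((-1 : F)) + (1 : F))))))))) + (a * (b * (b * (c * (c * (a * (b * (a * ((1 : F)) + (b * ((-1 : F)) + (2 : F))) + (a * ((-1 : F)) + (-1 : F))) + (b * (b * ((-1 : F)) + (1 : F)))))))))) + (a * (a * (b * (d * (d * (d * (b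 * (a * ((-1 : F)) + (b * ((1 : F)) + (-1 : F))) + (a * ((1 : F)) + (1 : F))) - (b * b * b)))))))) = 0 := by
    linear_combination (b * (b * (d * (c * (c * (a * ((-2 : F)) + (c * ((1 : F)) + (-2 : F))) + (a * b + (d * ((-2 : F)) + (1 : F)))) + (d * (b * ((1 : F)) + (d * ((-1 : F)) + (1 : F))) + (a * ((1 : F)) + (b * ((-1 : F)) + (-1 : F))))) + (c * (a * (c * ((1 : F)) + (1 : F)) + (b * (c * ((-1 : F)) + (-1 : F)) + (-2 : F))) + (a * ((1 : F)) + (b * ((-1 : F)) + (-3 : F))))) + (d * (a * (c * (c * ((1 : F)) + (-1 : F)) + (d * (d * ((1 : F)) + (-1 : F)))) + (c * (c * (c * ((-1 : F)) + (1 : F))) + (d * d + (-3 : F)))) + (c * (a * ((1 : F)) + (c * ((-1 : F)) + (-4 : F))) + (a * ((2 : F)) + (-6 : F))))) + (d * (d * (d * (a * ((-1 : F)) + (c * ((2 : F)) + (d * ((1 : F)) + (-2 : F)))) + (-2 : F) * c) + (c * (a * ((-1 : F)) + (1 : F)) + (-3 : F))) + (c * (a * ((1 : F)) + (c * ((-1 :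 F)) + (-6 : F))) + (a * ((2 : F)) + (-9 : F))))) * r0 + (d * (b * (c * (b * (b * ((1 : F)) + (c * ((1 : F)) + (d * ((1 : F)) + (-3 : F)))) + (d * (c * ((1 : F)) + (d * ((-1 : F)) + (-3 : F))) + (c * ((-1 : F)) + (4 : F)))) + (b * (b * (d * ((-1 : F)) + (-1 : F)) + (d * ((-2 : F) * d) + (3 : F))) + (d * (d * ((3 : F)) + (5 : F)) + (1 : F)))) + (d * (c * (d * ((-1 : F)) + (4 : F)) + (d * ((2 : F) * d) + (3 : F))) + (c * c + (4 : F)))) + (b * (b * (b * ((1 : F)) + (c * ((1 : F)) + (2 : F))) + (c * ((1 : F)) + (4 : F))) + (c * ((1 : F)) + (5 : F)))) * r1 + (d * (c * ((1 : F)) + (d * ((1 : F)) + (1 : F))) + (a * ((-1 : F)) + (c * ((1 : F)) + (5 : F)))) * r2 + (b * (a * ((1 : F)) + (b * ((-1 : F)) + (-2 : F))) + (a * ((1 : F)) + (d * ((-1 : F)) + (-4 : F)))) * r3 + (d * (b * (b * (d * ((1 : F)) + (1 : F)) + (-4 : F)) + (d * (d * ((-1 : F)) + (-1 : F)) + (-2 : F)))) * r4 + (d * (b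 * (b * ((1 : F)) + (c * ((1 : F)) + (-2 : F))) + (d * ((-1 : F)) + (1 : F)))) * r5
  have e : ((a)) ^ 3 * (((d * (a * (c * (c * ((1 : F)) + (-1 : F)) + a * d) + (d * (c * ((1 : F)) + (-1 : F)))) - (a * a * c * c))) / ((d - 1) * (c + d) * a ^ 2 * c)) - ((1 - ((a * b ^ 2 * d * (c - 1) * (c - a) * (c - b)) / ((b - 1) * (b - a) * F3 * c))) * (((a)) * (((d * (a * (b * ((1 : F)) + (-1 : F)) + (b * ((-1 : F)) + (c * ((1 : F)) + d))) + (c * (a * (a * (b * ((1 : F)) + (-1 : F))) - (b))))) / ((c + d) * (d - 1)))) + ((a * b ^ 2 * d * (c - 1) * (c - a) * (c - b)) / ((b - 1) * (b - a) * F3 * c)) * (((a)) ^ 2 * (((d * (a * (a * (b * ((-1 : F)) + (c * ((1 : F)) + d)) + (c * (b * ((1 : F)) + (-1 : F)))) + (d * (b * ((1 : F)) + (-1 : F)))) - (a * a * b * c))) / ((d - 1) * (c + d) * a ^ 2 * b)))) = (a * (a - 1) * (c * (d * (b * (a * (b * (c * (b * (a * (a * (b * ((1 : F)) + (c * ((-2 : F)) +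 (1 : F))) + (c * (c * ((1 : F)) + (-5 : F)) + (b * ((1 : F)) + (d * ((-2 : F)) + (3 : F))))) + (c * (b * ((1 : F)) + (c * ((2 : F)) + (d * ((1 : F)) + (-5 : F)))) + (b * ((-1 : F)) + (d * ((-3 : F)) + (2 : F))))) + (c * (a * (a * ((3 : F)) + (c * ((-2 : F)) + (5 : F))) + (c * ((-2 : F)) + (d * ((1 : F)) + (3 : F)))) + (a * (a * ((-2 : F)) + (-2 : F)) + (d * (d * ((-2 : F)) + (1 : F)))))) + (d * (a * (b * (b * ((1 : F)) + (d * ((-1 : F)) + (3 : F))) + (a * (d * ((1 : F)) + (-1 : F)) + (d * ((3 : F)) + (-2 : F)))) + (d * (b * ((-1 : F)) + (d * ((-1 : F)) + (4 : F))) + (b * ((2 : F)) + (-1 : F)))) + (a * (b * (a * (b * ((-1 : F)) + (1 : F)) - (b)))))) + (d * (a * (d * (a * ((-2 : F)) + (c * ((2 : F)) + (d * ((1 : F)) + (-6 : F)))) + (a * ((1 : F)) + (c * ((-1 : F)) + (1 : F)))) + (d * (c * ((5 : F)) + (d * ((2 : F)) + (-5 : F))) - (c))) + (c * (c * (a * (a * ((-1 : F)) + (c * ((1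 : F)) + (-1 : F))) + (c * ((1 : F)) + (-1 : F))))))) + (c * (b * (c * (b * (b * ((1 : F)) + (c * ((1 : F)) + (d * ((1 : F)) + (-2 : F)))) + (c * (d * ((-1 : F)) + (-1 : F)) + (1 : F))) + (d * (b * (b * ((1 : F)) + (-2 : F)) + (d * ((-2 : F)) + (1 : F))))) + (d * (c * (c * ((1 : F)) + (-1 : F)) + (2 : F) * d))) + (d * (d * (b * (d * ((-1 : F)) + (1 : F)) + (d * ((1 : F)) + (-1 : F))))))) + (a * (d * (d * (a * (a * ((1 : F)) + (c * ((-1 : F)) + (d * ((-1 : F)) + (2 : F)))) + (c * (c * ((-1 : F)) + (-1 : F)) + (d * ((-1 : F)) + (1 : F)))) + (c * (c * (a * ((1 : F)) + (c * ((-1 : F)) + (1 : F))))))))) + (a * (b * (b * (c * (c * (a * (b * (a * ((1 : F)) + (b * ((-1 : F)) + (2 : F))) + (a * ((-1 : F)) + (-1 : F))) + (b * (b * ((-1 : F)) + (1 : F)))))))))) + (a * (a * (b * (d * (d * (d * (b * (a * ((-1 : F)) + (b * ((1 : F)) + (-1 : F))) + (a * ((1 : F)) + (1 : F))) - (b * b * b)))))))))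 / ((c + d) * (d - 1) * F3 * (b - 1) * (b - a) * c) := by
    field_simp
    all_goals try simp only [hF3]
    all_goals ring
  rw [← sub_eq_zero, e, key, mul_zero, zero_div]

theorem d5_mk_U1_20 (a b c d : F)
    (n15 : (c + d) ≠ 0)
    (n7 : (d - 1) ≠ 0) :
    (((d * (a * (b * ((1 : F)) + (-1 : F)) + (b * ((-1 : F)) + (c * ((1 : F)) + d))) + (c * (a * (a * (b * ((1 : F)) + (-1 : F))) - (b))))) / ((c + d) * (d - 1))) = ((1 - (1 - (((a - 1) * (a * c + c + d)) / ((d - 1) * (c + d))))) * (((b)) * ((1))) + (1 - (((a - 1) * (a * c + c + d)) / ((d - 1) * (c + d)))) * (((b)) ^ 0 * ((1)))) := by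
  field_simp
  all_goals ring

theorem d5_mk_U1_21 (a b c d F2 : F)
    (hF2 : F2 = a * (d * (b * (c * ((-1 : F)) + (1 : F)) + (a * ((1 : F)) + (c * ((-1 : F)) + (d * ((-1 : F)) + (1 : F))))) + b * c) - (b * c * d))
    (n15 : (c + d) ≠ 0)
    (n0 : a ≠ 0)
    (n20 : F2 ≠ 0)
    (n7 : (d - 1) ≠ 0)
    (n4 : (a - 1) ≠ 0)
    (n1 : b ≠ 0) :
    (((d * (a * (b * (a * (c * (b * (a * (b * (a * ((1 : F)) + (b * ((-1 : F)) + (3 : F))) + (a * ((-2 : F)) + (c * ((1 : F)) + (d * ((1 : F)) + (-5 : F))))) + (b * (b * ((-1 : F)) + (2 : F)) + (c * (d * ((-1 : F)) + (2 : F)) + (d * ((3 : F)) + (-1 : F))))) + (d * (a * (c * ((-1 : F)) + (d * ((-1 : F)) + (5 : F))) + (c * ((-1 : F)) + (d * ((-2 : F)) + (-2 : F)))) + (c * (a * ((2 : F)) + (-1 : F))))) + (d * (b * (b * (a * ((1 : F)) + (b * ((-1 : F)) + (2 : F))) + (a * ((-3 : F)) + (d * ((1 : F)) + (-1 : F)))) + (a * (a * ((-1 : F)) + (2 : F)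 * d) - (d))))) + (d * (b * (c * (b * ((-1 : F)) + (c * ((-1 : F)) + (d * ((-1 : F)) + (3 : F)))) + (d * (b * ((-1 : F)) + (4 : F)))) + (c * (c * ((1 : F)) + (-2 : F)) + (d * (d * ((-1 : F)) + (-3 : F))))))) + (d * (a * (a * (d * (a * ((1 : F)) + (c * ((-2 : F)) + (d * ((-1 : F)) + (1 : F)))) + (c * (a * ((1 : F)) - (c)))) + (c * (c * ((1 : F)) + d))) + (d * (c * ((1 : F)) + d))))) + (b * (d * (d * (b * (b * ((-1 : F)) + (c * ((-1 : F)) + (2 : F))) + (c * ((1 : F)) + (-1 : F))))))) - (a * a * a * b * b * c * c))) / ((c + d) * a ^ 2 * F2 * (d - 1))) = ((1 - (1 - (((-1) * d * (b - 1) * (b - a)) / ((a - 1) * F2)))) * (((b)) * (((d * (a * (b * ((1 : F)) + (-1 : F)) + (b * ((-1 : F)) + (c * ((1 : F)) + d))) + (c * (a * (a * (b * ((1 : F)) + (-1 : F))) - (b))))) / ((c + d) * (d - 1)))) + (1 - (((-1) * d * (b - 1) * (b - a)) / ((a - 1) * F2))) * (((b)) ^ 1 * (((d * (a * (a * (b * ((-1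 : F)) + (c * ((1 : F)) + d)) + (c * (b * ((1 : F)) + (-1 : F)))) + (d * (b * ((1 : F)) + (-1 : F)))) - (a * a * b * c))) / ((d - 1) * (c + d) * a ^ 2 * b)))) := by
  field_simp
  all_goals try simp only [hF2]
  all_goals ring

theorem d5_mk_U2_21 (a b c d F2 : F)
    (hF2 : F2 = a * (d * (b * (c * ((-1 : F)) + (1 : F)) + (a * ((1 : F)) + (c * ((-1 : F)) + (d * ((-1 : F)) + (1 : F))))) + b * c) - (b * c * d))
    (n15 : (c + d) ≠ 0)
    (n20 : F2 ≠ 0)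
    (n7 : (d - 1) ≠ 0)
    (n1 : b ≠ 0)
    (n4 : (a - 1) ≠ 0)
    (n0 : a ≠ 0) :
    ((b)) ^ 2 * (((b * (d * (a * (b * (c * (a * (a * (b * (a * (c * ((-1 : F)) + (1 : F)) + (b * ((1 : F)) + (c * ((-3 : F)) + (-2 : F) * d))) + (a * (c * ((2 : F)) + (-1 : F)) + (c * ((4 : F)) + (d * ((3 : F)) + (-1 : F))))) + (b * (b * ((1 : F)) + (c * ((-1 : F)) + (d * ((-2 : F)) + (-2 : F)))) + (d * (c * ((-1 : F)) + (d * ((-1 : F)) + (3 : F))) + c))) + (b * (b * (c * ((1 : F)) + (-2 : F)) + (c * ((2 : F)) + (d * ((5 : F)) + (-1 : F)))) + (d * (c * ((-3 : F)) + (d * ((-5 : F)) + (1 : F)))))) + (d * (a * (b * (a * ((1 : F)) + (b * ((1 : F)) + (d * ((-1 : F)) + (-1 : F)))) + (a * ((-1 : F)) + (d * ((2 : F)) + (-1 : F)))) + (b * (b * ((-1 : F)) + (d * ((2 : F)) + (-1 : F))) + (d * (d * ((-1 : F)) + (1 : F))))))) + (c * (a * (a * (c * (a * ((-1 : F)) + (-1 : F)) - (d)) + (d * (c * ((2 : F)) + (2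 : F) * d))) + (d * (c * ((1 : F)) + (3 : F) * d))))) + (c * (b * (b * (b * (c * ((1 : F)) + d) - (c * d)) + (-2 : F) * d * d) + d * d))) + (a * (b * (b * (c * (c * (a * (a * (b * ((1 : F)) + (-1 : F))) - (b)))))))) + (a * (c * (d * (d * (a * (c * ((-1 : F)) - (d)) - (d)))))))) / ((c + d) * F2 * (d - 1) * b ^ 3)) = ((1 - (((-1) * a ^ 2 * c * d * (b - 1) * (b - a)) / ((a - 1) * F2 * b))) * (((b)) * (((d * (a * (b * ((1 : F)) + (-1 : F)) + (b * ((-1 : F)) + (c * ((1 : F)) + d))) + (c * (a * (a * (b * ((1 : F)) + (-1 : F))) - (b))))) / ((c + d) * (d - 1)))) + (((-1) * a ^ 2 * c * d * (b - 1) * (b - a)) / ((a - 1) * F2 * b)) * (((b)) ^ 1 * (((d * (a * (a * (b * ((-1 : F)) + (c * ((1 : F)) + d)) + (c * (b * ((1 : F)) + (-1 : F)))) + (d * (b * ((1 : F)) + (-1 : F)))) - (a * a * b * c))) / ((d - 1) * (c + d) * a ^ 2 * b)))) := by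
  field_simp
  all_goals try simp only [hF2]
  all_goals ring

theorem d5_mk_U2_23 (a b c d F2 K : F)
    (hF2 : F2 = a * (d * (b * (c * ((-1 : F)) + (1 : F)) + (a * ((1 : F)) + (c * ((-1 : F)) + (d * ((-1 : F)) + (1 : F))))) + b * c) - (b * c * d))
    (hK : K = d * (a * (c * ((-1 : F)) + (2 : F)) + (c * ((-2 : F)) + (d * ((-1 : F)) + (1 : F)))) + a * c)
    (n15 : (c + d) ≠ 0)
    (n20 : F2 ≠ 0)
    (n1 : b ≠ 0)
    (n3 : d ≠ 0)
    (n6 : (c - 1) ≠ 0)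
    (n9 : (c - a) ≠ 0)
    (n11 : (c - b) ≠ 0)
    (n14 : (a + 1) ≠ 0)
    (n7 : (d - 1) ≠ 0)
    (n2 : c ≠ 0)
    (r1 : d * (c * (a * (b * ((1 : F)) - (c)) + (b * (-(c)) + d)) + (d * (a * ((-1 : F)) + (b * ((-1 : F)) + d)))) + a * b * c * c = 0) :
    ((b)) ^ 4 * (((a * c + d) * K) / ((c + d) * F2 * b)) = ((1 - (((-1) * c * (d - a) * (d - b) * (d - c) * (a * c + c + d)) / (d ^ 2 * (c - 1) * (c - a) * (c - b) * (a + 1)))) * (((b)) * (((c * (a * (b * (c * ((1 : F)) + (-1 : F)) + (c * ((-1 : F)) + d)) + (c * (b * ((1 : F)) + (-1 : F)))) + (d * (b * ((-1 : F)) + d))) * b * K) / ((c + d) * F2 * (d - 1)))) + (((-1) * c * (d - a) * (d - b) * (d - c) * (a * c + c + d)) / (d ^ 2 * (c - 1) * (c - a) * (c - b) * (a + 1))) * (((b)) ^ 3 * (((d * (d * (a * (b * ((1 : F)) + (-1 : F)) + (b * ((1 : F)) + (c * ((1 : F)) + (-1 : F)))) + (c * (a * c - (b)))) - (a * b * c * c)) * K) / ((c + d)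 * F2 * c * (d - 1) * b)))) := by
  have key : (d * (c * (a * (b * ((1 : F)) - (c)) + (b * (-(c)) + d)) + (d * (a * ((-1 : F)) + (b * ((-1 : F)) + d)))) + a * b * c * c) = 0 := by
    linear_combination ((1 : F)) * r1
  have e : ((b)) ^ 4 * (((a * c + d) * K) / ((c + d) * F2 * b)) - ((1 - (((-1) * c * (d - a) * (d - b) * (d - c) * (a * c + c + d)) / (d ^ 2 * (c - 1) * (c - a) * (c - b) * (a + 1)))) * (((b)) * (((c * (a * (b * (c * ((1 : F)) + (-1 : F)) + (c * ((-1 : F)) + d)) + (c * (b * ((1 : F)) + (-1 : F)))) + (d * (b * ((-1 : F)) + d))) * b * K) / ((c + d) * F2 * (d - 1)))) + (((-1) * c * (d - a) * (d - b) * (d - c) * (a * c + c + d)) / (d ^ 2 * (c - 1) * (c - a) * (c - b) * (a + 1))) * (((b)) ^ 3 * (((d * (d * (a * (b * ((1 : F)) + (-1 : F)) + (b * ((1 : F)) + (c * ((1 : F)) + (-1 : F)))) + (c * (a * c - (b)))) - (a * b * c * c)) * K) / ((c + d) * F2 * c * (d - 1) * b))))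 = (b ^ 2 * (b - 1) * (d - c) ^ 2 * (a * c + c + d) * K * (d * (c * (a * (b * ((1 : F)) - (c)) + (b * (-(c)) + d)) + (d * (a * ((-1 : F)) + (b * ((-1 : F)) + d)))) + a * b * c * c)) / (d ^ 2 * (c + d) * (c - a) * (d - 1) * (c - 1) * F2 * (c - b)) := by
    field_simp
    all_goals try simp only [hF2, hK]
    all_goals ring
  rw [← sub_eq_zero, e, key, mul_zero, zero_div]

theorem d5_mk_U2_32 (a b c d F2 F3 K : F)
    (hF2 : F2 = a * (d * (b * (c * ((-1 : F)) + (1 : F)) + (a * ((1 : F)) + (c * ((-1 : F)) + (d * ((-1 : F)) + (1 : F))))) + b * c) - (b * c * d))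
    (hF3 : F3 = c * (d * (a * (b * ((-1 : F)) + (1 : F)) + (b * ((-1 : F)) + (c * ((-1 : F)) + (d * ((-1 : F)) + (1 : F))))) + a * b) + a * b * d)
    (hK : K = d * (a * (c * ((-1 : F)) + (2 : F)) + (c * ((-2 : F)) + (d * ((-1 : F)) + (1 : F)))) + a * c)
    (n15 : (c + d) ≠ 0)
    (n20 : F2 ≠ 0)
    (n21 : F3 ≠ 0)
    (n7 : (d - 1) ≠ 0)
    (n2 : c ≠ 0)
    (n5 : (b - 1) ≠ 0)
    (n8 : (b - a) ≠ 0)
    (n1 : b ≠ 0)
    (r0 : a * (a * (b * (c * ((1 : F)) + (-1 : F)) - (c)) + (b * c + d)) + (d * (b * ((-1 : F)) + (c * ((-1 : F)) + (1 : F)))) = 0)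
    (r1 : d * (c * (a * (b * ((1 : F)) - (c)) + (b * (-(c)) + d)) + (d * (a * ((-1 : F)) + (b * ((-1 : F)) + d)))) + a * b * c * c = 0)
    (r2 : d * (c * (a * (c * (a * ((1 : F)) + (d * ((1 : F)) + (1 : F))) + (d * (b * ((-1 : F)) + (-1 : F)) + (a * ((-1 : F)) + (1 : F)))) + (b * (c * (d * ((1 : F)) + (1 : F)) + (-1 : F)) + (d * (d * ((-1 : F)) + (-2 : F)) - (c)))) + (d * (a * (a * ((1 : F)) + (b * ((1 : F)) + (2 : F))) + (d * (b * ((1 : F)) + (d * ((-1 : F)) + (-1 : F))) + (1 : F))) + (a * (a * (-(b)) + (1 : F)) + (b * ((-1 : F)) + (1 : F))))) + (a * (a * (c * (c * ((-1 : F)) + (-1 : F)) - (b)) + b * c)) = 0)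
    (r3 : d * (a * (a * (b * (b * ((1 : F)) + (d * ((-1 : F)) + (-1 : F))) + (c * ((-1 : F)) + d)) + (b * (d * ((-1 : F)) + (-1 : F)) + (d * ((1 : F)) + (-1 : F)))) + (b * (b * (c * ((1 : F)) + (1 : F)) + (-2 : F) * d) + (d * (d * ((1 : F)) + (1 : F)) + (c * ((1 : F)) + (-1 : F))))) + (a * (b * (a * (b * ((1 : F)) + (1 : F)) + (c * (b * ((-1 : F)) + (-1 : F)))) + a * c)) = 0)
    (r4 : d * (c * (b * (c * (b * ((-1 : F)) + (d * ((-1 : F)) + (1 : F))) + (a * (b * ((1 : F)) + d) + (d * ((1 : F)) + (1 : F)))) + (c * (a * (d * ((-1 : F)) + (1 : F)) + (-1 : F)) + (d * (d * ((1 : F)) + (-1 : F))))) + (d * (d * (a * ((-1 : F)) + (d * ((1 : F)) + (-1 : F))) + (b * (b * ((-1 : F)) + (2 : F)) + (-1 : F))) - (a * b * b))) + (b * (c * (c * (b * ((-1 : F)) + (1 : F))))) = 0)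
    (r5 : d * (d * (c * (b * (c * (c * ((1 : F)) + (d * ((-1 : F)) + (-1 : F))) + (a * (d * ((1 : F)) + (-1 : F)) + (b * ((1 : F)) + (-4 : F)))) + (c * (a * (c * ((1 : F)) - (d)) + (d * ((-1 : F)) + (2 : F))) + (d * (a * ((1 : F)) + (1 : F)) + (2 : F)))) + (d * (a * (b * ((-1 : F)) + (d * ((-1 : F)) + (1 : F))) + (b * (d * ((-1 : F)) + (-2 : F)) + (d * d + (2 : F)))) + (b * (b * (a * ((1 : F)) + (1 : F)) + (-2 : F)) + (1 : F)))) + (c * (c * (b * (b * (c * ((1 : F)) + (2 : F)) + (c * ((-1 : F)) + (-3 : F))) + (a * (c * ((-1 : F)) + (-1 : F)) + (c * ((1 : F)) + (1 : F)))) - (b)) + a * b * b)) + (b * (c * (c * (b * (c * ((1 : F)) + (1 : F)) + (c * ((-1 : F)) + (-1 : F)))))) = 0) :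
    ((c)) ^ 3 * (((d * (c * (a * (c * ((1 : F)) + d) + (c * ((-1 : F)) + (2 : F) * d)) + (d * (a * ((-1 : F)) + (-1 : F)))) - (a * c * c * c)) * b * K ^ 2) / ((c + d) * F2 * F3 * (d - 1) * c ^ 2)) = ((1 - ((a * b ^ 2 * d * (c - 1) * (c - a) * (c - b)) / ((b - 1) * (b - a) * F3 * c))) * (((c)) * (((c * (a * (b * (c * ((1 : F)) + (-1 : F)) + (c * ((-1 : F)) + d)) + (c * (b * ((1 : F)) + (-1 : F)))) + (d * (b * ((-1 : F)) + d))) * b * K) / ((c + d) * F2 * (d - 1)))) + ((a * b ^ 2 * d * (c - 1) * (c - a) * (c - b)) / ((b - 1) * (b - a) * F3 * c)) * (((c)) ^ 2 * (((d * (d * (a * (b * ((1 : F)) + (-1 : F)) + (b * ((1 : F)) + (c * ((1 : F)) + (-1 : F)))) + (c * (a * c - (b)))) - (a * b * c * c)) * K) / ((c + d) * F2 * c * (d - 1) * b)))) := by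
  have key : (c * (d * (a * (c * (b * (c * (b * (a * (b * (a * (b * ((1 : F)) + (c * ((-2 : F)) + (3 : F))) + (c * (c * ((1 : F)) + (-7 : F)) + (b * ((1 : F)) + (5 : F)))) + (c * (a * ((4 : F)) + (c * ((-1 : F)) + (d * ((-1 : F)) + (10 : F)))) + (a * (d * ((-2 : F)) + (-3 : F)) + (d * (-(d)) + (-5 : F))))) + (b * (c * (b * ((1 : F)) + (c * ((2 : F)) + (d * ((1 : F)) + (-8 : F)))) + (b * ((-1 : F)) + (d * ((-1 : F)) + (3 : F)))) + (c * (c * ((-2 : F)) + (d * ((-2 : F)) + (9 : F))) + (d * ((-3 : F) * d) + (-2 : F))))) + (a * (a * (c * (c * ((-1 : F)) + (d * ((1 : F)) + (-3 : F))) + (d * (d * ((1 : F)) + (-2 : F)) + (2 : F))) + (d * (c * ((3 : F)) + (d * ((4 : F)) + (-4 : F))) + (c * ((-6 : F)) + (2 : F)))) + (c * (c * ((1 : F)) + (d * ((1 : F)) + (-3 : F))) + (d * (d * ((6 : F)) + (-1 : F)))))) + (d * (a * (a * (b * (b * ((1 : F)) + (2 : F)) + (d * ((-2 : F)) + (1 : F))) + (d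 * (b * ((2 : F)) + (d * ((1 : F)) + (-9 : F))) + (b * ((2 : F) * b) + (3 : F)))) + (b * (d * (d * ((-1 : F)) + (6 : F)) + (b * ((3 : F)) + (-2 : F))) + (d * (d * ((2 : F)) + (-11 : F)) + (2 : F)))) + (b * (b * (a * (a * (b * ((-2 : F)) + (-1 : F)) + (b * ((-1 : F)) + (-1 : F))) + (b * ((1 : F)) + (-1 : F))) + a)))) + (d * (a * (c * (a * (d * ((-1 : F)) + (1 : F)) + (c * (c * ((-1 : F)) + (1 : F)) + (-2 : F) * d)) + (d * (a * ((2 : F)) + (d * ((-1 : F)) + (4 : F))) + (a * ((-1 : F)) + (-1 : F)))) + (c * (c * (d * ((-1 : F)) + (1 : F)) + (-1 : F)) + (d * (d * ((-1 : F)) + (2 : F))))) + (c * (c * (c * (a * (a * ((1 : F)) + (1 : F)) + (-1 : F)) + (1 : F)))))) + (d * (d * (b * (a * (b * (a * ((-1 : F)) + (b * ((1 : F)) + (-2 : F))) + (a * ((2 : F)) + (d * ((-1 : F)) + (6 : F)))) + (b * (d * ((1 : F)) + (-3 : F)) + (d * ((-2 : F)) + (5 : F)))) + (a * (a * ((-1 : F)) + (d * ((1 : F))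 + (-2 : F))) + (d * ((1 : F)) + (-1 : F)))) + (b * (b * (b * (a * (a * ((-1 : F)) + (b * ((-1 : F)) + (-2 : F))) + (-1 : F)))))) + a * a * b * b * b * b)) + (b * (c * (b * (c * (c * (b * (b * ((1 : F)) + (c * ((1 : F)) + (d * ((1 : F)) + (-3 : F)))) + (c * ((-2 : F)) + (3 : F))) + (d * (b * ((-1 : F)) + (-2 : F) * d))) + (d * (b * (b * ((-1 : F)) + (2 : F)) + (d * (d * ((-1 : F)) + (3 : F)) + (-1 : F))))) + (c * (c * (c * ((1 : F)) + (d * ((-1 : F)) + (-1 : F))) + (d * (d * ((2 : F)) + (1 : F)))) + (d * (d * (d * ((1 : F)) + (-3 : F)))))) + (d * (d * (b * (d * ((1 : F)) + (-1 : F)) + (d * ((-1 : F)) + (1 : F)))))))) + (a * (c * (c * (b * (a * (b * (b * (c * (a * ((1 : F)) + (b * ((-1 : F)) + (3 : F))) + (a * ((-1 : F)) + (b * ((1 : F)) + (-1 : F)))) + (c * (a * ((-2 : F)) + (c * ((-1 : F)) + (-3 : F))) + a)) + (c * (a * (c * ((1 : F)) + (1 : F)) + (c * ((1 : F)) + (1 : F)))))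 + (b * (c * (b * (b * ((-1 : F)) + (2 : F)) + (-1 : F))))) - (a * a * c * c)))))) + (a * (a * (b * (d * (d * (d * (b * (a * ((1 : F)) + (b * ((-1 : F)) + (1 : F))) + (a * ((-1 : F)) + (-1 : F))) + b * b * b))))))) = 0 := by
    linear_combination (c * (c * (d * (b * (a * (b * (b * ((1 : F)) + (c * ((-2 : F)) + (2 : F))) + (c * ((2 : F)) + (d * ((-2 : F)) + (1 : F)))) + (c * (b * (c * ((1 : F)) + (-4 : F)) + (d * ((-1 : F)) + (4 : F))) + (d * (d * ((-1 : F)) + (3 : F)) + (b * ((-1 : F)) + (-4 : F))))) + (a * (c * (c * ((-1 : F)) + (d * ((1 : F)) + (-2 : F))) + (d * (d * ((1 : F)) + (-3 : F)) + (1 : F))) + (c * (c * ((1 : F)) + (d * ((1 : F)) + (1 : F))) + (d * (d * ((3 : F)) + (-1 : F)) + (-2 : F))))) + (c * (b * (b * (a * ((1 : F)) + (b * ((-1 : F)) + (1 : F))) + (a * ((-1 : F)) + (c * ((-1 : F)) + (-2 : F)))) + (a * (c * ((1 : F)) + (1 : F)) + (c * ((-1 : F)) + (-3 : F))))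 + (a * ((1 : F)) + (b * ((-2 : F)) + (-4 : F))))) + (d * (b * (a * (b * (b * ((-1 : F)) + d) + (d * ((1 : F)) + (1 : F))) + (b * ((-2 : F)) + (d * d + (-6 : F)))) + (d * (d * (a * ((-1 : F)) + (d * ((1 : F)) + (-5 : F))) + (2 : F)) + (a * ((2 : F)) + (-6 : F)))) + (b * ((-2 : F)) + (-4 : F)))) + (d * (b * (d * (b * (b * ((-1 : F)) + (d * ((1 : F)) + (-2 : F))) + (a * (d * ((-1 : F)) + (1 : F)) + (-3 : F))) + (a * ((1 : F)) + (b * ((-2 : F)) + (-8 : F)))) + (d * (d * ((2 : F)) + (-1 : F)) + (a * ((2 : F)) + (-9 : F)))) + (b * ((-2 : F)) + (-4 : F)))) * r0 + (d * (b * (c * (b * (c * (b * ((1 : F)) + (c * ((1 : F)) + (d * ((1 : F)) + (-4 : F)))) + (d * (b * ((-1 : F)) + (d * ((-2 : F)) + (1 : F))) + (b * ((-1 : F)) + (5 : F)))) + (c * (d * (c * ((1 : F)) + (d * ((-1 : F)) + (-5 : F))) + (c * ((-2 : F)) + (6 : F))) + (d * (d * ((7 : F)) + (5 : F)) + (-2 : F)))) + (d * (b * (d *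 (b * ((1 : F)) + (d * ((2 : F)) + (2 : F))) + (b * ((2 : F)) + (-2 : F))) + (d * (d * ((-6 : F)) + (-10 : F)) + (2 : F))) + (b * (b * ((1 : F)) + (1 : F)) + (4 : F)))) + (d * (c * (c * (c * ((-1 : F)) + (d * ((-3 : F)) + (5 : F))) + (d * (d * ((4 : F)) + (2 : F)) + (-2 : F))) + (d * (d * (d * ((-4 : F)) + (-8 : F)) + (7 : F)) + (5 : F))) + (c * (c * (c * ((1 : F)) + (-1 : F)) + (4 : F)) + (7 : F)))) + (c * (c * (b * (b * ((1 : F)) + (c * ((1 : F)) + (1 : F))) + (c * ((1 : F)) + (2 : F))) + (b * ((2 : F)) + (2 : F))) + (b * ((2 : F)) + (2 : F)))) * r1 + (c * (c * (d * (a * ((1 : F)) + (c * ((-1 : F)) + (d * ((-1 : F)) + (1 : F)))) + (a * ((-1 : F)) + (c * ((1 : F)) + (2 : F)))) + (d * (a * ((-1 : F)) + (d * ((2 : F)) + (1 : F))) + (2 : F))) + (d * (a * ((-1 : F)) + (d * ((1 : F)) + (5 : F))) + (2 : F))) * r2 + (d * (a * ((1 : F)) + (b * ((-2 : F)) + (d * ((-1 : F)) + (-4 : F))))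 + (-2 : F)) * r3 + (d * (b * (d * (b * (d * ((-1 : F)) + (-3 : F)) + (d * ((2 : F)) + (4 : F))) + (b * ((-2 : F)) + (4 : F))) + (d * (d * (d * ((2 : F)) + (6 : F))) + (-2 : F)))) * r4 + (d * (b * (b * (c * ((1 : F)) + (d * ((-1 : F)) + (-2 : F))) + (c * (c * ((1 : F)) + (-3 : F)) + (d * ((2 : F)) + (4 : F)))) + (d * (c * ((-2 : F)) + (d * ((2 : F)) + (4 : F))) + (c * ((2 : F)) + (-2 : F))))) * r5
  have e : ((c)) ^ 3 * (((d * (c * (a * (c * ((1 : F)) + d) + (c * ((-1 : F)) + (2 : F) * d)) + (d * (a * ((-1 : F)) + (-1 : F)))) - (a * c * c * c)) * b * K ^ 2) / ((c + d) * F2 * F3 * (d - 1) * c ^ 2)) - ((1 - ((a * b ^ 2 * d * (c - 1) * (c - a) * (c - b)) / ((b - 1) * (b - a) * F3 * c))) * (((c)) * (((c * (a * (b * (c * ((1 : F)) + (-1 : F)) + (c * ((-1 : F)) + d)) + (c * (b * ((1 : F)) + (-1 : F)))) + (d * (b * ((-1 : F)) + d))) * b * K) / ((c + d) * F2 * (d - 1)))) + ((a * b ^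 2 * d * (c - 1) * (c - a) * (c - b)) / ((b - 1) * (b - a) * F3 * c)) * (((c)) ^ 2 * (((d * (d * (a * (b * ((1 : F)) + (-1 : F)) + (b * ((1 : F)) + (c * ((1 : F)) + (-1 : F)))) + (c * (a * c - (b)))) - (a * b * c * c)) * K) / ((c + d) * F2 * c * (d - 1) * b)))) = (b * K * (c * (d * (a * (c * (b * (c * (b * (a * (b * (a * (b * ((1 : F)) + (c * ((-2 : F)) + (3 : F))) + (c * (c * ((1 : F)) + (-7 : F)) + (b * ((1 : F)) + (5 : F)))) + (c * (a * ((4 : F)) + (c * ((-1 : F)) + (d * ((-1 : F)) + (10 : F)))) + (a * (d * ((-2 : F)) + (-3 : F)) + (d * (-(d)) + (-5 : F))))) + (b * (c * (b * ((1 : F)) + (c * ((2 : F)) + (d * ((1 : F)) + (-8 : F)))) + (b * ((-1 : F)) + (d * ((-1 : F)) + (3 : F)))) + (c * (c * ((-2 : F)) + (d * ((-2 : F)) + (9 : F))) + (d * ((-3 : F) * d) + (-2 : F))))) + (a * (a * (c * (c * ((-1 : F)) + (d * ((1 : F)) + (-3 : F))) + (d * (d * ((1 : F)) + (-2 : F)) + (2 : F)))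 + (d * (c * ((3 : F)) + (d * ((4 : F)) + (-4 : F))) + (c * ((-6 : F)) + (2 : F)))) + (c * (c * ((1 : F)) + (d * ((1 : F)) + (-3 : F))) + (d * (d * ((6 : F)) + (-1 : F)))))) + (d * (a * (a * (b * (b * ((1 : F)) + (2 : F)) + (d * ((-2 : F)) + (1 : F))) + (d * (b * ((2 : F)) + (d * ((1 : F)) + (-9 : F))) + (b * ((2 : F) * b) + (3 : F)))) + (b * (d * (d * ((-1 : F)) + (6 : F)) + (b * ((3 : F)) + (-2 : F))) + (d * (d * ((2 : F)) + (-11 : F)) + (2 : F)))) + (b * (b * (a * (a * (b * ((-2 : F)) + (-1 : F)) + (b * ((-1 : F)) + (-1 : F))) + (b * ((1 : F)) + (-1 : F))) + a)))) + (d * (a * (c * (a * (d * ((-1 : F)) + (1 : F)) + (c * (c * ((-1 : F)) + (1 : F)) + (-2 : F) * d)) + (d * (a * ((2 : F)) + (d * ((-1 : F)) + (4 : F))) + (a * ((-1 : F)) + (-1 : F)))) + (c * (c * (d * ((-1 : F)) + (1 : F)) + (-1 : F)) + (d * (d * ((-1 : F)) + (2 : F))))) + (c * (c * (c * (a * (a * ((1 : F)) + (1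 : F)) + (-1 : F)) + (1 : F)))))) + (d * (d * (b * (a * (b * (a * ((-1 : F)) + (b * ((1 : F)) + (-2 : F))) + (a * ((2 : F)) + (d * ((-1 : F)) + (6 : F)))) + (b * (d * ((1 : F)) + (-3 : F)) + (d * ((-2 : F)) + (5 : F)))) + (a * (a * ((-1 : F)) + (d * ((1 : F)) + (-2 : F))) + (d * ((1 : F)) + (-1 : F)))) + (b * (b * (b * (a * (a * ((-1 : F)) + (b * ((-1 : F)) + (-2 : F))) + (-1 : F)))))) + a * a * b * b * b * b)) + (b * (c * (b * (c * (c * (b * (b * ((1 : F)) + (c * ((1 : F)) + (d * ((1 : F)) + (-3 : F)))) + (c * ((-2 : F)) + (3 : F))) + (d * (b * ((-1 : F)) + (-2 : F) * d))) + (d * (b * (b * ((-1 : F)) + (2 : F)) + (d * (d * ((-1 : F)) + (3 : F)) + (-1 : F))))) + (c * (c * (c * ((1 : F)) + (d * ((-1 : F)) + (-1 : F))) + (d * (d * ((2 : F)) + (1 : F)))) + (d * (d * (d * ((1 : F)) + (-3 : F)))))) + (d * (d * (b * (d * ((1 : F)) + (-1 : F)) + (d * ((-1 : F)) + (1 : F)))))))) + (a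 * (c * (c * (b * (a * (b * (b * (c * (a * ((1 : F)) + (b * ((-1 : F)) + (3 : F))) + (a * ((-1 : F)) + (b * ((1 : F)) + (-1 : F)))) + (c * (a * ((-2 : F)) + (c * ((-1 : F)) + (-3 : F))) + a)) + (c * (a * (c * ((1 : F)) + (1 : F)) + (c * ((1 : F)) + (1 : F))))) + (b * (c * (b * (b * ((-1 : F)) + (2 : F)) + (-1 : F))))) - (a * a * c * c)))))) + (a * (a * (b * (d * (d * (d * (b * (a * ((1 : F)) + (b * ((-1 : F)) + (1 : F))) + (a * ((-1 : F)) + (-1 : F))) + b * b * b)))))))) / ((c + d) * (d - 1) * F3 * (b - 1) * (b - a) * F2) := by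
    field_simp
    all_goals try simp only [hF2, hF3, hK]
    all_goals ring
  rw [← sub_eq_zero, e, key, mul_zero, zero_div]

theorem d5_mk_U2_33 (a b c d F2 F3 K : F)
    (hF2 : F2 = a * (d * (b * (c * ((-1 : F)) + (1 : F)) + (a * ((1 : F)) + (c * ((-1 : F)) + (d * ((-1 : F)) + (1 : F))))) + b * c) - (b * c * d))
    (hF3 : F3 = c * (d * (a * (b * ((-1 : F)) + (1 : F)) + (b * ((-1 : F)) + (c * ((-1 : F)) + (d * ((-1 : F)) + (1 : F))))) + a * b) + a * b * d)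
    (hK : K = d * (a * (c * ((-1 : F)) + (2 : F)) + (c * ((-2 : F)) + (d * ((-1 : F)) + (1 : F)))) + a * c)
    (n15 : (c + d) ≠ 0)
    (n20 : F2 ≠ 0)
    (n21 : F3 ≠ 0)
    (n2 : c ≠ 0)
    (n3 : d ≠ 0)
    (n6 : (c - 1) ≠ 0)
    (n9 : (c - a) ≠ 0)
    (n11 : (c - b) ≠ 0)
    (n14 : (a + 1) ≠ 0)
    (n7 : (d - 1) ≠ 0)
    (r1 : d * (c * (a * (b * ((1 : F)) - (c)) + (b * (-(c)) + d)) + (d * (a * ((-1 : F)) + (b * ((-1 : F)) + d)))) + a * b * c * c = 0) :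
    ((c)) ^ 4 * ((b * (a * c + d) * K ^ 2) / ((c + d) * F2 * F3 * c)) = ((1 - (((-1) * c * (d - a) * (d - b) * (d - c) * (a * c + c + d)) / (d ^ 2 * (c - 1) * (c - a) * (c - b) * (a + 1)))) * (((c)) * (((c * (c * (a * (c * ((1 : F)) + (-2 : F)) + (c * ((1 : F)) + (-1 : F))) + (d * (a * ((1 : F)) + (-1 : F)))) + d * d) * b * c * K ^ 2) / ((c + d) * F2 * F3 * (d - 1)))) + (((-1) * c * (d - a) * (d - b) * (d - c) * (a * c + c + d)) / (d ^ 2 * (c - 1) * (c - a) * (c - b) * (a + 1))) * (((c)) ^ 3 * (((d * (c * (a * (c * ((1 : F)) + d) + (c * ((-1 : F)) + (2 : F) * d)) + (d * (a * ((-1 : F)) + (-1 : F)))) - (a * c * c * c)) * b * K ^ 2) / ((c + d) * F2 * F3 * (d - 1) * c ^ 2)))) := by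
  have key : (d * (c * (a * (b * ((1 : F)) - (c)) + (b * (-(c)) + d)) + (d * (a * ((-1 : F)) + (b * ((-1 : F)) + d)))) + a * b * c * c) = 0 := by
    linear_combination ((1 : F)) * r1
  have e : ((c)) ^ 4 * ((b * (a * c + d) * K ^ 2) / ((c + d) * F2 * F3 * c)) - ((1 - (((-1) * c * (d - a) * (d - b) * (d - c) * (a * c + c + d)) / (d ^ 2 * (c - 1) * (c - a) * (c - b) * (a + 1)))) * (((c)) * (((c * (c * (a * (c * ((1 : F)) + (-2 : F)) + (c * ((1 : F)) + (-1 : F))) + (d * (a * ((1 : F)) + (-1 : F)))) + d * d) * b * c * K ^ 2) / ((c + d) * F2 * F3 * (d - 1)))) + (((-1) * c * (d - a) * (d - b) * (d - c) * (a * c + c + d)) / (d ^ 2 * (c - 1) * (c - a) * (c - b) * (a + 1))) * (((c)) ^ 3 * (((d * (c * (a * (c * ((1 : F)) + d) + (c * ((-1 : F)) + (2 : F) * d)) + (d * (a * ((-1 : F)) + (-1 : F)))) - (a * c * c * c)) * b * K ^ 2) / ((c + d) * F2 * F3 * (d - 1) * c ^ 2)))) = (b * c ^ 2 *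 (d - c) ^ 2 * (a * c + c + d) * K ^ 2 * (d * (c * (a * (b * ((1 : F)) - (c)) + (b * (-(c)) + d)) + (d * (a * ((-1 : F)) + (b * ((-1 : F)) + d)))) + a * b * c * c)) / (d ^ 2 * (c + d) * (c - a) * (d - 1) * F3 * F2 * (c - b)) := by
    field_simp
    all_goals try simp only [hF2, hF3, hK]
    all_goals ring
  rw [← sub_eq_zero, e, key, mul_zero, zero_div]

theorem d5_mk_U1_40 (a b c d : F)
    (n15 : (c + d) ≠ 0)
    (n7 : (d - 1) ≠ 0) :
    ((a * (a * c + d)) / ((c + d))) = ((1 - (1 - (((a - 1) * (a * c + c + d)) / ((d - 1) * (c + d))))) * (((d)) * ((1))) + (1 - (((a - 1) * (a * c + c + d)) / ((d - 1) * (c + d)))) * (((d)) ^ 0 * ((1)))) := by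
  field_simp
  all_goals ring

theorem d5_mk_U2_40 (a b c d : F)
    (n15 : (c + d) ≠ 0)
    (n0 : a ≠ 0)
    (n7 : (d - 1) ≠ 0) :
    ((d)) ^ 1 * (((a * c + d)) / ((c + d) * a ^ 2)) = ((1 - ((d * (a - 1) * (a * c + a * d + d)) / (a ^ 2 * (d - 1) * (c + d)))) * (((d)) * ((1))) + ((d * (a - 1) * (a * c + a * d + d)) / (a ^ 2 * (d - 1) * (c + d))) * (((d)) ^ 0 * ((1)))) := by
  field_simp
  all_goals ring

theorem d5_mk_U2_43 (a b c d F2 F3 K : F)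
    (hF2 : F2 = a * (d * (b * (c * ((-1 : F)) + (1 : F)) + (a * ((1 : F)) + (c * ((-1 : F)) + (d * ((-1 : F)) + (1 : F))))) + b * c) - (b * c * d))
    (hF3 : F3 = c * (d * (a * (b * ((-1 : F)) + (1 : F)) + (b * ((-1 : F)) + (c * ((-1 : F)) + (d * ((-1 : F)) + (1 : F))))) + a * b) + a * b * d)
    (hK : K = d * (a * (c * ((-1 : F)) + (2 : F)) + (c * ((-2 : F)) + (d * ((-1 : F)) + (1 : F)))) + a * c)
    (n14 : (a + 1) ≠ 0)
    (n15 : (c + d) ≠ 0)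
    (n20 : F2 ≠ 0)
    (n21 : F3 ≠ 0)
    (n3 : d ≠ 0)
    (n6 : (c - 1) ≠ 0)
    (n9 : (c - a) ≠ 0)
    (n11 : (c - b) ≠ 0)
    (n2 : c ≠ 0)
    (r1 : d * (c * (a * (b * ((1 : F)) - (c)) + (b * (-(c)) + d)) + (d * (a * ((-1 : F)) + (b * ((-1 : F)) + d)))) + a * b * c * c = 0) :
    ((d)) ^ 4 * ((b * (a * c + d) ^ 2 * K ^ 2) / ((a + 1) * (c + d) * F2 * F3 * d ^ 2)) = ((1 - (((-1) * c * (d - a) * (d - b) * (d - c) * (a * c + c + d)) / (d ^ 2 * (c - 1) * (c - a) * (c - b) * (a + 1)))) * (((d)) * ((b * c ^ 2 * (a * c + d) * K ^ 2) / ((c + d) * F2 * F3))) + (((-1) * c * (d - a) * (d - b) * (d - c) * (a * c + c + d)) / (d ^ 2 * (c - 1) * (c - a) * (c - b) * (a + 1))) * (((d)) ^ 3 * ((b * (a * c + d) * K ^ 2) / ((c + d) * F2 * F3 * c)))) := by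
  have key : (d * (c * (a * (b * ((1 : F)) - (c)) + (b * (-(c)) + d)) + (d * (a * ((-1 : F)) + (b * ((-1 : F)) + d)))) + a * b * c * c) = 0 := by
    linear_combination ((1 : F)) * r1
  have e : ((d)) ^ 4 * ((b * (a * c + d) ^ 2 * K ^ 2) / ((a + 1) * (c + d) * F2 * F3 * d ^ 2)) - ((1 - (((-1) * c * (d - a) * (d - b) * (d - c) * (a * c + c + d)) / (d ^ 2 * (c - 1) * (c - a) * (c - b) * (a + 1)))) * (((d)) * ((b * c ^ 2 * (a * c + d) * K ^ 2) / ((c + d) * F2 * F3))) + (((-1) * c * (d - a) * (d - b) * (d - c) * (a * c + c + d)) / (d ^ 2 * (c - 1) * (c - a) * (c - b) * (a + 1))) * (((d)) ^ 3 * ((b * (a * c + d) * K ^ 2) / ((c + d) * F2 * F3 * c)))) = (b * (d - c) ^ 2 * (a * c + d) * (a * c + c + d) * K ^ 2 * (d * (c * (a * (b * ((1 : F)) - (c)) + (b * (-(c)) + d)) + (d * (a * ((-1 : F)) + (b * ((-1 : F)) + d)))) + a * b * c * c)) / (d * (c + d) * (c - a) * (a + 1) * F3 * (c - 1)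 * F2 * (c - b)) := by
    field_simp
    all_goals try simp only [hF2, hF3, hK]
    all_goals ring
  rw [← sub_eq_zero, e, key, mul_zero, zero_div]

theorem d5_mk_C1_4 (a b c d F2 F3 K : F)
    (hF2 : F2 = a * (d * (b * (c * ((-1 : F)) + (1 : F)) + (a * ((1 : F)) + (c * ((-1 : F)) + (d * ((-1 : F)) + (1 : F))))) + b * c) - (b * c * d))
    (hF3 : F3 = c * (d * (a * (b * ((-1 : F)) + (1 : F)) + (b * ((-1 : F)) + (c * ((-1 : F)) + (d * ((-1 : F)) + (1 : F))))) + a * b) + a * b * d)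
    (hK : K = d * (a * (c * ((-1 : F)) + (2 : F)) + (c * ((-2 : F)) + (d * ((-1 : F)) + (1 : F)))) + a * c)
    (n14 : (a + 1) ≠ 0)
    (n15 : (c + d) ≠ 0)
    (n20 : F2 ≠ 0)
    (n21 : F3 ≠ 0)
    (n3 : d ≠ 0) :
    ((d)) * ((b * d * (a * c + d) ^ 2 * K ^ 2) / ((a + 1) * (c + d) * F2 * F3)) = ((d)) ^ 4 * ((b * (a * c + d) ^ 2 * K ^ 2) / ((a + 1) * (c + d) * F2 * F3 * d ^ 2)) := by
  field_simp
  all_goals try simp only [hF2, hF3, hK]
  all_goals ring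

theorem d5_mk_dt12 (a b c d : F)
    (n8 : (b - a) ≠ 0) :
    ((b)) - ((a)) ≠ 0 := by
  have main : ((b)) - ((a)) = (((b - a))) := by
    field_simp
    all_goals ring
  rw [main]
  (first | exact one_ne_zero | assumption | (refine div_ne_zero ?_ ?_ <;> (repeat' apply mul_ne_zero) <;> first | assumption | exact one_ne_zero | exact neg_ne_zero.2 one_ne_zero | (apply pow_ne_zero; assumption)) | ((repeat' apply mul_ne_zero) <;> first | assumption | exact one_ne_zero | exact neg_ne_zero.2 one_ne_zero | (apply pow_ne_zero; assumption)))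

theorem d5_mk_dt23 (a b c d : F)
    (n11 : (c - b) ≠ 0) :
    ((c)) - ((b)) ≠ 0 := by
  have main : ((c)) - ((b)) = (((c - b))) := by
    field_simp
    all_goals ring
  rw [main]
  (first | exact one_ne_zero | assumption | (refine div_ne_zero ?_ ?_ <;> (repeat' apply mul_ne_zero) <;> first | assumption | exact one_ne_zero | exact neg_ne_zero.2 one_ne_zero | (apply pow_ne_zero; assumption)) | ((repeat' apply mul_ne_zero) <;> first | assumption | exact one_ne_zero | exact neg_ne_zero.2 one_ne_zero | (apply pow_ne_zero; assumption)))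

theorem d5_mk_dt04 (a b c d : F)
    (n7 : (d - 1) ≠ 0) :
    ((d)) - ((1)) ≠ 0 := by
  have main : ((d)) - ((1)) = (((d - 1))) := by
    field_simp
    all_goals ring
  rw [main]
  (first | exact one_ne_zero | assumption | (refine div_ne_zero ?_ ?_ <;> (repeat' apply mul_ne_zero) <;> first | assumption | exact one_ne_zero | exact neg_ne_zero.2 one_ne_zero | (apply pow_ne_zero; assumption)) | ((repeat' apply mul_ne_zero) <;> first | assumption | exact one_ne_zero | exact neg_ne_zero.2 one_ne_zero | (apply pow_ne_zero; assumption)))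

theorem d5_mk_dt34 (a b c d : F)
    (n13 : (d - c) ≠ 0) :
    ((d)) - ((c)) ≠ 0 := by
  have main : ((d)) - ((c)) = (((d - c))) := by
    field_simp
    all_goals ring
  rw [main]
  (first | exact one_ne_zero | assumption | (refine div_ne_zero ?_ ?_ <;> (repeat' apply mul_ne_zero) <;> first | assumption | exact one_ne_zero | exact neg_ne_zero.2 one_ne_zero | (apply pow_ne_zero; assumption)) | ((repeat' apply mul_ne_zero) <;> first | assumption | exact one_ne_zero | exact neg_ne_zero.2 one_ne_zero | (apply pow_ne_zero; assumption)))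

theorem d5_mk_aN1 (a b c d F2 K : F)
    (hF2 : F2 = a * (d * (b * (c * ((-1 : F)) + (1 : F)) + (a * ((1 : F)) + (c * ((-1 : F)) + (d * ((-1 : F)) + (1 : F))))) + b * c) - (b * c * d))
    (hK : K = d * (a * (c * ((-1 : F)) + (2 : F)) + (c * ((-2 : F)) + (d * ((-1 : F)) + (1 : F)))) + a * c)
    (n4 : (a - 1) ≠ 0)
    (n20 : F2 ≠ 0)
    (n1 : b ≠ 0)
    (n9 : (c - a) ≠ 0)
    (n10 : (d - a) ≠ 0)
    (n0 : a ≠ 0)
    (n5 : (b - 1) ≠ 0)
    (n11 : (c - b) ≠ 0)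
    (n12 : (d - b) ≠ 0)
    (n22 : K ≠ 0)
    (r0 : a * (a * (b * (c * ((1 : F)) + (-1 : F)) - (c)) + (b * c + d)) + (d * (b * ((-1 : F)) + (c * ((-1 : F)) + (1 : F)))) = 0)
    (r1 : d * (c * (a * (b * ((1 : F)) - (c)) + (b * (-(c)) + d)) + (d * (a * ((-1 : F)) + (b * ((-1 : F)) + d)))) + a * b * c * c = 0)
    (r2 : d * (c * (a * (c * (a * ((1 : F)) + (d * ((1 : F)) + (1 : F))) + (d * (b * ((-1 : F)) + (-1 : F)) + (a * ((-1 : F)) + (1 : F)))) + (b * (c * (d * ((1 : F)) + (1 : F)) + (-1 : F)) + (d * (d * ((-1 : F)) + (-2 : F)) - (c)))) + (d * (a * (a * ((1 : F)) + (b * ((1 : F)) + (2 : F))) + (d * (b * ((1 : F)) + (d * ((-1 : F)) + (-1 : F))) + (1 : F))) + (a * (a * (-(b)) + (1 : F)) + (b * ((-1 : F)) + (1 : F))))) + (a * (a * (c * (c * ((-1 : F)) + (-1 : F)) - (b)) + b * c)) = 0)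
    (r3 : d * (a * (a * (b * (b * ((1 : F)) + (d * ((-1 : F)) + (-1 : F))) + (c * ((-1 : F)) + d)) + (b * (d * ((-1 : F)) + (-1 : F)) + (d * ((1 : F)) + (-1 : F)))) + (b * (b * (c * ((1 : F)) + (1 : F)) + (-2 : F) * d) + (d * (d * ((1 : F)) + (1 : F)) + (c * ((1 : F)) + (-1 : F))))) + (a * (b * (a * (b * ((1 : F)) + (1 : F)) + (c * (b * ((-1 : F)) + (-1 : F)))) + a * c)) = 0) :
    1 - (((-1) * d * (b - 1) * (b - a)) / ((a - 1) * F2)) - (((-1) * a ^ 2 * c * d * (b - 1) * (b - a)) / ((a - 1) * F2 * b)) ≠ 0 := by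
  have main : 1 - (((-1) * d * (b - 1) * (b - a)) / ((a - 1) * F2)) - (((-1) * a ^ 2 * c * d * (b - 1) * (b - a)) / ((a - 1) * F2 * b)) = ((a ^ 2 * (b - 1) * (c - b) * (d - b) * K) / (b * (a - 1) * (c - a) * (d - a) * F2)) := by
    have key : (d * (a * (b * (a * (c * (a * (a * ((1 : F)) + (b * ((1 : F)) + (c * ((-1 : F)) + (d * ((-1 : F)) + (2 : F))))) + (b * ((2 : F)) + (c * ((-1 : F)) + (d * ((-2 : F)) + (2 : F))))) + (d * (a * ((2 : F)) + (b * ((1 : F)) + (d * ((-1 : F)) + (1 : F)))) + (a * (a * ((-1 : F)) + (-2 : F) * b)))) + (c * (b * ((-1 : F)) + (c * ((-2 : F)) + (d * ((-2 : F)) + (1 : F)))) + (d * (b * ((-1 : F)) + (1 : F))))) + (c * (a * (a * (a * ((-1 : F)) + (c * ((1 : F)) + d)) + (c * ((-1 : F)) + (-2 : F) * d)) + (d * (c * ((2 : F)) + (d * ((1 : F)) + (-1 : F))))))) + (b * (c * (d * (b * ((1 : F)) + (c * ((1 : F)) + (-1 : F))))))) + (a * (a * (b * (c * (a * (-(b))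 + c)))))) = 0 := by
      linear_combination (d * (a * (a * ((1 : F)) + (b * ((1 : F)) + (c * ((-1 : F)) + (d * ((-1 : F)) + (1 : F))))) + (b * ((1 : F)) + (d * ((-1 : F)) + (2 : F)))) + (a * (b * ((-1 : F)) + (-1 : F)) + (c * ((1 : F)) + (1 : F)))) * r0 + (d * ((-2 : F)) + (-1 : F)) * r1 + ((-1 : F)) * r2 + (a * ((-1 : F)) + d) * r3
    have e : 1 - (((-1) * d * (b - 1) * (b - a)) / ((a - 1) * F2)) - (((-1) * a ^ 2 * c * d * (b - 1) * (b - a)) / ((a - 1) * F2 * b)) - ((a ^ 2 * (b - 1) * (c - b) * (d - b) * K) / (b * (a - 1) * (c - a) * (d - a) * F2)) = ((b - a) * (d * (a * (b * (a * (c * (a * (a * ((1 : F)) + (b * ((1 : F)) + (c * ((-1 : F)) + (d * ((-1 : F)) + (2 : F))))) + (b * ((2 : F)) + (c * ((-1 : F)) + (d * ((-2 : F)) + (2 : F))))) + (d * (a * ((2 : F)) + (b * ((1 : F)) + (d * ((-1 : F)) + (1 : F)))) + (a * (a * ((-1 : F)) + (-2 : F) * b)))) + (c * (b * ((-1 : F)) +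 (c * ((-2 : F)) + (d * ((-2 : F)) + (1 : F)))) + (d * (b * ((-1 : F)) + (1 : F))))) + (c * (a * (a * (a * ((-1 : F)) + (c * ((1 : F)) + d)) + (c * ((-1 : F)) + (-2 : F) * d)) + (d * (c * ((2 : F)) + (d * ((1 : F)) + (-1 : F))))))) + (b * (c * (d * (b * ((1 : F)) + (c * ((1 : F)) + (-1 : F))))))) + (a * (a * (b * (c * (a * (-(b)) + c))))))) / ((c - a) * (a - 1) * b * F2 * (d - a)) := by
      field_simp
      all_goals try simp only [hF2, hK]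
      all_goals ring
    rw [← sub_eq_zero, e, key, mul_zero, zero_div]
  rw [main]
  (first | exact one_ne_zero | assumption | (refine div_ne_zero ?_ ?_ <;> (repeat' apply mul_ne_zero) <;> first | assumption | exact one_ne_zero | exact neg_ne_zero.2 one_ne_zero | (apply pow_ne_zero; assumption)) | ((repeat' apply mul_ne_zero) <;> first | assumption | exact one_ne_zero | exact neg_ne_zero.2 one_ne_zero | (apply pow_ne_zero; assumption)))

theorem d5_mk_aN2 (a b c d F3 K : F)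
    (hF3 : F3 = c * (d * (a * (b * ((-1 : F)) + (1 : F)) + (b * ((-1 : F)) + (c * ((-1 : F)) + (d * ((-1 : F)) + (1 : F))))) + a * b) + a * b * d)
    (hK : K = d * (a * (c * ((-1 : F)) + (2 : F)) + (c * ((-2 : F)) + (d * ((-1 : F)) + (1 : F)))) + a * c)
    (n5 : (b - 1) ≠ 0)
    (n8 : (b - a) ≠ 0)
    (n21 : F3 ≠ 0)
    (n2 : c ≠ 0)
    (n12 : (d - b) ≠ 0)
    (n1 : b ≠ 0)
    (n6 : (c - 1) ≠ 0)
    (n9 : (c - a) ≠ 0)
    (n13 : (d - c) ≠ 0)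
    (n22 : K ≠ 0)
    (r0 : a * (a * (b * (c * ((1 : F)) + (-1 : F)) - (c)) + (b * c + d)) + (d * (b * ((-1 : F)) + (c * ((-1 : F)) + (1 : F)))) = 0)
    (r1 : d * (c * (a * (b * ((1 : F)) - (c)) + (b * (-(c)) + d)) + (d * (a * ((-1 : F)) + (b * ((-1 : F)) + d)))) + a * b * c * c = 0)
    (r2 : d * (c * (a * (c * (a * ((1 : F)) + (d * ((1 : F)) + (1 : F))) + (d * (b * ((-1 : F)) + (-1 : F)) + (a * ((-1 : F)) + (1 : F)))) + (b * (c * (d * ((1 : F)) + (1 : F)) + (-1 : F)) + (d * (d * ((-1 : F)) + (-2 : F)) - (c)))) + (d * (a * (a * ((1 : F)) + (b * ((1 : F)) + (2 : F))) + (d * (b * ((1 : F)) + (d * ((-1 : F)) + (-1 : F))) + (1 : F))) + (a * (a * (-(b)) + (1 : F)) + (b * ((-1 : F)) + (1 : F))))) + (a * (a * (c * (c * ((-1 : F)) + (-1 : F)) - (b)) + b * c)) = 0)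
    (r3 : d * (a * (a * (b * (b * ((1 : F)) + (d * ((-1 : F)) + (-1 : F))) + (c * ((-1 : F)) + d)) + (b * (d * ((-1 : F)) + (-1 : F)) + (d * ((1 : F)) + (-1 : F)))) + (b * (b * (c * ((1 : F)) + (1 : F)) + (-2 : F) * d) + (d * (d * ((1 : F)) + (1 : F)) + (c * ((1 : F)) + (-1 : F))))) + (a * (b * (a * (b * ((1 : F)) + (1 : F)) + (c * (b * ((-1 : F)) + (-1 : F)))) + a * c)) = 0)
    (r4 : d * (c * (b * (c * (b * ((-1 : F)) + (d * ((-1 : F)) + (1 : F))) + (a * (b * ((1 : F)) + d) + (d * ((1 : F)) + (1 : F)))) + (c * (a * (d * ((-1 : F)) + (1 : F)) + (-1 : F)) + (d * (d * ((1 : F)) + (-1 : F))))) + (d * (d * (a * ((-1 : F)) + (d * ((1 : F)) + (-1 : F))) + (b * (b * ((-1 : F)) + (2 : F)) + (-1 : F))) - (a * b * b))) + (b * (c * (c * (b * ((-1 : F)) + (1 : F))))) = 0)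
    (r5 : d * (d * (c * (b * (c * (c * ((1 : F)) + (d * ((-1 : F)) + (-1 : F))) + (a * (d * ((1 : F)) + (-1 : F)) + (b * ((1 : F)) + (-4 : F)))) + (c * (a * (c * ((1 : F)) - (d)) + (d * ((-1 : F)) + (2 : F))) + (d * (a * ((1 : F)) + (1 : F)) + (2 : F)))) + (d * (a * (b * ((-1 : F)) + (d * ((-1 : F)) + (1 : F))) + (b * (d * ((-1 : F)) + (-2 : F)) + (d * d + (2 : F)))) + (b * (b * (a * ((1 : F)) + (1 : F)) + (-2 : F)) + (1 : F)))) + (c * (c * (b * (b * (c * ((1 : F)) + (2 : F)) + (c * ((-1 : F)) + (-3 : F))) + (a * (c * ((-1 : F)) + (-1 : F)) + (c * ((1 : F)) + (1 : F)))) - (b)) + a * b * b)) + (b * (c * (c * (b * (c * ((1 : F)) + (1 : F)) + (c * ((-1 : F)) + (-1 : F)))))) = 0) :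
    1 - ((d * (c - 1) * (c - a) * (c - b)) / ((b - 1) * (b - a) * F3)) - ((a * b ^ 2 * d * (c - 1) * (c - a) * (c - b)) / ((b - 1) * (b - a) * F3 * c)) ≠ 0 := by
  have main : 1 - ((d * (c - 1) * (c - a) * (c - b)) / ((b - 1) * (b - a) * F3)) - ((a * b ^ 2 * d * (c - 1) * (c - a) * (c - b)) / ((b - 1) * (b - a) * F3 * c)) = ((b ^ 2 * (c - 1) * (c - a) * (d - c) * K) / (c * (b - 1) * (b - a) * (d - b) * F3)) := by
    have key : (b * (d * (c * (a * (b * (a * (b * ((-1 : F)) + (c * ((1 : F)) + (d * ((1 : F)) + (-1 : F)))) + (c * (c * ((-1 : F)) + (3 : F)) + (-1 : F))) + (d * (a * ((-2 : F)) + (c * ((1 : F)) + (d * ((1 : F)) + (-3 : F)))))) + (c * (b * (b * ((-1 : F)) + (c * ((-2 : F)) + (2 : F))) + (c * ((1 : F)) + (d * ((1 : F)) + (-1 : F)))) + (d * (d * ((1 : F)) + (-1 : F))))) + (a * (d * (a * (b * ((-1 : F)) + (2 : F)) + (d * ((-1 : F)) + (1 : F))) + a * b * b))) + (a * (b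 * (c * (c * (a * ((-1 : F)) + (b * ((1 : F)) + (c * ((1 : F)) + (-1 : F))))))))) + (c * (d * (d * (a * (a * ((1 : F)) - (d)) + (c * (c * ((-1 : F)) + (1 : F)))))))) = 0 := by
      linear_combination (b * (d * (b * ((-1 : F)) + (c * ((1 : F)) + (d * ((1 : F)) + (-1 : F)))) + (c * ((-1 : F)) + (-1 : F))) + (c * (d * ((1 : F)) + (-1 : F)) + (d * (-(d)) + (-2 : F)))) * r0 + (d * (d * (b * ((1 : F)) + (c * ((-1 : F)) + (d * ((2 : F)) + (2 : F)))) + (b * (c * ((-1 : F)) + (2 : F)) + (c * ((1 : F)) + (-1 : F)))) + (b * (b * ((1 : F)) + c) + (1 : F))) * r1 + ((1 : F)) * r2 + ((-1 : F)) * r3 + (d * (d * ((-1 : F)) + (-3 : F))) * r4 + (-(d)) * r5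
    have e : 1 - ((d * (c - 1) * (c - a) * (c - b)) / ((b - 1) * (b - a) * F3)) - ((a * b ^ 2 * d * (c - 1) * (c - a) * (c - b)) / ((b - 1) * (b - a) * F3 * c)) - ((b ^ 2 * (c - 1) * (c - a) * (d - c) * K) / (c * (b - 1) * (b - a) * (d - b) * F3)) = ((c - b) * (b * (d * (c * (a * (b * (a * (b * ((-1 : F)) + (c * ((1 : F)) + (d * ((1 : F)) + (-1 : F)))) + (c * (c * ((-1 : F)) + (3 : F)) + (-1 : F))) + (d * (a * ((-2 : F)) + (c * ((1 : F)) + (d * ((1 : F)) + (-3 : F)))))) + (c * (b * (b * ((-1 : F)) + (c * ((-2 : F)) + (2 : F))) + (c * ((1 : F)) + (d * ((1 : F)) + (-1 : F)))) + (d * (d * ((1 : F)) + (-1 : F))))) + (a * (d * (a * (b * ((-1 : F)) + (2 : F)) + (d * ((-1 : F)) + (1 : F))) + a * b * b))) + (a * (b * (c * (c * (a * ((-1 : F)) + (b * ((1 : F)) + (c * ((1 : F)) + (-1 : F))))))))) + (c * (d * (d * (a * (a * ((1 : F)) - (d)) + (c * (c * ((-1 : F)) + (1 : F))))))))) / ((d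 - b) * F3 * (b - 1) * (b - a) * c) := by
      field_simp
      all_goals try simp only [hF3, hK]
      all_goals ring
    rw [← sub_eq_zero, e, key, mul_zero, zero_div]
  rw [main]
  (first | exact one_ne_zero | assumption | (refine div_ne_zero ?_ ?_ <;> (repeat' apply mul_ne_zero) <;> first | assumption | exact one_ne_zero | exact neg_ne_zero.2 one_ne_zero | (apply pow_ne_zero; assumption)) | ((repeat' apply mul_ne_zero) <;> first | assumption | exact one_ne_zero | exact neg_ne_zero.2 one_ne_zero | (apply pow_ne_zero; assumption)))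

end Pool.Agent.Helper54.IP
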