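import Pool.Agent.Helper54.IP.Sq

/-!
TH-P phase 2: construction of the closed corners of the family D5 (generated).
-/

namespace Pool.Agent.Helper54.IP

variable {F : Type*} [Field F]

set_option maxRecDepth 100000

theorem d5_mk_MB (a b c d F2 F3 K : F)
    (hF2 : F2 = a * (d * (b * (c * ((-1 : F)) + (1 : F)) + (a * ((1 : F)) + (c * ((-1 : F)) + (d * ((-1 : F)) + (1 : F))))) + b * c) - (b * c * d))
    (hF3 : F3 = c * (d * (a * (b * ((-1 : F)) + (1 : F)) + (b * ((-1 : F)) + (c * ((-1 : F)) + (d * ((-1 : F)) + (1 : F))))) + a * b) + a * b * d)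
    (hK : K = d * (a * (c * ((-1 : F)) + (2 : F)) + (c * ((-2 : F)) + (d * ((-1 : F)) + (1 : F)))) + a * c)
    (n15 : (c + d) ≠ 0)
    (n0 : a ≠ 0)
    (n20 : F2 ≠ 0)
    (n7 : (d - 1) ≠ 0)
    (n2 : c ≠ 0)
    (n1 : b ≠ 0)
    (n5 : (b - 1) ≠ 0)
    (n8 : (b - a) ≠ 0)
    (n21 : F3 ≠ 0)
    (n6 : (c - 1) ≠ 0)
    (n9 : (c - a) ≠ 0)
    (r0 : a * (a * (b * (c * ((1 : F)) + (-1 : F)) - (c)) + (b * c + d)) + (d * (b * ((-1 : F)) + (c * ((-1 : F)) + (1 : F)))) = 0)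
    (r1 : d * (c * (a * (b * ((1 : F)) - (c)) + (b * (-(c)) + d)) + (d * (a * ((-1 : F)) + (b * ((-1 : F)) + d)))) + a * b * c * c = 0)
    (r2 : d * (c * (a * (c * (a * ((1 : F)) + (d * ((1 : F)) + (1 : F))) + (d * (b * ((-1 : F)) + (-1 : F)) + (a * ((-1 : F)) + (1 : F)))) + (b * (c * (d * ((1 : F)) + (1 : F)) + (-1 : F)) + (d * (d * ((-1 : F)) + (-2 : F)) - (c)))) + (d * (a * (a * ((1 : F)) + (b * ((1 : F)) + (2 : F))) + (d * (b * ((1 : F)) + (d * ((-1 : F)) + (-1 : F))) + (1 : F))) + (a * (a * (-(b)) + (1 : F)) + (b * ((-1 : F)) + (1 : F))))) + (a * (a * (c * (c * ((-1 : F)) + (-1 : F)) - (b)) + b * c)) = 0)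
    (r3 : d * (a * (a * (b * (b * ((1 : F)) + (d * ((-1 : F)) + (-1 : F))) + (c * ((-1 : F)) + d)) + (b * (d * ((-1 : F)) + (-1 : F)) + (d * ((1 : F)) + (-1 : F)))) + (b * (b * (c * ((1 : F)) + (1 : F)) + (-2 : F) * d) + (d * (d * ((1 : F)) + (1 : F)) + (c * ((1 : F)) + (-1 : F))))) + (a * (b * (a * (b * ((1 : F)) + (1 : F)) + (c * (b * ((-1 : F)) + (-1 : F)))) + a * c)) = 0)
    (r4 : d * (c * (b * (c * (b * ((-1 : F)) + (d * ((-1 : F)) + (1 : F))) + (a * (b * ((1 : F)) + d) + (d * ((1 : F)) + (1 : F)))) + (c * (a * (d * ((-1 : F)) + (1 : F)) + (-1 : F)) + (d * (d * ((1 : F)) + (-1 : F))))) + (d * (d * (a * ((-1 : F)) + (d * ((1 : F)) + (-1 : F))) + (b * (b * ((-1 : F)) + (2 : F)) + (-1 : F))) - (a * b * b))) + (b * (c * (c * (b * ((-1 : F)) + (1 : F))))) = 0)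
    (r5 : d * (d * (c * (b * (c * (c * ((1 : F)) + (d * ((-1 : F)) + (-1 : F))) + (a * (d * ((1 : F)) + (-1 : F)) + (b * ((1 : F)) + (-4 : F)))) + (c * (a * (c * ((1 : F)) - (d)) + (d * ((-1 : F)) + (2 : F))) + (d * (a * ((1 : F)) + (1 : F)) + (2 : F)))) + (d * (a * (b * ((-1 : F)) + (d * ((-1 : F)) + (1 : F))) + (b * (d * ((-1 : F)) + (-2 : F)) + (d * d + (2 : F)))) + (b * (b * (a * ((1 : F)) + (1 : F)) + (-2 : F)) + (1 : F)))) + (c * (c * (b * (b * (c * ((1 : F)) + (2 : F)) + (c * ((-1 : F)) + (-3 : F))) + (a * (c * ((-1 : F)) + (-1 : F)) + (c * ((1 : F)) + (1 : F)))) - (b)) + a * b * b)) + (b * (c * (c * (b * (c * ((1 : F)) + (1 : F)) + (c * ((-1 : F)) + (-1 : F)))))) = 0) :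
    (((b)) * (((d * (a * (b * (a * (c * (b * (a * (b * (a * ((1 : F)) + (b * ((-1 : F)) + (3 : F))) + (a * ((-2 : F)) + (c * ((1 : F)) + (d * ((1 : F)) + (-5 : F))))) + (b * (b * ((-1 : F)) + (2 : F)) + (c * (d * ((-1 : F)) + (2 : F)) + (d * ((3 : F)) + (-1 : F))))) + (d * (a * (c * ((-1 : F)) + (d * ((-1 : F)) + (5 : F))) + (c * ((-1 : F)) + (d * ((-2 : F)) + (-2 : F)))) + (c * (a * ((2 : F)) + (-1 : F))))) + (d * (b * (b * (a * ((1 : F)) + (b * ((-1 : F)) + (2 : F))) + (a * ((-3 : F)) + (d * ((1 : F)) + (-1 : F)))) + (a * (a * ((-1 : F)) + (2 : F) * d) - (d))))) + (d * (b * (c * (b * ((-1 : F)) + (c * ((-1 : F)) + (d * ((-1 : F)) + (3 : F)))) + (d * (b * ((-1 : F)) + (4 : F)))) + (c * (c * ((1 : F)) + (-2 : F)) + (d * (d * ((-1 : F)) + (-3 : F))))))) + (d * (a * (a * (d * (a * ((1 : F)) + (c * ((-2 : F)) + (d * ((-1 : F)) + (1 : F)))) + (c * (a * ((1 : F)) - (c)))) + (c *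 (c * ((1 : F)) + d))) + (d * (c * ((1 : F)) + d))))) + (b * (d * (d * (b * (b * ((-1 : F)) + (c * ((-1 : F)) + (2 : F))) + (c * ((1 : F)) + (-1 : F))))))) - (a * a * a * b * b * c * c))) / ((c + d) * a ^ 2 * F2 * (d - 1)))) = (((b)) ^ 3 * (((d * (d * (a * (b * ((1 : F)) + (-1 : F)) + (b * ((1 : F)) + (c * ((1 : F)) + (-1 : F)))) + (c * (a * c - (b)))) - (a * b * c * c)) * K) / ((c + d) * F2 * c * (d - 1) * b)) + ((a * b ^ 2 * d * (c - 1) * (c - a) * (c - b)) / ((b - 1) * (b - a) * F3 * c)) * (((c * (a * (b * ((1 : F)) + c) + (c * ((1 : F)) + d)) + (b * (d * (a * ((1 : F)) + (1 : F))))) * (b - 1) ^ 2 * (b - a) * (d - b) * F3) / (b * (c - 1) * (d - 1) * (c - a) * (c + d) * F2))) := by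
  have key : (d * (a * (b * (a * (d * (a * (b * (b * (a * (b * ((-1 : F)) + (c * ((2 : F)) + (d * ((1 : F)) + (1 : F)))) + (b * ((-1 : F)) + (c * ((1 : F)) + (d * ((1 : F)) + (1 : F))))) + (c * (a * ((-3 : F)) + (c * ((1 : F)) + (d * ((3 : F)) + (-2 : F)))) + (d * (a * ((-3 : F)) + (d * ((1 : F)) + (-4 : F)))))) + (c * (c * (a * ((-2 : F)) + (1 : F)) + (d * ((-3 : F)) + (1 : F))) + (d * (a * ((2 : F)) + (d * ((-1 : F)) + (3 : F)))))) + (c * (b * (b * (b * ((-1 : F)) + (2 : F)) + (c * (c * ((-1 : F)) + (1 : F)) + (2 : F) * d)) + (c * (c * ((-1 : F)) + (-2 : F)) + (d * (d * ((1 : F)) + (-4 : F))))) + (d * (b * (d * ((1 : F)) + (-1 : F)) + (d * ((-1 : F)) + (1 : F)))))) + (c * (c * (b * (b * (a * (a * ((1 : F)) + (b * ((-1 : F)) + (2 : F))) + (b * ((-1 : F)) + (2 : F))) + (a * ((-2 : F)) + (c * ((2 : F)) + (-1 : F)))) + (c * (a * (a * ((-2 : F)) + (1 : F)) + (-1 : F)))) + (a *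 (a * (b * (b * (b * ((-1 : F)) + (1 : F))))))))) + (c * (d * (b * (c * (b * ((-1 : F)) + (c * ((-1 : F)) + (d * ((-1 : F)) + (3 : F)))) + (d * (b * ((-1 : F)) + (4 : F)))) + (c * (c * ((1 : F)) + (-2 : F)) + (d * (d * ((-1 : F)) + (-3 : F)))))))) + (c * (d * (a * (a * (d * (a * ((1 : F)) + (c * ((-1 : F)) + (d * ((-1 : F)) + (1 : F)))) + (a * (c * (c * ((1 : F)) + (1 : F))))) + (c * (c * ((1 : F)) + d))) + (d * (c * ((1 : F)) + d)))))) + (b * (c * (d * (d * (b * (b * ((-1 : F)) + (c * ((-1 : F)) + (2 : F))) + (c * ((1 : F)) + (-1 : F)))))))) + (a * (a * (a * (b * (b * (c * (c * (c * (a * ((1 : F)) + (-1 : F))))))))))) = 0 := by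
    linear_combination (d * (a * (b * (b * (a * (b * ((-1 : F)) + (c * ((1 : F)) + (d * ((2 : F)) + (1 : F)))) + (b * (c * ((-1 : F)) + (-1 : F)) + (d * ((-1 : F)) + (-1 : F)))) + (d * (a * ((-2 : F)) + (c * ((1 : F)) + (d * ((3 : F)) + (-2 : F)))) + (a * (c * ((1 : F)) + (3 : F)) + (c * ((-3 : F)) + (-4 : F))))) + (c * (a * (c * ((-2 : F)) + (d * ((-2 : F)) + (-1 : F))) + (d * (d * ((1 : F)) + (3 : F)) + (c * ((3 : F)) + (-1 : F)))) + (d * (a * ((-1 : F)) + (d * ((-2 : F)) + (1 : F))) + (-4 : F)))) + (d * (c * (c * (b * ((-1 : F)) + (d * ((-1 : F)) + (-2 : F))) + (d * (d * ((-1 : F)) + (-3 : F)) + (-2 : F))) + (b * (b * ((1 : F)) + (d * ((1 : F)) + (4 : F))) + (d * (d * ((1 : F)) + (-3 : F)) + (8 : F)))) + (b * (c * (b * ((2 : F)) + (c * ((2 : F)) + (7 : F))) + (b * ((2 : F)) + (12 : F))) + (c * ((12 : F)) + (19 : F))))) + (a * (c * (a * (b * (c * ((1 : F)) + (1 : F)) + (c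 * ((1 : F)) + (2 : F))) + (b * (c * ((-2 : F)) + (-3 : F)) + (c * ((-3 : F)) + (-7 : F)))) + (a * (b * ((1 : F)) + (2 : F)) + (b * ((-3 : F)) + (-7 : F)))) + (c * (b * (c * ((2 : F)) + (5 : F)) + (c * ((5 : F)) + (14 : F))) + (b * ((5 : F)) + (14 : F))))) * r0 + (d * (d * (d * (c * (d * ((1 : F)) + (3 : F)) + (b * ((-3 : F)) + (d * ((-1 : F)) + (1 : F)))) + (b * (b * ((-2 : F)) + (3 : F)) + (c * ((-1 : F)) + (-16 : F)))) + (b * (b * ((-2 : F)) + (c * ((-2 : F)) + (-7 : F))) + (c * ((-7 : F)) + (-17 : F)))) + (b * (c * ((-2 : F)) + (-5 : F)) + (c * ((-5 : F)) + (-9 : F)))) * r1 + (c * (d * (a * (a * ((1 : F)) + (d * ((-1 : F)) + (-1 : F))) + (d * (d * ((1 : F)) + (2 : F)) + (-2 : F))) + (a * (a * ((-1 : F)) + (3 : F)) + (-5 : F))) + (a * (a * ((-1 : F)) + (d * ((2 : F)) + (4 : F))) + (d * (d * ((-2 : F)) + (-10 : F)) + (-9 : F)))) * r2 + (d * (b * (a * (a * (b * ((-1 : F)) +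 (2 : F)) + (b * ((-1 : F)) - (d))) + (d * ((-1 : F)) + (2 : F))) + (a * ((-1 : F)) + (d * ((3 : F)) + (5 : F)))) + (a * (a * ((1 : F)) + (-3 : F)) + (5 : F))) * r3 + (d * (d * (b * ((2 : F)) + d) + (1 : F))) * r4 + ((-2 : F) * d) * r5
  have e : (((b)) * (((d * (a * (b * (a * (c * (b * (a * (b * (a * ((1 : F)) + (b * ((-1 : F)) + (3 : F))) + (a * ((-2 : F)) + (c * ((1 : F)) + (d * ((1 : F)) + (-5 : F))))) + (b * (b * ((-1 : F)) + (2 : F)) + (c * (d * ((-1 : F)) + (2 : F)) + (d * ((3 : F)) + (-1 : F))))) + (d * (a * (c * ((-1 : F)) + (d * ((-1 : F)) + (5 : F))) + (c * ((-1 : F)) + (d * ((-2 : F)) + (-2 : F)))) + (c * (a * ((2 : F)) + (-1 : F))))) + (d * (b * (b * (a * ((1 : F)) + (b * ((-1 : F)) + (2 : F))) + (a * ((-3 : F)) + (d * ((1 : F)) + (-1 : F)))) + (a * (a * ((-1 : F)) + (2 : F) * d) - (d))))) + (d * (b * (c * (b * ((-1 : F)) + (c * ((-1 : F)) + (d * ((-1 : F)) + (3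 : F)))) + (d * (b * ((-1 : F)) + (4 : F)))) + (c * (c * ((1 : F)) + (-2 : F)) + (d * (d * ((-1 : F)) + (-3 : F))))))) + (d * (a * (a * (d * (a * ((1 : F)) + (c * ((-2 : F)) + (d * ((-1 : F)) + (1 : F)))) + (c * (a * ((1 : F)) - (c)))) + (c * (c * ((1 : F)) + d))) + (d * (c * ((1 : F)) + d))))) + (b * (d * (d * (b * (b * ((-1 : F)) + (c * ((-1 : F)) + (2 : F))) + (c * ((1 : F)) + (-1 : F))))))) - (a * a * a * b * b * c * c))) / ((c + d) * a ^ 2 * F2 * (d - 1)))) - (((b)) ^ 3 * (((d * (d * (a * (b * ((1 : F)) + (-1 : F)) + (b * ((1 : F)) + (c * ((1 : F)) + (-1 : F)))) + (c * (a * c - (b)))) - (a * b * c * c)) * K) / ((c + d) * F2 * c * (d - 1) * b)) + ((a * b ^ 2 * d * (c - 1) * (c - a) * (c - b)) / ((b - 1) * (b - a) * F3 * c)) * (((c * (a * (b * ((1 : F)) + c) + (c * ((1 : F)) + d)) + (b * (d * (a * ((1 : F)) + (1 : F))))) * (b - 1) ^ 2 * (b - a) * (d - b) * F3) / (b * (c -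 1) * (d - 1) * (c - a) * (c + d) * F2))) = (b * (d * (a * (b * (a * (d * (a * (b * (b * (a * (b * ((-1 : F)) + (c * ((2 : F)) + (d * ((1 : F)) + (1 : F)))) + (b * ((-1 : F)) + (c * ((1 : F)) + (d * ((1 : F)) + (1 : F))))) + (c * (a * ((-3 : F)) + (c * ((1 : F)) + (d * ((3 : F)) + (-2 : F)))) + (d * (a * ((-3 : F)) + (d * ((1 : F)) + (-4 : F)))))) + (c * (c * (a * ((-2 : F)) + (1 : F)) + (d * ((-3 : F)) + (1 : F))) + (d * (a * ((2 : F)) + (d * ((-1 : F)) + (3 : F)))))) + (c * (b * (b * (b * ((-1 : F)) + (2 : F)) + (c * (c * ((-1 : F)) + (1 : F)) + (2 : F) * d)) + (c * (c * ((-1 : F)) + (-2 : F)) + (d * (d * ((1 : F)) + (-4 : F))))) + (d * (b * (d * ((1 : F)) + (-1 : F)) + (d * ((-1 : F)) + (1 : F)))))) + (c * (c * (b * (b * (a * (a * ((1 : F)) + (b * ((-1 : F)) + (2 : F))) + (b * ((-1 : F)) + (2 : F))) + (a * ((-2 : F)) + (c * ((2 : F)) + (-1 : F)))) + (c * (a * (a * ((-2 : F))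 + (1 : F)) + (-1 : F)))) + (a * (a * (b * (b * (b * ((-1 : F)) + (1 : F))))))))) + (c * (d * (b * (c * (b * ((-1 : F)) + (c * ((-1 : F)) + (d * ((-1 : F)) + (3 : F)))) + (d * (b * ((-1 : F)) + (4 : F)))) + (c * (c * ((1 : F)) + (-2 : F)) + (d * (d * ((-1 : F)) + (-3 : F)))))))) + (c * (d * (a * (a * (d * (a * ((1 : F)) + (c * ((-1 : F)) + (d * ((-1 : F)) + (1 : F)))) + (a * (c * (c * ((1 : F)) + (1 : F))))) + (c * (c * ((1 : F)) + d))) + (d * (c * ((1 : F)) + d)))))) + (b * (c * (d * (d * (b * (b * ((-1 : F)) + (c * ((-1 : F)) + (2 : F))) + (c * ((1 : F)) + (-1 : F)))))))) + (a * (a * (a * (b * (b * (c * (c * (c * (a * ((1 : F)) + (-1 : F)))))))))))) / ((c + d) * (d - 1) * c * a ^ 2 * F2) := by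
    field_simp
    all_goals try simp only [hF2, hF3, hK]
    all_goals ring
  rw [← sub_eq_zero, e, key, mul_zero, zero_div]

theorem d5_mk_U2_10 (a b c d : F)
    (n7 : (d - 1) ≠ 0)
    (n15 : (c + d) ≠ 0)
    (n0 : a ≠ 0) :
    ((a)) ^ 1 * (((a * (d * (a * (a * ((-1 : F)) + (c * ((2 : F)) + d)) + (c * ((-1 : F)) + d)) - (a * a * c)) - (d * d))) / ((d - 1) * (c + d) * a ^ 3)) = ((1 - ((d * (a - 1) * (a * c + a * d + d)) / (a ^ 2 * (d - 1) * (c + d)))) * (((a)) * ((1))) + ((d * (a - 1) * (a * c + a * d + d)) / (a ^ 2 * (d - 1) * (c + d))) * (((a)) ^ 0 * ((1)))) := by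
  field_simp
  all_goals ring

theorem d5_mk_U1_11 (a b c d F2 : F)
    (hF2 : F2 = a * (d * (b * (c * ((-1 : F)) + (1 : F)) + (a * ((1 : F)) + (c * ((-1 : F)) + (d * ((-1 : F)) + (1 : F))))) + b * c) - (b * c * d))
    (n15 : (c + d) ≠ 0)
    (n7 : (d - 1) ≠ 0)
    (n4 : (a - 1) ≠ 0)
    (n20 : F2 ≠ 0)
    (n0 : a ≠ 0)
    (r0 : a * (a * (b * (c * ((1 : F)) + (-1 : F)) - (c)) + (b * c + d)) + (d * (b * ((-1 : F)) + (c * ((-1 : F)) + (1 : F)))) = 0)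
    (r3 : d * (a * (a * (b * (b * ((1 : F)) + (d * ((-1 : F)) + (-1 : F))) + (c * ((-1 : F)) + d)) + (b * (d * ((-1 : F)) + (-1 : F)) + (d * ((1 : F)) + (-1 : F)))) + (b * (b * (c * ((1 : F)) + (1 : F)) + (-2 : F) * d) + (d * (d * ((1 : F)) + (1 : F)) + (c * ((1 : F)) + (-1 : F))))) + (a * (b * (a * (b * ((1 : F)) + (1 : F)) + (c * (b * ((-1 : F)) + (-1 : F)))) + a * c)) = 0) :
    (((d * (a * (b * ((1 : F)) + (-1 : F)) + (b * ((-1 : F)) + (c * ((1 : F)) + d))) + (c * (a * (a * (b * ((1 : F)) + (-1 : F))) - (b))))) / ((c + d) * (d - 1))) = ((1 - (1 - (((-1) * d * (b - 1) * (b - a)) / ((a - 1) * F2)))) * (((a)) * (((a * (a * (c * (a * ((1 : F)) + (-1 : F)) + d) + (c * ((-1 : F)) + (-2 : F) * d)) + (d * (c * ((1 : F)) + d)))) / ((c + d) * (d - 1)))) + (1 - (((-1) * d * (b - 1) * (b - a)) / ((a - 1) * F2))) * (((a)) ^ 1 * (((a * (d * (a * (a * ((-1 : F)) + (c * ((2 : F)) + d))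 + (c * ((-1 : F)) + d)) - (a * a * c)) - (d * d))) / ((d - 1) * (c + d) * a ^ 3)))) := by
  have key : (a * (d * (c * (a * (b * (a * (b * (a * (c * ((-1 : F)) + (2 : F)) + (c * ((-2 : F)) + (d * ((-1 : F)) + (3 : F)))) + (a * (d * ((-1 : F)) + (-1 : F)) + (-2 : F) * d)) + (c * (b * ((-1 : F)) + (d * ((1 : F)) + (-1 : F))) + (d * (b * ((-1 : F)) + (-2 : F))))) + (d * (a * (a * ((1 : F)) + (-1 : F)) + (c * ((1 : F)) + d)) + a * a * c)) + (d * (b * (b * ((1 : F)) + (c * ((1 : F)) + (d * ((1 : F)) + (-2 : F)))) + d))) + (d * (b * (d * (a * (a * ((-1 : F)) + (-1 : F)) + (b * ((1 : F)) + (-3 : F))) + (2 : F) * a * a * b) + (a * a * a + d * d)))) + (a * (a * (b * (c * (c * (a * (b * ((1 : F)) + (-1 : F)) + b))))))) + (b * (d * (d * (d * (b * ((1 : F)) + (c * ((1 : F)) + (-1 : F)))))))) = 0 := by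
    linear_combination (a * (d * (a * (b * (c * ((-1 : F)) + (1 : F)) + (c * ((-1 : F)) + (d * ((-1 : F)) + (-1 : F)))) + (b * (c * ((-1 : F)) + (d * ((-1 : F)) + (1 : F))) + (d * ((-1 : F)) + (1 : F)))) + (a * (b * (c * ((1 : F)) + (1 : F)) + (1 : F)))) - (b * d * d)) * r0 + (a * (a * ((1 : F)) + d)) * r3
  have e : (((d * (a * (b * ((1 : F)) + (-1 : F)) + (b * ((-1 : F)) + (c * ((1 : F)) + d))) + (c * (a * (a * (b * ((1 : F)) + (-1 : F))) - (b))))) / ((c + d) * (d - 1))) - ((1 - (1 - (((-1) * d * (b - 1) * (b - a)) / ((a - 1) * F2)))) * (((a)) * (((a * (a * (c * (a * ((1 : F)) + (-1 : F)) + d) + (c * ((-1 : F)) + (-2 : F) * d)) + (d * (c * ((1 : F)) + d)))) / ((c + d) * (d - 1)))) + (1 - (((-1) * d * (b - 1) * (b - a)) / ((a - 1) * F2))) * (((a)) ^ 1 * (((a * (d * (a * (a * ((-1 : F)) + (c * ((2 : F)) + d)) + (c * ((-1 : F)) + d)) - (a * a * c)) - (d * d))) / ((d - 1) * (c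 + d) * a ^ 3)))) = ((a - 1) * (a * (d * (c * (a * (b * (a * (b * (a * (c * ((-1 : F)) + (2 : F)) + (c * ((-2 : F)) + (d * ((-1 : F)) + (3 : F)))) + (a * (d * ((-1 : F)) + (-1 : F)) + (-2 : F) * d)) + (c * (b * ((-1 : F)) + (d * ((1 : F)) + (-1 : F))) + (d * (b * ((-1 : F)) + (-2 : F))))) + (d * (a * (a * ((1 : F)) + (-1 : F)) + (c * ((1 : F)) + d)) + a * a * c)) + (d * (b * (b * ((1 : F)) + (c * ((1 : F)) + (d * ((1 : F)) + (-2 : F)))) + d))) + (d * (b * (d * (a * (a * ((-1 : F)) + (-1 : F)) + (b * ((1 : F)) + (-3 : F))) + (2 : F) * a * a * b) + (a * a * a + d * d)))) + (a * (a * (b * (c * (c * (a * (b * ((1 : F)) + (-1 : F)) + b))))))) + (b * (d * (d * (d * (b * ((1 : F)) + (c * ((1 : F)) + (-1 : F))))))))) / ((c + d) * (d - 1) * a ^ 2 * F2) := by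
    field_simp
    all_goals try simp only [hF2]
    all_goals ring
  rw [← sub_eq_zero, e, key, mul_zero, zero_div]

theorem d5_mk_U2_11 (a b c d F2 : F)
    (hF2 : F2 = a * (d * (b * (c * ((-1 : F)) + (1 : F)) + (a * ((1 : F)) + (c * ((-1 : F)) + (d * ((-1 : F)) + (1 : F))))) + b * c) - (b * c * d))
    (n7 : (d - 1) ≠ 0)
    (n15 : (c + d) ≠ 0)
    (n0 : a ≠ 0)
    (n1 : b ≠ 0)
    (n4 : (a - 1) ≠ 0)
    (n20 : F2 ≠ 0)
    (r0 : a * (a * (b * (c * ((1 : F)) + (-1 : F)) - (c)) + (b * c + d)) + (d * (b * ((-1 : F)) + (c * ((-1 : F)) + (1 : F)))) = 0)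
    (r1 : d * (c * (a * (b * ((1 : F)) - (c)) + (b * (-(c)) + d)) + (d * (a * ((-1 : F)) + (b * ((-1 : F)) + d)))) + a * b * c * c = 0)
    (r2 : d * (c * (a * (c * (a * ((1 : F)) + (d * ((1 : F)) + (1 : F))) + (d * (b * ((-1 : F)) + (-1 : F)) + (a * ((-1 : F)) + (1 : F)))) + (b * (c * (d * ((1 : F)) + (1 : F)) + (-1 : F)) + (d * (d * ((-1 : F)) + (-2 : F)) - (c)))) + (d * (a * (a * ((1 : F)) + (b * ((1 : F)) + (2 : F))) + (d * (b * ((1 : F)) + (d * ((-1 : F)) + (-1 : F))) + (1 : F))) + (a * (a * (-(b)) + (1 : F)) + (b * ((-1 : F)) + (1 : F))))) + (a * (a * (c * (c * ((-1 : F)) + (-1 : F)) - (b)) + b * c)) = 0)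
    (r3 : d * (a * (a * (b * (b * ((1 : F)) + (d * ((-1 : F)) + (-1 : F))) + (c * ((-1 : F)) + d)) + (b * (d * ((-1 : F)) + (-1 : F)) + (d * ((1 : F)) + (-1 : F)))) + (b * (b * (c * ((1 : F)) + (1 : F)) + (-2 : F) * d) + (d * (d * ((1 : F)) + (1 : F)) + (c * ((1 : F)) + (-1 : F))))) + (a * (b * (a * (b * ((1 : F)) + (1 : F)) + (c * (b * ((-1 : F)) + (-1 : F)))) + a * c)) = 0)
    (r4 : d * (c * (b * (c * (b * ((-1 : F)) + (d * ((-1 : F)) + (1 : F))) + (a * (b * ((1 : F)) + d) + (d * ((1 : F)) + (1 : F)))) + (c * (a * (d * ((-1 : F)) + (1 : F)) + (-1 : F)) + (d * (d * ((1 : F)) + (-1 : F))))) + (d * (d * (a * ((-1 : F)) + (d * ((1 : F)) + (-1 : F))) + (b * (b * ((-1 : F)) + (2 : F)) + (-1 : F))) - (a * b * b))) + (b * (c * (c * (b * ((-1 : F)) + (1 : F))))) = 0) :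
    ((a)) ^ 2 * (((d * (a * (a * (b * ((-1 : F)) + (c * ((1 : F)) + d)) + (c * (b * ((1 : F)) + (-1 : F)))) + (d * (b * ((1 : F)) + (-1 : F)))) - (a * a * b * c))) / ((d - 1) * (c + d) * a ^ 2 * b)) = ((1 - (((-1) * a ^ 2 * c * d * (b - 1) * (b - a)) / ((a - 1) * F2 * b))) * (((a)) * (((a * (a * (c * (a * ((1 : F)) + (-1 : F)) + d) + (c * ((-1 : F)) + (-2 : F) * d)) + (d * (c * ((1 : F)) + d)))) / ((c + d) * (d - 1)))) + (((-1) * a ^ 2 * c * d * (b - 1) * (b - a)) / ((a - 1) * F2 * b)) * (((a)) ^ 1 * (((a * (d * (a * (a * ((-1 : F)) + (c * ((2 : F)) + d)) + (c * ((-1 : F)) + d)) - (a * a * c)) - (d * d))) / ((d - 1) * (c + d) * a ^ 3)))) := by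
  have key : (d * (a * (c * (a * (a * (b * (a * (c * ((1 : F)) + (-1 : F)) + (b * ((-1 : F)) + (c * ((3 : F)) + (d * ((2 : F)) + (-1 : F))))) + (c * (a * ((-1 : F)) + (-1 : F)) - (d))) + (b * (b * ((-1 : F)) + (c * ((1 : F)) + (2 : F) * d)) + d)) + (d * (b * (b * ((1 : F)) + (2 : F)) + (c * ((-2 : F)) + (d * ((-3 : F)) + (1 : F)))) + b * c)) + (d * (a * (b * (a * ((-1 : F)) + (b * ((-1 : F)) + (d * ((1 : F)) + (-1 : F)))) + d) + (d * (d * ((-1 : F)) + (2 : F)))))) + (d * (b * (c * (b * (c * ((-1 : F)) + (-1 : F)) + (d * ((1 : F)) + (1 : F))) + (d * (b * ((-1 : F)) + d))) + (d * (c * ((-2 : F)) + (d * ((-1 : F)) + (1 : F))))))) - (a * a * a * b * b * c * c)) = 0 := by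
    linear_combination (a * (c * (d * (a * ((1 : F)) + (2 : F)) + (b * ((-1 : F)) + (-1 : F))) + (b * (d * ((-1 : F)) + (-1 : F)) + (d * ((2 : F) * d) + (-2 : F)))) + (c * (b * ((1 : F)) + (d * ((-1 : F)) + (2 : F))) + (b * ((1 : F)) + (d * ((2 : F) * d) + (3 : F))))) * r0 + (d * (d * ((-1 : F)) + (-1 : F)) + (b * ((-1 : F)) + (-2 : F))) * r1 + (a * ((1 : F)) + (-2 : F)) * r2 + (a * ((-1 : F)) + (d * ((-1 : F)) + (1 : F))) * r3 + (d) * r4
  have e : ((a)) ^ 2 * (((d * (a * (a * (b * ((-1 : F)) + (c * ((1 : F)) + d)) + (c * (b * ((1 : F)) + (-1 : F)))) + (d * (b * ((1 : F)) + (-1 : F)))) - (a * a * b * c))) / ((d - 1) * (c + d) * a ^ 2 * b)) - ((1 - (((-1) * a ^ 2 * c * d * (b - 1) * (b - a)) / ((a - 1) * F2 * b))) * (((a)) * (((a * (a * (c * (a * ((1 : F)) + (-1 : F)) + d) + (c * ((-1 : F)) + (-2 : F) * d)) + (d * (c * ((1 : F)) + d)))) / ((c + d) * (d - 1)))) + (((-1) * a ^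 2 * c * d * (b - 1) * (b - a)) / ((a - 1) * F2 * b)) * (((a)) ^ 1 * (((a * (d * (a * (a * ((-1 : F)) + (c * ((2 : F)) + d)) + (c * ((-1 : F)) + d)) - (a * a * c)) - (d * d))) / ((d - 1) * (c + d) * a ^ 3)))) = (a * (a - 1) * (d * (a * (c * (a * (a * (b * (a * (c * ((1 : F)) + (-1 : F)) + (b * ((-1 : F)) + (c * ((3 : F)) + (d * ((2 : F)) + (-1 : F))))) + (c * (a * ((-1 : F)) + (-1 : F)) - (d))) + (b * (b * ((-1 : F)) + (c * ((1 : F)) + (2 : F) * d)) + d)) + (d * (b * (b * ((1 : F)) + (2 : F)) + (c * ((-2 : F)) + (d * ((-3 : F)) + (1 : F)))) + b * c)) + (d * (a * (b * (a * ((-1 : F)) + (b * ((-1 : F)) + (d * ((1 : F)) + (-1 : F)))) + d) + (d * (d * ((-1 : F)) + (2 : F)))))) + (d * (b * (c * (b * (c * ((-1 : F)) + (-1 : F)) + (d * ((1 : F)) + (1 : F))) + (d * (b * ((-1 : F)) + d))) + (d * (c * ((-2 : F)) + (d * ((-1 : F)) + (1 : F))))))) - (a * a * a * b * b * c * c))) / ((c +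 d) * (d - 1) * b * F2) := by
    field_simp
    all_goals try simp only [hF2]
    all_goals ring
  rw [← sub_eq_zero, e, key, mul_zero, zero_div]

theorem d5_mk_U2_13 (a b c d : F)
    (n15 : (c + d) ≠ 0)
    (n0 : a ≠ 0)
    (n3 : d ≠ 0)
    (n6 : (c - 1) ≠ 0)
    (n9 : (c - a) ≠ 0)
    (n11 : (c - b) ≠ 0)
    (n14 : (a + 1) ≠ 0)
    (n7 : (d - 1) ≠ 0)
    (n2 : c ≠ 0)
    (r1 : d * (c * (a * (b * ((1 : F)) - (c)) + (b * (-(c)) + d)) + (d * (a * ((-1 : F)) + (b * ((-1 : F)) + d)))) + a * b * c * c = 0) :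
    ((a)) ^ 4 * (((a * c + d)) / ((c + d) * a ^ 2)) = ((1 - (((-1) * c * (d - a) * (d - b) * (d - c) * (a * c + c + d)) / (d ^ 2 * (c - 1) * (c - a) * (c - b) * (a + 1)))) * (((a)) * (((a * (c * (a * (c * ((1 : F)) + (-1 : F)) + d) - (d)) + (c * (-(c)) + d * d))) / ((c + d) * (d - 1)))) + (((-1) * c * (d - a) * (d - b) * (d - c) * (a * c + c + d)) / (d ^ 2 * (c - 1) * (c - a) * (c - b) * (a + 1))) * (((a)) ^ 3 * (((d * (a * (c * (c * ((1 : F)) + (-1 : F)) + a * d) + (d * (c * ((1 : F)) + (-1 : F)))) - (a * a * c * c))) / ((d - 1) * (c + d) * a ^ 2 * c)))) := by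
  have key : (d * (c * (a * (b * ((1 : F)) - (c)) + (b * (-(c)) + d)) + (d * (a * ((-1 : F)) + (b * ((-1 : F)) + d)))) + a * b * c * c) = 0 := by
    linear_combination ((1 : F)) * r1
  have e : ((a)) ^ 4 * (((a * c + d)) / ((c + d) * a ^ 2)) - ((1 - (((-1) * c * (d - a) * (d - b) * (d - c) * (a * c + c + d)) / (d ^ 2 * (c - 1) * (c - a) * (c - b) * (a + 1)))) * (((a)) * (((a * (c * (a * (c * ((1 : F)) + (-1 : F)) + d) - (d)) + (c * (-(c)) + d * d))) / ((c + d) * (d - 1)))) + (((-1) * c * (d - a) * (d - b) * (d - c) * (a * c + c + d)) / (d ^ 2 * (c - 1) * (c - a) * (c - b) * (a + 1))) * (((a)) ^ 3 * (((d * (a * (c * (c * ((1 : F)) + (-1 : F)) + a * d) + (d * (c * ((1 : F)) + (-1 : F)))) - (a * a * c * c))) / ((d - 1) * (c + d) * a ^ 2 * c)))) = (a * (a - 1) * (d - c) ^ 2 * (a * c + c + d) * (d * (c * (a * (b * ((1 : F)) - (c)) + (b * (-(c)) + d)) + (d * (a * ((-1 : F)) + (b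 * ((-1 : F)) + d)))) + a * b * c * c)) / (d ^ 2 * (c + d) * (c - a) * (d - 1) * (c - 1) * (c - b)) := by
    field_simp
    all_goals ring
  rw [← sub_eq_zero, e, key, mul_zero, zero_div]

theorem d5_mk_C1_1 (a b c d : F)
    (n15 : (c + d) ≠ 0)
    (n0 : a ≠ 0) :
    ((a)) * ((a * (a * c + d)) / ((c + d))) = ((a)) ^ 4 * (((a * c + d)) / ((c + d) * a ^ 2)) := by
  field_simp
  all_goals ring

theorem d5_mk_C1_2 (a b c d F2 K : F)
    (hF2 : F2 = a * (d * (b * (c * ((-1 : F)) + (1 : F)) + (a * ((1 : F)) + (c * ((-1 : F)) + (d * ((-1 : F)) + (1 : F))))) + b * c) - (b * c * d))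
    (hK : K = d * (a * (c * ((-1 : F)) + (2 : F)) + (c * ((-2 : F)) + (d * ((-1 : F)) + (1 : F)))) + a * c)
    (n15 : (c + d) ≠ 0)
    (n20 : F2 ≠ 0)
    (n1 : b ≠ 0) :
    ((b)) * ((b ^ 2 * (a * c + d) * K) / ((c + d) * F2)) = ((b)) ^ 4 * (((a * c + d) * K) / ((c + d) * F2 * b)) := by
  field_simp
  all_goals try simp only [hF2, hK]
  all_goals ring

theorem d5_mk_U1_30 (a b c d : F)
    (n15 : (c + d) ≠ 0)
    (n7 : (d - 1) ≠ 0) :
    (((a * (c * (a * (c * ((1 : F)) + (-1 : F)) + d) - (d)) + (c * (-(c)) + d * d))) / ((c + d) * (d - 1))) = ((1 - (1 - (((a - 1) * (a * c + c + d)) / ((d - 1) * (c + d))))) * (((c)) * ((1))) + (1 - (((a - 1) * (a * c + c + d)) / ((d - 1) * (c + d)))) * (((c)) ^ 0 * ((1)))) := by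
  field_simp
  all_goals ring

theorem d5_mk_U1_31 (a b c d F2 K : F)
    (hF2 : F2 = a * (d * (b * (c * ((-1 : F)) + (1 : F)) + (a * ((1 : F)) + (c * ((-1 : F)) + (d * ((-1 : F)) + (1 : F))))) + b * c) - (b * c * d))
    (hK : K = d * (a * (c * ((-1 : F)) + (2 : F)) + (c * ((-2 : F)) + (d * ((-1 : F)) + (1 : F)))) + a * c)
    (n15 : (c + d) ≠ 0)
    (n20 : F2 ≠ 0)
    (n7 : (d - 1) ≠ 0)
    (n4 : (a - 1) ≠ 0)
    (n0 : a ≠ 0)
    (n2 : c ≠ 0)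
    (r0 : a * (a * (b * (c * ((1 : F)) + (-1 : F)) - (c)) + (b * c + d)) + (d * (b * ((-1 : F)) + (c * ((-1 : F)) + (1 : F)))) = 0)
    (r1 : d * (c * (a * (b * ((1 : F)) - (c)) + (b * (-(c)) + d)) + (d * (a * ((-1 : F)) + (b * ((-1 : F)) + d)))) + a * b * c * c = 0)
    (r2 : d * (c * (a * (c * (a * ((1 : F)) + (d * ((1 : F)) + (1 : F))) + (d * (b * ((-1 : F)) + (-1 : F)) + (a * ((-1 : F)) + (1 : F)))) + (b * (c * (d * ((1 : F)) + (1 : F)) + (-1 : F)) + (d * (d * ((-1 : F)) + (-2 : F)) - (c)))) + (d * (a * (a * ((1 : F)) + (b * ((1 : F)) + (2 : F))) + (d * (b * ((1 : F)) + (d * ((-1 : F)) + (-1 : F))) + (1 : F))) + (a * (a * (-(b)) + (1 : F)) + (b * ((-1 : F)) + (1 : F))))) + (a * (a * (c * (c * ((-1 : F)) + (-1 : F)) - (b)) + b * c)) = 0)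
    (r3 : d * (a * (a * (b * (b * ((1 : F)) + (d * ((-1 : F)) + (-1 : F))) + (c * ((-1 : F)) + d)) + (b * (d * ((-1 : F)) + (-1 : F)) + (d * ((1 : F)) + (-1 : F)))) + (b * (b * (c * ((1 : F)) + (1 : F)) + (-2 : F) * d) + (d * (d * ((1 : F)) + (1 : F)) + (c * ((1 : F)) + (-1 : F))))) + (a * (b * (a * (b * ((1 : F)) + (1 : F)) + (c * (b * ((-1 : F)) + (-1 : F)))) + a * c)) = 0) :
    (((c * (a * (b * (c * ((1 : F)) + (-1 : F)) + (c * ((-1 : F)) + d)) + (c * (b * ((1 : F)) + (-1 : F)))) + (d * (b * ((-1 : F)) + d))) * b * K) / ((c + d) * F2 * (d - 1))) = ((1 - (1 - (((-1) * d * (b - 1) * (b - a)) / ((a - 1) * F2)))) * (((c)) * (((a * (c * (a * (c * ((1 : F)) + (-1 : F)) + d) - (d)) + (c * (-(c)) + d * d))) / ((c + d) * (d - 1)))) + (1 - (((-1) * d * (b - 1) * (b - a)) / ((a - 1) * F2))) * (((c)) ^ 1 * (((d * (a * (c * (c * ((1 : F)) + (-1 : F)) + a * d) + (d * (c * ((1 : F)) +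 (-1 : F)))) - (a * a * c * c))) / ((d - 1) * (c + d) * a ^ 2 * c)))) := by
  have key : (d * (a * (d * (c * (b * (a * (a * (c * (a * ((-1 : F)) + (b * ((-1 : F)) + (-2 : F))) + (a * ((2 : F)) + (b * ((2 : F)) + (d * ((-1 : F)) + (2 : F))))) + (c * (c * ((1 : F)) + (-3 : F)) + (b * ((1 : F)) + (d * ((-2 : F)) + (3 : F))))) + (c * (b * ((1 : F)) + (c * ((1 : F)) + (d * ((1 : F)) + (-3 : F)))) + (b * (d * ((1 : F)) + (-1 : F)) + (d * ((-4 : F)) + (2 : F))))) + (a * (c * (a * ((-1 : F)) + (c * ((1 : F)) + (d * ((1 : F)) + (-1 : F)))) + (d * (a * ((1 : F)) + (-1 : F)))) + (d * (c * ((1 : F)) + (d * ((1 : F)) + (-1 : F)))))) + (d * (a * (a * (a * ((-1 : F)) + (b * ((1 : F)) + (d * ((1 : F)) + (-1 : F)))) + (b * (b * ((1 : F)) + (d * ((-1 : F)) + (2 : F))))) + (b * (b * ((-1 : F)) + (3 : F)) - (d))) + (a * (b * (b * (a * ((-2 : F)) + (-1 : F))))))) + (a * (c * (b * (b * (a * (c * (a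 * (c * ((-1 : F)) + (3 : F)) + (c * ((-2 : F)) + (4 : F))) + (a * ((-2 : F)) + (-2 : F))) - (c * c)) + (c * (c * ((-1 : F)) + (1 : F)))) + a * a * c * c)))) + (b * (d * (d * (c * (b * ((1 : F)) + (c * ((1 : F)) + (-2 : F))) + (b * ((-1 : F)) + (1 : F))))))) + (a * (a * (a * (b * (c * (c * (a * (b * (c * ((1 : F)) + (-1 : F)) - (c)) + b * c)))))))) = 0 := by
    linear_combination (d * (a * (c * (a * (b * (c * ((-1 : F)) + (2 : F)) + (c * ((-1 : F)) + (d * ((-1 : F)) + (1 : F)))) + (b * (c * ((-1 : F)) + (d * ((-1 : F)) + (1 : F))) + (d * ((-1 : F)) + (-1 : F)))) + (d * (a * ((1 : F)) + (b * ((1 : F)) + (d * ((-2 : F)) + (-1 : F)))) + (a * ((1 : F)) + (b * ((-1 : F)) + (-2 : F))))) + (d * (d * (c * ((1 : F)) + (d * ((1 : F)) + (2 : F))) + (b * ((2 : F)) + (c * ((2 : F)) + (4 : F)))) + (c * ((1 : F)) + (1 : F)))) + a * a * b * c * c) * r0 + (d * (d * (d * (d * ((-1 : F)) + (-3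 : F)) + (-4 : F)) + (-1 : F))) * r1 + (d * (a * (a * ((-1 : F)) + (d * ((1 : F)) + (1 : F))) + (d * (d * ((-1 : F)) + (-2 : F)) + (-1 : F)))) * r2 + (d * (a * ((-1 : F)) + d)) * r3
  have e : (((c * (a * (b * (c * ((1 : F)) + (-1 : F)) + (c * ((-1 : F)) + d)) + (c * (b * ((1 : F)) + (-1 : F)))) + (d * (b * ((-1 : F)) + d))) * b * K) / ((c + d) * F2 * (d - 1))) - ((1 - (1 - (((-1) * d * (b - 1) * (b - a)) / ((a - 1) * F2)))) * (((c)) * (((a * (c * (a * (c * ((1 : F)) + (-1 : F)) + d) - (d)) + (c * (-(c)) + d * d))) / ((c + d) * (d - 1)))) + (1 - (((-1) * d * (b - 1) * (b - a)) / ((a - 1) * F2))) * (((c)) ^ 1 * (((d * (a * (c * (c * ((1 : F)) + (-1 : F)) + a * d) + (d * (c * ((1 : F)) + (-1 : F)))) - (a * a * c * c))) / ((d - 1) * (c + d) * a ^ 2 * c)))) = ((d * (a * (d * (c * (b * (a * (a * (c * (a * ((-1 : F)) + (b * ((-1 : F)) + (-2 : F))) + (a * ((2 : F)) + (b * ((2 : F))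 + (d * ((-1 : F)) + (2 : F))))) + (c * (c * ((1 : F)) + (-3 : F)) + (b * ((1 : F)) + (d * ((-2 : F)) + (3 : F))))) + (c * (b * ((1 : F)) + (c * ((1 : F)) + (d * ((1 : F)) + (-3 : F)))) + (b * (d * ((1 : F)) + (-1 : F)) + (d * ((-4 : F)) + (2 : F))))) + (a * (c * (a * ((-1 : F)) + (c * ((1 : F)) + (d * ((1 : F)) + (-1 : F)))) + (d * (a * ((1 : F)) + (-1 : F)))) + (d * (c * ((1 : F)) + (d * ((1 : F)) + (-1 : F)))))) + (d * (a * (a * (a * ((-1 : F)) + (b * ((1 : F)) + (d * ((1 : F)) + (-1 : F)))) + (b * (b * ((1 : F)) + (d * ((-1 : F)) + (2 : F))))) + (b * (b * ((-1 : F)) + (3 : F)) - (d))) + (a * (b * (b * (a * ((-2 : F)) + (-1 : F))))))) + (a * (c * (b * (b * (a * (c * (a * (c * ((-1 : F)) + (3 : F)) + (c * ((-2 : F)) + (4 : F))) + (a * ((-2 : F)) + (-2 : F))) - (c * c)) + (c * (c * ((-1 : F)) + (1 : F)))) + a * a * c * c)))) + (b * (d * (d * (c * (b * ((1 : F)) + (c * ((1 :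 F)) + (-2 : F))) + (b * ((-1 : F)) + (1 : F))))))) + (a * (a * (a * (b * (c * (c * (a * (b * (c * ((1 : F)) + (-1 : F)) - (c)) + b * c))))))))) / ((c + d) * (d - 1) * a ^ 2 * F2) := by
    field_simp
    all_goals try simp only [hF2, hK]
    all_goals ring
  rw [← sub_eq_zero, e, key, zero_div]

theorem d5_mk_U2_31 (a b c d F2 K : F)
    (hF2 : F2 = a * (d * (b * (c * ((-1 : F)) + (1 : F)) + (a * ((1 : F)) + (c * ((-1 : F)) + (d * ((-1 : F)) + (1 : F))))) + b * c) - (b * c * d))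
    (hK : K = d * (a * (c * ((-1 : F)) + (2 : F)) + (c * ((-2 : F)) + (d * ((-1 : F)) + (1 : F)))) + a * c)
    (n15 : (c + d) ≠ 0)
    (n20 : F2 ≠ 0)
    (n2 : c ≠ 0)
    (n7 : (d - 1) ≠ 0)
    (n1 : b ≠ 0)
    (n4 : (a - 1) ≠ 0)
    (n0 : a ≠ 0)
    (r0 : a * (a * (b * (c * ((1 : F)) + (-1 : F)) - (c)) + (b * c + d)) + (d * (b * ((-1 : F)) + (c * ((-1 : F)) + (1 : F)))) = 0)
    (r1 : d * (c * (a * (b * ((1 : F)) - (c)) + (b * (-(c)) + d)) + (d * (a * ((-1 : F)) + (b * ((-1 : F)) + d)))) + a * b * c * c = 0)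
    (r2 : d * (c * (a * (c * (a * ((1 : F)) + (d * ((1 : F)) + (1 : F))) + (d * (b * ((-1 : F)) + (-1 : F)) + (a * ((-1 : F)) + (1 : F)))) + (b * (c * (d * ((1 : F)) + (1 : F)) + (-1 : F)) + (d * (d * ((-1 : F)) + (-2 : F)) - (c)))) + (d * (a * (a * ((1 : F)) + (b * ((1 : F)) + (2 : F))) + (d * (b * ((1 : F)) + (d * ((-1 : F)) + (-1 : F))) + (1 : F))) + (a * (a * (-(b)) + (1 : F)) + (b * ((-1 : F)) + (1 : F))))) + (a * (a * (c * (c * ((-1 : F)) + (-1 : F)) - (b)) + b * c)) = 0)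
    (r3 : d * (a * (a * (b * (b * ((1 : F)) + (d * ((-1 : F)) + (-1 : F))) + (c * ((-1 : F)) + d)) + (b * (d * ((-1 : F)) + (-1 : F)) + (d * ((1 : F)) + (-1 : F)))) + (b * (b * (c * ((1 : F)) + (1 : F)) + (-2 : F) * d) + (d * (d * ((1 : F)) + (1 : F)) + (c * ((1 : F)) + (-1 : F))))) + (a * (b * (a * (b * ((1 : F)) + (1 : F)) + (c * (b * ((-1 : F)) + (-1 : F)))) + a * c)) = 0)
    (r4 : d * (c * (b * (c * (b * ((-1 : F)) + (d * ((-1 : F)) + (1 : F))) + (a * (b * ((1 : F)) + d) + (d * ((1 : F)) + (1 : F)))) + (c * (a * (d * ((-1 : F)) + (1 : F)) + (-1 : F)) + (d * (d * ((1 : F)) + (-1 : F))))) + (d * (d * (a * ((-1 : F)) + (d * ((1 : F)) + (-1 : F))) + (b * (b * ((-1 : F)) + (2 : F)) + (-1 : F))) - (a * b * b))) + (b * (c * (c * (b * ((-1 : F)) + (1 : F))))) = 0)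
    (r5 : d * (d * (c * (b * (c * (c * ((1 : F)) + (d * ((-1 : F)) + (-1 : F))) + (a * (d * ((1 : F)) + (-1 : F)) + (b * ((1 : F)) + (-4 : F)))) + (c * (a * (c * ((1 : F)) - (d)) + (d * ((-1 : F)) + (2 : F))) + (d * (a * ((1 : F)) + (1 : F)) + (2 : F)))) + (d * (a * (b * ((-1 : F)) + (d * ((-1 : F)) + (1 : F))) + (b * (d * ((-1 : F)) + (-2 : F)) + (d * d + (2 : F)))) + (b * (b * (a * ((1 : F)) + (1 : F)) + (-2 : F)) + (1 : F)))) + (c * (c * (b * (b * (c * ((1 : F)) + (2 : F)) + (c * ((-1 : F)) + (-3 : F))) + (a * (c * ((-1 : F)) + (-1 : F)) + (c * ((1 : F)) + (1 : F)))) - (b)) + a * b * b)) + (b * (c * (c * (b * (c * ((1 : F)) + (1 : F)) + (c * ((-1 : F)) + (-1 : F)))))) = 0) :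
    ((c)) ^ 2 * (((d * (d * (a * (b * ((1 : F)) + (-1 : F)) + (b * ((1 : F)) + (c * ((1 : F)) + (-1 : F)))) + (c * (a * c - (b)))) - (a * b * c * c)) * K) / ((c + d) * F2 * c * (d - 1) * b)) = ((1 - (((-1) * a ^ 2 * c * d * (b - 1) * (b - a)) / ((a - 1) * F2 * b))) * (((c)) * (((a * (c * (a * (c * ((1 : F)) + (-1 : F)) + d) - (d)) + (c * (-(c)) + d * d))) / ((c + d) * (d - 1)))) + (((-1) * a ^ 2 * c * d * (b - 1) * (b - a)) / ((a - 1) * F2 * b)) * (((c)) ^ 1 * (((d * (a * (c * (c * ((1 : F)) + (-1 : F)) + a * d) + (d * (c * ((1 : F)) + (-1 : F)))) - (a * a * c * c))) / ((d - 1) * (c + d) * a ^ 2 * c)))) := by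
  have key : (d * (a * (c * (a * (b * (a * (c * (a * (c * ((1 : F)) + (-2 : F)) + (b * ((-1 : F)) + (c * ((3 : F)) + (d * ((2 : F)) + (-4 : F))))) + (a * ((1 : F)) + (b * ((1 : F)) + (d * ((-3 : F)) + (1 : F))))) + (c * (b * ((-1 : F)) + (c * ((2 : F)) + (d * ((3 : F)) + (-2 : F)))) + (d * (b * ((-1 : F)) + (d * ((1 : F)) + (-3 : F))) + b))) + (c * (a * (a * (c * ((-1 : F)) + (1 : F)) + (c * ((-1 : F)) + (d * ((-1 : F)) + (1 : F)))) + (c * (d * ((-1 : F)) + (1 : F)) + d)) + a * d)) + (c * (b * (b * (c * ((-1 : F)) + (1 : F)) + (c * ((1 : F)) + (d * ((2 : F)) + (-1 : F)))) + (d * (c * ((-2 : F)) + (d * ((-2 : F)) + (2 : F))))) + (d * (b * (b * ((-1 : F)) + (-2 : F)) + (d * ((4 : F)) + (-1 : F)))))) + (d * (a * (b * (a * ((1 : F)) + (b * ((1 : F)) + (d * ((-1 : F)) + (1 : F)))) - (d)) + (d * (d * ((1 : F)) + (-2 : F)))))) + (d * (d * (c * (c * ((-2 : F)) + (d * ((-1 : F)) + (3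 : F))) + (b * (b * ((1 : F)) - (d)) + (d * ((1 : F)) + (-1 : F)))) + (b * (c * (c * ((2 : F)) + (-1 : F))))) - (b * b * c * c * c))) + (a * (b * (c * (c * (a * (a * (b * (c * ((-1 : F)) + (1 : F))) - (c)) + b * c)))))) = 0 := by
    linear_combination (c * (a * (d * (a * (c * ((1 : F)) + (-1 : F)) + (b * ((-1 : F)) + (c * ((2 : F)) + (d * ((2 : F)) + (-2 : F))))) + (c * (b * ((-1 : F)) + (-1 : F)) + (-1 : F))) + (b * (c * ((1 : F)) + (1 : F)) + (d * (d * ((3 : F)) + (1 : F)) + (c * ((1 : F)) + (2 : F))))) + (d * (d * (a * ((-1 : F)) + (b * ((-1 : F)) + (d * ((1 : F)) + (-2 : F)))) + b) + (b * ((1 : F)) + (2 : F)))) * r0 + (d * (c * (b * ((-1 : F)) + (d * ((-2 : F)) + (-1 : F))) + (d * (b * ((1 : F)) + (2 : F) * d) + (-1 : F))) + (b * ((-1 : F)) + (c * ((-1 : F)) + (-1 : F)))) * r1 + (c * (a * ((1 : F)) + (d * ((-1 : F)) + (-1 : F))) + (-1 : F)) * r2 + ((1 : F)) * r3 + (d * (d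 * ((-1 : F)) + (-1 : F))) * r4 + (-(d)) * r5
  have e : ((c)) ^ 2 * (((d * (d * (a * (b * ((1 : F)) + (-1 : F)) + (b * ((1 : F)) + (c * ((1 : F)) + (-1 : F)))) + (c * (a * c - (b)))) - (a * b * c * c)) * K) / ((c + d) * F2 * c * (d - 1) * b)) - ((1 - (((-1) * a ^ 2 * c * d * (b - 1) * (b - a)) / ((a - 1) * F2 * b))) * (((c)) * (((a * (c * (a * (c * ((1 : F)) + (-1 : F)) + d) - (d)) + (c * (-(c)) + d * d))) / ((c + d) * (d - 1)))) + (((-1) * a ^ 2 * c * d * (b - 1) * (b - a)) / ((a - 1) * F2 * b)) * (((c)) ^ 1 * (((d * (a * (c * (c * ((1 : F)) + (-1 : F)) + a * d) + (d * (c * ((1 : F)) + (-1 : F)))) - (a * a * c * c))) / ((d - 1) * (c + d) * a ^ 2 * c)))) = (c * (d * (a * (c * (a * (b * (a * (c * (a * (c * ((1 : F)) + (-2 : F)) + (b * ((-1 : F)) + (c * ((3 : F)) + (d * ((2 : F)) + (-4 : F))))) + (a * ((1 : F)) + (b * ((1 : F)) + (d * ((-3 : F)) + (1 : F))))) + (c * (b * ((-1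 : F)) + (c * ((2 : F)) + (d * ((3 : F)) + (-2 : F)))) + (d * (b * ((-1 : F)) + (d * ((1 : F)) + (-3 : F))) + b))) + (c * (a * (a * (c * ((-1 : F)) + (1 : F)) + (c * ((-1 : F)) + (d * ((-1 : F)) + (1 : F)))) + (c * (d * ((-1 : F)) + (1 : F)) + d)) + a * d)) + (c * (b * (b * (c * ((-1 : F)) + (1 : F)) + (c * ((1 : F)) + (d * ((2 : F)) + (-1 : F)))) + (d * (c * ((-2 : F)) + (d * ((-2 : F)) + (2 : F))))) + (d * (b * (b * ((-1 : F)) + (-2 : F)) + (d * ((4 : F)) + (-1 : F)))))) + (d * (a * (b * (a * ((1 : F)) + (b * ((1 : F)) + (d * ((-1 : F)) + (1 : F)))) - (d)) + (d * (d * ((1 : F)) + (-2 : F)))))) + (d * (d * (c * (c * ((-2 : F)) + (d * ((-1 : F)) + (3 : F))) + (b * (b * ((1 : F)) - (d)) + (d * ((1 : F)) + (-1 : F)))) + (b * (c * (c * ((2 : F)) + (-1 : F))))) - (b * b * c * c * c))) + (a * (b * (c * (c * (a * (a * (b * (c * ((-1 : F)) + (1 : F))) - (c)) + b * c))))))) / ((c + d)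 * (d - 1) * b * F2) := by
    field_simp
    all_goals try simp only [hF2, hK]
    all_goals ring
  rw [← sub_eq_zero, e, key, mul_zero, zero_div]

theorem d5_mk_U1_32 (a b c d F2 F3 K : F)
    (hF2 : F2 = a * (d * (b * (c * ((-1 : F)) + (1 : F)) + (a * ((1 : F)) + (c * ((-1 : F)) + (d * ((-1 : F)) + (1 : F))))) + b * c) - (b * c * d))
    (hF3 : F3 = c * (d * (a * (b * ((-1 : F)) + (1 : F)) + (b * ((-1 : F)) + (c * ((-1 : F)) + (d * ((-1 : F)) + (1 : F))))) + a * b) + a * b * d)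
    (hK : K = d * (a * (c * ((-1 : F)) + (2 : F)) + (c * ((-2 : F)) + (d * ((-1 : F)) + (1 : F)))) + a * c)
    (n15 : (c + d) ≠ 0)
    (n20 : F2 ≠ 0)
    (n21 : F3 ≠ 0)
    (n7 : (d - 1) ≠ 0)
    (n5 : (b - 1) ≠ 0)
    (n8 : (b - a) ≠ 0)
    (n2 : c ≠ 0)
    (n1 : b ≠ 0)
    (r0 : a * (a * (b * (c * ((1 : F)) + (-1 : F)) - (c)) + (b * c + d)) + (d * (b * ((-1 : F)) + (c * ((-1 : F)) + (1 : F)))) = 0)
    (r1 : d * (c * (a * (b * ((1 : F)) - (c)) + (b * (-(c)) + d)) + (d * (a * ((-1 : F)) + (b * ((-1 : F)) + d)))) + a * b * c * c = 0)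
    (r2 : d * (c * (a * (c * (a * ((1 : F)) + (d * ((1 : F)) + (1 : F))) + (d * (b * ((-1 : F)) + (-1 : F)) + (a * ((-1 : F)) + (1 : F)))) + (b * (c * (d * ((1 : F)) + (1 : F)) + (-1 : F)) + (d * (d * ((-1 : F)) + (-2 : F)) - (c)))) + (d * (a * (a * ((1 : F)) + (b * ((1 : F)) + (2 : F))) + (d * (b * ((1 : F)) + (d * ((-1 : F)) + (-1 : F))) + (1 : F))) + (a * (a * (-(b)) + (1 : F)) + (b * ((-1 : F)) + (1 : F))))) + (a * (a * (c * (c * ((-1 : F)) + (-1 : F)) - (b)) + b * c)) = 0)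
    (r3 : d * (a * (a * (b * (b * ((1 : F)) + (d * ((-1 : F)) + (-1 : F))) + (c * ((-1 : F)) + d)) + (b * (d * ((-1 : F)) + (-1 : F)) + (d * ((1 : F)) + (-1 : F)))) + (b * (b * (c * ((1 : F)) + (1 : F)) + (-2 : F) * d) + (d * (d * ((1 : F)) + (1 : F)) + (c * ((1 : F)) + (-1 : F))))) + (a * (b * (a * (b * ((1 : F)) + (1 : F)) + (c * (b * ((-1 : F)) + (-1 : F)))) + a * c)) = 0)
    (r4 : d * (c * (b * (c * (b * ((-1 : F)) + (d * ((-1 : F)) + (1 : F))) + (a * (b * ((1 : F)) + d) + (d * ((1 : F)) + (1 : F)))) + (c * (a * (d * ((-1 : F)) + (1 : F)) + (-1 : F)) + (d * (d * ((1 : F)) + (-1 : F))))) + (d * (d * (a * ((-1 : F)) + (d * ((1 : F)) + (-1 : F))) + (b * (b * ((-1 : F)) + (2 : F)) + (-1 : F))) - (a * b * b))) + (b * (c * (c * (b * ((-1 : F)) + (1 : F))))) = 0)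
    (r5 : d * (d * (c * (b * (c * (c * ((1 : F)) + (d * ((-1 : F)) + (-1 : F))) + (a * (d * ((1 : F)) + (-1 : F)) + (b * ((1 : F)) + (-4 : F)))) + (c * (a * (c * ((1 : F)) - (d)) + (d * ((-1 : F)) + (2 : F))) + (d * (a * ((1 : F)) + (1 : F)) + (2 : F)))) + (d * (a * (b * ((-1 : F)) + (d * ((-1 : F)) + (1 : F))) + (b * (d * ((-1 : F)) + (-2 : F)) + (d * d + (2 : F)))) + (b * (b * (a * ((1 : F)) + (1 : F)) + (-2 : F)) + (1 : F)))) + (c * (c * (b * (b * (c * ((1 : F)) + (2 : F)) + (c * ((-1 : F)) + (-3 : F))) + (a * (c * ((-1 : F)) + (-1 : F)) + (c * ((1 : F)) + (1 : F)))) - (b)) + a * b * b)) + (b * (c * (c * (b * (c * ((1 : F)) + (1 : F)) + (c * ((-1 : F)) + (-1 : F)))))) = 0) :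
    (((c * (c * (a * (c * ((1 : F)) + (-2 : F)) + (c * ((1 : F)) + (-1 : F))) + (d * (a * ((1 : F)) + (-1 : F)))) + d * d) * b * c * K ^ 2) / ((c + d) * F2 * F3 * (d - 1))) = ((1 - (1 - ((d * (c - 1) * (c - a) * (c - b)) / ((b - 1) * (b - a) * F3)))) * (((c)) * (((c * (a * (b * (c * ((1 : F)) + (-1 : F)) + (c * ((-1 : F)) + d)) + (c * (b * ((1 : F)) + (-1 : F)))) + (d * (b * ((-1 : F)) + d))) * b * K) / ((c + d) * F2 * (d - 1)))) + (1 - ((d * (c - 1) * (c - a) * (c - b)) / ((b - 1) * (b - a) * F3))) * (((c)) ^ 2 * (((d * (d * (a * (b * ((1 : F)) + (-1 : F)) + (b * ((1 : F)) + (c * ((1 : F)) + (-1 : F)))) + (c * (a * c - (b)))) - (a * b * c * c)) * K) / ((c + d) * F2 * c * (d - 1) * b)))) := by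
  have key : (d * (b * (c * (b * (a * (c * (c * (b * (a * (c * (a * ((1 : F)) + (b * ((-1 : F)) + (5 : F))) + (a * ((-3 : F)) + (b * ((2 : F)) + (d * ((2 : F)) + (-11 : F))))) + (b * (c * ((-2 : F)) + (d * ((-1 : F)) + (4 : F))) + (c * (c * ((-1 : F)) + (6 : F)) + (d * ((3 : F)) + (-9 : F))))) + (a * (a * (c * ((-1 : F)) + (d * ((-1 : F)) + (3 : F))) + (c * ((-3 : F)) + (d * ((-2 : F)) + (6 : F)))) + (c * (c * ((1 : F)) + (-2 : F)) + (d * d + (2 : F))))) + (b * (a * (d * (a * ((1 : F)) + (b * ((-1 : F)) + (-1 : F))) + (a * ((2 : F)) + (6 : F))) + (d * (d * ((2 : F)) + (-4 : F)) + (b * ((-2 : F)) + (4 : F)))) + (a * (a * ((-2 : F)) + (d * ((-2 : F) * d) + (-3 : F))) + (d * ((-5 : F) * d) + (-1 : F))))) + (d * (a * (b * (d * (a * ((-1 : F)) + (b * ((1 : F)) + (-3 : F))) + (a * ((-1 : F)) + (b * ((1 : F)) + (1 : F)))) + (d * (a * ((3 : F)) + (d * ((-1 : F)) + (9 : F))) + (-2 :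 F))) + (b * (d * (d * ((1 : F)) + (-6 : F)) + (b * ((1 : F)) + (3 : F))) + (d * (d * ((-3 : F)) + (10 : F)) + (-1 : F)))) - (a * b * b))) + (c * (b * (c * (b * (c * ((-1 : F)) + (d * ((-1 : F)) + (2 : F))) + (c * (c * ((-1 : F)) + (2 : F)) + (d * ((1 : F)) + (-2 : F)))) + (d * (b * ((1 : F)) + (d * ((2 : F)) + (-2 : F))) + (b * ((-1 : F)) + (1 : F)))) + (d * (d * (d * ((1 : F)) + (-3 : F)) + (c * ((2 : F)) + (-2 : F))) + (c * (c * (c * ((1 : F)) + (-1 : F)))))) + (d * (d * (b * (d * ((1 : F)) + (-3 : F)) + (d * ((-2 : F)) + (4 : F))) + b)))) + (d * (a * (a * (c * (c * (a * ((2 : F)) + (c * ((-1 : F)) + (d * ((-1 : F)) + (3 : F)))) + (a * ((-1 : F)) + (d * ((3 : F)) + (-1 : F)))) + (d * (a * ((-3 : F)) + (d * ((2 : F)) + (-8 : F))) + (a * ((1 : F)) + (1 : F)))) + (c * (c * (c * ((-2 : F)) + (d * ((-1 : F)) + (2 : F))) + (d * (d * ((-1 : F)) + (5 : F)))) + (d * (d * ((3 : F))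 + (-7 : F))))) + (c * (c * (c * ((-1 : F)) + (d * ((-1 : F)) + (1 : F))) + (d * (d * ((-1 : F)) + (3 : F)))) + (d * (d * ((1 : F)) + (-2 : F))))) + (a * (c * (c * (c * (c * ((-1 : F)) + (1 : F)))))))) + (d * (d * (b * (a * (a * (b * (a * ((1 : F)) + (b * ((-1 : F)) + (1 : F))) + (a * ((-2 : F)) + (-2 : F))) + (b * (b * ((1 : F)) + d) + (d * ((-1 : F)) + (-1 : F)))) + (b * (b * (d * ((-1 : F)) + (1 : F)) + (d * ((1 : F)) + (-1 : F))))) + (a * (a * (a * ((1 : F)) + (2 : F)) + (1 : F)))) - (a * b * b * b)))) + (c * (d * (a * (d * (a * (c * (c * ((1 : F)) + (-1 : F)) + (a * ((1 : F)) + (d * ((-1 : F)) + (1 : F)))) + (c * (c * ((-1 : F)) + (d * ((1 : F)) + (1 : F))) - (d))) + (c * (c * (c * (c * ((1 : F)) + (-1 : F)) - (a * a))))) + (c * (d * (c * (c * ((1 : F)) + (-2 : F)) + (1 : F)))))))) + (a * (b * (b * (c * (c * (c * (a * (b * (c * (a * ((-1 : F)) + (b * ((1 : F)) + (-2 : F)))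 + (a * ((1 : F)) + (b * ((-1 : F)) + (2 : F)))) + (a * (c * ((1 : F)) + (-1 : F)) + (c * ((1 : F)) + (-1 : F)))) + (b * (b * (c * ((1 : F)) + (-1 : F)) + (c * ((-1 : F)) + (1 : F)))))))))))) = 0 := by
    linear_combination (b * (d * (c * (b * (c * (c * (a * ((1 : F)) + (b * ((-1 : F)) + (3 : F))) + (a * ((-2 : F)) + (b * ((1 : F)) + (d * ((2 : F)) + (-5 : F))))) + (d * (a * ((1 : F)) + (b * ((-1 : F)) + (-1 : F))) + (b * ((1 : F)) + (2 : F)))) + (a * (c * (d * ((-1 : F)) + (1 : F)) + (-1 : F)) + (d * (d * ((-2 : F)) + (1 : F)) + (c * ((1 : F)) + (1 : F))))) + (d * (d * (b * (a * ((-1 : F)) + (b * ((1 : F)) + (-1 : F))) + (a * ((2 : F)) + (d * ((-1 : F)) + (3 : F)))) + (-1 : F)) + (a * ((-1 : F)) + (b * ((2 : F)) + (4 : F))))) + (c * (c * (b * (c * (a * ((-1 : F)) + b) + (2 : F)) + (a * ((-1 : F)) + (c * ((1 : F)) + (3 : F)))) + (a * ((-1 : F)) + (b * ((2 : F)) + (6 : F))))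 + (a * ((-1 : F)) + (b * ((2 : F)) + (8 : F))))) + (d * (d * (c * (c * (a * ((1 : F)) + (c * ((-1 : F)) + (d * ((-1 : F)) + (1 : F)))) + d) + (d * (a * ((-1 : F)) + (d * ((1 : F)) + (-3 : F))) + (a * ((1 : F)) + (-1 : F)))) + (a * c * c + (2 : F))) + (c * (c * (a * ((-1 : F)) + (c * ((1 : F)) + (5 : F))) + (a * ((-2 : F)) + (11 : F))) + (a * ((-2 : F)) + (13 : F))))) * r0 + (d * (b * (c * (c * (b * (b * ((-1 : F)) + (c * ((-1 : F)) + (3 : F))) + (d * (c * ((-1 : F)) + (d * ((2 : F)) + (2 : F))) + (c * ((1 : F)) + (-4 : F)))) + (d * (d * (d * ((-2 : F)) + (-3 : F)) + (b * ((3 : F)) + (-6 : F))) + (b * (b * ((3 : F)) + (-6 : F)) + (2 : F)))) + (d * (d * (d * (b * ((1 : F)) + (d * ((2 : F)) + (3 : F))) + (b * ((-4 : F)) + (7 : F))) + (b * (b * ((-2 : F)) + (-1 : F)) + (6 : F))) + (b * (b * ((-2 : F)) + (3 : F)) + (-4 : F)))) + (d * (d * (d * (c * ((-2 : F)) + (d * ((2 : F)) + (3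 : F))) + (c * c + (5 : F))) + (c * ((-3 : F) * c) + (-7 : F))) + (c * (c * (-(c)) + (-4 : F)) + (-5 : F)))) + (b * (c * (b * (b * ((-1 : F)) + (c * ((-1 : F)) + (-1 : F))) + (c * ((-1 : F)) + (-3 : F))) + (b * ((-2 : F)) + (-6 : F))) + (c * (c * ((-1 : F)) + (-4 : F)) + (-7 : F)))) * r1 + (c * (c * (d * ((-1 : F)) + (-1 : F)) + (a * ((1 : F)) + (d * ((-1 : F)) + (-4 : F)))) + (a * ((1 : F)) + (d * ((-1 : F)) + (-7 : F)))) * r2 + (a * ((-1 : F)) + (b * ((2 : F)) + (d * d + (6 : F)))) * r3 + (d * (d * (b * (d * (d * ((-1 : F)) + (-2 : F)) + (b * ((2 : F)) + (-3 : F))) + (d * (d * ((-1 : F)) + (-2 : F)) + (-5 : F))) + (b * (b * ((4 : F)) + (-4 : F)) + (2 : F)))) * r4 + (d * (b * (c * (b * ((-1 : F)) + (c * ((-1 : F)) + (d * ((1 : F)) + (2 : F)))) + (d * (d * ((-1 : F)) + (-1 : F)) + (b * ((3 : F)) + (-4 : F)))) + (d * (c * ((1 : F)) + (d * ((-1 : F)) + (-2 : F))) + (c * ((-1 :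 F)) + (-1 : F))))) * r5
  have e : (((c * (c * (a * (c * ((1 : F)) + (-2 : F)) + (c * ((1 : F)) + (-1 : F))) + (d * (a * ((1 : F)) + (-1 : F)))) + d * d) * b * c * K ^ 2) / ((c + d) * F2 * F3 * (d - 1))) - ((1 - (1 - ((d * (c - 1) * (c - a) * (c - b)) / ((b - 1) * (b - a) * F3)))) * (((c)) * (((c * (a * (b * (c * ((1 : F)) + (-1 : F)) + (c * ((-1 : F)) + d)) + (c * (b * ((1 : F)) + (-1 : F)))) + (d * (b * ((-1 : F)) + d))) * b * K) / ((c + d) * F2 * (d - 1)))) + (1 - ((d * (c - 1) * (c - a) * (c - b)) / ((b - 1) * (b - a) * F3))) * (((c)) ^ 2 * (((d * (d * (a * (b * ((1 : F)) + (-1 : F)) + (b * ((1 : F)) + (c * ((1 : F)) + (-1 : F)))) + (c * (a * c - (b)))) - (a * b * c * c)) * K) / ((c + d) * F2 * c * (d - 1) * b)))) = (c * K * (d * (b * (c * (b * (a * (c * (c * (b * (a * (c * (a * ((1 : F)) + (b * ((-1 : F)) + (5 : F))) + (a * ((-3 : F)) + (b * ((2 : F)) + (d * ((2 : F)) +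 (-11 : F))))) + (b * (c * ((-2 : F)) + (d * ((-1 : F)) + (4 : F))) + (c * (c * ((-1 : F)) + (6 : F)) + (d * ((3 : F)) + (-9 : F))))) + (a * (a * (c * ((-1 : F)) + (d * ((-1 : F)) + (3 : F))) + (c * ((-3 : F)) + (d * ((-2 : F)) + (6 : F)))) + (c * (c * ((1 : F)) + (-2 : F)) + (d * d + (2 : F))))) + (b * (a * (d * (a * ((1 : F)) + (b * ((-1 : F)) + (-1 : F))) + (a * ((2 : F)) + (6 : F))) + (d * (d * ((2 : F)) + (-4 : F)) + (b * ((-2 : F)) + (4 : F)))) + (a * (a * ((-2 : F)) + (d * ((-2 : F) * d) + (-3 : F))) + (d * ((-5 : F) * d) + (-1 : F))))) + (d * (a * (b * (d * (a * ((-1 : F)) + (b * ((1 : F)) + (-3 : F))) + (a * ((-1 : F)) + (b * ((1 : F)) + (1 : F)))) + (d * (a * ((3 : F)) + (d * ((-1 : F)) + (9 : F))) + (-2 : F))) + (b * (d * (d * ((1 : F)) + (-6 : F)) + (b * ((1 : F)) + (3 : F))) + (d * (d * ((-3 : F)) + (10 : F)) + (-1 : F)))) - (a * b * b))) + (c * (b * (c * (b * (c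 * ((-1 : F)) + (d * ((-1 : F)) + (2 : F))) + (c * (c * ((-1 : F)) + (2 : F)) + (d * ((1 : F)) + (-2 : F)))) + (d * (b * ((1 : F)) + (d * ((2 : F)) + (-2 : F))) + (b * ((-1 : F)) + (1 : F)))) + (d * (d * (d * ((1 : F)) + (-3 : F)) + (c * ((2 : F)) + (-2 : F))) + (c * (c * (c * ((1 : F)) + (-1 : F)))))) + (d * (d * (b * (d * ((1 : F)) + (-3 : F)) + (d * ((-2 : F)) + (4 : F))) + b)))) + (d * (a * (a * (c * (c * (a * ((2 : F)) + (c * ((-1 : F)) + (d * ((-1 : F)) + (3 : F)))) + (a * ((-1 : F)) + (d * ((3 : F)) + (-1 : F)))) + (d * (a * ((-3 : F)) + (d * ((2 : F)) + (-8 : F))) + (a * ((1 : F)) + (1 : F)))) + (c * (c * (c * ((-2 : F)) + (d * ((-1 : F)) + (2 : F))) + (d * (d * ((-1 : F)) + (5 : F)))) + (d * (d * ((3 : F)) + (-7 : F))))) + (c * (c * (c * ((-1 : F)) + (d * ((-1 : F)) + (1 : F))) + (d * (d * ((-1 : F)) + (3 : F)))) + (d * (d * ((1 : F)) + (-2 : F))))) + (a * (c * (c *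 (c * (c * ((-1 : F)) + (1 : F)))))))) + (d * (d * (b * (a * (a * (b * (a * ((1 : F)) + (b * ((-1 : F)) + (1 : F))) + (a * ((-2 : F)) + (-2 : F))) + (b * (b * ((1 : F)) + d) + (d * ((-1 : F)) + (-1 : F)))) + (b * (b * (d * ((-1 : F)) + (1 : F)) + (d * ((1 : F)) + (-1 : F))))) + (a * (a * (a * ((1 : F)) + (2 : F)) + (1 : F)))) - (a * b * b * b)))) + (c * (d * (a * (d * (a * (c * (c * ((1 : F)) + (-1 : F)) + (a * ((1 : F)) + (d * ((-1 : F)) + (1 : F)))) + (c * (c * ((-1 : F)) + (d * ((1 : F)) + (1 : F))) - (d))) + (c * (c * (c * (c * ((1 : F)) + (-1 : F)) - (a * a))))) + (c * (d * (c * (c * ((1 : F)) + (-2 : F)) + (1 : F)))))))) + (a * (b * (b * (c * (c * (c * (a * (b * (c * (a * ((-1 : F)) + (b * ((1 : F)) + (-2 : F))) + (a * ((1 : F)) + (b * ((-1 : F)) + (2 : F)))) + (a * (c * ((1 : F)) + (-1 : F)) + (c * ((1 : F)) + (-1 : F)))) + (b * (b * (c * ((1 : F)) + (-1 : F)) + (c * ((-1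 : F)) + (1 : F))))))))))))) / ((c + d) * (d - 1) * F3 * b * (b - 1) * (b - a) * F2) := by
    field_simp
    all_goals try simp only [hF2, hF3, hK]
    all_goals ring
  rw [← sub_eq_zero, e, key, mul_zero, zero_div]

theorem d5_mk_C1_3 (a b c d F2 F3 K : F)
    (hF2 : F2 = a * (d * (b * (c * ((-1 : F)) + (1 : F)) + (a * ((1 : F)) + (c * ((-1 : F)) + (d * ((-1 : F)) + (1 : F))))) + b * c) - (b * c * d))
    (hF3 : F3 = c * (d * (a * (b * ((-1 : F)) + (1 : F)) + (b * ((-1 : F)) + (c * ((-1 : F)) + (d * ((-1 : F)) + (1 : F))))) + a * b) + a * b * d)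
    (hK : K = d * (a * (c * ((-1 : F)) + (2 : F)) + (c * ((-2 : F)) + (d * ((-1 : F)) + (1 : F)))) + a * c)
    (n15 : (c + d) ≠ 0)
    (n20 : F2 ≠ 0)
    (n21 : F3 ≠ 0)
    (n2 : c ≠ 0) :
    ((c)) * ((b * c ^ 2 * (a * c + d) * K ^ 2) / ((c + d) * F2 * F3)) = ((c)) ^ 4 * ((b * (a * c + d) * K ^ 2) / ((c + d) * F2 * F3 * c)) := by
  field_simp
  all_goals try simp only [hF2, hF3, hK]
  all_goals ring

theorem d5_mk_U2_41 (a b c d F2 K : F)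
    (hF2 : F2 = a * (d * (b * (c * ((-1 : F)) + (1 : F)) + (a * ((1 : F)) + (c * ((-1 : F)) + (d * ((-1 : F)) + (1 : F))))) + b * c) - (b * c * d))
    (hK : K = d * (a * (c * ((-1 : F)) + (2 : F)) + (c * ((-2 : F)) + (d * ((-1 : F)) + (1 : F)))) + a * c)
    (n15 : (c + d) ≠ 0)
    (n20 : F2 ≠ 0)
    (n1 : b ≠ 0)
    (n4 : (a - 1) ≠ 0)
    (n0 : a ≠ 0)
    (r0 : a * (a * (b * (c * ((1 : F)) + (-1 : F)) - (c)) + (b * c + d)) + (d * (b * ((-1 : F)) + (c * ((-1 : F)) + (1 : F)))) = 0)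
    (r3 : d * (a * (a * (b * (b * ((1 : F)) + (d * ((-1 : F)) + (-1 : F))) + (c * ((-1 : F)) + d)) + (b * (d * ((-1 : F)) + (-1 : F)) + (d * ((1 : F)) + (-1 : F)))) + (b * (b * (c * ((1 : F)) + (1 : F)) + (-2 : F) * d) + (d * (d * ((1 : F)) + (1 : F)) + (c * ((1 : F)) + (-1 : F))))) + (a * (b * (a * (b * ((1 : F)) + (1 : F)) + (c * (b * ((-1 : F)) + (-1 : F)))) + a * c)) = 0) :
    ((d)) ^ 2 * (((a * c + d) * K) / ((c + d) * F2 * b)) = ((1 - (((-1) * a ^ 2 * c * d * (b - 1) * (b - a)) / ((a - 1) * F2 * b))) * (((d)) * ((a * (a * c + d)) / ((c + d)))) + (((-1) * a ^ 2 * c * d * (b - 1) * (b - a)) / ((a - 1) * F2 * b)) * (((d)) ^ 1 * (((a * c + d)) / ((c + d) * a ^ 2)))) := by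
  have key : (d * (a * (a * (b * (a * (c * ((1 : F)) + (-1 : F)) + (b * ((-1 : F)) + (c * ((3 : F)) + (d * ((1 : F)) + (-1 : F))))) + (c * (a * ((-1 : F)) + (-1 : F)))) + (c * (b * ((2 : F)) - (d)) + (2 : F) * d)) + (c * (b * (b * ((-1 : F)) + (1 : F)) + (-2 : F) * d) + (d * (d * ((-1 : F)) + (1 : F))))) - (a * a * b * b * c)) = 0 := by
    linear_combination (d * (a * ((1 : F)) + (2 : F)) + (b * ((-1 : F)) + (-1 : F))) * r0 + ((-1 : F)) * r3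
  have e : ((d)) ^ 2 * (((a * c + d) * K) / ((c + d) * F2 * b)) - ((1 - (((-1) * a ^ 2 * c * d * (b - 1) * (b - a)) / ((a - 1) * F2 * b))) * (((d)) * ((a * (a * c + d)) / ((c + d)))) + (((-1) * a ^ 2 * c * d * (b - 1) * (b - a)) / ((a - 1) * F2 * b)) * (((d)) ^ 1 * (((a * c + d)) / ((c + d) * a ^ 2)))) = (d * (a * c + d) * (d * (a * (a * (b * (a * (c * ((1 : F)) + (-1 : F)) + (b * ((-1 : F)) + (c * ((3 : F)) + (d * ((1 : F)) + (-1 : F))))) + (c * (a * ((-1 : F)) + (-1 : F)))) + (c * (b * ((2 : F)) - (d)) + (2 : F) * d)) + (c * (b * (b * ((-1 : F)) + (1 : F)) + (-2 : F) * d) + (d * (d * ((-1 : F)) + (1 : F))))) - (a * a * b * b * c))) / ((c + d) * b * F2) := by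
    field_simp
    all_goals try simp only [hF2, hK]
    all_goals ring
  rw [← sub_eq_zero, e, key, mul_zero, zero_div]

theorem d5_mk_U1_43 (a b c d F2 F3 K : F)
    (hF2 : F2 = a * (d * (b * (c * ((-1 : F)) + (1 : F)) + (a * ((1 : F)) + (c * ((-1 : F)) + (d * ((-1 : F)) + (1 : F))))) + b * c) - (b * c * d))
    (hF3 : F3 = c * (d * (a * (b * ((-1 : F)) + (1 : F)) + (b * ((-1 : F)) + (c * ((-1 : F)) + (d * ((-1 : F)) + (1 : F))))) + a * b) + a * b * d)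
    (hK : K = d * (a * (c * ((-1 : F)) + (2 : F)) + (c * ((-2 : F)) + (d * ((-1 : F)) + (1 : F)))) + a * c)
    (n14 : (a + 1) ≠ 0)
    (n15 : (c + d) ≠ 0)
    (n20 : F2 ≠ 0)
    (n21 : F3 ≠ 0)
    (n3 : d ≠ 0)
    (n6 : (c - 1) ≠ 0)
    (n9 : (c - a) ≠ 0)
    (n11 : (c - b) ≠ 0)
    (n2 : c ≠ 0)
    (r1 : d * (c * (a * (b * ((1 : F)) - (c)) + (b * (-(c)) + d)) + (d * (a * ((-1 : F)) + (b * ((-1 : F)) + d)))) + a * b * c * c = 0) :
    ((b * d * (a * c + d) ^ 2 * K ^ 2) / ((a + 1) * (c + d) * F2 * F3)) = ((1 - (1 - (((-1) * (d - a) * (d - b) * (d - c) * (a * c + a * d + d)) / (d ^ 2 * (c - 1) * (c - a) * (c - b) * (a + 1))))) * (((d)) * ((b * c ^ 2 * (a * c + d) * K ^ 2) / ((c + d) * F2 * F3))) + (1 - (((-1) * (d - a) * (d - b) * (d - c) * (a * c + a * d + d)) / (d ^ 2 * (c - 1) * (c - a) * (c - b) * (a + 1)))) * (((d)) ^ 3 * ((b * (a * c + d) * K ^ 2) / ((c + d) * F2 * F3 *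 c)))) := by
  have key : (d * (c * (a * (b * ((-1 : F)) + c) + (b * c - (d))) + (d * (a * ((1 : F)) + (b * ((1 : F)) - (d))))) - (a * b * c * c)) = 0 := by
    linear_combination ((-1 : F)) * r1
  have e : ((b * d * (a * c + d) ^ 2 * K ^ 2) / ((a + 1) * (c + d) * F2 * F3)) - ((1 - (1 - (((-1) * (d - a) * (d - b) * (d - c) * (a * c + a * d + d)) / (d ^ 2 * (c - 1) * (c - a) * (c - b) * (a + 1))))) * (((d)) * ((b * c ^ 2 * (a * c + d) * K ^ 2) / ((c + d) * F2 * F3))) + (1 - (((-1) * (d - a) * (d - b) * (d - c) * (a * c + a * d + d)) / (d ^ 2 * (c - 1) * (c - a) * (c - b) * (a + 1)))) * (((d)) ^ 3 * ((b * (a * c + d) * K ^ 2) / ((c + d) * F2 * F3 * c)))) = (b * (d - c) ^ 2 * (a * c + d) * (a * c + a * d + d) * K ^ 2 * (d * (c * (a * (b * ((-1 : F)) + c) + (b * c - (d))) + (d * (a * ((1 : F)) + (b * ((1 : F)) - (d))))) - (a * b * c * c))) / (d * (c + d) * (c - a) * (a + 1) * F3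 * (c - 1) * c * F2 * (c - b)) := by
    field_simp
    all_goals try simp only [hF2, hF3, hK]
    all_goals ring
  rw [← sub_eq_zero, e, key, mul_zero, zero_div]

theorem d5_mk_dt02 (a b c d : F)
    (n5 : (b - 1) ≠ 0) :
    ((b)) - ((1)) ≠ 0 := by
  have main : ((b)) - ((1)) = (((b - 1))) := by
    field_simp
    all_goals ring
  rw [main]
  (first | exact one_ne_zero | assumption | (refine div_ne_zero ?_ ?_ <;> (repeat' apply mul_ne_zero) <;> first | assumption | exact one_ne_zero | exact neg_ne_zero.2 one_ne_zero | (apply pow_ne_zero; assumption)) | ((repeat' apply mul_ne_zero) <;> first | assumption | exact one_ne_zero | exact neg_ne_zero.2 one_ne_zero | (apply pow_ne_zero; assumption)))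

theorem d5_mk_dt13 (a b c d : F)
    (n9 : (c - a) ≠ 0) :
    ((c)) - ((a)) ≠ 0 := by
  have main : ((c)) - ((a)) = (((c - a))) := by
    field_simp
    all_goals ring
  rw [main]
  (first | exact one_ne_zero | assumption | (refine div_ne_zero ?_ ?_ <;> (repeat' apply mul_ne_zero) <;> first | assumption | exact one_ne_zero | exact neg_ne_zero.2 one_ne_zero | (apply pow_ne_zero; assumption)) | ((repeat' apply mul_ne_zero) <;> first | assumption | exact one_ne_zero | exact neg_ne_zero.2 one_ne_zero | (apply pow_ne_zero; assumption)))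

theorem d5_mk_dt24 (a b c d : F)
    (n12 : (d - b) ≠ 0) :
    ((d)) - ((b)) ≠ 0 := by
  have main : ((d)) - ((b)) = (((d - b))) := by
    field_simp
    all_goals ring
  rw [main]
  (first | exact one_ne_zero | assumption | (refine div_ne_zero ?_ ?_ <;> (repeat' apply mul_ne_zero) <;> first | assumption | exact one_ne_zero | exact neg_ne_zero.2 one_ne_zero | (apply pow_ne_zero; assumption)) | ((repeat' apply mul_ne_zero) <;> first | assumption | exact one_ne_zero | exact neg_ne_zero.2 one_ne_zero | (apply pow_ne_zero; assumption)))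

theorem d5_mk_aN0 (a b c d : F)
    (n7 : (d - 1) ≠ 0)
    (n15 : (c + d) ≠ 0)
    (n0 : a ≠ 0)
    (n6 : (c - 1) ≠ 0)
    (n5 : (b - 1) ≠ 0)
    (n8 : (b - a) ≠ 0)
    (n9 : (c - a) ≠ 0)
    (n10 : (d - a) ≠ 0)
    (n16 : (a * c + d) ≠ 0)
    (r0 : a * (a * (b * (c * ((1 : F)) + (-1 : F)) - (c)) + (b * c + d)) + (d * (b * ((-1 : F)) + (c * ((-1 : F)) + (1 : F)))) = 0) :
    1 - (((a - 1) * (a * c + c + d)) / ((d - 1) * (c + d))) - ((d * (a - 1) * (a * c + a * d + d)) / (a ^ 2 * (d - 1) * (c + d))) ≠ 0 := by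
  have main : 1 - (((a - 1) * (a * c + c + d)) / ((d - 1) * (c + d))) - ((d * (a - 1) * (a * c + a * d + d)) / (a ^ 2 * (d - 1) * (c + d))) = (((b - a) * (c - a) * (d - a) * (a * c + d)) / (a ^ 2 * (b - 1) * (c - 1) * (d - 1) * (c + d))) := by
    have key : (a * (a * (b * (c * ((-1 : F)) + (1 : F)) + c) + (b * (-(c)) - (d))) + (d * (b * ((1 : F)) + (c * ((1 : F)) + (-1 : F))))) = 0 := by
      linear_combination ((-1 : F)) * r0
    have e : 1 - (((a - 1) * (a * c + c + d)) / ((d - 1) * (c + d))) - ((d * (a - 1) * (a * c + a * d + d)) / (a ^ 2 * (d - 1) * (c + d))) - (((b - a) * (c - a) * (d - a) * (a * c + d)) / (a ^ 2 * (b - 1) * (c - 1) * (d - 1) * (c + d))) = ((a - 1) * (a * c + d) * (a * (a * (b * (c * ((-1 : F)) + (1 : F)) + c) + (b * (-(c)) - (d))) + (d * (b * ((1 : F)) + (c * ((1 : F)) + (-1 : F)))))) / ((c + d) * (d - 1) * (c - 1) * (b - 1) * a ^ 2) := by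
      field_simp
      all_goals ring
    rw [← sub_eq_zero, e, key, mul_zero, zero_div]
  rw [main]
  (first | exact one_ne_zero | assumption | (refine div_ne_zero ?_ ?_ <;> (repeat' apply mul_ne_zero) <;> first | assumption | exact one_ne_zero | exact neg_ne_zero.2 one_ne_zero | (apply pow_ne_zero; assumption)) | ((repeat' apply mul_ne_zero) <;> first | assumption | exact one_ne_zero | exact neg_ne_zero.2 one_ne_zero | (apply pow_ne_zero; assumption)))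

end Pool.Agent.Helper54.IP
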