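import Pool.Agent.Helper54.IP.D5MkA
import Pool.Agent.Helper54.IP.D5MkB
import Pool.Agent.Helper54.IP.D5MkC

/-!
TH-P phase 2: construction of the closed corners of the family D5 (generated).
-/

namespace Pool.Agent.Helper54.IP

variable {F : Type*} [Field F]

set_option maxRecDepth 100000

theorem d5_mk_U1_22 (a b c d F2 F3 K : F)
    (hF2 : F2 = a * (d * (b * (c * ((-1 : F)) + (1 : F)) + (a * ((1 : F)) + (c * ((-1 : F)) + (d * ((-1 : F)) + (1 : F))))) + b * c) - (b * c * d))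
    (hF3 : F3 = c * (d * (a * (b * ((-1 : F)) + (1 : F)) + (b * ((-1 : F)) + (c * ((-1 : F)) + (d * ((-1 : F)) + (1 : F))))) + a * b) + a * b * d)
    (hK : K = d * (a * (c * ((-1 : F)) + (2 : F)) + (c * ((-2 : F)) + (d * ((-1 : F)) + (1 : F)))) + a * c)
    (n0 : a ≠ 0)
    (n1 : b ≠ 0)
    (n2 : c ≠ 0)
    (n3 : d ≠ 0)
    (n4 : (a - 1) ≠ 0)
    (n5 : (b - 1) ≠ 0)
    (n6 : (c - 1) ≠ 0)
    (n7 : (d - 1) ≠ 0)
    (n8 : (b - a) ≠ 0)
    (n9 : (c - a) ≠ 0)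
    (n10 : (d - a) ≠ 0)
    (n11 : (c - b) ≠ 0)
    (n12 : (d - b) ≠ 0)
    (n13 : (d - c) ≠ 0)
    (n14 : (a + 1) ≠ 0)
    (n15 : (c + d) ≠ 0)
    (n16 : (a * c + d) ≠ 0)
    (n17 : (a * c + c + d) ≠ 0)
    (n18 : (a * c + a * d + d) ≠ 0)
    (n19 : (a * d - b * c) ≠ 0)
    (n20 : F2 ≠ 0)
    (n21 : F3 ≠ 0)
    (n22 : K ≠ 0)
    (r0 : a * (a * (b * (c * ((1 : F)) + (-1 : F)) - (c)) + (b * c + d)) + (d * (b * ((-1 : F)) + (c * ((-1 : F)) + (1 : F)))) = 0)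
    (r1 : d * (c * (a * (b * ((1 : F)) - (c)) + (b * (-(c)) + d)) + (d * (a * ((-1 : F)) + (b * ((-1 : F)) + d)))) + a * b * c * c = 0)
    (r2 : d * (c * (a * (c * (a * ((1 : F)) + (d * ((1 : F)) + (1 : F))) + (d * (b * ((-1 : F)) + (-1 : F)) + (a * ((-1 : F)) + (1 : F)))) + (b * (c * (d * ((1 : F)) + (1 : F)) + (-1 : F)) + (d * (d * ((-1 : F)) + (-2 : F)) - (c)))) + (d * (a * (a * ((1 : F)) + (b * ((1 : F)) + (2 : F))) + (d * (b * ((1 : F)) + (d * ((-1 : F)) + (-1 : F))) + (1 : F))) + (a * (a * (-(b)) + (1 : F)) + (b * ((-1 : F)) + (1 : F))))) + (a * (a * (c * (c * ((-1 : F)) + (-1 : F)) - (b)) + b * c)) = 0)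
    (r3 : d * (a * (a * (b * (b * ((1 : F)) + (d * ((-1 : F)) + (-1 : F))) + (c * ((-1 : F)) + d)) + (b * (d * ((-1 : F)) + (-1 : F)) + (d * ((1 : F)) + (-1 : F)))) + (b * (b * (c * ((1 : F)) + (1 : F)) + (-2 : F) * d) + (d * (d * ((1 : F)) + (1 : F)) + (c * ((1 : F)) + (-1 : F))))) + (a * (b * (a * (b * ((1 : F)) + (1 : F)) + (c * (b * ((-1 : F)) + (-1 : F)))) + a * c)) = 0)
    (r4 : d * (c * (b * (c * (b * ((-1 : F)) + (d * ((-1 : F)) + (1 : F))) + (a * (b * ((1 : F)) + d) + (d * ((1 : F)) + (1 : F)))) + (c * (a * (d * ((-1 : F)) + (1 : F)) + (-1 : F)) + (d * (d * ((1 : F)) + (-1 : F))))) + (d * (d * (a * ((-1 : F)) + (d * ((1 : F)) + (-1 : F))) + (b * (b * ((-1 : F)) + (2 : F)) + (-1 : F))) - (a * b * b))) + (b * (c * (c * (b * ((-1 : F)) + (1 : F))))) = 0)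
    (r5 : d * (d * (c * (b * (c * (c * ((1 : F)) + (d * ((-1 : F)) + (-1 : F))) + (a * (d * ((1 : F)) + (-1 : F)) + (b * ((1 : F)) + (-4 : F)))) + (c * (a * (c * ((1 : F)) - (d)) + (d * ((-1 : F)) + (2 : F))) + (d * (a * ((1 : F)) + (1 : F)) + (2 : F)))) + (d * (a * (b * ((-1 : F)) + (d * ((-1 : F)) + (1 : F))) + (b * (d * ((-1 : F)) + (-2 : F)) + (d * d + (2 : F)))) + (b * (b * (a * ((1 : F)) + (1 : F)) + (-2 : F)) + (1 : F)))) + (c * (c * (b * (b * (c * ((1 : F)) + (2 : F)) + (c * ((-1 : F)) + (-3 : F))) + (a * (c * ((-1 : F)) + (-1 : F)) + (c * ((1 : F)) + (1 : F)))) - (b)) + a * b * b)) + (b * (c * (c * (b * (c * ((1 : F)) + (1 : F)) + (c * ((-1 : F)) + (-1 : F)))))) = 0) :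
    (((c * (a * (b * (c * ((1 : F)) + (-1 : F)) + (c * ((-1 : F)) + d)) + (c * (b * ((1 : F)) + (-1 : F)))) + (d * (b * ((-1 : F)) + d))) * b * K) / ((c + d) * F2 * (d - 1))) = ((1 - (1 - ((d * (c - 1) * (c - a) * (c - b)) / ((b - 1) * (b - a) * F3)))) * (((b)) * (((d * (a * (b * (a * (c * (b * (a * (b * (a * ((1 : F)) + (b * ((-1 : F)) + (3 : F))) + (a * ((-2 : F)) + (c * ((1 : F)) + (d * ((1 : F)) + (-5 : F))))) + (b * (b * ((-1 : F)) + (2 : F)) + (c * (d * ((-1 : F)) + (2 : F)) + (d * ((3 : F)) + (-1 : F))))) + (d * (a * (c * ((-1 : F)) + (d * ((-1 : F)) + (5 : F))) + (c * ((-1 : F)) + (d * ((-2 : F)) + (-2 : F)))) + (c * (a * ((2 : F)) + (-1 : F))))) + (d * (b * (b * (a * ((1 : F)) + (b * ((-1 : F)) + (2 : F))) + (a * ((-3 : F)) + (d * ((1 : F)) + (-1 : F)))) + (a * (a * ((-1 : F)) + (2 : F) * d) - (d))))) + (d * (b * (c * (b * ((-1 : F)) + (c * ((-1 : F)) + (d * ((-1 : F)) + (3 : F)))) + (d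 * (b * ((-1 : F)) + (4 : F)))) + (c * (c * ((1 : F)) + (-2 : F)) + (d * (d * ((-1 : F)) + (-3 : F))))))) + (d * (a * (a * (d * (a * ((1 : F)) + (c * ((-2 : F)) + (d * ((-1 : F)) + (1 : F)))) + (c * (a * ((1 : F)) - (c)))) + (c * (c * ((1 : F)) + d))) + (d * (c * ((1 : F)) + d))))) + (b * (d * (d * (b * (b * ((-1 : F)) + (c * ((-1 : F)) + (2 : F))) + (c * ((1 : F)) + (-1 : F))))))) - (a * a * a * b * b * c * c))) / ((c + d) * a ^ 2 * F2 * (d - 1)))) + (1 - ((d * (c - 1) * (c - a) * (c - b)) / ((b - 1) * (b - a) * F3))) * (((b)) ^ 2 * (((b * (d * (a * (b * (c * (a * (a * (b * (a * (c * ((-1 : F)) + (1 : F)) + (b * ((1 : F)) + (c * ((-3 : F)) + (-2 : F) * d))) + (a * (c * ((2 : F)) + (-1 : F)) + (c * ((4 : F)) + (d * ((3 : F)) + (-1 : F))))) + (b * (b * ((1 : F)) + (c * ((-1 : F)) + (d * ((-2 : F)) + (-2 : F)))) + (d * (c * ((-1 : F)) + (d * ((-1 : F)) + (3 : F))) + c))) + (b * (b * (c * ((1 : F))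 + (-2 : F)) + (c * ((2 : F)) + (d * ((5 : F)) + (-1 : F)))) + (d * (c * ((-3 : F)) + (d * ((-5 : F)) + (1 : F)))))) + (d * (a * (b * (a * ((1 : F)) + (b * ((1 : F)) + (d * ((-1 : F)) + (-1 : F)))) + (a * ((-1 : F)) + (d * ((2 : F)) + (-1 : F)))) + (b * (b * ((-1 : F)) + (d * ((2 : F)) + (-1 : F))) + (d * (d * ((-1 : F)) + (1 : F))))))) + (c * (a * (a * (c * (a * ((-1 : F)) + (-1 : F)) - (d)) + (d * (c * ((2 : F)) + (2 : F) * d))) + (d * (c * ((1 : F)) + (3 : F) * d))))) + (c * (b * (b * (b * (c * ((1 : F)) + d) - (c * d)) + (-2 : F) * d * d) + d * d))) + (a * (b * (b * (c * (c * (a * (a * (b * ((1 : F)) + (-1 : F))) - (b)))))))) + (a * (c * (d * (d * (a * (c * ((-1 : F)) - (d)) - (d)))))))) / ((c + d) * F2 * (d - 1) * b ^ 3)))) := by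
  have hMK := d5_mk_MK a b c d F2 F3 hF2 hF3 n15 n0 n20 n7 n1 n6 n9 r0 r1 r2 r3 r4 r5
  have hMB := d5_mk_MB a b c d F2 F3 K hF2 hF3 hK n15 n0 n20 n7 n2 n1 n5 n8 n21 n6 n9 r0 r1 r2 r3 r4 r5
  have hMD := d5_mk_MD a b c d F2 F3 K hF2 hF3 hK n15 n20 n7 n2 n1 n5 n8 n12 n21 n6 n9
  have hMN := d5_mk_MN a b c d F3 K hF3 hK n5 n8 n21 n2 n12 r0 r1 r2 r3 r4 r5
  generalize (((d * (a * (b * (a * (c * (b * (a * (b * (a * ((1 : F)) + (b * ((-1 : F)) + (3 : F))) + (a * ((-2 : F)) + (c * ((1 : F)) + (d * ((1 : F)) + (-5 : F))))) + (b * (b * ((-1 : F)) + (2 : F)) + (c * (d * ((-1 : F)) + (2 : F)) + (d * ((3 : F)) + (-1 : F))))) + (d * (a * (c * ((-1 : F)) + (d * ((-1 : F)) + (5 : F))) + (c * ((-1 : F)) + (d * ((-2 : F)) + (-2 : F)))) + (c * (a * ((2 : F)) + (-1 : F))))) + (d * (b * (b * (a * ((1 : F)) + (b * ((-1 : F)) + (2 : F))) + (a * ((-3 : F)) + (d * ((1 : F)) + (-1 : F)))) + (a * (a * ((-1 : F)) + (2 :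 F) * d) - (d))))) + (d * (b * (c * (b * ((-1 : F)) + (c * ((-1 : F)) + (d * ((-1 : F)) + (3 : F)))) + (d * (b * ((-1 : F)) + (4 : F)))) + (c * (c * ((1 : F)) + (-2 : F)) + (d * (d * ((-1 : F)) + (-3 : F))))))) + (d * (a * (a * (d * (a * ((1 : F)) + (c * ((-2 : F)) + (d * ((-1 : F)) + (1 : F)))) + (c * (a * ((1 : F)) - (c)))) + (c * (c * ((1 : F)) + d))) + (d * (c * ((1 : F)) + d))))) + (b * (d * (d * (b * (b * ((-1 : F)) + (c * ((-1 : F)) + (2 : F))) + (c * ((1 : F)) + (-1 : F))))))) - (a * a * a * b * b * c * c))) / ((c + d) * a ^ 2 * F2 * (d - 1))) = gj at *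
  generalize (((b * (d * (a * (b * (c * (a * (a * (b * (a * (c * ((-1 : F)) + (1 : F)) + (b * ((1 : F)) + (c * ((-3 : F)) + (-2 : F) * d))) + (a * (c * ((2 : F)) + (-1 : F)) + (c * ((4 : F)) + (d * ((3 : F)) + (-1 : F))))) + (b * (b * ((1 : F)) + (c * ((-1 : F)) + (d * ((-2 : F)) + (-2 : F)))) + (d * (c * ((-1 : F)) + (d * ((-1 : F)) + (3 : F))) + c))) + (b * (b * (c * ((1 : F)) + (-2 : F)) + (c * ((2 : F)) + (d * ((5 : F)) + (-1 : F)))) + (d * (c * ((-3 : F)) + (d * ((-5 : F)) + (1 : F)))))) + (d * (a * (b * (a * ((1 : F)) + (b * ((1 : F)) + (d * ((-1 : F)) + (-1 : F)))) + (a * ((-1 : F)) + (d * ((2 : F)) + (-1 : F)))) + (b * (b * ((-1 : F)) + (d * ((2 : F)) + (-1 : F))) + (d * (d * ((-1 : F)) + (1 : F))))))) + (c * (a * (a * (c * (a * ((-1 : F)) + (-1 : F)) - (d)) + (d * (c * ((2 : F)) + (2 : F) * d))) + (d * (c * ((1 : F)) + (3 : F) * d))))) + (c * (b * (b * (b * (c * ((1 : F)) + d) - (c * d))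 + (-2 : F) * d * d) + d * d))) + (a * (b * (b * (c * (c * (a * (a * (b * ((1 : F)) + (-1 : F))) - (b)))))))) + (a * (c * (d * (d * (a * (c * ((-1 : F)) - (d)) - (d)))))))) / ((c + d) * F2 * (d - 1) * b ^ 3)) = hj at *
  generalize (((c * (a * (b * (c * ((1 : F)) + (-1 : F)) + (c * ((-1 : F)) + d)) + (c * (b * ((1 : F)) + (-1 : F)))) + (d * (b * ((-1 : F)) + d))) * b * K) / ((c + d) * F2 * (d - 1))) = g1 at *
  generalize (((d * (d * (a * (b * ((1 : F)) + (-1 : F)) + (b * ((1 : F)) + (c * ((1 : F)) + (-1 : F)))) + (c * (a * c - (b)))) - (a * b * c * c)) * K) / ((c + d) * F2 * c * (d - 1) * b)) = h1 at *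
  generalize ((d * (c - 1) * (c - a) * (c - b)) / ((b - 1) * (b - a) * F3)) = ll at *
  generalize ((a * b ^ 2 * d * (c - 1) * (c - a) * (c - b)) / ((b - 1) * (b - a) * F3 * c)) = mm at *
  generalize ((b ^ 2 * (c - 1) * (c - a) * (d - c) * K) / (c * (b - 1) * (b - a) * (d - b) * F3)) = nn at *
  generalize (((c * (a * (b * ((1 : F)) + c) + (c * ((1 : F)) + d)) + (b * (d * (a * ((1 : F)) + (1 : F))))) * (b - 1) ^ 2 * (b - a) * (d - b) * F3) / (b * (c - 1) * (d - 1) * (c - a) * (c + d) * F2)) = kk at *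
  linear_combination hMD - hMB + (1 - ll) * hMK + kk * hMN

theorem d5_mk_U2_22 (a b c d F2 F3 K : F)
    (hF2 : F2 = a * (d * (b * (c * ((-1 : F)) + (1 : F)) + (a * ((1 : F)) + (c * ((-1 : F)) + (d * ((-1 : F)) + (1 : F))))) + b * c) - (b * c * d))
    (hF3 : F3 = c * (d * (a * (b * ((-1 : F)) + (1 : F)) + (b * ((-1 : F)) + (c * ((-1 : F)) + (d * ((-1 : F)) + (1 : F))))) + a * b) + a * b * d)
    (hK : K = d * (a * (c * ((-1 : F)) + (2 : F)) + (c * ((-2 : F)) + (d * ((-1 : F)) + (1 : F)))) + a * c)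
    (n0 : a ≠ 0)
    (n1 : b ≠ 0)
    (n2 : c ≠ 0)
    (n3 : d ≠ 0)
    (n4 : (a - 1) ≠ 0)
    (n5 : (b - 1) ≠ 0)
    (n6 : (c - 1) ≠ 0)
    (n7 : (d - 1) ≠ 0)
    (n8 : (b - a) ≠ 0)
    (n9 : (c - a) ≠ 0)
    (n10 : (d - a) ≠ 0)
    (n11 : (c - b) ≠ 0)
    (n12 : (d - b) ≠ 0)
    (n13 : (d - c) ≠ 0)
    (n14 : (a + 1) ≠ 0)
    (n15 : (c + d) ≠ 0)
    (n16 : (a * c + d) ≠ 0)
    (n17 : (a * c + c + d) ≠ 0)
    (n18 : (a * c + a * d + d) ≠ 0)
    (n19 : (a * d - b * c) ≠ 0)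
    (n20 : F2 ≠ 0)
    (n21 : F3 ≠ 0)
    (n22 : K ≠ 0)
    (r0 : a * (a * (b * (c * ((1 : F)) + (-1 : F)) - (c)) + (b * c + d)) + (d * (b * ((-1 : F)) + (c * ((-1 : F)) + (1 : F)))) = 0)
    (r1 : d * (c * (a * (b * ((1 : F)) - (c)) + (b * (-(c)) + d)) + (d * (a * ((-1 : F)) + (b * ((-1 : F)) + d)))) + a * b * c * c = 0)
    (r2 : d * (c * (a * (c * (a * ((1 : F)) + (d * ((1 : F)) + (1 : F))) + (d * (b * ((-1 : F)) + (-1 : F)) + (a * ((-1 : F)) + (1 : F)))) + (b * (c * (d * ((1 : F)) + (1 : F)) + (-1 : F)) + (d * (d * ((-1 : F)) + (-2 : F)) - (c)))) + (d * (a * (a * ((1 : F)) + (b * ((1 : F)) + (2 : F))) + (d * (b * ((1 : F)) + (d * ((-1 : F)) + (-1 : F))) + (1 : F))) + (a * (a * (-(b)) + (1 : F)) + (b * ((-1 : F)) + (1 : F))))) + (a * (a * (c * (c * ((-1 : F)) + (-1 : F)) - (b)) + b * c)) = 0)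
    (r3 : d * (a * (a * (b * (b * ((1 : F)) + (d * ((-1 : F)) + (-1 : F))) + (c * ((-1 : F)) + d)) + (b * (d * ((-1 : F)) + (-1 : F)) + (d * ((1 : F)) + (-1 : F)))) + (b * (b * (c * ((1 : F)) + (1 : F)) + (-2 : F) * d) + (d * (d * ((1 : F)) + (1 : F)) + (c * ((1 : F)) + (-1 : F))))) + (a * (b * (a * (b * ((1 : F)) + (1 : F)) + (c * (b * ((-1 : F)) + (-1 : F)))) + a * c)) = 0)
    (r4 : d * (c * (b * (c * (b * ((-1 : F)) + (d * ((-1 : F)) + (1 : F))) + (a * (b * ((1 : F)) + d) + (d * ((1 : F)) + (1 : F)))) + (c * (a * (d * ((-1 : F)) + (1 : F)) + (-1 : F)) + (d * (d * ((1 : F)) + (-1 : F))))) + (d * (d * (a * ((-1 : F)) + (d * ((1 : F)) + (-1 : F))) + (b * (b * ((-1 : F)) + (2 : F)) + (-1 : F))) - (a * b * b))) + (b * (c * (c * (b * ((-1 : F)) + (1 : F))))) = 0)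
    (r5 : d * (d * (c * (b * (c * (c * ((1 : F)) + (d * ((-1 : F)) + (-1 : F))) + (a * (d * ((1 : F)) + (-1 : F)) + (b * ((1 : F)) + (-4 : F)))) + (c * (a * (c * ((1 : F)) - (d)) + (d * ((-1 : F)) + (2 : F))) + (d * (a * ((1 : F)) + (1 : F)) + (2 : F)))) + (d * (a * (b * ((-1 : F)) + (d * ((-1 : F)) + (1 : F))) + (b * (d * ((-1 : F)) + (-2 : F)) + (d * d + (2 : F)))) + (b * (b * (a * ((1 : F)) + (1 : F)) + (-2 : F)) + (1 : F)))) + (c * (c * (b * (b * (c * ((1 : F)) + (2 : F)) + (c * ((-1 : F)) + (-3 : F))) + (a * (c * ((-1 : F)) + (-1 : F)) + (c * ((1 : F)) + (1 : F)))) - (b)) + a * b * b)) + (b * (c * (c * (b * (c * ((1 : F)) + (1 : F)) + (c * ((-1 : F)) + (-1 : F)))))) = 0) :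
    ((b)) ^ 3 * (((d * (d * (a * (b * ((1 : F)) + (-1 : F)) + (b * ((1 : F)) + (c * ((1 : F)) + (-1 : F)))) + (c * (a * c - (b)))) - (a * b * c * c)) * K) / ((c + d) * F2 * c * (d - 1) * b)) = ((1 - ((a * b ^ 2 * d * (c - 1) * (c - a) * (c - b)) / ((b - 1) * (b - a) * F3 * c))) * (((b)) * (((d * (a * (b * (a * (c * (b * (a * (b * (a * ((1 : F)) + (b * ((-1 : F)) + (3 : F))) + (a * ((-2 : F)) + (c * ((1 : F)) + (d * ((1 : F)) + (-5 : F))))) + (b * (b * ((-1 : F)) + (2 : F)) + (c * (d * ((-1 : F)) + (2 : F)) + (d * ((3 : F)) + (-1 : F))))) + (d * (a * (c * ((-1 : F)) + (d * ((-1 : F)) + (5 : F))) + (c * ((-1 : F)) + (d * ((-2 : F)) + (-2 : F)))) + (c * (a * ((2 : F)) + (-1 : F))))) + (d * (b * (b * (a * ((1 : F)) + (b * ((-1 : F)) + (2 : F))) + (a * ((-3 : F)) + (d * ((1 : F)) + (-1 : F)))) + (a * (a * ((-1 : F)) + (2 : F) * d) - (d))))) + (d * (b * (c * (b * ((-1 : F)) + (c * ((-1 : F)) + (d * ((-1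 : F)) + (3 : F)))) + (d * (b * ((-1 : F)) + (4 : F)))) + (c * (c * ((1 : F)) + (-2 : F)) + (d * (d * ((-1 : F)) + (-3 : F))))))) + (d * (a * (a * (d * (a * ((1 : F)) + (c * ((-2 : F)) + (d * ((-1 : F)) + (1 : F)))) + (c * (a * ((1 : F)) - (c)))) + (c * (c * ((1 : F)) + d))) + (d * (c * ((1 : F)) + d))))) + (b * (d * (d * (b * (b * ((-1 : F)) + (c * ((-1 : F)) + (2 : F))) + (c * ((1 : F)) + (-1 : F))))))) - (a * a * a * b * b * c * c))) / ((c + d) * a ^ 2 * F2 * (d - 1)))) + ((a * b ^ 2 * d * (c - 1) * (c - a) * (c - b)) / ((b - 1) * (b - a) * F3 * c)) * (((b)) ^ 2 * (((b * (d * (a * (b * (c * (a * (a * (b * (a * (c * ((-1 : F)) + (1 : F)) + (b * ((1 : F)) + (c * ((-3 : F)) + (-2 : F) * d))) + (a * (c * ((2 : F)) + (-1 : F)) + (c * ((4 : F)) + (d * ((3 : F)) + (-1 : F))))) + (b * (b * ((1 : F)) + (c * ((-1 : F)) + (d * ((-2 : F)) + (-2 : F)))) + (d * (c * ((-1 : F)) + (d * ((-1 : F)) + (3 : F)))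 + c))) + (b * (b * (c * ((1 : F)) + (-2 : F)) + (c * ((2 : F)) + (d * ((5 : F)) + (-1 : F)))) + (d * (c * ((-3 : F)) + (d * ((-5 : F)) + (1 : F)))))) + (d * (a * (b * (a * ((1 : F)) + (b * ((1 : F)) + (d * ((-1 : F)) + (-1 : F)))) + (a * ((-1 : F)) + (d * ((2 : F)) + (-1 : F)))) + (b * (b * ((-1 : F)) + (d * ((2 : F)) + (-1 : F))) + (d * (d * ((-1 : F)) + (1 : F))))))) + (c * (a * (a * (c * (a * ((-1 : F)) + (-1 : F)) - (d)) + (d * (c * ((2 : F)) + (2 : F) * d))) + (d * (c * ((1 : F)) + (3 : F) * d))))) + (c * (b * (b * (b * (c * ((1 : F)) + d) - (c * d)) + (-2 : F) * d * d) + d * d))) + (a * (b * (b * (c * (c * (a * (a * (b * ((1 : F)) + (-1 : F))) - (b)))))))) + (a * (c * (d * (d * (a * (c * ((-1 : F)) - (d)) - (d)))))))) / ((c + d) * F2 * (d - 1) * b ^ 3)))) := by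
  have hMK := d5_mk_MK a b c d F2 F3 hF2 hF3 n15 n0 n20 n7 n1 n6 n9 r0 r1 r2 r3 r4 r5
  have hMB := d5_mk_MB a b c d F2 F3 K hF2 hF3 hK n15 n0 n20 n7 n2 n1 n5 n8 n21 n6 n9 r0 r1 r2 r3 r4 r5
  have hMD := d5_mk_MD a b c d F2 F3 K hF2 hF3 hK n15 n20 n7 n2 n1 n5 n8 n12 n21 n6 n9
  have hMN := d5_mk_MN a b c d F3 K hF3 hK n5 n8 n21 n2 n12 r0 r1 r2 r3 r4 r5
  generalize (((d * (a * (b * (a * (c * (b * (a * (b * (a * ((1 : F)) + (b * ((-1 : F)) + (3 : F))) + (a * ((-2 : F)) + (c * ((1 : F)) + (d * ((1 : F)) + (-5 : F))))) + (b * (b * ((-1 : F)) + (2 : F)) + (c * (d * ((-1 : F)) + (2 : F)) + (d * ((3 : F)) + (-1 : F))))) + (d * (a * (c * ((-1 : F)) + (d * ((-1 : F)) + (5 : F))) + (c * ((-1 : F)) + (d * ((-2 : F)) + (-2 : F)))) + (c * (a * ((2 : F)) + (-1 : F))))) + (d * (b * (b * (a * ((1 : F)) + (b * ((-1 : F)) + (2 : F))) + (a * ((-3 : F)) + (d * ((1 : F)) + (-1 : F)))) + (a * (a * ((-1 : F)) + (2 :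 F) * d) - (d))))) + (d * (b * (c * (b * ((-1 : F)) + (c * ((-1 : F)) + (d * ((-1 : F)) + (3 : F)))) + (d * (b * ((-1 : F)) + (4 : F)))) + (c * (c * ((1 : F)) + (-2 : F)) + (d * (d * ((-1 : F)) + (-3 : F))))))) + (d * (a * (a * (d * (a * ((1 : F)) + (c * ((-2 : F)) + (d * ((-1 : F)) + (1 : F)))) + (c * (a * ((1 : F)) - (c)))) + (c * (c * ((1 : F)) + d))) + (d * (c * ((1 : F)) + d))))) + (b * (d * (d * (b * (b * ((-1 : F)) + (c * ((-1 : F)) + (2 : F))) + (c * ((1 : F)) + (-1 : F))))))) - (a * a * a * b * b * c * c))) / ((c + d) * a ^ 2 * F2 * (d - 1))) = gj at *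
  generalize (((b * (d * (a * (b * (c * (a * (a * (b * (a * (c * ((-1 : F)) + (1 : F)) + (b * ((1 : F)) + (c * ((-3 : F)) + (-2 : F) * d))) + (a * (c * ((2 : F)) + (-1 : F)) + (c * ((4 : F)) + (d * ((3 : F)) + (-1 : F))))) + (b * (b * ((1 : F)) + (c * ((-1 : F)) + (d * ((-2 : F)) + (-2 : F)))) + (d * (c * ((-1 : F)) + (d * ((-1 : F)) + (3 : F))) + c))) + (b * (b * (c * ((1 : F)) + (-2 : F)) + (c * ((2 : F)) + (d * ((5 : F)) + (-1 : F)))) + (d * (c * ((-3 : F)) + (d * ((-5 : F)) + (1 : F)))))) + (d * (a * (b * (a * ((1 : F)) + (b * ((1 : F)) + (d * ((-1 : F)) + (-1 : F)))) + (a * ((-1 : F)) + (d * ((2 : F)) + (-1 : F)))) + (b * (b * ((-1 : F)) + (d * ((2 : F)) + (-1 : F))) + (d * (d * ((-1 : F)) + (1 : F))))))) + (c * (a * (a * (c * (a * ((-1 : F)) + (-1 : F)) - (d)) + (d * (c * ((2 : F)) + (2 : F) * d))) + (d * (c * ((1 : F)) + (3 : F) * d))))) + (c * (b * (b * (b * (c * ((1 : F)) + d) - (c * d))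 + (-2 : F) * d * d) + d * d))) + (a * (b * (b * (c * (c * (a * (a * (b * ((1 : F)) + (-1 : F))) - (b)))))))) + (a * (c * (d * (d * (a * (c * ((-1 : F)) - (d)) - (d)))))))) / ((c + d) * F2 * (d - 1) * b ^ 3)) = hj at *
  generalize (((c * (a * (b * (c * ((1 : F)) + (-1 : F)) + (c * ((-1 : F)) + d)) + (c * (b * ((1 : F)) + (-1 : F)))) + (d * (b * ((-1 : F)) + d))) * b * K) / ((c + d) * F2 * (d - 1))) = g1 at *
  generalize (((d * (d * (a * (b * ((1 : F)) + (-1 : F)) + (b * ((1 : F)) + (c * ((1 : F)) + (-1 : F)))) + (c * (a * c - (b)))) - (a * b * c * c)) * K) / ((c + d) * F2 * c * (d - 1) * b)) = h1 at *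
  generalize ((d * (c - 1) * (c - a) * (c - b)) / ((b - 1) * (b - a) * F3)) = ll at *
  generalize ((a * b ^ 2 * d * (c - 1) * (c - a) * (c - b)) / ((b - 1) * (b - a) * F3 * c)) = mm at *
  generalize ((b ^ 2 * (c - 1) * (c - a) * (d - c) * K) / (c * (b - 1) * (b - a) * (d - b) * F3)) = nn at *
  generalize (((c * (a * (b * ((1 : F)) + c) + (c * ((1 : F)) + d)) + (b * (d * (a * ((1 : F)) + (1 : F))))) * (b - 1) ^ 2 * (b - a) * (d - b) * F3) / (b * (c - 1) * (d - 1) * (c - a) * (c + d) * F2)) = kk at *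
  linear_combination -hMB + mm * hMK

theorem d5_mk (a b c d F2 F3 K : F)
    (hF2 : F2 = a * (d * (b * (c * ((-1 : F)) + (1 : F)) + (a * ((1 : F)) + (c * ((-1 : F)) + (d * ((-1 : F)) + (1 : F))))) + b * c) - (b * c * d))
    (hF3 : F3 = c * (d * (a * (b * ((-1 : F)) + (1 : F)) + (b * ((-1 : F)) + (c * ((-1 : F)) + (d * ((-1 : F)) + (1 : F))))) + a * b) + a * b * d)
    (hK : K = d * (a * (c * ((-1 : F)) + (2 : F)) + (c * ((-2 : F)) + (d * ((-1 : F)) + (1 : F)))) + a * c)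
    (n0 : a ≠ 0)
    (n1 : b ≠ 0)
    (n2 : c ≠ 0)
    (n3 : d ≠ 0)
    (n4 : (a - 1) ≠ 0)
    (n5 : (b - 1) ≠ 0)
    (n6 : (c - 1) ≠ 0)
    (n7 : (d - 1) ≠ 0)
    (n8 : (b - a) ≠ 0)
    (n9 : (c - a) ≠ 0)
    (n10 : (d - a) ≠ 0)
    (n11 : (c - b) ≠ 0)
    (n12 : (d - b) ≠ 0)
    (n13 : (d - c) ≠ 0)
    (n14 : (a + 1) ≠ 0)
    (n15 : (c + d) ≠ 0)
    (n16 : (a * c + d) ≠ 0)
    (n17 : (a * c + c + d) ≠ 0)
    (n18 : (a * c + a * d + d) ≠ 0)
    (n19 : (a * d - b * c) ≠ 0)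
    (n20 : F2 ≠ 0)
    (n21 : F3 ≠ 0)
    (n22 : K ≠ 0)
    (r0 : a * (a * (b * (c * ((1 : F)) + (-1 : F)) - (c)) + (b * c + d)) + (d * (b * ((-1 : F)) + (c * ((-1 : F)) + (1 : F)))) = 0)
    (r1 : d * (c * (a * (b * ((1 : F)) - (c)) + (b * (-(c)) + d)) + (d * (a * ((-1 : F)) + (b * ((-1 : F)) + d)))) + a * b * c * c = 0)
    (r2 : d * (c * (a * (c * (a * ((1 : F)) + (d * ((1 : F)) + (1 : F))) + (d * (b * ((-1 : F)) + (-1 : F)) + (a * ((-1 : F)) + (1 : F)))) + (b * (c * (d * ((1 : F)) + (1 : F)) + (-1 : F)) + (d * (d * ((-1 : F)) + (-2 : F)) - (c)))) + (d * (a * (a * ((1 : F)) + (b * ((1 : F)) + (2 : F))) + (d * (b * ((1 : F)) + (d * ((-1 : F)) + (-1 : F))) + (1 : F))) + (a * (a * (-(b)) + (1 : F)) + (b * ((-1 : F)) + (1 : F))))) + (a * (a * (c * (c * ((-1 : F)) + (-1 : F)) - (b)) + b * c)) = 0)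
    (r3 : d * (a * (a * (b * (b * ((1 : F)) + (d * ((-1 : F)) + (-1 : F))) + (c * ((-1 : F)) + d)) + (b * (d * ((-1 : F)) + (-1 : F)) + (d * ((1 : F)) + (-1 : F)))) + (b * (b * (c * ((1 : F)) + (1 : F)) + (-2 : F) * d) + (d * (d * ((1 : F)) + (1 : F)) + (c * ((1 : F)) + (-1 : F))))) + (a * (b * (a * (b * ((1 : F)) + (1 : F)) + (c * (b * ((-1 : F)) + (-1 : F)))) + a * c)) = 0)
    (r4 : d * (c * (b * (c * (b * ((-1 : F)) + (d * ((-1 : F)) + (1 : F))) + (a * (b * ((1 : F)) + d) + (d * ((1 : F)) + (1 : F)))) + (c * (a * (d * ((-1 : F)) + (1 : F)) + (-1 : F)) + (d * (d * ((1 : F)) + (-1 : F))))) + (d * (d * (a * ((-1 : F)) + (d * ((1 : F)) + (-1 : F))) + (b * (b * ((-1 : F)) + (2 : F)) + (-1 : F))) - (a * b * b))) + (b * (c * (c * (b * ((-1 : F)) + (1 : F))))) = 0)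
    (r5 : d * (d * (c * (b * (c * (c * ((1 : F)) + (d * ((-1 : F)) + (-1 : F))) + (a * (d * ((1 : F)) + (-1 : F)) + (b * ((1 : F)) + (-4 : F)))) + (c * (a * (c * ((1 : F)) - (d)) + (d * ((-1 : F)) + (2 : F))) + (d * (a * ((1 : F)) + (1 : F)) + (2 : F)))) + (d * (a * (b * ((-1 : F)) + (d * ((-1 : F)) + (1 : F))) + (b * (d * ((-1 : F)) + (-2 : F)) + (d * d + (2 : F)))) + (b * (b * (a * ((1 : F)) + (1 : F)) + (-2 : F)) + (1 : F)))) + (c * (c * (b * (b * (c * ((1 : F)) + (2 : F)) + (c * ((-1 : F)) + (-3 : F))) + (a * (c * ((-1 : F)) + (-1 : F)) + (c * ((1 : F)) + (1 : F)))) - (b)) + a * b * b)) + (b * (c * (c * (b * (c * ((1 : F)) + (1 : F)) + (c * ((-1 : F)) + (-1 : F)))))) = 0) :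
    ∃ g : GForm F 4, g.Closed ∧
      g.t = sq5 (((1))) (((a))) (((b))) (((c))) (((d))) ∧
      g.s = sq5 (((1))) (((a))) (((b))) (((c))) (((d))) ∧
      g.lam = fun k => 1 - sq4 ((((a - 1) * (a * c + c + d)) / ((d - 1) * (c + d)))) ((((-1) * d * (b - 1) * (b - a)) / ((a - 1) * F2))) (((d * (c - 1) * (c - a) * (c - b)) / ((b - 1) * (b - a) * F3))) ((((-1) * (d - a) * (d - b) * (d - c) * (a * c + a * d + d)) / (d ^ 2 * (c - 1) * (c - a) * (c - b) * (a + 1)))) k := by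
  have aL0 : (((a - 1) * (a * c + c + d)) / ((d - 1) * (c + d))) ≠ 0 := by (first | exact one_ne_zero | assumption | (refine div_ne_zero ?_ ?_ <;> (repeat' apply mul_ne_zero) <;> first | assumption | exact one_ne_zero | exact neg_ne_zero.2 one_ne_zero | (apply pow_ne_zero; assumption)) | ((repeat' apply mul_ne_zero) <;> first | assumption | exact one_ne_zero | exact neg_ne_zero.2 one_ne_zero | (apply pow_ne_zero; assumption)))
  have aM0 : ((d * (a - 1) * (a * c + a * d + d)) / (a ^ 2 * (d - 1) * (c + d))) ≠ 0 := by (first | exact one_ne_zero | assumption | (refine div_ne_zero ?_ ?_ <;> (repeat' apply mul_ne_zero) <;> first | assumption | exact one_ne_zero | exact neg_ne_zero.2 one_ne_zero | (apply pow_ne_zero; assumption)) | ((repeat' apply mul_ne_zero) <;> first | assumption | exact one_ne_zero | exact neg_ne_zero.2 one_ne_zero | (apply pow_ne_zero; assumption)))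
  have aL1 : (((-1) * d * (b - 1) * (b - a)) / ((a - 1) * F2)) ≠ 0 := by (first | exact one_ne_zero | assumption | (refine div_ne_zero ?_ ?_ <;> (repeat' apply mul_ne_zero) <;> first | assumption | exact one_ne_zero | exact neg_ne_zero.2 one_ne_zero | (apply pow_ne_zero; assumption)) | ((repeat' apply mul_ne_zero) <;> first | assumption | exact one_ne_zero | exact neg_ne_zero.2 one_ne_zero | (apply pow_ne_zero; assumption)))
  have aM1 : (((-1) * a ^ 2 * c * d * (b - 1) * (b - a)) / ((a - 1) * F2 * b)) ≠ 0 := by (first | exact one_ne_zero | assumption | (refine div_ne_zero ?_ ?_ <;> (repeat' apply mul_ne_zero) <;> first | assumption | exact one_ne_zero | exact neg_ne_zero.2 one_ne_zero | (apply pow_ne_zero; assumption)) | ((repeat' apply mul_ne_zero) <;> first | assumption | exact one_ne_zero | exact neg_ne_zero.2 one_ne_zero | (apply pow_ne_zero; assumption)))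
  have aL2 : ((d * (c - 1) * (c - a) * (c - b)) / ((b - 1) * (b - a) * F3)) ≠ 0 := by (first | exact one_ne_zero | assumption | (refine div_ne_zero ?_ ?_ <;> (repeat' apply mul_ne_zero) <;> first | assumption | exact one_ne_zero | exact neg_ne_zero.2 one_ne_zero | (apply pow_ne_zero; assumption)) | ((repeat' apply mul_ne_zero) <;> first | assumption | exact one_ne_zero | exact neg_ne_zero.2 one_ne_zero | (apply pow_ne_zero; assumption)))
  have aM2 : ((a * b ^ 2 * d * (c - 1) * (c - a) * (c - b)) / ((b - 1) * (b - a) * F3 * c)) ≠ 0 := by (first | exact one_ne_zero | assumption | (refine div_ne_zero ?_ ?_ <;> (repeat' apply mul_ne_zero) <;> first | assumption | exact one_ne_zero | exact neg_ne_zero.2 one_ne_zero | (apply pow_ne_zero; assumption)) | ((repeat' apply mul_ne_zero) <;> first | assumption | exact one_ne_zero | exact neg_ne_zero.2 one_ne_zero | (apply pow_ne_zero; assumption)))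
  have aL3 : (((-1) * (d - a) * (d - b) * (d - c) * (a * c + a * d + d)) / (d ^ 2 * (c - 1) * (c - a) * (c - b) * (a + 1))) ≠ 0 := by (first | exact one_ne_zero | assumption | (refine div_ne_zero ?_ ?_ <;> (repeat' apply mul_ne_zero) <;> first | assumption | exact one_ne_zero | exact neg_ne_zero.2 one_ne_zero | (apply pow_ne_zero; assumption)) | ((repeat' apply mul_ne_zero) <;> first | assumption | exact one_ne_zero | exact neg_ne_zero.2 one_ne_zero | (apply pow_ne_zero; assumption)))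
  have aM3 : (((-1) * c * (d - a) * (d - b) * (d - c) * (a * c + c + d)) / (d ^ 2 * (c - 1) * (c - a) * (c - b) * (a + 1))) ≠ 0 := by (first | exact one_ne_zero | assumption | (refine div_ne_zero ?_ ?_ <;> (repeat' apply mul_ne_zero) <;> first | assumption | exact one_ne_zero | exact neg_ne_zero.2 one_ne_zero | (apply pow_ne_zero; assumption)) | ((repeat' apply mul_ne_zero) <;> first | assumption | exact one_ne_zero | exact neg_ne_zero.2 one_ne_zero | (apply pow_ne_zero; assumption)))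
  refine ⟨{
    t := sq5 (((1))) (((a))) (((b))) (((c))) (((d)))
    s := sq5 (((1))) (((a))) (((b))) (((c))) (((d)))
    G := sq5 (sq5 (1) (1) (1) (1) (1)) (sq5 (1) ((((a * (a * (c * (a * ((1 : F)) + (-1 : F)) + d) + (c * ((-1 : F)) + (-2 : F) * d)) + (d * (c * ((1 : F)) + d)))) / ((c + d) * (d - 1)))) ((((d * (a * (b * ((1 : F)) + (-1 : F)) + (b * ((-1 : F)) + (c * ((1 : F)) + d))) + (c * (a * (a * (b * ((1 : F)) + (-1 : F))) - (b))))) / ((c + d) * (d - 1)))) ((((a * (c * (a * (c * ((1 : F)) + (-1 : F)) + d) - (d)) + (c * (-(c)) + d * d))) / ((c + d) * (d - 1)))) (((a * (a * c + d)) / ((c + d))))) (sq5 (1) ((((d * (a * (b * ((1 : F)) + (-1 : F)) + (b * ((-1 : F)) + (c * ((1 : F)) + d))) + (c * (a * (a * (b * ((1 : F)) + (-1 : F))) - (b))))) / ((c + d) * (d - 1)))) ((((d * (a * (b * (a * (c * (b * (a * (b * (a * ((1 : F)) + (b * ((-1 : F)) + (3 : F))) + (a * ((-2 : F)) + (c * ((1 : F)) + (d *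 ((1 : F)) + (-5 : F))))) + (b * (b * ((-1 : F)) + (2 : F)) + (c * (d * ((-1 : F)) + (2 : F)) + (d * ((3 : F)) + (-1 : F))))) + (d * (a * (c * ((-1 : F)) + (d * ((-1 : F)) + (5 : F))) + (c * ((-1 : F)) + (d * ((-2 : F)) + (-2 : F)))) + (c * (a * ((2 : F)) + (-1 : F))))) + (d * (b * (b * (a * ((1 : F)) + (b * ((-1 : F)) + (2 : F))) + (a * ((-3 : F)) + (d * ((1 : F)) + (-1 : F)))) + (a * (a * ((-1 : F)) + (2 : F) * d) - (d))))) + (d * (b * (c * (b * ((-1 : F)) + (c * ((-1 : F)) + (d * ((-1 : F)) + (3 : F)))) + (d * (b * ((-1 : F)) + (4 : F)))) + (c * (c * ((1 : F)) + (-2 : F)) + (d * (d * ((-1 : F)) + (-3 : F))))))) + (d * (a * (a * (d * (a * ((1 : F)) + (c * ((-2 : F)) + (d * ((-1 : F)) + (1 : F)))) + (c * (a * ((1 : F)) - (c)))) + (c * (c * ((1 : F)) + d))) + (d * (c * ((1 : F)) + d))))) + (b * (d * (d * (b * (b * ((-1 : F)) + (c * ((-1 : F)) + (2 : F))) + (c * ((1 : F)) + (-1 : F))))))) - (a *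 a * a * b * b * c * c))) / ((c + d) * a ^ 2 * F2 * (d - 1)))) ((((c * (a * (b * (c * ((1 : F)) + (-1 : F)) + (c * ((-1 : F)) + d)) + (c * (b * ((1 : F)) + (-1 : F)))) + (d * (b * ((-1 : F)) + d))) * b * K) / ((c + d) * F2 * (d - 1)))) (((b ^ 2 * (a * c + d) * K) / ((c + d) * F2)))) (sq5 (1) ((((a * (c * (a * (c * ((1 : F)) + (-1 : F)) + d) - (d)) + (c * (-(c)) + d * d))) / ((c + d) * (d - 1)))) ((((c * (a * (b * (c * ((1 : F)) + (-1 : F)) + (c * ((-1 : F)) + d)) + (c * (b * ((1 : F)) + (-1 : F)))) + (d * (b * ((-1 : F)) + d))) * b * K) / ((c + d) * F2 * (d - 1)))) ((((c * (c * (a * (c * ((1 : F)) + (-2 : F)) + (c * ((1 : F)) + (-1 : F))) + (d * (a * ((1 : F)) + (-1 : F)))) + d * d) * b * c * K ^ 2) / ((c + d) * F2 * F3 * (d - 1)))) (((b * c ^ 2 * (a * c + d) * K ^ 2) / ((c + d) * F2 * F3)))) (sq5 (1) (((a * (a * c + d)) / ((c + d)))) (((b ^ 2 * (a * c + d) * K) / ((c + d) * F2))) (((b * c ^ 2 *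 (a * c + d) * K ^ 2) / ((c + d) * F2 * F3))) (((b * d * (a * c + d) ^ 2 * K ^ 2) / ((a + 1) * (c + d) * F2 * F3))))
    H := sq5 (sq5 (1) (1) (1) (1) (1)) (sq5 (1) ((((a * (d * (a * (a * ((-1 : F)) + (c * ((2 : F)) + d)) + (c * ((-1 : F)) + d)) - (a * a * c)) - (d * d))) / ((d - 1) * (c + d) * a ^ 3))) ((((d * (a * (a * (b * ((-1 : F)) + (c * ((1 : F)) + d)) + (c * (b * ((1 : F)) + (-1 : F)))) + (d * (b * ((1 : F)) + (-1 : F)))) - (a * a * b * c))) / ((d - 1) * (c + d) * a ^ 2 * b))) ((((d * (a * (c * (c * ((1 : F)) + (-1 : F)) + a * d) + (d * (c * ((1 : F)) + (-1 : F)))) - (a * a * c * c))) / ((d - 1) * (c + d) * a ^ 2 * c))) ((((a * c + d)) / ((c + d) * a ^ 2)))) (sq5 (1) ((((d * (a * (a * (b * ((-1 : F)) + (c * ((1 : F)) + d)) + (c * (b * ((1 : F)) + (-1 : F)))) + (d * (b * ((1 : F)) + (-1 : F)))) - (a * a * b * c))) / ((d - 1) * (c + d) * a ^ 2 * b))) ((((b * (d * (a * (b * (c * (a * (a * (b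 * (a * (c * ((-1 : F)) + (1 : F)) + (b * ((1 : F)) + (c * ((-3 : F)) + (-2 : F) * d))) + (a * (c * ((2 : F)) + (-1 : F)) + (c * ((4 : F)) + (d * ((3 : F)) + (-1 : F))))) + (b * (b * ((1 : F)) + (c * ((-1 : F)) + (d * ((-2 : F)) + (-2 : F)))) + (d * (c * ((-1 : F)) + (d * ((-1 : F)) + (3 : F))) + c))) + (b * (b * (c * ((1 : F)) + (-2 : F)) + (c * ((2 : F)) + (d * ((5 : F)) + (-1 : F)))) + (d * (c * ((-3 : F)) + (d * ((-5 : F)) + (1 : F)))))) + (d * (a * (b * (a * ((1 : F)) + (b * ((1 : F)) + (d * ((-1 : F)) + (-1 : F)))) + (a * ((-1 : F)) + (d * ((2 : F)) + (-1 : F)))) + (b * (b * ((-1 : F)) + (d * ((2 : F)) + (-1 : F))) + (d * (d * ((-1 : F)) + (1 : F))))))) + (c * (a * (a * (c * (a * ((-1 : F)) + (-1 : F)) - (d)) + (d * (c * ((2 : F)) + (2 : F) * d))) + (d * (c * ((1 : F)) + (3 : F) * d))))) + (c * (b * (b * (b * (c * ((1 : F)) + d) - (c * d)) + (-2 : F) * d * d) + d * d))) + (a * (b * (b * (c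 * (c * (a * (a * (b * ((1 : F)) + (-1 : F))) - (b)))))))) + (a * (c * (d * (d * (a * (c * ((-1 : F)) - (d)) - (d)))))))) / ((c + d) * F2 * (d - 1) * b ^ 3))) ((((d * (d * (a * (b * ((1 : F)) + (-1 : F)) + (b * ((1 : F)) + (c * ((1 : F)) + (-1 : F)))) + (c * (a * c - (b)))) - (a * b * c * c)) * K) / ((c + d) * F2 * c * (d - 1) * b))) ((((a * c + d) * K) / ((c + d) * F2 * b)))) (sq5 (1) ((((d * (a * (c * (c * ((1 : F)) + (-1 : F)) + a * d) + (d * (c * ((1 : F)) + (-1 : F)))) - (a * a * c * c))) / ((d - 1) * (c + d) * a ^ 2 * c))) ((((d * (d * (a * (b * ((1 : F)) + (-1 : F)) + (b * ((1 : F)) + (c * ((1 : F)) + (-1 : F)))) + (c * (a * c - (b)))) - (a * b * c * c)) * K) / ((c + d) * F2 * c * (d - 1) * b))) ((((d * (c * (a * (c * ((1 : F)) + d) + (c * ((-1 : F)) + (2 : F) * d)) + (d * (a * ((-1 : F)) + (-1 : F)))) - (a * c * c * c)) * b * K ^ 2) / ((c + d) * F2 * F3 * (d - 1) * c ^ 2))) (((b * (a * c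 + d) * K ^ 2) / ((c + d) * F2 * F3 * c)))) (sq5 (1) ((((a * c + d)) / ((c + d) * a ^ 2))) ((((a * c + d) * K) / ((c + d) * F2 * b))) (((b * (a * c + d) * K ^ 2) / ((c + d) * F2 * F3 * c))) (((b * (a * c + d) ^ 2 * K ^ 2) / ((a + 1) * (c + d) * F2 * F3 * d ^ 2))))
    lam := fun k => 1 - sq4 ((((a - 1) * (a * c + c + d)) / ((d - 1) * (c + d)))) ((((-1) * d * (b - 1) * (b - a)) / ((a - 1) * F2))) (((d * (c - 1) * (c - a) * (c - b)) / ((b - 1) * (b - a) * F3))) ((((-1) * (d - a) * (d - b) * (d - c) * (a * c + a * d + d)) / (d ^ 2 * (c - 1) * (c - a) * (c - b) * (a + 1)))) k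
    mu := sq4 (((d * (a - 1) * (a * c + a * d + d)) / (a ^ 2 * (d - 1) * (c + d)))) ((((-1) * a ^ 2 * c * d * (b - 1) * (b - a)) / ((a - 1) * F2 * b))) (((a * b ^ 2 * d * (c - 1) * (c - a) * (c - b)) / ((b - 1) * (b - a) * F3 * c))) ((((-1) * c * (d - a) * (d - b) * (d - c) * (a * c + c + d)) / (d ^ 2 * (c - 1) * (c - a) * (c - b) * (a + 1))))
    lam' := fun k => 1 - sq4 ((((a - 1) * (a * c + c + d)) / ((d - 1) * (c + d)))) ((((-1) * d * (b - 1) * (b - a)) / ((a - 1) * F2))) (((d * (c - 1) * (c - a) * (c - b)) / ((b - 1) * (b - a) * F3))) ((((-1) * (d - a) * (d - b) * (d - c) * (a * c + a * d + d)) / (d ^ 2 * (c - 1) * (c - a) * (c - b) * (a + 1)))) k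
    mu' := sq4 (((d * (a - 1) * (a * c + a * d + d)) / (a ^ 2 * (d - 1) * (c + d)))) ((((-1) * a ^ 2 * c * d * (b - 1) * (b - a)) / ((a - 1) * F2 * b))) (((a * b ^ 2 * d * (c - 1) * (c - a) * (c - b)) / ((b - 1) * (b - a) * F3 * c))) ((((-1) * c * (d - a) * (d - b) * (d - c) * (a * c + c + d)) / (d ^ 2 * (c - 1) * (c - a) * (c - b) * (a + 1))))
    t0 := ?_
    s0 := ?_
    t_ne := ?_
    s_ne := ?_
    t_inj := ?_
    s_inj := ?_
    G0 := ?_
    G0' := ?_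
    H0 := ?_
    H0' := ?_
    U1 := ?_
    U2 := ?_
    V1 := ?_
    V2 := ?_
    lam_ne := ?_
    mu_ne := ?_
    lm_ne := ?_
    lam'_ne := ?_
    mu'_ne := ?_
    lm'_ne := ?_ }, ?_, rfl, rfl, rfl⟩
  · rfl
  · rfl
  · intro i hi
    interval_cases i
    · show ((1)) ≠ 0
      (first | exact one_ne_zero | assumption | (refine div_ne_zero ?_ ?_ <;> (repeat' apply mul_ne_zero) <;> first | assumption | exact one_ne_zero | exact neg_ne_zero.2 one_ne_zero | (apply pow_ne_zero; assumption)) | ((repeat' apply mul_ne_zero) <;> first | assumption | exact one_ne_zero | exact neg_ne_zero.2 one_ne_zero | (apply pow_ne_zero; assumption)))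
    · show ((a)) ≠ 0
      (first | exact one_ne_zero | assumption | (refine div_ne_zero ?_ ?_ <;> (repeat' apply mul_ne_zero) <;> first | assumption | exact one_ne_zero | exact neg_ne_zero.2 one_ne_zero | (apply pow_ne_zero; assumption)) | ((repeat' apply mul_ne_zero) <;> first | assumption | exact one_ne_zero | exact neg_ne_zero.2 one_ne_zero | (apply pow_ne_zero; assumption)))
    · show ((b)) ≠ 0
      (first | exact one_ne_zero | assumption | (refine div_ne_zero ?_ ?_ <;> (repeat' apply mul_ne_zero) <;> first | assumption | exact one_ne_zero | exact neg_ne_zero.2 one_ne_zero | (apply pow_ne_zero; assumption)) | ((repeat' apply mul_ne_zero) <;> first | assumption | exact one_ne_zero | exact neg_ne_zero.2 one_ne_zero | (apply pow_ne_zero; assumption)))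
    · show ((c)) ≠ 0
      (first | exact one_ne_zero | assumption | (refine div_ne_zero ?_ ?_ <;> (repeat' apply mul_ne_zero) <;> first | assumption | exact one_ne_zero | exact neg_ne_zero.2 one_ne_zero | (apply pow_ne_zero; assumption)) | ((repeat' apply mul_ne_zero) <;> first | assumption | exact one_ne_zero | exact neg_ne_zero.2 one_ne_zero | (apply pow_ne_zero; assumption)))
    · show ((d)) ≠ 0
      (first | exact one_ne_zero | assumption | (refine div_ne_zero ?_ ?_ <;> (repeat' apply mul_ne_zero) <;> first | assumption | exact one_ne_zero | exact neg_ne_zero.2 one_ne_zero | (apply pow_ne_zero; assumption)) | ((repeat' apply mul_ne_zero) <;> first | assumption | exact one_ne_zero | exact neg_ne_zero.2 one_ne_zero | (apply pow_ne_zero; assumption)))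
  · intro i hi
    interval_cases i
    · show ((1)) ≠ 0
      (first | exact one_ne_zero | assumption | (refine div_ne_zero ?_ ?_ <;> (repeat' apply mul_ne_zero) <;> first | assumption | exact one_ne_zero | exact neg_ne_zero.2 one_ne_zero | (apply pow_ne_zero; assumption)) | ((repeat' apply mul_ne_zero) <;> first | assumption | exact one_ne_zero | exact neg_ne_zero.2 one_ne_zero | (apply pow_ne_zero; assumption)))
    · show ((a)) ≠ 0
      (first | exact one_ne_zero | assumption | (refine div_ne_zero ?_ ?_ <;> (repeat' apply mul_ne_zero) <;> first | assumption | exact one_ne_zero | exact neg_ne_zero.2 one_ne_zero | (apply pow_ne_zero; assumption)) | ((repeat' apply mul_ne_zero) <;> first | assumption | exact one_ne_zero | exact neg_ne_zero.2 one_ne_zero | (apply pow_ne_zero; assumption)))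
    · show ((b)) ≠ 0
      (first | exact one_ne_zero | assumption | (refine div_ne_zero ?_ ?_ <;> (repeat' apply mul_ne_zero) <;> first | assumption | exact one_ne_zero | exact neg_ne_zero.2 one_ne_zero | (apply pow_ne_zero; assumption)) | ((repeat' apply mul_ne_zero) <;> first | assumption | exact one_ne_zero | exact neg_ne_zero.2 one_ne_zero | (apply pow_ne_zero; assumption)))
    · show ((c)) ≠ 0
      (first | exact one_ne_zero | assumption | (refine div_ne_zero ?_ ?_ <;> (repeat' apply mul_ne_zero) <;> first | assumption | exact one_ne_zero | exact neg_ne_zero.2 one_ne_zero | (apply pow_ne_zero; assumption)) | ((repeat' apply mul_ne_zero) <;> first | assumption | exact one_ne_zero | exact neg_ne_zero.2 one_ne_zero | (apply pow_ne_zero; assumption)))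
    · show ((d)) ≠ 0
      (first | exact one_ne_zero | assumption | (refine div_ne_zero ?_ ?_ <;> (repeat' apply mul_ne_zero) <;> first | assumption | exact one_ne_zero | exact neg_ne_zero.2 one_ne_zero | (apply pow_ne_zero; assumption)) | ((repeat' apply mul_ne_zero) <;> first | assumption | exact one_ne_zero | exact neg_ne_zero.2 one_ne_zero | (apply pow_ne_zero; assumption)))
  · intro i j hij hj
    interval_cases j <;> interval_cases i <;> intro e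
    · exact (d5_mk_dt01 a b c d n4) (sub_eq_zero.2 e.symm)
    · exact (d5_mk_dt02 a b c d n5) (sub_eq_zero.2 e.symm)
    · exact (d5_mk_dt12 a b c d n8) (sub_eq_zero.2 e.symm)
    · exact (d5_mk_dt03 a b c d n6) (sub_eq_zero.2 e.symm)
    · exact (d5_mk_dt13 a b c d n9) (sub_eq_zero.2 e.symm)
    · exact (d5_mk_dt23 a b c d n11) (sub_eq_zero.2 e.symm)
    · exact (d5_mk_dt04 a b c d n7) (sub_eq_zero.2 e.symm)
    · exact (d5_mk_dt14 a b c d n10) (sub_eq_zero.2 e.symm)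
    · exact (d5_mk_dt24 a b c d n12) (sub_eq_zero.2 e.symm)
    · exact (d5_mk_dt34 a b c d n13) (sub_eq_zero.2 e.symm)
  · intro i j hij hj
    interval_cases j <;> interval_cases i <;> intro e
    · exact (d5_mk_dt01 a b c d n4) (sub_eq_zero.2 e.symm)
    · exact (d5_mk_dt02 a b c d n5) (sub_eq_zero.2 e.symm)
    · exact (d5_mk_dt12 a b c d n8) (sub_eq_zero.2 e.symm)
    · exact (d5_mk_dt03 a b c d n6) (sub_eq_zero.2 e.symm)
    · exact (d5_mk_dt13 a b c d n9) (sub_eq_zero.2 e.symm)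
    · exact (d5_mk_dt23 a b c d n11) (sub_eq_zero.2 e.symm)
    · exact (d5_mk_dt04 a b c d n7) (sub_eq_zero.2 e.symm)
    · exact (d5_mk_dt14 a b c d n10) (sub_eq_zero.2 e.symm)
    · exact (d5_mk_dt24 a b c d n12) (sub_eq_zero.2 e.symm)
    · exact (d5_mk_dt34 a b c d n13) (sub_eq_zero.2 e.symm)
  · intro j hj; interval_cases j <;> rfl
  · intro j hj; interval_cases j <;> rfl
  · intro j hj; interval_cases j <;> rfl
  · intro j hj; interval_cases j <;> rfl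
  · intro j k hj hk
    interval_cases j <;> interval_cases k
    · simp only [sq4, sq5, sq6]; ring
    · simp only [sq4, sq5, sq6]; ring
    · simp only [sq4, sq5, sq6]; ring
    · simp only [sq4, sq5, sq6]; ring
    · exact d5_mk_U1_10 a b c d n15 n7
    · exact d5_mk_U1_11 a b c d F2 hF2 n15 n7 n4 n20 n0 r0 r3
    · exact d5_mk_U1_12 a b c d F3 hF3 n15 n7 n5 n8 n21 n0 n1 r0 r1 r2 r3 r4 r5
    · exact d5_mk_U1_13 a b c d n15 n3 n6 n9 n11 n14 n7 n0 n2 r1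
    · exact d5_mk_U1_20 a b c d n15 n7
    · exact d5_mk_U1_21 a b c d F2 hF2 n15 n0 n20 n7 n4 n1
    · exact d5_mk_U1_22 a b c d F2 F3 K hF2 hF3 hK n0 n1 n2 n3 n4 n5 n6 n7 n8 n9 n10 n11 n12 n13 n14 n15 n16 n17 n18 n19 n20 n21 n22 r0 r1 r2 r3 r4 r5
    · exact d5_mk_U1_23 a b c d F2 K hF2 hK n15 n20 n3 n6 n9 n11 n14 n7 n2 n1 r1
    · exact d5_mk_U1_30 a b c d n15 n7
    · exact d5_mk_U1_31 a b c d F2 K hF2 hK n15 n20 n7 n4 n0 n2 r0 r1 r2 r3
    · exact d5_mk_U1_32 a b c d F2 F3 K hF2 hF3 hK n15 n20 n21 n7 n5 n8 n2 n1 r0 r1 r2 r3 r4 r5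
    · exact d5_mk_U1_33 a b c d F2 F3 K hF2 hF3 hK n15 n20 n21 n3 n6 n9 n11 n14 n7 n2 r1
    · exact d5_mk_U1_40 a b c d n15 n7
    · exact d5_mk_U1_41 a b c d F2 K hF2 hK n15 n20 n4 n0 r0 r3
    · exact d5_mk_U1_42 a b c d F2 F3 K hF2 hF3 hK n15 n20 n21 n5 n8 n1 r0 r1 r2 r3 r4 r5
    · exact d5_mk_U1_43 a b c d F2 F3 K hF2 hF3 hK n14 n15 n20 n21 n3 n6 n9 n11 n2 r1
  · intro j k hj hk
    interval_cases j <;> interval_cases k
    · simp only [sq4, sq5, sq6]; ring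
    · simp only [sq4, sq5, sq6]; ring
    · simp only [sq4, sq5, sq6]; ring
    · simp only [sq4, sq5, sq6]; ring
    · exact d5_mk_U2_10 a b c d n7 n15 n0
    · exact d5_mk_U2_11 a b c d F2 hF2 n7 n15 n0 n1 n4 n20 r0 r1 r2 r3 r4
    · exact d5_mk_U2_12 a b c d F3 hF3 n7 n15 n0 n2 n5 n8 n21 n1 r0 r1 r2 r3 r4 r5
    · exact d5_mk_U2_13 a b c d n15 n0 n3 n6 n9 n11 n14 n7 n2 r1
    · exact d5_mk_U2_20 a b c d n7 n15 n0 n1
    · exact d5_mk_U2_21 a b c d F2 hF2 n15 n20 n7 n1 n4 n0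
    · exact d5_mk_U2_22 a b c d F2 F3 K hF2 hF3 hK n0 n1 n2 n3 n4 n5 n6 n7 n8 n9 n10 n11 n12 n13 n14 n15 n16 n17 n18 n19 n20 n21 n22 r0 r1 r2 r3 r4 r5
    · exact d5_mk_U2_23 a b c d F2 K hF2 hK n15 n20 n1 n3 n6 n9 n11 n14 n7 n2 r1
    · exact d5_mk_U2_30 a b c d n7 n15 n0 n2
    · exact d5_mk_U2_31 a b c d F2 K hF2 hK n15 n20 n2 n7 n1 n4 n0 r0 r1 r2 r3 r4 r5
    · exact d5_mk_U2_32 a b c d F2 F3 K hF2 hF3 hK n15 n20 n21 n7 n2 n5 n8 n1 r0 r1 r2 r3 r4 r5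
    · exact d5_mk_U2_33 a b c d F2 F3 K hF2 hF3 hK n15 n20 n21 n2 n3 n6 n9 n11 n14 n7 r1
    · exact d5_mk_U2_40 a b c d n15 n0 n7
    · exact d5_mk_U2_41 a b c d F2 K hF2 hK n15 n20 n1 n4 n0 r0 r3
    · exact d5_mk_U2_42 a b c d F2 F3 K hF2 hF3 hK n15 n20 n21 n2 n5 n8 n1 r0 r1 r2 r3 r4 r5
    · exact d5_mk_U2_43 a b c d F2 F3 K hF2 hF3 hK n14 n15 n20 n21 n3 n6 n9 n11 n2 r1
  · intro j k hj hk
    interval_cases j <;> interval_cases k
    · simp only [sq4, sq5, sq6]; ring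
    · exact d5_mk_U1_10 a b c d n15 n7
    · exact d5_mk_U1_20 a b c d n15 n7
    · exact d5_mk_U1_30 a b c d n15 n7
    · exact d5_mk_U1_40 a b c d n15 n7
    · simp only [sq4, sq5, sq6]; ring
    · exact d5_mk_U1_11 a b c d F2 hF2 n15 n7 n4 n20 n0 r0 r3
    · exact d5_mk_U1_21 a b c d F2 hF2 n15 n0 n20 n7 n4 n1
    · exact d5_mk_U1_31 a b c d F2 K hF2 hK n15 n20 n7 n4 n0 n2 r0 r1 r2 r3
    · exact d5_mk_U1_41 a b c d F2 K hF2 hK n15 n20 n4 n0 r0 r3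
    · simp only [sq4, sq5, sq6]; ring
    · exact d5_mk_U1_12 a b c d F3 hF3 n15 n7 n5 n8 n21 n0 n1 r0 r1 r2 r3 r4 r5
    · exact d5_mk_U1_22 a b c d F2 F3 K hF2 hF3 hK n0 n1 n2 n3 n4 n5 n6 n7 n8 n9 n10 n11 n12 n13 n14 n15 n16 n17 n18 n19 n20 n21 n22 r0 r1 r2 r3 r4 r5
    · exact d5_mk_U1_32 a b c d F2 F3 K hF2 hF3 hK n15 n20 n21 n7 n5 n8 n2 n1 r0 r1 r2 r3 r4 r5
    · exact d5_mk_U1_42 a b c d F2 F3 K hF2 hF3 hK n15 n20 n21 n5 n8 n1 r0 r1 r2 r3 r4 r5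
    · simp only [sq4, sq5, sq6]; ring
    · exact d5_mk_U1_13 a b c d n15 n3 n6 n9 n11 n14 n7 n0 n2 r1
    · exact d5_mk_U1_23 a b c d F2 K hF2 hK n15 n20 n3 n6 n9 n11 n14 n7 n2 n1 r1
    · exact d5_mk_U1_33 a b c d F2 F3 K hF2 hF3 hK n15 n20 n21 n3 n6 n9 n11 n14 n7 n2 r1
    · exact d5_mk_U1_43 a b c d F2 F3 K hF2 hF3 hK n14 n15 n20 n21 n3 n6 n9 n11 n2 r1
  · intro j k hj hk
    interval_cases j <;> interval_cases k
    · simp only [sq4, sq5, sq6]; ring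
    · exact d5_mk_U2_10 a b c d n7 n15 n0
    · exact d5_mk_U2_20 a b c d n7 n15 n0 n1
    · exact d5_mk_U2_30 a b c d n7 n15 n0 n2
    · exact d5_mk_U2_40 a b c d n15 n0 n7
    · simp only [sq4, sq5, sq6]; ring
    · exact d5_mk_U2_11 a b c d F2 hF2 n7 n15 n0 n1 n4 n20 r0 r1 r2 r3 r4
    · exact d5_mk_U2_21 a b c d F2 hF2 n15 n20 n7 n1 n4 n0
    · exact d5_mk_U2_31 a b c d F2 K hF2 hK n15 n20 n2 n7 n1 n4 n0 r0 r1 r2 r3 r4 r5
    · exact d5_mk_U2_41 a b c d F2 K hF2 hK n15 n20 n1 n4 n0 r0 r3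
    · simp only [sq4, sq5, sq6]; ring
    · exact d5_mk_U2_12 a b c d F3 hF3 n7 n15 n0 n2 n5 n8 n21 n1 r0 r1 r2 r3 r4 r5
    · exact d5_mk_U2_22 a b c d F2 F3 K hF2 hF3 hK n0 n1 n2 n3 n4 n5 n6 n7 n8 n9 n10 n11 n12 n13 n14 n15 n16 n17 n18 n19 n20 n21 n22 r0 r1 r2 r3 r4 r5
    · exact d5_mk_U2_32 a b c d F2 F3 K hF2 hF3 hK n15 n20 n21 n7 n2 n5 n8 n1 r0 r1 r2 r3 r4 r5
    · exact d5_mk_U2_42 a b c d F2 F3 K hF2 hF3 hK n15 n20 n21 n2 n5 n8 n1 r0 r1 r2 r3 r4 r5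
    · simp only [sq4, sq5, sq6]; ring
    · exact d5_mk_U2_13 a b c d n15 n0 n3 n6 n9 n11 n14 n7 n2 r1
    · exact d5_mk_U2_23 a b c d F2 K hF2 hK n15 n20 n1 n3 n6 n9 n11 n14 n7 n2 r1
    · exact d5_mk_U2_33 a b c d F2 F3 K hF2 hF3 hK n15 n20 n21 n2 n3 n6 n9 n11 n14 n7 r1
    · exact d5_mk_U2_43 a b c d F2 F3 K hF2 hF3 hK n14 n15 n20 n21 n3 n6 n9 n11 n2 r1
  · intro k hk
    interval_cases k <;> intro e
    · exact aL0 (by simp only [sq4, sq5, sq6] at e; linear_combination -e)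
    · exact aL1 (by simp only [sq4, sq5, sq6] at e; linear_combination -e)
    · exact aL2 (by simp only [sq4, sq5, sq6] at e; linear_combination -e)
    · exact aL3 (by simp only [sq4, sq5, sq6] at e; linear_combination -e)
  · intro k hk
    interval_cases k
    · exact aM0
    · exact aM1
    · exact aM2
    · exact aM3
  · intro k hk
    interval_cases k <;> intro e
    · exact (d5_mk_aN0 a b c d n7 n15 n0 n6 n5 n8 n9 n10 n16 r0) (by simp only [sq4, sq5, sq6] at e; linear_combination e)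
    · exact (d5_mk_aN1 a b c d F2 K hF2 hK n4 n20 n1 n9 n10 n0 n5 n11 n12 n22 r0 r1 r2 r3) (by simp only [sq4, sq5, sq6] at e; linear_combination e)
    · exact (d5_mk_aN2 a b c d F3 K hF3 hK n5 n8 n21 n2 n12 n1 n6 n9 n13 n22 r0 r1 r2 r3 r4 r5) (by simp only [sq4, sq5, sq6] at e; linear_combination e)
    · exact (d5_mk_aN3 a b c d n3 n6 n9 n11 n14 n2 n7 n10 n12 n16 r1) (by simp only [sq4, sq5, sq6] at e; linear_combination e)
  · intro k hk
    interval_cases k <;> intro e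
    · exact aL0 (by simp only [sq4, sq5, sq6] at e; linear_combination -e)
    · exact aL1 (by simp only [sq4, sq5, sq6] at e; linear_combination -e)
    · exact aL2 (by simp only [sq4, sq5, sq6] at e; linear_combination -e)
    · exact aL3 (by simp only [sq4, sq5, sq6] at e; linear_combination -e)
  · intro k hk
    interval_cases k
    · exact aM0
    · exact aM1
    · exact aM2
    · exact aM3
  · intro k hk
    interval_cases k <;> intro e
    · exact (d5_mk_aN0 a b c d n7 n15 n0 n6 n5 n8 n9 n10 n16 r0) (by simp only [sq4, sq5, sq6] at e; linear_combination e)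
    · exact (d5_mk_aN1 a b c d F2 K hF2 hK n4 n20 n1 n9 n10 n0 n5 n11 n12 n22 r0 r1 r2 r3) (by simp only [sq4, sq5, sq6] at e; linear_combination e)
    · exact (d5_mk_aN2 a b c d F3 K hF3 hK n5 n8 n21 n2 n12 n1 n6 n9 n13 n22 r0 r1 r2 r3 r4 r5) (by simp only [sq4, sq5, sq6] at e; linear_combination e)
    · exact (d5_mk_aN3 a b c d n3 n6 n9 n11 n14 n2 n7 n10 n12 n16 r1) (by simp only [sq4, sq5, sq6] at e; linear_combination e)
  · constructor
    · intro j hj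
      interval_cases j
      · simp only [sq4, sq5, sq6]; ring
      · exact d5_mk_C1_1 a b c d n15 n0
      · exact d5_mk_C1_2 a b c d F2 K hF2 hK n15 n20 n1
      · exact d5_mk_C1_3 a b c d F2 F3 K hF2 hF3 hK n15 n20 n21 n2
      · exact d5_mk_C1_4 a b c d F2 F3 K hF2 hF3 hK n14 n15 n20 n21 n3
    · intro j hj
      interval_cases j
      · simp only [sq4, sq5, sq6]; ring
      · exact d5_mk_C1_1 a b c d n15 n0
      · exact d5_mk_C1_2 a b c d F2 K hF2 hK n15 n20 n1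
      · exact d5_mk_C1_3 a b c d F2 F3 K hF2 hF3 hK n15 n20 n21 n2
      · exact d5_mk_C1_4 a b c d F2 F3 K hF2 hF3 hK n14 n15 n20 n21 n3

end Pool.Agent.Helper54.IP
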