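import Pool.Agent.Helper54.IP.Sq

/-!
TH-P phase 2: construction of the closed corners of the family D5 (generated).
-/

namespace Pool.Agent.Helper54.IP

variable {F : Type*} [Field F]

set_option maxRecDepth 100000

theorem d5_mk_MK (a b c d F2 F3 : F)
    (hF2 : F2 = a * (d * (b * (c * ((-1 : F)) + (1 : F)) + (a * ((1 : F)) + (c * ((-1 : F)) + (d * ((-1 : F)) + (1 : F))))) + b * c) - (b * c * d))
    (hF3 : F3 = c * (d * (a * (b * ((-1 : F)) + (1 : F)) + (b * ((-1 : F)) + (c * ((-1 : F)) + (d * ((-1 : F)) + (1 : F))))) + a * b) + a * b * d)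
    (n15 : (c + d) ≠ 0)
    (n0 : a ≠ 0)
    (n20 : F2 ≠ 0)
    (n7 : (d - 1) ≠ 0)
    (n1 : b ≠ 0)
    (n6 : (c - 1) ≠ 0)
    (n9 : (c - a) ≠ 0)
    (r0 : a * (a * (b * (c * ((1 : F)) + (-1 : F)) - (c)) + (b * c + d)) + (d * (b * ((-1 : F)) + (c * ((-1 : F)) + (1 : F)))) = 0)
    (r1 : d * (c * (a * (b * ((1 : F)) - (c)) + (b * (-(c)) + d)) + (d * (a * ((-1 : F)) + (b * ((-1 : F)) + d)))) + a * b * c * c = 0)
    (r2 : d * (c * (a * (c * (a * ((1 : F)) + (d * ((1 : F)) + (1 : F))) + (d * (b * ((-1 : F)) + (-1 : F)) + (a * ((-1 : F)) + (1 : F)))) + (b * (c * (d * ((1 : F)) + (1 : F)) + (-1 : F)) + (d * (d * ((-1 : F)) + (-2 : F)) - (c)))) + (d * (a * (a * ((1 : F)) + (b * ((1 : F)) + (2 : F))) + (d * (b * ((1 : F)) + (d * ((-1 : F)) + (-1 : F))) + (1 : F))) + (a * (a * (-(b)) + (1 : F)) + (b * ((-1 : F)) + (1 : F))))) + (a * (a * (c * (c * ((-1 : F)) + (-1 : F)) - (b)) + b * c))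 = 0)
    (r3 : d * (a * (a * (b * (b * ((1 : F)) + (d * ((-1 : F)) + (-1 : F))) + (c * ((-1 : F)) + d)) + (b * (d * ((-1 : F)) + (-1 : F)) + (d * ((1 : F)) + (-1 : F)))) + (b * (b * (c * ((1 : F)) + (1 : F)) + (-2 : F) * d) + (d * (d * ((1 : F)) + (1 : F)) + (c * ((1 : F)) + (-1 : F))))) + (a * (b * (a * (b * ((1 : F)) + (1 : F)) + (c * (b * ((-1 : F)) + (-1 : F)))) + a * c)) = 0)
    (r4 : d * (c * (b * (c * (b * ((-1 : F)) + (d * ((-1 : F)) + (1 : F))) + (a * (b * ((1 : F)) + d) + (d * ((1 : F)) + (1 : F)))) + (c * (a * (d * ((-1 : F)) + (1 : F)) + (-1 : F)) + (d * (d * ((1 : F)) + (-1 : F))))) + (d * (d * (a * ((-1 : F)) + (d * ((1 : F)) + (-1 : F))) + (b * (b * ((-1 : F)) + (2 : F)) + (-1 : F))) - (a * b * b))) + (b * (c * (c * (b * ((-1 : F)) + (1 : F))))) = 0)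
    (r5 : d * (d * (c * (b * (c * (c * ((1 : F)) + (d * ((-1 : F)) + (-1 : F))) + (a * (d * ((1 : F)) + (-1 : F)) + (b * ((1 : F)) + (-4 : F)))) + (c * (a * (c * ((1 : F)) - (d)) + (d * ((-1 : F)) + (2 : F))) + (d * (a * ((1 : F)) + (1 : F)) + (2 : F)))) + (d * (a * (b * ((-1 : F)) + (d * ((-1 : F)) + (1 : F))) + (b * (d * ((-1 : F)) + (-2 : F)) + (d * d + (2 : F)))) + (b * (b * (a * ((1 : F)) + (1 : F)) + (-2 : F)) + (1 : F)))) + (c * (c * (b * (b * (c * ((1 : F)) + (2 : F)) + (c * ((-1 : F)) + (-3 : F))) + (a * (c * ((-1 : F)) + (-1 : F)) + (c * ((1 : F)) + (1 : F)))) - (b)) + a * b * b)) + (b * (c * (c * (b * (c * ((1 : F)) + (1 : F)) + (c * ((-1 : F)) + (-1 : F)))))) = 0) :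
    (((b)) * (((d * (a * (b * (a * (c * (b * (a * (b * (a * ((1 : F)) + (b * ((-1 : F)) + (3 : F))) + (a * ((-2 : F)) + (c * ((1 : F)) + (d * ((1 : F)) + (-5 : F))))) + (b * (b * ((-1 : F)) + (2 : F)) + (c * (d * ((-1 : F)) + (2 : F)) + (d * ((3 : F)) + (-1 : F))))) + (d * (a * (c * ((-1 : F)) + (d * ((-1 : F)) + (5 : F))) + (c * ((-1 : F)) + (d * ((-2 : F)) + (-2 : F)))) + (c * (a * ((2 : F)) + (-1 : F))))) + (d * (b * (b * (a * ((1 : F)) + (b * ((-1 : F)) + (2 : F))) + (a * ((-3 : F)) + (d * ((1 : F)) + (-1 : F)))) + (a * (a * ((-1 : F)) + (2 : F) * d) - (d))))) + (d * (b * (c * (b * ((-1 : F)) + (c * ((-1 : F)) + (d * ((-1 : F)) + (3 : F)))) + (d * (b * ((-1 : F)) + (4 : F)))) + (c * (c * ((1 : F)) + (-2 : F)) + (d * (d * ((-1 : F)) + (-3 : F))))))) + (d * (a * (a * (d * (a * ((1 : F)) + (c * ((-2 : F)) + (d * ((-1 : F)) + (1 : F)))) + (c * (a * ((1 : F)) - (c)))) + (c * (c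 * ((1 : F)) + d))) + (d * (c * ((1 : F)) + d))))) + (b * (d * (d * (b * (b * ((-1 : F)) + (c * ((-1 : F)) + (2 : F))) + (c * ((1 : F)) + (-1 : F))))))) - (a * a * a * b * b * c * c))) / ((c + d) * a ^ 2 * F2 * (d - 1)))) - (((b)) ^ 2 * (((b * (d * (a * (b * (c * (a * (a * (b * (a * (c * ((-1 : F)) + (1 : F)) + (b * ((1 : F)) + (c * ((-3 : F)) + (-2 : F) * d))) + (a * (c * ((2 : F)) + (-1 : F)) + (c * ((4 : F)) + (d * ((3 : F)) + (-1 : F))))) + (b * (b * ((1 : F)) + (c * ((-1 : F)) + (d * ((-2 : F)) + (-2 : F)))) + (d * (c * ((-1 : F)) + (d * ((-1 : F)) + (3 : F))) + c))) + (b * (b * (c * ((1 : F)) + (-2 : F)) + (c * ((2 : F)) + (d * ((5 : F)) + (-1 : F)))) + (d * (c * ((-3 : F)) + (d * ((-5 : F)) + (1 : F)))))) + (d * (a * (b * (a * ((1 : F)) + (b * ((1 : F)) + (d * ((-1 : F)) + (-1 : F)))) + (a * ((-1 : F)) + (d * ((2 : F)) + (-1 : F)))) + (b * (b * ((-1 : F)) + (d * ((2 : F))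 + (-1 : F))) + (d * (d * ((-1 : F)) + (1 : F))))))) + (c * (a * (a * (c * (a * ((-1 : F)) + (-1 : F)) - (d)) + (d * (c * ((2 : F)) + (2 : F) * d))) + (d * (c * ((1 : F)) + (3 : F) * d))))) + (c * (b * (b * (b * (c * ((1 : F)) + d) - (c * d)) + (-2 : F) * d * d) + d * d))) + (a * (b * (b * (c * (c * (a * (a * (b * ((1 : F)) + (-1 : F))) - (b)))))))) + (a * (c * (d * (d * (a * (c * ((-1 : F)) - (d)) - (d)))))))) / ((c + d) * F2 * (d - 1) * b ^ 3))) = (((c * (a * (b * ((1 : F)) + c) + (c * ((1 : F)) + d)) + (b * (d * (a * ((1 : F)) + (1 : F))))) * (b - 1) ^ 2 * (b - a) * (d - b) * F3) / (b * (c - 1) * (d - 1) * (c - a) * (c + d) * F2)) := by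
  have key : (a * (b * (d * (a * (c * (a * (b * (a * (c * (a * (a * (c * (a * ((-1 : F)) + (c * ((1 : F)) + (-5 : F))) + (a * ((2 : F)) + (b * ((1 : F)) + (d * ((-2 : F)) + (5 : F))))) + (c * (c * ((3 : F)) + (d * ((1 : F)) + (-6 : F))) + (b * (d * ((-1 : F)) + (1 : F)) + (d * ((-2 : F)) + (3 : F))))) + (d * (b * (b * ((1 : F)) + (c * ((1 : F)) + (-3 : F))) + (c * ((-1 : F)) + (d * ((-1 : F)) + (-3 : F)))) + (c * (b * ((2 : F)) + (c * ((2 : F)) + (-5 : F))) + (b * ((-2 : F)) + (3 : F))))) + (d * (b * (b * (a * ((1 : F)) + (b * ((-1 : F)) + (d * ((1 : F)) + (1 : F)))) + (a * (d * ((-1 : F)) + (1 : F)) + (-3 : F) * d)) + (a * (a * ((3 : F)) + (d * ((1 : F)) + (3 : F))) + (d * (d * ((-1 : F)) + (3 : F)) + (4 : F)))) + (a * (a * (a * ((-1 : F)) + (b * ((-1 : F)) + (-1 : F))) - (b * b)) + (b * (b * (b * ((1 : F)) + (-1 : F))))))) + (b * (c * (b * (b * (c * ((-1 : F)) + (1 : F)) + (c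 * ((-1 : F)) + (d * ((-1 : F)) + (1 : F)))) + (c * (c * ((-1 : F)) + (d * ((4 : F)) + (3 : F))) + (d * (d * ((3 : F)) + (-3 : F)) + (-1 : F)))) + (d * (b * (b * ((-1 : F)) + (d * ((1 : F)) + (3 : F))) + (d * (d * ((1 : F)) + (-5 : F)) + (-1 : F))))) + (d * (d * (c * ((-2 : F)) + (d * ((-2 : F)) + (2 : F))) + (c * ((-3 : F)) + (1 : F))) + (c * (c * (c * ((2 : F)) + (-3 : F))))))) + (c * (a * (a * (a * (c * (a * ((1 : F)) + (c * ((-1 : F)) + (2 : F))) + (a * ((-1 : F)) + (d * ((1 : F)) + (-1 : F)))) + (c * (c * ((-1 : F)) + (1 : F)) - (d * d))) + (c * (c * ((-1 : F)) + (d * ((3 : F)) + (1 : F))) + (d * (d * ((1 : F)) + (-1 : F))))) + (c * (d * (c * ((-1 : F)) + (d * ((-1 : F)) + (1 : F))) + (c * ((-1 : F)) + (1 : F))) + (d * (d * (-(d)) + (1 : F))))) + (d * (a * (d * (d * ((1 : F)) + (-1 : F)) - (a * a)) + d * d)))) + (b * (c * (b * (d * (c * (c * ((-1 : F)) + (3 : F)) + (b * (-(b))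 + (d * ((3 : F)) + (-2 : F)))) + (b * (b * (c * ((-1 : F)) + (1 : F)) + (-1 : F)) + c)) + (d * (d * (d * ((1 : F)) + (1 : F)) + (c * ((1 : F)) + (-1 : F))) + (c * (c * ((1 : F)) + (-1 : F))))) + (b * (d * (d * (b * ((1 : F)) + (d * ((1 : F)) + (-6 : F))) + (1 : F))))) + (c * (d * (c * (c * ((-1 : F)) + (d * ((-1 : F)) + (1 : F))) - (d * d)))))) + (b * (d * (a * (a * (b * (b * (a * ((-1 : F)) + (b * ((1 : F)) + (d * ((-1 : F)) + (-1 : F)))) + (d * (a * ((1 : F)) + (2 : F)))) + (a * (a * ((-1 : F)) + (-1 : F)) - (d))) + (b * (d * (b * ((-1 : F)) + (2 : F))))) + (d * (b * (b * ((-1 : F)) + (3 : F)) - (d))))))) + (b * (d * (c * (c * (b * (c * (b * ((-1 : F)) + (c * ((-1 : F)) + (d * ((-1 : F)) + (3 : F)))) + (b * (d * ((-1 : F)) + (1 : F)) + (d * ((5 : F)) + (-2 : F)))) + (d * (c * ((-1 : F)) + (d * ((-1 : F)) + (1 : F))))) + (d * (b * (b * ((2 : F)) + (-5 : F)) + d))) + (b * (d *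 (b * ((-1 : F)) + (1 : F)))))))) + (a * (a * (b * (c * (c * (a * (b * (a * (a * (c * ((1 : F)) + (-1 : F)) + (b * ((-1 : F)) + (c * (-(c)) + (1 : F)))) + (b * (b * ((1 : F)) + (c * ((1 : F)) + (-1 : F))) + (-2 : F) * c)) + (c * (a * ((1 : F)) + (1 : F)))) + (b * (c * (b * ((1 : F)) + (-1 : F))))))))))) + (a * (a * (c * (d * (d * (c * (a * (a * (d * ((1 : F)) + (-1 : F)) + (c * ((-1 : F)) + d)) + (c * (c * ((1 : F)) + (d * ((1 : F)) + (-1 : F))) + d * d)) + (a * (d * (a * ((-1 : F)) + (-1 : F))))))))))) + (b * (b * (b * (c * (d * (d * (d * (c * (b * ((-1 : F)) + (c * ((-1 : F)) + (2 : F))) + (b * ((1 : F)) + (-1 : F))))))))))) = 0 := by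
    linear_combination (a * (b * (a * (c * (a * (d * (a * (c * (a * ((-1 : F)) + (c * ((1 : F)) + (-3 : F))) + (a * ((1 : F)) + (b * ((1 : F)) + (d * ((-2 : F)) + (2 : F))))) + (c * (c * ((2 : F)) + (d * ((1 : F)) + (-1 : F))) + (d * (b * ((-1 : F)) + (-1 : F)) + (-1 : F)))) + (c * (b * (a * ((1 : F)) + (c * ((-1 : F)) + (-2 : F))) + (a * ((1 : F)) + (c * ((-1 : F)) + (-3 : F)))) + (b * (b * ((-1 : F)) + (-2 : F)) + (a * ((1 : F)) + (-6 : F))))) + (b * (c * (d * (d * ((1 : F)) + (2 : F)) + (b * ((1 : F)) + (c * ((1 : F)) + (2 : F)))) + (b * (b * ((1 : F)) + (d * d + (2 : F))) + (d * ((1 : F)) + (6 : F)))) + (d * (d * (d * ((-1 : F)) + (-4 : F)) + (7 : F)) + (c * (c * ((2 : F)) + (8 : F)) + (20 : F))))) + (d * (b * (b * (d * (a * ((1 : F)) + (b * ((-1 : F)) + d)) + (a * ((-1 : F)) + (b * ((1 : F)) + (1 : F)))) + (a * (d * (d * ((-1 : F)) + (1 : F)) + (-1 : F)) + (d * (-(d)) + (5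 : F)))) + (a * (a * (d * ((1 : F)) + (1 : F)) + (d * ((2 : F)) + (-4 : F))) + (d * (d * (-(d)) + (-1 : F)) + (20 : F)))) + (b * (b * (a * ((-1 : F)) + (b * ((1 : F)) + (3 : F))) + (a * ((-3 : F)) + (8 : F))) + (a * (a * ((1 : F)) + (-8 : F)) + (26 : F))))) + (d * (b * (c * (c * (b * (b * ((-1 : F)) + (-2 : F)) + (c * ((-1 : F)) + (d * ((3 : F)) + (-3 : F)))) + (d * (b * ((-2 : F)) + (d * ((3 : F)) + (-2 : F))) + (b * ((-1 : F)) + (-10 : F)))) + (d * (d * (d * ((1 : F)) + (-2 : F)) + (b * ((1 : F)) + (-3 : F))) + (b * (b * ((-1 : F)) + (-4 : F)) + (-21 : F)))) + (d * (c * (c * ((5 : F)) + (d * ((1 : F)) + (1 : F))) + (d * (d * ((-1 : F)) + (3 : F)) + (-6 : F))) + (c * (c * ((-9 : F)) + (-31 : F)) + (-73 : F)))) + (b * (c * (b * (b * ((-1 : F)) + (-3 : F)) + (c * (c * ((-1 : F)) + (-4 : F)) + (-13 : F))) + (b * (b * ((-1 : F)) + (-4 : F)) + (-16 : F))) + (c * (c * (c * ((-3 : F))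 + (-15 : F)) + (-48 : F)) + (-61 : F))))) + (c * (a * (d * (a * (c * (a * ((-1 : F)) + (c * ((1 : F)) + (d * ((-1 : F)) + (2 : F)))) + (d * (d * ((-1 : F)) + (2 : F)) + (1 : F))) + (d * (c * (c * ((1 : F)) + (1 : F)) + (d * ((-2 : F)) + (3 : F))) + (c * ((-2 : F) * c) + (7 : F)))) + (a * (c * (a * ((1 : F)) + (c * ((-1 : F)) + (-5 : F))) + (a * ((2 : F)) + (-11 : F))) + (c * (c * ((3 : F)) + (15 : F)) + (39 : F)))) + (d * (d * (c * (c * ((-1 : F)) + (-5 : F)) + (d * (d * ((-1 : F)) + (-7 : F)) + (-17 : F))) + (c * (c * ((-1 : F)) + (-17 : F)) + (-58 : F))) + (c * (c * ((-6 : F)) + (-33 : F)) + (-102 : F)))) + (d * (d * (a * (a * (a * ((-1 : F)) + (d * ((1 : F)) + (2 : F))) + (d * ((2 : F)) + (-1 : F))) + (d * (d * ((-3 : F)) + (-2 : F)) + (-24 : F))) + (a * (a * ((-2 : F)) + (22 : F)) + (-113 : F))) + (a * (a * (a * ((2 : F)) + (-13 : F)) + (47 : F)) + (-123 : F))))) + (d * (b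 * (b * (c * (d * (b * (b * ((-1 : F)) + (2 : F)) + (c * (c * ((-1 : F)) + (-1 : F)) + (d * ((2 : F)) + (5 : F)))) + (b * (b * ((1 : F)) + (c * ((2 : F)) + (5 : F))) + (c * (c * ((1 : F)) + (9 : F)) + (27 : F)))) + (d * (b * (b * ((-1 : F)) + (d * ((1 : F)) + (2 : F))) + (d * (d * ((1 : F)) + (-1 : F)) + (15 : F))) + (b * (b * ((2 : F)) + (10 : F)) + (50 : F)))) + (c * (d * (c * (c * ((-1 : F)) + (d * ((1 : F)) + (-3 : F))) + (d * (d * ((1 : F)) + (-1 : F)) + (2 : F))) + (c * (c * ((3 : F)) + (24 : F)) + (98 : F))) + (d * (d * (d * ((-2 : F)) + (-7 : F)) + (42 : F)) + (194 : F)))) + (d * (c * (c * (c * ((2 : F)) + (d * ((10 : F)) + (26 : F))) + (d * (d * ((7 : F)) + (38 : F)) + (93 : F))) + (d * (d * (d * ((1 : F)) + (13 : F)) + (53 : F)) + (163 : F))) + (c * (c * (c * ((9 : F)) + (67 : F)) + (232 : F)) + (378 : F)))) + (b * (b * (c * (b * (b * ((1 : F)) + (4 : F)) + (c * (c * ((1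 : F)) + (5 : F)) + (22 : F))) + (b * (b * ((1 : F)) + (5 : F)) + (26 : F))) + (c * (c * (c * ((4 : F)) + (24 : F)) + (94 : F)) + (116 : F))) + (c * (c * (c * ((10 : F)) + (61 : F)) + (220 : F)) + (263 : F))))) * r0 + (d * (b * (d * (d * (b * (b * ((1 : F)) + (c * ((-3 : F)) + (d * ((4 : F)) + (4 : F)))) + (d * (c * ((-1 : F)) + (d * ((2 : F)) + (5 : F))) + (c * ((1 : F)) + (-2 : F)))) + (b * (b * (c * ((-2 : F)) + (-1 : F)) + (-10 : F)) + (c * (c * ((-1 : F)) + (-4 : F)) + (-33 : F)))) + (b * (b * (b * ((-1 : F)) + (c * ((-2 : F)) + (-7 : F))) + (c * (c * ((-1 : F)) + (-9 : F)) + (-33 : F))) + (c * (c * ((-5 : F)) + (-32 : F)) + (-125 : F)))) + (d * (d * (c * (c * ((-4 : F)) + (d * ((-2 : F)) + (-31 : F))) + (d * (d * ((-6 : F)) + (-7 : F)) + (-91 : F))) + (c * (c * ((-18 : F)) + (-105 : F)) + (-315 : F))) + (c * (c * ((-22 : F)) + (-111 : F)) + (-339 : F)))) + (b * (b * (b * (b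 * ((-1 : F)) + (-4 : F)) + (c * (c * ((-1 : F)) + (-5 : F)) + (-22 : F))) + (c * (c * ((-4 : F)) + (-24 : F)) + (-94 : F))) + (c * (c * ((-10 : F)) + (-51 : F)) + (-169 : F)))) * r1 + (a * (a * (a * (c * (a * ((-1 : F)) + (c * ((1 : F)) + (4 : F))) + (a * ((-1 : F)) + (d * ((1 : F)) + (7 : F)))) + (c * (c * ((-3 : F)) + (d * ((-5 : F)) + (-12 : F))) + (d * (d * ((-2 : F)) + (-10 : F)) + (-27 : F)))) + (d * (c * (c * ((4 : F)) + (d * ((5 : F)) + (22 : F))) + (d * (d * ((2 : F)) + (10 : F)) + (57 : F))) + (c * (c * ((6 : F)) + (27 : F)) + (75 : F)))) + (d * (d * (c * (c * ((-3 : F)) + (d * ((-5 : F)) + (-23 : F))) + (d * (d * ((-2 : F)) + (-14 : F)) + (-69 : F))) + (c * (c * ((-13 : F)) + (-68 : F)) + (-207 : F))) + (c * (c * ((-10 : F)) + (-51 : F)) + (-169 : F)))) * r2 + (b * (a * (b * (a * (a * ((-1 : F)) + (b * ((1 : F)) + (2 : F))) + (d * (d * ((1 : F)) + (-2 : F)) + (b * ((-1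 : F)) + (-3 : F)))) + (a * (a * ((-2 : F)) + (d * ((1 : F)) + (6 : F))) + (d * (d * ((-1 : F)) + (-9 : F)) + (-13 : F)))) + (d * (b * (b * (d * ((-1 : F)) + (1 : F)) + (d * ((1 : F)) + (6 : F))) + (d * (d * ((2 : F)) + (3 : F)) + (26 : F))) + (b * (b * ((1 : F)) + (4 : F)) + (22 : F)))) + (a * (a * (a * (a * ((1 : F)) + (-6 : F)) + (d * ((5 : F)) + (20 : F))) + (d * (d * (d * ((-1 : F)) + (-1 : F)) + (-29 : F)) + (-48 : F))) + (d * (d * (d * ((2 : F)) + (7 : F)) + (96 : F)) + (94 : F)))) * r3 + (d * (b * (d * (d * (b * ((-1 : F)) + (d * ((-1 : F)) + (-5 : F))) + (b * ((-1 : F)) + (3 : F))) + (b * (b * ((1 : F)) + (4 : F)) + (14 : F))) + (d * (d * (d * ((2 : F)) + (-3 : F)) + (18 : F)) + (54 : F)))) * r4 + (d * (d * (b * (b * ((-2 : F)) + (d * ((-1 : F)) + (-3 : F))) + (c * ((-1 : F)) + (d * ((2 : F)) + (-4 : F)))) + (b * (c * ((-1 : F)) + (-3 : F)) + (c * ((-4 : F)) + (-16 : F)))))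 * r5
  have e : (((b)) * (((d * (a * (b * (a * (c * (b * (a * (b * (a * ((1 : F)) + (b * ((-1 : F)) + (3 : F))) + (a * ((-2 : F)) + (c * ((1 : F)) + (d * ((1 : F)) + (-5 : F))))) + (b * (b * ((-1 : F)) + (2 : F)) + (c * (d * ((-1 : F)) + (2 : F)) + (d * ((3 : F)) + (-1 : F))))) + (d * (a * (c * ((-1 : F)) + (d * ((-1 : F)) + (5 : F))) + (c * ((-1 : F)) + (d * ((-2 : F)) + (-2 : F)))) + (c * (a * ((2 : F)) + (-1 : F))))) + (d * (b * (b * (a * ((1 : F)) + (b * ((-1 : F)) + (2 : F))) + (a * ((-3 : F)) + (d * ((1 : F)) + (-1 : F)))) + (a * (a * ((-1 : F)) + (2 : F) * d) - (d))))) + (d * (b * (c * (b * ((-1 : F)) + (c * ((-1 : F)) + (d * ((-1 : F)) + (3 : F)))) + (d * (b * ((-1 : F)) + (4 : F)))) + (c * (c * ((1 : F)) + (-2 : F)) + (d * (d * ((-1 : F)) + (-3 : F))))))) + (d * (a * (a * (d * (a * ((1 : F)) + (c * ((-2 : F)) + (d * ((-1 : F)) + (1 : F)))) + (c * (a * ((1 : F)) - (c))))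 + (c * (c * ((1 : F)) + d))) + (d * (c * ((1 : F)) + d))))) + (b * (d * (d * (b * (b * ((-1 : F)) + (c * ((-1 : F)) + (2 : F))) + (c * ((1 : F)) + (-1 : F))))))) - (a * a * a * b * b * c * c))) / ((c + d) * a ^ 2 * F2 * (d - 1)))) - (((b)) ^ 2 * (((b * (d * (a * (b * (c * (a * (a * (b * (a * (c * ((-1 : F)) + (1 : F)) + (b * ((1 : F)) + (c * ((-3 : F)) + (-2 : F) * d))) + (a * (c * ((2 : F)) + (-1 : F)) + (c * ((4 : F)) + (d * ((3 : F)) + (-1 : F))))) + (b * (b * ((1 : F)) + (c * ((-1 : F)) + (d * ((-2 : F)) + (-2 : F)))) + (d * (c * ((-1 : F)) + (d * ((-1 : F)) + (3 : F))) + c))) + (b * (b * (c * ((1 : F)) + (-2 : F)) + (c * ((2 : F)) + (d * ((5 : F)) + (-1 : F)))) + (d * (c * ((-3 : F)) + (d * ((-5 : F)) + (1 : F)))))) + (d * (a * (b * (a * ((1 : F)) + (b * ((1 : F)) + (d * ((-1 : F)) + (-1 : F)))) + (a * ((-1 : F)) + (d * ((2 : F)) + (-1 : F)))) + (b * (b * ((-1 : F)) + (d *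 ((2 : F)) + (-1 : F))) + (d * (d * ((-1 : F)) + (1 : F))))))) + (c * (a * (a * (c * (a * ((-1 : F)) + (-1 : F)) - (d)) + (d * (c * ((2 : F)) + (2 : F) * d))) + (d * (c * ((1 : F)) + (3 : F) * d))))) + (c * (b * (b * (b * (c * ((1 : F)) + d) - (c * d)) + (-2 : F) * d * d) + d * d))) + (a * (b * (b * (c * (c * (a * (a * (b * ((1 : F)) + (-1 : F))) - (b)))))))) + (a * (c * (d * (d * (a * (c * ((-1 : F)) - (d)) - (d)))))))) / ((c + d) * F2 * (d - 1) * b ^ 3))) - (((c * (a * (b * ((1 : F)) + c) + (c * ((1 : F)) + d)) + (b * (d * (a * ((1 : F)) + (1 : F))))) * (b - 1) ^ 2 * (b - a) * (d - b) * F3) / (b * (c - 1) * (d - 1) * (c - a) * (c + d) * F2)) = ((b - 1) * (a * (b * (d * (a * (c * (a * (b * (a * (c * (a * (a * (c * (a * ((-1 : F)) + (c * ((1 : F)) + (-5 : F))) + (a * ((2 : F)) + (b * ((1 : F)) + (d * ((-2 : F)) + (5 : F))))) + (c * (c * ((3 : F)) + (d * ((1 : F)) + (-6 : F))) +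 (b * (d * ((-1 : F)) + (1 : F)) + (d * ((-2 : F)) + (3 : F))))) + (d * (b * (b * ((1 : F)) + (c * ((1 : F)) + (-3 : F))) + (c * ((-1 : F)) + (d * ((-1 : F)) + (-3 : F)))) + (c * (b * ((2 : F)) + (c * ((2 : F)) + (-5 : F))) + (b * ((-2 : F)) + (3 : F))))) + (d * (b * (b * (a * ((1 : F)) + (b * ((-1 : F)) + (d * ((1 : F)) + (1 : F)))) + (a * (d * ((-1 : F)) + (1 : F)) + (-3 : F) * d)) + (a * (a * ((3 : F)) + (d * ((1 : F)) + (3 : F))) + (d * (d * ((-1 : F)) + (3 : F)) + (4 : F)))) + (a * (a * (a * ((-1 : F)) + (b * ((-1 : F)) + (-1 : F))) - (b * b)) + (b * (b * (b * ((1 : F)) + (-1 : F))))))) + (b * (c * (b * (b * (c * ((-1 : F)) + (1 : F)) + (c * ((-1 : F)) + (d * ((-1 : F)) + (1 : F)))) + (c * (c * ((-1 : F)) + (d * ((4 : F)) + (3 : F))) + (d * (d * ((3 : F)) + (-3 : F)) + (-1 : F)))) + (d * (b * (b * ((-1 : F)) + (d * ((1 : F)) + (3 : F))) + (d * (d * ((1 : F)) + (-5 : F)) + (-1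 : F))))) + (d * (d * (c * ((-2 : F)) + (d * ((-2 : F)) + (2 : F))) + (c * ((-3 : F)) + (1 : F))) + (c * (c * (c * ((2 : F)) + (-3 : F))))))) + (c * (a * (a * (a * (c * (a * ((1 : F)) + (c * ((-1 : F)) + (2 : F))) + (a * ((-1 : F)) + (d * ((1 : F)) + (-1 : F)))) + (c * (c * ((-1 : F)) + (1 : F)) - (d * d))) + (c * (c * ((-1 : F)) + (d * ((3 : F)) + (1 : F))) + (d * (d * ((1 : F)) + (-1 : F))))) + (c * (d * (c * ((-1 : F)) + (d * ((-1 : F)) + (1 : F))) + (c * ((-1 : F)) + (1 : F))) + (d * (d * (-(d)) + (1 : F))))) + (d * (a * (d * (d * ((1 : F)) + (-1 : F)) - (a * a)) + d * d)))) + (b * (c * (b * (d * (c * (c * ((-1 : F)) + (3 : F)) + (b * (-(b)) + (d * ((3 : F)) + (-2 : F)))) + (b * (b * (c * ((-1 : F)) + (1 : F)) + (-1 : F)) + c)) + (d * (d * (d * ((1 : F)) + (1 : F)) + (c * ((1 : F)) + (-1 : F))) + (c * (c * ((1 : F)) + (-1 : F))))) + (b * (d * (d * (b * ((1 : F)) + (d * ((1 :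 F)) + (-6 : F))) + (1 : F))))) + (c * (d * (c * (c * ((-1 : F)) + (d * ((-1 : F)) + (1 : F))) - (d * d)))))) + (b * (d * (a * (a * (b * (b * (a * ((-1 : F)) + (b * ((1 : F)) + (d * ((-1 : F)) + (-1 : F)))) + (d * (a * ((1 : F)) + (2 : F)))) + (a * (a * ((-1 : F)) + (-1 : F)) - (d))) + (b * (d * (b * ((-1 : F)) + (2 : F))))) + (d * (b * (b * ((-1 : F)) + (3 : F)) - (d))))))) + (b * (d * (c * (c * (b * (c * (b * ((-1 : F)) + (c * ((-1 : F)) + (d * ((-1 : F)) + (3 : F)))) + (b * (d * ((-1 : F)) + (1 : F)) + (d * ((5 : F)) + (-2 : F)))) + (d * (c * ((-1 : F)) + (d * ((-1 : F)) + (1 : F))))) + (d * (b * (b * ((2 : F)) + (-5 : F)) + d))) + (b * (d * (b * ((-1 : F)) + (1 : F)))))))) + (a * (a * (b * (c * (c * (a * (b * (a * (a * (c * ((1 : F)) + (-1 : F)) + (b * ((-1 : F)) + (c * (-(c)) + (1 : F)))) + (b * (b * ((1 : F)) + (c * ((1 : F)) + (-1 : F))) + (-2 : F) * c)) + (c * (a * ((1 :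 F)) + (1 : F)))) + (b * (c * (b * ((1 : F)) + (-1 : F))))))))))) + (a * (a * (c * (d * (d * (c * (a * (a * (d * ((1 : F)) + (-1 : F)) + (c * ((-1 : F)) + d)) + (c * (c * ((1 : F)) + (d * ((1 : F)) + (-1 : F))) + d * d)) + (a * (d * (a * ((-1 : F)) + (-1 : F))))))))))) + (b * (b * (b * (c * (d * (d * (d * (c * (b * ((-1 : F)) + (c * ((-1 : F)) + (2 : F))) + (b * ((1 : F)) + (-1 : F)))))))))))) / ((c + d) * (c - a) * (d - 1) * b * (c - 1) * a ^ 2 * F2) := by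
    field_simp
    all_goals try simp only [hF2, hF3]
    all_goals ring
  rw [← sub_eq_zero, e, key, mul_zero, zero_div]

theorem d5_mk_MD (a b c d F2 F3 K : F)
    (hF2 : F2 = a * (d * (b * (c * ((-1 : F)) + (1 : F)) + (a * ((1 : F)) + (c * ((-1 : F)) + (d * ((-1 : F)) + (1 : F))))) + b * c) - (b * c * d))
    (hF3 : F3 = c * (d * (a * (b * ((-1 : F)) + (1 : F)) + (b * ((-1 : F)) + (c * ((-1 : F)) + (d * ((-1 : F)) + (1 : F))))) + a * b) + a * b * d)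
    (hK : K = d * (a * (c * ((-1 : F)) + (2 : F)) + (c * ((-2 : F)) + (d * ((-1 : F)) + (1 : F)))) + a * c)
    (n15 : (c + d) ≠ 0)
    (n20 : F2 ≠ 0)
    (n7 : (d - 1) ≠ 0)
    (n2 : c ≠ 0)
    (n1 : b ≠ 0)
    (n5 : (b - 1) ≠ 0)
    (n8 : (b - a) ≠ 0)
    (n12 : (d - b) ≠ 0)
    (n21 : F3 ≠ 0)
    (n6 : (c - 1) ≠ 0)
    (n9 : (c - a) ≠ 0) :
    (((c * (a * (b * (c * ((1 : F)) + (-1 : F)) + (c * ((-1 : F)) + d)) + (c * (b * ((1 : F)) + (-1 : F)))) + (d * (b * ((-1 : F)) + d))) * b * K) / ((c + d) * F2 * (d - 1))) - ((b)) ^ 3 * (((d * (d * (a * (b * ((1 : F)) + (-1 : F)) + (b * ((1 : F)) + (c * ((1 : F)) + (-1 : F)))) + (c * (a * c - (b)))) - (a * b * c * c)) * K) / ((c + d) * F2 * c * (d - 1) * b)) = (-(((b ^ 2 * (c - 1) * (c - a) * (d - c) * K) / (c * (b - 1) * (b - a) * (d - b) * F3)) * (((c * (a * (b * ((1 : F)) + c) + (c * ((1 : F)) + d)) + (b * (d * (a * ((1 : F)) + (1 :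 F))))) * (b - 1) ^ 2 * (b - a) * (d - b) * F3) / (b * (c - 1) * (d - 1) * (c - a) * (c + d) * F2)))) := by
  field_simp
  all_goals try simp only [hF2, hF3, hK]
  all_goals ring

theorem d5_mk_MN (a b c d F3 K : F)
    (hF3 : F3 = c * (d * (a * (b * ((-1 : F)) + (1 : F)) + (b * ((-1 : F)) + (c * ((-1 : F)) + (d * ((-1 : F)) + (1 : F))))) + a * b) + a * b * d)
    (hK : K = d * (a * (c * ((-1 : F)) + (2 : F)) + (c * ((-2 : F)) + (d * ((-1 : F)) + (1 : F)))) + a * c)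
    (n5 : (b - 1) ≠ 0)
    (n8 : (b - a) ≠ 0)
    (n21 : F3 ≠ 0)
    (n2 : c ≠ 0)
    (n12 : (d - b) ≠ 0)
    (r0 : a * (a * (b * (c * ((1 : F)) + (-1 : F)) - (c)) + (b * c + d)) + (d * (b * ((-1 : F)) + (c * ((-1 : F)) + (1 : F)))) = 0)
    (r1 : d * (c * (a * (b * ((1 : F)) - (c)) + (b * (-(c)) + d)) + (d * (a * ((-1 : F)) + (b * ((-1 : F)) + d)))) + a * b * c * c = 0)
    (r2 : d * (c * (a * (c * (a * ((1 : F)) + (d * ((1 : F)) + (1 : F))) + (d * (b * ((-1 : F)) + (-1 : F)) + (a * ((-1 : F)) + (1 : F)))) + (b * (c * (d * ((1 : F)) + (1 : F)) + (-1 : F)) + (d * (d * ((-1 : F)) + (-2 : F)) - (c)))) + (d * (a * (a * ((1 : F)) + (b * ((1 : F)) + (2 : F))) + (d * (b * ((1 : F)) + (d * ((-1 : F)) + (-1 : F))) + (1 : F))) + (a * (a * (-(b)) + (1 : F)) + (b * ((-1 : F)) + (1 : F))))) + (a * (a * (c * (c * ((-1 : F)) + (-1 : F)) - (b)) + b * c)) = 0)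
    (r3 : d * (a * (a * (b * (b * ((1 : F)) + (d * ((-1 : F)) + (-1 : F))) + (c * ((-1 : F)) + d)) + (b * (d * ((-1 : F)) + (-1 : F)) + (d * ((1 : F)) + (-1 : F)))) + (b * (b * (c * ((1 : F)) + (1 : F)) + (-2 : F) * d) + (d * (d * ((1 : F)) + (1 : F)) + (c * ((1 : F)) + (-1 : F))))) + (a * (b * (a * (b * ((1 : F)) + (1 : F)) + (c * (b * ((-1 : F)) + (-1 : F)))) + a * c)) = 0)
    (r4 : d * (c * (b * (c * (b * ((-1 : F)) + (d * ((-1 : F)) + (1 : F))) + (a * (b * ((1 : F)) + d) + (d * ((1 : F)) + (1 : F)))) + (c * (a * (d * ((-1 : F)) + (1 : F)) + (-1 : F)) + (d * (d * ((1 : F)) + (-1 : F))))) + (d * (d * (a * ((-1 : F)) + (d * ((1 : F)) + (-1 : F))) + (b * (b * ((-1 : F)) + (2 : F)) + (-1 : F))) - (a * b * b))) + (b * (c * (c * (b * ((-1 : F)) + (1 : F))))) = 0)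
    (r5 : d * (d * (c * (b * (c * (c * ((1 : F)) + (d * ((-1 : F)) + (-1 : F))) + (a * (d * ((1 : F)) + (-1 : F)) + (b * ((1 : F)) + (-4 : F)))) + (c * (a * (c * ((1 : F)) - (d)) + (d * ((-1 : F)) + (2 : F))) + (d * (a * ((1 : F)) + (1 : F)) + (2 : F)))) + (d * (a * (b * ((-1 : F)) + (d * ((-1 : F)) + (1 : F))) + (b * (d * ((-1 : F)) + (-2 : F)) + (d * d + (2 : F)))) + (b * (b * (a * ((1 : F)) + (1 : F)) + (-2 : F)) + (1 : F)))) + (c * (c * (b * (b * (c * ((1 : F)) + (2 : F)) + (c * ((-1 : F)) + (-3 : F))) + (a * (c * ((-1 : F)) + (-1 : F)) + (c * ((1 : F)) + (1 : F)))) - (b)) + a * b * b)) + (b * (c * (c * (b * (c * ((1 : F)) + (1 : F)) + (c * ((-1 : F)) + (-1 : F)))))) = 0) :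
    1 - ((d * (c - 1) * (c - a) * (c - b)) / ((b - 1) * (b - a) * F3)) - ((a * b ^ 2 * d * (c - 1) * (c - a) * (c - b)) / ((b - 1) * (b - a) * F3 * c)) = ((b ^ 2 * (c - 1) * (c - a) * (d - c) * K) / (c * (b - 1) * (b - a) * (d - b) * F3)) := by
  have key : (b * (d * (c * (a * (b * (a * (b * ((-1 : F)) + (c * ((1 : F)) + (d * ((1 : F)) + (-1 : F)))) + (c * (c * ((-1 : F)) + (3 : F)) + (-1 : F))) + (d * (a * ((-2 : F)) + (c * ((1 : F)) + (d * ((1 : F)) + (-3 : F)))))) + (c * (b * (b * ((-1 : F)) + (c * ((-2 : F)) + (2 : F))) + (c * ((1 : F)) + (d * ((1 : F)) + (-1 : F)))) + (d * (d * ((1 : F)) + (-1 : F))))) + (a * (d * (a * (b * ((-1 : F)) + (2 : F)) + (d * ((-1 : F)) + (1 : F))) + a * b * b))) + (a * (b * (c * (c * (a * ((-1 : F)) + (b * ((1 : F)) + (c * ((1 : F)) + (-1 : F))))))))) + (c * (d * (d * (a * (a * ((1 : F)) - (d)) + (c * (c * ((-1 : F)) + (1 : F)))))))) = 0 := by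
    linear_combination (b * (d * (b * ((-1 : F)) + (c * ((1 : F)) + (d * ((1 : F)) + (-1 : F)))) + (c * ((-1 : F)) + (-1 : F))) + (c * (d * ((1 : F)) + (-1 : F)) + (d * (-(d)) + (-2 : F)))) * r0 + (d * (d * (b * ((1 : F)) + (c * ((-1 : F)) + (d * ((2 : F)) + (2 : F)))) + (b * (c * ((-1 : F)) + (2 : F)) + (c * ((1 : F)) + (-1 : F)))) + (b * (b * ((1 : F)) + c) + (1 : F))) * r1 + ((1 : F)) * r2 + ((-1 : F)) * r3 + (d * (d * ((-1 : F)) + (-3 : F))) * r4 + (-(d)) * r5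
  have e : 1 - ((d * (c - 1) * (c - a) * (c - b)) / ((b - 1) * (b - a) * F3)) - ((a * b ^ 2 * d * (c - 1) * (c - a) * (c - b)) / ((b - 1) * (b - a) * F3 * c)) - ((b ^ 2 * (c - 1) * (c - a) * (d - c) * K) / (c * (b - 1) * (b - a) * (d - b) * F3)) = ((c - b) * (b * (d * (c * (a * (b * (a * (b * ((-1 : F)) + (c * ((1 : F)) + (d * ((1 : F)) + (-1 : F)))) + (c * (c * ((-1 : F)) + (3 : F)) + (-1 : F))) + (d * (a * ((-2 : F)) + (c * ((1 : F)) + (d * ((1 : F)) + (-3 : F)))))) + (c * (b * (b * ((-1 : F)) + (c * ((-2 : F)) + (2 : F))) + (c * ((1 : F)) + (d * ((1 : F)) + (-1 : F)))) + (d * (d * ((1 : F)) + (-1 : F))))) + (a * (d * (a * (b * ((-1 : F)) + (2 : F)) + (d * ((-1 : F)) + (1 : F))) + a * b * b))) + (a * (b * (c * (c * (a * ((-1 : F)) + (b * ((1 : F)) + (c * ((1 : F)) + (-1 : F))))))))) + (c * (d * (d * (a * (a * ((1 : F)) - (d)) + (c * (c * ((-1 : F)) + (1 : F))))))))) / ((d - b)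 * F3 * (b - 1) * (b - a) * c) := by
    field_simp
    all_goals try simp only [hF3, hK]
    all_goals ring
  rw [← sub_eq_zero, e, key, mul_zero, zero_div]

theorem d5_mk_U1_10 (a b c d : F)
    (n15 : (c + d) ≠ 0)
    (n7 : (d - 1) ≠ 0) :
    (((a * (a * (c * (a * ((1 : F)) + (-1 : F)) + d) + (c * ((-1 : F)) + (-2 : F) * d)) + (d * (c * ((1 : F)) + d)))) / ((c + d) * (d - 1))) = ((1 - (1 - (((a - 1) * (a * c + c + d)) / ((d - 1) * (c + d))))) * (((a)) * ((1))) + (1 - (((a - 1) * (a * c + c + d)) / ((d - 1) * (c + d)))) * (((a)) ^ 0 * ((1)))) := by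
  field_simp
  all_goals ring

theorem d5_mk_U1_13 (a b c d : F)
    (n15 : (c + d) ≠ 0)
    (n3 : d ≠ 0)
    (n6 : (c - 1) ≠ 0)
    (n9 : (c - a) ≠ 0)
    (n11 : (c - b) ≠ 0)
    (n14 : (a + 1) ≠ 0)
    (n7 : (d - 1) ≠ 0)
    (n0 : a ≠ 0)
    (n2 : c ≠ 0)
    (r1 : d * (c * (a * (b * ((1 : F)) - (c)) + (b * (-(c)) + d)) + (d * (a * ((-1 : F)) + (b * ((-1 : F)) + d)))) + a * b * c * c = 0) :
    ((a * (a * c + d)) / ((c + d))) = ((1 - (1 - (((-1) * (d - a) * (d - b) * (d - c) * (a * c + a * d + d)) / (d ^ 2 * (c - 1) * (c - a) * (c - b) * (a + 1))))) * (((a)) * (((a * (c * (a * (c * ((1 : F)) + (-1 : F)) + d) - (d)) + (c * (-(c)) + d * d))) / ((c + d) * (d - 1)))) + (1 - (((-1) * (d - a) * (d - b) * (d - c) * (a * c + a * d + d)) / (d ^ 2 * (c - 1) * (c - a) * (c - b) * (a + 1)))) * (((a)) ^ 3 * (((d * (a * (c * (c * ((1 : F)) + (-1 : F)) + a * d) + (d * (c * ((1 : F)) + (-1 :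 F)))) - (a * a * c * c))) / ((d - 1) * (c + d) * a ^ 2 * c)))) := by
  have key : (d * (c * (a * (b * ((-1 : F)) + c) + (b * c - (d))) + (d * (a * ((1 : F)) + (b * ((1 : F)) - (d))))) - (a * b * c * c)) = 0 := by
    linear_combination ((-1 : F)) * r1
  have e : ((a * (a * c + d)) / ((c + d))) - ((1 - (1 - (((-1) * (d - a) * (d - b) * (d - c) * (a * c + a * d + d)) / (d ^ 2 * (c - 1) * (c - a) * (c - b) * (a + 1))))) * (((a)) * (((a * (c * (a * (c * ((1 : F)) + (-1 : F)) + d) - (d)) + (c * (-(c)) + d * d))) / ((c + d) * (d - 1)))) + (1 - (((-1) * (d - a) * (d - b) * (d - c) * (a * c + a * d + d)) / (d ^ 2 * (c - 1) * (c - a) * (c - b) * (a + 1)))) * (((a)) ^ 3 * (((d * (a * (c * (c * ((1 : F)) + (-1 : F)) + a * d) + (d * (c * ((1 : F)) + (-1 : F)))) - (a * a * c * c))) / ((d - 1) * (c + d) * a ^ 2 * c)))) = (a * (a - 1) * (d - c) ^ 2 * (a * c + a * d + d) * (d * (c * (a * (b *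 ((-1 : F)) + c) + (b * c - (d))) + (d * (a * ((1 : F)) + (b * ((1 : F)) - (d))))) - (a * b * c * c))) / (d ^ 2 * (c + d) * (c - a) * (d - 1) * (c - 1) * c * (c - b)) := by
    field_simp
    all_goals ring
  rw [← sub_eq_zero, e, key, mul_zero, zero_div]

theorem d5_mk_U2_20 (a b c d : F)
    (n7 : (d - 1) ≠ 0)
    (n15 : (c + d) ≠ 0)
    (n0 : a ≠ 0)
    (n1 : b ≠ 0) :
    ((b)) ^ 1 * (((d * (a * (a * (b * ((-1 : F)) + (c * ((1 : F)) + d)) + (c * (b * ((1 : F)) + (-1 : F)))) + (d * (b * ((1 : F)) + (-1 : F)))) - (a * a * b * c))) / ((d - 1) * (c + d) * a ^ 2 * b)) = ((1 - ((d * (a - 1) * (a * c + a * d + d)) / (a ^ 2 * (d - 1) * (c + d)))) * (((b)) * ((1))) + ((d * (a - 1) * (a * c + a * d + d)) / (a ^ 2 * (d - 1) * (c + d))) * (((b)) ^ 0 * ((1)))) := by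
  field_simp
  all_goals ring

theorem d5_mk_U1_23 (a b c d F2 K : F)
    (hF2 : F2 = a * (d * (b * (c * ((-1 : F)) + (1 : F)) + (a * ((1 : F)) + (c * ((-1 : F)) + (d * ((-1 : F)) + (1 : F))))) + b * c) - (b * c * d))
    (hK : K = d * (a * (c * ((-1 : F)) + (2 : F)) + (c * ((-2 : F)) + (d * ((-1 : F)) + (1 : F)))) + a * c)
    (n15 : (c + d) ≠ 0)
    (n20 : F2 ≠ 0)
    (n3 : d ≠ 0)
    (n6 : (c - 1) ≠ 0)
    (n9 : (c - a) ≠ 0)
    (n11 : (c - b) ≠ 0)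
    (n14 : (a + 1) ≠ 0)
    (n7 : (d - 1) ≠ 0)
    (n2 : c ≠ 0)
    (n1 : b ≠ 0)
    (r1 : d * (c * (a * (b * ((1 : F)) - (c)) + (b * (-(c)) + d)) + (d * (a * ((-1 : F)) + (b * ((-1 : F)) + d)))) + a * b * c * c = 0) :
    ((b ^ 2 * (a * c + d) * K) / ((c + d) * F2)) = ((1 - (1 - (((-1) * (d - a) * (d - b) * (d - c) * (a * c + a * d + d)) / (d ^ 2 * (c - 1) * (c - a) * (c - b) * (a + 1))))) * (((b)) * (((c * (a * (b * (c * ((1 : F)) + (-1 : F)) + (c * ((-1 : F)) + d)) + (c * (b * ((1 : F)) + (-1 : F)))) + (d * (b * ((-1 : F)) + d))) * b * K) / ((c + d) * F2 * (d - 1)))) + (1 - (((-1) * (d - a) * (d - b) * (d - c) * (a * c + a * d + d)) / (d ^ 2 * (c - 1) * (c - a) * (c - b) * (a + 1)))) * (((b)) ^ 3 * (((d * (d * (a * (b * ((1 : F)) + (-1 : F)) + (b * ((1 : F)) + (c * ((1 : F)) + (-1 : F)))) + (c * (a * c - (b)))) - (a * b * c * c)) * K) / ((c + d) * F2 * c * (d - 1) * b)))) :=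 by
  have key : (d * (c * (a * (b * ((-1 : F)) + c) + (b * c - (d))) + (d * (a * ((1 : F)) + (b * ((1 : F)) - (d))))) - (a * b * c * c)) = 0 := by
    linear_combination ((-1 : F)) * r1
  have e : ((b ^ 2 * (a * c + d) * K) / ((c + d) * F2)) - ((1 - (1 - (((-1) * (d - a) * (d - b) * (d - c) * (a * c + a * d + d)) / (d ^ 2 * (c - 1) * (c - a) * (c - b) * (a + 1))))) * (((b)) * (((c * (a * (b * (c * ((1 : F)) + (-1 : F)) + (c * ((-1 : F)) + d)) + (c * (b * ((1 : F)) + (-1 : F)))) + (d * (b * ((-1 : F)) + d))) * b * K) / ((c + d) * F2 * (d - 1)))) + (1 - (((-1) * (d - a) * (d - b) * (d - c) * (a * c + a * d + d)) / (d ^ 2 * (c - 1) * (c - a) * (c - b) * (a + 1)))) * (((b)) ^ 3 * (((d * (d * (a * (b * ((1 : F)) + (-1 : F)) + (b * ((1 : F)) + (c * ((1 : F)) + (-1 : F)))) + (c * (a * c - (b)))) - (a * b * c * c)) * K) / ((c + d) * F2 * c * (d - 1) * b)))) = (b ^ 2 * (b - 1) * (d - c)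 ^ 2 * (a * c + a * d + d) * K * (d * (c * (a * (b * ((-1 : F)) + c) + (b * c - (d))) + (d * (a * ((1 : F)) + (b * ((1 : F)) - (d))))) - (a * b * c * c))) / (d ^ 2 * (c + d) * (c - a) * (d - 1) * (c - 1) * c * F2 * (c - b)) := by
    field_simp
    all_goals try simp only [hF2, hK]
    all_goals ring
  rw [← sub_eq_zero, e, key, mul_zero, zero_div]

theorem d5_mk_U2_30 (a b c d : F)
    (n7 : (d - 1) ≠ 0)
    (n15 : (c + d) ≠ 0)
    (n0 : a ≠ 0)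
    (n2 : c ≠ 0) :
    ((c)) ^ 1 * (((d * (a * (c * (c * ((1 : F)) + (-1 : F)) + a * d) + (d * (c * ((1 : F)) + (-1 : F)))) - (a * a * c * c))) / ((d - 1) * (c + d) * a ^ 2 * c)) = ((1 - ((d * (a - 1) * (a * c + a * d + d)) / (a ^ 2 * (d - 1) * (c + d)))) * (((c)) * ((1))) + ((d * (a - 1) * (a * c + a * d + d)) / (a ^ 2 * (d - 1) * (c + d))) * (((c)) ^ 0 * ((1)))) := by
  field_simp
  all_goals ring

theorem d5_mk_U1_33 (a b c d F2 F3 K : F)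
    (hF2 : F2 = a * (d * (b * (c * ((-1 : F)) + (1 : F)) + (a * ((1 : F)) + (c * ((-1 : F)) + (d * ((-1 : F)) + (1 : F))))) + b * c) - (b * c * d))
    (hF3 : F3 = c * (d * (a * (b * ((-1 : F)) + (1 : F)) + (b * ((-1 : F)) + (c * ((-1 : F)) + (d * ((-1 : F)) + (1 : F))))) + a * b) + a * b * d)
    (hK : K = d * (a * (c * ((-1 : F)) + (2 : F)) + (c * ((-2 : F)) + (d * ((-1 : F)) + (1 : F)))) + a * c)
    (n15 : (c + d) ≠ 0)
    (n20 : F2 ≠ 0)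
    (n21 : F3 ≠ 0)
    (n3 : d ≠ 0)
    (n6 : (c - 1) ≠ 0)
    (n9 : (c - a) ≠ 0)
    (n11 : (c - b) ≠ 0)
    (n14 : (a + 1) ≠ 0)
    (n7 : (d - 1) ≠ 0)
    (n2 : c ≠ 0)
    (r1 : d * (c * (a * (b * ((1 : F)) - (c)) + (b * (-(c)) + d)) + (d * (a * ((-1 : F)) + (b * ((-1 : F)) + d)))) + a * b * c * c = 0) :
    ((b * c ^ 2 * (a * c + d) * K ^ 2) / ((c + d) * F2 * F3)) = ((1 - (1 - (((-1) * (d - a) * (d - b) * (d - c) * (a * c + a * d + d)) / (d ^ 2 * (c - 1) * (c - a) * (c - b) * (a + 1))))) * (((c)) * (((c * (c * (a * (c * ((1 : F)) + (-2 : F)) + (c * ((1 : F)) + (-1 : F))) + (d * (a * ((1 : F)) + (-1 : F)))) + d * d) * b * c * K ^ 2) / ((c + d) * F2 * F3 * (d - 1)))) + (1 - (((-1) * (d - a) * (d - b) * (d - c) * (a * c + a * d + d)) / (d ^ 2 * (c - 1) * (c - a) * (c - b) * (a + 1)))) * (((c)) ^ 3 * (((d * (c * (a * (c * ((1 : F)) + d) + (c * ((-1 : F)) + (2 : F) * d)) + (d * (a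 * ((-1 : F)) + (-1 : F)))) - (a * c * c * c)) * b * K ^ 2) / ((c + d) * F2 * F3 * (d - 1) * c ^ 2)))) := by
  have key : (d * (c * (a * (b * ((-1 : F)) + c) + (b * c - (d))) + (d * (a * ((1 : F)) + (b * ((1 : F)) - (d))))) - (a * b * c * c)) = 0 := by
    linear_combination ((-1 : F)) * r1
  have e : ((b * c ^ 2 * (a * c + d) * K ^ 2) / ((c + d) * F2 * F3)) - ((1 - (1 - (((-1) * (d - a) * (d - b) * (d - c) * (a * c + a * d + d)) / (d ^ 2 * (c - 1) * (c - a) * (c - b) * (a + 1))))) * (((c)) * (((c * (c * (a * (c * ((1 : F)) + (-2 : F)) + (c * ((1 : F)) + (-1 : F))) + (d * (a * ((1 : F)) + (-1 : F)))) + d * d) * b * c * K ^ 2) / ((c + d) * F2 * F3 * (d - 1)))) + (1 - (((-1) * (d - a) * (d - b) * (d - c) * (a * c + a * d + d)) / (d ^ 2 * (c - 1) * (c - a) * (c - b) * (a + 1)))) * (((c)) ^ 3 * (((d * (c * (a * (c * ((1 : F)) + d) + (c * ((-1 : F)) + (2 : F) * d)) + (d * (a * ((-1 :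 F)) + (-1 : F)))) - (a * c * c * c)) * b * K ^ 2) / ((c + d) * F2 * F3 * (d - 1) * c ^ 2)))) = (b * c * (d - c) ^ 2 * (a * c + a * d + d) * K ^ 2 * (d * (c * (a * (b * ((-1 : F)) + c) + (b * c - (d))) + (d * (a * ((1 : F)) + (b * ((1 : F)) - (d))))) - (a * b * c * c))) / (d ^ 2 * (c + d) * (c - a) * (d - 1) * F3 * F2 * (c - b)) := by
    field_simp
    all_goals try simp only [hF2, hF3, hK]
    all_goals ring
  rw [← sub_eq_zero, e, key, mul_zero, zero_div]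

theorem d5_mk_U1_41 (a b c d F2 K : F)
    (hF2 : F2 = a * (d * (b * (c * ((-1 : F)) + (1 : F)) + (a * ((1 : F)) + (c * ((-1 : F)) + (d * ((-1 : F)) + (1 : F))))) + b * c) - (b * c * d))
    (hK : K = d * (a * (c * ((-1 : F)) + (2 : F)) + (c * ((-2 : F)) + (d * ((-1 : F)) + (1 : F)))) + a * c)
    (n15 : (c + d) ≠ 0)
    (n20 : F2 ≠ 0)
    (n4 : (a - 1) ≠ 0)
    (n0 : a ≠ 0)
    (r0 : a * (a * (b * (c * ((1 : F)) + (-1 : F)) - (c)) + (b * c + d)) + (d * (b * ((-1 : F)) + (c * ((-1 : F)) + (1 : F)))) = 0)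
    (r3 : d * (a * (a * (b * (b * ((1 : F)) + (d * ((-1 : F)) + (-1 : F))) + (c * ((-1 : F)) + d)) + (b * (d * ((-1 : F)) + (-1 : F)) + (d * ((1 : F)) + (-1 : F)))) + (b * (b * (c * ((1 : F)) + (1 : F)) + (-2 : F) * d) + (d * (d * ((1 : F)) + (1 : F)) + (c * ((1 : F)) + (-1 : F))))) + (a * (b * (a * (b * ((1 : F)) + (1 : F)) + (c * (b * ((-1 : F)) + (-1 : F)))) + a * c)) = 0) :
    ((b ^ 2 * (a * c + d) * K) / ((c + d) * F2)) = ((1 - (1 - (((-1) * d * (b - 1) * (b - a)) / ((a - 1) * F2)))) * (((d)) * ((a * (a * c + d)) / ((c + d)))) + (1 - (((-1) * d * (b - 1) * (b - a)) / ((a - 1) * F2))) * (((d)) ^ 1 * (((a * c + d)) / ((c + d) * a ^ 2)))) := by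
  have key : (d * (a * (b * (a * (b * (a * (c * ((-1 : F)) + (2 : F)) + (c * ((-2 : F)) + (1 : F))) + (d * (a * ((-1 : F)) + (-2 : F)))) + (d * (b * ((1 : F)) + (c * ((1 : F)) + (-3 : F))) - (c))) + (d * (a * a + (c * ((1 : F)) + d)))) + (b * (d * (b * ((1 : F)) + (c * ((1 : F)) + (-1 : F)))))) + a * a * a * b * b * c) = 0 := by
    linear_combination (a * (b * (d * ((-1 : F)) + (1 : F)) + (d * ((-1 : F)) + (1 : F))) - (b * d)) * r0 + (a) * r3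
  have e : ((b ^ 2 * (a * c + d) * K) / ((c + d) * F2)) - ((1 - (1 - (((-1) * d * (b - 1) * (b - a)) / ((a - 1) * F2)))) * (((d)) * ((a * (a * c + d)) / ((c + d)))) + (1 - (((-1) * d * (b - 1) * (b - a)) / ((a - 1) * F2))) * (((d)) ^ 1 * (((a * c + d)) / ((c + d) * a ^ 2)))) = ((a * c + d) * (d * (a * (b * (a * (b * (a * (c * ((-1 : F)) + (2 : F)) + (c * ((-2 : F)) + (1 : F))) + (d * (a * ((-1 : F)) + (-2 : F)))) + (d * (b * ((1 : F)) + (c * ((1 : F)) + (-3 : F))) - (c))) + (d * (a * a + (c * ((1 : F)) + d)))) + (b * (d * (b * ((1 : F)) + (c * ((1 : F)) + (-1 : F)))))) + a * a * a * b * b * c)) / ((c + d) * a ^ 2 * F2) := by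
    field_simp
    all_goals try simp only [hF2, hK]
    all_goals ring
  rw [← sub_eq_zero, e, key, mul_zero, zero_div]

theorem d5_mk_U1_42 (a b c d F2 F3 K : F)
    (hF2 : F2 = a * (d * (b * (c * ((-1 : F)) + (1 : F)) + (a * ((1 : F)) + (c * ((-1 : F)) + (d * ((-1 : F)) + (1 : F))))) + b * c) - (b * c * d))
    (hF3 : F3 = c * (d * (a * (b * ((-1 : F)) + (1 : F)) + (b * ((-1 : F)) + (c * ((-1 : F)) + (d * ((-1 : F)) + (1 : F))))) + a * b) + a * b * d)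
    (hK : K = d * (a * (c * ((-1 : F)) + (2 : F)) + (c * ((-2 : F)) + (d * ((-1 : F)) + (1 : F)))) + a * c)
    (n15 : (c + d) ≠ 0)
    (n20 : F2 ≠ 0)
    (n21 : F3 ≠ 0)
    (n5 : (b - 1) ≠ 0)
    (n8 : (b - a) ≠ 0)
    (n1 : b ≠ 0)
    (r0 : a * (a * (b * (c * ((1 : F)) + (-1 : F)) - (c)) + (b * c + d)) + (d * (b * ((-1 : F)) + (c * ((-1 : F)) + (1 : F)))) = 0)
    (r1 : d * (c * (a * (b * ((1 : F)) - (c)) + (b * (-(c)) + d)) + (d * (a * ((-1 : F)) + (b * ((-1 : F)) + d)))) + a * b * c * c = 0)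
    (r2 : d * (c * (a * (c * (a * ((1 : F)) + (d * ((1 : F)) + (1 : F))) + (d * (b * ((-1 : F)) + (-1 : F)) + (a * ((-1 : F)) + (1 : F)))) + (b * (c * (d * ((1 : F)) + (1 : F)) + (-1 : F)) + (d * (d * ((-1 : F)) + (-2 : F)) - (c)))) + (d * (a * (a * ((1 : F)) + (b * ((1 : F)) + (2 : F))) + (d * (b * ((1 : F)) + (d * ((-1 : F)) + (-1 : F))) + (1 : F))) + (a * (a * (-(b)) + (1 : F)) + (b * ((-1 : F)) + (1 : F))))) + (a * (a * (c * (c * ((-1 : F)) + (-1 : F)) - (b)) + b * c)) = 0)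
    (r3 : d * (a * (a * (b * (b * ((1 : F)) + (d * ((-1 : F)) + (-1 : F))) + (c * ((-1 : F)) + d)) + (b * (d * ((-1 : F)) + (-1 : F)) + (d * ((1 : F)) + (-1 : F)))) + (b * (b * (c * ((1 : F)) + (1 : F)) + (-2 : F) * d) + (d * (d * ((1 : F)) + (1 : F)) + (c * ((1 : F)) + (-1 : F))))) + (a * (b * (a * (b * ((1 : F)) + (1 : F)) + (c * (b * ((-1 : F)) + (-1 : F)))) + a * c)) = 0)
    (r4 : d * (c * (b * (c * (b * ((-1 : F)) + (d * ((-1 : F)) + (1 : F))) + (a * (b * ((1 : F)) + d) + (d * ((1 : F)) + (1 : F)))) + (c * (a * (d * ((-1 : F)) + (1 : F)) + (-1 : F)) + (d * (d * ((1 : F)) + (-1 : F))))) + (d * (d * (a * ((-1 : F)) + (d * ((1 : F)) + (-1 : F))) + (b * (b * ((-1 : F)) + (2 : F)) + (-1 : F))) - (a * b * b))) + (b * (c * (c * (b * ((-1 : F)) + (1 : F))))) = 0)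
    (r5 : d * (d * (c * (b * (c * (c * ((1 : F)) + (d * ((-1 : F)) + (-1 : F))) + (a * (d * ((1 : F)) + (-1 : F)) + (b * ((1 : F)) + (-4 : F)))) + (c * (a * (c * ((1 : F)) - (d)) + (d * ((-1 : F)) + (2 : F))) + (d * (a * ((1 : F)) + (1 : F)) + (2 : F)))) + (d * (a * (b * ((-1 : F)) + (d * ((-1 : F)) + (1 : F))) + (b * (d * ((-1 : F)) + (-2 : F)) + (d * d + (2 : F)))) + (b * (b * (a * ((1 : F)) + (1 : F)) + (-2 : F)) + (1 : F)))) + (c * (c * (b * (b * (c * ((1 : F)) + (2 : F)) + (c * ((-1 : F)) + (-3 : F))) + (a * (c * ((-1 : F)) + (-1 : F)) + (c * ((1 : F)) + (1 : F)))) - (b)) + a * b * b)) + (b * (c * (c * (b * (c * ((1 : F)) + (1 : F)) + (c * ((-1 : F)) + (-1 : F)))))) = 0) :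
    ((b * c ^ 2 * (a * c + d) * K ^ 2) / ((c + d) * F2 * F3)) = ((1 - (1 - ((d * (c - 1) * (c - a) * (c - b)) / ((b - 1) * (b - a) * F3)))) * (((d)) * ((b ^ 2 * (a * c + d) * K) / ((c + d) * F2))) + (1 - ((d * (c - 1) * (c - a) * (c - b)) / ((b - 1) * (b - a) * F3))) * (((d)) ^ 2 * (((a * c + d) * K) / ((c + d) * F2 * b)))) := by
  have key : (b * (d * (c * (b * (a * (c * (b * (c * (a * ((1 : F)) + (b * ((-1 : F)) + (3 : F))) + (a * ((-2 : F)) + (b * ((2 : F)) + (d * ((2 : F)) + (-3 : F))))) + (a * (c * ((-1 : F)) + (2 : F)) + (c * ((-2 : F)) + (d * ((-1 : F)) + (1 : F))))) + (d * (b * (b * ((-1 : F)) + (d * ((1 : F)) + (-2 : F))) + (a * (d * ((-1 : F)) + (1 : F)) + (d * ((-3 : F)) + (1 : F)))))) + (b * (c * (c * (b * ((-2 : F)) + (d * ((-1 : F)) + (2 : F))) + (b * ((1 : F)) + (d * ((2 : F)) + (-1 : F)))) + (d * (b * ((-1 : F)) + d))) + (d * (d * (c * ((1 : F)) + (d * ((1 : F))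 + (-2 : F))))))) + (d * (d * (a * (a * ((2 : F)) + (c * ((-1 : F)) + (d * ((-1 : F)) + (4 : F)))) + (c * ((-2 : F)) + (d * ((-1 : F)) + (2 : F)))) - (a * a)))) + (a * (d * (d * (b * (a * ((1 : F)) + (b * ((-1 : F)) + (1 : F))) + (a * ((-1 : F)) + (-1 : F))) + b * b * b)))) + (a * (b * (c * (c * (c * (b * (a * ((-1 : F)) + (b * ((1 : F)) + (-1 : F))) + a))))))) + (c * (d * (d * (d * (a * (a * ((-1 : F)) + d) + (c * (c * ((1 : F)) + (-1 : F))))))))) = 0 := by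
    linear_combination (b * (b * (c * (c * (d * ((1 : F)) + (-1 : F)) + (d * ((-1 : F)) + (-1 : F))) + (d * ((-1 : F)) + (-1 : F))) + (d * (d * (d * ((-1 : F)) + (1 : F)) + c) + (c * ((-1 : F)) + (-2 : F)))) + (c * (d * ((1 : F)) + (-1 : F)) + (d * d * d + (-2 : F)))) * r0 + (d * (b * (b * (b * (c * ((-1 : F)) + (d * ((1 : F)) + (1 : F))) + (c * (d * ((-1 : F)) + (3 : F)) + (d * ((2 : F) * d) + (-2 : F)))) + (d * (c * ((2 : F)) + (d * ((-3 : F)) + (-1 : F))) + (c * ((-2 : F)) + (2 : F)))) + (d * (d * (c * ((1 : F)) + (d * ((-2 : F)) + (-1 : F))) + (c * ((-1 : F)) + (2 : F))))) + (b * (b * (b * c + (1 : F)) + (1 : F)) + (1 : F))) * r1 + ((1 : F)) * r2 + (b * ((-1 : F)) + (-1 : F)) * r3 + (d * (b * (b * (d * ((-1 : F)) + (-2 : F)) + (d * ((1 : F)) + (1 : F))) + (d * (d * ((1 : F)) + (2 : F)) + (-1 : F)))) * r4 + (d * (b * (b * ((-1 : F)) + (1 : F)) + d)) * r5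
  have e : ((b * c ^ 2 * (a * c + d) * K ^ 2) / ((c + d) * F2 * F3)) - ((1 - (1 - ((d * (c - 1) * (c - a) * (c - b)) / ((b - 1) * (b - a) * F3)))) * (((d)) * ((b ^ 2 * (a * c + d) * K) / ((c + d) * F2))) + (1 - ((d * (c - 1) * (c - a) * (c - b)) / ((b - 1) * (b - a) * F3))) * (((d)) ^ 2 * (((a * c + d) * K) / ((c + d) * F2 * b)))) = ((a * c + d) * K * (b * (d * (c * (b * (a * (c * (b * (c * (a * ((1 : F)) + (b * ((-1 : F)) + (3 : F))) + (a * ((-2 : F)) + (b * ((2 : F)) + (d * ((2 : F)) + (-3 : F))))) + (a * (c * ((-1 : F)) + (2 : F)) + (c * ((-2 : F)) + (d * ((-1 : F)) + (1 : F))))) + (d * (b * (b * ((-1 : F)) + (d * ((1 : F)) + (-2 : F))) + (a * (d * ((-1 : F)) + (1 : F)) + (d * ((-3 : F)) + (1 : F)))))) + (b * (c * (c * (b * ((-2 : F)) + (d * ((-1 : F)) + (2 : F))) + (b * ((1 : F)) + (d * ((2 : F)) + (-1 : F)))) + (d * (b * ((-1 : F)) + d))) + (d * (d * (c * ((1 : F)) + (d *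 ((1 : F)) + (-2 : F))))))) + (d * (d * (a * (a * ((2 : F)) + (c * ((-1 : F)) + (d * ((-1 : F)) + (4 : F)))) + (c * ((-2 : F)) + (d * ((-1 : F)) + (2 : F)))) - (a * a)))) + (a * (d * (d * (b * (a * ((1 : F)) + (b * ((-1 : F)) + (1 : F))) + (a * ((-1 : F)) + (-1 : F))) + b * b * b)))) + (a * (b * (c * (c * (c * (b * (a * ((-1 : F)) + (b * ((1 : F)) + (-1 : F))) + a))))))) + (c * (d * (d * (d * (a * (a * ((-1 : F)) + d) + (c * (c * ((1 : F)) + (-1 : F)))))))))) / ((c + d) * F3 * b * (b - 1) * (b - a) * F2) := by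
    field_simp
    all_goals try simp only [hF2, hF3, hK]
    all_goals ring
  rw [← sub_eq_zero, e, key, mul_zero, zero_div]

theorem d5_mk_U2_42 (a b c d F2 F3 K : F)
    (hF2 : F2 = a * (d * (b * (c * ((-1 : F)) + (1 : F)) + (a * ((1 : F)) + (c * ((-1 : F)) + (d * ((-1 : F)) + (1 : F))))) + b * c) - (b * c * d))
    (hF3 : F3 = c * (d * (a * (b * ((-1 : F)) + (1 : F)) + (b * ((-1 : F)) + (c * ((-1 : F)) + (d * ((-1 : F)) + (1 : F))))) + a * b) + a * b * d)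
    (hK : K = d * (a * (c * ((-1 : F)) + (2 : F)) + (c * ((-2 : F)) + (d * ((-1 : F)) + (1 : F)))) + a * c)
    (n15 : (c + d) ≠ 0)
    (n20 : F2 ≠ 0)
    (n21 : F3 ≠ 0)
    (n2 : c ≠ 0)
    (n5 : (b - 1) ≠ 0)
    (n8 : (b - a) ≠ 0)
    (n1 : b ≠ 0)
    (r0 : a * (a * (b * (c * ((1 : F)) + (-1 : F)) - (c)) + (b * c + d)) + (d * (b * ((-1 : F)) + (c * ((-1 : F)) + (1 : F)))) = 0)
    (r1 : d * (c * (a * (b * ((1 : F)) - (c)) + (b * (-(c)) + d)) + (d * (a * ((-1 : F)) + (b * ((-1 : F)) + d)))) + a * b * c * c = 0)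
    (r2 : d * (c * (a * (c * (a * ((1 : F)) + (d * ((1 : F)) + (1 : F))) + (d * (b * ((-1 : F)) + (-1 : F)) + (a * ((-1 : F)) + (1 : F)))) + (b * (c * (d * ((1 : F)) + (1 : F)) + (-1 : F)) + (d * (d * ((-1 : F)) + (-2 : F)) - (c)))) + (d * (a * (a * ((1 : F)) + (b * ((1 : F)) + (2 : F))) + (d * (b * ((1 : F)) + (d * ((-1 : F)) + (-1 : F))) + (1 : F))) + (a * (a * (-(b)) + (1 : F)) + (b * ((-1 : F)) + (1 : F))))) + (a * (a * (c * (c * ((-1 : F)) + (-1 : F)) - (b)) + b * c)) = 0)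
    (r3 : d * (a * (a * (b * (b * ((1 : F)) + (d * ((-1 : F)) + (-1 : F))) + (c * ((-1 : F)) + d)) + (b * (d * ((-1 : F)) + (-1 : F)) + (d * ((1 : F)) + (-1 : F)))) + (b * (b * (c * ((1 : F)) + (1 : F)) + (-2 : F) * d) + (d * (d * ((1 : F)) + (1 : F)) + (c * ((1 : F)) + (-1 : F))))) + (a * (b * (a * (b * ((1 : F)) + (1 : F)) + (c * (b * ((-1 : F)) + (-1 : F)))) + a * c)) = 0)
    (r4 : d * (c * (b * (c * (b * ((-1 : F)) + (d * ((-1 : F)) + (1 : F))) + (a * (b * ((1 : F)) + d) + (d * ((1 : F)) + (1 : F)))) + (c * (a * (d * ((-1 : F)) + (1 : F)) + (-1 : F)) + (d * (d * ((1 : F)) + (-1 : F))))) + (d * (d * (a * ((-1 : F)) + (d * ((1 : F)) + (-1 : F))) + (b * (b * ((-1 : F)) + (2 : F)) + (-1 : F))) - (a * b * b))) + (b * (c * (c * (b * ((-1 : F)) + (1 : F))))) = 0)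
    (r5 : d * (d * (c * (b * (c * (c * ((1 : F)) + (d * ((-1 : F)) + (-1 : F))) + (a * (d * ((1 : F)) + (-1 : F)) + (b * ((1 : F)) + (-4 : F)))) + (c * (a * (c * ((1 : F)) - (d)) + (d * ((-1 : F)) + (2 : F))) + (d * (a * ((1 : F)) + (1 : F)) + (2 : F)))) + (d * (a * (b * ((-1 : F)) + (d * ((-1 : F)) + (1 : F))) + (b * (d * ((-1 : F)) + (-2 : F)) + (d * d + (2 : F)))) + (b * (b * (a * ((1 : F)) + (1 : F)) + (-2 : F)) + (1 : F)))) + (c * (c * (b * (b * (c * ((1 : F)) + (2 : F)) + (c * ((-1 : F)) + (-3 : F))) + (a * (c * ((-1 : F)) + (-1 : F)) + (c * ((1 : F)) + (1 : F)))) - (b)) + a * b * b)) + (b * (c * (c * (b * (c * ((1 : F)) + (1 : F)) + (c * ((-1 : F)) + (-1 : F)))))) = 0) :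
    ((d)) ^ 3 * ((b * (a * c + d) * K ^ 2) / ((c + d) * F2 * F3 * c)) = ((1 - ((a * b ^ 2 * d * (c - 1) * (c - a) * (c - b)) / ((b - 1) * (b - a) * F3 * c))) * (((d)) * ((b ^ 2 * (a * c + d) * K) / ((c + d) * F2))) + ((a * b ^ 2 * d * (c - 1) * (c - a) * (c - b)) / ((b - 1) * (b - a) * F3 * c)) * (((d)) ^ 2 * (((a * c + d) * K) / ((c + d) * F2 * b)))) := by
  have key : (d * (b * (c * (a * (b * (c * (b * (a * ((-2 : F)) + (c * ((1 : F)) + (-4 : F))) + (a * ((2 : F)) + (c * ((-1 : F)) + (d * ((-1 : F)) + (3 : F))))) + (a * (b * (b * ((1 : F)) + (2 : F)) + (-1 : F)) + (d * (d * ((-1 : F)) + (1 : F)) + b))) + (d * (a * (d * ((1 : F)) + (-2 : F)) + (c * ((2 : F)) + (d * ((3 : F)) + (-2 : F)))) + (c * (a * ((-1 : F)) + (c * ((1 : F)) + (-1 : F)))))) + (b * (c * (b * (b * ((1 : F)) + (c * ((1 : F)) + (d * ((1 : F)) + (-2 : F)))) + (c * ((-1 : F)) + (d * ((-1 : F)) + (1 : F)))) + (-2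 : F) * d * d) + (2 : F) * d * d)) + (d * (d * (a * (a * ((-2 : F)) + (b * ((2 : F)) + (d * ((1 : F)) + (-3 : F)))) + (b * (d * ((-1 : F)) + (1 : F)) + (d * ((1 : F)) + (-1 : F)))) + a * a) - (a * a * b * b * b))) + (a * (d * (c * (c * (a * ((1 : F)) + (c * ((-1 : F)) + (1 : F))) + (d * (a * ((-1 : F)) + (-2 : F)))) + (d * (a * ((2 : F)) + (d * ((-1 : F)) + (1 : F)))))))) + (a * (b * (b * (c * (c * (b * (a * ((1 : F)) + (b * ((-1 : F)) + (1 : F))) - (a)))))))) = 0 := by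
    linear_combination (b * (b * (d * (b * ((1 : F)) + (c * ((-2 : F)) + (1 : F))) + (c * ((1 : F)) + (1 : F))) + (1 : F)) + (d * (d * (d * ((1 : F)) + (-2 : F)) - (c)))) * r0 + (d * (b * (d * (b * ((-1 : F)) + (c * ((1 : F)) + (d * ((-2 : F)) + (-3 : F)))) + (b * (c * ((1 : F)) + (-3 : F)) + (c * ((-1 : F)) + (3 : F)))) + (d * (d * ((-1 : F)) + (2 : F)) + c)) - (b * b * b)) * r1 + (d) * r2 + (b * ((1 : F)) + d) * r3 + (d * (b * (d * ((1 : F)) + (3 : F)) + d)) * r4 + (b * d) * r5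
  have e : ((d)) ^ 3 * ((b * (a * c + d) * K ^ 2) / ((c + d) * F2 * F3 * c)) - ((1 - ((a * b ^ 2 * d * (c - 1) * (c - a) * (c - b)) / ((b - 1) * (b - a) * F3 * c))) * (((d)) * ((b ^ 2 * (a * c + d) * K) / ((c + d) * F2))) + ((a * b ^ 2 * d * (c - 1) * (c - a) * (c - b)) / ((b - 1) * (b - a) * F3 * c)) * (((d)) ^ 2 * (((a * c + d) * K) / ((c + d) * F2 * b)))) = (b * d * (a * c + d) * K * (d * (b * (c * (a * (b * (c * (b * (a * ((-2 : F)) + (c * ((1 : F)) + (-4 : F))) + (a * ((2 : F)) + (c * ((-1 : F)) + (d * ((-1 : F)) + (3 : F))))) + (a * (b * (b * ((1 : F)) + (2 : F)) + (-1 : F)) + (d * (d * ((-1 : F)) + (1 : F)) + b))) + (d * (a * (d * ((1 : F)) + (-2 : F)) + (c * ((2 : F)) + (d * ((3 : F)) + (-2 : F)))) + (c * (a * ((-1 : F)) + (c * ((1 : F)) + (-1 : F)))))) + (b * (c * (b * (b * ((1 : F)) + (c * ((1 : F)) + (d * ((1 : F)) + (-2 : F)))) + (c * ((-1 : F)) + (d * ((-1 : F)) +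 (1 : F)))) + (-2 : F) * d * d) + (2 : F) * d * d)) + (d * (d * (a * (a * ((-2 : F)) + (b * ((2 : F)) + (d * ((1 : F)) + (-3 : F)))) + (b * (d * ((-1 : F)) + (1 : F)) + (d * ((1 : F)) + (-1 : F)))) + a * a) - (a * a * b * b * b))) + (a * (d * (c * (c * (a * ((1 : F)) + (c * ((-1 : F)) + (1 : F))) + (d * (a * ((-1 : F)) + (-2 : F)))) + (d * (a * ((2 : F)) + (d * ((-1 : F)) + (1 : F)))))))) + (a * (b * (b * (c * (c * (b * (a * ((1 : F)) + (b * ((-1 : F)) + (1 : F))) - (a))))))))) / ((c + d) * F3 * (b - 1) * (b - a) * c * F2) := by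
    field_simp
    all_goals try simp only [hF2, hF3, hK]
    all_goals ring
  rw [← sub_eq_zero, e, key, mul_zero, zero_div]

theorem d5_mk_dt01 (a b c d : F)
    (n4 : (a - 1) ≠ 0) :
    ((a)) - ((1)) ≠ 0 := by
  have main : ((a)) - ((1)) = (((a - 1))) := by
    field_simp
    all_goals ring
  rw [main]
  (first | exact one_ne_zero | assumption | (refine div_ne_zero ?_ ?_ <;> (repeat' apply mul_ne_zero) <;> first | assumption | exact one_ne_zero | exact neg_ne_zero.2 one_ne_zero | (apply pow_ne_zero; assumption)) | ((repeat' apply mul_ne_zero) <;> first | assumption | exact one_ne_zero | exact neg_ne_zero.2 one_ne_zero | (apply pow_ne_zero; assumption)))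

theorem d5_mk_dt03 (a b c d : F)
    (n6 : (c - 1) ≠ 0) :
    ((c)) - ((1)) ≠ 0 := by
  have main : ((c)) - ((1)) = (((c - 1))) := by
    field_simp
    all_goals ring
  rw [main]
  (first | exact one_ne_zero | assumption | (refine div_ne_zero ?_ ?_ <;> (repeat' apply mul_ne_zero) <;> first | assumption | exact one_ne_zero | exact neg_ne_zero.2 one_ne_zero | (apply pow_ne_zero; assumption)) | ((repeat' apply mul_ne_zero) <;> first | assumption | exact one_ne_zero | exact neg_ne_zero.2 one_ne_zero | (apply pow_ne_zero; assumption)))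

theorem d5_mk_dt14 (a b c d : F)
    (n10 : (d - a) ≠ 0) :
    ((d)) - ((a)) ≠ 0 := by
  have main : ((d)) - ((a)) = (((d - a))) := by
    field_simp
    all_goals ring
  rw [main]
  (first | exact one_ne_zero | assumption | (refine div_ne_zero ?_ ?_ <;> (repeat' apply mul_ne_zero) <;> first | assumption | exact one_ne_zero | exact neg_ne_zero.2 one_ne_zero | (apply pow_ne_zero; assumption)) | ((repeat' apply mul_ne_zero) <;> first | assumption | exact one_ne_zero | exact neg_ne_zero.2 one_ne_zero | (apply pow_ne_zero; assumption)))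

theorem d5_mk_aN3 (a b c d : F)
    (n3 : d ≠ 0)
    (n6 : (c - 1) ≠ 0)
    (n9 : (c - a) ≠ 0)
    (n11 : (c - b) ≠ 0)
    (n14 : (a + 1) ≠ 0)
    (n2 : c ≠ 0)
    (n7 : (d - 1) ≠ 0)
    (n10 : (d - a) ≠ 0)
    (n12 : (d - b) ≠ 0)
    (n16 : (a * c + d) ≠ 0)
    (r1 : d * (c * (a * (b * ((1 : F)) - (c)) + (b * (-(c)) + d)) + (d * (a * ((-1 : F)) + (b * ((-1 : F)) + d)))) + a * b * c * c = 0) :
    1 - (((-1) * (d - a) * (d - b) * (d - c) * (a * c + a * d + d)) / (d ^ 2 * (c - 1) * (c - a) * (c - b) * (a + 1))) - (((-1) * c * (d - a) * (d - b) * (d - c) * (a * c + c + d)) / (d ^ 2 * (c - 1) * (c - a) * (c - b) * (a + 1))) ≠ 0 := by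
  have main : 1 - (((-1) * (d - a) * (d - b) * (d - c) * (a * c + a * d + d)) / (d ^ 2 * (c - 1) * (c - a) * (c - b) * (a + 1))) - (((-1) * c * (d - a) * (d - b) * (d - c) * (a * c + c + d)) / (d ^ 2 * (c - 1) * (c - a) * (c - b) * (a + 1))) = ((c * (d - 1) * (d - a) * (d - b) * (a * c + d)) / (d ^ 2 * (c - 1) * (c - a) * (c - b) * (a + 1))) := by
    have key : (d * (c * (a * (b * ((1 : F)) - (c)) + (b * (-(c)) + d)) + (d * (a * ((-1 : F)) + (b * ((-1 : F)) + d)))) + a * b * c * c) = 0 := by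
      linear_combination ((1 : F)) * r1
    have e : 1 - (((-1) * (d - a) * (d - b) * (d - c) * (a * c + a * d + d)) / (d ^ 2 * (c - 1) * (c - a) * (c - b) * (a + 1))) - (((-1) * c * (d - a) * (d - b) * (d - c) * (a * c + c + d)) / (d ^ 2 * (c - 1) * (c - a) * (c - b) * (a + 1))) - ((c * (d - 1) * (d - a) * (d - b) * (a * c + d)) / (d ^ 2 * (c - 1) * (c - a) * (c - b) * (a + 1))) = ((d - c) * (d * (c * (a * (b * ((1 : F)) - (c)) + (b * (-(c)) + d)) + (d * (a * ((-1 : F)) + (b * ((-1 : F)) + d)))) + a * b * c * c)) / (d ^ 2 * (c - a) * (c - 1) * (c - b)) := by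
      field_simp
      all_goals ring
    rw [← sub_eq_zero, e, key, mul_zero, zero_div]
  rw [main]
  (first | exact one_ne_zero | assumption | (refine div_ne_zero ?_ ?_ <;> (repeat' apply mul_ne_zero) <;> first | assumption | exact one_ne_zero | exact neg_ne_zero.2 one_ne_zero | (apply pow_ne_zero; assumption)) | ((repeat' apply mul_ne_zero) <;> first | assumption | exact one_ne_zero | exact neg_ne_zero.2 one_ne_zero | (apply pow_ne_zero; assumption)))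

end Pool.Agent.Helper54.IP
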