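import Pool.Agent.Helper54.IP.C3

/-!
TH-P phase 2: finite sequences for the tables of the small closed corners.
-/

namespace Pool.Agent.Helper54.IP

def sq4 {α : Type*} (x0 x1 x2 x3 : α) : ℕ → α
  | 0 => x0
  | 1 => x1
  | 2 => x2
  | _ => x3

def sq5 {α : Type*} (x0 x1 x2 x3 x4 : α) : ℕ → α
  | 0 => x0
  | 1 => x1
  | 2 => x2
  | 3 => x3
  | _ => x4

def sq6 {α : Type*} (x0 x1 x2 x3 x4 x5 : α) : ℕ → α
  | 0 => x0
  | 1 => x1
  | 2 => x2
  | 3 => x3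
  | 4 => x4
  | _ => x5

end Pool.Agent.Helper54.IP
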