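import Pool.Agent.Helper54.IP.E3
import Pool.Agent.Helper14.IP.Level2
import Pool.Agent.Helper76.IP.Z1
import Pool.Agent.Helper27.IP.Closed2
import Pool.Agent.Helper27.IP.Closed2b

/-!
TH-P: the leaves of the elimination tree (stubs, to be replaced by the proofs of the owners) and `elim`.
Variables in the comments: `t = t_1, T = t_2, u = s_1, S = s_2, x = 1 - lam'_0, x' = mu'_0`.
-/

namespace Pool.Agent.Helper54.IP

variable {F : Type*} [Field F] {m : ℕ}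

/-- type 1 at `(1,1)`, `t_2 ≠ s_2`.  Owner: helper82. -/
theorem n_dead (g : GForm F m) (hm : 6 ≤ m) (hD : g.G 1 1 ≠ g.H 1 1) (h2 : g.t 2 ≠ g.s 2)
    (hn1 : (g.s 2 * g.t 1 - g.t 2) * ((1 - g.lam' 0) - g.t 1 * g.mu' 0 + g.t 1 - 1) =
        (g.s 2 - 1) * (g.t 1 * g.t 2 * (1 - g.lam' 0) - g.t 1 * g.mu' 0))
    (hn2 : (g.t 2 * g.s 1 - g.s 2) * ((1 - g.lam' 0) - g.t 1 * g.mu' 0 + g.t 1 - 1) =
        (g.t 2 - 1) * (g.s 1 * g.s 2 * (1 - g.lam' 0) - g.t 1 * g.mu' 0)) : False := by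
  sorry

/-- the diagonal branch.  Owner: helper16. -/
theorem d_branch (g : GForm F m) (hm : 6 ≤ m) (hD : g.G 1 1 ≠ g.H 1 1) (h1 : g.t 1 = g.s 1)
    (h2 : g.t 2 = g.s 2) (hk : g.kap 1 2 ≠ 0) :
    g.t 2 = g.t 1 ^ 2 ∧ (g.s 3 = g.t 1 ^ 3 ∨ g.t 3 = g.t 1 ^ 3) := by
  sorry

/-- the elimination theorem. -/
theorem elim (g : GForm F m) (hm : 6 ≤ m) :
    ∀ i, i + 1 < m → g.t i = g.t 1 ^ i ∧ g.s i = g.t 1 ^ i := by
  by_cases hD : g.G 1 1 = g.H 1 1
  · exact (Pool.Agent.Helper76.IP.z1_dead g hm hD).elim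
  rcases Pool.Agent.Helper14.IP.level2 g (by omega) hD with ⟨h2, h1⟩ | ⟨h2, h1, h⟩ | ⟨h2, hn1, hn2⟩
  · by_cases hk : g.kap 1 2 = 0
    · exact (Pool.Agent.Helper27.IP.closed2_dead g hm hD h1 h2 hk).elim
    obtain ⟨hT, h3⟩ := d_branch g hm hD h1 h2 hk
    have main : ∀ g : GForm F m, g.t 1 = g.s 1 → g.t 2 = g.s 2 → g.t 2 = g.t 1 ^ 2 →
        g.t 3 = g.t 1 ^ 3 → ∀ i, i + 1 < m → g.t i = g.t 1 ^ i ∧ g.s i = g.t 1 ^ i := by
      intro g h1 h2 hT h3 i hi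
      have e := e3 g (by omega) (g.t 1) (by
        intro j hj
        interval_cases j
        · rw [g.t0, pow_zero]
        · rw [pow_one]
        · exact hT
        · exact h3) h1.symm (by rw [← h2, hT])
      have e' := e3 g.swap (by omega) (g.t 1) (by
        intro j hj
        exact e j (by omega)) rfl hT
      exact ⟨e' i hi, e i hi⟩
    rcases h3 with h3 | h3
    · have := main g.swap h1.symm h2.symm (by
        show g.s 2 = g.s 1 ^ 2
        rw [← h2, hT, h1]) (by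
        show g.s 3 = g.s 1 ^ 3
        rw [h3, h1])
      intro i hi
      obtain ⟨e1, e2⟩ := this i hi
      simp only [GForm.swap_t, GForm.swap_s] at e1 e2
      rw [e1, e2, h1]
      exact ⟨rfl, rfl⟩
    · exact main g h1 h2 hT h3
  · exact (Pool.Agent.Helper27.IP.c3_dead g hm hD h2 h1 h).elim
  · exact (n_dead g hm hD h2 hn1 hn2).elim

end Pool.Agent.Helper54.IP
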